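import Pool.Statements.S00362
import Pool.Agent.U216.Delt.Local
import Pool.Agent.H823R3.Pi1Cyclic

set_option autoImplicit false
open Pool Pool.MP_aaa69e_ag

namespace Pool.Agent.S00362

open Pool.Agent.U216.Delt

/-- a primitive third root of unity -/
lemma exists_zeta : ∃ ζ : ℂ, ζ ^ 2 + ζ + 1 = 0 := by
  have hd : (Polynomial.C 1 * Polynomial.X ^ 2 + Polynomial.C 1 * Polynomial.X +
      Polynomial.C 1 : Polynomial ℂ).degree ≠ 0 := by
    rw [Polynomial.degree_quadratic one_ne_zero]; decide
  obtain ⟨a, ha⟩ := IsAlgClosed.exists_root _ hd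
  refine ⟨a, ?_⟩
  simp only [Polynomial.IsRoot.def, Polynomial.eval_add, Polynomial.eval_mul, Polynomial.eval_C,
    Polynomial.eval_pow, Polynomial.eval_X] at ha
  linear_combination ha

lemma pd0 (z : Fin 2 → ℂ) : MvPolynomial.eval z (MvPolynomial.pderiv 0 F) =
    2 * z 0 * z 1 ^ 2 - 12 * z 0 ^ 2 + 18 * z 1 := by
  have h : (27 : MvPolynomial (Fin 2) ℂ) = MvPolynomial.C 27 := by rw [map_ofNat]
  have h4 : (4 : MvPolynomial (Fin 2) ℂ) = MvPolynomial.C 4 := by rw [map_ofNat]
  have h18 : (18 : MvPolynomial (Fin 2) ℂ) = MvPolynomial.C 18 := by rw [map_ofNat]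
  unfold F
  rw [h, h4, h18]
  simp [MvPolynomial.pderiv_X]
  ring

lemma pd1 (z : Fin 2 → ℂ) : MvPolynomial.eval z (MvPolynomial.pderiv 1 F) =
    2 * z 0 ^ 2 * z 1 - 12 * z 1 ^ 2 + 18 * z 0 := by
  have h : (27 : MvPolynomial (Fin 2) ℂ) = MvPolynomial.C 27 := by rw [map_ofNat]
  have h4 : (4 : MvPolynomial (Fin 2) ℂ) = MvPolynomial.C 4 := by rw [map_ofNat]
  have h18 : (18 : MvPolynomial (Fin 2) ℂ) = MvPolynomial.C 18 := by rw [map_ofNat]
  unfold F
  rw [h, h4, h18]
  simp [MvPolynomial.pderiv_X]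
  ring

/-- The negation of the preceding statement: For every irreducible f in ℂ[x,y], the number of singular points of the curve f=0 where the curve has one local branch is at most the first Betti number (rank of abelianized fundamental group) of the curve plus one. -/
theorem result :
    ¬ (∀ f : MvPolynomial (Fin 2) ℂ, Irreducible f →
    ∀ x₀ : ↥{z : Fin 2 → ℂ | MvPolynomial.eval z f = 0},
    Set.ncard {p : Fin 2 → ℂ | MvPolynomial.eval p f = 0 ∧
        (∀ i : Fin 2, MvPolynomial.eval p (MvPolynomial.pderiv i f) = 0) ∧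
        ∃ ε : ℝ, 0 < ε ∧ ∀ δ : ℝ, 0 < δ → δ < ε →
          IsPreconnected {q : Fin 2 → ℂ | MvPolynomial.eval q f = 0 ∧ q ≠ p ∧
            ‖q 0 - p 0‖ ^ 2 + ‖q 1 - p 1‖ ^ 2 < δ ^ 2}}
      ≤ Module.finrank ℤ
          (Additive (Abelianization
            (FundamentalGroup ↥{z : Fin 2 → ℂ | MvPolynomial.eval z f = 0} x₀))) + 1) := by
  intro hcon
  have h := hcon F irreducible_F ⟨phi 1, eval_phi one_ne_zero⟩
  have hr := Pool.Agent.H823R3.finrank_le_one_of_homeomorph homeo ⟨phi 1, eval_phi one_ne_zero⟩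
  obtain ⟨ζ, hζ⟩ := exists_zeta
  have hζ3 : ζ ^ 3 = 1 := by linear_combination (ζ - 1) * hζ
  have hζ0 : ζ ≠ 0 := by rintro rfl; simp at hζ
  have hζ1 : ζ ≠ 1 := by rintro rfl; norm_num at hζ
  have hnorm : ‖ζ‖ = 1 := by
    have := congrArg norm hζ3
    rw [norm_pow, norm_one] at this
    exact (pow_eq_one_iff_of_nonneg (norm_nonneg _) (by norm_num)).1 this
  -- the singular point set
  set g : ℂ → (Fin 2 → ℂ) := fun c => ![3 * c, 3 * c ^ 2] with hg
  set S := {p : Fin 2 → ℂ | MvPolynomial.eval p F = 0 ∧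
        (∀ i : Fin 2, MvPolynomial.eval p (MvPolynomial.pderiv i F) = 0) ∧
        ∃ ε : ℝ, 0 < ε ∧ ∀ δ : ℝ, 0 < δ → δ < ε →
          IsPreconnected {q : Fin 2 → ℂ | MvPolynomial.eval q F = 0 ∧ q ≠ p ∧
            ‖q 0 - p 0‖ ^ 2 + ‖q 1 - p 1‖ ^ 2 < δ ^ 2}} with hS
  have hmem : ∀ c : ℂ, c ^ 3 = 1 → g c ∈ S := by
    intro c hc
    have hc0 : c ≠ 0 := by rintro rfl; norm_num at hc
    have hcn : ‖c‖ = 1 := by
      have := congrArg norm hc
      rw [norm_pow, norm_one] at this
      exact (pow_eq_one_iff_of_nonneg (norm_nonneg _) (by norm_num)).1 this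
    refine ⟨?_, ?_, 1 / 16, by norm_num, ?_⟩
    · rw [eval_F]
      simp only [hg, Matrix.cons_val_zero, Matrix.cons_val_one]
      linear_combination (-27 * (c ^ 3 - 1)) * hc
    · intro i
      fin_cases i
      · show MvPolynomial.eval (g c) (MvPolynomial.pderiv 0 F) = 0
        rw [pd0]
        simp only [hg, Matrix.cons_val_zero, Matrix.cons_val_one]
        linear_combination (54 * c ^ 2) * hc
      · show MvPolynomial.eval (g c) (MvPolynomial.pderiv 1 F) = 0
        rw [pd1]
        simp only [hg, Matrix.cons_val_zero, Matrix.cons_val_one]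
        linear_combination (-54 * c) * hc
    · intro δ hδ0 hδ
      have h1 := preconn_one δ hδ0 hδ
      have himg : {q : Fin 2 → ℂ | MvPolynomial.eval q F = 0 ∧ q ≠ g c ∧
            ‖q 0 - g c 0‖ ^ 2 + ‖q 1 - g c 1‖ ^ 2 < δ ^ 2} =
          (fun q : Fin 2 → ℂ => (![c * q 0, c ^ 2 * q 1] : Fin 2 → ℂ)) ''
            {q : Fin 2 → ℂ | MvPolynomial.eval q F = 0 ∧ q ≠ phi 1 ∧
            ‖q 0 - phi 1 0‖ ^ 2 + ‖q 1 - phi 1 1‖ ^ 2 < δ ^ 2} := by
        have e0 : phi 1 0 = 3 := by rw [phi_zero_coord]; norm_num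
        have e1 : phi 1 1 = 3 := by rw [phi_one_coord]; norm_num
        ext q
        constructor
        · rintro ⟨hq1, hq2, hq3⟩
          refine ⟨![c ^ 2 * q 0, c * q 1], ⟨?_, ?_, ?_⟩, ?_⟩
          · rw [eval_F] at hq1 ⊢
            simp only [Matrix.cons_val_zero, Matrix.cons_val_one]
            linear_combination hq1 + (q 0 ^ 2 * q 1 ^ 2 * (c ^ 3 + 1) - 4 * q 0 ^ 3 * (c ^ 3 + 1)
              - 4 * q 1 ^ 3 + 18 * q 0 * q 1) * hc
          · intro hh
            apply hq2
            have a0 : c ^ 2 * q 0 = 3 := by rw [← e0]; exact congrFun hh 0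
            have a1 : c * q 1 = 3 := by rw [← e1]; exact congrFun hh 1
            funext i
            fin_cases i
            · show q 0 = 3 * c
              linear_combination c * a0 - q 0 * hc
            · show q 1 = 3 * c ^ 2
              linear_combination c ^ 2 * a1 - q 1 * hc
          · rw [e0, e1]
            simp only [Matrix.cons_val_zero, Matrix.cons_val_one]
            have b0 : c ^ 2 * q 0 - 3 = c ^ 2 * (q 0 - g c 0) := by
              show c ^ 2 * q 0 - 3 = c ^ 2 * (q 0 - 3 * c)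
              linear_combination 3 * hc
            have b1 : c * q 1 - 3 = c * (q 1 - g c 1) := by
              show c * q 1 - 3 = c * (q 1 - 3 * c ^ 2)
              linear_combination 3 * hc
            rw [b0, b1, norm_mul, norm_mul, norm_pow, hcn]
            simpa using hq3
          · funext i
            fin_cases i
            · show c * (c ^ 2 * q 0) = q 0
              linear_combination q 0 * hc
            · show c ^ 2 * (c * q 1) = q 1
              linear_combination q 1 * hc
        · rintro ⟨q', ⟨hq1, hq2, hq3⟩, rfl⟩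
          refine ⟨?_, ?_, ?_⟩
          · rw [eval_F] at hq1 ⊢
            simp only [Matrix.cons_val_zero, Matrix.cons_val_one]
            linear_combination hq1 + (q' 0 ^ 2 * q' 1 ^ 2 * (c ^ 3 + 1) - 4 * q' 1 ^ 3 * (c ^ 3 + 1)
              - 4 * q' 0 ^ 3 + 18 * q' 0 * q' 1) * hc
          · intro hh
            apply hq2
            have a0 : c * q' 0 = 3 * c := congrFun hh 0
            have a1 : c ^ 2 * q' 1 = 3 * c ^ 2 := congrFun hh 1
            funext i
            fin_cases i
            · show q' 0 = phi 1 0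
              rw [e0]
              have := mul_left_cancel₀ hc0 (a0.trans (mul_comm _ _))
              exact this
            · show q' 1 = phi 1 1
              rw [e1]
              have := mul_left_cancel₀ (pow_ne_zero 2 hc0) (a1.trans (mul_comm _ _))
              exact this
          · simp only [Matrix.cons_val_zero, Matrix.cons_val_one]
            rw [e0, e1] at hq3
            have b0 : c * q' 0 - g c 0 = c * (q' 0 - 3) := by
              show c * q' 0 - 3 * c = c * (q' 0 - 3)
              ring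
            have b1 : c ^ 2 * q' 1 - g c 1 = c ^ 2 * (q' 1 - 3) := by
              show c ^ 2 * q' 1 - 3 * c ^ 2 = c ^ 2 * (q' 1 - 3)
              ring
            rw [b0, b1, norm_mul, norm_mul, norm_pow, hcn]
            simpa using hq3
      rw [himg]
      refine h1.image _ (Continuous.continuousOn ?_)
      refine continuous_pi fun i => ?_
      fin_cases i
      · show Continuous fun q : Fin 2 → ℂ => c * q 0
        fun_prop
      · show Continuous fun q : Fin 2 → ℂ => c ^ 2 * q 1
        fun_prop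
  have hsub : S ⊆ {g 1, g ζ, g (ζ ^ 2)} := by
    rintro p ⟨hp1, hp2, -⟩
    have d0 := hp2 0
    have d1 := hp2 1
    rw [pd0] at d0
    rw [pd1] at d1
    rw [eval_F] at hp1
    have k1 : p 0 ^ 3 = p 1 ^ 3 := by linear_combination (-1 / 12) * (p 0 * d0 - p 1 * d1)
    have k2 : (p 0 * p 1 - 9) ^ 2 = 0 := by
      linear_combination (-3) * hp1 + p 0 * d0 + p 1 * d1
    have k3 : p 0 * p 1 = 9 := sub_eq_zero.1 (pow_eq_zero_iff two_ne_zero |>.1 k2)
    have k4 : p 0 ^ 3 = 27 := by
      have : (p 0 * p 1) ^ 2 - 4 * p 0 ^ 3 - 4 * p 1 ^ 3 + 18 * (p 0 * p 1) - 27 = 0 := by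
        linear_combination hp1
      rw [k3, ← k1] at this
      linear_combination (-1 / 8) * this
    obtain ⟨c, hc⟩ : ∃ c : ℂ, c = p 0 / 3 := ⟨_, rfl⟩
    have hc3 : c ^ 3 = 1 := by rw [hc]; linear_combination (1 / 27) * k4
    have hpc : p = g c := by
      have hp0 : p 0 ≠ 0 := by
        intro h0; rw [h0, zero_mul] at k3; norm_num at k3
      funext i
      fin_cases i
      · show p 0 = 3 * c
        rw [hc]; ring
      · show p 1 = 3 * c ^ 2
        rw [hc]
        have : p 0 * p 1 = p 0 * (3 * (p 0 / 3) ^ 2) := by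
          linear_combination k3 - (1 / 3) * k4
        exact mul_left_cancel₀ hp0 this
    have hfac : (c - 1) * ((c - ζ) * (c - ζ ^ 2)) = 0 := by
      linear_combination hc3 + (-c ^ 2 + c * ζ - ζ + 1 + (c - c * ζ) + 0) * hζ * 0 +
        (-(c ^ 2) + c) * hζ + (c - 1) * hζ3
    rcases mul_eq_zero.1 hfac with h1 | h1
    · rw [hpc, sub_eq_zero.1 h1]; simp
    · rcases mul_eq_zero.1 h1 with h1 | h1
      · rw [hpc, sub_eq_zero.1 h1]; simp
      · rw [hpc, sub_eq_zero.1 h1]; simp
  have hEq : S = {g 1, g ζ, g (ζ ^ 2)} := by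
    apply Set.Subset.antisymm hsub
    rintro p (rfl | rfl | rfl)
    · exact hmem 1 (by norm_num)
    · exact hmem ζ hζ3
    · exact hmem (ζ ^ 2) (by linear_combination (ζ ^ 3 + 1) * hζ3)
  have ginj : ∀ a b : ℂ, g a = g b → a = b := by
    intro a b hab
    have : 3 * a = 3 * b := congrFun hab 0
    exact mul_left_cancel₀ three_ne_zero this
  have hcard : S.ncard = 3 := by
    rw [hEq, Set.ncard_eq_three]
    refine ⟨g 1, g ζ, g (ζ ^ 2), ?_, ?_, ?_, rfl⟩
    · intro h; exact hζ1 (ginj _ _ h).symm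
    · intro h
      have h2 := ginj _ _ h
      apply hζ1
      have : ζ ^ 3 = ζ := by rw [pow_succ, ← h2, one_mul]
      rw [← this, hζ3]
    · intro h
      have h2 := ginj _ _ h
      apply hζ1
      have : ζ * ζ = ζ * 1 := by linear_combination -h2
      exact mul_left_cancel₀ hζ0 this
  rw [hcard] at h
  omega

end Pool.Agent.S00362
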