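import Pool.Statements.S00566
import Pool.Agent.Results.MP_fa7d23_ag.NefNotB

set_option autoImplicit false
open Pool Pool.MP_fa7d23_ag

namespace Pool.Agent.S00566

open Pool.Agent.Results.MP_fa7d23_ag

/-- The nefness of `4H - ∑ Eᵢ` at the fifteen points, for arbitrary lower bounds `μ` of the
multiplicities. -/
theorem nef_aux {k : Type*} [Field k] {t : Fin 12 → k} {u : Fin 3 → k}
    (hinj : Function.Injective (Fin.append t u : Fin (12 + 3) → k))
    (n : ℕ) (F : MvPolynomial (Fin 3) k) (hF : F.IsHomogeneous n) (hirr : Irreducible F)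
    (c : Fin 15 → ℕ) (hc : ∀ i, F ∈ NefNotB.pointIdeal (NefNotB.cfg t u i) ^ c i) :
    ∑ i, 1 * c i ≤ 4 * n := by
  have hF0 : F ≠ 0 := hirr.ne_zero
  simp only [one_mul]
  by_cases hd : NefNotB.Q4 ∣ F
  · have hassoc : Associated (NefNotB.Q4 : MvPolynomial (Fin 3) k) F :=
      NefNotB.Q4_prime.irreducible.associated_of_dvd hirr hd
    obtain ⟨v, hv⟩ := hassoc
    have hvu := v.isUnit
    rw [MvPolynomial.isUnit_iff_totalDegree_of_isReduced] at hvu
    have hvC : (v : MvPolynomial (Fin 3) k) =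
        MvPolynomial.C (MvPolynomial.coeff 0 (v : MvPolynomial (Fin 3) k)) :=
      MvPolynomial.totalDegree_eq_zero_iff_eq_C.1 hvu.2
    have ha : MvPolynomial.coeff 0 (v : MvPolynomial (Fin 3) k) ≠ 0 := hvu.1.ne_zero
    have hFe : F = MvPolynomial.C (MvPolynomial.coeff 0 (v : MvPolynomial (Fin 3) k)) *
        NefNotB.Q4 := by
      rw [← hv, mul_comm, ← hvC]
    have hn : n = 4 := by
      have h2 : F.IsHomogeneous 4 := by
        rw [hFe]; exact NefNotB.Q4_hom.C_mul _
      exact hF.inj_right h2 hF0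
    have hc1 : ∀ i, c i ≤ 1 := by
      intro i
      have := hc i
      rw [hFe] at this
      exact NefNotB.le_one_of_mem ha this
    have : ∑ i, c i ≤ ∑ _i : Fin 15, 1 :=
      Finset.sum_le_sum fun i _ => hc1 i
    simp at this
    rw [hn]
    omega
  · have hp0 : NefNotB.par F ≠ 0 := fun h => hd (NefNotB.Q4_dvd_of_par hF h)
    have hdvd : (∏ i, (Polynomial.X -
        Polynomial.C ((Fin.append t u : Fin (12 + 3) → k) i)) ^ (c i)) ∣ NefNotB.par F := by
      apply Finset.prod_dvd_of_coprime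
      · intro i _ j _ hij
        exact (Polynomial.pairwise_coprime_X_sub_C hinj hij).pow
      · intro i _
        exact NefNotB.par_mem _ (hc i)
    have h1 := Polynomial.natDegree_le_of_dvd hdvd hp0
    have h2 : (∏ i, (Polynomial.X -
        Polynomial.C ((Fin.append t u : Fin (12 + 3) → k) i)) ^ (c i)).natDegree = ∑ i, c i := by
      rw [Polynomial.natDegree_prod_of_monic]
      · apply Finset.sum_congr rfl
        intro i _
        rw [Polynomial.natDegree_pow, Polynomial.natDegree_X_sub_C, mul_one]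
      · intro i _
        exact (Polynomial.monic_X_sub_C _).pow _
    have h3 := NefNotB.par_deg hF
    rw [h2] at h1
    exact h1.trans h3

/-- The negation of the preceding statement: For any r≥1 distinct points of the plane over an algebraically closed field and any effective nef L on the blow-up failing (B), some multiple mL has h^0(mL) equal to its Riemann–Roch value, i.e. h^1(mL)=0. -/
theorem result :
    ¬ (∀ (k : Type) [Field k] [IsAlgClosed k] (r : ℕ), 1 ≤ r →
  ∀ (p : Fin r → Fin 3 → k),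
    (∀ i, p i ≠ 0) →
    (∀ i j, i ≠ j → ∀ c : k, p i ≠ c • p j) →
  ∀ (d : ℕ) (a : Fin r → ℕ),
    (∃ f : MvPolynomial (Fin 3) k, f ≠ 0 ∧ f.IsHomogeneous d ∧
        ∀ i, f ∈ (Ideal.span (Set.range fun ab : Fin 3 × Fin 3 =>
            MvPolynomial.C (p i ab.1) * MvPolynomial.X ab.2
              - MvPolynomial.C (p i ab.2) * MvPolynomial.X ab.1) :
              Ideal (MvPolynomial (Fin 3) k)) ^ a i) →
    (∀ (e : ℕ) (g : MvPolynomial (Fin 3) k), g.IsHomogeneous e → Irreducible g →
        ∀ μ : Fin r → ℕ,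
          (∀ i, g ∈ (Ideal.span (Set.range fun ab : Fin 3 × Fin 3 =>
            MvPolynomial.C (p i ab.1) * MvPolynomial.X ab.2
              - MvPolynomial.C (p i ab.2) * MvPolynomial.X ab.1) :
              Ideal (MvPolynomial (Fin 3) k)) ^ μ i) →
          ∑ i, a i * μ i ≤ d * e) →
    (¬ ∃ (e : ℕ) (γ : Fin r → ℤ), (e ≠ 0 ∨ γ ≠ 0) ∧
        (∃ f : MvPolynomial (Fin 3) k, f ≠ 0 ∧ f.IsHomogeneous e ∧
          ∀ i, f ∈ (Ideal.span (Set.range fun ab : Fin 3 × Fin 3 =>
            MvPolynomial.C (p i ab.1) * MvPolynomial.X ab.2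
              - MvPolynomial.C (p i ab.2) * MvPolynomial.X ab.1) :
              Ideal (MvPolynomial (Fin 3) k)) ^ (γ i).toNat) ∧
        e ≤ d ∧
        (∃ f : MvPolynomial (Fin 3) k, f ≠ 0 ∧ f.IsHomogeneous (d - e) ∧
          ∀ i, f ∈ (Ideal.span (Set.range fun ab : Fin 3 × Fin 3 =>
            MvPolynomial.C (p i ab.1) * MvPolynomial.X ab.2
              - MvPolynomial.C (p i ab.2) * MvPolynomial.X ab.1) :
              Ideal (MvPolynomial (Fin 3) k)) ^ ((a i : ℤ) - γ i).toNat) ∧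
        (e : ℤ) ^ 2 - ∑ i, (γ i) ^ 2 - 3 * (e : ℤ) + ∑ i, γ i > -2 ∧
        (d : ℤ) * (e : ℤ) - ∑ i, (a i : ℤ) * γ i = 0) →
    ∃ m : ℕ, 1 ≤ m ∧
      2 * (Module.finrank k
        ↥(MvPolynomial.homogeneousSubmodule (Fin 3) k (m * d) ⊓
          ⨅ i, Submodule.restrictScalars k
            ((Ideal.span (Set.range fun ab : Fin 3 × Fin 3 =>
              MvPolynomial.C (p i ab.1) * MvPolynomial.X ab.2
                - MvPolynomial.C (p i ab.2) * MvPolynomial.X ab.1) :
                Ideal (MvPolynomial (Fin 3) k)) ^ (m * a i))) : ℤ)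
        = 2 + ((m * d : ℕ) : ℤ) ^ 2 - ∑ i, ((m * a i : ℕ) : ℤ) ^ 2
            + 3 * ((m * d : ℕ) : ℤ) - ∑ i, ((m * a i : ℕ) : ℤ)) := by
  intro H
  obtain ⟨b, t, u, hP, hinj, hu⟩ := NefNotB.exists_config (AlgebraicClosure ℚ)
  have key := H (AlgebraicClosure ℚ) 15 (by norm_num) (NefNotB.cfg t u)
    (NefNotB.cfg_distinct hinj).1 (NefNotB.cfg_distinct hinj).2 4 (fun _ => 1)
  have hI : ∀ i, (Ideal.span (Set.range fun ab : Fin 3 × Fin 3 =>
            MvPolynomial.C (NefNotB.cfg t u i ab.1) * MvPolynomial.X ab.2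
              - MvPolynomial.C (NefNotB.cfg t u i ab.2) * MvPolynomial.X ab.1) :
              Ideal (MvPolynomial (Fin 3) (AlgebraicClosure ℚ))) =
            NefNotB.pointIdeal (NefNotB.cfg t u i) := fun i => rfl
  simp only [hI] at key
  have key1 := key ?_ ?_ ?_
  · obtain ⟨m, hm, hm2⟩ := key1
    obtain ⟨n, rfl⟩ : ∃ n, m = n + 1 := ⟨m - 1, by omega⟩
    have h1 := NefNotB.cfg_h1 (u := u) hP n
    have h2 := NefNotB.h1_eq_superabundance (NefNotB.cfg t u) (4 * (n + 1)) (fun _ => n + 1)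
    rw [h2, NefNotB.H0_coe] at h1
    have k1 := NefNotB.key_choose (4 * (n + 1) + 1)
    have k2 := NefNotB.key_choose (n + 1)
    have hm3 : 2 * (Module.finrank (AlgebraicClosure ℚ)
        ↥(MvPolynomial.homogeneousSubmodule (Fin 3) (AlgebraicClosure ℚ) (4 * (n + 1)) ⊓
          ⨅ i, Submodule.restrictScalars (AlgebraicClosure ℚ)
            (NefNotB.pointIdeal (NefNotB.cfg t u i) ^ (n + 1))) : ℤ)
        = 2 + ((4 * (n + 1) : ℕ) : ℤ) ^ 2 - ∑ _i : Fin 15, (((n + 1) : ℕ) : ℤ) ^ 2
            + 3 * ((4 * (n + 1) : ℕ) : ℤ) - ∑ _i : Fin 15, (((n + 1) : ℕ) : ℤ) := by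
      have h3 := hm2
      rw [mul_comm (n + 1) 4] at h3
      have h4 : ∀ j : ℕ, j = n + 1 → ∀ z : ℤ, 2 * (Module.finrank (AlgebraicClosure ℚ)
        ↥(MvPolynomial.homogeneousSubmodule (Fin 3) (AlgebraicClosure ℚ) (4 * (n + 1)) ⊓
          ⨅ i, Submodule.restrictScalars (AlgebraicClosure ℚ)
            (NefNotB.pointIdeal (NefNotB.cfg t u i) ^ j)) : ℤ) = z →
            2 * (Module.finrank (AlgebraicClosure ℚ)
        ↥(MvPolynomial.homogeneousSubmodule (Fin 3) (AlgebraicClosure ℚ) (4 * (n + 1)) ⊓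
          ⨅ i, Submodule.restrictScalars (AlgebraicClosure ℚ)
            (NefNotB.pointIdeal (NefNotB.cfg t u i) ^ (n + 1))) : ℤ) = z := by
        rintro j rfl z h
        exact h
      have h5 := h4 _ (mul_one (n + 1)) _ h3
      rw [h5]
      simp only [mul_one]
    clear hm2
    simp only [Finset.sum_const, Finset.card_univ, Fintype.card_fin, nsmul_eq_mul] at h1 hm3
    push_cast at k1 k2 h1 hm3
    nlinarith
  · refine ⟨NefNotB.Q4, NefNotB.Q4_ne_zero, NefNotB.Q4_hom, fun i => ?_⟩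
    rw [pow_one]
    exact NefNotB.Q4_mem _
  · intro e g hg hirr μ hμ
    simpa using nef_aux hinj e g hg hirr μ hμ
  · rintro ⟨e, γ, hne, ⟨f, hf0, hfh, hfm⟩, hed, ⟨f', hf0', hfh', hfm'⟩, hpa, hint⟩
    apply NefNotB.cfg_notB hP hinj hu
    refine ⟨((e : ℤ), γ), ?_, ?_, ?_, ?_, ?_⟩
    · intro h
      have ha := congrArg Prod.fst h
      have hb := congrArg Prod.snd h
      simp only [Prod.fst_zero, Prod.snd_zero, Nat.cast_eq_zero] at ha hb
      rcases hne with h1 | h1
      · exact h1 ha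
      · exact h1 hb
    · intro h
      have : f ∈ NefNotB.H0 (NefNotB.cfg t u) ((e : ℤ), γ) := by
        rw [NefNotB.mem_H0 _ _ _ hf0]
        exact ⟨by positivity, by simpa using hfh, hfm⟩
      rw [h, Submodule.mem_bot] at this
      exact hf0 this
    · intro h
      have : f' ∈ NefNotB.H0 (NefNotB.cfg t u) ((4, fun _ => 1) - ((e : ℤ), γ)) := by
        rw [NefNotB.mem_H0 _ _ _ hf0']
        refine ⟨?_, ?_, ?_⟩
        · simp only [Prod.fst_sub, sub_nonneg]
          exact_mod_cast hed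
        · have e1 : ((4 : ℤ) - (e : ℤ)).toNat = 4 - e := by omega
          simpa [e1] using hfh'
        · intro i
          simpa using hfm' i
      rw [h, Submodule.mem_bot] at this
      exact hf0' this
    · unfold NefNotB.pa
      have e1 : NefNotB.inter ((e : ℤ), γ) ((e : ℤ), γ) +
          NefNotB.inter (NefNotB.canon 15) ((e : ℤ), γ) =
          (e : ℤ) ^ 2 - ∑ i, (γ i) ^ 2 - 3 * (e : ℤ) + ∑ i, γ i := by
        simp only [NefNotB.inter, NefNotB.canon]
        simp only [Finset.sum_neg_distrib, neg_mul, one_mul]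
        have : ∑ i, γ i * γ i = ∑ i, γ i ^ 2 := Finset.sum_congr rfl fun i _ => by ring
        rw [this]
        ring
      rw [e1]
      have hev : Even ((e : ℤ) ^ 2 - ∑ i, (γ i) ^ 2 - 3 * (e : ℤ) + ∑ i, γ i) := by
        have a1 : Even ((e : ℤ) ^ 2 - 3 * (e : ℤ)) := by
          have : (e : ℤ) ^ 2 - 3 * (e : ℤ) = (e - 1) * e - 2 * e := by ring
          rw [this]
          apply Even.sub
          · have := Int.even_mul_succ_self ((e : ℤ) - 1)
            simpa using this
          · exact even_two_mul _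
        have a2 : Even (∑ i, ((γ i) ^ 2 - γ i)) := by
          apply Finset.even_sum
          intro i _
          have : (γ i) ^ 2 - γ i = (γ i - 1) * (γ i - 1 + 1) := by ring
          rw [this]
          exact Int.even_mul_succ_self _
        rw [Finset.sum_sub_distrib] at a2
        have : (e : ℤ) ^ 2 - ∑ i, (γ i) ^ 2 - 3 * (e : ℤ) + ∑ i, γ i =
          ((e : ℤ) ^ 2 - 3 * (e : ℤ)) - (∑ i, (γ i) ^ 2 - ∑ i, γ i) := by ring
        rw [this]
        exact a1.sub a2
      obtain ⟨z, hz⟩ := hev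
      rw [hz] at hpa ⊢
      omega
    · simp only [NefNotB.inter]
      simpa using hint

end Pool.Agent.S00566
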