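import Pool.Statements.S00609

set_option autoImplicit false
open Pool Pool.MP_042d8e_al

namespace Pool.Agent.S00609

/-- Vertices of the binary rooted tree: the word `b :: v` is a child of `v`. -/
abbrev T := List Bool

lemma ai (σ : Equiv.Perm T) (w : T) : σ (σ⁻¹ w) = w := σ.apply_symm_apply w

/-- The group of finitary automorphisms of the binary rooted tree. -/
def Fy : Subgroup (Equiv.Perm T) where
  carrier := {σ | (∀ w, (σ w).length = w.length) ∧ (∀ w, (σ w).tail = σ w.tail) ∧
    ∃ N : ℕ, ∀ (b : Bool) (w : T), N ≤ w.length → σ (b :: w) = b :: σ w}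
  mul_mem' := by
    rintro σ τ ⟨h1, h2, N, h3⟩ ⟨k1, k2, M, k3⟩
    refine ⟨fun w => ?_, fun w => ?_, max N M, fun b w hw => ?_⟩
    · rw [Equiv.Perm.mul_apply, h1, k1]
    · rw [Equiv.Perm.mul_apply, h2, k2]; rfl
    · rw [Equiv.Perm.mul_apply, k3 b w (le_trans (le_max_right _ _) hw), h3 b (τ w)
        (by rw [k1]; exact le_trans (le_max_left _ _) hw)]; rfl
  one_mem' := ⟨fun w => rfl, fun w => rfl, 0, fun b w _ => rfl⟩
  inv_mem' := by
    rintro σ ⟨h1, h2, N, h3⟩
    have key : ∀ w, (σ⁻¹ w).length = w.length := fun w => by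
      rw [← h1 (σ⁻¹ w), ai]
    refine ⟨key, fun w => ?_, N, fun b w hw => ?_⟩
    · rw [Equiv.Perm.eq_inv_iff_eq, ← h2, ai]
    · rw [Equiv.Perm.inv_eq_iff_eq, h3 b _ (by rw [key]; exact hw), ai]

abbrev G := ↥Fy

lemma len (g : G) (w : T) : (g.1 w).length = w.length := g.2.1 w
lemma tl (g : G) (w : T) : (g.1 w).tail = g.1 w.tail := g.2.2.1 w

lemma nil (g : G) : g.1 [] = [] := List.length_eq_zero_iff.1 (by rw [len]; rfl)

/-- the portrait of `g` -/
def pt (g : G) (v : T) : Bool := (g.1 (false :: v)).headD false

lemma cons (g : G) (b : Bool) (v : T) : g.1 (b :: v) = (Bool.xor b (pt g v)) :: g.1 v := by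
  have e : ∀ c : Bool, ∃ d, g.1 (c :: v) = d :: g.1 v := by
    intro c
    have h1 := len g (c :: v)
    have h2 := tl g (c :: v)
    cases h : g.1 (c :: v) with
    | nil => rw [h] at h1; simp at h1
    | cons d u =>
      rw [h] at h2
      exact ⟨d, by rw [← show u = g.1 v from h2]⟩
  obtain ⟨d0, h0⟩ := e false
  obtain ⟨d1, h1⟩ := e true
  have hne : d0 ≠ d1 := by
    rintro rfl
    have := g.1.injective (h0.trans h1.symm)
    simp at this
  have hp : pt g v = d0 := by simp [pt, h0]
  cases b
  · rw [h0, hp]; simp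
  · rw [h1, hp]; cases d0 <;> cases d1 <;> simp_all

lemma ext' {g h : G} (H : ∀ v, pt g v = pt h v) : g = h := by
  apply Subtype.ext; apply Equiv.ext
  intro w
  induction w with
  | nil => rw [nil, nil]
  | cons b v ih => rw [cons, cons, ih, H]

lemma pt_one (v : T) : pt 1 v = false := rfl

lemma pt_mul (g h : G) (v : T) : pt (g * h) v = Bool.xor (pt h v) (pt g (h.1 v)) := by
  have : (g * h).1 (false :: v) = g.1 (h.1 (false :: v)) := rfl
  rw [cons, cons, cons] at this
  simpa using (List.cons.inj this).1

lemma pt_depth (g : G) : ∃ N, ∀ w : T, N ≤ w.length → pt g w = false := by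
  obtain ⟨N, h⟩ := g.2.2.2
  refine ⟨N, fun w hw => ?_⟩
  rw [pt, h false w hw]; rfl

def act (p : T → Bool) : T → T
  | [] => []
  | b :: v => (Bool.xor b (p v)) :: act p v

def iact (p : T → Bool) : T → T
  | [] => []
  | c :: u => (Bool.xor c (p (iact p u))) :: iact p u

lemma iact_act (p : T → Bool) (w : T) : iact p (act p w) = w := by
  induction w with
  | nil => rfl
  | cons b v ih => rw [act, iact, ih]; simp

lemma act_iact (p : T → Bool) (w : T) : act p (iact p w) = w := by
  induction w with
  | nil => rfl
  | cons b v ih => rw [iact, act, ih]; simp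

lemma act_len (p : T → Bool) (w : T) : (act p w).length = w.length := by
  induction w with
  | nil => rfl
  | cons b v ih => rw [act, List.length_cons, List.length_cons, ih]

/-- the finitary automorphism with a given portrait -/
def ofP (p : T → Bool) (hp : ∃ N, ∀ w : T, N ≤ w.length → p w = false) : G :=
  ⟨⟨act p, iact p, iact_act p, act_iact p⟩, by
    refine ⟨act_len p, fun w => ?_, ?_⟩
    · cases w <;> rfl
    · obtain ⟨N, h⟩ := hp
      refine ⟨N, fun b w hw => ?_⟩
      change act p (b :: w) = b :: act p w
      rw [act, h w hw]; simp⟩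

lemma pt_ofP (p : T → Bool) (hp) (v : T) : pt (ofP p hp) v = p v := by
  change (act p (false :: v)).headD false = p v
  rw [act]; simp

/-- action on level `n` -/
def levHom (n : ℕ) : G →* Equiv.Perm (List.Vector Bool n) where
  toFun g := ⟨fun v => ⟨g.1 v.1, by rw [len, v.2]⟩, fun v => ⟨(g⁻¹).1 v.1, by rw [len, v.2]⟩,
    fun v => Subtype.ext (by change (g⁻¹ * g).1 v.1 = v.1; rw [inv_mul_cancel]; rfl),
    fun v => Subtype.ext (by change (g * g⁻¹).1 v.1 = v.1; rw [mul_inv_cancel]; rfl)⟩
  map_one' := rfl
  map_mul' g h := rfl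

/-- stabiliser of level `n` -/
def St (n : ℕ) : Subgroup G := (levHom n).ker

lemma mem_St {n : ℕ} {g : G} : g ∈ St n ↔ ∀ v : T, v.length = n → g.1 v = v := by
  constructor
  · intro h v hv
    have h' : levHom n g = 1 := h
    have := congrArg (fun σ : Equiv.Perm (List.Vector Bool n) => (σ ⟨v, hv⟩).1) h'
    exact this
  · intro h
    apply Equiv.ext
    intro v
    exact Subtype.ext (h v.1 v.2)

instance (n : ℕ) : (St n).Normal := MonoidHom.normal_ker _
instance (n : ℕ) : (St n).FiniteIndex := Subgroup.finiteIndex_ker _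

lemma drop_eq (g : G) (k : ℕ) (w : T) : (g.1 w).drop k = g.1 (w.drop k) := by
  induction k with
  | zero => rfl
  | succ k ih =>
    rw [← List.tail_drop, ih, tl, List.tail_drop]

lemma St_le {m n : ℕ} (h : m ≤ n) : St n ≤ St m := by
  intro g hg
  rw [mem_St] at hg ⊢
  intro v hv
  have h1 := hg (List.replicate (n - m) false ++ v) (by simp [hv]; omega)
  have h2 := drop_eq g (n - m) (List.replicate (n - m) false ++ v)
  rw [h1] at h2
  have h3 : (List.replicate (n - m) false ++ v).drop (n - m) = v := by
    rw [List.drop_append]; simp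
  rw [h3] at h2
  exact h2.symm

/-- signature on level `k` -/
noncomputable def sg (g : G) (k : ℕ) : ZMod 2 :=
  ∑ v : List.Vector Bool k, if pt g v.1 = true then 1 else 0

lemma xor_ite (a b : Bool) : (if Bool.xor a b = true then (1 : ZMod 2) else 0) =
    (if a = true then 1 else 0) + (if b = true then 1 else 0) := by
  cases a <;> cases b <;> decide

lemma sg_mul (g h : G) (k : ℕ) : sg (g * h) k = sg g k + sg h k := by
  unfold sg
  simp_rw [pt_mul, xor_ite]
  rw [Finset.sum_add_distrib, add_comm]
  congr 1
  exact Equiv.sum_comp (levHom k h) (fun v => if pt g v.1 = true then (1 : ZMod 2) else 0)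

lemma sg_one (k : ℕ) : sg 1 k = 0 := by
  unfold sg; simp [pt_one]

lemma sg_depth (g : G) : ∃ N, ∀ k, N ≤ k → sg g k = 0 := by
  obtain ⟨N, h⟩ := pt_depth g
  refine ⟨N, fun k hk => ?_⟩
  unfold sg
  apply Finset.sum_eq_zero
  intro v _
  rw [h v.1 (by rw [v.2]; exact hk)]; simp

lemma supp_fin (a : ℕ) (g : G) :
    (Function.support fun k : ℕ => if (Nat.unpair k).1 = a then sg g k else 0).Finite := by
  obtain ⟨N, h⟩ := sg_depth g
  apply (Set.finite_lt_nat N).subset
  intro k hk
  by_contra hlt
  apply hk
  have : sg g k = 0 := h k (not_lt.1 hlt)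
  simp [this]

/-- the character `g ↦ ∑ sg g k` over the levels `k` in the `a`-th part of `ℕ` -/
noncomputable def chi (a : ℕ) : G →* Multiplicative (ZMod 2) where
  toFun g := Multiplicative.ofAdd (∑ᶠ k : ℕ, if (Nat.unpair k).1 = a then sg g k else 0)
  map_one' := by
    have : (fun k : ℕ => if (Nat.unpair k).1 = a then sg 1 k else 0) = fun _ => 0 := by
      funext k; simp [sg_one]
    rw [this, finsum_zero]; rfl
  map_mul' g h := by
    have : (fun k : ℕ => if (Nat.unpair k).1 = a then sg (g * h) k else 0) =
        fun k => (if (Nat.unpair k).1 = a then sg g k else 0) +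
          (if (Nat.unpair k).1 = a then sg h k else 0) := by
      funext k; rw [sg_mul]; split_ifs <;> simp
    rw [this, finsum_add_distrib (supp_fin a g) (supp_fin a h)]; rfl

/-- the normal T-sequences -/
noncomputable def M (a i : ℕ) : Subgroup G := St i ⊓ (chi a).ker

/-- the flip at the vertex `v` -/
def flip (v : T) : G := ofP (fun w => decide (w = v))
  ⟨v.length + 1, fun w hw => by
    rw [decide_eq_false_iff_not]; rintro rfl; omega⟩

lemma pt_flip (v w : T) : pt (flip v) w = decide (w = v) := pt_ofP _ _ _

lemma flip_fix (v w : T) (h : w.length ≤ v.length) : (flip v).1 w = w := by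
  induction w with
  | nil => exact nil _
  | cons b u ih =>
    have hu : u.length < v.length := by simpa using h
    rw [cons, pt_flip, ih hu.le]
    have : u ≠ v := by rintro rfl; omega
    simp [this]

lemma flip_St (v : T) (j : ℕ) (h : j ≤ v.length) : flip v ∈ St j :=
  mem_St.2 fun w hw => flip_fix v w (by omega)

lemma sg_flip (v : T) (k : ℕ) : sg (flip v) k = if k = v.length then 1 else 0 := by
  unfold sg
  simp_rw [pt_flip]
  split_ifs with h
  · subst h
    have key := Finset.sum_eq_single (s := (Finset.univ : Finset (List.Vector Bool v.length)))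
      (f := fun w => if decide (w.1 = v) = true then (1 : ZMod 2) else 0)
      (⟨v, rfl⟩ : List.Vector Bool v.length) ?_ ?_
    · exact key.trans (by simp)
    · intro w _ hne
      have : w.1 ≠ v := fun e => hne (Subtype.ext e)
      simp [this]
    · intro h; exact absurd (Finset.mem_univ _) h
  · apply Finset.sum_eq_zero
    rintro ⟨w, hw⟩ _
    have : w ≠ v := by rintro rfl; exact h hw.symm
    simp [this]

lemma chi_flip (a : ℕ) (v : T) :
    chi a (flip v) = Multiplicative.ofAdd (if (Nat.unpair v.length).1 = a then 1 else 0) := by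
  change Multiplicative.ofAdd (∑ᶠ k : ℕ, if (Nat.unpair k).1 = a then sg (flip v) k else 0) = _
  congr 1
  rw [finsum_eq_single _ v.length]
  · rw [sg_flip]; simp
  · intro k hk
    rw [sg_flip]; simp [hk]

lemma trans (v w : T) (h : v.length = w.length) : ∃ g : G, g.1 v = w := by
  induction v generalizing w with
  | nil =>
    refine ⟨1, ?_⟩
    exact (List.length_eq_zero_iff.1 h.symm).symm
  | cons b v ih =>
    cases w with
    | nil => simp at h
    | cons c u =>
      obtain ⟨g, hg⟩ := ih u (by simpa using h)
      by_cases e : g.1 (b :: v) = c :: u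
      · exact ⟨g, e⟩
      · refine ⟨flip u * g, ?_⟩
        change (flip u).1 (g.1 (b :: v)) = c :: u
        rw [cons, hg] at e ⊢
        rw [cons, pt_flip, flip_fix u u le_rfl]
        have : Bool.xor b (pt g v) ≠ c := fun h => e (by rw [h])
        congr 1
        revert this
        cases Bool.xor b (pt g v) <;> cases c <;> simp

/-! ### rigid stabilisers -/

/-- the element acting like `g` below the vertices of `F` (of level `n`) and trivially elsewhere -/
def res (n : ℕ) (g : G) (F : Finset T) : G :=
  ofP (fun u => decide (n ≤ u.length ∧ u.drop (u.length - n) ∈ F) && pt g u) (by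
    obtain ⟨N, h⟩ := pt_depth g
    exact ⟨N, fun w hw => by simp [h w hw]⟩)

lemma pt_res (n : ℕ) (g : G) (F : Finset T) (u : T) :
    pt (res n g F) u = (decide (n ≤ u.length ∧ u.drop (u.length - n) ∈ F) && pt g u) := pt_ofP _ _ _

lemma res_fix (n : ℕ) (g : G) (F : Finset T) (u : T)
    (h : u.length < n ∨ u.drop (u.length - n) ∉ F) : (res n g F).1 u = u := by
  induction u with
  | nil => exact nil _
  | cons b u ih =>
    rw [cons, pt_res]
    by_cases hu : u.length < n
    · rw [ih (Or.inl hu)]
      have : ¬ n ≤ u.length := by omega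
      simp [this]
    · have h2 : u.drop (u.length - n) ∉ F := by
        rcases h with h | h
        · exact absurd h (by simp; omega)
        · have e : (b :: u).length - n = (u.length - n) + 1 := by simp; omega
          rw [e, List.drop_succ_cons] at h
          exact h
      rw [ih (Or.inr h2)]
      simp [h2]

lemma res_fix_lev (n : ℕ) (g : G) (F : Finset T) (u : T) (h : u.length ≤ n) :
    (res n g F).1 u = u := by
  rcases h.lt_or_eq with h | h
  · exact res_fix n g F u (Or.inl h)
  · cases u with
    | nil => exact nil _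
    | cons b u =>
      have hu : u.length < n := by simp at h; omega
      have : ¬ n ≤ u.length := by omega
      rw [cons, pt_res, res_fix n g F u (Or.inl hu)]
      simp [this]

lemma res_insert (n : ℕ) (g : G) (F : Finset T) (v : T) (hv : v.length = n) (hF : v ∉ F) :
    res n g (insert v F) = res n g F * res n g {v} := by
  apply ext'
  intro u
  rw [pt_mul, pt_res, pt_res, pt_res, len]
  by_cases hu : n ≤ u.length
  · by_cases ha : u.drop (u.length - n) = v
    · have h1 : ((res n g {v}).1 u).drop (u.length - n) = v := by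
        rw [drop_eq, ha, res_fix_lev n g {v} v hv.le]
      rw [h1]
      simp [hu, ha, hF]
    · have h1 : (res n g {v}).1 u = u := res_fix n g {v} u (Or.inr (by simpa using ha))
      rw [h1]
      simp [hu, ha]
  · simp [hu]

lemma iter_tail (k : ℕ) (w : T) : List.tail^[k] w = w.drop k := by
  induction k with
  | zero => rfl
  | succ k ih => rw [Function.iterate_succ_apply', ih, List.tail_drop]

/-- generators of the rigid stabiliser of level `n` -/
def RG (n : ℕ) : Set G := {g : G | ∃ v : T, v.length = n ∧
    ∀ w : T, (∀ k : ℕ, List.tail^[k] w ≠ v) → g • w = w}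

lemma res_single (n : ℕ) (g : G) (v : T) (hv : v.length = n) : res n g {v} ∈ RG n := by
  refine ⟨v, hv, fun w hw => ?_⟩
  apply res_fix n g {v} w
  right
  rw [Finset.mem_singleton]
  rw [← iter_tail]
  exact hw _

lemma res_mem (n : ℕ) (g : G) (F : Finset T) (hF : ∀ v ∈ F, v.length = n) :
    res n g F ∈ Subgroup.closure (RG n) := by
  induction F using Finset.induction_on with
  | empty =>
    have : res n g ∅ = 1 := ext' fun u => by rw [pt_res, pt_one]; simp
    rw [this]; exact one_mem _
  | insert v F hv ih =>
    rw [res_insert n g F v (hF v (Finset.mem_insert_self _ _)) hv]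
    exact mul_mem (ih fun w hw => hF w (Finset.mem_insert_of_mem hw))
      (Subgroup.subset_closure (res_single n g v (hF v (Finset.mem_insert_self _ _))))

lemma St_le_closure (n : ℕ) : St n ≤ Subgroup.closure (RG n) := by
  intro g hg
  have hfin := List.finite_length_eq Bool n
  have : res n g hfin.toFinset = g := by
    apply ext'
    intro u
    rw [pt_res]
    by_cases hu : n ≤ u.length
    · have : u.drop (u.length - n) ∈ hfin.toFinset := by
        rw [Set.Finite.mem_toFinset]
        change (u.drop (u.length - n)).length = n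
        rw [List.length_drop]; omega
      simp [hu, this]
    · have hg' := mem_St.1 (St_le (show u.length + 1 ≤ n by omega) hg) (false :: u) (by simp)
      have : pt g u = false := by rw [pt, hg']; rfl
      rw [this]; simp
  rw [← this]
  exact res_mem n g _ fun v hv => by
    rw [Set.Finite.mem_toFinset] at hv; exact hv

/-- There is a branch group (faithful, level-transitive on a locally finite rooted tree, finite-index rigid level stabilizers) with infinitely many pairwise inequivalent descending sequences of finite-index normal subgroups with trivial intersection. -/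
theorem result :
    ∃ (G : Type) (_ : Group G) (V : Type) (_ : MulAction G V) (lev : V → ℕ) (par : V → V),
      (∀ v w : V, lev v = 0 → lev w = 0 → v = w) ∧
      (∃ v : V, lev v = 0) ∧
      (∀ w : V, lev w = 0 → par w = w) ∧
      (∀ w : V, lev w ≠ 0 → lev (par w) + 1 = lev w) ∧
      (∀ n : ℕ, {v : V | lev v = n}.Finite) ∧
      (∀ v : V, ∃ w₁ w₂ : V, w₁ ≠ w₂ ∧ par w₁ = v ∧ par w₂ = v ∧
          lev w₁ = lev v + 1 ∧ lev w₂ = lev v + 1) ∧
      (∀ (g : G) (w : V), lev (g • w) = lev w ∧ par (g • w) = g • par w) ∧
      (∀ g : G, (∀ v : V, g • v = v) → g = 1) ∧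
      (∀ v w : V, lev v = lev w → ∃ g : G, g • v = w) ∧
      (∀ n : ℕ, (Subgroup.closure {g : G | ∃ v : V, lev v = n ∧
          ∀ w : V, (∀ k : ℕ, par^[k] w ≠ v) → g • w = w}).FiniteIndex) ∧
      ∃ M : ℕ → ℕ → Subgroup G,
        (∀ a : ℕ, Antitone (M a) ∧ (∀ i : ℕ, (M a i).Normal ∧ (M a i).FiniteIndex) ∧
            (⨅ i : ℕ, M a i) = ⊥) ∧
        (∀ a b : ℕ, a ≠ b →
            ¬ ((∀ i : ℕ, ∃ j : ℕ, M b j ≤ M a i) ∧ (∀ i : ℕ, ∃ j : ℕ, M a j ≤ M b i))) := by
  refine ⟨G, inferInstance, T, inferInstance, List.length, List.tail, ?_, ⟨[], rfl⟩, ?_, ?_, ?_,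
    ?_, ?_, ?_, ?_, ?_, M, ?_, ?_⟩
  · intro v w hv hw
    rw [List.length_eq_zero_iff.1 hv, List.length_eq_zero_iff.1 hw]
  · intro w hw
    rw [List.length_eq_zero_iff.1 hw]; rfl
  · intro w hw
    cases w with
    | nil => exact absurd rfl hw
    | cons b w => rfl
  · exact fun n => List.finite_length_eq Bool n
  · exact fun v => ⟨false :: v, true :: v, by simp, rfl, rfl, rfl, rfl⟩
  · exact fun g w => ⟨len g w, tl g w⟩
  · exact fun g hg => Subtype.ext (Equiv.ext hg)
  · exact fun v w h => trans v w h
  · exact fun n => Subgroup.finiteIndex_of_le (St_le_closure n)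
  · intro a
    refine ⟨fun i j hij => inf_le_inf_right _ (St_le hij), fun i => ⟨?_, ?_⟩, ?_⟩
    · exact Subgroup.normal_inf_normal _ _
    · have : (chi a).ker.FiniteIndex := Subgroup.finiteIndex_ker _
      unfold M
      infer_instance
    · rw [eq_bot_iff]
      intro g hg
      rw [Subgroup.mem_iInf] at hg
      rw [Subgroup.mem_bot]
      exact Subtype.ext (Equiv.ext fun w => mem_St.1 (hg w.length).1 w rfl)
  · rintro a b hab ⟨h, -⟩
    obtain ⟨j, hj⟩ := h 0
    have hl : (List.replicate (Nat.pair a j) false).length = Nat.pair a j := List.length_replicate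
    have h1 : flip (List.replicate (Nat.pair a j) false) ∈ M b j := by
      refine ⟨flip_St _ _ (by rw [hl]; exact Nat.right_le_pair a j), ?_⟩
      change chi b _ = 1
      rw [chi_flip, hl, Nat.unpair_pair]
      simp [hab]
    have h2 := (hj h1).2
    change chi a _ = 1 at h2
    rw [chi_flip, hl, Nat.unpair_pair] at h2
    simp at h2

end Pool.Agent.S00609
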