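import Pool.Statements.S00753
import Pool.Agent.U237.FreeSL
import Pool.Agent.U237.Paradox
import Pool.Agent.U237.SquareMoves

set_option autoImplicit false
open Pool Pool.MP_104382_al

namespace Pool.Agent.S00753

open Pool.Agent.U237.FreeSL Pool.Agent.U237.Paradox Pool.Agent.U237.SquareMoves Matrix

/-- The centres of the parameters of the nine matrices. -/
def T (k : Fin 9 × Fin 3) : ℚ :=
  if k.1.1 < 3 then ![-5, 1 / 10, 51 / 5] k.2
  else if k.1.1 < 6 then ![51 / 5, 1 / 10, -5] k.2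
  else ![0, -1 / 3, -1 / 3] k.2

/-- The open unit square. -/
def Q : Set (Fin 2 → ℝ) := {v | ∀ k, 0 < v k ∧ v k < 1}

theorem mulVec_hom (y : Fin 9 × Fin 3 → ℝ) (i : Fin 9) (v : Fin 2 → ℝ) :
    (hom y (FreeGroup.of i)).1 *ᵥ v =
      ![(1 + y (i, 0) * y (i, 1)) * v 0 +
        (y (i, 0) + y (i, 2) + y (i, 0) * y (i, 1) * y (i, 2)) * v 1,
        y (i, 1) * v 0 + (1 + y (i, 1) * y (i, 2)) * v 1] := by
  have h : hom y (FreeGroup.of i) = M (y (i, 0)) (y (i, 1)) (y (i, 2)) := by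
    simp [hom]
  rw [h]
  ext j
  fin_cases j <;> simp [M, Matrix.mulVec, dotProduct, Fin.sum_univ_two]

theorem mem_Q_of (y : Fin 9 × Fin 3 → ℝ) (i : Fin 9) (v : Fin 2 → ℝ)
    (h : 0 < (1 + y (i, 0) * y (i, 1)) * v 0 +
        (y (i, 0) + y (i, 2) + y (i, 0) * y (i, 1) * y (i, 2)) * v 1 ∧
      (1 + y (i, 0) * y (i, 1)) * v 0 +
        (y (i, 0) + y (i, 2) + y (i, 0) * y (i, 1) * y (i, 2)) * v 1 < 1 ∧
      0 < y (i, 1) * v 0 + (1 + y (i, 1) * y (i, 2)) * v 1 ∧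
      y (i, 1) * v 0 + (1 + y (i, 1) * y (i, 2)) * v 1 < 1) :
    (hom y (FreeGroup.of i)).1 *ᵥ v ∈ Q := by
  rw [mulVec_hom]
  intro k
  fin_cases k
  · exact ⟨h.1, h.2.1⟩
  · exact ⟨h.2.2.1, h.2.2.2⟩

theorem mem_Q (y : Fin 9 × Fin 3 → ℝ) (hy : ∀ k, |y k - T k| < 1 / 1000) (v : Fin 2 → ℝ)
    (hv : v ∈ Q) : ∃ i j k : Fin 9, i ≠ j ∧ j ≠ k ∧ i ≠ k ∧
      (hom y (FreeGroup.of i)).1 *ᵥ v ∈ Q ∧ (hom y (FreeGroup.of j)).1 *ᵥ v ∈ Q ∧
      (hom y (FreeGroup.of k)).1 *ᵥ v ∈ Q := by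
  obtain ⟨hx0, hx1⟩ := hv 0
  obtain ⟨hy0, hy1⟩ := hv 1
  by_cases h1 : v 1 < 2 / 5
  · have key : ∀ i : Fin 9, i.1 < 3 → (hom y (FreeGroup.of i)).1 *ᵥ v ∈ Q := by
      intro i hi
      apply mem_Q_of
      have t0 := hy (i, 0)
      have t1 := hy (i, 1)
      have t2 := hy (i, 2)
      simp only [T, hi, if_true, Matrix.cons_val_zero, Matrix.cons_val_one, Matrix.cons_val] at t0 t1 t2
      push_cast at t0 t1 t2
      exact class1 t0 t1 t2 hx0 hx1 hy0 h1
    exact ⟨0, 1, 2, by decide, by decide, by decide, key 0 (by decide), key 1 (by decide),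
      key 2 (by decide)⟩
  · by_cases h2 : v 0 < 2 / 5
    · have key : ∀ i : Fin 9, ¬ i.1 < 3 → i.1 < 6 → (hom y (FreeGroup.of i)).1 *ᵥ v ∈ Q := by
        intro i hi hi'
        apply mem_Q_of
        have t0 := hy (i, 0)
        have t1 := hy (i, 1)
        have t2 := hy (i, 2)
        simp only [T, hi, hi', if_true, if_false, Matrix.cons_val_zero, Matrix.cons_val_one,
          Matrix.cons_val] at t0 t1 t2
        push_cast at t0 t1 t2
        exact class2 t0 t1 t2 hx0 h2 hy0 hy1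
      exact ⟨3, 4, 5, by decide, by decide, by decide, key 3 (by decide) (by decide),
        key 4 (by decide) (by decide), key 5 (by decide) (by decide)⟩
    · have key : ∀ i : Fin 9, ¬ i.1 < 3 → ¬ i.1 < 6 → (hom y (FreeGroup.of i)).1 *ᵥ v ∈ Q := by
        intro i hi hi'
        apply mem_Q_of
        have t0 := hy (i, 0)
        have t1 := hy (i, 1)
        have t2 := hy (i, 2)
        simp only [T, hi, hi', if_false, Matrix.cons_val_zero, Matrix.cons_val_one,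
          Matrix.cons_val] at t0 t1 t2
        push_cast at t0 t1 t2
        exact class3 t0 t1 t2 (not_lt.1 h2) hx1 (not_lt.1 h1) hy1
      exact ⟨6, 7, 8, by decide, by decide, by decide, key 6 (by decide) (by decide),
        key 7 (by decide) (by decide), key 8 (by decide) (by decide)⟩

/-- The open unit square in the plane can be split into finitely many pairwise disjoint pieces forming two groups, and each group can be moved by determinant-one real linear maps so that its images exactly cover the square again. -/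
theorem result :
    ∃ (n m : ℕ) (A : Fin n → Set (Fin 2 → ℝ)) (B : Fin m → Set (Fin 2 → ℝ))
      (g : Fin n → Matrix.SpecialLinearGroup (Fin 2) ℝ)
      (h : Fin m → Matrix.SpecialLinearGroup (Fin 2) ℝ),
      (∀ i, A i ⊆ {v : Fin 2 → ℝ | ∀ k, 0 < v k ∧ v k < 1}) ∧
      (∀ j, B j ⊆ {v : Fin 2 → ℝ | ∀ k, 0 < v k ∧ v k < 1}) ∧
      Pairwise (fun i i' => Disjoint (A i) (A i')) ∧
      Pairwise (fun j j' => Disjoint (B j) (B j')) ∧
      (∀ i j, Disjoint (A i) (B j)) ∧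
      (⋃ i, (fun v => Matrix.mulVec ((g i : Matrix (Fin 2) (Fin 2) ℝ)) v) '' A i)
        = {v : Fin 2 → ℝ | ∀ k, 0 < v k ∧ v k < 1} ∧
      (⋃ j, (fun v => Matrix.mulVec ((h j : Matrix (Fin 2) (Fin 2) ℝ)) v) '' B j)
        = {v : Fin 2 → ℝ | ∀ k, 0 < v k ∧ v k < 1} := by
  obtain ⟨y, hy, hfree⟩ := exists_generic (Fin 9) T (ε := 1 / 1000) (by norm_num)
  letI act : MulAction (FreeGroup (Fin 9)) (Fin 2 → ℝ) :=
    { smul := fun w v => (hom y w).1 *ᵥ v
      one_smul := fun v => by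
        change (hom y 1).1 *ᵥ v = v
        rw [map_one]
        exact Matrix.one_mulVec v
      mul_smul := fun w w' v => by
        change (hom y (w * w')).1 *ᵥ v = (hom y w).1 *ᵥ ((hom y w').1 *ᵥ v)
        rw [map_mul, Matrix.mulVec_mulVec]
        rfl }
  have hsmul : ∀ (w : FreeGroup (Fin 9)) (v : Fin 2 → ℝ), w • v = (hom y w).1 *ᵥ v :=
    fun _ _ => rfl
  obtain ⟨a, ha1, ha2⟩ := exists_moves (ι := Fin 9) (X := Fin 2 → ℝ) Q (by
    intro q hq w hw
    by_contra hw1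
    refine hfree w hw1 (tr_of_fixed _ q ?_ hw)
    intro h0
    have := (hq 0).1
    rw [h0] at this
    exact lt_irrefl _ this) (fun q hq => mem_Q y hy q hq)
  have hinv : ∀ (i : Fin 9) (v : Fin 2 → ℝ),
      ((hom y (FreeGroup.of i))⁻¹).1 *ᵥ ((hom y (FreeGroup.of i)).1 *ᵥ v) = v := by
    intro i v
    rw [Matrix.mulVec_mulVec]
    have : ((hom y (FreeGroup.of i))⁻¹).1 * (hom y (FreeGroup.of i)).1 =
      ((hom y (FreeGroup.of i))⁻¹ * hom y (FreeGroup.of i)).1 := rfl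
    rw [this, inv_mul_cancel]
    exact Matrix.one_mulVec v
  have hdisj : ∀ (s s' : Bool) (i j : Fin 9), (s ≠ s' ∨ i ≠ j) →
      Disjoint {v | ∃ q ∈ Q, a s q = i ∧ v = (hom y (FreeGroup.of i)).1 *ᵥ q}
        {v | ∃ q ∈ Q, a s' q = j ∧ v = (hom y (FreeGroup.of j)).1 *ᵥ q} := by
    intro s s' i j hij
    rw [Set.disjoint_left]
    rintro v ⟨q, hq, hqi, hv⟩ ⟨q', hq', hqj, hv'⟩
    have h1 : FreeGroup.of (a s q) • q = FreeGroup.of (a s' q') • q' := by
      rw [hsmul, hsmul, hqi, hqj, ← hv, ← hv']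
    obtain ⟨h2, h3⟩ := ha2 s s' q hq q' hq' h1
    rcases hij with h | h
    · exact h h2
    · apply h
      rw [← hqi, ← hqj, h2, h3]
  have hcov : ∀ s : Bool, (⋃ i, (fun v => ((hom y (FreeGroup.of i))⁻¹).1 *ᵥ v) ''
      {v | ∃ q ∈ Q, a s q = i ∧ v = (hom y (FreeGroup.of i)).1 *ᵥ q}) = Q := by
    intro s
    ext v
    rw [Set.mem_iUnion]
    constructor
    · rintro ⟨i, v', ⟨q, hq, -, rfl⟩, rfl⟩
      change ((hom y (FreeGroup.of i))⁻¹).1 *ᵥ ((hom y (FreeGroup.of i)).1 *ᵥ q) ∈ Q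
      rw [hinv]
      exact hq
    · intro hv
      exact ⟨a s v, _, ⟨v, hv, rfl, rfl⟩, hinv _ v⟩
  refine ⟨9, 9, fun i => {v | ∃ q ∈ Q, a true q = i ∧ v = (hom y (FreeGroup.of i)).1 *ᵥ q},
    fun i => {v | ∃ q ∈ Q, a false q = i ∧ v = (hom y (FreeGroup.of i)).1 *ᵥ q},
    fun i => (hom y (FreeGroup.of i))⁻¹, fun i => (hom y (FreeGroup.of i))⁻¹,
    ?_, ?_, ?_, ?_, ?_, hcov true, hcov false⟩
  · rintro i v ⟨q, hq, rfl, rfl⟩
    exact ha1 true q hq
  · rintro i v ⟨q, hq, rfl, rfl⟩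
    exact ha1 false q hq
  · intro i j hij
    exact hdisj true true i j (Or.inr hij)
  · intro i j hij
    exact hdisj false false i j (Or.inr hij)
  · intro i j
    exact hdisj true false i j (Or.inl (by decide))

end Pool.Agent.S00753
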