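import Pool.Statements.S00830
import Pool.Agent.U685.ProjMain

/-!
Two non-isomorphic groups `GA`, `GB` of order 189 on the same set, such that the operation of each
is a group word in the operation of the other: `x ∘ y = x y [x,y] ^ 14`. Hence all the powers
`GA ^ n` and `GB ^ n` have the same subgroups.
-/

set_option autoImplicit false
open Pool Pool.MP_196888_al

namespace Pool.Agent.S00830

/-- The negation of the preceding statement: For every group G, every m ≥ 2 and every lattice isomorphism φ from the subgroups of G^m to the subgroups of a group H such that H is the internal direct product of the images of the coordinate subgroups, the image of the first coordinate subgroup is isomorphic to G. -/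
theorem result :
    ¬ (∀ (G : Type) [Group G] (n : ℕ) (H : Type) [Group H]
      (φ : Subgroup (Fin (n + 2) → G) ≃o Subgroup H),
      (∀ i : Fin (n + 2),
          (φ (MonoidHom.mulSingle (fun _ : Fin (n + 2) => G) i).range).Normal) →
      (⨆ i : Fin (n + 2), φ (MonoidHom.mulSingle (fun _ : Fin (n + 2) => G) i).range) = ⊤ →
      iSupIndep (fun i : Fin (n + 2) =>
          φ (MonoidHom.mulSingle (fun _ : Fin (n + 2) => G) i).range) →
      Nonempty (↥(φ (MonoidHom.mulSingle (fun _ : Fin (n + 2) => G) 0).range) ≃* G)) :=
  Pool.Agent.U685.Proj.main

end Pool.Agent.S00830
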