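import Pool.Statements.S00905

set_option autoImplicit false
open Pool Pool.MP_207b86_al

namespace Pool.Agent.S00905

/-- the finite centre-free group which is used -/
abbrev F := Equiv.Perm (Fin 3)

theorem centre_free : ∀ a : F, (∀ c : F, a * c = c * a) → a = 1 := by decide

/-- the group -/
abbrev GG := ℕ → F

/-- evaluation of a word -/
def ev (w : Monoid.Coprod GG (FreeGroup Unit)) (g : GG) : GG :=
  Monoid.Coprod.lift (MonoidHom.id GG) (FreeGroup.lift (fun _ => g)) w

/-- the Zariski topology -/
@[instance_reducible] def Zar : TopologicalSpace GG := TopologicalSpace.generateFrom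
  {U : Set GG | ∃ w : Monoid.Coprod GG (FreeGroup Unit),
    U = {g : GG | Monoid.Coprod.lift (MonoidHom.id GG) (FreeGroup.lift (fun _ => g)) w = 1}ᶜ}

section product

local instance : TopologicalSpace F := ⊥
local instance : DiscreteTopology F := ⟨rfl⟩

theorem continuous_ev (w : Monoid.Coprod GG (FreeGroup Unit)) : Continuous (ev w) := by
  induction w using Monoid.Coprod.induction_on with
  | inl m =>
    have : ev (Monoid.Coprod.inl m) = fun _ => m := by
      funext g
      simp [ev]
    rw [this]
    exact continuous_const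
  | inr n =>
    have : ev (Monoid.Coprod.inr n) = fun g => FreeGroup.lift (fun _ : Unit => g) n := by
      funext g
      simp [ev]
    rw [this]
    induction n using FreeGroup.induction_on with
    | C1 => simpa using continuous_const
    | of x => simpa using (continuous_id' : Continuous fun g : GG => g)
    | inv_of x _ =>
      simp only [map_inv, FreeGroup.lift_apply_of]
      exact continuous_inv
    | mul x y hx hy =>
      simp only [map_mul]
      exact (hx (by funext g; simp [ev])).mul (hy (by funext g; simp [ev]))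
  | mul x y hx hy =>
    have : ev (x * y) = fun g => ev x g * ev y g := by
      funext g
      simp [ev]
    rw [this]
    exact hx.mul hy

theorem pi_le : (Pi.topologicalSpace : TopologicalSpace GG) ≤ Zar := by
  refine le_generateFrom ?_
  rintro _ ⟨w, rfl⟩
  have h1 : IsClosed (ev w ⁻¹' {1}) := isClosed_singleton.preimage (continuous_ev w)
  exact h1.isOpen_compl

theorem compact_zar : @CompactSpace GG Zar := by
  have h1 : IsCompact (Set.univ : Set GG) := isCompact_univ
  have h2 : @Continuous GG GG Pi.topologicalSpace Zar id := continuous_id_iff_le.2 pi_le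
  have h3 := @IsCompact.image GG GG Pi.topologicalSpace Zar Set.univ id h1 h2
  rw [Set.image_id] at h3
  exact @CompactSpace.mk GG Zar h3

end product

theorem closed_word (w : Monoid.Coprod GG (FreeGroup Unit)) : @IsClosed GG Zar {g | ev w g = 1} :=
  @IsClosed.mk GG Zar _ (TopologicalSpace.isOpen_generateFrom_of_mem ⟨w, rfl⟩)

/-- the commutator word of `x * b⁻¹` and `c`, where `b` and `c` are at the position `i` -/
def cw (i : ℕ) (b c : F) : Monoid.Coprod GG (FreeGroup Unit) :=
  (Monoid.Coprod.inr (FreeGroup.of ()) * Monoid.Coprod.inl (Pi.mulSingle i b)⁻¹) *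
    Monoid.Coprod.inl (Pi.mulSingle i c) *
    (Monoid.Coprod.inr (FreeGroup.of ()) * Monoid.Coprod.inl (Pi.mulSingle i b)⁻¹)⁻¹ *
    (Monoid.Coprod.inl (Pi.mulSingle i c))⁻¹

theorem ev_cw (i : ℕ) (b c : F) (g : GG) : ev (cw i b c) g =
    (g * (Pi.mulSingle i b)⁻¹) * Pi.mulSingle i c * (g * (Pi.mulSingle i b)⁻¹)⁻¹ *
      (Pi.mulSingle i c)⁻¹ := by
  simp [ev, cw]

theorem ev_cw_eq_one (i : ℕ) (b c : F) (g : GG) : ev (cw i b c) g = 1 ↔
    (g i * b⁻¹) * c = c * (g i * b⁻¹) := by
  rw [ev_cw, mul_inv_eq_one, mul_inv_eq_iff_eq_mul]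
  constructor
  · intro h
    have := congrFun h i
    simpa using this
  · intro h
    funext j
    by_cases hj : j = i
    · subst hj
      simpa using h
    · simp [Pi.mulSingle_eq_of_ne hj]

theorem closed_coord (i : ℕ) (b : F) : @IsClosed GG Zar {g | g i = b} := by
  have h1 : {g : GG | g i = b} = ⋂ c : F, {g | ev (cw i b c) g = 1} := by
    ext g
    simp only [Set.mem_ofPred_eq, Set.mem_iInter, ev_cw_eq_one]
    constructor
    · rintro rfl c
      simp
    · intro h
      exact mul_inv_eq_one.1 (centre_free _ h)
  rw [h1]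
  exact @isClosed_iInter GG _ Zar _ fun c => closed_word _

theorem open_coord (i : ℕ) (b : F) : @IsOpen GG Zar {g | g i = b} := by
  have h1 : {g : GG | g i = b} = (⋃ c ∈ ({b}ᶜ : Set F), {g | g i = c})ᶜ := by
    ext g
    simp only [Set.mem_ofPred_eq, Set.mem_compl_iff, Set.mem_iUnion, not_exists]
    constructor
    · intro h c hc hg
      exact hc (hg.symm.trans h)
    · intro h
      by_contra hne
      exact h (g i) hne rfl
  rw [h1]
  have h2 : @IsClosed GG Zar (⋃ c ∈ ({b}ᶜ : Set F), {g | g i = c}) :=
    @Set.Finite.isClosed_biUnion GG _ Zar _ _ (Set.toFinite _) fun c _ => closed_coord i c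
  exact @IsClosed.isOpen_compl GG Zar _ h2

theorem t2_zar : @T2Space GG Zar := by
  refine @T2Space.mk GG Zar ?_
  intro x y hxy
  obtain ⟨i, hi⟩ := Function.ne_iff.1 hxy
  refine ⟨{g | g i = x i}, {g | g i = y i}, open_coord i _, open_coord i _, rfl, rfl, ?_⟩
  rw [Set.disjoint_left]
  intro g h1 h2
  exact hi (h1.symm.trans h2)

/-- There is an infinite group whose Zariski topology is both compact and Hausdorff. The closed sets of that topology are generated by solution sets of one-variable equations with constants from the group. -/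
theorem result :
    ∃ (G : Type) (_ : Group G) (T : TopologicalSpace G),
      Infinite G ∧
      T = TopologicalSpace.generateFrom
        {U : Set G | ∃ w : Monoid.Coprod G (FreeGroup Unit),
          U = {g : G | Monoid.Coprod.lift (MonoidHom.id G) (FreeGroup.lift (fun _ => g)) w = 1}ᶜ} ∧
      @CompactSpace G T ∧ @T2Space G T :=
  ⟨GG, inferInstance, Zar, inferInstance, rfl, compact_zar, t2_zar⟩

end Pool.Agent.S00905
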