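import Pool.Statements.S01012
-- import your own Pool.Agent.* helpers here

set_option autoImplicit false
open Pool Pool.MP_293fae_al

namespace Pool.Agent.S01012

open Polynomial

/-- the prime element `1 + i` of `ℤ[i]` -/
def ppi : GaussianInt := ⟨1, 1⟩

/-- the element `i` of `ℤ[i]` -/
def ii : GaussianInt := ⟨0, 1⟩

lemma ppi_prime : Prime ppi := by
  rw [← irreducible_iff_prime]
  constructor
  · intro h
    have := (Zsqrtd.norm_eq_one_iff).2 h
    simp [ppi, Zsqrtd.norm] at this
  · intro a b hab
    have h1 : (ppi.norm).natAbs = (a.norm).natAbs * (b.norm).natAbs := by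
      rw [hab, Zsqrtd.norm_mul, Int.natAbs_mul]
    have h2 : (ppi.norm).natAbs = 2 := by simp [ppi, Zsqrtd.norm]
    rw [h2] at h1
    have h3 := Nat.prime_two
    rcases (Nat.prime_mul_iff.1 (h1 ▸ h3)) with h | h
    · right; exact (Zsqrtd.norm_eq_one_iff).1 h.2
    · left; exact (Zsqrtd.norm_eq_one_iff).1 h.2

abbrev A := GaussianInt[X]

/-- the maximal ideal `(1 + i, X)` of `ℤ[i][X]` -/
noncomputable def P : Ideal A := Ideal.comap (Polynomial.constantCoeff) (Ideal.span {ppi})

instance P_prime : P.IsPrime := by
  have : (Ideal.span {ppi} : Ideal GaussianInt).IsPrime :=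
    (Ideal.span_singleton_prime ppi_prime.ne_zero).2 ppi_prime
  exact Ideal.IsPrime.comap _

lemma P_eq : P = Ideal.span {(C ppi : A), X} := by
  apply le_antisymm
  · intro f hf
    rw [P, Ideal.mem_comap, Ideal.mem_span_singleton] at hf
    obtain ⟨c, hc⟩ := hf
    have h1 : f = X * f.divX + C (f.coeff 0) := (Polynomial.X_mul_divX_add f).symm
    rw [Ideal.mem_span_pair]
    refine ⟨C c, f.divX, ?_⟩
    have h2 : f.coeff 0 = ppi * c := hc
    conv_rhs => rw [h1, h2]
    rw [C_mul]; ring
  · rw [Ideal.span_le]
    rintro x (rfl | rfl)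
    · show _ ∈ P
      rw [P, Ideal.mem_comap, Ideal.mem_span_singleton]
      simp
    · show _ ∈ P
      rw [P, Ideal.mem_comap, Ideal.mem_span_singleton]
      simp

abbrev R := Localization.AtPrime P

instance : IsDomain R := inferInstance
instance : IsLocalRing R := inferInstance
instance : IsNoetherianRing R := IsLocalization.isNoetherianRing P.primeCompl R inferInstance

lemma Cp_mem : (C ppi : A) ∈ P := by
  rw [P_eq]; exact Ideal.subset_span (by simp)

lemma X_mem : (X : A) ∈ P := by
  rw [P_eq]; exact Ideal.subset_span (by simp)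

lemma Cp_prime : Prime (C ppi : A) := (Polynomial.prime_C_iff).2 ppi_prime

lemma map_prime {x : A} (hx : Prime x) (hxP : x ∈ P) : Prime (algebraMap A R x) := by
  have h0 : (algebraMap A R x) ≠ 0 := by
    intro h
    apply hx.ne_zero
    exact (IsLocalization.injective R (M := P.primeCompl) P.primeCompl_le_nonZeroDivisors)
      (by rw [h, map_zero])
  rw [← Ideal.span_singleton_prime h0]
  have h1 : (Ideal.span {x}).IsPrime := (Ideal.span_singleton_prime hx.ne_zero).2 hx
  have h2 : Ideal.span {x} ≤ P := by
    rw [Ideal.span_le]; simpa using hxP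
  have h3 := Ideal.isPrime_map_of_isLocalizationAtPrime (S := R) P h2
  rwa [Ideal.map_span, Set.image_singleton] at h3

lemma maxIdeal : IsLocalRing.maximalIdeal R = Ideal.span {algebraMap A R (C ppi), algebraMap A R X} := by
  have h : Ideal.map (algebraMap A R) P = Ideal.map (algebraMap A R) (Ideal.span {(C ppi : A), X}) :=
    congrArg _ P_eq
  rw [← Localization.AtPrime.map_eq_maximalIdeal, h, Ideal.map_span, Set.image_pair]

lemma height_P : P.height = 2 := by
  apply le_antisymm
  · have h := Ideal.height_le_card_of_mem_minimalPrimes_span (p := P) (s := {(C ppi : A), X}) (by simp)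
      (by
        rw [← P_eq, Ideal.minimalPrimes_eq_subsingleton_self]; simp)
    refine h.trans ?_
    have := Set.ncard_insert_le (C ppi : A) {X}
    simp only [Set.ncard_singleton] at this
    exact_mod_cast this
  · have h1 : (Ideal.span {(X : A)}).IsPrime :=
      (Ideal.span_singleton_prime X_ne_zero).2 prime_X
    have h0 : (⊥ : Ideal A).IsPrime := Ideal.isPrime_bot
    have l1 : (⊥ : Ideal A) < Ideal.span {(X : A)} := by
      rw [bot_lt_iff_ne_bot]
      intro h
      rw [Ideal.span_singleton_eq_bot] at h
      exact X_ne_zero h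
    have l2 : Ideal.span {(X : A)} < P := by
      refine lt_of_le_of_ne ?_ ?_
      · rw [Ideal.span_le]; simpa using X_mem
      · intro h
        have h2 : (C ppi : A) ∈ Ideal.span {(X : A)} := by rw [h]; exact Cp_mem
        rw [Ideal.mem_span_singleton, X_dvd_iff] at h2
        simp at h2
        exact ppi_prime.ne_zero h2
    have a1 := Ideal.height_add_one_le_of_lt_of_isPrime l1
    have a2 := Ideal.height_add_one_le_of_lt_of_isPrime l2
    have : (⊥ : Ideal A).height = 0 := by simp
    rw [this] at a1
    calc (2 : ℕ∞) = 0 + 1 + 1 := by norm_num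
      _ ≤ (Ideal.span {(X : A)}).height + 1 := by gcongr
      _ ≤ _ := a2

lemma dimR : ringKrullDim R = 2 := by
  rw [IsLocalization.AtPrime.ringKrullDim_eq_height P R, height_P]
  rfl

/-- `2X` is a sum of squares in `R`. -/
lemma sumsq : IsSumSq (algebraMap A R (2 * X)) := by
  have h : algebraMap A R (2 * X) = algebraMap A R (1 + X) * algebraMap A R (1 + X)
      + (algebraMap A R (C ii) * algebraMap A R (C ii)
        + algebraMap A R (C ii * X) * algebraMap A R (C ii * X)) := by
    have h1 : (C ii : A) * C ii = -1 := by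
      rw [← C_mul]
      have : ii * ii = -1 := by ext <;> simp [ii]
      rw [this]; simp
    have h2 : (2 * X : A) = (1 + X) * (1 + X) + (C ii * C ii + (C ii * X) * (C ii * X)) := by
      linear_combination -(1 + X^2) * h1
    have h3 := congrArg (algebraMap A R) h2
    rw [h3, map_add, map_add]
    rw [map_mul (algebraMap A R) (1 + X), map_mul (algebraMap A R) (C ii) (C ii), map_mul (algebraMap A R) (C ii * X)]
  rw [h]
  exact (IsSumSq.mul_self _).add ((IsSumSq.mul_self _).add (IsSumSq.mul_self _))

/-- `2X` is not a sum of two squares in `R`. -/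
lemma not_two (f : Fin 2 → R) : algebraMap A R (2 * X) ≠ ∑ i, f i ^ 2 := by
  intro h
  rw [Fin.sum_univ_two] at h
  set j : R := algebraMap A R (C ii) with hj
  set p : R := algebraMap A R (C ppi) with hp
  set x : R := algebraMap A R X with hx
  have hjj : j * j = -1 := by
    rw [hj, ← map_mul]
    have h1 : (C ii : A) * C ii = -1 := by
      rw [← C_mul]
      have : ii * ii = -1 := by ext <;> simp [ii]
      rw [this]; simp
    rw [h1]; simp
  have hpj : p = 1 + j := by
    rw [hp, hj, ← map_one (algebraMap A R), ← map_add, ← C_1, ← C_add]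
    congr 2
  have h2 : (2 : R) = - j * p ^ 2 := by
    rw [hpj]; linear_combination (j + 2) * hjj
  have hpp : Prime p := map_prime Cp_prime Cp_mem
  have hxp : Prime x := map_prime prime_X X_mem
  have hpm : p ∈ IsLocalRing.maximalIdeal R := by
    rw [maxIdeal]; exact Ideal.subset_span (by simp [hp])
  have hxm : x ∈ IsLocalRing.maximalIdeal R := by
    rw [maxIdeal]; exact Ideal.subset_span (by simp [hx])
  rw [map_mul, map_ofNat] at h
  -- f = u v
  obtain ⟨u, hu⟩ : ∃ u, u = f 0 + j * f 1 := ⟨_, rfl⟩
  obtain ⟨v, hv⟩ : ∃ v, v = f 0 - j * f 1 := ⟨_, rfl⟩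
  have huv : u * v = 2 * x := by
    rw [hu, hv, h]; linear_combination -(f 1)^2 * hjj
  have hdiff : u - v = 2 * (j * f 1) := by rw [hu, hv]; ring
  -- both divisible by p
  have hpd : p ∣ u - v := by
    rw [hdiff, h2]
    exact ⟨-j * p * (j * f 1), by ring⟩
  have hpuv : p ∣ u * v := by
    rw [huv, h2]
    exact ⟨-j * p * x, by ring⟩
  have hpu : p ∣ u := by
    rcases hpp.dvd_or_dvd hpuv with h | h
    · exact h
    · have := dvd_add hpd h
      simpa using this
  have hpv : p ∣ v := by
    have := dvd_sub hpu hpd
    simpa using this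
  obtain ⟨u', rfl⟩ := hpu
  obtain ⟨v', rfl⟩ := hpv
  have huv' : u' * v' = - j * x := by
    have h3 : p ^ 2 * (u' * v') = p ^ 2 * (- j * x) := by
      calc p ^ 2 * (u' * v') = p * u' * (p * v') := by ring
        _ = 2 * x := huv
        _ = - j * p^2 * x := by rw [← h2]
        _ = _ := by ring
    exact mul_left_cancel₀ (pow_ne_zero 2 hpp.ne_zero) h3
  have hd' : u' - v' = p * (-j * (j * f 1)) := by
    have h3 : p * (u' - v') = p * (p * (-j * (j * f 1))) := by
      calc p * (u' - v') = p * u' - p * v' := by ring
        _ = 2 * (j * f 1) := hdiff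
        _ = - j * p^2 * (j * f 1) := by rw [← h2]
        _ = _ := by ring
    exact mul_left_cancel₀ hpp.ne_zero h3
  have hdm : u' - v' ∈ IsLocalRing.maximalIdeal R := by
    rw [hd']; exact Ideal.mul_mem_right _ _ hpm
  have hju : IsUnit j := IsUnit.of_mul_eq_one (-j) (by linear_combination - hjj)
  -- x divides one of them
  have key : ∀ a b : R, a * b = - j * x → a - b ∈ IsLocalRing.maximalIdeal R → x ∣ a → False := by
    intro a b hab hm hxa
    obtain ⟨c, rfl⟩ := hxa
    have h4 : c * b = - j := by
      have : x * (c * b) = x * (-j) := by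
        calc x * (c * b) = x * c * b := by ring
          _ = -j * x := hab
          _ = _ := by ring
      exact mul_left_cancel₀ hxp.ne_zero this
    have hb : IsUnit b := by
      have : IsUnit (c * b) := by rw [h4]; exact hju.neg
      exact isUnit_of_mul_isUnit_right this
    have h5 : b ∈ IsLocalRing.maximalIdeal R := by
      have h6 : x * c ∈ IsLocalRing.maximalIdeal R := Ideal.mul_mem_right _ _ hxm
      have := Ideal.sub_mem _ h6 hm
      simpa using this
    exact ((IsLocalRing.mem_maximalIdeal b).1 h5) hb
  have hxuv : x ∣ u' * v' := by rw [huv']; exact ⟨-j, by ring⟩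
  rcases hxp.dvd_or_dvd hxuv with h | h
  · exact key u' v' huv' hdm h
  · refine key v' u' (by rw [mul_comm]; exact huv') ?_ h
    have := Ideal.neg_mem_iff (IsLocalRing.maximalIdeal R) |>.2 hdm
    simpa using this

/-- Assuming the statement, in a two-dimensional regular local ring containing `i` and with `2 ≠ 0` every
sum of squares is a sum of two squares. -/
lemma aux
    (H : ∀ (R : Type) [CommRing R] [IsDomain R] [IsLocalRing R] [IsNoetherianRing R],
      ringKrullDim R = 2 →
      (∃ a b : R, IsLocalRing.maximalIdeal R = Ideal.span {a, b}) →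
      ∀ (K : Type) [Field K] [Algebra R K] [IsFractionRing R K],
      ∀ n : ℕ,
        ((∀ x : R, IsSumSq x → ∃ f : Fin n → R, x = ∑ i, f i ^ 2) ↔
          (∀ x : K, IsSumSq x → ∃ f : Fin n → K, x = ∑ i, f i ^ 2)))
    (S : Type) [CommRing S] [IsDomain S] [IsLocalRing S] [IsNoetherianRing S]
    (hd : ringKrullDim S = 2) (hm : ∃ a b : S, IsLocalRing.maximalIdeal S = Ideal.span {a, b})
    (j0 : S) (hj0 : j0 * j0 = -1) (h20 : (2 : S) ≠ 0) :
    ∀ x : S, IsSumSq x → ∃ f : Fin 2 → S, x = ∑ i, f i ^ 2 := by
  refine (H S hd hm (FractionRing S) 2).2 ?_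
  intro x _
  have hchar : (2 : FractionRing S) ≠ 0 := by
    intro h
    apply h20
    apply IsFractionRing.injective S (FractionRing S)
    rw [map_ofNat, map_zero]; exact h
  set j : FractionRing S := algebraMap S (FractionRing S) j0 with hj
  have hjj : j * j = -1 := by
    rw [hj, ← map_mul, hj0]; simp
  refine ⟨![(x + 1) / 2, j * (x - 1) / 2], ?_⟩
  rw [Fin.sum_univ_two]
  simp only [Matrix.cons_val_zero, Matrix.cons_val_one]
  field_simp
  linear_combination -(x - 1) ^ 2 * hjj

/-- The negation of the preceding statement: For every 2-dimensional regular local ring R with fraction field K, and every n, every sum of squares in R is a sum of n squares iff the same holds in K; that is, the Pythagoras numbers of R and K agree. -/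
theorem result :
    ¬ (∀ (R : Type) [CommRing R] [IsDomain R] [IsLocalRing R] [IsNoetherianRing R],
      ringKrullDim R = 2 →
      (∃ a b : R, IsLocalRing.maximalIdeal R = Ideal.span {a, b}) →
      ∀ (K : Type) [Field K] [Algebra R K] [IsFractionRing R K],
      ∀ n : ℕ,
        ((∀ x : R, IsSumSq x → ∃ f : Fin n → R, x = ∑ i, f i ^ 2) ↔
          (∀ x : K, IsSumSq x → ∃ f : Fin n → K, x = ∑ i, f i ^ 2))) := by
  intro H
  have hj : algebraMap A R (C ii) * algebraMap A R (C ii) = -1 := by
    rw [← map_mul]
    have h1 : (C ii : A) * C ii = -1 := by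
      rw [← C_mul]
      have : ii * ii = -1 := by ext <;> simp [ii]
      rw [this]; simp
    rw [h1]; simp
  have h2 : (2 : R) ≠ 0 := by
    have hA : (2 : A) ≠ 0 := two_ne_zero
    have hinj : Function.Injective (algebraMap A R) :=
      IsLocalization.injective R (M := P.primeCompl) P.primeCompl_le_nonZeroDivisors
    intro h
    apply hA
    apply hinj
    rw [map_ofNat, map_zero]; exact h
  obtain ⟨f, hf⟩ := aux H R dimR ⟨_, _, maxIdeal⟩ _ hj h2 _ sumsq
  exact not_two f hf

end Pool.Agent.S01012
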