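import Pool.Statements.S01591
import Pool.Agent.W386.Conv

set_option autoImplicit false
open Pool Pool.MP_5c61b4_al

namespace Pool.Agent.S01591

/-- For n ≥ 2, if π₁: Γ₁→Q and π₂: Γ₂→Q are surjective, ker π₁ is of type F_n, Γ₁ and Γ₂ are F_{n+1}, and Q is F_{n+2}, then the fibre product of Γ₁ and Γ₂ over Q is of type F_{n+1}. -/
theorem result :
  ∀ (IsF : ℕ → (G : Type) → Group G → Prop),
    (∀ (m : ℕ) (G : Type) (inst : Group G), IsF m G inst ↔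
      ((∃ (r : ℕ) (f : FreeGroup (Fin r) →* G) (S : Finset (FreeGroup (Fin r))),
          Function.Surjective f ∧ f.ker = Subgroup.normalClosure (↑S : Set (FreeGroup (Fin r)))) ∧
       (∃ (k : ℕ → ℕ) (ε : MonoidAlgebra ℤ G →+* ℤ)
          (d : ∀ i : ℕ, (Fin (k (i+1)) → MonoidAlgebra ℤ G) →ₗ[MonoidAlgebra ℤ G]
                (Fin (k i) → MonoidAlgebra ℤ G)),
          (∀ g : G, ε (MonoidAlgebra.of ℤ G g) = 1) ∧
          (∃ x : Fin (k 0) → MonoidAlgebra ℤ G, ∑ j, ε (x j) = 1) ∧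
          (0 < m → ∀ x : Fin (k 0) → MonoidAlgebra ℤ G,
              (∑ j, ε (x j) = 0 ↔ x ∈ LinearMap.range (d 0))) ∧
          (∀ j : ℕ, j + 2 ≤ m → LinearMap.range (d (j+1)) = LinearMap.ker (d j))))) →
    ∀ (n : ℕ), 2 ≤ n →
    ∀ (Γ₁ Γ₂ Q : Type) [Group Γ₁] [Group Γ₂] [Group Q] (π₁ : Γ₁ →* Q) (π₂ : Γ₂ →* Q),
      Function.Surjective π₁ → Function.Surjective π₂ →
      IsF n (↥π₁.ker) inferInstance →
      IsF (n+1) Γ₁ inferInstance →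
      IsF (n+1) Γ₂ inferInstance →
      IsF (n+2) Q inferInstance →
      IsF (n+1)
        (↥(MonoidHom.eqLocus (π₁.comp (MonoidHom.fst Γ₁ Γ₂)) (π₂.comp (MonoidHom.snd Γ₁ Γ₂))))
        inferInstance := by
  intro IsF hIsF n hn Γ₁ Γ₂ Q _ _ _ π₁ π₂ hπ₁ hπ₂ hN hΓ₁ hΓ₂ hQ
  rw [hIsF] at hN hΓ₁ hΓ₂ hQ ⊢
  obtain ⟨hNfp, hNd⟩ := hN
  obtain ⟨hΓ₁fp, hΓ₁d⟩ := hΓ₁
  obtain ⟨hΓ₂fp, hΓ₂d⟩ := hΓ₂
  obtain ⟨hQfp, hQd⟩ := hQ
  have hNfp' := (W386.fp_iff (G := ↥π₁.ker)).2 hNfp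
  have hΓ₁fp' := (W386.fp_iff (G := Γ₁)).2 hΓ₁fp
  have hΓ₂fp' := (W386.fp_iff (G := Γ₂)).2 hΓ₂fp
  have hN' : W386.FPs (W386.ZG ↥π₁.ker) (n + 1) (W386.Triv ↥π₁.ker) :=
    W386.fps_of_data (by omega) hNd
  have hΓ₁' : W386.FPs (W386.ZG Γ₁) (n + 1 + 1) (W386.Triv Γ₁) :=
    W386.fps_of_data (by omega) hΓ₁d
  have hΓ₂' : W386.FPs (W386.ZG Γ₂) (n + 1 + 1) (W386.Triv Γ₂) :=
    W386.fps_of_data (by omega) hΓ₂d
  have hQ' : W386.FPs (W386.ZG Q) (n + 2 + 1) (W386.Triv Q) :=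
    W386.fps_of_data (by omega) hQd
  -- the fibre product
  set P : Subgroup (Γ₁ × Γ₂) :=
    MonoidHom.eqLocus (π₁.comp (MonoidHom.fst Γ₁ Γ₂)) (π₂.comp (MonoidHom.snd Γ₁ Γ₂)) with hP
  have hmem : ∀ x : Γ₁ × Γ₂, x ∈ P ↔ π₁ x.1 = π₂ x.2 := fun x => Iff.rfl
  let j : ↥π₁.ker →* ↥P :=
    { toFun := fun x => ⟨((x : Γ₁), (1 : Γ₂)), by
        rw [hmem]
        have : π₁ (x : Γ₁) = 1 := x.2
        simp [this]⟩
      map_one' := rfl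
      map_mul' := fun x y => by
        apply Subtype.ext
        simp }
  let π : ↥P →* Γ₁ := (MonoidHom.fst Γ₁ Γ₂).comp P.subtype
  let b : ↥P →* Γ₂ := (MonoidHom.snd Γ₁ Γ₂).comp P.subtype
  have hπs : Function.Surjective π := by
    intro x
    obtain ⟨y, hy⟩ := hπ₂ (π₁ x)
    exact ⟨⟨(x, y), (hmem _).2 hy.symm⟩, rfl⟩
  have hbs : Function.Surjective b := by
    intro y
    obtain ⟨x, hx⟩ := hπ₁ (π₂ y)
    exact ⟨⟨(x, y), (hmem _).2 hx⟩, rfl⟩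
  have hj0 : Function.Injective j := by
    intro x y hxy
    apply Subtype.ext
    exact congrArg (fun z : ↥P => (z : Γ₁ × Γ₂).1) hxy
  have hj : Function.Injective (π.comp j) := by
    intro x y hxy
    apply Subtype.ext
    exact hxy
  have hjb : b.ker = j.range := by
    ext x
    constructor
    · intro hx
      have hx2 : (x : Γ₁ × Γ₂).2 = 1 := hx
      have hx1 : π₁ (x : Γ₁ × Γ₂).1 = 1 := by
        have := (hmem _).1 x.2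
        rw [this, hx2, map_one]
      refine ⟨⟨(x : Γ₁ × Γ₂).1, hx1⟩, ?_⟩
      apply Subtype.ext
      exact Prod.ext rfl hx2.symm
    · rintro ⟨y, rfl⟩
      rfl
  have hjc : π₁.ker = (π.comp j).range := by
    ext x
    constructor
    · intro hx
      exact ⟨⟨x, hx⟩, rfl⟩
    · rintro ⟨y, rfl⟩
      exact y.2
  have hPfp : Group.IsFinitelyPresented ↥P := W386.fp_ext j hj0 b hbs hjb hNfp' hΓ₂fp'
  have hPfg : Group.FG ↥P := W386.fp_fg hPfp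
  have hK : π.ker.IsFinitelyNormallyGenerated := W386.ker_ifng π hπs hPfg hΓ₁fp'
  obtain ⟨m, rfl⟩ : ∃ m, n = m + 1 := ⟨n - 1, by omega⟩
  refine ⟨W386.fp_iff.1 hPfp, W386.data_of_fps ?_⟩
  -- `W386.main_fp` with `n = m + 1`
  exact W386.main_fp j π b π₁ hπs hbs hπ₁ hj hjb hjc hPfg hK (m + 1) hN' hΓ₁' hQ' hΓ₂'

end Pool.Agent.S01591
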