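import Pool.Statements.S02012
import Pool.Agent.U747.Branch

set_option autoImplicit false
open Pool Pool.MP_79f901_al

namespace Pool.Agent.S02012

/-- the vertices of the binary tree, as lists of Booleans -/
def enc : {l : List ℕ // ∀ i (h : i < l.length), l.get ⟨i, h⟩ < 2} ≃ List Bool where
  toFun v := v.1.map (fun x => decide (x = 1))
  invFun x := ⟨x.map (fun b => if b then 1 else 0), fun i h => by
    simp only [List.get_eq_getElem, List.getElem_map]
    split <;> norm_num⟩
  left_inv v := by
    apply Subtype.ext
    show (v.1.map (fun x => decide (x = 1))).map (fun b => if b then 1 else 0) = v.1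
    rw [List.map_map]
    apply List.ext_getElem
    · simp
    · intro i h1 h2
      have := v.2 i h2
      simp only [List.get_eq_getElem] at this
      simp only [List.getElem_map, Function.comp_apply, decide_eq_true_eq]
      split <;> omega
  right_inv x := by
    show (x.map (fun b => if b then 1 else 0)).map (fun x => decide (x = 1)) = x
    rw [List.map_map]
    apply List.ext_getElem
    · simp
    · intro i h1 h2
      simp only [List.getElem_map, Function.comp_apply]
      cases x[i] <;> simp

theorem enc_length (v) : (enc v).length = v.1.length := List.length_map _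

theorem enc_prefix (v w) : enc v <+: enc w ↔ List.IsPrefix v.1 w.1 := by
  constructor
  · intro h
    have h1 := h.map (fun b => if b then 1 else 0)
    have h2 : ∀ v, ((enc v).map (fun b => if b then 1 else 0)) = v.1 := fun v =>
      congrArg Subtype.val (enc.left_inv v)
    rwa [h2, h2] at h1
  · intro h
    exact h.map _

/-- The negation of the preceding statement: For every branch group L acting on a spherically homogeneous rooted tree, every automorphism of L is conjugation by a unique tree automorphism, so Aut L equals the normalizer of L in Aut T. -/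
theorem result :
    ¬ (∀ (m : ℕ → ℕ), (∀ n, 2 ≤ m n) →
    ∀ L : Subgroup (Equiv.Perm {l : List ℕ // ∀ i (h : i < l.length), l.get ⟨i, h⟩ < m i}),
    (∀ g ∈ L, ∀ v w : {l : List ℕ // ∀ i (h : i < l.length), l.get ⟨i, h⟩ < m i},
        (List.IsPrefix v.1 w.1 ↔ List.IsPrefix (g v).1 (g w).1)) →
    (∀ v w : {l : List ℕ // ∀ i (h : i < l.length), l.get ⟨i, h⟩ < m i},
        v.1.length = w.1.length → ∃ g ∈ L, g v = w) →
    (∀ n : ℕ, ((Subgroup.closure
        {g : Equiv.Perm {l : List ℕ // ∀ i (h : i < l.length), l.get ⟨i, h⟩ < m i} |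
          g ∈ L ∧ ∃ u : {l : List ℕ // ∀ i (h : i < l.length), l.get ⟨i, h⟩ < m i},
            u.1.length = n ∧
            ∀ v : {l : List ℕ // ∀ i (h : i < l.length), l.get ⟨i, h⟩ < m i},
              ¬ List.IsPrefix u.1 v.1 → g v = v}).subgroupOf L).index ≠ 0) →
    ∀ φ : L ≃* L,
      ∃! σ : Equiv.Perm {l : List ℕ // ∀ i (h : i < l.length), l.get ⟨i, h⟩ < m i},
        (∀ v w : {l : List ℕ // ∀ i (h : i < l.length), l.get ⟨i, h⟩ < m i},
          (List.IsPrefix v.1 w.1 ↔ List.IsPrefix (σ v).1 (σ w).1)) ∧
        ∀ g : L, ((φ g : L) : Equiv.Perm {l : List ℕ // ∀ i (h : i < l.length), l.get ⟨i, h⟩ < m i})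
          = σ * (g : Equiv.Perm {l : List ℕ // ∀ i (h : i < l.length), l.get ⟨i, h⟩ < m i}) * σ⁻¹) := by
  intro H
  refine Pool.Agent.U747.Branch.transport enc ?_
  intro L h1 h2 h3 φ
  obtain ⟨σ, ⟨hσ, hφ⟩, -⟩ := H (fun _ => 2) (fun _ => le_rfl) L
    (fun g hg v w => by
      have := h1 g hg v w
      rwa [enc_prefix, enc_prefix] at this)
    (fun v w hvw => h2 v w (by rw [enc_length, enc_length]; exact hvw))
    (fun n => by
      have := h3 n
      simp only [enc_prefix, enc_length] at this
      exact this) φ
  exact ⟨σ, fun v w => by rw [enc_prefix, enc_prefix]; exact hσ v w, hφ⟩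


end Pool.Agent.S02012
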