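import Pool.Statements.S02070
import Pool.Agent.U653.PR.Padic
-- import your own Pool.Agent.* helpers here

set_option autoImplicit false
open Pool Pool.MP_7ed69f_al

namespace Pool.Agent.S02070

/-- The negation of the preceding statement: For all N,r ≥ 2 there is a finite set of integer polynomials of degree ≤ C(N,2)·r whose values at q are exactly the dimensions of irreducible complex reps of GL_N(o/p^r) nontrivial on the level-(r−1) kernel, for every compact DVR o. -/
theorem result :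
    ¬ (∀ N r : ℕ, 2 ≤ N → 2 ≤ r →
    ∃ P : Finset (Polynomial ℤ), (∀ d ∈ P, d.natDegree ≤ N.choose 2 * r) ∧
    ∀ (R : Type) [CommRing R] [IsDomain R] [IsDiscreteValuationRing R]
      [Finite (IsLocalRing.ResidueField R)]
      [IsAdicComplete (IsLocalRing.maximalIdeal R) R],
    {z : ℤ | ∃ (V : Type) (_ : AddCommGroup V) (_ : Module ℂ V)
        (ρ : Representation ℂ
          (Matrix.GeneralLinearGroup (Fin N) (R ⧸ IsLocalRing.maximalIdeal R ^ r)) V),
        FiniteDimensional ℂ V ∧ Nontrivial V ∧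
        (∀ W : Submodule ℂ V, (∀ g v, v ∈ W → ρ g v ∈ W) → W = ⊥ ∨ W = ⊤) ∧
        (∃ g : Matrix.GeneralLinearGroup (Fin N) (R ⧸ IsLocalRing.maximalIdeal R ^ r),
          (∀ i j, ∃ a ∈ IsLocalRing.maximalIdeal R ^ (r - 1),
            g.val i j
              - (1 : Matrix (Fin N) (Fin N) (R ⧸ IsLocalRing.maximalIdeal R ^ r)) i j
              = Ideal.Quotient.mk (IsLocalRing.maximalIdeal R ^ r) a) ∧ ρ g ≠ 1) ∧
        (Module.finrank ℂ V : ℤ) = z}
    = (fun d : Polynomial ℤ => d.eval (Nat.card (IsLocalRing.ResidueField R) : ℤ)) ''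
        (P : Set (Polynomial ℤ))) := by
  intro H
  obtain ⟨P, -, hP⟩ := H 3 2 (by norm_num) le_rfl
  set f0 : Polynomial ℤ := Polynomial.X ^ 3 * (Polynomial.X + 1) *
    (Polynomial.X ^ 2 + Polynomial.X + 1) with hf0
  have hev : ∀ z : ℤ, f0.eval z = z ^ 3 * (z + 1) * (z ^ 2 + z + 1) := by
    intro z
    simp [hf0]
  -- the polynomial `f0` is one of the polynomials
  have hodd : ∀ p : ℕ, p.Prime → 3 ≤ p → ∃ d ∈ P, d.eval (p : ℤ) = f0.eval (p : ℤ) := by
    intro p hp h3
    have : Fact p.Prime := ⟨hp⟩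
    have h1 : f0.eval (p : ℤ) ∈ (fun d : Polynomial ℤ =>
        d.eval (Nat.card (IsLocalRing.ResidueField ℤ_[p]) : ℤ)) '' (P : Set (Polynomial ℤ)) := by
      rw [← hP ℤ_[p], hev]
      exact Pool.Agent.U653.PR.exists_odd p h3
    obtain ⟨d, hd, hd'⟩ := h1
    simp only at hd'
    rw [Pool.Agent.U653.PR.card_res] at hd'
    exact ⟨d, hd, hd'⟩
  have hmem : f0 ∈ P := by
    by_contra hcon
    have hfin : ∀ d ∈ P, {p : ℕ | d.eval (p : ℤ) = f0.eval (p : ℤ)}.Finite := by
      intro d hd
      by_contra hinf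
      have h1 : Set.Infinite {x : ℤ | d.eval x = f0.eval x} := by
        have h2 := Set.Infinite.image (f := fun n : ℕ => (n : ℤ))
          (Nat.cast_injective.injOn) hinf
        refine h2.mono ?_
        rintro _ ⟨n, hn, rfl⟩
        exact hn
      have h3 := Polynomial.eq_of_infinite_eval_eq d f0 h1
      exact hcon (h3 ▸ hd)
    have h1 : (⋃ d ∈ P, {p : ℕ | d.eval (p : ℤ) = f0.eval (p : ℤ)}).Finite :=
      Set.Finite.biUnion P.finite_toSet hfin
    have h2 : {p : ℕ | p.Prime}.Finite := by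
      refine (h1.union (Set.finite_lt_nat 3)).subset ?_
      intro p hp
      by_cases h3 : 3 ≤ p
      · left
        obtain ⟨d, hd, hd'⟩ := hodd p hp h3
        simp only [Set.mem_iUnion]
        exact ⟨d, hd, hd'⟩
      · right
        exact not_le.1 h3
    exact Nat.infinite_setOf_prime h2
  -- the value at two is no dimension
  have h1 : f0.eval ((2 : ℕ) : ℤ) ∈ (fun d : Polynomial ℤ =>
      d.eval (Nat.card (IsLocalRing.ResidueField ℤ_[2]) : ℤ)) '' (P : Set (Polynomial ℤ)) := by
    refine ⟨f0, hmem, ?_⟩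
    simp only
    rw [Pool.Agent.U653.PR.card_res]
  rw [← hP ℤ_[2], hev] at h1
  obtain ⟨V, i1, i2, ρ, h2, h3, h4, -, h5⟩ := h1
  have h6 := Pool.Agent.U653.PR.none_two ρ h4
  push_cast at h5
  norm_num at h5
  omega

end Pool.Agent.S02070
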