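import Pool.Statements.S02286

set_option autoImplicit false
open Pool Pool.MP_91b10e_al

namespace Pool.Agent.S02286

/-- The subbase of the Zariski topology. -/
def gens (G : Type) [Group G] : Set (Set G) :=
  {U : Set G | ∃ w : Monoid.Coprod G (Multiplicative ℤ),
            U = {x : G | Monoid.Coprod.lift (MonoidHom.id G) (zpowersHom G x) w ≠ 1}}

/-- The group: the full product of countably many copies of the symmetric group on three letters. -/
abbrev P : Type := ℕ → Equiv.Perm (Fin 3)

instance instTop : TopologicalSpace (Equiv.Perm (Fin 3)) := ⊥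

instance instDisc : DiscreteTopology (Equiv.Perm (Fin 3)) := ⟨rfl⟩

theorem cont_eval (w : Monoid.Coprod P (Multiplicative ℤ)) :
    Continuous fun x : P => Monoid.Coprod.lift (MonoidHom.id P) (zpowersHom P x) w := by
  induction w using Monoid.Coprod.induction_on with
  | inl m => simpa using continuous_const
  | inr n =>
    simp only [Monoid.Coprod.lift_apply_inr, zpowersHom_apply]
    exact continuous_zpow _
  | mul x y hx hy =>
    simp only [map_mul]
    exact hx.mul hy

theorem le_zariski : (inferInstance : TopologicalSpace P) ≤ TopologicalSpace.generateFrom (gens P) := by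
  refine le_generateFrom ?_
  rintro U ⟨w, rfl⟩
  exact isOpen_compl_singleton.preimage (cont_eval w)

theorem compact_zariski :
    @IsCompact P (TopologicalSpace.generateFrom (gens P)) Set.univ := by
  have h : @Continuous P P inferInstance (TopologicalSpace.generateFrom (gens P)) id :=
    continuous_id_iff_le.2 le_zariski
  have h2 : @IsCompact P inferInstance Set.univ := isCompact_univ
  have h3 := @IsCompact.image P P inferInstance (TopologicalSpace.generateFrom (gens P)) _ id h2 h
  simpa using h3

theorem open_coord (i : ℕ) :
    @IsOpen P (TopologicalSpace.generateFrom (gens P)) {x : P | x i ≠ 1} := by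
  have hset : {x : P | x i ≠ 1} = ⋃ g : Equiv.Perm (Fin 3),
      {x : P | Monoid.Coprod.lift (MonoidHom.id P) (zpowersHom P x)
        (Monoid.Coprod.inr (Multiplicative.ofAdd 1) * Monoid.Coprod.inl (Pi.mulSingle i g) *
          Monoid.Coprod.inr (Multiplicative.ofAdd (-1)) *
          Monoid.Coprod.inl (Pi.mulSingle i g⁻¹)) ≠ 1} := by
    ext x
    simp only [Set.mem_ofPred_eq, Set.mem_iUnion, map_mul, Monoid.Coprod.lift_apply_inr,
      Monoid.Coprod.lift_apply_inl, zpowersHom_apply, MonoidHom.id_apply, toAdd_ofAdd, zpow_one,
      zpow_neg]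
    have key : ∀ s : Equiv.Perm (Fin 3), s ≠ 1 → ∃ g : Equiv.Perm (Fin 3),
      s * g * s⁻¹ * g⁻¹ ≠ 1 := by decide
    constructor
    · intro hx
      obtain ⟨g, hg⟩ := key (x i) hx
      refine ⟨g, fun h => hg ?_⟩
      have := congrFun h i
      simpa using this
    · rintro ⟨g, hg⟩ hx
      apply hg
      funext j
      by_cases hj : j = i
      · subst hj
        simp [hx]
      · simp [Pi.mulSingle_eq_of_ne hj]
  rw [hset]
  refine @isOpen_iUnion P _ (TopologicalSpace.generateFrom (gens P)) _ fun g => ?_
  exact TopologicalSpace.isOpen_generateFrom_of_mem ⟨_, rfl⟩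

theorem not_noetherian :
    ¬ @TopologicalSpace.NoetherianSpace P (TopologicalSpace.generateFrom (gens P)) := by
  intro h
  have hc := @TopologicalSpace.NoetherianSpace.isCompact P
    (TopologicalSpace.generateFrom (gens P)) h {x : P | x ≠ 1}
  obtain ⟨t, ht⟩ := @IsCompact.elim_finite_subcover P (TopologicalSpace.generateFrom (gens P)) _ ℕ
    hc (fun i => {x : P | x i ≠ 1}) open_coord (by
      intro x hx
      have hx' : x ≠ 1 := hx
      obtain ⟨i, hi⟩ := Function.ne_iff.1 hx'
      exact Set.mem_iUnion.2 ⟨i, hi⟩)
  obtain ⟨n, hn⟩ := Infinite.exists_notMem_finset t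
  have hs : (Equiv.swap (0 : Fin 3) 1) ≠ 1 := by decide
  have h1 : (Pi.mulSingle n (Equiv.swap (0 : Fin 3) 1) : P) ∈ {x : P | x ≠ 1} := by
    intro h2
    have := congrFun h2 n
    rw [Pi.mulSingle_eq_same] at this
    exact hs this
  have h3 := ht h1
  simp only [Set.mem_iUnion, Set.mem_ofPred_eq] at h3
  obtain ⟨i, hi, h4⟩ := h3
  apply h4
  rw [Pi.mulSingle_eq_of_ne]
  rintro rfl
  exact hn hi

/-- The negation of the preceding statement: For every group G, if the Zariski topology (closed subbasis: solution sets of one-variable equations with constants from G) is compact, then it is Noetherian. -/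
theorem result :
    ¬ (∀ (G : Type) [Group G],
      @IsCompact G
        (TopologicalSpace.generateFrom
          {U : Set G | ∃ w : Monoid.Coprod G (Multiplicative ℤ),
            U = {x : G | Monoid.Coprod.lift (MonoidHom.id G) (zpowersHom G x) w ≠ 1}})
        Set.univ →
      @TopologicalSpace.NoetherianSpace G
        (TopologicalSpace.generateFrom
          {U : Set G | ∃ w : Monoid.Coprod G (Multiplicative ℤ),
            U = {x : G | Monoid.Coprod.lift (MonoidHom.id G) (zpowersHom G x) w ≠ 1}})) := by
  intro h
  exact not_noetherian (h P compact_zariski)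

end Pool.Agent.S02286
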