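import Pool.Statements.S02378
import Pool.Agent.AIM3.PM

set_option autoImplicit false
open Pool Pool.MP_969c87_al

namespace Pool.Agent.S02378

/-- The negation of the preceding statement: There is a loop whose inner mapping group (generated by the maps L_{x,y}, R_{x,y}, T_x) is abelian, which is nilpotent and whose third upper central term is not the whole loop, i.e. its nilpotency class exceeds three. -/
theorem result :
    ¬ (∃ (Q : Type) (mul : Q → Q → Q) (e : Q) (ldiv rdiv : Q → Q → Q),
      (∀ x, mul e x = x ∧ mul x e = x) ∧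
      (∀ a b, mul a (ldiv a b) = b ∧ ldiv a (mul a b) = b ∧
              mul (rdiv b a) a = b ∧ rdiv (mul b a) a = b) ∧
      (∀ f g : Q → Q,
        ((∃ x y, f = fun z => ldiv (mul x y) (mul x (mul y z))) ∨
         (∃ x y, f = fun z => rdiv (mul (mul z x) y) (mul x y)) ∨
         (∃ x, f = fun z => rdiv (mul x z) x)) →
        ((∃ x y, g = fun z => ldiv (mul x y) (mul x (mul y z))) ∨
         (∃ x y, g = fun z => rdiv (mul (mul z x) y) (mul x y)) ∨
         (∃ x, g = fun z => rdiv (mul x z) x)) →
        f ∘ g = g ∘ f) ∧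
      ∃ Z : ℕ → Set Q,
        Z 0 = {e} ∧
        (∀ k, Z (k + 1) = {a | ∀ x y,
            (∃ n ∈ Z k, mul x a = mul (mul a x) n) ∧
            (∃ n ∈ Z k, mul a (mul x y) = mul (mul (mul a x) y) n) ∧
            (∃ n ∈ Z k, mul x (mul a y) = mul (mul (mul x a) y) n) ∧
            (∃ n ∈ Z k, mul x (mul y a) = mul (mul (mul x y) a) n)}) ∧
        (∃ n, Z n = Set.univ) ∧
        Z 3 ≠ Set.univ) := by
  exact Pool.Agent.AIM3.frozen

end Pool.Agent.S02378
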