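import Pool.Statements.S02538
import Pool.Agent.U693.GKNil

set_option autoImplicit false
open Pool Pool.MP_a19302_al

namespace Pool.Agent.S02538

/-- The negation of the preceding statement: Every finitely generated associative algebra over a field with polynomially bounded growth (finite GK dimension) has a nilpotent two-sided ideal containing every nilpotent two-sided ideal. -/
theorem result :
    ¬ (∀ (k : Type) [Field k] (A : Type) [Ring A] [Algebra k A],
      Algebra.FiniteType k A →
      (∃ V : Submodule k A, FiniteDimensional k V ∧ (1 : A) ∈ V ∧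
          Algebra.adjoin k (V : Set A) = ⊤ ∧
          ∃ C d : ℕ, ∀ n : ℕ, Module.finrank k ↥(V ^ n) ≤ C * (n + 1) ^ d) →
      ∃ N : TwoSidedIdeal A,
        (∃ m : ℕ, ∀ f : Fin m → A, (∀ i, f i ∈ N) → (List.ofFn f).prod = 0) ∧
        ∀ I : TwoSidedIdeal A,
          (∃ m : ℕ, ∀ f : Fin m → A, (∀ i, f i ∈ I) → (List.ofFn f).prod = 0) → I ≤ N) := by
  intro h
  obtain ⟨A, i1, i2, h1, h2, h3⟩ := Pool.Agent.U693.GKNil.main
  exact h3 (h ℚ A h1 h2)

end Pool.Agent.S02538
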