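import Pool.Statements.S02592
import Pool.Agent.S02725

set_option autoImplicit false
open Pool Pool.MP_a5fc06_al

namespace Pool.Agent.S02592

/-- The negation of the preceding statement: For every set of group laws and every rank, if the relatively free group (free group modulo the verbal subgroup of those laws) is soluble, then every nontrivial element avoids some finite-index subgroup, i.e. the group is residually finite. -/
theorem result :
    ¬ (∀ (W : Set (FreeGroup ℕ)) (α : Type),
      IsSolvable (FreeGroup α ⧸ Subgroup.normalClosure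
        {x : FreeGroup α | ∃ w ∈ W, ∃ φ : FreeGroup ℕ →* FreeGroup α, φ w = x}) →
      ∀ g : FreeGroup α ⧸ Subgroup.normalClosure
          {x : FreeGroup α | ∃ w ∈ W, ∃ φ : FreeGroup ℕ →* FreeGroup α, φ w = x},
        g ≠ 1 →
          ∃ H : Subgroup (FreeGroup α ⧸ Subgroup.normalClosure
              {x : FreeGroup α | ∃ w ∈ W, ∃ φ : FreeGroup ℕ →* FreeGroup α, φ w = x}),
            H.index ≠ 0 ∧ g ∉ H) := by
  intro hRF
  obtain ⟨L, d, hL, n, f, hfs, hfi⟩ := Pool.Agent.S02725.result
  have hR := hRF L (Fin n)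
  set N : Subgroup (FreeGroup (Fin n)) := Subgroup.normalClosure
    {x : FreeGroup (Fin n) | ∃ w ∈ L, ∃ φ : FreeGroup ℕ →* FreeGroup (Fin n), φ w = x} with hN
  -- the relatively free group satisfies the laws
  have hlaw : ∀ w ∈ L, ∀ φ : FreeGroup ℕ →* (FreeGroup (Fin n) ⧸ N), φ w = 1 := by
    intro w hw φ
    choose t ht using fun k : ℕ => QuotientGroup.mk_surjective (s := N) (φ (FreeGroup.of k))
    let ψ : FreeGroup ℕ →* FreeGroup (Fin n) := FreeGroup.lift t
    have hψ : (QuotientGroup.mk' N).comp ψ = φ := by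
      apply FreeGroup.ext_hom
      intro k
      simp [ψ, ht]
    rw [← hψ, MonoidHom.comp_apply, QuotientGroup.mk'_apply, QuotientGroup.eq_one_iff]
    exact Subgroup.subset_normalClosure ⟨w, hw, ψ, rfl⟩
  have hsol : derivedSeries (FreeGroup (Fin n) ⧸ N) d = ⊥ := hL _ hlaw
  have hR' := hR ⟨⟨d, hsol⟩⟩
  -- a nontrivial element of the kernel
  obtain ⟨g, hg, hg1⟩ : ∃ g, f g = 1 ∧ g ≠ 1 := by
    by_contra hcon
    push Not at hcon
    apply hfi
    rw [injective_iff_map_eq_one]
    exact hcon
  obtain ⟨H, hH, hgH⟩ := hR' g hg1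
  have : H.FiniteIndex := ⟨hH⟩
  have hfin : Finite ((FreeGroup (Fin n) ⧸ N) ⧸ H.normalCore) := inferInstance
  have hfin2 : Finite ((FreeGroup (Fin n) ⧸ N) →* ((FreeGroup (Fin n) ⧸ N) ⧸ H.normalCore)) := by
    apply Finite.of_injective
      (fun φ : (FreeGroup (Fin n) ⧸ N) →* ((FreeGroup (Fin n) ⧸ N) ⧸ H.normalCore) =>
        fun k : Fin n => φ (QuotientGroup.mk' N (FreeGroup.of k)))
    intro φ φ' h
    apply QuotientGroup.monoidHom_ext
    apply FreeGroup.ext_hom
    intro k
    exact congrFun h k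
  have hinj : Function.Injective
      (fun φ : (FreeGroup (Fin n) ⧸ N) →* ((FreeGroup (Fin n) ⧸ N) ⧸ H.normalCore) =>
        φ.comp f) := by
    intro φ φ' h
    apply DFunLike.ext
    intro x
    obtain ⟨y, rfl⟩ := hfs x
    exact DFunLike.congr_fun h y
  obtain ⟨φ, hφ⟩ := (Finite.injective_iff_surjective.mp hinj)
    (QuotientGroup.mk' H.normalCore)
  have h1 : QuotientGroup.mk' H.normalCore g = 1 := by
    have := DFunLike.congr_fun hφ g
    simp only [MonoidHom.comp_apply, hg, map_one] at this
    exact this.symm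
  rw [QuotientGroup.mk'_apply, QuotientGroup.eq_one_iff] at h1
  exact hgH (Subgroup.normalCore_le H h1)

end Pool.Agent.S02592
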