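import Pool.Statements.S02695
import Pool.Agent.U688.Final2

/-!
The limit of the ratio of the central to the ordinary codimensions of `k × k` matrices exists.

Write `t_n` for the dimension of the span of the trace monomials of degree `n` (equivalently of the
permutation operators on the `n`-th tensor power of `F^k`).

* `t_n` is log-convex (Cauchy-Schwarz for the corners of a semisimple algebra), so `t_{n+1}/t_n`
  converges; `t_n` is at least `k^(2n) / (n+1)^(k^2)` (rank of a Gram matrix).
* A Capelli type polynomial is a conductor: its product with any trace monomial in new variables is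
  (the trace of) a polynomial. Hence the polynomials contain the ideal of the conductor, whose
  codimension in the space of trace monomials is at most the number of words over `k^2` letters
  avoiding a fixed subsequence, that is `O(n^N (k^2-1)^n)`.
* So the ordinary codimension is `t_{n+1}` and the dimension of the central polynomials modulo
  identities is `t_n`, up to exponentially smaller errors.
-/

set_option autoImplicit false
open Pool Pool.MP_aed2d0_al

namespace Pool.Agent.S02695

/-- For every characteristic-zero field F and k ≥ 1, the ratio of central codimensions to ordinary codimensions of k×k matrices over F converges to some real limit between 0 and 1 as n goes to infinity. -/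
theorem result :
    ∀ (F : Type) [Field F] [CharZero F] (k : ℕ), 1 ≤ k →
      ∃ α : ℝ, 0 ≤ α ∧ α ≤ 1 ∧
        Filter.Tendsto (fun n : ℕ =>
          (Module.finrank F (Submodule.span F (Set.range (fun σ : Equiv.Perm (Fin n) =>
              fun x : Fin n → Matrix (Fin k) (Fin k) F =>
                Submodule.mkQ (Subalgebra.toSubmodule (Subalgebra.center F (Matrix (Fin k) (Fin k) F)))
                  (List.ofFn (fun i => x (σ i))).prod))) : ℝ) /
          (Module.finrank F (Submodule.span F (Set.range (fun σ : Equiv.Perm (Fin n) =>
              fun x : Fin n → Matrix (Fin k) (Fin k) F =>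
                (List.ofFn (fun i => x (σ i))).prod))) : ℝ))
          Filter.atTop (nhds α) := by
  intro F _ _ k hk
  rcases Nat.lt_or_ge k 2 with h1 | h2
  · -- k = 1: every value is central
    have hk1 : k = 1 := by omega
    subst hk1
    refine ⟨0, le_rfl, zero_le_one, ?_⟩
    have hz : ∀ n : ℕ, Module.finrank F (Submodule.span F (Set.range (fun σ : Equiv.Perm (Fin n) =>
              fun x : Fin n → Matrix (Fin 1) (Fin 1) F =>
                Submodule.mkQ (Subalgebra.toSubmodule (Subalgebra.center F (Matrix (Fin 1) (Fin 1) F)))
                  (List.ofFn (fun i => x (σ i))).prod))) = 0 := by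
      intro n
      have hq : ∀ m : Matrix (Fin 1) (Fin 1) F,
          Submodule.mkQ (Subalgebra.toSubmodule (Subalgebra.center F (Matrix (Fin 1) (Fin 1) F))) m = 0 := by
        intro m
        rw [Submodule.mkQ_apply, Submodule.Quotient.mk_eq_zero]
        show m ∈ Subalgebra.center F (Matrix (Fin 1) (Fin 1) F)
        rw [Subalgebra.mem_center_iff]
        intro b
        ext i j
        simp [Matrix.mul_apply, Subsingleton.elim i 0, Subsingleton.elim j 0, mul_comm]
      have hbot : Submodule.span F (Set.range (fun σ : Equiv.Perm (Fin n) =>
              fun x : Fin n → Matrix (Fin 1) (Fin 1) F =>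
                Submodule.mkQ (Subalgebra.toSubmodule (Subalgebra.center F (Matrix (Fin 1) (Fin 1) F)))
                  (List.ofFn (fun i => x (σ i))).prod)) = ⊥ := by
        rw [Submodule.span_eq_bot]
        rintro _ ⟨σ, rfl⟩
        funext x
        exact hq _
      rw [hbot]
      exact finrank_bot F _
    simp only [hz, Nat.cast_zero, zero_div]
    exact tendsto_const_nhds
  · obtain ⟨α, ha0, ha1, hlim⟩ := Pool.Agent.U688.real_limit h2
    refine ⟨α, ha0, ha1, ?_⟩
    refine hlim.congr ?_
    intro n
    have e1 : Module.finrank F (Submodule.span F (Set.range (fun σ : Equiv.Perm (Fin n) =>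
              fun x : Fin n → Matrix (Fin k) (Fin k) F =>
                Submodule.mkQ (Subalgebra.toSubmodule (Subalgebra.center F (Matrix (Fin k) (Fin k) F)))
                  (List.ofFn (fun i => x (σ i))).prod))) =
        Module.finrank ℝ (Submodule.span ℝ (Set.range (fun σ : Equiv.Perm (Fin n) =>
        fun w => Pool.Agent.U688.LL k ℝ (Pool.Agent.U688.mw k ℝ σ w)))) := by
      rw [← Pool.Agent.U688.finrank_LL_indep n F ℝ, ← Pool.Agent.U688.finrank_qZ_eq hk n,
        ← Pool.Agent.U688.finrank_mono_eq]
      rfl
    have e2 : Module.finrank F (Submodule.span F (Set.range (fun σ : Equiv.Perm (Fin n) =>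
              fun x : Fin n → Matrix (Fin k) (Fin k) F =>
                (List.ofFn (fun i => x (σ i))).prod))) =
        Module.finrank ℝ (Pool.Agent.U688.VV k n) := by
      unfold Pool.Agent.U688.VV
      rw [← Pool.Agent.U688.finrank_mw_indep n F ℝ]
      exact Pool.Agent.U688.finrank_mono_eq (Matrix (Fin k) (Fin k) F) LinearMap.id
    rw [e1, e2]

end Pool.Agent.S02695
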