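import Pool.Statements.S02896
import Pool.Agent.U630.CC.Raag

set_option autoImplicit false
open Pool Pool.MP_bcc336_al

namespace Pool.Agent.S02896

/-- The negation of the preceding statement: Every CAT(0) cube complex (as a median graph) with a proper cocompact cubical group action embeds as a convex subcomplex of the universal cover of the Salvetti complex of some RAAG on a finite graph, i.e. convexly into the RAAG's standard Cayley graph. -/
theorem result :
    ¬ (∀ (V : Type) (G : SimpleGraph V) (H : Type) [Group H] [MulAction H V],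
    G.Connected →
    (∀ x y z : V, ∃! m : V,
        G.dist x m + G.dist m y = G.dist x y ∧
        G.dist y m + G.dist m z = G.dist y z ∧
        G.dist x m + G.dist m z = G.dist x z) →
    (∀ v : V, (G.neighborSet v).Finite) →
    (∀ (h : H) (x y : V), G.Adj (h • x) (h • y) ↔ G.Adj x y) →
    (∀ v : V, (MulAction.stabilizer H v : Set H).Finite) →
    Finite (MulAction.orbitRel.Quotient H V) →
    ∃ (n : ℕ) (Γ : SimpleGraph (Fin n)) (R : Set (FreeGroup (Fin n))),
      R = {r | ∃ i j : Fin n, Γ.Adj i j ∧
        r = FreeGroup.of i * FreeGroup.of j * (FreeGroup.of i)⁻¹ * (FreeGroup.of j)⁻¹} ∧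
      ∃ (C : SimpleGraph (PresentedGroup R)),
        (∀ g h : PresentedGroup R, C.Adj g h ↔
          (g ≠ h ∧ ∃ i : Fin n, h = g * PresentedGroup.of i ∨ g = h * PresentedGroup.of i)) ∧
        ∃ f : G ↪g C,
          ∀ a b c : PresentedGroup R, a ∈ Set.range f → b ∈ Set.range f →
            C.dist a c + C.dist c b = C.dist a b → c ∈ Set.range f) := by
  intro hall
  letI act : MulAction (U630.CC.HH U630.CC.hAl) (U630.CC.VV U630.CC.hAl) :=
    U630.CC.actV U630.CC.hAl
  obtain ⟨hconn, hdist⟩ := U630.CC.graph_dist U630.CC.hAl false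
  have hsm : ∀ (h : U630.CC.HH U630.CC.hAl) (x : U630.CC.VV U630.CC.hAl),
      h • x = (h * x.1, x.2) := fun _ _ => rfl
  obtain ⟨n, Γ, R, hR, C, hC, f, hconv⟩ := hall (U630.CC.VV U630.CC.hAl)
    (U630.CC.GG U630.CC.hAl false) (U630.CC.HH U630.CC.hAl) hconn
    (by
      intro x y z
      simp only [hdist]
      exact U630.CC.met_median U630.CC.hAl false x y z)
    (U630.CC.locally_finite U630.CC.hAl false)
    (by
      intro h x y
      rw [hsm, hsm, U630.CC.GG_adj, U630.CC.GG_adj, U630.CC.met_inv])
    (by
      intro v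
      apply (Set.finite_singleton (1 : U630.CC.HH U630.CC.hAl)).subset
      intro h hh
      have h1 : h • v = v := hh
      rw [hsm] at h1
      have h2 : h * v.1 = v.1 := congrArg Prod.fst h1
      exact mul_eq_right.1 h2)
    (by
      apply Finite.of_surjective (fun i : Bool =>
        (Quotient.mk'' ((1 : U630.CC.HH U630.CC.hAl), i) :
          MulAction.orbitRel.Quotient (U630.CC.HH U630.CC.hAl) (U630.CC.VV U630.CC.hAl)))
      intro q
      induction q using Quotient.inductionOn' with
      | _ v =>
        obtain ⟨g, i⟩ := v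
        refine ⟨i, ?_⟩
        apply Quotient.eq''.2
        refine (MulAction.orbitRel_apply).2 ⟨g⁻¹, ?_⟩
        change g⁻¹ • ((g, i) : U630.CC.VV U630.CC.hAl) = (1, i)
        rw [hsm]
        simp)
  exact U630.CC.no_label (U630.CC.lblOf hR C hC f hconv)

end Pool.Agent.S02896
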