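import Pool.Statements.S03052
import Pool.Agent.U375.UEA.Units
import Pool.Agent.U375.UEA.Std4

set_option autoImplicit false
open Pool Pool.MP_cacfbf_al

namespace Pool.Agent.S03052

open Pool.Agent.U375.UEA
attribute [local instance 100] LieRing.ofAssociativeRing

/-- Jacobson's formula in characteristic 3. -/
lemma jac {A : Type*} [Ring A] (h3 : (3 : A) = 0) (a b : A) :
    (a + b) ^ 3 - a ^ 3 - b ^ 3 = ⁅a, ⁅a, b⁆⁆ + ⁅b, ⁅b, a⁆⁆ := by
  have h : ∀ x : A, (3 : ℤ) • x = 0 := by
    intro x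
    have : ((3 : ℤ) : A) = 0 := by exact_mod_cast h3
    rw [← Int.cast_smul_eq_zsmul A 3 x, this, zero_smul]
  simp only [LieRing.of_associative_ring_bracket]
  have : (a + b) ^ 3 - a ^ 3 - b ^ 3 = a * (a * b - b * a) - (a * b - b * a) * a +
      (b * (b * a - a * b) - (b * a - a * b) * b) + (3 : ℤ) • (a * b * a) + (3 : ℤ) • (b * a * b) := by
    noncomm_ring
  rw [this, h, h, add_zero, add_zero]

lemma three_M2 : (3 : M2) = 0 := by decide +kernel

lemma ad_cube (x y : M2) : (LieAlgebra.ad F3 M2 x ^ 3) y = ⁅x ^ 3, y⁆ := by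
  have h : ∀ z : M2, (3 : ℤ) • z = 0 := by
    intro z
    have : ((3 : ℤ) : M2) = 0 := by exact_mod_cast three_M2
    rw [← Int.cast_smul_eq_zsmul M2 3 z, this, zero_smul]
  rw [pow_succ, pow_two]
  simp only [Module.End.mul_apply, LieAlgebra.ad_apply, LieRing.of_associative_ring_bracket]
  have : x * (x * (x * y - y * x) - (x * y - y * x) * x) - (x * (x * y - y * x) - (x * y - y * x) * x) * x
      = x ^ 3 * y - y * x ^ 3 - (3 : ℤ) • (x * x * y * x) + (3 : ℤ) • (x * y * x * x) := by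
    noncomm_ring
  rw [this, h, h]
  simp

abbrev U := UniversalEnvelopingAlgebra F3 M2

lemma three_U : (3 : U) = 0 := by
  have : (3 : U) = algebraMap F3 U 3 := (map_ofNat (algebraMap F3 U) 3).symm
  rw [this, show (3 : F3) = 0 from rfl, map_zero]

lemma iota_jac (x y : M2) :
    UniversalEnvelopingAlgebra.ι F3 ((x + y) ^ 3) - UniversalEnvelopingAlgebra.ι F3 (x ^ 3)
        - UniversalEnvelopingAlgebra.ι F3 (y ^ 3)
      = ((UniversalEnvelopingAlgebra.ι F3 x : U) + UniversalEnvelopingAlgebra.ι F3 y) ^ 3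
        - UniversalEnvelopingAlgebra.ι F3 x ^ 3 - UniversalEnvelopingAlgebra.ι F3 y ^ 3 := by
  rw [jac three_U, ← map_sub, ← map_sub, jac three_M2, map_add, LieHom.map_lie, LieHom.map_lie,
    LieHom.map_lie, LieHom.map_lie]

/-- the defining relation of `u(L)` -/
abbrev rel : U → U → Prop := fun a b => ∃ x : M2, a = UniversalEnvelopingAlgebra.ι F3 x ^ 3 ∧
  b = UniversalEnvelopingAlgebra.ι F3 ((fun x : M2 => x ^ 3) x)

abbrev u := RingQuot rel

noncomputable def j (x : M2) : u := RingQuot.mkAlgHom F3 rel (UniversalEnvelopingAlgebra.ι F3 x)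

lemma j_cube (x : M2) : j x ^ 3 = j (x ^ 3) := by
  unfold j
  rw [← map_pow]
  exact RingQuot.mkAlgHom_rel F3 ⟨x, rfl, rfl⟩

lemma j_lie (x y : M2) : j x * j y = j y * j x + j ⁅x, y⁆ := by
  unfold j
  rw [LieHom.map_lie, LieRing.of_associative_ring_bracket, map_sub, map_mul, map_mul]
  noncomm_ring

lemma j_zero : j 0 = 0 := by unfold j; rw [map_zero, map_zero]
lemma j_neg (x : M2) : j (-x) = - j x := by unfold j; rw [map_neg, map_neg]

def ee : M2 := !![0,1;0,0]
def ff : M2 := !![0,0;1,0]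
def hh : M2 := !![1,0;0,-1]

lemma three_u : (3 : u) = 0 := by
  have : (3 : u) = algebraMap F3 u 3 := (map_ofNat (algebraMap F3 u) 3).symm
  rw [this, show (3 : F3) = 0 from rfl, map_zero]

lemma relU : Rel (j ee) (j ff) (j hh) where
  three := three_u
  he := by
    rw [j_lie, show ⁅hh, ee⁆ = -ee by rw [LieRing.of_associative_ring_bracket]; decide +kernel,
      j_neg, sub_eq_add_neg]
  hf := by
    rw [j_lie, show ⁅hh, ff⁆ = ff by rw [LieRing.of_associative_ring_bracket]; decide +kernel]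
  ef := by
    rw [j_lie, show ⁅ee, ff⁆ = hh by rw [LieRing.of_associative_ring_bracket]; decide +kernel]
  e3 := by rw [j_cube, show ee ^ 3 = 0 by decide +kernel, j_zero]
  f3 := by rw [j_cube, show ff ^ 3 = 0 by decide +kernel, j_zero]
  h3 := by rw [j_cube, show hh ^ 3 = hh by decide +kernel]

/-- the natural representation of `u(L)` -/
noncomputable def nat : u →ₐ[F3] M2 :=
  RingQuot.liftAlgHom F3 ⟨UniversalEnvelopingAlgebra.lift F3 (LieHom.id : M2 →ₗ⁅F3⁆ M2), by
    rintro a b ⟨x, rfl, rfl⟩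
    rw [map_pow, UniversalEnvelopingAlgebra.lift_ι_apply, UniversalEnvelopingAlgebra.lift_ι_apply]
    rfl⟩

lemma nat_j (x : M2) : nat (j x) = x := by
  unfold nat j
  rw [RingQuot.liftAlgHom_mkAlgHom_apply, UniversalEnvelopingAlgebra.lift_ι_apply]
  rfl

/-- the four matrix units -/
noncomputable def mu : Fin 2 → Fin 2 → u :=
  ![![m11 (j ee) (j ff) (j hh), m12 (j ee) (j ff) (j hh)],
    ![m21 (j ee) (j ff) (j hh), m22 (j ee) (j ff) (j hh)]]

lemma mu_mul (a b c d : Fin 2) : mu a b * mu c d = if b = c then mu a d else 0 := by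
  obtain ⟨r1, r2, r3, r4, r5, r6, r7, r8, r9, r10⟩ := units relU
  set x := m11 (j ee) (j ff) (j hh) with hx
  set y := m12 (j ee) (j ff) (j hh) with hy
  set z := m21 (j ee) (j ff) (j hh) with hz
  set w := m22 (j ee) (j ff) (j hh) with hw
  have z1 : x * z = 0 := by rw [← r6, ← mul_assoc, r3, zero_mul]
  have z2 : z * w = 0 := by rw [← r5, mul_assoc, r3, mul_zero]
  have z3 : z * z = 0 := by
    calc z * z = (z * x) * (w * z) := by rw [r5, r6]
      _ = z * (x * w) * z := by noncomm_ring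
      _ = 0 := by rw [r3, mul_zero, zero_mul]
  have z4 : y * x = 0 := by rw [← r7, mul_assoc, r4, mul_zero]
  have z5 : w * y = 0 := by rw [← r8, ← mul_assoc, r4, zero_mul]
  have z6 : y * y = 0 := by
    calc y * y = (y * w) * (x * y) := by rw [r7, r8]
      _ = y * (w * x) * y := by noncomm_ring
      _ = 0 := by rw [r4, mul_zero, zero_mul]
  have e00 : mu 0 0 = x := rfl
  have e01 : mu 0 1 = y := rfl
  have e10 : mu 1 0 = z := rfl
  have e11 : mu 1 1 = w := rfl
  fin_cases a <;> fin_cases b <;> fin_cases c <;> fin_cases d <;>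
    simp [e00, e01, e10, e11, r1, r2, r3, r4, r5, r6, r7, r8, r9, r10, z1, z2, z3, z4, z5, z6]

/-- the embedding of `M₂` into `u(L)` -/
noncomputable def Phi : M2 →ₙₐ[F3] u where
  toFun M := ∑ a, ∑ b, M a b • mu a b
  map_smul' c M := by
    simp only [Matrix.smul_apply, smul_eq_mul, mul_smul, Finset.smul_sum]
    rfl
  map_zero' := by simp
  map_add' M N := by
    simp only [Matrix.add_apply, add_smul, Finset.sum_add_distrib]
  map_mul' M N := by
    simp only [Fin.sum_univ_two, mul_add, add_mul, smul_mul_smul_comm, mu_mul, Matrix.mul_apply]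
    simp only [add_smul]
    simp
    abel

lemma nat_mu : nat (mu 0 0 - mu 1 1) = hh := by
  have h1 : nat (m11 (j ee) (j ff) (j hh)) = m11 ee ff hh := by
    simp [m11, eps1, eB, cas, nat_j]
  have h2 : nat (m22 (j ee) (j ff) (j hh)) = m22 ee ff hh := by
    simp [m22, eps2, eB, cas, nat_j]
  have e00 : mu 0 0 = m11 (j ee) (j ff) (j hh) := rfl
  have e11 : mu 1 1 = m22 (j ee) (j ff) (j hh) := rfl
  rw [e00, e11, map_sub, h1, h2]
  decide +kernel

lemma list_prod_Phi (a : M2) (l : List M2) : ((a :: l).map Phi).prod = Phi ((a :: l).prod) := by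
  induction l generalizing a with
  | nil => simp
  | cons b l ih =>
    rw [List.map_cons, List.prod_cons, ih b, ← map_mul, List.prod_cons (a := a)]

lemma ofFn_prod_Phi (n : ℕ) (M : Fin (n + 1) → M2) :
    (List.ofFn fun i => Phi (M i)).prod = Phi (List.ofFn M).prod := by
  have : (List.ofFn fun i => Phi (M i)) = (List.ofFn M).map Phi := by
    rw [List.map_ofFn]; rfl
  rw [this, List.ofFn_succ, list_prod_Phi]

lemma std_Phi (n : ℕ) (M : Fin (n + 1) → M2) :
    (∑ σ : Equiv.Perm (Fin (n + 1)),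
      ((Equiv.Perm.sign σ : ℤˣ) : ℤ) • (List.ofFn fun i => Phi (M (σ i))).prod) =
    Phi (∑ σ : Equiv.Perm (Fin (n + 1)),
      ((Equiv.Perm.sign σ : ℤˣ) : ℤ) • (List.ofFn fun i => M (σ i)).prod) := by
  rw [map_sum]
  refine Finset.sum_congr rfl fun σ _ => ?_
  rw [map_zsmul, ofFn_prod_Phi]

/-- The negation of the preceding statement: For every prime p, field F of char p, Lie p-algebra L and PI non-unital subalgebra R of u(L): if n is the least positive integer such that some power of the standard polynomial S_2n vanishes on R, then n is a power of p. -/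
theorem result :
    ¬ (∀ (p : ℕ), p.Prime → ∀ (F : Type) [Field F] [CharP F p] (L : Type) [LieRing L] [LieAlgebra F L]
    (f : L → L),
    (∀ (a : F) (x : L), f (a • x) = a ^ p • f x) →
    (∀ x y : L, (LieAlgebra.ad F L x ^ p) y = ⁅f x, y⁆) →
    (∀ x y : L,
      UniversalEnvelopingAlgebra.ι F (f (x + y)) - UniversalEnvelopingAlgebra.ι F (f x)
        - UniversalEnvelopingAlgebra.ι F (f y)
      = (UniversalEnvelopingAlgebra.ι F x + UniversalEnvelopingAlgebra.ι F y) ^ p
        - UniversalEnvelopingAlgebra.ι F x ^ p - UniversalEnvelopingAlgebra.ι F y ^ p) →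
    ∀ R : NonUnitalSubalgebra F (RingQuot (fun a b : UniversalEnvelopingAlgebra F L =>
        ∃ x : L, a = UniversalEnvelopingAlgebra.ι F x ^ p ∧ b = UniversalEnvelopingAlgebra.ι F (f x))),
    (∃ m : ℕ, ∃ φ : FreeAlgebra F (Fin m), φ ≠ 0 ∧
      ∀ r : Fin m → RingQuot (fun a b : UniversalEnvelopingAlgebra F L =>
        ∃ x : L, a = UniversalEnvelopingAlgebra.ι F x ^ p ∧ b = UniversalEnvelopingAlgebra.ι F (f x)),
        (∀ i, r i ∈ R) → FreeAlgebra.lift F r φ = 0) →
    ∀ n : ℕ, 1 ≤ n →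
      (∃ t : ℕ, 1 ≤ t ∧
        ∀ r : Fin (2 * n) → RingQuot (fun a b : UniversalEnvelopingAlgebra F L =>
          ∃ x : L, a = UniversalEnvelopingAlgebra.ι F x ^ p ∧ b = UniversalEnvelopingAlgebra.ι F (f x)),
          (∀ i, r i ∈ R) →
          (∑ σ : Equiv.Perm (Fin (2 * n)),
            ((Equiv.Perm.sign σ : ℤˣ) : ℤ) • (List.ofFn fun i => r (σ i)).prod) ^ t = 0) →
      (∀ m : ℕ, 1 ≤ m → m < n →
        ¬ ∃ t : ℕ, 1 ≤ t ∧
          ∀ r : Fin (2 * m) → RingQuot (fun a b : UniversalEnvelopingAlgebra F L =>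
            ∃ x : L, a = UniversalEnvelopingAlgebra.ι F x ^ p ∧ b = UniversalEnvelopingAlgebra.ι F (f x)),
            (∀ i, r i ∈ R) →
            (∑ σ : Equiv.Perm (Fin (2 * m)),
              ((Equiv.Perm.sign σ : ℤˣ) : ℤ) • (List.ofFn fun i => r (σ i)).prod) ^ t = 0) →
      ∃ k : ℕ, n = p ^ k) := by
  intro hmain
  have hmem : ∀ {m : ℕ} (r : Fin m → u), (∀ i, r i ∈ NonUnitalAlgHom.range Phi) →
      ∃ M : Fin m → M2, (fun i => Phi (M i)) = r := by
    intro m r hr
    have : ∀ i, ∃ M : M2, Phi M = r i := fun i => by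
      obtain ⟨M, hM⟩ := hr i
      exact ⟨M, hM⟩
    choose M hM using this
    exact ⟨M, funext hM⟩
  have key : ¬ ∃ k : ℕ, 2 = 3 ^ k := by
    rintro ⟨k, hk⟩
    rcases k with _ | k
    · norm_num at hk
    · rw [pow_succ] at hk
      omega
  refine key (hmain 3 Nat.prime_three F3 M2 (fun x => x ^ 3)
    (fun a x => smul_pow a x 3) (fun x y => ad_cube x y) (fun x y => iota_jac x y)
    (NonUnitalAlgHom.range Phi) ?_ 2 (by norm_num) ?_ ?_)
  · -- PI: `X ^ 26 = X ^ 2`
    refine ⟨1, FreeAlgebra.ι F3 0 ^ 26 - FreeAlgebra.ι F3 0 ^ 2, ?_, ?_⟩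
    · intro h0
      have h1 := congrArg (FreeAlgebra.lift F3 (fun _ : Fin 1 => (Polynomial.X : Polynomial F3))) h0
      rw [map_sub, map_pow, map_pow, FreeAlgebra.lift_ι_apply, map_zero, sub_eq_zero] at h1
      have h2 := congrArg Polynomial.natDegree h1
      rw [Polynomial.natDegree_X_pow, Polynomial.natDegree_X_pow] at h2
      norm_num at h2
    · intro r hr
      obtain ⟨M, rfl⟩ := hmem r hr
      rw [map_sub, map_pow, map_pow, FreeAlgebra.lift_ι_apply, sub_eq_zero]
      have hp : ∀ n : ℕ, (Phi (M 0)) ^ (n + 1) = Phi ((M 0) ^ (n + 1)) := by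
        intro n
        induction n with
        | zero => simp
        | succ n ih => rw [pow_succ, ih, ← map_mul, ← pow_succ]
      show (Phi (M 0)) ^ 26 = (Phi (M 0)) ^ 2
      rw [hp 25, hp 1, pow26]
  · refine ⟨1, le_rfl, fun r hr => ?_⟩
    obtain ⟨M, rfl⟩ := hmem r hr
    rw [pow_one]
    have h1 := std_Phi 3 M
    have h2 := AL M
    refine (Eq.trans h1 ?_)
    refine (congrArg Phi h2).trans (map_zero Phi)
  · intro m hm1 hm2 ⟨t, ht, hall⟩
    have hm : m = 1 := by omega
    subst hm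
    have e01 : mu 0 1 = Phi (Matrix.single 0 1 1) := by
      show _ = ∑ a, ∑ b, (Matrix.single 0 1 1 : M2) a b • mu a b
      simp [Fin.sum_univ_two, Matrix.single_apply]
    have e10 : mu 1 0 = Phi (Matrix.single 1 0 1) := by
      show _ = ∑ a, ∑ b, (Matrix.single 1 0 1 : M2) a b • mu a b
      simp [Fin.sum_univ_two, Matrix.single_apply]
    have h1 := hall (![mu 0 1, mu 1 0] : Fin 2 → u) (by
      intro i
      fin_cases i
      · exact ⟨_, e01.symm⟩
      · exact ⟨_, e10.symm⟩)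
    have hperm : (Finset.univ : Finset (Equiv.Perm (Fin 2))) = {1, Equiv.swap 0 1} := by decide
    have h2 : (∑ σ : Equiv.Perm (Fin (2 * 1)),
              ((Equiv.Perm.sign σ : ℤˣ) : ℤ) • (List.ofFn fun i => (![mu 0 1, mu 1 0] : Fin 2 → u) (σ i)).prod)
              = mu 0 0 - mu 1 1 := by
      show (∑ σ : Equiv.Perm (Fin 2),
              ((Equiv.Perm.sign σ : ℤˣ) : ℤ) • (List.ofFn fun i : Fin 2 => (![mu 0 1, mu 1 0] : Fin 2 → u) (σ i)).prod) = _
      rw [hperm, Finset.sum_insert (by decide), Finset.sum_singleton]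
      simp [List.ofFn_succ, mu_mul, sub_eq_add_neg]
    have h1' : (mu 0 0 - mu 1 1) ^ t = 0 := by
      rw [← h2]
      exact h1
    have h3 := congrArg nat h1'
    rw [map_pow, nat_mu, map_zero] at h3
    have h4 : ∀ n : ℕ, hh ^ n ≠ 0 := by
      intro n hn
      have h5 : (hh ^ n) ^ 2 = 1 := by
        rw [← pow_mul, mul_comm, pow_mul, show hh ^ 2 = 1 by decide +kernel, one_pow]
      rw [hn] at h5
      revert h5
      decide +kernel
    exact h4 t h3

end Pool.Agent.S03052
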