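import Pool.Statements.S03148
import Pool.Agent.U125.CD.Series

set_option autoImplicit false
open CategoryTheory CategoryTheory.MonoidalCategory CategoryTheory.Limits
open Pool Pool.MP_d25222_al

namespace Pool.Agent.S03148

/-- The negation of the preceding statement: Take a finite group G, a field k of prime characteristic, and a finite-dimensional kG-module M. Let c_n be the dimension of the non-projective part of the n-th tensor power of M. Then the series sum c_n t^n is a rational function: a nonzero polynomial times it is a polynomial. -/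
theorem result :
    ¬ (∀ (p : ℕ) (k : Type) [Field k] [CharP k p], p.Prime →
      ∀ (G : Type) [Group G] [Finite G] (M : Rep k G), FiniteDimensional k M.V →
        ∃ P Q : Polynomial ℚ, Q ≠ 0 ∧
          (Q : PowerSeries ℚ) *
              PowerSeries.mk (fun n : ℕ =>
                ((sInf {d : ℕ | ∃ N P' : Rep k G, Projective P' ∧
                    Nonempty ((fun X : Rep k G => X ⊗ M)^[n] (𝟙_ (Rep k G)) ≅ N ⊞ P') ∧
                    Module.finrank k N.V = d} : ℕ) : ℚ)) =
            (P : PowerSeries ℚ)) := by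
  intro h
  obtain ⟨P, Q, hQ, hPQ⟩ := h 2 Pool.Agent.U125.CD.K Nat.prime_two Pool.Agent.U125.CD.G4
    Pool.Agent.U125.CD.M6 Pool.Agent.U125.CD.fd_M6
  refine Pool.Agent.U125.CD.irrational _ ?_ P Q hQ hPQ
  have hc : ∀ n : ℕ, ((sInf {d : ℕ | ∃ N P' : Rep Pool.Agent.U125.CD.K Pool.Agent.U125.CD.G4,
      Projective P' ∧ Nonempty ((fun X : Rep Pool.Agent.U125.CD.K Pool.Agent.U125.CD.G4 =>
        X ⊗ Pool.Agent.U125.CD.M6)^[n]
          (𝟙_ (Rep Pool.Agent.U125.CD.K Pool.Agent.U125.CD.G4)) ≅ N ⊞ P') ∧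
        Module.finrank Pool.Agent.U125.CD.K N.V = d} : ℕ) : ℚ) =
      (Pool.Agent.U125.CD.al n 0 : ℚ) := by
    intro n
    have h1 := Pool.Agent.U125.CD.sInf_eq Pool.Agent.U125.CD.fv4
      (Pool.Agent.U125.CD.it Pool.Agent.U125.CD.M6 n (𝟙_ _))
      (Pool.Agent.U125.CD.fd_it _ Pool.Agent.U125.CD.fd_M6 n _ Pool.Agent.U125.CD.fd_one)
    have h2 : Pool.Agent.U125.CD.al n 0 = (Pool.Agent.U125.CD.dm
        (Pool.Agent.U125.CD.it Pool.Agent.U125.CD.M6 n (𝟙_ _)) : ℤ) -
        Fintype.card Pool.Agent.U125.CD.G4 * Pool.Agent.U125.CD.nr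
        (Pool.Agent.U125.CD.it Pool.Agent.U125.CD.M6 n (𝟙_ _)) := rfl
    rw [h2, ← h1]
    push_cast
    ring
  simp_rw [hc]
  ext n
  rw [sub_mul, one_mul, map_sub, map_add]
  have e1 : (2 * (PowerSeries.X : PowerSeries ℚ)) *
      (PowerSeries.mk fun n => (Pool.Agent.U125.CD.al n 0 : ℚ)) =
      PowerSeries.C (2 : ℚ) * ((PowerSeries.mk fun n => (Pool.Agent.U125.CD.al n 0 : ℚ)) *
        PowerSeries.X) := by
    rw [map_ofNat]; ring
  have e2 : (4 * (PowerSeries.X : PowerSeries ℚ)) * Pool.Agent.U125.CD.HH =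
      PowerSeries.C (4 : ℚ) * (Pool.Agent.U125.CD.HH * PowerSeries.X) := by
    rw [map_ofNat]; ring
  rw [e1, e2, PowerSeries.coeff_C_mul, PowerSeries.coeff_C_mul]
  rcases n with _ | n
  · simp [Pool.Agent.U125.CD.al_base]
  · rw [PowerSeries.coeff_succ_mul_X, PowerSeries.coeff_succ_mul_X, PowerSeries.coeff_mk,
      PowerSeries.coeff_mk, Pool.Agent.U125.CD.al_rec]
    simp [Pool.Agent.U125.CD.HH, PowerSeries.coeff_one]

end Pool.Agent.S03148
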