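import Pool.Statements.S03469
import Pool.Agent.Helper58.EN.JZ

set_option autoImplicit false
open Pool Pool.MP_ecbc69_al

namespace Pool.Agent.S03469

open Pool.Agent.Helper58.EN in
/-- the matrix of a transvection in the notation of the statement -/
theorem tv_of {R : Type} [Ring R] {n : ℕ} (i j : Fin n) (hij : i ≠ j) (r : R) :
    ((tv i j hij r : (Matrix (Fin n) (Fin n) R)ˣ) : Matrix (Fin n) (Fin n) R) =
      1 + Matrix.of (fun a b => if a = i ∧ b = j then r else 0) := by
  rw [tv_val]
  congr 1
  ext a b
  rw [Matrix.of_apply, Matrix.single_apply]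
  by_cases h : a = i ∧ b = j
  · rw [if_pos h, if_pos ⟨h.1.symm, h.2.symm⟩]
  · rw [if_neg h, if_neg (fun h' => h ⟨h'.1.symm, h'.2.symm⟩)]

open Pool.Agent.Helper58.EN in
/-- the group of the statement is the elementary group of the library -/
theorem closure_eq (R : Type) [Ring R] (n : ℕ) :
    Subgroup.closure
          {g : Matrix.GeneralLinearGroup (Fin n) R |
            ∃ i j : Fin n, i ≠ j ∧ ∃ r : R,
              (g : Matrix (Fin n) (Fin n) R) =
                1 + Matrix.of (fun a b => if a = i ∧ b = j then r else 0)} = El (Fin n) R := by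
  unfold El EL
  congr 1
  ext g
  constructor
  · rintro ⟨i, j, hij, r, hg⟩
    refine ⟨i, j, hij, r, Set.mem_univ _, ?_⟩
    apply Units.ext
    rw [tv_of]
    exact hg
  · rintro ⟨i, j, hij, r, _, rfl⟩
    exact ⟨i, j, hij, r, tv_of i j hij r⟩

/-- For every unital ring satisfying a multilinear polynomial identity with a coefficient 1, and every n ≥ 3, the subgroup of GL_n(R) generated by elementary transvections I + rE_ij (i ≠ j) is normal in GL_n(R). -/
theorem result :
    ∀ (R : Type) [Ring R],
      (∃ d : ℕ, 0 < d ∧ ∃ c : Equiv.Perm (Fin d) → ℤ, c 1 = 1 ∧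
        ∀ x : Fin d → R,
          ∑ σ : Equiv.Perm (Fin d), ((c σ : ℤ) : R) * (List.ofFn (fun i => x (σ i))).prod = 0) →
      ∀ n : ℕ, 3 ≤ n →
        (Subgroup.closure
          {g : Matrix.GeneralLinearGroup (Fin n) R |
            ∃ i j : Fin n, i ≠ j ∧ ∃ r : R,
              (g : Matrix (Fin n) (Fin n) R) =
                1 + Matrix.of (fun a b => if a = i ∧ b = j then r else 0)}).Normal := by
  rintro R _ ⟨d, _, c, hc, hPI⟩ n hn
  refine ⟨fun e he g => ?_⟩
  rw [closure_eq] at he ⊢
  exact Pool.Agent.Helper58.EN.main (by simpa using hn) d c hc R hPI g e he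

end Pool.Agent.S03469
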