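import Pool.Statements.S03595
import Pool.Agent.U682.TIG.Back
-- import your own Pool.Agent.* helpers here

set_option autoImplicit false
open Pool Pool.MP_f8d790_al

namespace Pool.Agent.S03595

/-- An infinite compact Hausdorff group G has every choice of conjugates of its elements topologically generating G if and only if G has a closed, connected, abelian normal subgroup with totally disconnected (profinite) quotient. -/
theorem result :
    ∀ (G : Type) [Group G] [TopologicalSpace G] [IsTopologicalGroup G] [CompactSpace G]
      [T2Space G] [Infinite G],
      (∀ f : G → G,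
          (Subgroup.closure (Set.range (fun x : G => f x * x * (f x)⁻¹))).topologicalClosure = ⊤) ↔
        ∃ N : Subgroup G, N.Normal ∧ IsClosed (N : Set G) ∧ IsConnected (N : Set G) ∧
          (∀ a ∈ N, ∀ b ∈ N, a * b = b * a) ∧ TotallyDisconnectedSpace (G ⧸ N) := by
  intro G _ _ _ _ _ _
  constructor
  · intro h
    have htig : Pool.Agent.U682.TIG.TIG G := by
      intro H hH hdom
      choose f hf using hdom
      have h1 : Subgroup.closure (Set.range (fun x : G => f x * x * (f x)⁻¹)) ≤ H := by
        rw [Subgroup.closure_le]
        rintro _ ⟨x, rfl⟩
        exact hf x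
      have h2 := Subgroup.topologicalClosure_minimal _ h1 hH
      rw [h f] at h2
      exact top_le_iff.1 h2
    obtain ⟨N, hN, hn, htd⟩ := Pool.Agent.U682.TIG.totDisc G
    refine ⟨N, hn, ?_, ?_, ?_, htd⟩
    · rw [hN]; exact isClosed_connectedComponent
    · rw [hN]; exact isConnected_connectedComponent
    · intro a ha b hb
      have ha' : a ∈ connectedComponent (1 : G) := by rw [← hN]; exact ha
      have hb' : b ∈ connectedComponent (1 : G) := by rw [← hN]; exact hb
      exact Pool.Agent.U682.TIG.identity_comm htig ha' hb'
  · rintro ⟨N, hn, _, _, hab, htd⟩ f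
    apply Pool.Agent.U682.TIG.tig_of_ext N hn hab htd
    · exact Subgroup.isClosed_topologicalClosure _
    · intro x
      refine ⟨f x, ?_⟩
      apply Subgroup.le_topologicalClosure
      exact Subgroup.subset_closure ⟨x, rfl⟩

end Pool.Agent.S03595
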