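import Pool.Statements.S04009
import Pool.Agent.H535R3.JX

set_option autoImplicit false
open Filter Topology
open Pool Pool.MP_1f2107_an

namespace Pool.Agent.S04009

/-- For every ω>0, integer r≥1 and real A, no solution of φ' = −sin φ + ω(r−2) + A cos(ωt) has rotation number φ(t)/(ωt) → r; i.e. the phase-lock area L_r misses the line B = ω(r−2). -/
theorem result :
    ∀ ω : ℝ, 0 < ω → ∀ r : ℕ, 1 ≤ r → ∀ A : ℝ, ∀ φ : ℝ → ℝ,
      (∀ t : ℝ, HasDerivAt φ
        (-Real.sin (φ t) + ω * ((r : ℝ) - 2) + A * Real.cos (ω * t)) t) →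
      ¬ Tendsto (fun t : ℝ => φ t / (ω * t)) atTop (𝓝 (r : ℝ)) := by
  intro ω hω r hr A φ hφ hlim
  have h := H535R3.right_main ω hω r hr (ω * ((r : ℝ) - 2)) A φ hφ hlim
  nlinarith

end Pool.Agent.S04009
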