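import Pool.Statements.S04135
import Pool.Agent.Helper704.RB.E

set_option autoImplicit false
open MeasureTheory
open Pool Pool.MP_28e115_an

namespace Pool.Agent.S04135

/-- a continuously differentiable function: the integral of the speed is at most the variation -/
theorem lint_le (g g' : ℝ → ℂ) (a b : ℝ) (hab : a < b)
    (hg : ∀ x ∈ Set.Icc a b, HasDerivAt g (g' x) x) (hc : ContinuousOn g' (Set.Icc a b)) :
    ∫⁻ x in Set.Ioc a b, ‖g' x‖ₑ ≤ eVariationOn g (Set.Icc a b) := by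
  refine ENNReal.le_of_forall_pos_le_add fun ε hε _ => ?_
  have hL : 0 < b - a := by linarith
  obtain ⟨e, he⟩ : ∃ e : ℝ, e = (ε : ℝ) / (2 * (b - a)) := ⟨_, rfl⟩
  have he0 : 0 < e := by rw [he]; positivity
  have huc := isCompact_Icc.uniformContinuousOn_of_continuous hc
  rw [Metric.uniformContinuousOn_iff] at huc
  obtain ⟨δ, hδ, hδ'⟩ := huc e he0
  obtain ⟨N, hN⟩ := exists_nat_gt ((b - a) / δ)
  have hN0 : (0 : ℝ) < N := lt_of_le_of_lt (by positivity) hN
  obtain ⟨h, hh⟩ : ∃ h : ℝ, h = (b - a) / N := ⟨_, rfl⟩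
  have hh0 : 0 < h := by rw [hh]; positivity
  have hhδ : h < δ := by
    rw [hh, div_lt_iff₀ hN0]
    rw [div_lt_iff₀ hδ] at hN
    linarith
  have hNh : (N : ℝ) * h = b - a := by rw [hh]; field_simp
  let x : ℕ → ℝ := fun i => a + i * h
  have hx0 : x 0 = a := by simp [x]
  have hxN : x N = b := by simp only [x]; rw [hNh]; ring
  have hxs : ∀ i, x (i + 1) = x i + h := fun i => by simp only [x]; push_cast; ring
  have hxm : Monotone x := by
    refine monotone_nat_of_le_succ fun i => ?_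
    rw [hxs]; linarith
  have hxI : ∀ i ≤ N, x i ∈ Set.Icc a b := fun i hi =>
    ⟨by rw [← hx0]; exact hxm (Nat.zero_le i), by rw [← hxN]; exact hxm hi⟩
  -- one step
  have hstep : ∀ i < N, ∫⁻ t in Set.Ioc (x i) (x (i + 1)), ‖g' t‖ₑ ≤
      edist (g (x (i + 1))) (g (x i)) + ENNReal.ofReal (2 * e * h) := by
    intro i hi
    have hI1 := hxI i hi.le
    have hI2 := hxI (i + 1) hi
    have hsub : Set.Icc (x i) (x (i + 1)) ⊆ Set.Icc a b := Set.Icc_subset_Icc hI1.1 hI2.2
    have hnear : ∀ t ∈ Set.Icc (x i) (x (i + 1)), ‖g' t - g' (x i)‖ ≤ e := by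
      intro t ht
      rw [← dist_eq_norm]
      refine (hδ' t (hsub ht) (x i) hI1 ?_).le
      rw [Real.dist_eq, abs_of_nonneg (by linarith [ht.1])]
      have := ht.2
      rw [hxs] at this
      linarith
    have h1 : ‖(fun t : ℝ => g t - t • g' (x i)) (x (i + 1)) - (fun t : ℝ => g t - t • g' (x i)) (x i)‖
        ≤ e * ‖x (i + 1) - x i‖ := by
      refine Convex.norm_image_sub_le_of_norm_hasDerivWithin_le
        (f := fun t : ℝ => g t - t • g' (x i)) (f' := fun t => g' t - g' (x i))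
        (s := Set.Icc (x i) (x (i + 1))) (fun t ht => ?_) (fun t ht => hnear t ht)
        (convex_Icc _ _) (Set.left_mem_Icc.2 (hxm (Nat.le_succ i)))
        (Set.right_mem_Icc.2 (hxm (Nat.le_succ i)))
      have h2 : HasDerivAt (fun t : ℝ => t • g' (x i)) ((1 : ℝ) • g' (x i)) t :=
        (hasDerivAt_id t).smul_const (g' (x i))
      rw [one_smul] at h2
      exact ((hg t (hsub ht)).sub h2).hasDerivWithinAt
    have h3 : ‖x (i + 1) - x i‖ = h := by
      rw [hxs, add_sub_cancel_left, Real.norm_of_nonneg hh0.le]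
    rw [h3] at h1
    have h4 : h * ‖g' (x i)‖ ≤ ‖g (x (i + 1)) - g (x i)‖ + e * h := by
      have h5 : (g (x (i + 1)) - g (x i)) -
          ((fun t : ℝ => g t - t • g' (x i)) (x (i + 1)) - (fun t : ℝ => g t - t • g' (x i)) (x i))
          = h • g' (x i) := by
        simp only
        rw [hxs, add_smul]
        abel
      have h6 : ‖h • g' (x i)‖ = h * ‖g' (x i)‖ := by rw [norm_smul, Real.norm_of_nonneg hh0.le]
      rw [← h6, ← h5]
      exact (norm_sub_le _ _).trans (by linarith)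
    have h7 : ∫⁻ t in Set.Ioc (x i) (x (i + 1)), ‖g' t‖ₑ ≤
        ∫⁻ t in Set.Ioc (x i) (x (i + 1)), ENNReal.ofReal (‖g' (x i)‖ + e) := by
      refine MeasureTheory.setLIntegral_mono measurable_const fun t ht => ?_
      rw [← ofReal_norm]
      refine ENNReal.ofReal_le_ofReal ?_
      have h8 := hnear t ⟨ht.1.le, ht.2⟩
      have h9 := norm_sub_norm_le (g' t) (g' (x i))
      linarith
    refine h7.trans ?_
    rw [MeasureTheory.setLIntegral_const, Real.volume_Ioc, hxs, add_sub_cancel_left,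
      ← ENNReal.ofReal_mul (by positivity), ← hxs, edist_dist, dist_eq_norm,
      ← ENNReal.ofReal_add (norm_nonneg _) (by positivity)]
    refine ENNReal.ofReal_le_ofReal ?_
    nlinarith
  have hind : ∀ k ≤ N, ∫⁻ t in Set.Ioc a (x k), ‖g' t‖ₑ ≤
      (∑ i ∈ Finset.range k, edist (g (x (i + 1))) (g (x i))) + k * ENNReal.ofReal (2 * e * h) := by
    intro k hk
    induction k with
    | zero => rw [hx0]; simp
    | succ k ih =>
      have h1 := ih (by omega)
      have h2 := hstep k (by omega)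
      rw [← Set.Ioc_union_Ioc_eq_Ioc (hxI k (by omega)).1 (hxm (Nat.le_succ k)),
        Finset.sum_range_succ]
      refine (MeasureTheory.lintegral_union_le _ _ _).trans ((add_le_add h1 h2).trans (le_of_eq ?_))
      push_cast
      ring
  have hfin := hind N le_rfl
  rw [hxN] at hfin
  refine hfin.trans (add_le_add ?_ ?_)
  · exact eVariationOn.sum_le_of_monotoneOn_Iic (hxm.monotoneOn _) (fun i hi => hxI i hi)
  · rw [← ENNReal.ofReal_natCast, ← ENNReal.ofReal_mul hN0.le]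
    have : (N : ℝ) * (2 * e * h) = ε := by
      have h1 : (N : ℝ) * (2 * e * h) = 2 * e * (N * h) := by ring
      rw [h1, hNh, he]
      field_simp
    rw [this, ENNReal.ofReal_coe_nnreal]

/-- For every n ≥ 2 there is a bounded holomorphic function on the unit ball of ℂⁿ whose restriction to almost every radius r ↦ f(rζ), 0 ≤ r < 1, has infinite total variation, i.e. a nonrectifiable image. -/
theorem result :
    ∀ n : ℕ, 2 ≤ n →
      ∃ f : (Fin n → ℂ) → ℂ,
        DifferentiableOn ℂ f {z : Fin n → ℂ | ∑ i, ‖z i‖ ^ 2 < 1} ∧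
        (∃ M : ℝ, ∀ z ∈ {z : Fin n → ℂ | ∑ i, ‖z i‖ ^ 2 < 1}, ‖f z‖ ≤ M) ∧
        ∀ᵐ x ∂(volume : Measure (Fin n → ℂ)),
          eVariationOn
            (fun r : ℝ => f ((((r / Real.sqrt (∑ i, ‖x i‖ ^ 2) : ℝ)) : ℂ) • x))
            (Set.Ico (0 : ℝ) 1) = ⊤ := by
  intro n hn
  classical
  -- the equivalence with Euclidean space
  let J : (Fin n → ℂ) ≃L[ℂ] EuclideanSpace ℂ (Fin n) := (EuclideanSpace.equiv (Fin n) ℂ).symm
  have hJ : ∀ x : Fin n → ℂ, ‖J x‖ = Real.sqrt (∑ i, ‖x i‖ ^ 2) := fun x => EuclideanSpace.norm_eq _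
  have hJlt : ∀ x : Fin n → ℂ, ∑ i, ‖x i‖ ^ 2 < 1 → J x ∈ Metric.ball (0 : EuclideanSpace ℂ (Fin n)) 1 := by
    intro x hx
    rw [mem_ball_zero_iff, hJ, Real.sqrt_lt' one_pos, one_pow]
    exact hx
  -- the radial projection
  let e0 : EuclideanSpace ℂ (Fin n) := EuclideanSpace.single ⟨0, by omega⟩ 1
  have he0 : ‖e0‖ = 1 := by simp [e0]
  let y : (Fin n → ℂ) → EuclideanSpace ℂ (Fin n) := fun x =>
    if x = 0 then e0 else ((‖J x‖⁻¹ : ℝ) : ℂ) • J x
  have hy : ∀ x, y x ∈ Metric.sphere (0 : EuclideanSpace ℂ (Fin n)) 1 := by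
    intro x
    rw [mem_sphere_zero_iff_norm]
    by_cases hx : x = 0
    · simp only [y, if_pos hx]; exact he0
    · simp only [y, if_neg hx]
      have h0 : ‖J x‖ ≠ 0 := by
        rw [norm_ne_zero_iff]
        intro h
        exact hx (J.injective (by rw [h, map_zero]))
      rw [norm_smul, Complex.norm_real, norm_inv, norm_norm, inv_mul_cancel₀ h0]
  have hym : Measurable y := by
    refine Measurable.ite (measurableSet_singleton 0) measurable_const ?_
    have h1 : Measurable fun x => J x := J.continuous.measurable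
    exact ((Complex.measurable_ofReal.comp h1.norm.inv)).smul h1
  let N : (Fin n → ℂ) → Metric.sphere (0 : EuclideanSpace ℂ (Fin n)) 1 := fun x => ⟨y x, hy x⟩
  have hNm : Measurable N := hym.subtype_mk
  obtain ⟨f, hfd, hfb, hfa⟩ := Pool.Agent.Helper704.RadBall.main (show 1 < n by omega)
    (Measure.map N (volume : Measure (Fin n → ℂ)).toFinite)
  have hae : ∀ᵐ x ∂(volume : Measure (Fin n → ℂ)), ∫⁻ r in Set.Ioo (0 : ℝ) 1,
        ‖deriv (fun t : ℝ => f ((t : ℂ) • ((N x : Metric.sphere (0 : EuclideanSpace ℂ (Fin n)) 1) :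
          EuclideanSpace ℂ (Fin n)))) r‖ₑ = ⊤ := by
    have h1 := ae_of_ae_map hNm.aemeasurable hfa
    exact (absolutelyContinuous_toFinite (volume : Measure (Fin n → ℂ))).ae_le h1
  refine ⟨fun z => f (J z), ?_, ⟨1, fun z hz => hfb _ (hJlt z hz)⟩, ?_⟩
  · exact hfd.comp J.differentiable.differentiableOn (fun z hz => hJlt z hz)
  have hne : ∀ᵐ x ∂(volume : Measure (Fin n → ℂ)), x ≠ 0 := by
    have : Nonempty (Fin n) := ⟨⟨0, by omega⟩⟩
    have h1 : (volume : Measure (Fin n → ℂ)) {0} = 0 := measure_singleton 0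
    exact compl_mem_ae_iff.2 h1
  filter_upwards [hae, hne] with x hx hx0
  -- the holomorphic function on the complex disc through the point
  obtain ⟨ζ, hζ⟩ : ∃ ζ : EuclideanSpace ℂ (Fin n), ζ = y x := ⟨_, rfl⟩
  have hζ1 : ‖ζ‖ = 1 := by rw [hζ]; exact mem_sphere_zero_iff_norm.1 (hy x)
  have hx' : ∫⁻ r in Set.Ioo (0 : ℝ) 1, ‖deriv (fun t : ℝ => f ((t : ℂ) • ζ)) r‖ₑ = ⊤ := by
    rw [hζ]; exact hx
  let φ : ℂ → ℂ := fun w => f (w • ζ)
  have hφ : DifferentiableOn ℂ φ (Metric.ball 0 1) := by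
    refine hfd.comp ((differentiable_id.smul_const ζ).differentiableOn) ?_
    intro w hw
    rw [mem_ball_zero_iff] at hw ⊢
    show ‖w • ζ‖ < 1
    rw [norm_smul, hζ1, mul_one]
    exact hw
  have hφ' : ContinuousOn (deriv φ) (Metric.ball 0 1) :=
    (hφ.deriv Metric.isOpen_ball).continuousOn
  have hmem : ∀ t : ℝ, 0 ≤ t → t < 1 → (t : ℂ) ∈ Metric.ball (0 : ℂ) 1 := by
    intro t h0 h1
    rw [mem_ball_zero_iff, Complex.norm_real, Real.norm_of_nonneg h0]
    exact h1
  have hder : ∀ t : ℝ, 0 ≤ t → t < 1 → HasDerivAt (fun s : ℝ => f ((s : ℂ) • ζ)) (deriv φ t) t := by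
    intro t h0 h1
    have h2 : HasDerivAt φ (deriv φ t) (t : ℂ) :=
      (hφ.differentiableAt (Metric.isOpen_ball.mem_nhds (hmem t h0 h1))).hasDerivAt
    exact h2.comp_ofReal
  have hcurve : ∀ r : ℝ, J ((((r / Real.sqrt (∑ i, ‖x i‖ ^ 2) : ℝ)) : ℂ) • x) = (r : ℂ) • ζ := by
    intro r
    rw [map_smul, ← hJ, hζ]
    simp only [y, if_neg hx0]
    rw [smul_smul]
    congr 1
    push_cast
    rw [div_eq_mul_inv]
  have hgoal : (fun r : ℝ => f (J ((((r / Real.sqrt (∑ i, ‖x i‖ ^ 2) : ℝ)) : ℂ) • x))) =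
      fun r : ℝ => f ((r : ℂ) • ζ) := by
    funext r
    rw [hcurve]
  show eVariationOn (fun r : ℝ => f (J ((((r / Real.sqrt (∑ i, ‖x i‖ ^ 2) : ℝ)) : ℂ) • x)))
    (Set.Ico (0 : ℝ) 1) = ⊤
  rw [hgoal]
  rw [eq_top_iff, ← hx']
  -- exhaustion
  have hU : Set.Ioo (0 : ℝ) 1 = ⋃ k : ℕ, Set.Ioc (0 : ℝ) (1 - 1 / ((k : ℝ) + 2)) := by
    ext t
    simp only [Set.mem_Ioo, Set.mem_iUnion, Set.mem_Ioc]
    constructor
    · rintro ⟨h0, h1⟩
      obtain ⟨k, hk⟩ := exists_nat_gt (1 / (1 - t))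
      refine ⟨k, h0, ?_⟩
      have h2 : 0 < 1 - t := by linarith
      rw [div_lt_iff₀ h2] at hk
      have h3 : 1 / ((k : ℝ) + 2) ≤ 1 - t := by
        rw [div_le_iff₀ (by positivity)]
        nlinarith
      linarith
    · rintro ⟨k, h0, h1⟩
      have : 0 < 1 / ((k : ℝ) + 2) := by positivity
      exact ⟨h0, by linarith⟩
  rw [hU, setLIntegral_iUnion_of_directed]
  · refine iSup_le fun k => ?_
    have hk0 : 0 < 1 - 1 / ((k : ℝ) + 2) := by
      have : 1 / ((k : ℝ) + 2) < 1 := by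
        rw [div_lt_one (by positivity)]
        have : (0 : ℝ) ≤ k := Nat.cast_nonneg k
        linarith
      linarith
    have hk1 : 1 - 1 / ((k : ℝ) + 2) < 1 := by
      have : 0 < 1 / ((k : ℝ) + 2) := by positivity
      linarith
    have h1 : ∫⁻ r in Set.Ioc (0 : ℝ) (1 - 1 / ((k : ℝ) + 2)), ‖deriv (fun t : ℝ => f ((t : ℂ) • ζ)) r‖ₑ
        = ∫⁻ r in Set.Ioc (0 : ℝ) (1 - 1 / ((k : ℝ) + 2)), ‖deriv φ r‖ₑ := by
      refine setLIntegral_congr_fun measurableSet_Ioc fun t ht => ?_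
      show ‖deriv (fun t : ℝ => f ((t : ℂ) • ζ)) t‖ₑ = _
      rw [(hder t ht.1.le (lt_of_le_of_lt ht.2 hk1)).deriv]
    rw [h1]
    refine (lint_le (fun s : ℝ => f ((s : ℂ) • ζ)) (fun t : ℝ => deriv φ t) 0 _ hk0 ?_ ?_).trans ?_
    · intro t ht
      exact hder t ht.1 (lt_of_le_of_lt ht.2 hk1)
    · refine hφ'.comp Complex.continuous_ofReal.continuousOn ?_
      intro t ht
      exact hmem t ht.1 (lt_of_le_of_lt ht.2 hk1)
    · exact eVariationOn.mono _ (fun t ht => ⟨ht.1, lt_of_le_of_lt ht.2 hk1⟩)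
  · intro i j
    refine ⟨max i j, ?_, ?_⟩
    · refine Set.Ioc_subset_Ioc_right (sub_le_sub_left ?_ _)
      refine one_div_le_one_div_of_le (by positivity) ?_
      have : (i : ℝ) ≤ (max i j : ℕ) := by exact_mod_cast le_max_left i j
      linarith
    · refine Set.Ioc_subset_Ioc_right (sub_le_sub_left ?_ _)
      refine one_div_le_one_div_of_le (by positivity) ?_
      have : (j : ℝ) ≤ (max i j : ℕ) := by exact_mod_cast le_max_right i j
      linarith

end Pool.Agent.S04135
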