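import Pool.Statements.S04241
import Pool.Agent.U529.UI.Main

set_option autoImplicit false
open Pool Pool.MP_2fa38d_an

namespace Pool.Agent.S04241

/-- For every sequence of distinct points a_n tending to infinity with multiplicities p_n, contained in the zero set of a nonzero F in the class and universal interpolating, some nonzero f in the class vanishes on it with ∣f^(p_n)(a_n)∣/p_n! ≥ ε exp(-c ρ(a_n)). -/
theorem result :
  ∀ (ρ : ℂ → ℝ), ρ = (fun z : ℂ => |z.im| + Real.log (1 + ‖z‖ ^ 2)) →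
  ∀ (E : (ℂ → ℂ) → Prop),
    E = (fun f : ℂ → ℂ => Differentiable ℂ f ∧
      ∃ A > (0:ℝ), ∃ B > (0:ℝ), ∀ z : ℂ, ‖f z‖ ≤ A * Real.exp (B * ρ z)) →
  ∀ (a : ℕ → ℂ) (p : ℕ → ℕ),
    Function.Injective a →
    Filter.Tendsto (fun n => ‖a n‖) Filter.atTop Filter.atTop →
    (∀ n, 1 ≤ p n) →
    (∃ F : ℂ → ℂ, E F ∧ (∃ z, F z ≠ 0) ∧
      ∀ n, ∀ k < p n, iteratedDeriv k F (a n) = 0) →
    (∀ lam : ℕ → ℕ → ℂ,
      (∃ A > (0:ℝ), ∃ B > (0:ℝ), ∀ n, ∀ κ < p n,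
        ‖lam n κ‖ ≤ A * Real.exp (B * ρ (a n))) →
      ∃ g : ℂ → ℂ, E g ∧ ∀ n, ∀ κ < p n,
        iteratedDeriv κ g (a n) / (κ.factorial : ℂ) = lam n κ) →
    ∃ f : ℂ → ℂ, E f ∧ (∃ z, f z ≠ 0) ∧
      (∀ n, ∀ k < p n, iteratedDeriv k f (a n) = 0) ∧
      ∃ ε > (0:ℝ), ∃ c > (0:ℝ), ∀ n,
        ε * Real.exp (-(c * ρ (a n))) ≤
          ‖iteratedDeriv (p n) f (a n)‖ / ((p n).factorial : ℝ) := by
  intro ρ hρ E hE a p _ _ hp _ hu
  subst hρ hE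
  exact Pool.Agent.U529.UI.main hp hu

end Pool.Agent.S04241
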