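import Pool.Statements.S04503
import Pool.Agent.H352R4.CA.End

/-!
# MP_437602_an, frozen statement S04503: deleting null sets for continuous analytic capacity

The main step, `alpha_remove` of the starting library file `Pool.Agent.H352R4.CA.End`, proves the
statement for the library's definition of continuous analytic capacity of compact sets.  Here the
capacity of the frozen statement (an extended-real supremum over compact subsets, for arbitrary
sets) is identified with it on compact sets and the inner capacity of `E \ K` is treated.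
-/

set_option autoImplicit false
open Filter Topology
open scoped ENNReal NNReal
open Pool Pool.MP_437602_an

namespace Pool.Agent.S04503

/-- the defining property of the frozen statement -/
def IsAlpha (α : Set ℂ → ℝ≥0∞) : Prop :=
  ∀ S : Set ℂ, α S =
        ⨆ (F : Set ℂ) (_ : IsCompact F) (_ : F ⊆ S) (f : ℂ → ℂ) (c : ℂ)
          (_ : Continuous f ∧ DifferentiableOn ℂ f Fᶜ ∧ (∀ z, ‖f z‖ ≤ 1) ∧
                Tendsto f (cocompact ℂ) (𝓝 0) ∧
                Tendsto (fun z => z * f z) (cocompact ℂ) (𝓝 c)),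
          ((‖c‖₊ : ℝ≥0) : ℝ≥0∞)

theorem nn_eq (c : ℂ) : ((‖c‖₊ : ℝ≥0) : ℝ≥0∞) = ENNReal.ofReal ‖c‖ :=
  (ofReal_norm c).symm

theorem IsAlpha.mono {α : Set ℂ → ℝ≥0∞} (hα : IsAlpha α) {S T : Set ℂ} (h : S ⊆ T) :
    α S ≤ α T := by
  rw [hα S, hα T]
  refine iSup_le fun F => iSup_le fun hF => iSup_le fun hFS => ?_
  exact le_iSup_of_le F (le_iSup_of_le hF (le_iSup_of_le (hFS.trans h) le_rfl))

open Pool.Agent.H352R4.CA in
/-- the value `α S` of the frozen statement, for a compact set `S`, is `alpha S` of the library -/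
theorem IsAlpha.eq_alpha {α : Set ℂ → ℝ≥0∞} (hα : IsAlpha α)
    {S : Set ℂ} (hS : IsCompact S) : α S = ENNReal.ofReal (alpha S) := by
  rw [hα S]
  apply le_antisymm
  · refine iSup_le fun F => iSup_le fun hF => iSup_le fun hFS => iSup_le fun f => iSup_le fun c =>
      iSup_le fun h => ?_
    have h1 : Ac S f c :=
      ⟨h.1, h.2.1.mono (Set.compl_subset_compl.2 hFS), h.2.2.2.2⟩
    have h2 : ‖c‖ ≤ alpha S := le_csSup (alpha_bdd hS) ⟨f, c, h1, h.2.2.1, rfl⟩
    rw [nn_eq c]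
    exact ENNReal.ofReal_le_ofReal h2
  · by_cases hX : (⨆ (F : Set ℂ) (_ : IsCompact F) (_ : F ⊆ S) (f : ℂ → ℂ) (c : ℂ)
          (_ : Continuous f ∧ DifferentiableOn ℂ f Fᶜ ∧ (∀ z, ‖f z‖ ≤ 1) ∧
                Tendsto f (cocompact ℂ) (𝓝 0) ∧
                Tendsto (fun z => z * f z) (cocompact ℂ) (𝓝 c)),
          ((‖c‖₊ : ℝ≥0) : ℝ≥0∞)) = ⊤
    · rw [hX]
      exact le_top
    · rw [ENNReal.ofReal_le_iff_le_toReal hX]
      refine Real.sSup_le ?_ ENNReal.toReal_nonneg
      rintro x ⟨f, c, hc, hb, rfl⟩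
      rw [← ENNReal.ofReal_le_iff_le_toReal hX, ← nn_eq c]
      exact le_iSup_of_le S (le_iSup_of_le hS (le_iSup_of_le subset_rfl
        (le_iSup_of_le f (le_iSup_of_le c (le_iSup_of_le
          ⟨hc.cont, hc.hol, hb, hc.zero, hc.lim⟩ le_rfl)))))

open Pool.Agent.H352R4.CA in
theorem IsAlpha.remove {α : Set ℂ → ℝ≥0∞} (hα : IsAlpha α) {K E : Set ℂ} (hK : IsCompact K)
    (hE : IsCompact E) (h0 : α K = 0) : α (E \ K) = α E := by
  apply le_antisymm (hα.mono Set.sdiff_subset)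
  have h1 : alpha K = 0 := by
    rw [hα.eq_alpha hK, ENNReal.ofReal_eq_zero] at h0
    exact le_antisymm h0 (alpha_nonneg K)
  rw [hα.eq_alpha hE, ← alpha_remove hE hK h1]
  by_cases hX : α (E \ K) = ⊤
  · rw [hX]
    exact le_top
  · rw [ENNReal.ofReal_le_iff_le_toReal hX]
    refine Real.sSup_le ?_ ENNReal.toReal_nonneg
    rintro x ⟨L, hL, hLE, rfl⟩
    rw [← ENNReal.ofReal_le_iff_le_toReal hX, ← hα.eq_alpha hL]
    exact hα.mono hLE

/-- For the (uniquely determined) continuous analytic capacity α(S)=sup over compact F⊆S and continuous f on ℂ, holomorphic off F, ∣f∣≤1, f(∞)=0, of ∣lim z f(z)∣: for compact K,E with α(K)=0, α(E\K)=α(E). -/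
theorem result :
    ∀ α : Set ℂ → ℝ≥0∞,
      (∀ S : Set ℂ, α S =
        ⨆ (F : Set ℂ) (_ : IsCompact F) (_ : F ⊆ S) (f : ℂ → ℂ) (c : ℂ)
          (_ : Continuous f ∧ DifferentiableOn ℂ f Fᶜ ∧ (∀ z, ‖f z‖ ≤ 1) ∧
                Tendsto f (cocompact ℂ) (𝓝 0) ∧
                Tendsto (fun z => z * f z) (cocompact ℂ) (𝓝 c)),
          ((‖c‖₊ : ℝ≥0) : ℝ≥0∞)) →
      ∀ K E : Set ℂ, IsCompact K → IsCompact E → α K = 0 → α (E \ K) = α E :=
  fun _ hα _ _ hK hE h0 => IsAlpha.remove hα hK hE h0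

end Pool.Agent.S04503
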