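import Pool.Statements.S04606
import Pool.Agent.Results.MP_4bee3f_an.EndpointGainFails

set_option autoImplicit false
open MeasureTheory
open Pool Pool.MP_4bee3f_an

namespace Pool.Agent.S04606

open Pool.Agent.Results.MP_4bee3f_an.EndpointGainFails in
/-- The negation of the preceding statement: For all n≥2, k, open connected Ω⊆ℝⁿ, and linear elliptic systems with a locally Lipschitz a.e. solution u whose a.e. Jacobian equals a nonvanishing J: if A,B,c,J are C^{k,1} then u is C^{k+1,1}, and if A,B,c,J are C^{k+1} then u is C^{k+2}. -/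
theorem result :
    ¬ (∀ (n : ℕ), 2 ≤ n → ∀ (k : ℕ) (Ω : Set (EuclideanSpace ℝ (Fin n))), IsOpen Ω → IsConnected Ω →
  ∀ (A : Fin n → Fin n → Fin n → EuclideanSpace ℝ (Fin n) → ℝ)
    (B : Fin n → Fin n → EuclideanSpace ℝ (Fin n) → ℝ)
    (c : Fin n → EuclideanSpace ℝ (Fin n) → ℝ)
    (u : Fin n → EuclideanSpace ℝ (Fin n) → ℝ)
    (J : EuclideanSpace ℝ (Fin n) → ℝ),
  (∀ x ∈ Ω, ∀ ξ : Fin n → ℝ, ξ ≠ 0 →
      (Matrix.of fun i l => ∑ j, ξ j * A j i l x).det ≠ 0) →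
  (∀ i, ∀ x ∈ Ω, ∃ C : NNReal, ∃ U ∈ nhds x, LipschitzOnWith C (u i) (U ∩ Ω)) →
  (∀ᵐ x ∂(volume.restrict Ω), ∀ i,
      ∑ j, ∑ l, A j i l x * fderiv ℝ (u l) x (EuclideanSpace.single j 1)
        + ∑ l, B i l x * u l x = c i x) →
  (∀ x ∈ Ω, J x ≠ 0) →
  (∀ᵐ x ∂(volume.restrict Ω),
      (Matrix.of fun i j => fderiv ℝ (u i) x (EuclideanSpace.single j 1)).det = J x) →
  (((∀ j i l, ContDiffOn ℝ k (A j i l) Ω ∧ ∀ x ∈ Ω, ∃ C : NNReal, ∃ U ∈ nhds x,
        LipschitzOnWith C (iteratedFDeriv ℝ k (A j i l)) (U ∩ Ω)) ∧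
    (∀ i l, ContDiffOn ℝ k (B i l) Ω ∧ ∀ x ∈ Ω, ∃ C : NNReal, ∃ U ∈ nhds x,
        LipschitzOnWith C (iteratedFDeriv ℝ k (B i l)) (U ∩ Ω)) ∧
    (∀ i, ContDiffOn ℝ k (c i) Ω ∧ ∀ x ∈ Ω, ∃ C : NNReal, ∃ U ∈ nhds x,
        LipschitzOnWith C (iteratedFDeriv ℝ k (c i)) (U ∩ Ω)) ∧
    (ContDiffOn ℝ k J Ω ∧ ∀ x ∈ Ω, ∃ C : NNReal, ∃ U ∈ nhds x,
        LipschitzOnWith C (iteratedFDeriv ℝ k J) (U ∩ Ω)) →
    ∀ i, ContDiffOn ℝ (k + 1) (u i) Ω ∧ ∀ x ∈ Ω, ∃ C : NNReal, ∃ U ∈ nhds x,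
        LipschitzOnWith C (iteratedFDeriv ℝ (k + 1) (u i)) (U ∩ Ω)) ∧
   ((∀ j i l, ContDiffOn ℝ (k + 1) (A j i l) Ω) ∧
    (∀ i l, ContDiffOn ℝ (k + 1) (B i l) Ω) ∧
    (∀ i, ContDiffOn ℝ (k + 1) (c i) Ω) ∧
    ContDiffOn ℝ (k + 1) J Ω →
    ∀ i, ContDiffOn ℝ (k + 2) (u i) Ω))) := by
  intro h
  obtain ⟨Ω, A, B, c, u, x₀, hΩo, hΩc, hx₀, hE, hA, hB, hc, hu, hJ, hJs, hV⟩ :=
    (Pool.Agent.Results.MP_4bee3f_an.EndpointGainFails.result 0).2
  have hcomp : ∀ (x : E 2) (v : E 2) (l : Fin 2), DifferentiableAt ℝ u x →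
      fderiv ℝ (fun y => u y l) x v = (fderiv ℝ u x v) l := by
    intro x v l hd
    have h1 : HasFDerivAt (fun y => u y l)
        ((EuclideanSpace.proj l : E 2 →L[ℝ] ℝ).comp (fderiv ℝ u x)) x :=
      (EuclideanSpace.proj l : E 2 →L[ℝ] ℝ).hasFDerivAt.comp x hd.hasFDerivAt
    rw [h1.fderiv]
    rfl
  have key := (h 2 le_rfl 0 Ω hΩo hΩc (fun j i l x => A j x i l) (fun i l x => B x i l)
    (fun i x => c x i) (fun l x => u x l) (jac u) ?_ ?_ ?_ hJ ?_).2 ?_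
  · -- the conclusion contradicts the failure
    refine hV Ω hΩo hx₀ subset_rfl ?_
    have hcd : ContDiffOn ℝ 2 u Ω := by
      rw [contDiffOn_euclidean]
      intro i
      have := key i
      simpa using this
    refine ⟨by exact_mod_cast hcd, fun x hx => ?_⟩
    have hcont : ContinuousOn (iteratedFDeriv ℝ (0 + 1 + 1) u) Ω := by
      have h1 : ContinuousOn (iteratedFDerivWithin ℝ 2 u Ω) Ω :=
        hcd.continuousOn_iteratedFDerivWithin (by norm_num) hΩo.uniqueDiffOn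
      refine h1.congr fun y hy => ?_
      exact (iteratedFDerivWithin_of_isOpen 2 hΩo hy).symm
    have hca : ContinuousAt (iteratedFDeriv ℝ (0 + 1 + 1) u) x := hcont.continuousAt (hΩo.mem_nhds hx)
    obtain ⟨U, hU, hUb⟩ := (Metric.continuousAt_iff'.1 hca 1 one_pos).exists_mem
    refine ⟨2, U, hU, fun y hy z hz => ?_⟩
    have h1 := hUb y hy.1
    have h2 := hUb z hz.1
    rw [Real.rpow_zero, mul_one, ← dist_eq_norm]
    refine (dist_triangle_right _ _ (iteratedFDeriv ℝ (0 + 1 + 1) u x)).trans ?_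
    linarith
  · -- ellipticity
    intro x hx ξ hξ
    have h1 := hE x hx ξ hξ
    have h2 : (Matrix.of fun i l => ∑ j, ξ j * A j x i l) = ∑ j, ξ j • A j x := by
      ext i l
      simp [Matrix.sum_apply, Matrix.smul_apply]
    rw [h2]
    exact h1
  · -- locally Lipschitz
    intro i x hx
    obtain ⟨K, t, ht, hK⟩ := hu.1 hx
    obtain ⟨U, hU, hUt⟩ := mem_nhdsWithin_iff_exists_mem_nhds_inter.1 ht
    refine ⟨K, U, hU, ?_⟩
    intro y hy z hz
    refine le_trans ?_ (hK (hUt hy) (hUt hz))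
    rw [edist_nndist, edist_nndist]
    norm_cast
    have : dist (u y i) (u z i) ≤ dist (u y) (u z) := by
      rw [Real.dist_eq, dist_eq_norm]
      exact PiLp.norm_apply_le (u y - u z) i
    exact_mod_cast this
  · -- the system
    filter_upwards [hu.2] with x hx i
    have h1 := congrFun hx.2 i
    simp only [Pi.add_apply, Finset.sum_apply, Matrix.mulVec, dotProduct] at h1
    rw [← h1]
    congr 1
    refine Finset.sum_congr rfl fun j _ => Finset.sum_congr rfl fun l _ => ?_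
    rw [hcomp x _ l hx.1]
    rfl
  · -- the Jacobian
    filter_upwards [hu.2] with x hx
    show Matrix.det _ = Matrix.det _
    congr 1
    ext i j
    show fderiv ℝ (fun y => u y i) x (EuclideanSpace.single j 1) = _
    rw [hcomp x _ i hx.1]
    rfl
  · -- smoothness of the coefficients
    refine ⟨fun j i l => ?_, fun i l => ?_, fun i => ?_, ?_⟩
    · simpa using (hA j i l).1
    · simpa using (hB i l).1
    · simpa using (hc i).1
    · simpa using hJs.1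

end Pool.Agent.S04606
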