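import Pool.Statements.S04624

/-!
The counterexample: `n = 2`, `d = p = 1`, `k = 3`. With probability `50/101` each the test matrix has
the rows `(1, 0, 1/10)` and `(0, 1, ± 1/10)`, and with probability `1/101` it vanishes. It is isotropic
and it is a subspace injection with injectivity `1` for the whole plane with probability
`100/101 > 0.99`. For `A = (1, 0)ᵀ`, `B = (1, 1)ᵀ` the error is at least `√(1 + 1/101²)`, while the
optimum is `1`, for each of the three values of the test matrix.
-/

set_option autoImplicit false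
open MeasureTheory
open Pool Pool.MP_4d58d7_an

namespace Pool.Agent.S04624

/-- the test matrix with sign `s` -/
noncomputable def w (s : ℝ) : Fin 2 → Fin 3 → ℝ := ![![1, 0, 1 / 10], ![0, 1, s / 10]]

/-- the law of the test matrix -/
noncomputable def law : Measure (Fin 2 → Fin 3 → ℝ) :=
  ENNReal.ofReal (50 / 101) • Measure.dirac (w 1) + (ENNReal.ofReal (50 / 101) •
    Measure.dirac (w (-1)) + ENNReal.ofReal (1 / 101) • Measure.dirac 0)

lemma law_prob : IsProbabilityMeasure law := by
  refine ⟨?_⟩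
  simp only [law, Measure.coe_add, Pi.add_apply, Measure.coe_smul, Pi.smul_apply, measure_univ,
    smul_eq_mul, mul_one]
  rw [← ENNReal.ofReal_add (by norm_num) (by norm_num), ← ENNReal.ofReal_add (by norm_num)
    (by norm_num)]
  norm_num

lemma quad (s : ℝ) (_ : s ^ 2 = 1) (x : Fin 2 → ℝ) :
    ∑ j, (∑ i, w s i j * x i) ^ 2 = x 0 ^ 2 + x 1 ^ 2 + (x 0 + s * x 1) ^ 2 / 100 := by
  simp only [w, Fin.sum_univ_three, Fin.sum_univ_two, Matrix.cons_val_zero, Matrix.cons_val_one,
    Matrix.cons_val]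
  ring

lemma isotropy (x : Fin 2 → ℝ) :
    ∫ ω, (∑ j, (∑ i, ω i j * x i) ^ 2) ∂law = ∑ i, x i ^ 2 := by
  have hi : ∀ (c : ℝ) (a : Fin 2 → Fin 3 → ℝ),
      Integrable (fun ω : Fin 2 → Fin 3 → ℝ => ∑ j, (∑ i, ω i j * x i) ^ 2)
        (ENNReal.ofReal c • Measure.dirac a) := by
    intro c a
    exact (integrable_dirac (by simp)).smul_measure ENNReal.ofReal_ne_top
  rw [law, integral_add_measure (hi _ _) ((hi _ _).add_measure (hi _ _)),
    integral_add_measure (hi _ _) (hi _ _), integral_smul_measure, integral_smul_measure,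
    integral_smul_measure, integral_dirac, integral_dirac, integral_dirac, quad 1 (by norm_num),
    quad (-1) (by norm_num), ENNReal.toReal_ofReal (by norm_num), ENNReal.toReal_ofReal (by norm_num)]
  simp only [smul_eq_mul, Pi.zero_apply, zero_mul, Finset.sum_const_zero, Fin.sum_univ_two]
  ring

/-- the coefficient matrix -/
def A₀ : Matrix (Fin 2) (Fin 1) ℝ := !![1; 0]

/-- the right-hand side -/
def B₀ : Matrix (Fin 2) (Fin 1) ℝ := !![1; 1]

lemma embed (s : ℝ) : Matrix.transpose (Matrix.of (w s)) * A₀ = !![1; 0; 1 / 10] := by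
  ext i j
  fin_cases i <;> fin_cases j <;> simp [w, A₀, Matrix.mul_apply, Fin.sum_univ_two]

lemma gmul : (!![100 / 101, 0, 10 / 101] : Matrix (Fin 1) (Fin 3) ℝ) *
    (!![1; 0; 1 / 10] : Matrix (Fin 3) (Fin 1) ℝ) = 1 := by
  ext i j
  fin_cases i
  fin_cases j
  rw [Matrix.mul_apply, Fin.sum_univ_three]
  simp
  norm_num

lemma not_bound (C : ℝ) (ε : ℝ) (h : C * ε ≤ 1 / 100000) (ω : Fin 2 → Fin 3 → ℝ)
    (hω : ω = w 1 ∨ ω = w (-1) ∨ ω = 0) :
    ¬ ∀ G : Matrix (Fin 1) (Fin 3) ℝ,
          (Matrix.transpose (Matrix.of ω) * A₀) * G * (Matrix.transpose (Matrix.of ω) * A₀)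
              = Matrix.transpose (Matrix.of ω) * A₀ →
          G * (Matrix.transpose (Matrix.of ω) * A₀) * G = G →
          Matrix.transpose ((Matrix.transpose (Matrix.of ω) * A₀) * G)
              = (Matrix.transpose (Matrix.of ω) * A₀) * G →
          Matrix.transpose (G * (Matrix.transpose (Matrix.of ω) * A₀))
              = G * (Matrix.transpose (Matrix.of ω) * A₀) →
          ∀ X : Matrix (Fin 1) (Fin 1) ℝ,
            Real.sqrt (∑ i, ∑ j, ((A₀ * (G * Matrix.transpose (Matrix.of ω) * B₀)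
              - B₀) i j) ^ 2) ≤
              (1 + C * ε) * Real.sqrt (∑ i, ∑ j, ((A₀ * X - B₀) i j) ^ 2) := by
  intro H
  have hopt : Real.sqrt (∑ i, ∑ j, ((A₀ * (!![1] : Matrix (Fin 1) (Fin 1) ℝ) - B₀) i j) ^ 2) = 1 := by
    simp [A₀, B₀, Fin.sum_univ_two]
  have key : ∀ e : ℝ, 1 + (1 / 101) ^ 2 ≤ e → ¬ Real.sqrt e ≤ (1 + C * ε) * 1 := by
    intro e he h1
    have h2 : Real.sqrt e ≤ 1 + 1 / 100000 := by linarith
    rw [Real.sqrt_le_left (by norm_num)] at h2
    norm_num at h2 he
    linarith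
  have sgn : ∀ s : ℝ, s ^ 2 = 1 → ω = w s → False := by
    intro s hs hw
    have h1 := H !![100 / 101, 0, 10 / 101] ?_ ?_ ?_ ?_ !![1]
    · rw [hopt] at h1
      refine key _ ?_ h1
      subst hw
      simp only [w, A₀, B₀, Matrix.sub_apply, Matrix.mul_apply, Fin.sum_univ_two, Fin.sum_univ_three,
        Fin.sum_univ_one, Matrix.transpose_apply, Matrix.of_apply, Matrix.cons_val_zero,
        Matrix.cons_val_one, Matrix.cons_val, Matrix.cons_val', Matrix.cons_val_fin_one]
      nlinarith
    all_goals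
      subst hw
      rw [embed s]
      first
        | rw [Matrix.mul_assoc, gmul, Matrix.mul_one]
        | rw [gmul, Matrix.one_mul]
        | rw [gmul, Matrix.transpose_one]
        | (ext i j
           fin_cases i <;> fin_cases j <;> simp [Matrix.mul_apply] <;> norm_num)
  rcases hω with h0 | h0 | h0
  · exact sgn 1 (by norm_num) h0
  · exact sgn (-1) (by norm_num) h0
  · have e0 : Matrix.transpose (Matrix.of ω) = (0 : Matrix (Fin 3) (Fin 2) ℝ) := by
      subst h0
      rfl
    have h1 := H 0 (by simp [e0]) (by simp) (by simp) (by simp) !![1]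
    rw [hopt] at h1
    refine key _ ?_ h1
    simp only [B₀, Matrix.zero_mul, Matrix.mul_zero, zero_sub, Matrix.neg_apply, Fin.sum_univ_two,
      Fin.sum_univ_one, Matrix.of_apply, Matrix.cons_val_zero, Matrix.cons_val_one,
      Matrix.cons_val', Matrix.cons_val_fin_one]
    norm_num

/-- The negation of the preceding statement: There are constants C and c₀>0 such that, for any isotropic n×k random matrix Ω that is a dimension-d OSI with injectivity 1−ε and failure 0.01, sketch-and-solve has error at most (1+Cε)·OPT with probability at least c₀. -/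
theorem result :
    ¬ (∃ C : ℝ, ∃ c₀ : ℝ, 0 < c₀ ∧
    ∀ (n d p k : ℕ), 0 < n → 0 < d → 0 < p → 0 < k →
    ∀ ε : ℝ, 0 < ε → ε < 1 →
    ∀ (A : Matrix (Fin n) (Fin d) ℝ), A.rank = d →
    ∀ (B : Matrix (Fin n) (Fin p) ℝ),
    ∀ (μ : Measure (Fin n → Fin k → ℝ)) [IsProbabilityMeasure μ],
      (∀ x : Fin n → ℝ, ∫ ω, (∑ j, (∑ i, ω i j * x i) ^ 2) ∂μ = ∑ i, x i ^ 2) →
      (∀ V : Submodule ℝ (Fin n → ℝ), Module.finrank ℝ V = d →
         ENNReal.ofReal (99 / 100) ≤
           μ {ω | ∀ x ∈ V, (1 - ε) * ∑ i, x i ^ 2 ≤ ∑ j, (∑ i, ω i j * x i) ^ 2}) →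
      ENNReal.ofReal c₀ ≤ μ {ω | ∀ G : Matrix (Fin d) (Fin k) ℝ,
          (Matrix.transpose (Matrix.of ω) * A) * G * (Matrix.transpose (Matrix.of ω) * A)
              = Matrix.transpose (Matrix.of ω) * A →
          G * (Matrix.transpose (Matrix.of ω) * A) * G = G →
          Matrix.transpose ((Matrix.transpose (Matrix.of ω) * A) * G)
              = (Matrix.transpose (Matrix.of ω) * A) * G →
          Matrix.transpose (G * (Matrix.transpose (Matrix.of ω) * A))
              = G * (Matrix.transpose (Matrix.of ω) * A) →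
          ∀ X : Matrix (Fin d) (Fin p) ℝ,
            Real.sqrt (∑ i, ∑ j, ((A * (G * Matrix.transpose (Matrix.of ω) * B) - B) i j) ^ 2) ≤
              (1 + C * ε) * Real.sqrt (∑ i, ∑ j, ((A * X - B) i j) ^ 2)}) := by
  rintro ⟨C, c₀, hc₀, H⟩
  set ε : ℝ := 1 / (100000 * (|C| + 1)) with hε
  have hC : 0 < |C| + 1 := by positivity
  have hε0 : 0 < ε := by positivity
  have hε1 : ε < 1 := by
    rw [hε, div_lt_one (by positivity)]
    nlinarith [abs_nonneg C]
  have hCε : C * ε ≤ 1 / 100000 := by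
    have h1 : C ≤ |C| + 1 := by linarith [le_abs_self C]
    calc C * ε ≤ (|C| + 1) * ε := mul_le_mul_of_nonneg_right h1 hε0.le
      _ = 1 / 100000 := by rw [hε]; field_simp
  have hprob := law_prob
  have hrank : A₀.rank = 1 := by
    apply le_antisymm
    · exact Matrix.rank_le_width _
    · rw [Nat.one_le_iff_ne_zero]
      intro h0
      rw [Matrix.rank, Submodule.finrank_eq_zero] at h0
      have h3 : A₀.mulVecLin 1 ∈ LinearMap.range A₀.mulVecLin := LinearMap.mem_range_self _ _
      rw [h0, Submodule.mem_bot] at h3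
      have := congrFun h3 0
      simp [A₀, Matrix.mulVec, dotProduct] at this
  have h1 := H 2 1 1 3 (by norm_num) (by norm_num) (by norm_num) (by norm_num) ε hε0 hε1 A₀
    hrank B₀ law isotropy ?_
  · have h2 : law {ω | ∀ G : Matrix (Fin 1) (Fin 3) ℝ,
          (Matrix.transpose (Matrix.of ω) * A₀) * G * (Matrix.transpose (Matrix.of ω) * A₀)
              = Matrix.transpose (Matrix.of ω) * A₀ →
          G * (Matrix.transpose (Matrix.of ω) * A₀) * G = G →
          Matrix.transpose ((Matrix.transpose (Matrix.of ω) * A₀) * G)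
              = (Matrix.transpose (Matrix.of ω) * A₀) * G →
          Matrix.transpose (G * (Matrix.transpose (Matrix.of ω) * A₀))
              = G * (Matrix.transpose (Matrix.of ω) * A₀) →
          ∀ X : Matrix (Fin 1) (Fin 1) ℝ,
            Real.sqrt (∑ i, ∑ j, ((A₀ * (G * Matrix.transpose (Matrix.of ω) * B₀)
              - B₀) i j) ^ 2) ≤
              (1 + C * ε) * Real.sqrt (∑ i, ∑ j, ((A₀ * X - B₀) i j) ^ 2)} = 0 := by
      simp only [law, Measure.coe_add, Pi.add_apply, Measure.coe_smul, Pi.smul_apply, smul_eq_mul,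
        Measure.dirac_apply]
      rw [Set.indicator_of_notMem, Set.indicator_of_notMem, Set.indicator_of_notMem]
      · simp
      · exact not_bound C ε hCε _ (Or.inr (Or.inr rfl))
      · exact not_bound C ε hCε _ (Or.inr (Or.inl rfl))
      · exact not_bound C ε hCε _ (Or.inl rfl)
    rw [h2] at h1
    simp only [nonpos_iff_eq_zero, ENNReal.ofReal_eq_zero] at h1
    linarith
  · intro V _
    have hmem : ∀ s : ℝ, s ^ 2 = 1 → w s ∈ {ω : Fin 2 → Fin 3 → ℝ | ∀ x ∈ V, (1 - ε) * ∑ i, x i ^ 2 ≤
        ∑ j, (∑ i, ω i j * x i) ^ 2} := by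
      intro s hs x _
      rw [quad s hs, Fin.sum_univ_two]
      have h3 : 0 ≤ (x 0 + s * x 1) ^ 2 / 100 := by positivity
      have h4 : 0 ≤ ε * (x 0 ^ 2 + x 1 ^ 2) := by positivity
      nlinarith
    simp only [law, Measure.coe_add, Pi.add_apply, Measure.coe_smul, Pi.smul_apply, smul_eq_mul,
      Measure.dirac_apply]
    rw [Set.indicator_of_mem (hmem 1 (by norm_num)), Set.indicator_of_mem (hmem (-1) (by norm_num))]
    simp only [Pi.one_apply, mul_one]
    rw [← add_assoc, ← ENNReal.ofReal_add (by norm_num) (by norm_num)]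
    refine le_trans ?_ le_self_add
    apply ENNReal.ofReal_le_ofReal
    norm_num

end Pool.Agent.S04624
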