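import Pool.Statements.S04693
import Pool.Agent.U53.PiBaseC

set_option autoImplicit false
open Pool Pool.MP_53fbd4_an

namespace Pool.Agent.S04693

/-- For every real Banach space with a 1-unconditional basis, the closed unit ball in the relative weak topology has a countable family of nonempty relatively open sets such that every nonempty relatively open subset of the ball contains one of them. -/
theorem result :
    ∀ (X : Type) [NormedAddCommGroup X] [NormedSpace ℝ X] [CompleteSpace X] (e : ℕ → X),
      (∀ x : X, ∃! a : ℕ → ℝ, HasSum (fun n => a n • e n) x) →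
      (∀ (s : Finset ℕ) (a ε : ℕ → ℝ), (∀ n, ε n = 1 ∨ ε n = -1) →
          ‖∑ n ∈ s, (ε n * a n) • e n‖ ≤ ‖∑ n ∈ s, a n • e n‖) →
      ∃ U : ℕ → Set (WeakSpace ℝ X),
        (∀ n, IsOpen (U n) ∧
            (U n ∩ (toWeakSpace ℝ X) '' Metric.closedBall (0 : X) 1).Nonempty) ∧
        ∀ V : Set (WeakSpace ℝ X), IsOpen V →
          (V ∩ (toWeakSpace ℝ X) '' Metric.closedBall (0 : X) 1).Nonempty →
            ∃ n, U n ∩ (toWeakSpace ℝ X) '' Metric.closedBall (0 : X) 1 ⊆ V := by
  intro X _ _ _ e hb hu
  choose a ha hau using hb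
  exact Pool.Agent.U53.PB.main (e := e) (a := a) ⟨ha, fun x b hx => hau x b hx, hu⟩

end Pool.Agent.S04693
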