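import Pool.Statements.S04908
import Pool.Agent.U618.RectEx

set_option autoImplicit false
open Pool Pool.MP_68b5a7_an

namespace Pool.Agent.S04908

open Pool.Agent.U618.RectEx

/-- The negation of the preceding statement: For every partition of [0,1)² into finitely many half-open rectangles whose translates also partition it, the piecewise-translation map returns every point to within ε of itself, in Euclidean torus distance, at some time N ≥ 1. -/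
theorem result :
    ¬ (∀ (m : ℕ) (a1 b1 a2 b2 v1 v2 : Fin m → ℝ) (φ : ℝ × ℝ → ℝ × ℝ),
      Pairwise (fun r s : Fin m =>
        Disjoint (Set.Ico (a1 r) (b1 r) ×ˢ Set.Ico (a2 r) (b2 r))
          (Set.Ico (a1 s) (b1 s) ×ˢ Set.Ico (a2 s) (b2 s))) →
      (⋃ r : Fin m, Set.Ico (a1 r) (b1 r) ×ˢ Set.Ico (a2 r) (b2 r))
          = Set.Ico (0:ℝ) 1 ×ˢ Set.Ico (0:ℝ) 1 →
      Pairwise (fun r s : Fin m =>
        Disjoint
          (Set.Ico (a1 r + v1 r) (b1 r + v1 r) ×ˢ Set.Ico (a2 r + v2 r) (b2 r + v2 r))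
          (Set.Ico (a1 s + v1 s) (b1 s + v1 s) ×ˢ Set.Ico (a2 s + v2 s) (b2 s + v2 s))) →
      (⋃ r : Fin m,
          Set.Ico (a1 r + v1 r) (b1 r + v1 r) ×ˢ Set.Ico (a2 r + v2 r) (b2 r + v2 r))
          = Set.Ico (0:ℝ) 1 ×ˢ Set.Ico (0:ℝ) 1 →
      (∀ r : Fin m, ∀ x ∈ Set.Ico (a1 r) (b1 r) ×ˢ Set.Ico (a2 r) (b2 r),
          φ x = (x.1 + v1 r, x.2 + v2 r)) →
      ∀ x ∈ Set.Ico (0:ℝ) 1 ×ˢ Set.Ico (0:ℝ) 1, ∀ ε : ℝ, 0 < ε →
        ∃ N : ℕ, 1 ≤ N ∧ ∃ k1 k2 : ℤ,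
          ((φ^[N] x).1 - x.1 + (k1 : ℝ)) ^ 2 + ((φ^[N] x).2 - x.2 + (k2 : ℝ)) ^ 2 ≤ ε ^ 2) := by
  intro H
  obtain ⟨α, hα, h0, h1⟩ : ∃ α : ℝ, Irrational α ∧ 0 < α ∧ 2 * α < 1 := by
    obtain ⟨α, hα, h0, h1⟩ := exists_irrational_btwn (show (0:ℝ) < 1 / 2 by norm_num)
    exact ⟨α, hα, h0, by linarith⟩
  let e : Fin (3 * 3) ≃ Fin 3 × Fin 3 := finProdFinEquiv.symm
  obtain ⟨N, hN, k1, k2, h⟩ := H (3 * 3) (fun r => p α (e r).1) (fun r => q α (e r).1)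
    (fun r => p' α (e r).2) (fun r => q' α (e r).2) (fun r => t α (e r).1)
    (fun r => t' α (e r).2) (fun z => (T α z.1, T' α z.2))
    (fun r s hrs => prod_disj (disj_p h0 h1) (disj_p' h0 h1) _ _ (e.injective.ne hrs))
    (prod_cov (cov_p h0 h1) (cov_p' h0 h1) e)
    (fun r s hrs => prod_disj (a := fun i => p α i + t α i) (b := fun i => q α i + t α i)
      (c := fun i => p' α i + t' α i) (d := fun i => q' α i + t' α i)
      (disj_pt h0 h1) (disj_pt' h0 h1) _ _ (e.injective.ne hrs))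
    (prod_cov (a := fun i => p α i + t α i) (b := fun i => q α i + t α i)
      (c := fun i => p' α i + t' α i) (d := fun i => q' α i + t' α i)
      (cov_pt h0 h1) (cov_pt' h0 h1) e)
    (fun r x hx => Prod.ext (T_eq h0 _ hx.1) (T'_eq h0 _ hx.2))
    (α, 0) ⟨⟨h0.le, by linarith⟩, ⟨le_rfl, one_pos⟩⟩ (α / 2) (by linarith)
  rw [iter_prod] at h
  have h2 := far h0 h1 hα N hN k1 k2
  simp only at h
  have h3 : (α / 2) ^ 2 < α ^ 2 / 2 := by nlinarith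
  linarith

end Pool.Agent.S04908
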