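import Pool.Statements.S05079
import Pool.Agent.U523.Bran.Base
import Pool.Agent.U523.Bran.Lower

set_option autoImplicit false
open Pool Pool.MP_761a8f_an

namespace Pool.Agent.S05079

/-- For every real α>0, every odd m≥3 and every complex x with ∣x∣=1, the modulus of the sum over k from 0 to m of binom(α,k)·x^k is at most the same sum evaluated at x=1. -/
theorem result :
    ∀ α : ℝ, 0 < α → ∀ m : ℕ, Odd m → 3 ≤ m → ∀ x : ℂ, ‖x‖ = 1 →
      ‖∑ k ∈ Finset.range (m + 1),
          ((∏ j ∈ Finset.range k, ((α : ℂ) - (j : ℂ))) / (k.factorial : ℂ)) * x ^ k‖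
        ≤ ∑ k ∈ Finset.range (m + 1),
            (∏ j ∈ Finset.range k, (α - (j : ℝ))) / (k.factorial : ℝ) := by
  intro α hα m hm _ x hx
  have hP : Pool.Agent.U523.Bran.P α m := by
    rcases lt_or_ge α 1 with h | h
    · exact Pool.Agent.U523.Bran.P_lt_one hα h hm
    · exact Pool.Agent.U523.Bran.P_ge_one h m
  have h := hP x hx
  have e : Pool.Agent.U523.Bran.S α m x = ∑ k ∈ Finset.range (m + 1),
          ((∏ j ∈ Finset.range k, ((α : ℂ) - (j : ℂ))) / (k.factorial : ℂ)) * x ^ k := by
    unfold Pool.Agent.U523.Bran.S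
    refine Finset.sum_congr rfl fun k _ => ?_
    unfold Pool.Agent.U523.Bran.b
    push_cast
    rfl
  rw [e] at h
  exact h

end Pool.Agent.S05079
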