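import Pool.Statements.S05106

set_option autoImplicit false
open Pool Pool.MP_7987d1_an

namespace Pool.Agent.S05106

/-- The logistic function. -/
noncomputable def sg (s : ℝ) : ℝ := (1 + Real.exp (-s))⁻¹

lemma sg_pos (s : ℝ) : 0 < sg s := by unfold sg; positivity

lemma sg_lt_one (s : ℝ) : sg s < 1 := by
  unfold sg
  have h : 0 < Real.exp (-s) := Real.exp_pos _
  exact inv_lt_one_of_one_lt₀ (by linarith)

lemma hasDerivAt_sg (s : ℝ) : HasDerivAt sg (sg s * (1 - sg s)) s := by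
  have h0 : (1 + Real.exp (-s)) ≠ 0 := by positivity
  have h1 : HasDerivAt (fun s : ℝ => 1 + Real.exp (-s)) (-Real.exp (-s)) s := by
    have := ((hasDerivAt_neg s).exp).const_add 1
    simpa using this
  have h2 := h1.inv h0
  refine h2.congr_deriv ?_
  unfold sg
  field_simp
  ring

lemma contDiff_sg : ContDiff ℝ 2 sg := by
  unfold sg
  have h0 : ∀ s : ℝ, (1 + Real.exp (-s)) ≠ 0 := fun s => by positivity
  exact (contDiff_const.add (Real.contDiff_exp.comp contDiff_neg)).inv h0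

/-- The derivative of the logistic function. -/
noncomputable def sg1 (s : ℝ) : ℝ := sg s * (1 - sg s)

lemma hasDerivAt_sg1 (s : ℝ) :
    HasDerivAt sg1 (sg s * (1 - sg s) * (1 - 2 * sg s)) s := by
  have h := hasDerivAt_sg s
  have h2 := h.mul (h.const_sub 1)
  refine h2.congr_deriv ?_
  ring

lemma sg_inj_val : sg (-(3/2)) ≠ sg (-3) := by
  unfold sg
  intro h
  have h3 := inv_injective h
  have h4 : Real.exp (-(-(3/2 : ℝ))) = Real.exp (-(-3 : ℝ)) := by linarith
  have h5 := Real.exp_injective h4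
  norm_num at h5

attribute [irreducible] sg

/-- The negation of the preceding statement: For 1≤n≤8, every C² solution of Δu−u_t=u³−u for t<0 with ∣u∣≤1, ∂u/∂x_n>0 and u_t≥0 has the form u(x,t)=g(ν·x) for a unit vector ν, i.e. is one-dimensional and time-independent. -/
theorem result :
    ¬ (∀ m : ℕ, m + 1 ≤ 8 → ∀ u : EuclideanSpace ℝ (Fin (m + 1)) × ℝ → ℝ,
    ContDiffOn ℝ 2 u {p | p.2 < 0} →
    (∀ x : EuclideanSpace ℝ (Fin (m + 1)), ∀ t : ℝ, t < 0 →
      |u (x, t)| ≤ 1 ∧
      (∑ i : Fin (m + 1), iteratedFDeriv ℝ 2 (fun y => u (y, t)) x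
          (fun _ => EuclideanSpace.single i (1 : ℝ)))
        - deriv (fun s => u (x, s)) t = u (x, t) ^ 3 - u (x, t) ∧
      0 < fderiv ℝ (fun y => u (y, t)) x (EuclideanSpace.single (Fin.last m) (1 : ℝ)) ∧
      0 ≤ deriv (fun s => u (x, s)) t) →
    ∃ ν : EuclideanSpace ℝ (Fin (m + 1)), ‖ν‖ = 1 ∧
      ∃ g : ℝ → ℝ, ∀ x : EuclideanSpace ℝ (Fin (m + 1)), ∀ t : ℝ, t < 0 →
        u (x, t) = g (inner ℝ ν x)) := by
  intro H
  let a : ℝ := (Real.sqrt 2)⁻¹
  have ha : 0 < a := by positivity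
  have ha2 : a * a = 1 / 2 := by
    have h2 : Real.sqrt 2 * Real.sqrt 2 = 2 := Real.mul_self_sqrt (by norm_num)
    have : a * a = (Real.sqrt 2 * Real.sqrt 2)⁻¹ := by
      simp only [a]; rw [mul_inv]
    rw [this, h2]; norm_num
  let L : EuclideanSpace ℝ (Fin (0 + 1)) →L[ℝ] ℝ := a • EuclideanSpace.proj (𝕜 := ℝ) (0 : Fin (0 + 1))
  have hL1 : ∀ i : Fin (0 + 1), L (EuclideanSpace.single i (1 : ℝ)) = a := by
    intro i
    have hi : i = 0 := Fin.ext (by omega)
    subst hi
    simp [L]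
  let u : EuclideanSpace ℝ (Fin (0 + 1)) × ℝ → ℝ := fun p => sg (L p.1 + 3 / 2 * p.2)
  have hu : ∀ x t, u (x, t) = sg (L x + 3 / 2 * t) := fun x t => rfl
  -- first space derivative
  have hd1 : ∀ (t : ℝ) (y : EuclideanSpace ℝ (Fin (0 + 1))),
      HasFDerivAt (fun y => u (y, t)) (sg1 (L y + 3 / 2 * t) • L) y := by
    intro t y
    have h1 : HasFDerivAt (fun y => L y + 3 / 2 * t) L y := (L.hasFDerivAt).add_const _
    exact (hasDerivAt_sg (L y + 3 / 2 * t)).comp_hasFDerivAt y h1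
  have hfd : ∀ t : ℝ, fderiv ℝ (fun y => u (y, t)) = fun y => sg1 (L y + 3 / 2 * t) • L := by
    intro t
    funext y
    exact (hd1 t y).fderiv
  -- second space derivative
  have hd2 : ∀ (t : ℝ) (y : EuclideanSpace ℝ (Fin (0 + 1))),
      HasFDerivAt (fun y => sg1 (L y + 3 / 2 * t) • L)
        (((sg (L y + 3 / 2 * t) * (1 - sg (L y + 3 / 2 * t)) * (1 - 2 * sg (L y + 3 / 2 * t))) • L).smulRight L)
        y := by
    intro t y
    have h1 : HasFDerivAt (fun y => L y + 3 / 2 * t) L y := (L.hasFDerivAt).add_const _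
    have h2 := (hasDerivAt_sg1 (L y + 3 / 2 * t)).comp_hasFDerivAt y h1
    exact h2.smul_const L
  have hdt : ∀ (x : EuclideanSpace ℝ (Fin (0 + 1))) (t : ℝ),
      HasDerivAt (fun s => u (x, s)) (sg1 (L x + 3 / 2 * t) * (3 / 2)) t := by
    intro x t
    have h1 : HasDerivAt (fun s : ℝ => L x + 3 / 2 * s) (3 / 2) t := by
      simpa using ((hasDerivAt_id t).const_mul (3 / 2 : ℝ)).const_add (L x)
    exact (hasDerivAt_sg (L x + 3 / 2 * t)).comp t h1
  have hcd : ContDiff ℝ 2 u := by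
    refine contDiff_sg.comp ?_
    exact (L.contDiff.comp contDiff_fst).add (contDiff_const.mul contDiff_snd)
  obtain ⟨ν, -, g, hg⟩ := H 0 (by norm_num) u hcd.contDiffOn (by
    intro x t _
    have p1 := sg_pos (L x + 3 / 2 * t)
    have p2 := sg_lt_one (L x + 3 / 2 * t)
    refine ⟨?_, ?_, ?_, ?_⟩
    · rw [hu, abs_le]; constructor <;> linarith
    · rw [(hdt x t).deriv]
      have hs : ∀ i : Fin (0 + 1), iteratedFDeriv ℝ 2 (fun y => u (y, t)) x
          (fun _ => EuclideanSpace.single i (1 : ℝ)) =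
          (sg (L x + 3 / 2 * t) * (1 - sg (L x + 3 / 2 * t)) * (1 - 2 * sg (L x + 3 / 2 * t))) * (a * a) := by
        intro i
        rw [iteratedFDeriv_two_apply, hfd t, (hd2 t x).fderiv]
        simp only [ContinuousLinearMap.smulRight_apply, ContinuousLinearMap.smul_apply, hL1, smul_eq_mul]
        ring
      rw [Finset.sum_congr rfl (fun i _ => hs i)]
      simp only [Finset.sum_const, Finset.card_univ, Fintype.card_fin, ha2, hu, sg1]
      simp only [Nat.zero_add, one_smul]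
      ring
    · rw [(hd1 t x).fderiv]
      simp only [ContinuousLinearMap.smul_apply, hL1, smul_eq_mul, sg1]
      have : 0 < 1 - sg (L x + 3 / 2 * t) := by linarith
      positivity
    · rw [(hdt x t).deriv, sg1]
      have : 0 < 1 - sg (L x + 3 / 2 * t) := by linarith
      positivity)
  have e1 := hg 0 (-1) (by norm_num)
  have e2 := hg 0 (-2) (by norm_num)
  rw [hu] at e1 e2
  rw [← e2] at e1
  simp only [map_zero, zero_add] at e1
  apply sg_inj_val
  norm_num at e1 ⊢
  exact e1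

end Pool.Agent.S05106
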