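import Pool.Statements.S05156
-- import your own Pool.Agent.* helpers here

set_option autoImplicit false
open Pool Pool.MP_7d5b5f_an

namespace Pool.Agent.S05156

/-- The negation of the preceding statement: For each p>1 there is C, independent of dimension d and coordinate k, so the discrete Riesz transform with kernel Γ((d+1)/2)π^{-(d+1)/2} x_k/∣x∣^{d+1} on ℤ^d is bounded on ℓ^p with norm at most C (tested on finitely supported f). -/
theorem result :
    ¬ (∀ p : ℝ, 1 < p → ∃ C : ℝ, 0 < C ∧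
      ∀ (d : ℕ) (k : Fin d) (S T : Finset (Fin d → ℤ)) (f : (Fin d → ℤ) → ℝ),
        ∑ n ∈ T, |∑ m ∈ S,
            ((Real.Gamma (((d : ℝ) + 1) / 2) / Real.pi ^ (((d : ℝ) + 1) / 2)) *
              (((n k - m k : ℤ) : ℝ) /
                (Real.sqrt (∑ i, (((n i - m i : ℤ) : ℝ)) ^ 2)) ^ (d + 1))) * f m| ^ p
          ≤ C ^ p * ∑ m ∈ S, |f m| ^ p) := by
  intro h
  -- Take `p = 2`. Testing on the unit mass at the origin and looking at the value at the
  -- first unit vector gives `c_d ≤ C`, but `c_{2n+1} = n! / π^(n+1)` is unbounded.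
  obtain ⟨C, hC, hb⟩ := h 2 (by norm_num)
  have key : ∀ n : ℕ, (n.factorial : ℝ) / Real.pi ^ (n + 1) ≤ C := by
    intro n
    have h1 := hb (2 * n + 1) 0 {0} {Pi.single 0 1} (fun _ => 1)
    have hG : Real.Gamma ((((2 * n + 1 : ℕ) : ℝ) + 1) / 2) = (n.factorial : ℝ) := by
      rw [show ((((2 * n + 1 : ℕ) : ℝ) + 1) / 2) = (n : ℝ) + 1 by push_cast; ring]
      exact Real.Gamma_nat_eq_factorial n
    have hP : Real.pi ^ ((((2 * n + 1 : ℕ) : ℝ) + 1) / 2) = Real.pi ^ (n + 1) := by
      rw [show ((((2 * n + 1 : ℕ) : ℝ) + 1) / 2) = ((n + 1 : ℕ) : ℝ) by push_cast; ring]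
      exact Real.rpow_natCast _ _
    have hs : (∑ i : Fin (2 * n + 1),
        ((((Pi.single 0 1 : Fin (2 * n + 1) → ℤ) i - (0 : Fin (2 * n + 1) → ℤ) i : ℤ) : ℝ)) ^ 2)
          = 1 := by
      rw [Finset.sum_eq_single (0 : Fin (2 * n + 1))]
      · simp
      · intro i _ hi
        simp [hi]
      · simp
    rw [Finset.sum_singleton, Finset.sum_singleton, Finset.sum_singleton, hG, hP, hs] at h1
    have hpos : (0 : ℝ) ≤ (n.factorial : ℝ) / Real.pi ^ (n + 1) := by positivity
    have h2 : ((n.factorial : ℝ) / Real.pi ^ (n + 1)) ^ 2 ≤ C ^ 2 := by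
      have h3 := h1
      simp only [Pi.single_eq_same, Pi.zero_apply, sub_zero, Int.cast_one, Real.sqrt_one,
        one_pow, div_one, mul_one, abs_one, Real.one_rpow, abs_of_nonneg hpos] at h3
      rw [show (2 : ℝ) = ((2 : ℕ) : ℝ) by norm_num, Real.rpow_natCast, Real.rpow_natCast] at h3
      exact h3
    exact (pow_le_pow_iff_left₀ hpos hC.le (by norm_num)).1 h2
  have hlim := FloorSemiring.tendsto_pow_div_factorial_atTop (Real.pi)
  have hlim2 := hlim.const_mul (Real.pi * C)
  rw [mul_zero] at hlim2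
  obtain ⟨n, hn⟩ := (hlim2.eventually (gt_mem_nhds (show (0 : ℝ) < 1 by norm_num))).exists
  have hk := key n
  have hfac : (0 : ℝ) < n.factorial := by positivity
  have hpi : (0 : ℝ) < Real.pi ^ (n + 1) := by positivity
  rw [div_le_iff₀ hpi] at hk
  have : Real.pi * C * (Real.pi ^ n / n.factorial) = C * Real.pi ^ (n + 1) / n.factorial := by
    ring
  rw [this, div_lt_one hfac] at hn
  linarith

end Pool.Agent.S05156
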