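import Pool.Statements.S05168
import Pool.Agent.U591.HS.Main

/-!
# Hollow solids with constant potential in the cavity: the answer is negative

Let `U` be the open cube `(-1, 1)^3`. For a suitable level `c` there is a measurable `f` with
`0 ≤ f ≤ 1`, `f = 0` off `U`, whose Newtonian potential `V` satisfies `V ≤ c`, `f = 1` a.e. on
`U ∩ {V < c}` (the minimiser of the energy functional `1/2 ∬ f(x) f(y) / |x-y| - c ∫ f`). By the
maximum principle applied to reflections, `V` is a decreasing function of each `|x i|`, so that the
interior `T₁` of `{V = c}` is strictly star-shaped (its boundary is homeomorphic to the sphere), and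
its boundary is a null set; `f` vanishes on `T₁`, as `V` is constant there. So `f` is the indicator
function of `U \ closure T₁`, and the potential of this shell is equal to `c` on `T₁`.
-/

set_option autoImplicit false
open MeasureTheory
open Pool Pool.MP_7dd24e_an

namespace Pool.Agent.S05168

/-- The negation of the preceding statement: If two nested topological spheres in R^3 bound a shell whose Newtonian potential is constant in the inner cavity, then the two surfaces are the images of concentric spheres of radii 1 and k<1 under one invertible affine map. -/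
theorem result :
    ¬ (∀ (S S₁ U T₁ : Set (EuclideanSpace ℝ (Fin 3))),
    Nonempty (S ≃ₜ Metric.sphere (0 : EuclideanSpace ℝ (Fin 3)) 1) →
    Nonempty (S₁ ≃ₜ Metric.sphere (0 : EuclideanSpace ℝ (Fin 3)) 1) →
    IsOpen U → IsConnected U → Bornology.IsBounded U → frontier U = S →
    IsOpen T₁ → IsConnected T₁ → Bornology.IsBounded T₁ → frontier T₁ = S₁ →
    closure T₁ ⊆ U →
    (∃ c : ℝ, ∀ P ∈ T₁, ∫ M in U \ closure T₁, (dist P M)⁻¹ = c) →
    ∃ (f : EuclideanSpace ℝ (Fin 3) ≃ᵃ[ℝ] EuclideanSpace ℝ (Fin 3)) (k : ℝ),
      0 < k ∧ k < 1 ∧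
      S = f '' Metric.sphere (0 : EuclideanSpace ℝ (Fin 3)) 1 ∧
      S₁ = f '' Metric.sphere (0 : EuclideanSpace ℝ (Fin 3)) k) := by
  intro H
  obtain ⟨T, c, hT, hsub, hpot⟩ := Pool.Agent.U591.HS.exists_cavity
  have hU := Pool.Agent.U591.HS.cube_star
  obtain ⟨g, k, _, _, hS, _⟩ := H (frontier Pool.Agent.U591.HS.cube) (frontier T)
    Pool.Agent.U591.HS.cube T hU.homeo hT.homeo hU.op hU.connected hU.bdd rfl hT.op hT.connected
    hT.bdd rfl hsub ⟨c, hpot⟩
  exact Pool.Agent.U591.HS.cube_not_ellipsoid g hS

end Pool.Agent.S05168
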