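import Pool.Statements.S05228
import Pool.Agent.Results.MP_8222c7_an.SemisimpleFails

set_option autoImplicit false
open Pool Pool.MP_8222c7_an

namespace Pool.Agent.S05228

/-- The negation of the preceding statement: Every non-radical commutative amenable complex Banach algebra A has this property: two continuous homomorphisms from A into a commutative Banach algebra whose difference takes only quasinilpotent (radical) values are equal. -/
theorem result :
    ¬ (∀ (A : Type) [NonUnitalNormedCommRing A] [NormedSpace ℂ A] [IsScalarTower ℂ A A]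
      [SMulCommClass ℂ A A] [CompleteSpace A],
      (∃ a : A, ¬ quasispectrum ℂ a ⊆ {0}) →
      (∀ (E : Type) [NormedAddCommGroup E] [NormedSpace ℂ E] [CompleteSpace E]
        (l r : A →L[ℂ] (E →L[ℂ] E)),
        (∀ a b : A, l (a * b) = (l a).comp (l b)) →
        (∀ a b : A, r (a * b) = (r b).comp (r a)) →
        (∀ a b : A, (l a).comp (r b) = (r b).comp (l a)) →
        ∀ D : A →L[ℂ] (E →L[ℂ] ℂ),
          (∀ (a b : A) (x : E), D (a * b) x = D b (r a x) + D a (l b x)) →
          ∃ f : E →L[ℂ] ℂ, ∀ (a : A) (x : E), D a x = f (r a x) - f (l a x)) →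
      ∀ (B : Type) [NonUnitalNormedCommRing B] [NormedSpace ℂ B] [IsScalarTower ℂ B B]
        [SMulCommClass ℂ B B] [CompleteSpace B]
        (φ ψ : A →ₙₐ[ℂ] B), Continuous φ → Continuous ψ →
        (∀ a : A, quasispectrum ℂ (φ a - ψ a) ⊆ {0}) → φ = ψ) := by
  intro h
  obtain ⟨A, iA, jA, hcA, -, -, ham, B, iB, jB, hcB, -, φ, ψ, hφ, hψ, -, -, hrad, hne⟩ :=
    Pool.Agent.Results.MP_8222c7_an.SemisimpleFails.result
  apply hne
  have hnt : Nontrivial A := by
    by_contra hA
    rw [not_nontrivial_iff_subsingleton] at hA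
    apply hne
    ext a
    rw [Subsingleton.elim a 0, map_zero, map_zero]
  have key := h A ?_ ?_ B (φ : A →ₙₐ[ℂ] B) (ψ : A →ₙₐ[ℂ] B) hφ hψ ?_
  · ext a
    exact DFunLike.congr_fun key a
  · refine ⟨1, fun hs => ?_⟩
    have h1 : (1 : ℂ) ∈ quasispectrum ℂ (1 : A) := by
      rw [quasispectrum_eq_spectrum_union_zero]
      left
      rw [spectrum.one_eq]
      rfl
    have h2 := hs h1
    exact one_ne_zero h2
  · intro E _ _ _ l r hl hr hlr D hD
    obtain ⟨f, hf⟩ := H611R3.ZL.amenable_iff.1 ham E inferInstance inferInstance inferInstance l r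
      (fun a b x => by rw [hl]; rfl) (fun a b x => by rw [hr]; rfl)
      (fun a b x => DFunLike.congr_fun (hlr a b) x) D hD
    exact ⟨f, hf⟩
  · intro a lam hlam
    rw [quasispectrum_eq_spectrum_union_zero] at hlam
    rcases hlam with hlam | hlam
    · by_contra h0
      have h0' : lam ≠ 0 := h0
      apply hlam
      have h1 := Ideal.mem_jacobson_bot.1 (hrad a) (algebraMap ℂ B (-lam⁻¹))
      have h2 : IsUnit (algebraMap ℂ B lam) := (IsUnit.mk0 lam h0').map (algebraMap ℂ B)
      have h3 := h2.mul h1
      have h4 : algebraMap ℂ B lam * ((φ a - ψ a) * algebraMap ℂ B (-lam⁻¹) + 1) =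
          algebraMap ℂ B lam - (φ a - ψ a) := by
        have h5 : algebraMap ℂ B lam * algebraMap ℂ B (-lam⁻¹) = -1 := by
          rw [← map_mul, mul_neg, mul_inv_cancel₀ h0', map_neg, map_one]
        linear_combination (φ a - ψ a) * h5
      rw [h4] at h3
      exact h3
    · exact hlam

end Pool.Agent.S05228
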