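import Pool.Statements.S05242

set_option autoImplicit false
open Pool Pool.MP_830bfa_an

namespace Pool.Agent.S05242

/-- The function `s(x, y, z) = √(y² + e^{2z})`. -/
noncomputable def sfun (v : Fin 3 → ℝ) : ℝ :=
  Real.sqrt ((v 1) ^ 2 + Real.exp (2 * v 2))

/-- The counterexample `F(x, y, z) = ((1 + s) cos x, (1 + s) sin x, arsinh (y e^{-z}))`. -/
noncomputable def F (v : Fin 3 → ℝ) : Fin 3 → ℝ :=
  ![(1 + sfun v) * Real.cos (v 0), (1 + sfun v) * Real.sin (v 0),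
    Real.arsinh (v 1 * Real.exp (-(v 2)))]

/-- Its Jacobian matrix. -/
noncomputable def Jm (v : Fin 3 → ℝ) : Matrix (Fin 3) (Fin 3) ℝ :=
  !![-((1 + sfun v) * Real.sin (v 0)), (v 1 / sfun v) * Real.cos (v 0),
        (Real.exp (2 * v 2) / sfun v) * Real.cos (v 0);
     (1 + sfun v) * Real.cos (v 0), (v 1 / sfun v) * Real.sin (v 0),
        (Real.exp (2 * v 2) / sfun v) * Real.sin (v 0);
     0, 1 / sfun v, -(v 1 / sfun v)]

lemma inner_pos (v : Fin 3 → ℝ) : 0 < (v 1) ^ 2 + Real.exp (2 * v 2) := by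
  have := Real.exp_pos (2 * v 2)
  positivity

lemma sfun_pos (v : Fin 3 → ℝ) : 0 < sfun v := Real.sqrt_pos.2 (inner_pos v)

lemma sfun_sq (v : Fin 3 → ℝ) : sfun v ^ 2 = (v 1) ^ 2 + Real.exp (2 * v 2) :=
  Real.sq_sqrt (inner_pos v).le

lemma abs_le_sfun (v : Fin 3 → ℝ) : |v 1| ≤ sfun v := by
  apply Real.abs_le_sqrt
  have := Real.exp_pos (2 * v 2)
  linarith

lemma hasF_coord (v : Fin 3 → ℝ) (i : Fin 3) :
    HasFDerivAt (fun w : Fin 3 → ℝ => w i) (ContinuousLinearMap.proj (R := ℝ) i) v :=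
  hasFDerivAt_apply i v

lemma hasF_sfun (v : Fin 3 → ℝ) :
    HasFDerivAt sfun
      ((v 1 / sfun v) • (ContinuousLinearMap.proj (R := ℝ) (φ := fun _ : Fin 3 => ℝ) 1)
        + (Real.exp (2 * v 2) / sfun v) •
          (ContinuousLinearMap.proj (R := ℝ) (φ := fun _ : Fin 3 => ℝ) 2)) v := by
  have h1 : HasFDerivAt (fun w : Fin 3 → ℝ => (w 1) ^ 2 + Real.exp (2 * w 2))
      ((2 * v 1) • (ContinuousLinearMap.proj (R := ℝ) (φ := fun _ : Fin 3 => ℝ) 1)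
        + (Real.exp (2 * v 2)) • ((2:ℝ) •
          (ContinuousLinearMap.proj (R := ℝ) (φ := fun _ : Fin 3 => ℝ) 2))) v := by
    have ha := (hasF_coord v 1).pow 2
    have hb := ((hasF_coord v 2).const_mul (2:ℝ)).exp
    refine (ha.add hb).congr_fderiv ?_
    ext w
    simp
  have h2 := h1.sqrt (inner_pos v).ne'
  refine h2.congr_fderiv ?_
  have hs := (sfun_pos v).ne'
  change (1 / (2 * sfun v)) • _ = _
  ext w
  simp
  field_simp

lemma hasF_0 (v : Fin 3 → ℝ) :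
    HasFDerivAt (fun w => (1 + sfun w) * Real.cos (w 0))
      ((ContinuousLinearMap.proj (R := ℝ) (φ := fun _ : Fin 3 => ℝ) 0).comp
        (LinearMap.toContinuousLinearMap (Matrix.toLin' (Jm v)))) v := by
  have h := ((hasF_sfun v).const_add 1).mul (hasF_coord v 0).cos
  refine h.congr_fderiv ?_
  ext w
  simp [Jm, Matrix.toLin'_apply, dotProduct, Fin.sum_univ_three]
  ring

lemma hasF_1 (v : Fin 3 → ℝ) :
    HasFDerivAt (fun w => (1 + sfun w) * Real.sin (w 0))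
      ((ContinuousLinearMap.proj (R := ℝ) (φ := fun _ : Fin 3 => ℝ) 1).comp
        (LinearMap.toContinuousLinearMap (Matrix.toLin' (Jm v)))) v := by
  have h := ((hasF_sfun v).const_add 1).mul (hasF_coord v 0).sin
  refine h.congr_fderiv ?_
  ext w
  simp [Jm, Matrix.toLin'_apply, dotProduct, Fin.sum_univ_three]
  ring

lemma sqrt_key (v : Fin 3 → ℝ) :
    Real.sqrt (1 + (v 1 * Real.exp (-(v 2))) ^ 2) = Real.exp (-(v 2)) * sfun v := by
  have h1 : 1 + (v 1 * Real.exp (-(v 2))) ^ 2 = (Real.exp (-(v 2)) * sfun v) ^ 2 := by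
    rw [mul_pow, mul_pow, sfun_sq]
    have : Real.exp (-(v 2)) ^ 2 * Real.exp (2 * v 2) = 1 := by
      rw [← Real.exp_nat_mul, ← Real.exp_add]
      norm_num
    linarith
  rw [h1, Real.sqrt_sq]
  exact mul_nonneg (Real.exp_pos _).le (sfun_pos v).le

lemma hasF_2 (v : Fin 3 → ℝ) :
    HasFDerivAt (fun w : Fin 3 → ℝ => Real.arsinh (w 1 * Real.exp (-(w 2))))
      ((ContinuousLinearMap.proj (R := ℝ) (φ := fun _ : Fin 3 => ℝ) 2).comp
        (LinearMap.toContinuousLinearMap (Matrix.toLin' (Jm v)))) v := by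
  have h1 : HasFDerivAt (fun w : Fin 3 → ℝ => w 1 * Real.exp (-(w 2))) _ v :=
    (hasF_coord v 1).mul ((hasF_coord v 2).neg.exp)
  have h := (Real.hasDerivAt_arsinh (v 1 * Real.exp (-(v 2)))).comp_hasFDerivAt v h1
  refine h.congr_fderiv ?_
  have hs := (sfun_pos v).ne'
  have he := (Real.exp_pos (-(v 2))).ne'
  rw [sqrt_key]
  ext w
  simp [Jm, Matrix.toLin'_apply, dotProduct, Fin.sum_univ_three]
  field_simp
  ring

lemma hasF_F (v : Fin 3 → ℝ) :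
    HasFDerivAt F (LinearMap.toContinuousLinearMap (Matrix.toLin' (Jm v))) v := by
  rw [hasFDerivAt_pi']
  intro i
  fin_cases i
  · exact hasF_0 v
  · exact hasF_1 v
  · exact hasF_2 v

lemma fderiv_F (v : Fin 3 → ℝ) :
    LinearMap.toMatrix' ((fderiv ℝ F v : (Fin 3 → ℝ) →L[ℝ] (Fin 3 → ℝ)) :
          (Fin 3 → ℝ) →ₗ[ℝ] (Fin 3 → ℝ)) = Jm v := by
  rw [(hasF_F v).fderiv]
  simp

lemma contDiff_sfun : ContDiff ℝ 1 sfun := by
  unfold sfun
  refine ContDiff.sqrt ?_ (fun v => (inner_pos v).ne')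
  fun_prop

lemma contDiff_F : ContDiff ℝ 1 F := by
  rw [contDiff_pi]
  intro i
  have hs := contDiff_sfun
  fin_cases i
  · show ContDiff ℝ 1 (fun w => (1 + sfun w) * Real.cos (w 0))
    fun_prop
  · show ContDiff ℝ 1 (fun w => (1 + sfun w) * Real.sin (w 0))
    fun_prop
  · show ContDiff ℝ 1 (fun w : Fin 3 → ℝ => Real.arsinh (w 1 * Real.exp (-(w 2))))
    exact ContDiff.arsinh (by fun_prop)

lemma charpoly3 (M : Matrix (Fin 3) (Fin 3) ℝ) (z : ℂ) :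
    Polynomial.aeval z M.charpoly =
      z ^ 3 - ((M 0 0 + M 1 1 + M 2 2 : ℝ) : ℂ) * z ^ 2
        + ((M 0 0 * M 1 1 - M 0 1 * M 1 0 + (M 0 0 * M 2 2 - M 0 2 * M 2 0)
            + (M 1 1 * M 2 2 - M 1 2 * M 2 1) : ℝ) : ℂ) * z
        - ((M 0 0 * M 1 1 * M 2 2 - M 0 0 * M 1 2 * M 2 1 - M 0 1 * M 1 0 * M 2 2
            + M 0 1 * M 1 2 * M 2 0 + M 0 2 * M 1 0 * M 2 1 - M 0 2 * M 1 1 * M 2 0 : ℝ) : ℂ) := by
  have h1 : Polynomial.aeval z M.charpoly
      = Polynomial.eval z ((M.map (algebraMap ℝ ℂ)).charpoly) := by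
    rw [Matrix.charpoly_map, Polynomial.eval_map, Polynomial.aeval_def]
  rw [h1, Matrix.eval_charpoly, Matrix.det_fin_three]
  simp [Matrix.scalar_apply]
  ring

lemma eig_bound (M : Matrix (Fin 3) (Fin 3) ℝ) (r q σ c p : ℝ) (hr : 1 ≤ r)
    (hq : |q| ≤ 1) (hσ : |σ| ≤ 1) (hcs : σ ^ 2 + c ^ 2 = 1)
    (w : ℝ) (hw : p * w + q ^ 2 = 1)
    (h00 : M 0 0 = -(r * σ)) (h01 : M 0 1 = q * c) (h02 : M 0 2 = p * c)
    (h10 : M 1 0 = r * c) (h11 : M 1 1 = q * σ) (h12 : M 1 2 = p * σ)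
    (h20 : M 2 0 = 0) (h21 : M 2 1 = w) (h22 : M 2 2 = -q)
    (z : ℂ) (hz : Polynomial.aeval z M.charpoly = 0) : 1 / 4 ≤ ‖z‖ := by
  rw [charpoly3] at hz
  have hdet : (M 0 0 * M 1 1 * M 2 2 - M 0 0 * M 1 2 * M 2 1 - M 0 1 * M 1 0 * M 2 2
            + M 0 1 * M 1 2 * M 2 0 + M 0 2 * M 1 0 * M 2 1 - M 0 2 * M 1 1 * M 2 0 : ℝ) = r := by
    rw [h00, h01, h02, h10, h11, h12, h20, h21, h22]
    linear_combination (r * (p * w + q ^ 2)) * hcs + r * hw
  set t : ℝ := M 0 0 + M 1 1 + M 2 2 with ht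
  set S : ℝ := M 0 0 * M 1 1 - M 0 1 * M 1 0 + (M 0 0 * M 2 2 - M 0 2 * M 2 0)
            + (M 1 1 * M 2 2 - M 1 2 * M 2 1) with hS
  rw [hdet] at hz
  have ht3 : |t| ≤ 3 * r := by
    have : t = -(r * σ) + q * σ + -q := by rw [ht, h00, h11, h22]
    rw [this]
    have h1 : |-(r * σ)| ≤ r := by
      rw [abs_neg, abs_mul, abs_of_nonneg (by linarith : (0:ℝ) ≤ r)]
      nlinarith [abs_nonneg σ]
    have h2 : |q * σ| ≤ 1 := by
      rw [abs_mul]; nlinarith [abs_nonneg σ, abs_nonneg q]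
    have h3 : |-q| ≤ 1 := by rw [abs_neg]; exact hq
    calc |-(r * σ) + q * σ + -q| ≤ |-(r * σ) + q * σ| + |-q| := abs_add_le _ _
      _ ≤ |-(r * σ)| + |q * σ| + |-q| := by gcongr; exact abs_add_le _ _
      _ ≤ 3 * r := by linarith
  have hS3 : |S| ≤ 3 * r := by
    have : S = -(r * q) + r * σ * q + -σ := by
      rw [hS, h00, h01, h02, h10, h11, h12, h20, h21, h22]
      linear_combination (-(r * q)) * hcs - σ * hw
    rw [this]
    have h1 : |-(r * q)| ≤ r := by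
      rw [abs_neg, abs_mul, abs_of_nonneg (by linarith : (0:ℝ) ≤ r)]
      nlinarith [abs_nonneg q]
    have h2 : |r * σ * q| ≤ r := by
      rw [abs_mul, abs_mul, abs_of_nonneg (by linarith : (0:ℝ) ≤ r)]
      have : |σ| * |q| ≤ 1 := by nlinarith [abs_nonneg σ, abs_nonneg q]
      nlinarith
    have h3 : |-σ| ≤ 1 := by rw [abs_neg]; exact hσ
    calc |-(r * q) + r * σ * q + -σ| ≤ |-(r * q) + r * σ * q| + |-σ| := abs_add_le _ _
      _ ≤ |-(r * q)| + |r * σ * q| + |-σ| := by gcongr; exact abs_add_le _ _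
      _ ≤ 3 * r := by linarith
  by_contra hlt
  rw [not_le] at hlt
  have hz' : (r : ℂ) = z * (z ^ 2 - (t : ℂ) * z + (S : ℂ)) := by linear_combination -hz
  have hn : r = ‖z‖ * ‖z ^ 2 - (t : ℂ) * z + (S : ℂ)‖ := by
    rw [← norm_mul, ← hz', Complex.norm_real, Real.norm_eq_abs, abs_of_nonneg (by linarith)]
  have hn2 : ‖z ^ 2 - (t : ℂ) * z + (S : ℂ)‖ ≤ ‖z‖ ^ 2 + |t| * ‖z‖ + |S| := by
    calc ‖z ^ 2 - (t : ℂ) * z + (S : ℂ)‖ ≤ ‖z ^ 2 - (t : ℂ) * z‖ + ‖(S : ℂ)‖ := norm_add_le _ _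
      _ ≤ ‖z ^ 2‖ + ‖(t : ℂ) * z‖ + ‖(S : ℂ)‖ := by gcongr; exact norm_sub_le _ _
      _ = ‖z‖ ^ 2 + |t| * ‖z‖ + |S| := by
        rw [norm_pow, norm_mul, Complex.norm_real, Complex.norm_real, Real.norm_eq_abs,
          Real.norm_eq_abs]
  have hz0 := norm_nonneg z
  have h4 : ‖z ^ 2 - (t : ℂ) * z + (S : ℂ)‖ ≤ 1 / 16 + 3 * r * (1 / 4) + 3 * r := by
    have e1 : ‖z‖ ^ 2 ≤ 1 / 16 := by nlinarith
    have e2 : |t| * ‖z‖ ≤ 3 * r * (1 / 4) := by
      apply mul_le_mul ht3 hlt.le hz0 (by linarith)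
    linarith
  have h5 : ‖z‖ * ‖z ^ 2 - (t : ℂ) * z + (S : ℂ)‖ ≤ (1 / 4) * (1 / 16 + 3 * r * (1 / 4) + 3 * r) :=
    mul_le_mul hlt.le h4 (norm_nonneg _) (by norm_num)
  linarith

lemma det_J (v : Fin 3 → ℝ) : (Jm v).det = 1 + sfun v := by
  have hs := (sfun_pos v).ne'
  have h2 := sfun_sq v
  have hcs := Real.sin_sq_add_cos_sq (v 0)
  have hw : (Real.exp (2 * v 2) / sfun v) * (1 / sfun v) + (v 1 / sfun v) ^ 2 = 1 := by
    field_simp
    linarith
  rw [Matrix.det_fin_three]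
  simp only [Jm, Matrix.of_apply, Matrix.cons_val', Matrix.cons_val_zero, Matrix.cons_val_one,
    Matrix.cons_val, Matrix.cons_val_fin_one]
  set q := v 1 / sfun v
  set p := Real.exp (2 * v 2) / sfun v
  set w := 1 / sfun v
  set σ := Real.sin (v 0)
  set c := Real.cos (v 0)
  linear_combination ((1 + sfun v) * (p * w + q ^ 2)) * hcs + (1 + sfun v) * hw

lemma eig_J (v : Fin 3 → ℝ) (z : ℂ) (hz : Polynomial.aeval z (Jm v).charpoly = 0) :
    1 / 4 ≤ ‖z‖ := by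
  have hs := (sfun_pos v)
  have h2 := sfun_sq v
  have hcs := Real.sin_sq_add_cos_sq (v 0)
  refine eig_bound (Jm v) (1 + sfun v) (v 1 / sfun v) (Real.sin (v 0)) (Real.cos (v 0))
    (Real.exp (2 * v 2) / sfun v) (by linarith) ?_ (Real.abs_sin_le_one _) hcs (1 / sfun v) ?_
    rfl rfl rfl rfl rfl rfl rfl rfl rfl z hz
  · rw [abs_div, abs_of_pos hs, div_le_one hs]
    exact abs_le_sfun v
  · field_simp
    linarith

/-- The negation of the preceding statement: For every n ≥ 2, a C¹ map f from ℝⁿ to ℝⁿ whose Jacobian is everywhere invertible, with every complex eigenvalue of every Jacobian of modulus at least some fixed ε > 0, is injective. -/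
theorem result :
    ¬ (∀ n : ℕ, 2 ≤ n → ∀ f : (Fin n → ℝ) → (Fin n → ℝ), ContDiff ℝ 1 f →
      (∀ x : Fin n → ℝ,
        (LinearMap.toMatrix' ((fderiv ℝ f x : (Fin n → ℝ) →L[ℝ] (Fin n → ℝ)) :
          (Fin n → ℝ) →ₗ[ℝ] (Fin n → ℝ))).det ≠ 0) →
      (∃ ε : ℝ, 0 < ε ∧ ∀ x : Fin n → ℝ, ∀ z : ℂ,
        Polynomial.aeval z
          (LinearMap.toMatrix' ((fderiv ℝ f x : (Fin n → ℝ) →L[ℝ] (Fin n → ℝ)) :
            (Fin n → ℝ) →ₗ[ℝ] (Fin n → ℝ))).charpoly = 0 → ε ≤ ‖z‖) →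
      Function.Injective f) := by
  intro h
  have hinj : Function.Injective F := by
    refine h 3 (by norm_num) F contDiff_F ?_ ⟨1 / 4, by norm_num, ?_⟩
    · intro x
      rw [fderiv_F, det_J]
      have := sfun_pos x
      linarith
    · intro x z hz
      rw [fderiv_F] at hz
      exact eig_J x z hz
  have hEq : F ![0, 0, 0] = F ![2 * Real.pi, 0, 0] := by
    have hs : sfun ![2 * Real.pi, 0, 0] = sfun ![0, 0, 0] := by
      simp [sfun]
    unfold F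
    rw [hs]
    simp
  have hne := congrFun (hinj hEq) 0
  simp at hne

end Pool.Agent.S05242
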