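import Pool.Statements.S05316
import Pool.Agent.U53.ShiftHalfB

set_option autoImplicit false
open Pool Pool.MP_8a8b2f_an

namespace Pool.Agent.S05316

/-- The negation of the preceding statement: Take a strongly continuous contraction semigroup on a complex Hilbert space with generator A, and some m>0 with ‖(μ−A)x‖ ≥ m∣Re μ∣‖x‖ for all x in D(A) and Re μ<0. Then some m₁>0 gives ‖T(t)x‖ ≥ m₁‖x‖ for all t≥0 and all x. -/
theorem result :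
    ¬ (∀ (H : Type) [NormedAddCommGroup H] [InnerProductSpace ℂ H] [CompleteSpace H]
      (T : ℝ → H →L[ℂ] H),
      T 0 = ContinuousLinearMap.id ℂ H →
      (∀ s t : ℝ, 0 ≤ s → 0 ≤ t → T (s + t) = (T s).comp (T t)) →
      (∀ x : H, ContinuousOn (fun t : ℝ => T t x) (Set.Ici 0)) →
      (∀ t : ℝ, 0 ≤ t → ‖T t‖ ≤ 1) →
      ∀ m : ℝ, 0 < m →
      (∀ x y : H,
        Filter.Tendsto (fun h : ℝ => ((h : ℂ)⁻¹) • (T h x - x))
          (nhdsWithin 0 (Set.Ioi 0)) (nhds y) →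
        ∀ μ : ℂ, μ.re < 0 → m * |μ.re| * ‖x‖ ≤ ‖μ • x - y‖) →
      ∃ m₁ : ℝ, 0 < m₁ ∧ ∀ t : ℝ, 0 ≤ t → ∀ x : H, m₁ * ‖x‖ ≤ ‖T t x‖) := by
  intro h
  obtain ⟨m₁, hm, hb⟩ := h Pool.Agent.U53.ShiftHalf.HS Pool.Agent.U53.ShiftHalf.T
    Pool.Agent.U53.ShiftHalf.T_zero
    (fun s t hs ht => Pool.Agent.U53.ShiftHalf.T_add hs ht)
    Pool.Agent.U53.ShiftHalf.T_contOn
    (fun t _ => Pool.Agent.U53.ShiftHalf.T_norm t)
    (1 / 4) (by norm_num)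
    Pool.Agent.U53.ShiftHalf.lower
  have ht : (0 : ℝ) ≤ 2 / m₁ ^ 2 := by positivity
  have h1 := hb (2 / m₁ ^ 2) ht Pool.Agent.U53.ShiftHalf.e0
  have h2 := Pool.Agent.U53.ShiftHalf.T_e0 ht
  rw [Pool.Agent.U53.ShiftHalf.e0_norm, mul_one] at h1
  have h3 : m₁ ^ 2 ≤ ‖Pool.Agent.U53.ShiftHalf.T (2 / m₁ ^ 2) Pool.Agent.U53.ShiftHalf.e0‖ ^ 2 :=
    pow_le_pow_left₀ hm.le h1 2
  have h4 : m₁ ^ 2 ≤ 2 / (1 + 2 / m₁ ^ 2) := h3.trans h2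
  rw [le_div_iff₀ (by positivity)] at h4
  have h5 : m₁ ^ 2 * (1 + 2 / m₁ ^ 2) = m₁ ^ 2 + 2 := by field_simp
  rw [h5] at h4
  have : 0 < m₁ ^ 2 := by positivity
  linarith


end Pool.Agent.S05316
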