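import Pool.Statements.S05947
import Pool.Agent.U8.SpecOv.Main

set_option autoImplicit false
open MeasureTheory Matrix
open Pool Pool.MP_bc76ba_an

namespace Pool.Agent.S05947

/-- For an expanding integer matrix R and finite digit set B in Z^d, if the equal-weight self-affine measure is spectral, then the pieces R^{-1}(T+b) of its attractor T pairwise meet in a set of measure zero. -/
theorem result :
  ∀ (d : ℕ) (R : Matrix (Fin d) (Fin d) ℤ) (B : Finset (Fin d → ℤ))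
    (φ : (Fin d → ℤ) → (Fin d → ℝ) → (Fin d → ℝ))
    (μ : MeasureTheory.Measure (Fin d → ℝ)),
    (∀ z : ℂ, (R.map (Int.castRingHom ℂ)).charpoly.IsRoot z → 1 < ‖z‖) →
    (∀ b x, φ b x = (R.map (Int.castRingHom ℝ))⁻¹ *ᵥ (x + fun i => (b i : ℝ))) →
    MeasureTheory.IsProbabilityMeasure μ →
    μ = ∑ b ∈ B, ((B.card : ENNReal)⁻¹) • μ.map (φ b) →
    (∃ (Λ : Set (Fin d → ℝ)) (e : Λ → MeasureTheory.Lp ℂ 2 μ),
      (∀ l : Λ, (e l : (Fin d → ℝ) → ℂ) =ᵐ[μ]
        fun x => Complex.exp (2 * Real.pi * Complex.I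
          * ((∑ i, (l : Fin d → ℝ) i * x i : ℝ) : ℂ))) ∧
      Orthonormal ℂ e ∧
      (Submodule.span ℂ (Set.range e)).topologicalClosure = ⊤) →
    ∀ T : Set (Fin d → ℝ), IsCompact T → T.Nonempty → T = ⋃ b ∈ B, φ b '' T →
    ∀ b ∈ B, ∀ b' ∈ B, b ≠ b' → μ (φ b '' T ∩ φ b' '' T) = 0 := by
  intro d R B φ μ hR hφ hprob hμ hspec T hT hTn hTeq b hb b' hb' hne
  have := hprob
  have hφ' : ∀ b, φ b = fun x => (R.map (Int.castRingHom ℝ))⁻¹ *ᵥ (x + U8.SpecOv.cv b) := by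
    intro b; funext x; exact hφ b x
  have hs : U8.SpecOv.Sys R B μ := by
    refine ⟨hR, ⟨b, hb⟩, fun W hW => ?_⟩
    conv_lhs => rw [hμ]
    rw [Measure.finsetSum_apply]
    refine Finset.sum_congr rfl fun c _ => ?_
    have hm : Measurable (φ c) := by rw [hφ' c]; fun_prop
    rw [Measure.smul_apply, Measure.map_apply hm hW, smul_eq_mul, hφ' c]
  have hTeq' : T = ⋃ b ∈ B,
      (fun x => ((R.map (Int.castRingHom ℝ))⁻¹) *ᵥ (x + U8.SpecOv.cv b)) '' T := by
    simpa only [hφ'] using hTeq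
  rw [hφ' b, hφ' b']
  exact U8.SpecOv.no_overlap hspec hs T hT hTn hTeq' b b' hb hb' hne

end Pool.Agent.S05947
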