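import Pool.Statements.S06006

set_option autoImplicit false
open MeasureTheory
open Pool Pool.MP_c09e54_an

namespace Pool.Agent.S06006

/-- There is a compact set of irrational numbers of positive measure. -/
theorem exists_compact : ∃ K : Set ℝ, IsCompact K ∧ 0 < volume K ∧ volume K < ⊤ ∧
    ∀ x ∈ K, Irrational x := by
  have hc : (Set.range ((↑) : ℚ → ℝ)).Countable := Set.countable_range _
  have hm : MeasurableSet (Set.Icc (0 : ℝ) 1 \ Set.range ((↑) : ℚ → ℝ)) :=
    measurableSet_Icc.diff hc.measurableSet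
  have hv : volume (Set.Icc (0 : ℝ) 1 \ Set.range ((↑) : ℚ → ℝ)) = 1 := by
    rw [measure_sdiff_null (hc.measure_zero volume)]
    simp
  obtain ⟨K, hK, hKc, hKv⟩ := hm.exists_lt_isCompact (μ := volume) (r := 0) (by rw [hv]; simp)
  refine ⟨K, hKc, hKv, hKc.measure_lt_top, fun x hx => ?_⟩
  exact (hK hx).2

/-- The preimage under an isometry of a closed set of irrational numbers has dense complement. -/
theorem dense_compl_preimage {K : Set ℝ} (hK : ∀ x ∈ K, Irrational x) {f : ℝ → ℝ}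
    (hf : Isometry f) : Dense (f ⁻¹' K)ᶜ := by
  rw [← interior_eq_empty_iff_dense_compl, Set.eq_empty_iff_forall_notMem]
  intro x hx
  rw [mem_interior_iff_mem_nhds, Metric.mem_nhds_iff] at hx
  obtain ⟨ε, hε, hsub⟩ := hx
  have hconn : IsPreconnected (f '' Metric.ball x ε) :=
    (convex_ball x ε).isPreconnected.image f hf.continuous.continuousOn
  have h1 : f x ∈ f '' Metric.ball x ε := ⟨x, Metric.mem_ball_self hε, rfl⟩
  have h2 : f (x + ε / 2) ∈ f '' Metric.ball x ε := by
    refine ⟨_, ?_, rfl⟩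
    rw [Metric.mem_ball, Real.dist_eq]
    rw [abs_of_pos] <;> linarith
  have hne : f x ≠ f (x + ε / 2) := by
    intro h
    have := hf.injective h
    linarith
  have hint : Set.uIcc (f x) (f (x + ε / 2)) ⊆ f '' Metric.ball x ε :=
    hconn.ordConnected.uIcc_subset h1 h2
  obtain ⟨q, hq1, hq2⟩ : ∃ q : ℚ, min (f x) (f (x + ε / 2)) < (q : ℝ) ∧
      (q : ℝ) < max (f x) (f (x + ε / 2)) := exists_rat_btwn (min_lt_max.2 hne)
  obtain ⟨y, hy, hyq⟩ := hint (show (q : ℝ) ∈ Set.uIcc (f x) (f (x + ε / 2)) from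
    ⟨hq1.le, hq2.le⟩)
  have := hK (f y) (hsub hy)
  rw [hyq] at this
  exact this ⟨q, rfl⟩

/-- The negation of the preceding statement: Any two bounded Lebesgue measurable subsets of the reals of equal measure become, after deleting null sets, equidecomposable: finitely many disjoint measurable pieces of one, moved by isometries of the line, exactly tile the other. -/
theorem result :
    ¬ (∀ A B : Set ℝ, NullMeasurableSet A volume → NullMeasurableSet B volume →
      Bornology.IsBounded A → Bornology.IsBounded B → volume A = volume B →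
      ∃ E₁ E₂ : Set ℝ, volume E₁ = 0 ∧ volume E₂ = 0 ∧
        ∃ (n : ℕ) (P : Fin n → Set ℝ) (f : Fin n → ℝ → ℝ),
          (∀ i, NullMeasurableSet (P i) volume) ∧
          (∀ i, Isometry (f i)) ∧
          Pairwise (fun i j => Disjoint (P i) (P j)) ∧
          Pairwise (fun i j => Disjoint (f i '' P i) (f j '' P j)) ∧
          (⋃ i, P i) = A \ E₁ ∧
          (⋃ i, f i '' P i) = B \ E₂) := by
  intro H
  obtain ⟨K, hKc, hKpos, hKtop, hKirr⟩ := exists_compact
  set v : ℝ := (volume K).toReal with hv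
  have hvpos : 0 < v := ENNReal.toReal_pos hKpos.ne' hKtop.ne
  obtain ⟨E₁, E₂, hE₁, hE₂, n, P, f, -, hf, -, -, hA, hB⟩ := H (Set.Icc 0 v) K
    measurableSet_Icc.nullMeasurableSet hKc.measurableSet.nullMeasurableSet
    (Metric.isBounded_Icc 0 v) hKc.isBounded (by
      rw [Real.volume_Icc, sub_zero, hv, ENNReal.ofReal_toReal hKtop.ne])
  have hopen : IsOpen (⋂ i, (f i ⁻¹' K)ᶜ) :=
    isOpen_iInter_of_finite fun i => (hKc.isClosed.preimage (hf i).continuous).isOpen_compl
  have hdense : Dense (⋂ i, (f i ⁻¹' K)ᶜ) :=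
    dense_iInter_of_isOpen (fun i => (hKc.isClosed.preimage (hf i).continuous).isOpen_compl)
      fun i => dense_compl_preimage hKirr (hf i)
  have hne : (Set.Ioo 0 v ∩ ⋂ i, (f i ⁻¹' K)ᶜ).Nonempty :=
    hdense.inter_open_nonempty _ isOpen_Ioo ⟨v / 2, by constructor <;> linarith⟩
  have hpos : 0 < volume (Set.Ioo 0 v ∩ ⋂ i, (f i ⁻¹' K)ᶜ) :=
    (isOpen_Ioo.inter hopen).measure_pos volume hne
  have hsub : (Set.Ioo 0 v ∩ ⋂ i, (f i ⁻¹' K)ᶜ) ⊆ E₁ := by
    rintro x ⟨hx1, hx2⟩
    by_contra hxE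
    have hxA : x ∈ ⋃ i, P i := by
      rw [hA]
      exact ⟨⟨hx1.1.le, hx1.2.le⟩, hxE⟩
    obtain ⟨i, hi⟩ := Set.mem_iUnion.1 hxA
    have : f i x ∈ K \ E₂ := by
      rw [← hB]
      exact Set.mem_iUnion.2 ⟨i, x, hi, rfl⟩
    exact (Set.mem_iInter.1 hx2 i) this.1
  exact absurd (measure_mono_null hsub hE₁) hpos.ne'

end Pool.Agent.S06006
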