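import Pool.Statements.S06025
import Pool.Agent.H780R2.CX.E1

set_option autoImplicit false
open MeasureTheory ENNReal
open Pool Pool.MP_c1e612_an

namespace Pool.Agent.S06025

/-- There exist real Banach spaces X, Y, a bounded operator S, a nonempty convex F with every deterministic non-adaptive n-error positive and finite, and C>0 such that the randomized non-adaptive 2n-error is at most C/n times the deterministic n-error for all n≥1. -/
theorem result :
    ∃ (X : Type) (hX : NormedAddCommGroup X) (hXs : NormedSpace ℝ X) (hXc : CompleteSpace X)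
      (Y : Type) (hY : NormedAddCommGroup Y) (hYs : NormedSpace ℝ Y) (hYc : CompleteSpace Y)
      (S : X →L[ℝ] Y) (F : Set X) (C : ℝ),
      F.Nonempty ∧ Convex ℝ F ∧ 0 < C ∧
      (∀ n : ℕ, 0 < n →
        0 < (⨅ (L : Fin n → (X →L[ℝ] ℝ)) (φ : (Fin n → ℝ) → Y),
              ⨆ f ∈ F, ‖S f - φ (fun i => L i f)‖ₑ) ∧
        (⨅ (L : Fin n → (X →L[ℝ] ℝ)) (φ : (Fin n → ℝ) → Y),
              ⨆ f ∈ F, ‖S f - φ (fun i => L i f)‖ₑ) < ⊤) ∧
      (∀ n : ℕ, 0 < n →
        (⨅ (Ω : Type) (mΩ : MeasurableSpace Ω) (P : Measure Ω)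
            (_ : IsProbabilityMeasure P)
            (L : Ω → Fin (2 * n) → (X →L[ℝ] ℝ)) (φ : Ω → (Fin (2 * n) → ℝ) → Y)
            (_ : ∀ f ∈ F, Measurable (fun ω => ‖S f - φ ω (fun i => L ω i f)‖)),
            ⨆ f ∈ F, ∫⁻ ω, ‖S f - φ ω (fun i => L ω i f)‖ₑ ∂P)
          ≤ ENNReal.ofReal (C / (n : ℝ)) *
            (⨅ (L : Fin n → (X →L[ℝ] ℝ)) (φ : (Fin n → ℝ) → Y),
              ⨆ f ∈ F, ‖S f - φ (fun i => L i f)‖ₑ)) := by
  obtain ⟨X, Y, i1, i2, i3, i4, i5, i6, S, F, hne, hconv, -, hdet, hran⟩ :=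
    Pool.Agent.H780R2.CX.TE1.trivial_example
  refine ⟨X, i1, i2, i3, Y, i4, i5, i6, S, F, 1, hne, hconv, one_pos, fun n hn => ?_,
    fun n hn => ?_⟩
  · have h := hdet n
    unfold Pool.Agent.H780R2.CX.detErr at h
    rw [h]
    exact ⟨ENNReal.ofReal_pos.2 (by positivity), ENNReal.ofReal_lt_top⟩
  · refine le_trans ?_ (hran n hn)
    refine le_iInf fun A => ?_
    refine iInf_le_of_le A.Ω (iInf_le_of_le A.mΩ (iInf_le_of_le A.P (iInf_le_of_le A.prob
      (iInf_le_of_le A.L (iInf_le_of_le A.φ (iInf_le_of_le ?_ le_rfl))))))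
    intro f hf
    have h1 := A.meas
    have h2 : @Measurable A.Ω (A.Ω × F) A.mΩ
        (@Prod.instMeasurableSpace A.Ω F A.mΩ (borel F)) (fun ω => (ω, (⟨f, hf⟩ : F))) := by
      let _ : MeasurableSpace A.Ω := A.mΩ
      let _ : MeasurableSpace F := borel F
      exact measurable_id.prodMk measurable_const
    exact h1.comp h2

end Pool.Agent.S06025
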