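import Pool.Statements.S06166
import Pool.Agent.T2H64.AP.Final

set_option autoImplicit false
open Pool Pool.MP_cc6c48_an

namespace Pool.Agent.S06166

/-- The negation of the preceding statement: For every Apollonian packing P and every Möbius group preserving P whose limit set is the closure of P, the orbit of any circle separating the limit set is either closed or dense in the space of circles meeting the limit set. -/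
theorem result :
    ¬ (∀ (P : Set (Set (OnePoint ℂ))),
  (∃ C₁ C₂ C₃ C₄ : Set (OnePoint ℂ),
    (∃ g : Matrix.GeneralLinearGroup (Fin 2) ℂ, C₁ = (fun w : OnePoint ℂ => g • w) '' (insert (OnePoint.infty : OnePoint ℂ) (Set.range (fun x : ℝ => OnePoint.some (x : ℂ))))) ∧
    (∃ g : Matrix.GeneralLinearGroup (Fin 2) ℂ, C₂ = (fun w : OnePoint ℂ => g • w) '' (insert (OnePoint.infty : OnePoint ℂ) (Set.range (fun x : ℝ => OnePoint.some (x : ℂ))))) ∧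
    (∃ g : Matrix.GeneralLinearGroup (Fin 2) ℂ, C₃ = (fun w : OnePoint ℂ => g • w) '' (insert (OnePoint.infty : OnePoint ℂ) (Set.range (fun x : ℝ => OnePoint.some (x : ℂ))))) ∧
    (∃ g : Matrix.GeneralLinearGroup (Fin 2) ℂ, C₄ = (fun w : OnePoint ℂ => g • w) '' (insert (OnePoint.infty : OnePoint ℂ) (Set.range (fun x : ℝ => OnePoint.some (x : ℂ))))) ∧
    (∃! p, p ∈ C₁ ∩ C₂) ∧ (∃! p, p ∈ C₁ ∩ C₃) ∧ (∃! p, p ∈ C₁ ∩ C₄) ∧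
    (∃! p, p ∈ C₂ ∩ C₃) ∧ (∃! p, p ∈ C₂ ∩ C₄) ∧ (∃! p, p ∈ C₃ ∩ C₄) ∧
    C₁ ∩ C₂ ∩ C₃ = ∅ ∧ C₁ ∩ C₂ ∩ C₄ = ∅ ∧ C₁ ∩ C₃ ∩ C₄ = ∅ ∧ C₂ ∩ C₃ ∩ C₄ = ∅ ∧
    P = ⋂₀ {F : Set (Set (OnePoint ℂ)) | C₁ ∈ F ∧ C₂ ∈ F ∧ C₃ ∈ F ∧ C₄ ∈ F ∧
      ∀ S ∈ F, ∀ T ∈ F, ∀ U ∈ F, ∀ V : Set (OnePoint ℂ),
        (∃ g : Matrix.GeneralLinearGroup (Fin 2) ℂ, V = (fun w : OnePoint ℂ => g • w) '' (insert (OnePoint.infty : OnePoint ℂ) (Set.range (fun x : ℝ => OnePoint.some (x : ℂ))))) →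
        (∃! p, p ∈ S ∩ T) → (∃! p, p ∈ T ∩ U) → (∃! p, p ∈ S ∩ U) → S ∩ T ∩ U = ∅ →
        (∃! p, p ∈ V ∩ S) → (∃! p, p ∈ V ∩ T) → (∃! p, p ∈ V ∩ U) → V ∈ F}) →
  ∀ Γ : Subgroup (Matrix.GeneralLinearGroup (Fin 2) ℂ),
  (∀ g ∈ Γ, ∀ S : Set (OnePoint ℂ), S ∈ P ↔ (fun w : OnePoint ℂ => g • w) '' S ∈ P) →
  (∀ z : OnePoint ℂ, derivedSet {w : OnePoint ℂ | ∃ g ∈ Γ, w = g • z} = closure (⋃₀ P)) →
  ∀ C : Set (OnePoint ℂ),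
  (∃ g : Matrix.GeneralLinearGroup (Fin 2) ℂ,
    C = (fun w : OnePoint ℂ => g • w) '' (insert (OnePoint.infty : OnePoint ℂ) (Set.range (fun x : ℝ => OnePoint.some (x : ℂ)))) ∧
    ((fun w : OnePoint ℂ => g • w) '' (OnePoint.some '' {z : ℂ | 0 < z.im}) ∩ closure (⋃₀ P)).Nonempty ∧
    ((fun w : OnePoint ℂ => g • w) '' (OnePoint.some '' {z : ℂ | z.im < 0}) ∩ closure (⋃₀ P)).Nonempty) →
  (IsClosed {h : Matrix.GeneralLinearGroup (Fin 2) ℂ | ∃ γ ∈ Γ,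
      (fun w : OnePoint ℂ => h • w) '' (insert (OnePoint.infty : OnePoint ℂ) (Set.range (fun x : ℝ => OnePoint.some (x : ℂ)))) = (fun w : OnePoint ℂ => γ • w) '' C} ∨
   ∀ h : Matrix.GeneralLinearGroup (Fin 2) ℂ,
     ((fun w : OnePoint ℂ => h • w) '' (insert (OnePoint.infty : OnePoint ℂ) (Set.range (fun x : ℝ => OnePoint.some (x : ℂ)))) ∩ closure (⋃₀ P)).Nonempty →
     h ∈ closure {h' : Matrix.GeneralLinearGroup (Fin 2) ℂ | ∃ γ ∈ Γ,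
       (fun w : OnePoint ℂ => h' • w) '' (insert (OnePoint.infty : OnePoint ℂ) (Set.range (fun x : ℝ => OnePoint.some (x : ℂ)))) = (fun w : OnePoint ℂ => γ • w) '' C})) := by
  exact Pool.Agent.T2H64.AP.core Pool.Agent.T2H64.AP.hTG Pool.Agent.T2H64.AP.hQD Pool.Agent.T2H64.AP.hTB
    Pool.Agent.T2H64.AP.hTC Pool.Agent.T2H64.AP.hGR Pool.Agent.T2H64.AP.hSQ Pool.Agent.T2H64.AP.hPG
    Pool.Agent.T2H64.AP.hLU Pool.Agent.T2H64.AP.hLD Pool.Agent.T2H64.AP.hFC Pool.Agent.T2H64.AP.hFD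
    Pool.Agent.T2H64.AP.hGE Pool.Agent.T2H64.AP.hSE

end Pool.Agent.S06166
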