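import Pool.Statements.S06190
import Pool.Agent.U705.JFin

set_option autoImplicit false
open scoped CStarMatrix
open Pool Pool.MP_cdaa24_an

namespace Pool.Agent.S06190

/-- The negation of the preceding statement: For all C*-algebras A, B and Hilbert spaces H, every jointly completely bounded bilinear map A×B→B(H) splits as φ₁(a,b)+φ₂(b,a), with φ₁ multiplicatively (Haagerup) bounded on A×B and φ₂ multiplicatively bounded on B×A.

The counterexample has `A = B = ℓ^∞` (commutative). For an odd prime `p` and the standard character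
`ψ` of `ZMod p` let `φ_p(f,g)` be the row with the entries
`φ_p(f,g)_t = (1/p) ∑ s, ψ(-t²s) f(s) g(t-s)`, `t ∈ ZMod p`. By the Cauchy–Schwarz inequality (twice)
its joint cb norm is at most `(2p)^(1/4)`, while in every decomposition `φ_p = φ₁ + ᵗφ₂` the sum of
the two cb norms is at least `√p` (test on `∑ k, ψ(t²k) δ_k ⊗ δ_{t-k}`). The example is the direct sum
of the `φ_p / (2p)^(1/4)`. -/
theorem result :
    ¬ (∀ (A B H : Type) [NonUnitalCStarAlgebra A] [PartialOrder A] [StarOrderedRing A]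
      [NonUnitalCStarAlgebra B] [PartialOrder B] [StarOrderedRing B]
      [NormedAddCommGroup H] [InnerProductSpace ℂ H] [CompleteSpace H]
      (φ : A →ₗ[ℂ] B →ₗ[ℂ] (H →L[ℂ] H)),
      (∃ C : ℝ, ∀ (n m : ℕ) (a : CStarMatrix (Fin n) (Fin n) A)
          (b : CStarMatrix (Fin m) (Fin m) B) (x : Fin n × Fin m → H),
          ∑ p : Fin n × Fin m, ‖∑ q : Fin n × Fin m, φ (a p.1 q.1) (b p.2 q.2) (x q)‖ ^ 2
            ≤ (C * ‖a‖ * ‖b‖) ^ 2 * ∑ q : Fin n × Fin m, ‖x q‖ ^ 2) →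
      ∃ (φ₁ : A →ₗ[ℂ] B →ₗ[ℂ] (H →L[ℂ] H)) (φ₂ : B →ₗ[ℂ] A →ₗ[ℂ] (H →L[ℂ] H)),
        (∃ C : ℝ, ∀ (n : ℕ) (a : CStarMatrix (Fin n) (Fin n) A)
            (b : CStarMatrix (Fin n) (Fin n) B) (x : Fin n → H),
            ∑ i : Fin n, ‖∑ j : Fin n, ∑ k : Fin n, φ₁ (a i k) (b k j) (x j)‖ ^ 2
              ≤ (C * ‖a‖ * ‖b‖) ^ 2 * ∑ j : Fin n, ‖x j‖ ^ 2) ∧
        (∃ C : ℝ, ∀ (n : ℕ) (b : CStarMatrix (Fin n) (Fin n) B)
            (a : CStarMatrix (Fin n) (Fin n) A) (x : Fin n → H),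
            ∑ i : Fin n, ‖∑ j : Fin n, ∑ k : Fin n, φ₂ (b i k) (a k j) (x j)‖ ^ 2
              ≤ (C * ‖b‖ * ‖a‖) ^ 2 * ∑ j : Fin n, ‖x j‖ ^ 2) ∧
        ∀ (a : A) (b : B), φ a b = φ₁ a b + φ₂ b a) := by
  intro h
  letI : PartialOrder (BoundedContinuousFunction U705.Idx ℂ) :=
    CStarAlgebra.spectralOrder (BoundedContinuousFunction U705.Idx ℂ)
  haveI : StarOrderedRing (BoundedContinuousFunction U705.Idx ℂ) :=
    CStarAlgebra.spectralOrderedRing (BoundedContinuousFunction U705.Idx ℂ)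
  obtain ⟨φ₁, φ₂, ⟨C₁, h₁⟩, ⟨C₂, h₂⟩, h₃⟩ :=
    h (BoundedContinuousFunction U705.Idx ℂ) (BoundedContinuousFunction U705.Idx ℂ) U705.HH
      (U705.Phi U705.bddPts) ⟨1, U705.Phi_jcb U705.bddPts⟩
  exact U705.no_dec U705.bddPts φ₁ φ₂ C₁ C₂ h₁ h₂ h₃

end Pool.Agent.S06190
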