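import Pool.Statements.S06395
import Pool.Agent.U592.KR.CaseB

set_option autoImplicit false
open MeasureTheory Polynomial
open Pool Pool.MP_dd438b_an

namespace Pool.Agent.S06395

/-- If real polynomials pₙ of degree n are orthogonal for both ∫fg dφ and ∫fg dφ+∫f'g' dψ+∫f''g'' dη (η≠0, φ infinite support, finite moments), then some pₙ(ax+b) is orthogonal for a classical or Krall-type measure. -/
theorem result :
  ∀ (φ ψ η : MeasureTheory.Measure ℝ) (p : ℕ → Polynomial ℝ),
    (∀ k : ℕ, MeasureTheory.Integrable (fun x : ℝ => x ^ k) φ) →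
    (∀ k : ℕ, MeasureTheory.Integrable (fun x : ℝ => x ^ k) ψ) →
    (∀ k : ℕ, MeasureTheory.Integrable (fun x : ℝ => x ^ k) η) →
    (∀ s : Finset ℝ, φ ((↑s : Set ℝ)ᶜ) ≠ 0) →
    η ≠ 0 →
    (∀ n : ℕ, (p n).degree = ((n : ℕ) : WithBot ℕ)) →
    (∀ n m : ℕ, n ≠ m → ∫ x, (p n).eval x * (p m).eval x ∂φ = 0) →
    (∀ n : ℕ, ∫ x, (p n).eval x * (p n).eval x ∂φ ≠ 0) →
    (∀ n m : ℕ, n ≠ m →
      (∫ x, (p n).eval x * (p m).eval x ∂φ)
        + (∫ x, (Polynomial.derivative (p n)).eval x
              * (Polynomial.derivative (p m)).eval x ∂ψ)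
        + (∫ x, (Polynomial.derivative (Polynomial.derivative (p n))).eval x
              * (Polynomial.derivative (Polynomial.derivative (p m))).eval x ∂η) = 0) →
    (∀ n : ℕ,
      (∫ x, (p n).eval x * (p n).eval x ∂φ)
        + (∫ x, (Polynomial.derivative (p n)).eval x
              * (Polynomial.derivative (p n)).eval x ∂ψ)
        + (∫ x, (Polynomial.derivative (Polynomial.derivative (p n))).eval x
              * (Polynomial.derivative (Polynomial.derivative (p n))).eval x ∂η) ≠ 0) →
    ∃ μ : MeasureTheory.Measure ℝ,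
      ((∃ α β : ℝ, -1 < α ∧ -1 < β ∧
          μ = MeasureTheory.volume.withDensity (fun x : ℝ => ENNReal.ofReal
            ((Set.Icc (-1 : ℝ) 1).indicator (fun y : ℝ => (1 - y) ^ α * (1 + y) ^ β) x)))
        ∨ (∃ α : ℝ, -1 < α ∧
          μ = MeasureTheory.volume.withDensity (fun x : ℝ => ENNReal.ofReal
            ((Set.Ioi (0 : ℝ)).indicator (fun y : ℝ => y ^ α * Real.exp (-y)) x)))
        ∨ (μ = MeasureTheory.volume.withDensity (fun x : ℝ => ENNReal.ofReal
            (Real.exp (-(x ^ 2)))))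
        ∨ (∃ A : ℝ, 0 < A ∧
          μ = MeasureTheory.volume.restrict (Set.Icc (-1 : ℝ) 1)
            + ENNReal.ofReal (1 / A) • (MeasureTheory.Measure.dirac (-1 : ℝ)
                + MeasureTheory.Measure.dirac (1 : ℝ)))
        ∨ (∃ R : ℝ, 0 < R ∧
          μ = MeasureTheory.volume.withDensity (fun x : ℝ => ENNReal.ofReal
            ((Set.Ioi (0 : ℝ)).indicator (fun y : ℝ => Real.exp (-y)) x))
            + ENNReal.ofReal (1 / R) • MeasureTheory.Measure.dirac (0 : ℝ))
        ∨ (∃ α M : ℝ, -1 < α ∧ 0 < M ∧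
          μ = MeasureTheory.volume.withDensity (fun x : ℝ => ENNReal.ofReal
            ((Set.Ico (0 : ℝ) 1).indicator (fun y : ℝ => (1 - y) ^ α) x))
            + ENNReal.ofReal (1 / M) • MeasureTheory.Measure.dirac (0 : ℝ)))
      ∧ ∃ a b : ℝ, a ≠ 0 ∧
        (∀ n : ℕ, ((p n).comp (Polynomial.C a * Polynomial.X + Polynomial.C b)).degree
            = ((n : ℕ) : WithBot ℕ)) ∧
        (∀ n m : ℕ, n ≠ m →
          ∫ x, ((p n).comp (Polynomial.C a * Polynomial.X + Polynomial.C b)).eval x
            * ((p m).comp (Polynomial.C a * Polynomial.X + Polynomial.C b)).eval x ∂μ = 0) ∧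
        (∀ n : ℕ,
          ∫ x, ((p n).comp (Polynomial.C a * Polynomial.X + Polynomial.C b)).eval x
            * ((p n).comp (Polynomial.C a * Polynomial.X + Polynomial.C b)).eval x ∂μ ≠ 0) := by
  intro φ ψ η p hφ hψ hη hinf hη0 hp ho hn hs _
  have hJ : ∀ n m : ℕ, ∫ x, (p n).eval x * (p m).eval x ∂φ = Pool.Agent.U592.KR.J φ (p n * p m) := by
    intro n m
    unfold Pool.Agent.U592.KR.J
    simp only [Polynomial.eval_mul]
  obtain ⟨ρ, τ, ω, δ, hFE⟩ := Pool.Agent.U592.KR.exists_FE hφ hψ hη hp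
    (fun n m hnm => by rw [← hJ]; exact ho n m hnm) (fun n => by rw [← hJ]; exact hn n)
    (fun n m hnm => by
      have h1 := hs n m hnm
      rw [ho n m hnm, zero_add] at h1
      unfold Pool.Agent.U592.KR.SB Pool.Agent.U592.KR.J
      simpa only [Polynomial.eval_mul] using h1)
  obtain ⟨R, hR⟩ := Pool.Agent.U592.KR.Bi.exists hFE hη0 hinf
  obtain ⟨μ, hμ, A, B, K, hA, hK, hf⟩ := Pool.Agent.U592.KR.classify hR
  have key : ∀ n m : ℕ, ∫ x, (p n).eval x * (p m).eval x ∂φ
      = K * ∫ x, ((p n).comp (Polynomial.C A * Polynomial.X + Polynomial.C B)).eval x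
            * ((p m).comp (Polynomial.C A * Polynomial.X + Polynomial.C B)).eval x ∂μ := by
    intro n m
    rw [hJ, hf]
    unfold Pool.Agent.U592.KR.J
    simp only [Polynomial.mul_comp, Polynomial.eval_mul]
  refine ⟨μ, hμ, A, B, hA, ?_, ?_, ?_⟩
  · intro n
    have hpn : (p n).natDegree = n := Polynomial.natDegree_eq_of_degree_eq_some (hp n)
    have hne : (p n) ≠ 0 := by
      intro h0
      have h1 := hp n
      rw [h0, Polynomial.degree_zero] at h1
      exact absurd h1 (by simp)
    have hl : (Polynomial.C A * Polynomial.X + Polynomial.C B).natDegree = 1 :=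
      Polynomial.natDegree_linear hA
    have h1 : ((p n).comp (Polynomial.C A * Polynomial.X + Polynomial.C B)).natDegree = n := by
      rw [Polynomial.natDegree_comp, hl, hpn, mul_one]
    have h2 : (p n).comp (Polynomial.C A * Polynomial.X + Polynomial.C B) ≠ 0 := by
      intro h0
      have h3 := Polynomial.leadingCoeff_comp (p := p n)
        (q := Polynomial.C A * Polynomial.X + Polynomial.C B) (by rw [hl]; norm_num)
      rw [h0, Polynomial.leadingCoeff_zero] at h3
      have h4 : (Polynomial.C A * Polynomial.X + Polynomial.C B).leadingCoeff ≠ 0 := by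
        rw [Polynomial.leadingCoeff_ne_zero]
        intro h5
        rw [h5] at hl
        simp at hl
      exact mul_ne_zero (Polynomial.leadingCoeff_ne_zero.2 hne) (pow_ne_zero _ h4) h3.symm
    rw [Polynomial.degree_eq_natDegree h2, h1]
  · intro n m hnm
    have h1 := key n m
    rw [ho n m hnm] at h1
    exact (mul_eq_zero.1 h1.symm).resolve_left hK
  · intro n h0
    have h1 := key n n
    rw [h0, mul_zero] at h1
    exact hn n h1

end Pool.Agent.S06395
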