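import Pool.Statements.S06444
import Pool.Agent.U705.ONLNoA
import Pool.Agent.U705.ONLOne

set_option autoImplicit false
open MeasureTheory
open scoped ENNReal
open Pool Pool.MP_e081a1_an

namespace Pool.Agent.S06444

/-- points of the box space are uniformly separated -/
lemma box_sep (G : ∀ n : ℕ, SimpleGraph (Fin (n + 2))) (hG : ∀ n, (G n).Connected)
    {a b : U705.ONL.Box G} (h : a ≠ b) : (1 : ℝ) ≤ (U705.ONL.Box.nd G a b : ℝ) := by
  have h1 : U705.ONL.Box.nd G a b ≠ 0 := fun hc => h (U705.ONL.Box.nd_eq_zero G hG hc)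
  exact_mod_cast Nat.one_le_iff_ne_zero.2 h1

lemma box_countable (G : ∀ n : ℕ, SimpleGraph (Fin (n + 2))) : Countable (U705.ONL.Box G) := by
  apply Function.Injective.countable (f := fun a : U705.ONL.Box G => (⟨a.idx, a.pt⟩ : Σ n, Fin (n + 2)))
  rintro ⟨n, x⟩ ⟨m, y⟩ h
  simp only [Sigma.mk.injEq] at h
  obtain ⟨h1, h2⟩ := h
  subst h1
  simpa using h2


/-- The negation of the preceding statement: For every p in [1,∞) other than 2, every bounded geometry metric space with the p-operator norm localization property (ℓ^p-valued L^p, all nonzero locally finite Borel measures) has Yu's property A. -/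
theorem result :
    ¬ (∀ (p : ℝ≥0∞) [Fact (1 ≤ p)], p ≠ ⊤ → p ≠ 2 →
    ∀ (X : Type) [MetricSpace X] [MeasurableSpace X] [BorelSpace X],
      (∀ R : ℝ, 0 < R → ∃ N : ℕ, ∀ x : X,
          (Metric.ball x R).Finite ∧ (Metric.ball x R).ncard ≤ N) →
      (∃ c : ℝ, 0 < c ∧ c ≤ 1 ∧ ∃ f : ℕ → ℕ, Monotone f ∧
        ∀ (ν : Measure X) [IsLocallyFiniteMeasure ν], ν ≠ 0 → ∀ r : ℕ,
          ∀ T : Lp (lp (fun _ : ℕ => ℝ) p) p ν →L[ℝ] Lp (lp (fun _ : ℕ => ℝ) p) p ν,
            (∀ x y : X, (r : ℝ) < dist x y →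
              ∃ U V : Set X, IsOpen U ∧ IsOpen V ∧ x ∈ U ∧ y ∈ V ∧
                ∀ g : Lp (lp (fun _ : ℕ => ℝ) p) p ν,
                  (∀ᵐ z ∂ν, z ∉ U → ⇑g z = 0) → ∀ᵐ z ∂ν, z ∈ V → ⇑(T g) z = 0) →
            ∃ ξ : Lp (lp (fun _ : ℕ => ℝ) p) p ν, ξ ≠ 0 ∧
              (∃ S : Set X, (∀ a ∈ S, ∀ b ∈ S, dist a b ≤ (f r : ℝ)) ∧
                ∀ᵐ z ∂ν, z ∉ S → ⇑ξ z = 0) ∧
              c * ‖T‖ * ‖ξ‖ ≤ ‖T ξ‖) →
      (∀ R : ℝ, 0 < R → ∀ ε : ℝ, 0 < ε →
        ∃ S : ℝ, ∃ A : X → Set (X × ℕ),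
          (∀ x, (A x).Finite) ∧ (∀ x, (x, 0) ∈ A x) ∧
          (∀ x, ∀ w ∈ A x, dist w.1 x ≤ S) ∧
          ∀ x y, dist x y < R →
            ((symmDiff (A x) (A y)).ncard : ℝ) < ε * ((A x ∩ A y).ncard : ℝ))) := by
  intro H
  obtain ⟨G, hG, hdeg, hexp⟩ := U705.ONL.exists_G
  let X := U705.ONL.Box G
  letI : MetricSpace X := U705.ONL.Box.metric G hG
  letI : MeasurableSpace X := ⊤
  have hdist : ∀ a b : X, dist a b = (U705.ONL.Box.nd G a b : ℝ) := fun _ _ => rfl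
  haveI : Countable X := box_countable G
  haveI : DiscreteTopology X := by
    apply DiscreteTopology.of_forall_le_dist (r := 1) one_pos
    intro a b hab
    exact box_sep G hG hab
  haveI : BorelSpace X := ⟨by
    apply le_antisymm _ le_top
    intro s _
    exact MeasurableSpace.measurableSet_generateFrom (isOpen_discrete s)⟩
  haveI : MeasurableSingletonClass X := ⟨fun x => MeasurableSpace.measurableSet_top⟩
  have hA := H 1 ENNReal.one_ne_top (by norm_num) X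
    (by
      intro R hR
      obtain ⟨N, hN⟩ := U705.ONL.Box.near_card G hG hdeg ⌈R⌉₊
      refine ⟨N, fun x => ?_⟩
      have hsub : Metric.ball x R ⊆ {b : X | U705.ONL.Box.nd G b x ≤ ⌈R⌉₊} := by
        intro b hb
        rw [Metric.mem_ball, hdist] at hb
        have h4 : (U705.ONL.Box.nd G b x : ℝ) ≤ ((⌈R⌉₊ : ℕ) : ℝ) := hb.le.trans (Nat.le_ceil R)
        exact_mod_cast h4
      exact ⟨(hN x).1.subset hsub, (Set.ncard_le_ncard hsub (hN x).1).trans (hN x).2⟩)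
    (by
      refine ⟨1 / 2, by norm_num, by norm_num, fun _ => 0, monotone_const, ?_⟩
      intro ν hν hν0 r T _
      haveI : Nontrivial (lp (fun _ : ℕ => ℝ) (1 : ℝ≥0∞)) :=
        ⟨⟨lp.single 1 0 (1 : ℝ), 0, by
          intro hc
          have h1 := congrArg (fun g : lp (fun _ : ℕ => ℝ) (1 : ℝ≥0∞) => g 0) hc
          simp at h1⟩⟩
      obtain ⟨ξ, h1, ⟨x, h2⟩, h3⟩ := U705.ONL.exists_point (ν := ν)
        (fun x => by
          obtain ⟨s, hs, hs'⟩ := hν.finiteAtNhds x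
          exact ((measure_mono (Set.singleton_subset_iff.2 (mem_of_mem_nhds hs))).trans_lt hs').ne)
        hν0 T
      refine ⟨ξ, h1, ⟨{x}, ?_, h2⟩, h3⟩
      rintro a ha b hb
      rw [Set.mem_singleton_iff] at ha hb
      rw [ha, hb, dist_self]
      norm_num)
    2 two_pos (1 / 200) (by norm_num)
  obtain ⟨S, A, h1, h2, h3, h4⟩ := hA
  exact U705.ONL.no_A G hG hdeg hexp S A h1 h2 h3 h4

end Pool.Agent.S06444
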