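import Pool.Statements.S06524
import Pool.Agent.U139.Riv.Wave

set_option autoImplicit false
open MeasureTheory Filter Topology Metric
open Pool Pool.MP_e7f1de_an

namespace Pool.Agent.S06524

open Pool.Agent.U139.Riv Set

/-- the integral of the dual bump vanishes -/
lemma Psi_int : ∫ x in ball (0 : E2) 1, Ψ (x 0, x 1) = 0 := by
  have hodd : ∀ x : E2, Ψ ((-x) 0, (-x) 1) = - Ψ (x 0, x 1) := by
    intro x
    have h0 : (-x) 0 = - x 0 := rfl
    have h1 : (-x) 1 = - x 1 := rfl
    unfold Ψ ψ1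
    rw [h0, h1, ψ2_neg, abs_neg]
    ring
  have e : ∫ x, (ball (0 : E2) 1).indicator (fun x => Ψ (x 0, x 1)) x =
      ∫ x, (ball (0 : E2) 1).indicator (fun x => Ψ (x 0, x 1)) (-x) :=
    (integral_neg_eq_self _ volume).symm
  have e2 : ∀ x, (ball (0 : E2) 1).indicator (fun x => Ψ (x 0, x 1)) (-x) =
      - (ball (0 : E2) 1).indicator (fun x => Ψ (x 0, x 1)) x := by
    intro x
    by_cases hx : x ∈ ball (0 : E2) 1
    · have hx' : -x ∈ ball (0 : E2) 1 := by simpa using hx
      rw [indicator_of_mem hx, indicator_of_mem hx', hodd]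
    · have hx' : -x ∉ ball (0 : E2) 1 := by simpa using hx
      rw [indicator_of_notMem hx, indicator_of_notMem hx', neg_zero]
  simp_rw [e2] at e
  rw [integral_neg, integral_indicator measurableSet_ball] at e
  linarith

lemma Psi_supp_ball (x : E2) (hx : Ψ (x 0, x 1) ≠ 0) : x ∈ ball (0 : E2) 1 := by
  obtain ⟨h1, _, h3⟩ := Ψ_supp hx
  rw [mem_ball, dist_zero_right]
  have h4 := norm_sq x
  have h5 : x 0 ^ 2 ≤ (1 / 8) ^ 2 := by
    rw [← sq_abs]
    gcongr
  have h6 : x 1 ^ 2 ≤ (1 / 2) ^ 2 := by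
    rw [← sq_abs]
    gcongr
  nlinarith [norm_nonneg x]

lemma Psi_meas : Measurable (fun x : E2 => Ψ (x 0, x 1)) :=
  Ψ_meas.comp (by fun_prop : Measurable (fun x : E2 => (x 0, x 1)))

/-- a bound on the mean oscillation bounds the pairing with the dual bump -/
lemma osc_bound (g : E2 → ℝ) (C : ℝ) (hg : IntegrableOn g (ball (0 : E2) 1))
    (hosc : (⨍ x in ball (0 : E2) 1, |g x - ⨍ y in ball (0 : E2) 1, g y|) ≤ C) :
    |∫ x : E2, Ψ (x 0, x 1) * g x| ≤ C * volume.real (ball (0 : E2) 1) := by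
  set m := ⨍ y in ball (0 : E2) 1, g y with hm
  have hvol : 0 < volume.real (ball (0 : E2) 1) := by
    rw [Measure.real]
    exact ENNReal.toReal_pos (measure_ball_pos _ _ one_pos).ne' measure_ball_lt_top.ne
  have hfin : volume (ball (0 : E2) 1) ≠ ⊤ := measure_ball_lt_top.ne
  have e1 : ∫ x : E2, Ψ (x 0, x 1) * g x = ∫ x in ball (0 : E2) 1, Ψ (x 0, x 1) * g x := by
    rw [← integral_indicator measurableSet_ball]
    congr 1
    ext x
    by_cases hx : x ∈ ball (0 : E2) 1
    · rw [indicator_of_mem hx]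
    · rw [indicator_of_notMem hx]
      by_contra hne
      exact hx (Psi_supp_ball x (left_ne_zero_of_mul hne))
  have hgm : IntegrableOn (fun x => g x - m) (ball (0 : E2) 1) := hg.sub (integrableOn_const hfin)
  have i1 : IntegrableOn (fun x : E2 => Ψ (x 0, x 1) * (g x - m)) (ball (0 : E2) 1) := by
    refine hgm.norm.mono' (Psi_meas.aestronglyMeasurable.mul hgm.aestronglyMeasurable)
      (Eventually.of_forall fun x => ?_)
    rw [norm_mul, Real.norm_eq_abs (Ψ _)]
    exact mul_le_of_le_one_left (norm_nonneg _) (Ψ_abs _)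
  have i2 : IntegrableOn (fun x : E2 => m * Ψ (x 0, x 1)) (ball (0 : E2) 1) := by
    refine Integrable.const_mul ?_ m
    refine Integrable.mono' (g := fun _ => (1 : ℝ)) (integrableOn_const hfin)
      Psi_meas.aestronglyMeasurable (Eventually.of_forall fun x => ?_)
    rw [Real.norm_eq_abs]
    exact Ψ_abs _
  have e2 : ∫ x in ball (0 : E2) 1, Ψ (x 0, x 1) * g x =
      ∫ x in ball (0 : E2) 1, Ψ (x 0, x 1) * (g x - m) := by
    have : ∀ x : E2, Ψ (x 0, x 1) * g x = Ψ (x 0, x 1) * (g x - m) + m * Ψ (x 0, x 1) := by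
      intro x
      ring
    simp_rw [this]
    rw [integral_add i1 i2, integral_const_mul, Psi_int, mul_zero, add_zero]
  rw [e1, e2]
  have h1 : |∫ x in ball (0 : E2) 1, Ψ (x 0, x 1) * (g x - m)| ≤
      ∫ x in ball (0 : E2) 1, |g x - m| := by
    rw [← Real.norm_eq_abs]
    refine norm_integral_le_of_norm_le hgm.abs (Eventually.of_forall fun x => ?_)
    rw [norm_mul, Real.norm_eq_abs (Ψ _), Real.norm_eq_abs]
    exact mul_le_of_le_one_left (abs_nonneg _) (Ψ_abs _)
  refine h1.trans ?_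
  rw [setAverage_eq, smul_eq_mul, inv_mul_le_iff₀ hvol] at hosc
  linarith [hosc]

/-- the space of angular profiles -/
noncomputable abbrev μ : Measure ℝ := volume.restrict (Ioo (0 : ℝ) 1)

/-- the index set of the family of functionals -/
abbrev Idx := {f : E2 → ℝ // ∃ R, Test R f}

lemma memΦ (i : Idx) : MemLp (Φ i.1) 2 μ := by
  obtain ⟨R, hR⟩ := i.2
  exact MemLp.of_bound (Φ_meas hR).aestronglyMeasurable _ (Eventually.of_forall fun v => by
    rw [Real.norm_eq_abs]
    exact Φ_bound hR v)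

/-- the functionals -/
noncomputable def fam (i : Idx) : Lp ℝ 2 μ →L[ℝ] ℝ := innerSL ℝ ((memΦ i).toLp (Φ i.1))

lemma fam_apply (i : Idx) (ω : Lp ℝ 2 μ) :
    fam i ω = ∫ v, (Ioo (0 : ℝ) 1).indicator (fun v => ω v) v * Φ i.1 v := by
  unfold fam
  rw [innerSL_apply_apply, L2.inner_def]
  have h1 : ∫ v, (Ioo (0 : ℝ) 1).indicator (fun v => ω v) v * Φ i.1 v =
      ∫ v in Ioo (0 : ℝ) 1, ω v * Φ i.1 v := by
    rw [← integral_indicator measurableSet_Ioo]
    congr 1
    ext v
    by_cases hv : v ∈ Ioo (0 : ℝ) 1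
    · rw [indicator_of_mem hv, indicator_of_mem hv]
    · rw [indicator_of_notMem hv, indicator_of_notMem hv, zero_mul]
  rw [h1]
  refine integral_congr_ae ?_
  filter_upwards [(memΦ i).coeFn_toLp] with v hv
  rw [hv]
  simp

lemma fam_norm (i : Idx) : ‖fam i‖ ^ 2 = N2 i.1 := by
  unfold fam
  rw [innerSL_apply_norm, ← real_inner_self_eq_norm_sq, L2.inner_def]
  unfold N2
  refine integral_congr_ae ?_
  filter_upwards [(memΦ i).coeFn_toLp] with v hv
  rw [hv]
  simp [sq]

/-- The negation of the preceding statement: For every kernel homogeneous of degree -n, mean zero on the sphere, with angular part in L log L, there is C such that the principal-value operator sends each bounded compactly supported f with ∣f∣≤M to a function of BMO norm at most C·M. -/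
theorem result :
    ¬ (∀ (n : ℕ), 1 ≤ n →
    ∀ (k : EuclideanSpace ℝ (Fin n) → ℝ), Measurable k →
    (∀ x : EuclideanSpace ℝ (Fin n), x ≠ 0 → ∀ t : ℝ, 0 < t →
        k (t • x) = t ^ (-(n : ℤ)) * k x) →
    IntegrableOn k {x : EuclideanSpace ℝ (Fin n) | 1 ≤ ‖x‖ ∧ ‖x‖ ≤ 2} volume →
    (∫ x in {x : EuclideanSpace ℝ (Fin n) | 1 ≤ ‖x‖ ∧ ‖x‖ ≤ 2}, k x) = 0 →
    IntegrableOn (fun x => |k x| * max 0 (Real.log |k x|))
        {x : EuclideanSpace ℝ (Fin n) | 1 ≤ ‖x‖ ∧ ‖x‖ ≤ 2} volume →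
    ∃ C : ℝ, ∀ (f : EuclideanSpace ℝ (Fin n) → ℝ) (M : ℝ),
      Measurable f → HasCompactSupport f → (∀ x, |f x| ≤ M) →
      ∀ g : EuclideanSpace ℝ (Fin n) → ℝ,
        (∀ᵐ x ∂(volume : Measure (EuclideanSpace ℝ (Fin n))),
          Tendsto (fun ε : ℝ => ∫ y in {y : EuclideanSpace ℝ (Fin n) | ε < ‖y‖}, k y * f (x - y))
            (𝓝[>] 0) (𝓝 (g x))) →
        ∀ (c : EuclideanSpace ℝ (Fin n)) (r : ℝ), 0 < r →
          IntegrableOn g (ball c r) volume ∧
          (⨍ x in ball c r, |g x - ⨍ y in ball c r, g y|) ≤ C * M) := by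
  intro H
  have key : ∀ ω : Lp ℝ 2 μ, ∃ C, ∀ i : Idx, ‖fam i ω‖ ≤ C := by
    intro ω
    set h : ℝ → ℝ := (Ioo (0 : ℝ) 1).indicator (fun v => ω v) with hh
    have hs : Supp h := fun u hu => indicator_of_notMem hu _
    have hm : Measurable h := (Lp.stronglyMeasurable ω).measurable.indicator measurableSet_Ioo
    have hi : Integrable h := by
      rw [hh, integrable_indicator_iff measurableSet_Ioo]
      exact (Lp.memLp ω).integrable one_le_two
    have hi2 : Integrable (fun u => h u ^ 2) := by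
      have e : (fun u => h u ^ 2) = (Ioo (0 : ℝ) 1).indicator (fun v => (ω v) ^ 2) := by
        ext u
        rw [hh]
        by_cases hu : u ∈ Ioo (0 : ℝ) 1
        · rw [indicator_of_mem hu, indicator_of_mem hu]
        · rw [indicator_of_notMem hu, indicator_of_notMem hu]
          norm_num
      rw [e, integrable_indicator_iff measurableSet_Ioo]
      exact (Lp.memLp ω).integrable_sq
    obtain ⟨C, hC⟩ := H 2 (by norm_num) (ker h) (ker_meas hm)
      (fun x _ t ht => ker_homog h x t ht) (ker_ann_integrable hs hm hi) (ker_ann_int h)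
      (ker_llogl hs hm hi2)
    refine ⟨C * volume.real (ball (0 : E2) 1), fun i => ?_⟩
    obtain ⟨R, hR⟩ := i.2
    obtain ⟨h1, h2⟩ := hC i.1 1 hR.meas hR.compact hR.bound (G h i.1)
      (Eventually.of_forall fun x => pv hs hm hi hR x) 0 1 one_pos
    rw [mul_one] at h2
    rw [fam_apply, ← pairing hs hm hi hR, Real.norm_eq_abs]
    exact osc_bound _ C h1 h2
  obtain ⟨C, hC⟩ := banach_steinhaus key
  obtain ⟨J, hJ⟩ := exists_nat_gt (C ^ 2 / ((1 / 2912) ^ 2 / 2))
  obtain ⟨R, _, f, hf, hlow⟩ := unbounded J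
  have h1 := hC ⟨f, R, hf⟩
  have h2 := fam_norm ⟨f, R, hf⟩
  have h3 : ‖fam ⟨f, R, hf⟩‖ ^ 2 ≤ C ^ 2 := by gcongr
  rw [h2] at h3
  rw [div_lt_iff₀ (by positivity)] at hJ
  simp only at h3
  linarith

end Pool.Agent.S06524
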