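import Pool.Statements.S06580
import Pool.Agent.Q203.ShiftC0

set_option autoImplicit false
open Filter Topology MeasureTheory
open Pool Pool.MP_ec63c8_an

namespace Pool.Agent.S06580

/-- The negation of the preceding statement: For every bounded strongly continuous semigroup T on a complex Banach space and every x, T(t)x tends to 0 iff a times the integral over s of the squared norm of the Laplace-transform resolvent at a+is applied to x tends to 0 as a tends to 0 from above. -/
theorem result :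
    ¬ (∀ (X : Type) [NormedAddCommGroup X] [NormedSpace ℂ X] [CompleteSpace X]
      (T : ℝ → (X →L[ℂ] X)),
      T 0 = 1 →
      (∀ s t : ℝ, 0 ≤ s → 0 ≤ t → T (s + t) = T s * T t) →
      (∀ x : X, ContinuousOn (fun t : ℝ => T t x) (Set.Ici (0 : ℝ))) →
      (∃ M : ℝ, ∀ t : ℝ, 0 ≤ t → ‖T t‖ ≤ M) →
      ∀ x : X,
        (Tendsto (fun t : ℝ => T t x) atTop (𝓝 0) ↔
          Tendsto
            (fun a : ℝ => ENNReal.ofReal a *
              ∫⁻ s : ℝ,
                ((‖∫ t in Set.Ioi (0 : ℝ),
                    Complex.exp (-(((a : ℂ) + (s : ℂ) * Complex.I) * (t : ℂ))) • T t x‖₊ : ENNReal)) ^ 2)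
            (𝓝[>] (0 : ℝ)) (𝓝 0))) := by
  intro H
  apply Pool.Agent.Q203.ShiftC0.not_stable
  refine (H (ZeroAtInftyContinuousMap ℝ ℂ) Pool.Agent.Q203.ShiftC0.T Pool.Agent.Q203.ShiftC0.T_zero
    (fun s t _ _ => Pool.Agent.Q203.ShiftC0.T_add s t)
    (fun x => (Pool.Agent.Q203.ShiftC0.T_cont x).continuousOn)
    ⟨1, fun t _ => ContinuousLinearMap.opNorm_le_bound _ zero_le_one
      (fun y => by rw [Pool.Agent.Q203.ShiftC0.T_isometry, one_mul])⟩
    Pool.Agent.Q203.ShiftC0.f₀).2 ?_
  exact Pool.Agent.Q203.ShiftC0.condition_holds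

end Pool.Agent.S06580
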