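import Pool.Statements.S07091

set_option autoImplicit false
set_option maxHeartbeats 4000000
open Pool Pool.MP_0a407b_co

namespace Pool.Agent.S07091

open Finset

section averaging

variable {n : ℕ}

/-- sum over ordered pairs -/
noncomputable def ee (a : Fin n → Fin n → ℝ) (A B : Finset (Fin n)) : ℝ := ∑ u ∈ A, ∑ v ∈ B, a u v

lemma ee_filter (a : Fin n → Fin n → ℝ) (U T : Finset (Fin n)) (hT : T ⊆ U) :
    ee a T T = ∑ u ∈ U, ∑ v ∈ U, if {u, v} ⊆ T then a u v else 0 := by
  classical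
  unfold ee
  rw [← Finset.sum_subset hT (f := fun u => ∑ v ∈ U, if {u, v} ⊆ T then a u v else 0)]
  · refine Finset.sum_congr rfl fun u hu => ?_
    rw [← Finset.sum_subset hT (f := fun v => if {u, v} ⊆ T then a u v else 0)]
    · refine Finset.sum_congr rfl fun v hv => ?_
      rw [if_pos]
      intro x hx
      rcases Finset.mem_insert.1 hx with rfl | hx
      · exact hu
      · rw [Finset.mem_singleton.1 hx]; exact hv
    · intro v _ hv
      rw [if_neg]
      intro h
      exact hv (h (by simp))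
  · intro u _ hu
    refine Finset.sum_eq_zero fun v _ => ?_
    rw [if_neg]
    intro h
    exact hu (h (by simp))

lemma sum_in (a : Fin n → Fin n → ℝ) (ha : ∀ u, a u u = 0) (U : Finset (Fin n)) (b : ℕ)
    (hb : 2 ≤ b) :
    ∑ T ∈ U.powersetCard b, ee a T T = ((U.card - 2).choose (b - 2) : ℝ) * ee a U U := by
  classical
  rw [Finset.sum_congr rfl fun T hT => ee_filter a U T (Finset.mem_powersetCard.1 hT).1]
  rw [Finset.sum_comm]
  unfold ee
  rw [Finset.mul_sum]
  refine Finset.sum_congr rfl fun u hu => ?_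
  rw [Finset.sum_comm, Finset.mul_sum]
  refine Finset.sum_congr rfl fun v hv => ?_
  rw [← Finset.sum_filter, Finset.sum_const, nsmul_eq_mul]
  by_cases huv : u = v
  · subst huv
    rw [ha, mul_zero, mul_zero]
  · congr 1
    have h2 : ({u, v} : Finset (Fin n)).card = 2 := Finset.card_pair huv
    have hsub : ({u, v} : Finset (Fin n)) ⊆ U := by
      intro x hx
      rcases Finset.mem_insert.1 hx with rfl | hx
      · exact hu
      · rw [Finset.mem_singleton.1 hx]; exact hv
    have := Finset.card_filter_powersetCard_subset {u, v} U b hsub (by rw [h2]; exact hb)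
    rw [h2] at this
    exact_mod_cast this

lemma ee_filter_compl (a : Fin n → Fin n → ℝ) (U T : Finset (Fin n)) :
    ee a (U \ T) (U \ T) = ∑ u ∈ U, ∑ v ∈ U, if (u ∉ T ∧ v ∉ T) then a u v else 0 := by
  classical
  unfold ee
  rw [← Finset.sum_subset (Finset.sdiff_subset (s := U) (t := T))
    (f := fun u => ∑ v ∈ U, if (u ∉ T ∧ v ∉ T) then a u v else 0)]
  · refine Finset.sum_congr rfl fun u hu => ?_
    rw [← Finset.sum_subset (Finset.sdiff_subset (s := U) (t := T))
      (f := fun v => if (u ∉ T ∧ v ∉ T) then a u v else 0)]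
    · refine Finset.sum_congr rfl fun v hv => ?_
      rw [if_pos]
      exact ⟨(Finset.mem_sdiff.1 hu).2, (Finset.mem_sdiff.1 hv).2⟩
    · intro v hv hv'
      rw [if_neg]
      rintro ⟨_, h⟩
      exact hv' (Finset.mem_sdiff.2 ⟨hv, h⟩)
  · intro u hu hu'
    refine Finset.sum_eq_zero fun v _ => ?_
    rw [if_neg]
    rintro ⟨h, _⟩
    exact hu' (Finset.mem_sdiff.2 ⟨hu, h⟩)

lemma sum_out (a : Fin n → Fin n → ℝ) (ha : ∀ u, a u u = 0) (U : Finset (Fin n)) (b : ℕ) :
    ∑ T ∈ U.powersetCard b, ee a (U \ T) (U \ T) = ((U.card - 2).choose b : ℝ) * ee a U U := by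
  classical
  rw [Finset.sum_congr rfl fun T _ => ee_filter_compl a U T]
  rw [Finset.sum_comm]
  unfold ee
  rw [Finset.mul_sum]
  refine Finset.sum_congr rfl fun u hu => ?_
  rw [Finset.sum_comm, Finset.mul_sum]
  refine Finset.sum_congr rfl fun v hv => ?_
  rw [← Finset.sum_filter, Finset.sum_const, nsmul_eq_mul]
  by_cases huv : u = v
  · subst huv
    rw [ha, mul_zero, mul_zero]
  · congr 1
    have h2 : ({u, v} : Finset (Fin n)).card = 2 := Finset.card_pair huv
    have hsub : ({u, v} : Finset (Fin n)) ⊆ U := by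
      intro x hx
      rcases Finset.mem_insert.1 hx with rfl | hx
      · exact hu
      · rw [Finset.mem_singleton.1 hx]; exact hv
    have hset : (U.powersetCard b).filter (fun T => u ∉ T ∧ v ∉ T) =
        (U \ {u, v}).powersetCard b := by
      ext T
      simp only [Finset.mem_filter, Finset.mem_powersetCard]
      constructor
      · rintro ⟨⟨h1, h3⟩, h4, h5⟩
        refine ⟨fun x hx => Finset.mem_sdiff.2 ⟨h1 hx, ?_⟩, h3⟩
        intro hx'
        rcases Finset.mem_insert.1 hx' with rfl | hx'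
        · exact h4 hx
        · rw [Finset.mem_singleton.1 hx'] at hx; exact h5 hx
      · rintro ⟨h1, h3⟩
        refine ⟨⟨fun x hx => (Finset.mem_sdiff.1 (h1 hx)).1, h3⟩, fun h => ?_, fun h => ?_⟩
        · exact (Finset.mem_sdiff.1 (h1 h)).2 (by simp)
        · exact (Finset.mem_sdiff.1 (h1 h)).2 (by simp)
    rw [hset, Finset.card_powersetCard, Finset.card_sdiff_of_subset hsub, h2]

lemma sum_cross (a : Fin n → Fin n → ℝ) (S U : Finset (Fin n)) (b : ℕ) (hb : 1 ≤ b) :
    ∑ T ∈ U.powersetCard b, ee a S T = ((U.card - 1).choose (b - 1) : ℝ) * ee a S U := by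
  classical
  unfold ee
  rw [Finset.sum_comm, Finset.mul_sum]
  refine Finset.sum_congr rfl fun u _ => ?_
  have h1 : ∀ T ∈ U.powersetCard b, ∑ v ∈ T, a u v = ∑ v ∈ U, if {v} ⊆ T then a u v else 0 := by
    intro T hT
    have hT := (Finset.mem_powersetCard.1 hT).1
    rw [← Finset.sum_subset hT (f := fun v => if {v} ⊆ T then a u v else 0)]
    · refine Finset.sum_congr rfl fun v hv => ?_
      rw [if_pos]
      exact Finset.singleton_subset_iff.2 hv
    · intro v _ hv
      rw [if_neg]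
      intro h
      exact hv (Finset.singleton_subset_iff.1 h)
  rw [Finset.sum_congr rfl h1, Finset.sum_comm, Finset.mul_sum]
  refine Finset.sum_congr rfl fun v hv => ?_
  rw [← Finset.sum_filter, Finset.sum_const, nsmul_eq_mul]
  congr 1
  have := Finset.card_filter_powersetCard_subset {v} U b (Finset.singleton_subset_iff.2 hv)
    (by rw [Finset.card_singleton]; exact hb)
  rw [Finset.card_singleton] at this
  exact_mod_cast this

/-- expansion of the pair sum over a disjoint union -/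
lemma ee_union (a : Fin n → Fin n → ℝ) (hsym : ∀ u v, a u v = a v u) (S T : Finset (Fin n))
    (hd : Disjoint S T) : ee a (S ∪ T) (S ∪ T) = ee a S S + 2 * ee a S T + ee a T T := by
  classical
  have h1 : ee a T S = ee a S T := by
    unfold ee
    rw [Finset.sum_comm]
    exact Finset.sum_congr rfl fun u _ => Finset.sum_congr rfl fun v _ => hsym v u
  have h2 : ee a (S ∪ T) (S ∪ T) = ee a S S + ee a S T + (ee a T S + ee a T T) := by
    unfold ee
    rw [Finset.sum_union hd]
    congr 1 <;> rw [← Finset.sum_add_distrib] <;>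
      exact Finset.sum_congr rfl fun u _ => Finset.sum_union hd
  rw [h2, h1]; ring

/-- the averaging step -/
lemma exists_good (a : Fin n → Fin n → ℝ) (ha : ∀ u, a u u = 0) (hsym : ∀ u v, a u v = a v u)
    (S U : Finset (Fin n)) (hd : Disjoint S U) (b : ℕ) (hb : 2 ≤ b) (hbm : b + 2 ≤ U.card) :
    ∃ T ∈ U.powersetCard b,
      ee a (S ∪ T) (S ∪ T) + ee a (U \ T) (U \ T) ≤
        ee a S S + 2 * ee a S U * ((b : ℝ) / U.card) +
          ee a U U * (((b : ℝ) * (b - 1) + (U.card - b) * (U.card - b - 1)) /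
            (U.card * (U.card - 1))) := by
  classical
  set m := U.card with hm
  have hne : (U.powersetCard b).Nonempty := Finset.powersetCard_nonempty.2 (by omega)
  have hN : 0 < m.choose b := Nat.choose_pos (by omega)
  have hNr : (0 : ℝ) < (m.choose b : ℝ) := by exact_mod_cast hN
  have hm0 : (0 : ℝ) < m := by exact_mod_cast (by omega : 0 < m)
  have hm1 : (0 : ℝ) < (m : ℝ) - 1 := by
    have : (2 : ℝ) ≤ m := by exact_mod_cast (by omega : 2 ≤ m)
    linarith
  -- binomial identities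
  have id1 : ((m - 1).choose (b - 1) : ℝ) = m.choose b * ((b : ℝ) / m) := by
    obtain ⟨m', hm'⟩ : ∃ m', m = m' + 1 := ⟨m - 1, by omega⟩
    obtain ⟨b', hb'⟩ : ∃ b', b = b' + 1 := ⟨b - 1, by omega⟩
    have := Nat.add_one_mul_choose_eq m' b'
    have h : ((m' + 1 : ℕ) : ℝ) * (m'.choose b') = ((m' + 1).choose (b' + 1)) * ((b' + 1 : ℕ) : ℝ) := by
      exact_mod_cast this
    have hmm : m - 1 = m' := by omega
    have hbb : b - 1 = b' := by omega
    have hmr : (m : ℝ) = m' + 1 := by exact_mod_cast hm'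
    have hbr : (b : ℝ) = b' + 1 := by exact_mod_cast hb'
    have hc : m.choose b = (m' + 1).choose (b' + 1) := by rw [hm', hb']
    push_cast at h
    rw [hmm, hbb, hc, mul_div_assoc', eq_div_iff hm0.ne', hmr, hbr]
    linarith
  have id2 : ((m - 2).choose (b - 2) : ℝ) = m.choose b * (((b : ℝ) * (b - 1)) / (m * (m - 1))) := by
    obtain ⟨m', hm'⟩ : ∃ m', m = m' + 2 := ⟨m - 2, by omega⟩
    obtain ⟨b', hb'⟩ : ∃ b', b = b' + 2 := ⟨b - 2, by omega⟩
    have e1 := Nat.add_one_mul_choose_eq (m' + 1) (b' + 1)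
    have e2 := Nat.add_one_mul_choose_eq m' b'
    have h1 : ((m' + 1 + 1 : ℕ) : ℝ) * ((m' + 1).choose (b' + 1)) =
      ((m' + 1 + 1).choose (b' + 1 + 1)) * ((b' + 1 + 1 : ℕ) : ℝ) := by exact_mod_cast e1
    have h2 : ((m' + 1 : ℕ) : ℝ) * (m'.choose b') =
      ((m' + 1).choose (b' + 1)) * ((b' + 1 : ℕ) : ℝ) := by exact_mod_cast e2
    have hmr : (m : ℝ) = m' + 2 := by exact_mod_cast hm'
    have hbr : (b : ℝ) = b' + 2 := by exact_mod_cast hb'
    have hmm : m - 2 = m' := by omega
    have hbb : b - 2 = b' := by omega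
    have hc : m.choose b = (m' + 1 + 1).choose (b' + 1 + 1) := by rw [hm', hb']
    rw [hmm, hbb, hc, hmr, hbr]
    push_cast at h1 h2
    have p1 : (0 : ℝ) < m' + 2 := by positivity
    have p2 : (0 : ℝ) < m' + 2 - 1 := by linarith [(Nat.cast_nonneg m' : (0 : ℝ) ≤ m')]
    rw [mul_div_assoc', eq_div_iff (by positivity)]
    have : (m' + 1 + 1 : ℝ) * ((m' + 1 : ℝ) * (m'.choose b')) =
        (m' + 1 + 1 : ℝ) * (((m' + 1).choose (b' + 1)) * (b' + 1)) := by rw [h2]
    nlinarith [this, h1]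
  have id3 : ((m - 2).choose b : ℝ) =
      m.choose b * ((((m : ℝ) - b) * (m - b - 1)) / (m * (m - 1))) := by
    obtain ⟨m', hm'⟩ : ∃ m', m = m' + 2 := ⟨m - 2, by omega⟩
    have e1 := Nat.choose_mul_succ_eq (m' + 1) b
    have e2 := Nat.choose_mul_succ_eq m' b
    have hb1 : b ≤ m' + 1 + 1 := by omega
    have hb2 : b ≤ m' + 1 := by omega
    have h1 : (((m' + 1).choose b : ℕ) : ℝ) * (m' + 1 + 1) =
        ((m' + 1 + 1).choose b : ℕ) * ((m' : ℝ) + 1 + 1 - b) := by
      have : (((m' + 1 + 1 - b : ℕ)) : ℝ) = (m' : ℝ) + 1 + 1 - b := by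
        rw [Nat.cast_sub hb1]; push_cast; ring
      rw [← this]; exact_mod_cast e1
    have h2 : ((m'.choose b : ℕ) : ℝ) * (m' + 1) =
        ((m' + 1).choose b : ℕ) * ((m' : ℝ) + 1 - b) := by
      have : (((m' + 1 - b : ℕ)) : ℝ) = (m' : ℝ) + 1 - b := by
        rw [Nat.cast_sub hb2]; push_cast; ring
      rw [← this]; exact_mod_cast e2
    have hmr : (m : ℝ) = m' + 2 := by exact_mod_cast hm'
    have hmm : m - 2 = m' := by omega
    have hc : m.choose b = (m' + 1 + 1).choose b := by rw [hm']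
    rw [hmm, hc, hmr]
    have p1 : (0 : ℝ) < m' + 2 := by positivity
    have p2 : (0 : ℝ) < m' + 2 - 1 := by linarith [(Nat.cast_nonneg m' : (0 : ℝ) ≤ m')]
    rw [mul_div_assoc', eq_div_iff (by positivity)]
    have : ((m'.choose b : ℕ) : ℝ) * (m' + 1) * (m' + 1 + 1) =
        ((m' + 1).choose b : ℕ) * ((m' : ℝ) + 1 - b) * (m' + 1 + 1) := by rw [h2]
    have h3 : (((m' + 1).choose b : ℕ) : ℝ) * (m' + 1 + 1) * ((m' : ℝ) + 1 - b) =
        ((m' + 1 + 1).choose b : ℕ) * ((m' : ℝ) + 1 + 1 - b) * ((m' : ℝ) + 1 - b) := by rw [h1]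
    nlinarith [this, h3]
  -- total
  have htot : ∑ T ∈ U.powersetCard b, (ee a (S ∪ T) (S ∪ T) + ee a (U \ T) (U \ T)) =
      (m.choose b : ℝ) * (ee a S S + 2 * ee a S U * ((b : ℝ) / m) +
          ee a U U * (((b : ℝ) * (b - 1) + (m - b) * (m - b - 1)) / (m * (m - 1)))) := by
    have h1 : ∀ T ∈ U.powersetCard b, ee a (S ∪ T) (S ∪ T) + ee a (U \ T) (U \ T) =
        ee a S S + 2 * ee a S T + ee a T T + ee a (U \ T) (U \ T) := by
      intro T hT
      rw [ee_union a hsym S T (hd.mono_right (Finset.mem_powersetCard.1 hT).1)]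
    rw [Finset.sum_congr rfl h1, Finset.sum_add_distrib, Finset.sum_add_distrib,
      Finset.sum_add_distrib, Finset.sum_const, Finset.card_powersetCard, ← Finset.mul_sum,
      sum_cross a S U b (by omega), sum_in a ha U b hb, sum_out a ha U b, ← hm, id1, id2, id3,
      nsmul_eq_mul]
    field_simp
    ring
  by_contra hcon
  push Not at hcon
  have hlt := Finset.sum_lt_sum_of_nonempty hne hcon
  rw [htot, Finset.sum_const, Finset.card_powersetCard, ← hm, nsmul_eq_mul] at hlt
  exact lt_irrefl _ hlt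

end averaging


section graphs

variable {n : ℕ}

/-- the 0-1 adjacency function -/
noncomputable def adj (G : SimpleGraph (Fin n)) (u v : Fin n) : ℝ :=
  open Classical in if G.Adj u v then 1 else 0

lemma adj_self (G : SimpleGraph (Fin n)) (u : Fin n) : adj G u u = 0 := by
  unfold adj; rw [if_neg (G.loopless.irrefl u)]

lemma adj_symm (G : SimpleGraph (Fin n)) (u v : Fin n) : adj G u v = adj G v u := by
  unfold adj
  by_cases h : G.Adj u v
  · rw [if_pos h, if_pos h.symm]
  · rw [if_neg h, if_neg fun h' => h h'.symm]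

lemma adj_nonneg (G : SimpleGraph (Fin n)) (u v : Fin n) : 0 ≤ adj G u v := by
  unfold adj; split_ifs <;> norm_num

lemma ee_nonneg (G : SimpleGraph (Fin n)) (A B : Finset (Fin n)) : 0 ≤ ee (adj G) A B :=
  Finset.sum_nonneg fun _ _ => Finset.sum_nonneg fun _ _ => adj_nonneg G _ _

/-- the number of edges inside `W` -/
lemma edges_inside (G : SimpleGraph (Fin n)) (W : Finset (Fin n)) :
    2 * (({e : Sym2 (Fin n) | e ∈ G.edgeSet ∧ ∀ v ∈ e, v ∈ W}).ncard : ℝ) = ee (adj G) W W := by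
  classical
  let H : SimpleGraph (Fin n) :=
    { Adj := fun u v => G.Adj u v ∧ u ∈ W ∧ v ∈ W
      symm := ⟨fun u v h => ⟨h.1.symm, h.2.2, h.2.1⟩⟩
      loopless := ⟨fun u h => G.loopless.irrefl u h.1⟩ }
  have hset : {e : Sym2 (Fin n) | e ∈ G.edgeSet ∧ ∀ v ∈ e, v ∈ W} = H.edgeSet := by
    ext e
    induction e using Sym2.ind with
    | _ x y =>
      simp only [Set.mem_ofPred_eq, SimpleGraph.mem_edgeSet, Sym2.mem_iff, forall_eq_or_imp,
        forall_eq]
      rfl
  rw [hset, ← SimpleGraph.coe_edgeFinset, Set.ncard_coe_finset]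
  have h1 := H.sum_degrees_eq_twice_card_edges
  have h2 : (2 : ℝ) * (H.edgeFinset.card : ℝ) = ∑ v, (H.degree v : ℝ) := by
    exact_mod_cast h1.symm
  rw [h2]
  have h3 : ∀ v, (H.degree v : ℝ) = if v ∈ W then ∑ u ∈ W, adj G v u else 0 := by
    intro v
    rw [← SimpleGraph.card_neighborFinset_eq_degree]
    split_ifs with hv
    · have : H.neighborFinset v = W.filter (fun u => G.Adj v u) := by
        ext u
        simp only [SimpleGraph.mem_neighborFinset, Finset.mem_filter]
        constructor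
        · rintro ⟨h, _, h'⟩; exact ⟨h', h⟩
        · rintro ⟨h, h'⟩; exact ⟨h', hv, h⟩
      rw [this, Finset.card_filter]
      push_cast
      exact Finset.sum_congr rfl fun u _ => by unfold adj; congr
    · have : H.neighborFinset v = ∅ := by
        ext u
        simp only [SimpleGraph.mem_neighborFinset, Finset.notMem_empty, iff_false]
        rintro ⟨_, h, _⟩; exact hv h
      rw [this]; simp
  rw [Finset.sum_congr rfl fun v _ => h3 v, Finset.sum_ite_mem, Finset.univ_inter]
  rfl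

/-- the sparse subset lemma -/
lemma sparse (G : SimpleGraph (Fin n)) (η : ℝ) (hη : 0 < η) :
    ∀ k : ℕ, ∀ V : Finset (Fin n), V.Nonempty → (∀ s ⊆ V, ¬ G.IsNClique (k + 1) s) →
      (η ≤ 1) → ∃ S ⊆ V, S.Nonempty ∧ η ^ k * V.card ≤ S.card ∧
        ee (adj G) S S ≤ η * (S.card : ℝ) ^ 2 := by
  classical
  intro k
  induction k with
  | zero =>
    intro V hV hno _
    obtain ⟨v, hv⟩ := hV
    exact absurd (SimpleGraph.isNClique_singleton.2 rfl)
      (hno {v} (Finset.singleton_subset_iff.2 hv))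
  | succ k ih =>
    intro V hV hno hη1
    by_cases hsp : ee (adj G) V V ≤ η * (V.card : ℝ) ^ 2
    · refine ⟨V, Finset.Subset.refl _, hV, ?_, hsp⟩
      have h1 : η ^ (k + 1) ≤ 1 := pow_le_one₀ hη.le hη1
      have : (0 : ℝ) ≤ V.card := Nat.cast_nonneg _
      nlinarith
    · push Not at hsp
      -- a vertex of large degree inside `V`
      obtain ⟨v, hv, hdeg⟩ : ∃ v ∈ V, η * V.card < ∑ u ∈ V, adj G v u := by
        by_contra hcon
        push Not at hcon
        have : ee (adj G) V V ≤ ∑ _v ∈ V, η * (V.card : ℝ) := Finset.sum_le_sum hcon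
        rw [Finset.sum_const, nsmul_eq_mul] at this
        nlinarith
      set N := V.filter (fun u => G.Adj v u) with hN
      have hcard : (N.card : ℝ) = ∑ u ∈ V, adj G v u := by
        rw [hN, Finset.card_filter]
        push_cast
        exact Finset.sum_congr rfl fun u _ => by unfold adj; congr
      have hVpos : (0 : ℝ) < V.card := by exact_mod_cast hV.card_pos
      have hNpos : (0 : ℝ) < N.card := by rw [hcard]; exact lt_trans (by positivity) hdeg
      have hNne : N.Nonempty := Finset.card_pos.1 (by exact_mod_cast hNpos)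
      obtain ⟨S, hS, hSne, hScard, hSs⟩ := ih N hNne (by
        intro s hs hcl
        have h1 : G.IsNClique (k + 1 + 1) (insert v s) := by
          refine hcl.insert fun b hb => ?_
          exact (Finset.mem_filter.1 (hs hb)).2
        refine hno (insert v s) ?_ h1
        intro x hx
        rcases Finset.mem_insert.1 hx with rfl | hx
        · exact hv
        · exact (Finset.mem_filter.1 (hs hx)).1) hη1
      refine ⟨S, hS.trans (Finset.filter_subset _ _), hSne, ?_, hSs⟩
      have h2 : η * V.card ≤ N.card := by rw [hcard]; exact hdeg.le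
      calc η ^ (k + 1) * V.card = η ^ k * (η * V.card) := by ring
        _ ≤ η ^ k * N.card := mul_le_mul_of_nonneg_left h2 (by positivity)
        _ ≤ S.card := hScard

end graphs

/-- the real inequality of the averaging step -/
lemma real_ineq (n s h m b P X Y D : ℝ) (hn : 0 < n) (hs : 200 ≤ s) (hsn : s ≤ n / 10)
    (hh1 : (n - 1) / 2 ≤ h) (hh2 : h ≤ n / 2) (hm : m = n - s) (hb : b = h - s)
    (hP : 0 ≤ P) (hX : 0 ≤ X) (hY : 0 ≤ Y) (hD : D = P + 2 * X + Y)
    (hvol : 3 / 4 * (D / n) * s ≤ P + X) (hPs : P ≤ 2 / 100 * D * s ^ 2 / n ^ 2) :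
    P + 2 * X * (b / m) + Y * ((b * (b - 1) + (m - b) * (m - b - 1)) / (m * (m - 1))) ≤
      D / 2 - 5 / 100 * D * s ^ 2 / n ^ 2 := by
  have hD0 : 0 ≤ D := by rw [hD]; positivity
  have hs0 : 0 < s := by linarith
  have hm9 : 9 / 10 * n ≤ m := by rw [hm]; linarith
  have hm0 : 0 < m := by linarith
  have hmn : m ≤ n := by rw [hm]; linarith
  have hm1 : 1 < m := by linarith
  -- first ratio
  have r1 : 2 * (b / m) ≤ 1 - s / m := by
    rw [show 1 - s / m = (m - s) / m by field_simp, ← mul_div_assoc]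
    apply div_le_div_of_nonneg_right _ hm0.le
    rw [hm, hb]; linarith
  have hmb : m - b = n - h := by rw [hm, hb]; ring
  have hb0 : 0 ≤ b := by rw [hb]; linarith
  have hmb0 : 0 ≤ m - b := by rw [hmb]; linarith
  -- second ratio
  have r2 : (b * (b - 1) + (m - b) * (m - b - 1)) / (m * (m - 1)) ≤
      1 / 2 + (s + 1) ^ 2 / (2 * m ^ 2) := by
    have e1 : (b * (b - 1) + (m - b) * (m - b - 1)) / (m * (m - 1)) ≤
        (b ^ 2 + (m - b) ^ 2) / m ^ 2 := by
      rw [div_le_div_iff₀ (by nlinarith) (by positivity)]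
      have : 0 ≤ 2 * b * (m - b) := by positivity
      nlinarith [mul_nonneg this hm0.le]
    refine e1.trans ?_
    have e2 : b ^ 2 + (m - b) ^ 2 = (m ^ 2 + (m - 2 * b) ^ 2) / 2 := by ring
    have e3 : m - 2 * b = s + (n - 2 * h) := by rw [hm, hb]; ring
    have e4 : (m - 2 * b) ^ 2 ≤ (s + 1) ^ 2 := by
      rw [e3]
      apply pow_le_pow_left₀ (by linarith)
      linarith
    rw [e2]
    rw [show 1 / 2 + (s + 1) ^ 2 / (2 * m ^ 2) = ((m ^ 2 + (s + 1) ^ 2) / 2) / m ^ 2 by
      field_simp]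
    apply div_le_div_of_nonneg_right _ (by positivity)
    linarith
  -- bounds of the small quantities
  set t := s ^ 2 / n ^ 2 with ht
  have ht0 : 0 ≤ t := by positivity
  have q1 : (s + 1) ^ 2 / (2 * m ^ 2) ≤ 63 / 100 * t := by
    rw [ht, ← mul_div_assoc, div_le_div_iff₀ (by positivity) (by positivity)]
    have h1 : (s + 1) ^ 2 ≤ 102 / 100 * s ^ 2 := by nlinarith
    have h2 : 81 / 100 * n ^ 2 ≤ m ^ 2 := by nlinarith
    have h3 : 0 ≤ s ^ 2 := by positivity
    have h4 : 0 ≤ n ^ 2 := by positivity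
    calc (s + 1) ^ 2 * n ^ 2 ≤ (102 / 100 * s ^ 2) * n ^ 2 := mul_le_mul_of_nonneg_right h1 h4
      _ ≤ 63 / 100 * s ^ 2 * (2 * (81 / 100 * n ^ 2)) := by nlinarith [mul_nonneg h3 h4]
      _ ≤ 63 / 100 * s ^ 2 * (2 * m ^ 2) := by
        apply mul_le_mul_of_nonneg_left _ (by positivity)
        linarith
  have q2 : 3 / 4 * D * t ≤ (P + X) * (s / m) := by
    have h1 : (P + X) * (s / n) ≤ (P + X) * (s / m) := by
      apply mul_le_mul_of_nonneg_left _ (by positivity)
      exact div_le_div_of_nonneg_left hs0.le hm0 hmn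
    have h2 : 3 / 4 * D * t ≤ (P + X) * (s / n) := by
      have : 3 / 4 * D * t = (3 / 4 * (D / n) * s) * (s / n) := by
        rw [ht]; field_simp
      rw [this]
      exact mul_le_mul_of_nonneg_right hvol (by positivity)
    linarith
  have q3 : s / m ≤ 1 := by
    rw [div_le_one hm0]; linarith
  have hPs' : P ≤ 2 / 100 * D * t := by
    rw [ht]; rw [← mul_div_assoc]; exact hPs
  have hgoal : 5 / 100 * D * s ^ 2 / n ^ 2 = 5 / 100 * D * t := by
    rw [ht, ← mul_div_assoc]
  rw [hgoal]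
  have s1 : 2 * X * (b / m) ≤ X * (1 - s / m) := by
    calc 2 * X * (b / m) = X * (2 * (b / m)) := by ring
      _ ≤ X * (1 - s / m) := mul_le_mul_of_nonneg_left r1 hX
  have s2 : Y * ((b * (b - 1) + (m - b) * (m - b - 1)) / (m * (m - 1))) ≤
      Y / 2 + D * (63 / 100 * t) := by
    calc Y * ((b * (b - 1) + (m - b) * (m - b - 1)) / (m * (m - 1)))
        ≤ Y * (1 / 2 + (s + 1) ^ 2 / (2 * m ^ 2)) := mul_le_mul_of_nonneg_left r2 hY
      _ ≤ Y * (1 / 2 + 63 / 100 * t) := mul_le_mul_of_nonneg_left (by linarith) hY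
      _ = Y / 2 + Y * (63 / 100 * t) := by ring
      _ ≤ Y / 2 + D * (63 / 100 * t) := by
        have : Y ≤ D := by rw [hD]; linarith
        have := mul_le_mul_of_nonneg_right this (by positivity : 0 ≤ 63 / 100 * t)
        linarith
  have s3 : P * (s / m) ≤ P := by
    calc P * (s / m) ≤ P * 1 := mul_le_mul_of_nonneg_left q3 hP
      _ = P := mul_one P
  have hDt : 0 ≤ D * t := by positivity
  nlinarith [s1, s2, s3, q2, hPs', hDt]

/-- For every c>0 and k there are ε>0 and N so that any graph on n≥N vertices with ⌊cn²⌋ edges, in which every ⌊n/2⌋-vertex set spans at least (1−ε)c(n/2)² edges, contains a k-clique. -/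
theorem result :
    ∀ c : ℝ, 0 < c → ∀ k : ℕ, ∃ ε : ℝ, 0 < ε ∧ ∃ N : ℕ, ∀ n : ℕ, N ≤ n →
      ∀ G : SimpleGraph (Fin n),
        G.edgeSet.ncard = ⌊c * (n : ℝ) ^ 2⌋₊ →
        (∀ W : Finset (Fin n), W.card = n / 2 →
          (1 - ε) * c * ((n : ℝ) / 2) ^ 2 ≤
            (({e : Sym2 (Fin n) | e ∈ G.edgeSet ∧ ∀ v ∈ e, v ∈ W}).ncard : ℝ)) →
        ∃ s : Finset (Fin n), G.IsNClique k s := by
  classical
  intro c hc k
  rcases k with _ | k
  · refine ⟨1, one_pos, 0, fun n _ G _ _ => ⟨∅, ?_⟩⟩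
    simp
  set η : ℝ := min 1 (2 / 100 * c) with hη
  have hη0 : 0 < η := by rw [hη]; positivity
  have hη1 : η ≤ 1 := min_le_left _ _
  have hηc : η ≤ 2 / 100 * c := min_le_right _ _
  set σ : ℝ := η ^ k * c / 10 with hσ
  have hσ0 : 0 < σ := by rw [hσ]; positivity
  refine ⟨5 / 100 * σ ^ 2, by positivity, ⌈200 / σ⌉₊ + ⌈10 / c⌉₊ + ⌈2 / c⌉₊ + 10, ?_⟩
  intro n hn G hE hW
  by_contra hno
  push Not at hno
  have hn1 : 200 / σ ≤ n := (Nat.le_ceil _).trans (by exact_mod_cast (by omega))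
  have hn2 : 10 / c ≤ n := (Nat.le_ceil _).trans (by exact_mod_cast (by omega))
  have hn3 : 2 / c ≤ n := (Nat.le_ceil _).trans (by exact_mod_cast (by omega))
  have hn4 : (10 : ℝ) ≤ n := by exact_mod_cast (by omega : 10 ≤ n)
  have hn0 : (0 : ℝ) < n := by linarith
  have hcn : 10 ≤ c * n := by rw [div_le_iff₀ hc] at hn2; linarith
  have hcn2 : 2 ≤ c * (n : ℝ) ^ 2 := by nlinarith
  -- the number of edges
  set E : ℝ := (G.edgeSet.ncard : ℝ) with hEdef
  have hE1 : E ≤ c * (n : ℝ) ^ 2 := by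
    rw [hEdef, hE]; exact Nat.floor_le (by positivity)
  have hE2 : c * (n : ℝ) ^ 2 - 1 ≤ E := by
    rw [hEdef, hE]; exact (Nat.sub_one_lt_floor _).le
  set D : ℝ := ee (adj G) Finset.univ Finset.univ with hD
  have hDE : D = 2 * E := by
    rw [hD, ← edges_inside G Finset.univ, hEdef]
    congr 3
    ext e
    simp
  have hDc : c * (n : ℝ) ^ 2 ≤ D := by rw [hDE]; linarith
  -- `c ≤ 1/2`
  have hDn : D ≤ n * (n - 1) := by
    have h1 : ∀ u ∈ (Finset.univ : Finset (Fin n)), ∑ v, adj G u v ≤ (n : ℝ) - 1 := by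
      intro u _
      have h2 : ∑ v, adj G u v = ∑ v ∈ Finset.univ.erase u, adj G u v := by
        rw [← Finset.add_sum_erase _ _ (Finset.mem_univ u), adj_self, zero_add]
      rw [h2]
      have h3 : ∑ v ∈ Finset.univ.erase u, adj G u v ≤ ∑ _v ∈ Finset.univ.erase u, (1 : ℝ) := by
        refine Finset.sum_le_sum fun v _ => ?_
        unfold adj; split_ifs <;> norm_num
      refine h3.trans ?_
      rw [Finset.sum_const, Finset.card_erase_of_mem (Finset.mem_univ u), Finset.card_univ,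
        Fintype.card_fin, nsmul_eq_mul, mul_one, Nat.cast_sub (by omega)]
      simp
    have h4 : D ≤ ∑ _u : Fin n, ((n : ℝ) - 1) := Finset.sum_le_sum h1
    rw [Finset.sum_const, Finset.card_univ, Fintype.card_fin, nsmul_eq_mul] at h4
    exact h4
  have hc2 : c ≤ 1 / 2 := by
    have h1 : 2 * (c * (n : ℝ) ^ 2 - 1) ≤ n * (n - 1) := by
      have := hDn; rw [hDE] at this; linarith
    by_contra hcc
    push Not at hcc
    nlinarith [sq_nonneg (n : ℝ), mul_pos hn0 hn0]
  -- vertices of large degree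
  set V2 : Finset (Fin n) := Finset.univ.filter (fun u => 3 / 4 * (D / n) ≤ ∑ v, adj G u v) with hV2
  have hV2card : D / (4 * n) ≤ V2.card := by
    have h1 : D = ∑ u ∈ V2, ∑ v, adj G u v +
        ∑ u ∈ Finset.univ.filter (fun u => ¬ (3 / 4 * (D / n) ≤ ∑ v, adj G u v)), ∑ v, adj G u v := by
      rw [hV2]
      exact (Finset.sum_filter_add_sum_filter_not _ _ _).symm
    have h2 : ∑ u ∈ V2, ∑ v, adj G u v ≤ V2.card * n := by
      have : ∑ u ∈ V2, ∑ v, adj G u v ≤ ∑ _u ∈ V2, (n : ℝ) := by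
        refine Finset.sum_le_sum fun u _ => ?_
        have : ∑ v, adj G u v ≤ ∑ _v : Fin n, (1 : ℝ) := by
          refine Finset.sum_le_sum fun v _ => ?_
          unfold adj; split_ifs <;> norm_num
        simpa using this
      rw [Finset.sum_const, nsmul_eq_mul] at this
      exact this
    have h3 : ∑ u ∈ Finset.univ.filter (fun u => ¬ (3 / 4 * (D / n) ≤ ∑ v, adj G u v)),
        ∑ v, adj G u v ≤ n * (3 / 4 * (D / n)) := by
      have h4 : ∑ u ∈ Finset.univ.filter (fun u => ¬ (3 / 4 * (D / n) ≤ ∑ v, adj G u v)),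
        ∑ v, adj G u v ≤ ∑ _u ∈ Finset.univ.filter
          (fun u => ¬ (3 / 4 * (D / n) ≤ ∑ v, adj G u v)), 3 / 4 * (D / n) := by
        refine Finset.sum_le_sum fun u hu => ?_
        exact (not_le.1 (Finset.mem_filter.1 hu).2).le
      rw [Finset.sum_const, nsmul_eq_mul] at h4
      refine h4.trans (mul_le_mul_of_nonneg_right ?_ ?_)
      · have := Finset.card_le_univ (Finset.univ.filter
          (fun u => ¬ (3 / 4 * (D / n) ≤ ∑ v, adj G u v)))
        rw [Fintype.card_fin] at this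
        exact_mod_cast this
      · have : 0 ≤ D := ee_nonneg G _ _
        positivity
    have h5 : (n : ℝ) * (3 / 4 * (D / n)) = 3 / 4 * D := by field_simp
    rw [div_le_iff₀ (by positivity)]
    rw [h5] at h3
    nlinarith
  -- choose a subset of suitable size
  have hfl : ⌊c * n / 5⌋₊ ≤ V2.card := by
    have h1 : (⌊c * n / 5⌋₊ : ℝ) ≤ c * n / 5 := Nat.floor_le (by positivity)
    have h2 : c * n / 4 ≤ D / (4 * n) := by
      rw [div_le_div_iff₀ (by norm_num) (by positivity)]
      nlinarith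
    have h3 : (⌊c * n / 5⌋₊ : ℝ) ≤ V2.card := by linarith
    exact_mod_cast h3
  obtain ⟨V1, hV1sub, hV1card⟩ := Finset.exists_subset_card_eq hfl
  have hV1a : (V1.card : ℝ) ≤ c * n / 5 := by
    rw [hV1card]; exact Nat.floor_le (by positivity)
  have hV1b : c * n / 10 ≤ V1.card := by
    have : c * n / 5 - 1 ≤ (⌊c * n / 5⌋₊ : ℝ) := (Nat.sub_one_lt_floor _).le
    rw [hV1card]; linarith
  have hV1pos : (0 : ℝ) < V1.card := by linarith
  have hV1ne : V1.Nonempty := Finset.card_pos.1 (by exact_mod_cast hV1pos)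
  obtain ⟨S, hSV, hSne, hScard, hSs⟩ := sparse G η hη0 k V1 hV1ne (fun s _ => hno s) hη1
  -- the size of `S`
  set s : ℝ := (S.card : ℝ) with hs
  have hsσ : σ * n ≤ s := by
    calc σ * n = η ^ k * (c * n / 10) := by rw [hσ]; ring
      _ ≤ η ^ k * V1.card := mul_le_mul_of_nonneg_left hV1b (by positivity)
      _ ≤ s := hScard
  have hs200 : 200 ≤ s := by
    have : 200 ≤ σ * n := by rw [div_le_iff₀ hσ0] at hn1; linarith
    linarith
  have hsn : s ≤ n / 10 := by
    have h1 : s ≤ V1.card := by rw [hs]; exact_mod_cast Finset.card_le_card hSV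
    nlinarith
  set U : Finset (Fin n) := Sᶜ with hU
  have hd : Disjoint S U := disjoint_compl_right
  have hUcard : (U.card : ℝ) = n - s := by
    rw [hU, Finset.card_compl, Fintype.card_fin, Nat.cast_sub]
    simpa using Finset.card_le_univ S
  set h : ℕ := n / 2 with hh
  have hh1 : ((n : ℝ) - 1) / 2 ≤ h := by
    have : n ≤ 2 * h + 1 := by omega
    have : (n : ℝ) ≤ 2 * h + 1 := by exact_mod_cast this
    linarith
  have hh2 : (h : ℝ) ≤ n / 2 := by
    have : 2 * h ≤ n := by omega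
    have : (2 : ℝ) * h ≤ n := by exact_mod_cast this
    linarith
  have hSh : S.card ≤ h := by
    have : (S.card : ℝ) ≤ h := by rw [← hs]; linarith
    exact_mod_cast this
  set b : ℕ := h - S.card with hb
  have hbr : (b : ℝ) = h - s := by rw [hb, Nat.cast_sub hSh]
  have hb2 : 2 ≤ b := by
    have : (2 : ℝ) ≤ b := by rw [hbr]; linarith
    exact_mod_cast this
  have hbm : b + 2 ≤ U.card := by
    have : (b : ℝ) + 2 ≤ U.card := by rw [hbr, hUcard]; linarith
    exact_mod_cast this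
  obtain ⟨T, hT, hTle⟩ := exists_good (adj G) (adj_self G) (adj_symm G) S U hd b hb2 hbm
  have hTU := (Finset.mem_powersetCard.1 hT).1
  have hTc := (Finset.mem_powersetCard.1 hT).2
  -- apply the real inequality
  have hDsum : D = ee (adj G) S S + 2 * ee (adj G) S U + ee (adj G) U U := by
    rw [← ee_union (adj G) (adj_symm G) S U hd, hU, Finset.union_compl]
  have hvol : 3 / 4 * (D / n) * s ≤ ee (adj G) S S + ee (adj G) S U := by
    have h1 : ee (adj G) S S + ee (adj G) S U = ∑ u ∈ S, ∑ v, adj G u v := by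
      unfold ee
      rw [← Finset.sum_add_distrib]
      refine Finset.sum_congr rfl fun u _ => ?_
      rw [← Finset.sum_union hd, hU, Finset.union_compl]
    rw [h1]
    have h2 : ∑ _u ∈ S, 3 / 4 * (D / n) ≤ ∑ u ∈ S, ∑ v, adj G u v := by
      refine Finset.sum_le_sum fun u hu => ?_
      exact (Finset.mem_filter.1 (hV1sub (hSV hu))).2
    rw [Finset.sum_const, nsmul_eq_mul] at h2
    linarith
  have hP : ee (adj G) S S ≤ 2 / 100 * D * s ^ 2 / (n : ℝ) ^ 2 := by
    refine hSs.trans ?_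
    rw [le_div_iff₀ (by positivity)]
    have h1 : η * (n : ℝ) ^ 2 ≤ 2 / 100 * D := by nlinarith [sq_nonneg (n : ℝ)]
    have h2 : 0 ≤ s ^ 2 := by positivity
    calc η * s ^ 2 * (n : ℝ) ^ 2 = (η * (n : ℝ) ^ 2) * s ^ 2 := by ring
      _ ≤ (2 / 100 * D) * s ^ 2 := mul_le_mul_of_nonneg_right h1 h2
  have key := real_ineq n s h U.card b (ee (adj G) S S) (ee (adj G) S U) (ee (adj G) U U) D hn0
    hs200 hsn hh1 hh2 hUcard hbr (ee_nonneg G _ _) (ee_nonneg G _ _) (ee_nonneg G _ _) hDsum hvol hP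
  have hfin := hTle.trans key
  -- the two half sets
  have hST : (S ∪ T).card = n / 2 := by
    rw [Finset.card_union_of_disjoint (hd.mono_right hTU), hTc, hb]
    omega
  have hUT : n / 2 ≤ (U \ T).card := by
    rw [Finset.card_sdiff_of_subset hTU, hTc]
    have h1 : U.card = n - S.card := by rw [hU, Finset.card_compl, Fintype.card_fin]
    omega
  obtain ⟨W', hW'sub, hW'card⟩ := Finset.exists_subset_card_eq hUT
  have hw1 := hW (S ∪ T) hST
  have hw2 := hW W' hW'card
  have e1 := edges_inside G (S ∪ T)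
  have e2 := edges_inside G W'
  have e3 : ee (adj G) W' W' ≤ ee (adj G) (U \ T) (U \ T) := by
    unfold ee
    refine (Finset.sum_le_sum fun u _ => Finset.sum_le_sum_of_subset_of_nonneg hW'sub
      fun v _ _ => adj_nonneg G u v).trans ?_
    exact Finset.sum_le_sum_of_subset_of_nonneg hW'sub fun u _ _ =>
      Finset.sum_nonneg fun v _ => adj_nonneg G u v
  have hs2 : σ ^ 2 ≤ s ^ 2 / (n : ℝ) ^ 2 := by
    rw [le_div_iff₀ (by positivity), ← mul_pow]
    exact pow_le_pow_left₀ (by positivity) hsσ 2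
  have f1 : 4 * ((1 - 5 / 100 * σ ^ 2) * c * ((n : ℝ) / 2) ^ 2) ≤
      D / 2 - 5 / 100 * D * s ^ 2 / (n : ℝ) ^ 2 := by linarith
  have f2 : 5 / 100 * D * s ^ 2 / (n : ℝ) ^ 2 = 5 / 100 * D * (s ^ 2 / (n : ℝ) ^ 2) := by ring
  have f3 : D ≤ 2 * (c * (n : ℝ) ^ 2) := by rw [hDE]; linarith
  have f4 : 5 / 100 * D * σ ^ 2 ≤ 5 / 100 * D * (s ^ 2 / (n : ℝ) ^ 2) :=
    mul_le_mul_of_nonneg_left hs2 (by rw [hDE]; positivity)
  have f5 : c * (n : ℝ) ^ 2 * σ ^ 2 ≤ D * σ ^ 2 := mul_le_mul_of_nonneg_right hDc (by positivity)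
  have f6 : 0 < c * (n : ℝ) ^ 2 * σ ^ 2 := by positivity
  rw [f2] at f1
  -- contradiction
  have f7 : (1 - 5 / 100 * σ ^ 2) * (c * (n : ℝ) ^ 2) ≤ D / 2 - 5 / 100 * D * σ ^ 2 := by
    nlinarith
  nlinarith [sq_nonneg σ, f2]

end Pool.Agent.S07091
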