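import Pool.Statements.S07181
import Pool.Agent.U394.Halving

set_option autoImplicit false
open Pool Pool.MP_0dd31c_co

namespace Pool.Agent.S07181

/-- For every c in (1,2) there is n0 such that for n ≥ n0 every n-uniform finite hypergraph with all degrees at most c^n has a red set of exactly half (floor) of its vertices such that no edge is all red or all blue.

Proof: pair up the vertices, give the two vertices of each pair opposite colours by independent fair
coins (a leftover vertex is blue), and apply the local lemma. -/
theorem result :
    ∀ c : ℝ, 1 < c → c < 2 →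
      ∃ n₀ : ℕ, ∀ n : ℕ, n₀ ≤ n →
        ∀ F : Finset (Finset ℕ),
          (∀ A ∈ F, A.card = n) →
          (∀ v : ℕ, ((F.filter (fun A => v ∈ A)).card : ℝ) ≤ c ^ n) →
          ∃ R : Finset ℕ, R ⊆ F.biUnion id ∧
            R.card = (F.biUnion id).card / 2 ∧
            ∀ A ∈ F, (A ∩ R).Nonempty ∧ ¬ A ⊆ R := by
  intro c hc1 hc2
  exact Pool.Agent.U394.Halving.main c hc1 hc2

end Pool.Agent.S07181
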