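import Pool.Statements.S07487
import Pool.Agent.Helper539.General

set_option autoImplicit false
open Pool Pool.MP_1cfd87_co

namespace Pool.Agent.S07487

open SimpleGraph Filter Topology Pool.Agent.Helper539

theorem contained_iff {V X : Type} (G : SimpleGraph V) (R : SimpleGraph X) :
    G ⊑ R ↔ ∃ f : V → X, Function.Injective f ∧ ∀ a b, G.Adj a b → R.Adj (f a) (f b) := by
  constructor
  · rintro ⟨f⟩
    exact ⟨f, f.injective, fun a b h => f.toHom.map_adj h⟩
  · rintro ⟨f, hf, h⟩
    exact ⟨⟨⟨f, fun {a b} hab => h a b hab⟩, hf⟩⟩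

theorem matching_iff {X : Type} (B : SimpleGraph X) (t : ℕ) :
    matchingGraph t ⊑ B ↔ ∃ g : Fin t ⊕ Fin t → X, Function.Injective g ∧
      ∀ i, B.Adj (g (Sum.inl i)) (g (Sum.inr i)) := by
  rw [matchingGraph_isContained_iff]
  constructor
  · rintro ⟨f, hf, h⟩
    refine ⟨fun s => Sum.elim (fun i => f (i, false)) (fun i => f (i, true)) s, ?_, ?_⟩
    · rintro (a | a) (b | b) hab
      · have := hf hab
        simp only [Prod.mk.injEq, and_true] at this
        rw [this]
      · have := hf hab
        simp at this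
      · have := hf hab
        simp at this
      · have := hf hab
        simp only [Prod.mk.injEq, and_true] at this
        rw [this]
    · intro i
      exact h i
  · rintro ⟨g, hg, h⟩
    refine ⟨fun p => if p.2 then g (Sum.inr p.1) else g (Sum.inl p.1), ?_, ?_⟩
    · rintro ⟨a, a'⟩ ⟨b, b'⟩ hab
      cases a' <;> cases b' <;> simp only [if_true, if_false, Bool.false_eq_true] at hab
      · have := hg hab
        simp only [Sum.inl.injEq] at this
        rw [this]
      · have := hg hab
        simp at this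
      · have := hg hab
        simp at this
      · have := hg hab
        simp only [Sum.inr.injEq] at this
        rw [this]
    · intro i
      simpa using h i

/-- For any sequence of graphs without isolated vertices, with at least one edge, bounded max degree and vertex count tending to infinity, the limsup over t of the size Ramsey number of (G_n, tK_2) divided by t times ∣E(G_n)∣ tends to 0. -/
theorem result :
  ∀ (k : ℕ → ℕ) (G : ∀ n, SimpleGraph (Fin (k n))),
    Filter.Tendsto k Filter.atTop Filter.atTop →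
    (∃ D : ℕ, ∀ n v, ((G n).neighborSet v).ncard ≤ D) →
    (∀ n, ∃ v w, (G n).Adj v w) →
    (∀ n v, ∃ w, (G n).Adj v w) →
    ∀ ε : ℝ, 0 < ε → ∃ N : ℕ, ∀ n ≥ N, ∃ T : ℕ, ∀ t ≥ T,
      ((sInf {e : ℕ | ∃ (m : ℕ) (F : SimpleGraph (Fin m)), F.edgeSet.ncard = e ∧
          ∀ R : SimpleGraph (Fin m), R ≤ F →
            (∃ f : Fin (k n) → Fin m, Function.Injective f ∧
                ∀ a b, (G n).Adj a b → R.Adj (f a) (f b)) ∨
            (∃ g : Fin t ⊕ Fin t → Fin m, Function.Injective g ∧
                ∀ i, F.Adj (g (Sum.inl i)) (g (Sum.inr i)) ∧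
                  ¬ R.Adj (g (Sum.inl i)) (g (Sum.inr i)))} : ℕ) : ℝ)
        / ((t : ℝ) * (((G n).edgeSet.ncard : ℕ) : ℝ)) ≤ ε := by
  intro k G hk ⟨D, hD⟩ hedge hiso ε hε
  obtain ⟨ε', hε', hgen⟩ := general_case.{0} (ε / 2) (half_pos hε)
  obtain ⟨M, hM⟩ := exists_nat_ge (2 * D / ε')
  obtain ⟨N, hN⟩ := eventually_atTop.1 (tendsto_atTop.1 hk M)
  refine ⟨N, fun n hn => ?_⟩
  have hne : (G n).edgeSet.Nonempty := by
    obtain ⟨v, w, h⟩ := hedge n
    exact ⟨s(v, w), h⟩
  have hm : (0 : ℝ) < (G n).edgeSet.ncard := by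
    exact_mod_cast (Set.ncard_pos (Set.toFinite _)).2 hne
  have hcard := card_le_two_mul (G n) (hiso n)
  have hdeg : ∀ v, (((G n).neighborSet v).ncard : ℝ) ≤ ε' * (G n).edgeSet.ncard := by
    intro v
    have h1 : (((G n).neighborSet v).ncard : ℝ) ≤ D := by exact_mod_cast hD n v
    have h2 : (M : ℝ) ≤ k n := by exact_mod_cast hN n hn
    have h3 : (k n : ℝ) ≤ 2 * (G n).edgeSet.ncard := by
      have : Fintype.card (Fin (k n)) = k n := Fintype.card_fin _
      rw [this] at hcard
      exact_mod_cast hcard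
    have h4 : 2 * (D : ℝ) ≤ 2 * (G n).edgeSet.ncard * ε' := by
      rw [← div_le_iff₀ hε']
      linarith
    linarith
  obtain ⟨t0, ht0, hle⟩ := hgen (Fin (k n)) (G n) hne (hiso n) hdeg
  obtain ⟨ρ, hρ, hρ0, hρle⟩ := exists_limit (G n)
  have h5 : ρ ≤ ε / 2 := by
    refine (hρle t0 (by omega)).trans ?_
    have : (0 : ℝ) < t0 := by exact_mod_cast ht0
    rw [div_le_iff₀ (by positivity)]
    exact hle
  have h6 : ρ < ε := by linarith
  obtain ⟨T, hT⟩ := eventually_atTop.1 ((tendsto_order.1 hρ).2 ε h6)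
  refine ⟨T, fun t ht => ?_⟩
  have h7 := (hT t ht).le
  have hset : {e : ℕ | ∃ (m : ℕ) (F : SimpleGraph (Fin m)), F.edgeSet.ncard = e ∧
          ∀ R : SimpleGraph (Fin m), R ≤ F →
            (∃ f : Fin (k n) → Fin m, Function.Injective f ∧
                ∀ a b, (G n).Adj a b → R.Adj (f a) (f b)) ∨
            (∃ g : Fin t ⊕ Fin t → Fin m, Function.Injective g ∧
                ∀ i, F.Adj (g (Sum.inl i)) (g (Sum.inr i)) ∧
                  ¬ R.Adj (g (Sum.inl i)) (g (Sum.inr i)))} =
      {e | ∃ (N : ℕ) (F : SimpleGraph (Fin N)), F.edgeSet.ncard = e ∧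
        Arrows F (G n) (matchingGraph t)} := by
    ext e
    simp only [Set.mem_setOf_eq, Arrows]
    refine exists_congr fun m => exists_congr fun F => and_congr_right fun _ =>
      forall_congr' fun R => forall_congr' fun _ => ?_
    rw [contained_iff, matching_iff]
    simp only [SimpleGraph.sdiff_adj]
  rw [hset]
  exact h7

end Pool.Agent.S07487
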