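import Pool.Statements.S07574
-- import your own Pool.Agent.* helpers here

set_option autoImplicit false
open Pool Pool.MP_1f8616_co

namespace Pool.Agent.S07574

/-- The negation of the preceding statement: Every countable poset with no saturated chain (or its reverse) that is an ω-indexed linear sum of infinite co-wellfounded chains has, for each k≥2, k disjoint chains and a partition into antichains where each antichain A meets at least min(∣A∣,k) chains. -/
theorem result :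
    ¬ (∀ (α : Type) [PartialOrder α] [Countable α],
    (¬ ∃ C : Set α, IsChain (· ≤ ·) C ∧
        (∀ x, x ∉ C → ∀ y ∈ C, ∀ z ∈ C, y < x → x < z → ¬ IsChain (· ≤ ·) (insert x C)) ∧
        ∃ f : α → ℕ,
          ((∀ x ∈ C, ∀ y ∈ C, x ≤ y → f x ≤ f y) ∧
            ∀ i : ℕ, Set.Infinite {x | x ∈ C ∧ f x = i} ∧
              ¬ ∃ s : ℕ → α, StrictMono s ∧ ∀ n, s n ∈ C ∧ f (s n) = i) ∨
          ((∀ x ∈ C, ∀ y ∈ C, x ≤ y → f y ≤ f x) ∧
            ∀ i : ℕ, Set.Infinite {x | x ∈ C ∧ f x = i} ∧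
              ¬ ∃ s : ℕ → α, StrictAnti s ∧ ∀ n, s n ∈ C ∧ f (s n) = i)) →
    ∀ k : ℕ, 2 ≤ k →
      ∃ C : Fin k → Set α, (∀ j, IsChain (· ≤ ·) (C j)) ∧
        Pairwise (fun i j => Disjoint (C i) (C j)) ∧
        ∃ g : α → ℕ, ∀ i : ℕ, IsAntichain (· ≤ ·) {x | g x = i} ∧
          min (Set.encard {x | g x = i}) (k : ℕ∞) ≤
            Set.encard {j : Fin k | (C j ∩ {x | g x = i}).Nonempty}) := by
  intro H
  have hfin : ∀ C : Set (Σ n : ℕ, Fin n), IsChain (· ≤ ·) C → C.Finite := by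
    intro C hC
    rcases C.eq_empty_or_nonempty with h | ⟨a, ha⟩
    · rw [h]; exact Set.finite_empty
    · have hsub : C ⊆ Set.range (fun t : Fin a.1 => (⟨a.1, t⟩ : Σ n : ℕ, Fin n)) := by
        intro b hb
        have hab : a.1 = b.1 := by
          rcases hC.total ha hb with h | h
          · exact (Sigma.le_def.1 h).choose
          · exact (Sigma.le_def.1 h).choose.symm
        obtain ⟨n, x⟩ := b
        obtain ⟨m, y⟩ := a
        simp only at hab
        subst hab
        exact ⟨x, rfl⟩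
      exact (Set.finite_range _).subset hsub
  obtain ⟨C, hC, -, g, hg⟩ := H (Σ n : ℕ, Fin n) (by
    rintro ⟨C, hC, -, f, hf⟩
    rcases hf with ⟨-, hf⟩ | ⟨-, hf⟩
    · exact (hf 0).1 ((hfin C hC).subset (fun x hx => hx.1))
    · exact (hf 0).1 ((hfin C hC).subset (fun x hx => hx.1))) 2 le_rfl
  have hU : (⋃ j, C j).Finite := Set.finite_iUnion (fun j => hfin _ (hC j))
  have key : ∀ x : (Σ n : ℕ, Fin n), ∃ u ∈ ⋃ j, C j, g u = g x := by
    intro x
    have h := (hg (g x)).2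
    have h1 : (1 : ℕ∞) ≤ min (Set.encard {y | g y = g x}) ((2 : ℕ) : ℕ∞) := by
      refine le_min ?_ (by norm_num)
      rw [Set.one_le_encard_iff_nonempty]
      exact ⟨x, rfl⟩
    have h2 := h1.trans h
    rw [Set.one_le_encard_iff_nonempty] at h2
    obtain ⟨j, u, hu1, hu2⟩ := h2
    exact ⟨u, Set.mem_iUnion.2 ⟨j, hu1⟩, hu2⟩
  choose u hu1 hu2 using key
  let F := hU.toFinset
  have hmaps : ∀ t : Fin (F.card + 1), u ⟨F.card + 1, t⟩ ∈ F := fun t =>
    (Set.Finite.mem_toFinset hU).2 (hu1 _)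
  have hlt : F.card < (Finset.univ : Finset (Fin (F.card + 1))).card := by simp
  obtain ⟨s, -, t, -, hst, he⟩ := Finset.exists_ne_map_eq_of_card_lt_of_maps_to hlt
    (f := fun t : Fin (F.card + 1) => u ⟨F.card + 1, t⟩) (fun t _ => hmaps t)
  have hgeq : g ⟨F.card + 1, s⟩ = g ⟨F.card + 1, t⟩ := by
    rw [← hu2 ⟨F.card + 1, s⟩, ← hu2 ⟨F.card + 1, t⟩]
    exact congrArg g he
  have hanti := (hg (g ⟨F.card + 1, t⟩)).1
  have hne : (⟨F.card + 1, s⟩ : Σ n : ℕ, Fin n) ≠ ⟨F.card + 1, t⟩ := by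
    intro h
    apply hst
    simpa using h
  rcases le_total s t with h | h
  · exact hanti hgeq rfl hne (Sigma.LE.fiber _ _ _ h)
  · exact hanti rfl hgeq hne.symm (Sigma.LE.fiber _ _ _ h)


end Pool.Agent.S07574
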