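import Pool.Statements.S07874
import Pool.Agent.Results.MP_2d87f2_co.Blowup

set_option autoImplicit false
open Pool Pool.MP_2d87f2_co

namespace Pool.Agent.S07874


open Pool.Agent.Results.MP_2d87f2_co.Blowup

theorem bd_ncard {V : Type} (G : SimpleGraph V) (A : Finset V) :
    (edgeBoundary G A).ncard = Set.ncard {p : V × V | p.1 ∈ A ∧ p.2 ∉ A ∧ G.Adj p.1 p.2} := by
  have hinj : Set.InjOn (fun p : V × V => s(p.1, p.2))
      {p : V × V | p.1 ∈ A ∧ p.2 ∉ A ∧ G.Adj p.1 p.2} := by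
    rintro ⟨a, b⟩ ⟨h1, h2, -⟩ ⟨c, d⟩ ⟨h3, h4, -⟩ h
    simp only [Sym2.eq_iff] at h
    rcases h with ⟨rfl, rfl⟩ | ⟨h, h'⟩
    · rfl
    · exact absurd (h ▸ h1) h4
  rw [← Set.InjOn.ncard_image hinj]
  congr 1
  ext e
  constructor
  · rintro ⟨he, u, hu, v, hv, rfl⟩
    exact ⟨(u, v), ⟨hu, hv, he⟩, rfl⟩
  · rintro ⟨⟨u, v⟩, ⟨hu, hv, he⟩, rfl⟩
    exact ⟨he, u, hu, v, hv, rfl⟩

theorem net_ncard {V : Type} (G : SimpleGraph V) (k : ℕ) (S : Set V) (B : Finset S) (A : Finset V)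
    (hA : A = B.map (Function.Embedding.subtype _)) :
    (edgeBoundary (netGraph G k S) B).ncard =
      Set.ncard {p : V × V | p.1 ∈ A ∧ p.2 ∈ S ∧ p.2 ∉ A ∧ G.dist p.1 p.2 ≤ 2 * k} := by
  rw [bd_ncard]
  have hinj : Set.InjOn (fun p : S × S => ((p.1 : V), (p.2 : V)))
      {p : S × S | p.1 ∈ B ∧ p.2 ∉ B ∧ (netGraph G k S).Adj p.1 p.2} := by
    rintro ⟨a, b⟩ - ⟨c, d⟩ - h
    simp only [Prod.mk.injEq] at h
    exact Prod.ext (Subtype.ext h.1) (Subtype.ext h.2)
  rw [← Set.InjOn.ncard_image hinj]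
  congr 1
  ext ⟨x, y⟩
  constructor
  · rintro ⟨⟨u, v⟩, ⟨hu, hv, he⟩, h⟩
    simp only [Prod.mk.injEq] at h
    obtain ⟨rfl, rfl⟩ := h
    refine ⟨?_, v.2, ?_, he.2⟩
    · rw [hA]; exact Finset.mem_map.2 ⟨u, hu, rfl⟩
    · rw [hA]
      intro hm
      obtain ⟨w, hw, hwv⟩ := Finset.mem_map.1 hm
      exact hv ((Subtype.ext hwv : w = v) ▸ hw)
  · rintro ⟨hx, hy, hy', hd⟩
    simp only at hx hy hy' hd
    rw [hA] at hx hy'
    obtain ⟨u, hu, rfl⟩ := Finset.mem_map.1 hx
    refine ⟨(u, ⟨y, hy⟩), ⟨hu, ?_, ?_, hd⟩, rfl⟩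
    · intro hm
      exact hy' (Finset.mem_map.2 ⟨_, hm, rfl⟩)
    · intro he
      exact hy' (Finset.mem_map.2 ⟨u, hu, congrArg Subtype.val he⟩)
/-- The negation of the preceding statement: For every infinite connected locally finite vertex-transitive graph G, every k ≥ 1 and every maximal k-separated vertex set S, the Cheeger constant of the graph on S joining points at distance ≤ 2k is at least the Cheeger constant of G. -/
theorem result :
    ¬ (∀ (V : Type) (G : SimpleGraph V), Infinite V → G.Connected →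
      (∀ v : V, (G.neighborSet v).Finite) →
      (∀ u v : V, ∃ φ : G ≃g G, φ u = v) →
      ∀ k : ℕ, 1 ≤ k →
      ∀ S : Set V,
        (∀ u ∈ S, ∀ v ∈ S, u ≠ v → k ≤ G.dist u v) →
        (∀ w : V, w ∉ S → ∃ u ∈ S, G.dist w u < k) →
        sInf {r : ℝ | ∃ A : Finset V, A.Nonempty ∧
            r = (Set.ncard {p : V × V | p.1 ∈ A ∧ p.2 ∉ A ∧ G.Adj p.1 p.2} : ℝ)
              / (A.card : ℝ)}
          ≤
        sInf {r : ℝ | ∃ A : Finset V, A.Nonempty ∧ (↑A : Set V) ⊆ S ∧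
            r = (Set.ncard {p : V × V | p.1 ∈ A ∧ p.2 ∈ S ∧ p.2 ∉ A ∧
                  G.dist p.1 p.2 ≤ 2 * k} : ℝ)
              / (A.card : ℝ)}) := by

  intro H
  obtain ⟨V, G, hinf, hconn, hloc, htr, ⟨S, hS⟩, hlt⟩ := Pool.Agent.Results.MP_2d87f2_co.Blowup.result 2 le_rfl 1 one_pos
  have h := H V G hinf hconn hloc htr 2 (by norm_num) S hS.prop (by
    intro w hw
    by_contra hcon
    push Not at hcon
    have hsep : Separated G 2 (insert w S) := by
      intro u hu v hv huv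
      rcases hu with rfl | hu <;> rcases hv with rfl | hv
      · exact absurd rfl huv
      · exact hcon v hv
      · rw [SimpleGraph.dist_comm]; exact hcon u hu
      · exact hS.prop u hu v hv huv
    exact hw (hS.le_of_ge hsep (Set.subset_insert w S) (Set.mem_insert w S)))
  have h1 := hlt S hS
  rw [one_mul] at h1
  have e1 : cheeger G = sInf {r : ℝ | ∃ A : Finset V, A.Nonempty ∧
            r = (Set.ncard {p : V × V | p.1 ∈ A ∧ p.2 ∉ A ∧ G.Adj p.1 p.2} : ℝ)
              / (A.card : ℝ)} := by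
    unfold cheeger
    congr 1
    ext r
    simp only [bd_ncard]
  have e2 : cheeger (netGraph G 2 S) = sInf {r : ℝ | ∃ A : Finset V, A.Nonempty ∧ (↑A : Set V) ⊆ S ∧
            r = (Set.ncard {p : V × V | p.1 ∈ A ∧ p.2 ∈ S ∧ p.2 ∉ A ∧
                  G.dist p.1 p.2 ≤ 2 * 2} : ℝ)
              / (A.card : ℝ)} := by
    classical
    unfold cheeger
    congr 1
    ext r
    constructor
    · rintro ⟨B, hB, rfl⟩
      refine ⟨B.map (Function.Embedding.subtype _), hB.map, ?_, ?_⟩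
      · intro x hx
        obtain ⟨u, -, rfl⟩ := Finset.mem_map.1 (Finset.mem_coe.1 hx)
        exact u.2
      · rw [net_ncard G 2 S B _ rfl, Finset.card_map]
    · rintro ⟨A, hA, hAS, rfl⟩
      have hmap : A = (A.subtype (· ∈ S)).map (Function.Embedding.subtype _) := by
        rw [Finset.subtype_map_of_mem]
        intro x hx
        exact hAS hx
      refine ⟨A.subtype (· ∈ S), ?_, ?_⟩
      · rw [hmap] at hA
        exact Finset.map_nonempty.1 hA
      · rw [net_ncard G 2 S (A.subtype (· ∈ S)) A hmap]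
        congr 2
        conv_lhs => rw [hmap]
        rw [Finset.card_map]
  rw [e1, e2] at h1
  exact absurd h (not_le.2 h1)

end Pool.Agent.S07874
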