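import Pool.Statements.S07891
import Pool.Agent.U300.Dressian2

set_option autoImplicit false
open Pool Pool.MP_2e1090_co

namespace Pool.Agent.S07891

/-- Some Dressian Dr(d,n) has a tropical Plücker vector inducing a coarsest nontrivial matroid subdivision (a ray) that differs from the subdivision induced by the corank vector of every rank-d matroid on n elements. -/
theorem result :
    ∃ d n : ℕ, ∃ w : Finset (Fin n) → ℝ,
      (∀ (S : Finset (Fin n)) (i j k l : Fin n), S.card + 2 = d →
        i ∉ S → j ∉ S → k ∉ S → l ∉ S →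
        i ≠ j → i ≠ k → i ≠ l → j ≠ k → j ≠ l → k ≠ l →
        ((w (insert i (insert j S)) + w (insert k (insert l S))
            = w (insert i (insert k S)) + w (insert j (insert l S)) ∧
          w (insert i (insert j S)) + w (insert k (insert l S))
            ≤ w (insert i (insert l S)) + w (insert j (insert k S))) ∨
         (w (insert i (insert j S)) + w (insert k (insert l S))
            = w (insert i (insert l S)) + w (insert j (insert k S)) ∧
          w (insert i (insert j S)) + w (insert k (insert l S))
            ≤ w (insert i (insert k S)) + w (insert j (insert l S))) ∨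
         (w (insert i (insert k S)) + w (insert j (insert l S))
            = w (insert i (insert l S)) + w (insert j (insert k S)) ∧
          w (insert i (insert k S)) + w (insert j (insert l S))
            ≤ w (insert i (insert j S)) + w (insert k (insert l S))))) ∧
      (¬ ∃ c : Fin n → ℝ, ∀ B : Finset (Fin n), B.card = d →
          ∀ B' : Finset (Fin n), B'.card = d →
            w B - ∑ i ∈ B, c i ≤ w B' - ∑ i ∈ B', c i) ∧
      (∀ v : Finset (Fin n) → ℝ,
        (∀ (S : Finset (Fin n)) (i j k l : Fin n), S.card + 2 = d →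
          i ∉ S → j ∉ S → k ∉ S → l ∉ S →
          i ≠ j → i ≠ k → i ≠ l → j ≠ k → j ≠ l → k ≠ l →
          ((v (insert i (insert j S)) + v (insert k (insert l S))
              = v (insert i (insert k S)) + v (insert j (insert l S)) ∧
            v (insert i (insert j S)) + v (insert k (insert l S))
              ≤ v (insert i (insert l S)) + v (insert j (insert k S))) ∨
           (v (insert i (insert j S)) + v (insert k (insert l S))
              = v (insert i (insert l S)) + v (insert j (insert k S)) ∧
            v (insert i (insert j S)) + v (insert k (insert l S))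
              ≤ v (insert i (insert k S)) + v (insert j (insert l S))) ∨
           (v (insert i (insert k S)) + v (insert j (insert l S))
              = v (insert i (insert l S)) + v (insert j (insert k S)) ∧
            v (insert i (insert k S)) + v (insert j (insert l S))
              ≤ v (insert i (insert j S)) + v (insert k (insert l S))))) →
        (∀ c : Fin n → ℝ, ∃ c' : Fin n → ℝ,
          {B : Finset (Fin n) | B.card = d ∧ ∀ B' : Finset (Fin n), B'.card = d →
              w B - ∑ i ∈ B, c i ≤ w B' - ∑ i ∈ B', c i} ⊆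
          {B : Finset (Fin n) | B.card = d ∧ ∀ B' : Finset (Fin n), B'.card = d →
              v B - ∑ i ∈ B, c' i ≤ v B' - ∑ i ∈ B', c' i}) →
        (∃ c : Fin n → ℝ, ∀ B : Finset (Fin n), B.card = d →
          ∀ B' : Finset (Fin n), B'.card = d →
            v B - ∑ i ∈ B, c i ≤ v B' - ∑ i ∈ B', c i) ∨
        ((∀ c : Fin n → ℝ, ∃ c' : Fin n → ℝ,
          {B : Finset (Fin n) | B.card = d ∧ ∀ B' : Finset (Fin n), B'.card = d →
              w B - ∑ i ∈ B, c i ≤ w B' - ∑ i ∈ B', c i} =
          {B : Finset (Fin n) | B.card = d ∧ ∀ B' : Finset (Fin n), B'.card = d →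
              v B - ∑ i ∈ B, c' i ≤ v B' - ∑ i ∈ B', c' i}) ∧
         (∀ c : Fin n → ℝ, ∃ c' : Fin n → ℝ,
          {B : Finset (Fin n) | B.card = d ∧ ∀ B' : Finset (Fin n), B'.card = d →
              v B - ∑ i ∈ B, c i ≤ v B' - ∑ i ∈ B', c i} =
          {B : Finset (Fin n) | B.card = d ∧ ∀ B' : Finset (Fin n), B'.card = d →
              w B - ∑ i ∈ B, c' i ≤ w B' - ∑ i ∈ B', c' i}))) ∧
      (¬ ∃ M : Matroid (Fin n), M.E = Set.univ ∧ M.eRank = (d : ℕ∞) ∧
        (∀ c : Fin n → ℝ, ∃ c' : Fin n → ℝ,
          {B : Finset (Fin n) | B.card = d ∧ ∀ B' : Finset (Fin n), B'.card = d →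
              w B - ∑ i ∈ B, c i ≤ w B' - ∑ i ∈ B', c i} =
          {B : Finset (Fin n) | B.card = d ∧ ∀ B' : Finset (Fin n), B'.card = d →
              ((d : ℝ) - ((M.eRk (B : Set (Fin n))).toNat : ℝ)) - ∑ i ∈ B, c' i ≤
              ((d : ℝ) - ((M.eRk (B' : Set (Fin n))).toNat : ℝ)) - ∑ i ∈ B', c' i}) ∧
        (∀ c : Fin n → ℝ, ∃ c' : Fin n → ℝ,
          {B : Finset (Fin n) | B.card = d ∧ ∀ B' : Finset (Fin n), B'.card = d →
              ((d : ℝ) - ((M.eRk (B : Set (Fin n))).toNat : ℝ)) - ∑ i ∈ B, c i ≤
              ((d : ℝ) - ((M.eRk (B' : Set (Fin n))).toNat : ℝ)) - ∑ i ∈ B', c i} =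
          {B : Finset (Fin n) | B.card = d ∧ ∀ B' : Finset (Fin n), B'.card = d →
              w B - ∑ i ∈ B, c' i ≤ w B' - ∑ i ∈ B', c' i})) := by
  refine ⟨3, 9, Pool.Agent.U300.Dressian.w, Pool.Agent.U300.Dressian.pluecker,
    Pool.Agent.U300.Dressian.w_nontrivial,
    fun v _ hv => Pool.Agent.U300.Dressian.ray v hv, ?_⟩
  rintro ⟨M, _, _, h1, h2⟩
  exact Pool.Agent.U300.Dressian.no_matroid M h1 h2

end Pool.Agent.S07891
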