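import Pool.Statements.S07942
import Pool.Agent.Results.MP_30ed83_co.LinearForests

set_option autoImplicit false
open Pool Pool.MP_30ed83_co

namespace Pool.Agent.S07942

/-- The negation of the preceding statement: For every finite graph F with an edge and every r, some finite graph G has chromatic number above r and clique number equal to F's, and every induced subgraph of G with no induced copy of F has chromatic number at most that of F. -/
theorem result :
    ¬ (∀ (n : ℕ) (F : SimpleGraph (Fin n)), F ≠ ⊥ →
      ∀ r : ℕ, ∃ (m : ℕ) (G : SimpleGraph (Fin m)),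
        (r : ℕ∞) < G.chromaticNumber ∧
        G.cliqueNum = F.cliqueNum ∧
        ∀ s : Set (Fin m), ¬ F.IsIndContained (G.induce s) →
          (G.induce s).chromaticNumber ≤ F.chromaticNumber) := by
  intro h
  -- the claw
  let F : SimpleGraph (Fin 4) := SimpleGraph.fromRel fun i _ => i = 0
  have hadj : ∀ i j : Fin 4, F.Adj i j ↔ (i ≠ j ∧ (i = 0 ∨ j = 0)) := fun i j => Iff.rfl
  have h2 : F.chromaticNumber = 2 := by
    refine le_antisymm ?_ ?_
    · have hc : F.Colorable 2 := by
        refine ⟨SimpleGraph.Coloring.mk (fun i => if i = 0 then (0 : Fin 2) else 1) ?_⟩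
        intro i j hij
        rw [hadj] at hij
        rcases hij with ⟨h1, h2 | h2⟩
        · subst h2
          simp [Ne.symm h1]
        · subst h2
          simp [h1]
      exact_mod_cast hc.chromaticNumber_le
    · have h01 : F.Adj 0 1 := by
        rw [hadj]
        simp
      exact SimpleGraph.two_le_chromaticNumber_of_adj h01
  have hbot : F ≠ ⊥ := by
    intro hb
    have h01 : F.Adj 0 1 := by
      rw [hadj]
      simp
    rw [hb] at h01
    exact h01
  have h3 := (Pool.Agent.Results.MP_30ed83_co.LinearForests.result 4 F h2).1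
    (fun r => h 4 F hbot r)
  obtain ⟨k, ⟨e⟩⟩ := h3
  have e1 : (SimpleGraph.pathGraph k).Adj (e 0) (e 1) := by
    rw [e.map_adj_iff, hadj]; simp
  have e2 : (SimpleGraph.pathGraph k).Adj (e 0) (e 2) := by
    rw [e.map_adj_iff, hadj]; simp
  have e3 : (SimpleGraph.pathGraph k).Adj (e 0) (e 3) := by
    rw [e.map_adj_iff, hadj]; simp
  rw [SimpleGraph.pathGraph_adj] at e1 e2 e3
  have d12 : (e 1).val ≠ (e 2).val := fun h => absurd (e.injective (Fin.ext h)) (by decide)
  have d13 : (e 1).val ≠ (e 3).val := fun h => absurd (e.injective (Fin.ext h)) (by decide)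
  have d23 : (e 2).val ≠ (e 3).val := fun h => absurd (e.injective (Fin.ext h)) (by decide)
  omega

end Pool.Agent.S07942
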