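import Pool.Statements.S07963
-- import your own Pool.Agent.* helpers here
import Pool.Agent.U350.ChromRatio

set_option autoImplicit false
open Pool Pool.MP_31cced_co

namespace Pool.Agent.S07963

/-- For every finite simple graph G on n vertices with clique number ω and every integer λ ≥ n, the number of proper (λ−1)-colourings divided by the number of proper λ-colourings is at most (1−ω/λ)(1−1/λ)^(n−ω). -/
theorem result :
    ∀ (V : Type) [Fintype V] (G : SimpleGraph V) (lam : ℕ),
      Fintype.card V ≤ lam →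
      (Nat.card (G.Coloring (Fin (lam - 1))) : ℝ) / (Nat.card (G.Coloring (Fin lam)) : ℝ)
        ≤ (1 - ((sSup {k : ℕ | ∃ s : Finset V, G.IsNClique k s} : ℕ) : ℝ) / (lam : ℝ))
          * (1 - 1 / (lam : ℝ)) ^ (Fintype.card V - sSup {k : ℕ | ∃ s : Finset V, G.IsNClique k s}) := by
  intro V _ G lam hlam
  have hne : ({k : ℕ | ∃ s : Finset V, G.IsNClique k s}).Nonempty :=
    ⟨0, ∅, by simp [SimpleGraph.isNClique_iff]⟩
  have hbdd : BddAbove {k : ℕ | ∃ s : Finset V, G.IsNClique k s} := by
    refine ⟨Fintype.card V, ?_⟩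
    rintro k ⟨s, hs⟩
    rw [← hs.card_eq]
    exact Finset.card_le_univ s
  obtain ⟨K, hK⟩ := Nat.sSup_mem hne hbdd
  set w := sSup {k : ℕ | ∃ s : Finset V, G.IsNClique k s} with hw
  have hKc : K.card = w := hK.card_eq
  have hwn : w ≤ Fintype.card V := hKc ▸ Finset.card_le_univ K
  have hmain := Pool.Agent.U350.ChromRatio.main (Fintype.card V) V G K rfl hK.isClique lam hlam
  rw [hKc] at hmain
  rw [Pool.Agent.U350.ChromRatio.natCard_coloring, Pool.Agent.U350.ChromRatio.natCard_coloring]
  refine div_le_of_le_mul₀ (by positivity) ?_ hmain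
  rcases Nat.eq_zero_or_pos lam with h0 | hpos
  · subst h0
    simp
  · have hL : (1:ℝ) ≤ lam := by exact_mod_cast hpos
    have hL0 : (0:ℝ) < lam := by linarith
    refine mul_nonneg ?_ (pow_nonneg ?_ _)
    · rw [sub_nonneg, div_le_one hL0]
      exact_mod_cast hwn.trans hlam
    · rw [sub_nonneg, div_le_one hL0]
      exact hL

end Pool.Agent.S07963
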