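import Pool.Statements.S07995

set_option autoImplicit false
open Pool Pool.MP_32c2cb_co

namespace Pool.Agent.S07995

/-!
Proof. For a permutation `σ` let `v σ` be the vector indexed by pairs `(S, T)` of subsets, with entry
`∏_{i < j in S} sgn (σ j - σ i)` if `σ S = T` and entry `0` otherwise.  If two permutations
`σ, π` swap the images of `a ≠ b`, then `v σ` and `v π` are orthogonal: in the inner product the
terms of `S` and `S ∪ {a, b}` cancel.  (The inner product is `det (P_σ + P_π)` for the permutation
matrices, up to the sign.)  Hence a reversing family has at most `4 ^ n` members.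
-/

/-- the sign of `y - x` -/
def s {n : ℕ} (x y : Fin n) : ℝ := if x < y then 1 else -1

lemma s_sq {n : ℕ} (x y : Fin n) : s x y * s x y = 1 := by
  unfold s; split_ifs <;> norm_num

lemma s_swap {n : ℕ} {x y : Fin n} (h : x ≠ y) : s x y = - s y x := by
  unfold s
  rcases lt_or_gt_of_ne h with h1 | h1
  · rw [if_pos h1, if_neg (not_lt.2 h1.le)]; norm_num
  · rw [if_neg (not_lt.2 h1.le), if_pos h1]

/-- product over the pairs `i < j` of `S` -/
def P {n : ℕ} (k : Fin n → Fin n → ℝ) (S : Finset (Fin n)) : ℝ :=
  ∏ i ∈ S, ∏ j ∈ S, if i < j then k i j else 1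

lemma P_insert {n : ℕ} (k : Fin n → Fin n → ℝ) (hk : ∀ i j, i ≠ j → k i j = k j i)
    (S : Finset (Fin n)) (a : Fin n) (ha : a ∉ S) :
    P k (insert a S) = (∏ j ∈ S, k a j) * P k S := by
  unfold P
  rw [Finset.prod_insert ha, Finset.prod_insert ha]
  have h1 : ∀ i ∈ S, (∏ j ∈ insert a S, if i < j then k i j else 1) =
      (if i < a then k i a else 1) * ∏ j ∈ S, (if i < j then k i j else 1) := by
    intro i _
    rw [Finset.prod_insert ha]
  rw [Finset.prod_congr rfl h1, Finset.prod_mul_distrib, if_neg (lt_irrefl a), one_mul, ← mul_assoc,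
    ← Finset.prod_mul_distrib]
  congr 1
  apply Finset.prod_congr rfl
  intro j hj
  have hne : a ≠ j := fun h => ha (h ▸ hj)
  rcases lt_or_gt_of_ne hne with h | h
  · rw [if_pos h, if_neg (not_lt.2 h.le), mul_one]
  · rw [if_neg (not_lt.2 h.le), if_pos h, one_mul, hk a j hne]

/-- the combined weight -/
def K {n : ℕ} (σ π : Equiv.Perm (Fin n)) (i j : Fin n) : ℝ := s (σ i) (σ j) * s (π i) (π j)

lemma K_symm {n : ℕ} (σ π : Equiv.Perm (Fin n)) (i j : Fin n) (h : i ≠ j) :
    K σ π i j = K σ π j i := by
  unfold K
  rw [s_swap (fun h' => h (σ.injective h')), s_swap (x := π i) (fun h' => h (π.injective h'))]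
  ring

/-- the summand of the inner product -/
noncomputable def G {n : ℕ} (σ π : Equiv.Perm (Fin n)) (S : Finset (Fin n)) : ℝ :=
  if S.image σ = S.image π then P (K σ π) S else 0

lemma G_two {n : ℕ} (σ π : Equiv.Perm (Fin n)) (a b : Fin n) (hab : a ≠ b) (h1 : σ a = π b)
    (h2 : σ b = π a) (S : Finset (Fin n)) (ha : a ∉ S) (hb : b ∉ S) :
    G σ π (insert a (insert b S)) = - G σ π S := by
  have haS : a ∉ insert b S := by simp [hab, ha]
  have hσa : σ a ∉ S.image σ := by simpa using ha
  have hσb : σ b ∉ S.image σ := by simpa using hb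
  have hσa' : σ a ∉ S.image π := by rw [h1]; simpa using hb
  have hσb' : σ b ∉ S.image π := by rw [h2]; simpa using ha
  have hne : σ a ≠ σ b := fun h => hab (σ.injective h)
  have hiff : ((insert a (insert b S)).image σ = (insert a (insert b S)).image π) ↔
      S.image σ = S.image π := by
    rw [Finset.image_insert, Finset.image_insert, Finset.image_insert, Finset.image_insert,
      ← h1, ← h2, Finset.insert_comm (σ b) (σ a)]
    constructor
    · intro h
      ext y
      have := Finset.ext_iff.1 h y
      simp only [Finset.mem_insert] at this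
      by_cases hy1 : y = σ a
      · subst hy1; simp only [hσa, hσa']
      · by_cases hy2 : y = σ b
        · subst hy2; simp only [hσb, hσb']
        · simpa [hy1, hy2] using this
    · intro h; rw [h]
  unfold G
  by_cases hS : S.image σ = S.image π
  · rw [if_pos hS, if_pos (hiff.2 hS), P_insert _ (K_symm σ π) _ _ haS,
      P_insert _ (K_symm σ π) _ _ hb, Finset.prod_insert hb]
    have e1 : K σ π a b = -1 := by
      unfold K
      rw [← h1, ← h2, s_swap hne]
      have := s_sq (σ b) (σ a)
      linarith
    have e2 : (∏ j ∈ S, K σ π a j) * (∏ j ∈ S, K σ π b j) = 1 := by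
      rw [← Finset.prod_mul_distrib]
      have e3 : ∀ j ∈ S, K σ π a j * K σ π b j =
          (s (σ a) (σ j) * s (σ b) (σ j)) * (s (σ a) (π j) * s (σ b) (π j)) := by
        intro j _
        unfold K
        rw [← h1, ← h2]
        ring
      rw [Finset.prod_congr rfl e3, Finset.prod_mul_distrib]
      have e4 : ∀ τ : Equiv.Perm (Fin n), ∏ j ∈ S, (s (σ a) (τ j) * s (σ b) (τ j)) =
          ∏ y ∈ S.image τ, (s (σ a) y * s (σ b) y) := by
        intro τ
        rw [Finset.prod_image (fun x _ y _ h => τ.injective h)]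
      rw [e4 σ, e4 π, ← hS, ← Finset.prod_mul_distrib]
      apply Finset.prod_eq_one
      intro y _
      have := s_sq (σ a) y
      have h4 := s_sq (σ b) y
      calc s (σ a) y * s (σ b) y * (s (σ a) y * s (σ b) y) =
          (s (σ a) y * s (σ a) y) * (s (σ b) y * s (σ b) y) := by ring
        _ = 1 := by rw [this, h4, one_mul]
    rw [e1]
    linear_combination (-(P (K σ π) S)) * e2
  · rw [if_neg hS, if_neg (fun h => hS (hiff.1 h)), neg_zero]

lemma G_one {n : ℕ} (σ π : Equiv.Perm (Fin n)) (a b : Fin n) (h1 : σ a = π b)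
    (S : Finset (Fin n)) (ha : a ∈ S) (hb : b ∉ S) : G σ π S = 0 := by
  unfold G
  apply if_neg
  intro h
  have : σ a ∈ S.image π := h ▸ Finset.mem_image_of_mem σ ha
  rw [h1] at this
  simp at this
  exact hb this

lemma sum_G {n : ℕ} (σ π : Equiv.Perm (Fin n)) (a b : Fin n) (hab : a ≠ b) (h1 : σ a = π b)
    (h2 : σ b = π a) : ∑ S : Finset (Fin n), G σ π S = 0 := by
  set U : Finset (Fin n) := (Finset.univ.erase a).erase b with hU
  have hbU : b ∉ U := by simp [hU]
  have haU : a ∉ insert b U := by simp [hU, hab]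
  have huniv : (Finset.univ : Finset (Fin n)) = insert a (insert b U) := by
    rw [hU, Finset.insert_erase (by simp [hab.symm]), Finset.insert_erase (by simp)]
  have hpow : (Finset.univ : Finset (Finset (Fin n))) = (insert a (insert b U)).powerset := by
    rw [← huniv]; simp
  rw [hpow, Finset.sum_powerset_insert haU, Finset.sum_powerset_insert hbU,
    Finset.sum_powerset_insert hbU]
  have z1 : ∑ t ∈ U.powerset, G σ π (insert b t) = 0 := by
    apply Finset.sum_eq_zero
    intro t ht
    have htU := Finset.mem_powerset.1 ht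
    apply G_one σ π b a h2 _ (Finset.mem_insert_self _ _)
    intro h
    rcases Finset.mem_insert.1 h with h | h
    · exact hab h
    · exact haU (Finset.mem_insert_of_mem (htU h))
  have z2 : ∑ t ∈ U.powerset, G σ π (insert a t) = 0 := by
    apply Finset.sum_eq_zero
    intro t ht
    have htU := Finset.mem_powerset.1 ht
    apply G_one σ π a b h1 _ (Finset.mem_insert_self _ _)
    intro h
    rcases Finset.mem_insert.1 h with h | h
    · exact hab h.symm
    · exact hbU (htU h)
  rw [z1, z2, add_zero, zero_add, ← Finset.sum_add_distrib]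
  apply Finset.sum_eq_zero
  intro t ht
  have htU := Finset.mem_powerset.1 ht
  rw [G_two σ π a b hab h1 h2 t (fun h => haU (Finset.mem_insert_of_mem (htU h)))
    (fun h => hbU (htU h))]
  ring

/-- the vector of a permutation -/
noncomputable def v {n : ℕ} (σ : Equiv.Perm (Fin n)) :
    EuclideanSpace ℝ (Finset (Fin n) × Finset (Fin n)) :=
  WithLp.toLp 2 fun x => if x.1.image σ = x.2 then P (fun i j => s (σ i) (σ j)) x.1 else 0

lemma P_mul {n : ℕ} (k l : Fin n → Fin n → ℝ) (S : Finset (Fin n)) :
    P k S * P l S = P (fun i j => k i j * l i j) S := by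
  unfold P
  rw [← Finset.prod_mul_distrib]
  apply Finset.prod_congr rfl
  intro i _
  rw [← Finset.prod_mul_distrib]
  apply Finset.prod_congr rfl
  intro j _
  split_ifs <;> simp

lemma inner_v {n : ℕ} (σ π : Equiv.Perm (Fin n)) :
    inner ℝ (v σ) (v π) = ∑ S : Finset (Fin n), G σ π S := by
  rw [PiLp.inner_apply, Fintype.sum_prod_type]
  apply Finset.sum_congr rfl
  intro S _
  simp only [v, RCLike.inner_apply, conj_trivial]
  rw [Finset.sum_eq_single (S.image π)]
  · rw [if_pos rfl]
    unfold G
    by_cases h : S.image σ = S.image π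
    · rw [if_pos h, if_pos h, P_mul]
      unfold K
      congr 1
      ext i j
      ring
    · rw [if_neg h, if_neg h, mul_zero]
  · intro T _ hT
    rw [if_neg (fun h => hT h.symm), zero_mul]
  · intro h; exact absurd (Finset.mem_univ _) h

lemma v_ne {n : ℕ} (σ : Equiv.Perm (Fin n)) : v σ ≠ 0 := by
  intro h
  have h1 : (v σ) (∅, ∅) = 0 := by rw [h]; rfl
  simp [v, P] at h1

/-- There is a real constant C such that for every n, any set of permutations of n points in which every two distinct members swap the images of some two distinct points has at most C^n elements. -/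
theorem result :
    ∃ C : ℝ, ∀ n : ℕ, ∀ A : Finset (Equiv.Perm (Fin n)),
      (∀ σ ∈ A, ∀ π ∈ A, σ ≠ π →
        ∃ i j : Fin n, i ≠ j ∧ σ i = π j ∧ σ j = π i) →
      (A.card : ℝ) ≤ C ^ n := by
  refine ⟨4, fun n A hA => ?_⟩
  have hli : LinearIndependent ℝ (fun σ : A => v σ.1) := by
    apply linearIndependent_of_ne_zero_of_inner_eq_zero
    · intro σ; exact v_ne _
    · intro σ π hne
      have hne' : σ.1 ≠ π.1 := fun h => hne (Subtype.ext h)
      obtain ⟨a, b, hab, h1, h2⟩ := hA σ.1 σ.2 π.1 π.2 hne'
      show inner ℝ (v σ.1) (v π.1) = 0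
      rw [inner_v]
      exact sum_G σ.1 π.1 a b hab h1 h2
  have hcard := hli.fintype_card_le_finrank
  rw [finrank_euclideanSpace, Fintype.card_coe, Fintype.card_prod, Fintype.card_finset,
    Fintype.card_fin] at hcard
  have h4 : (2 : ℕ) ^ n * 2 ^ n = 4 ^ n := by
    rw [← mul_pow]; norm_num
  rw [h4] at hcard
  exact_mod_cast hcard

end Pool.Agent.S07995
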