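import Pool.Statements.S08181
import Pool.Agent.U343.Spread

set_option autoImplicit false
open Pool Pool.MP_3a2c26_co

namespace Pool.Agent.S08181

/-- Take any symmetric weights in [0,1] on n ≥ 2 vertices. For nonzero x, y orthogonal to all-ones, the Laplacian Rayleigh quotient of x for G plus that of y for the complement (weights 1−w) is ≥ 1, i.e. λ₂(G)+λ₂(Gᶜ) ≥ 1. -/
theorem result :
    ∀ n : ℕ, 2 ≤ n →
      ∀ w : Fin n → Fin n → ℝ,
        (∀ i j, w i j = w j i) →
        (∀ i j, 0 ≤ w i j ∧ w i j ≤ 1) →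
        ∀ x y : Fin n → ℝ,
          (∑ i, x i = 0) → (∑ i, y i = 0) → x ≠ 0 → y ≠ 0 →
          1 ≤ (∑ i, ∑ j, w i j * (x i - x j) ^ 2) / (2 * ∑ i, x i ^ 2)
            + (∑ i, ∑ j, (1 - w i j) * (y i - y j) ^ 2) / (2 * ∑ i, y i ^ 2) := by
  intro n hn w hs h01 x y hx hy hx0 hy0
  have main := (Pool.Agent.U343.Spread.result n hn w hs (fun i j => (h01 i j).1)
    (fun i j => (h01 i j).2)).2
  have key : ∀ (v : Fin n → Fin n → ℝ) (z : Fin n → ℝ), ∑ i, z i = 0 → z ≠ 0 →
      Pool.Agent.U343.Spread.lam2 v ≤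
        (∑ i, ∑ j, v i j * (z i - z j) ^ 2) / (2 * ∑ i, z i ^ 2) := by
    intro v z hz hz0
    obtain ⟨a, ha, hmin, hle⟩ := Pool.Agent.U343.Spread.exists_min hn v
    have h1 := Pool.Agent.U343.Spread.lam2_le v _ hle z hz
    have hpos : 0 < ∑ i, z i ^ 2 := by
      obtain ⟨i, hi⟩ := Function.ne_iff.1 hz0
      have : 0 < z i ^ 2 := by
        have : z i ≠ 0 := hi
        positivity
      exact lt_of_lt_of_le this (Finset.single_le_sum (f := fun i => z i ^ 2)
        (fun i _ => sq_nonneg (z i)) (Finset.mem_univ i))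
    rw [le_div_iff₀ (by positivity)]
    unfold Pool.Agent.U343.Spread.lapForm at h1
    linarith
  exact main.trans (add_le_add (key w x hx hx0) (key (fun i j => 1 - w i j) y hy hy0))

end Pool.Agent.S08181
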