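import Pool.Statements.S08268

set_option autoImplicit false
open Pool Pool.MP_3df3be_co

namespace Pool.Agent.S08268

/-- in a row of a subsquare the symbols are exactly the symbols of the subsquare -/
theorem row_image (L : Fin 8 → Fin 8 → Fin 8) (hrow : ∀ i, Function.Bijective (L i))
    {m : ℕ} {R C S : Finset (Fin 8)} (hC : C.card = m) (hS : S.card = m)
    (h : ∀ r ∈ R, ∀ c ∈ C, L r c ∈ S) {r : Fin 8} (hr : r ∈ R) : C.image (L r) = S := by
  apply Finset.eq_of_subset_of_card_le
  · intro s hs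
    obtain ⟨c, hc, rfl⟩ := Finset.mem_image.1 hs
    exact h r hr c hc
  · rw [Finset.card_image_of_injective _ (hrow r).1, hC, hS]

/-- membership of the symbol in a row of a subsquare -/
theorem row_mem (L : Fin 8 → Fin 8 → Fin 8) (hrow : ∀ i, Function.Bijective (L i))
    {m : ℕ} {R C S : Finset (Fin 8)} (hC : C.card = m) (hS : S.card = m)
    (h : ∀ r ∈ R, ∀ c ∈ C, L r c ∈ S) {r : Fin 8} (hr : r ∈ R) (c : Fin 8) :
    L r c ∈ S ↔ c ∈ C := by
  constructor
  · intro hc
    rw [← row_image L hrow hC hS h hr] at hc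
    obtain ⟨c', hc', he⟩ := Finset.mem_image.1 hc
    rwa [← (hrow r).1 he]
  · exact h r hr c

/-- transposed -/
theorem col_mem (L : Fin 8 → Fin 8 → Fin 8) (hcol : ∀ j, Function.Bijective (fun i => L i j))
    {m : ℕ} {R C S : Finset (Fin 8)} (hR : R.card = m) (hS : S.card = m)
    (h : ∀ r ∈ R, ∀ c ∈ C, L r c ∈ S) {c : Fin 8} (hc : c ∈ C) (r : Fin 8) :
    L r c ∈ S ↔ r ∈ R :=
  row_mem (fun j i => L i j) hcol hR hS (fun c hc r hr => h r hr c hc) hc r

/-- A latin square of order 8 with a subsquare of order 4: outside the rows of the subsquare the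
symbols of the subsquare are in the other columns. -/
theorem out_mem (L : Fin 8 → Fin 8 → Fin 8) (hrow : ∀ i, Function.Bijective (L i))
    (hcol : ∀ j, Function.Bijective (fun i => L i j))
    {R C S : Finset (Fin 8)} (hR : R.card = 4) (hC : C.card = 4) (hS : S.card = 4)
    (h : ∀ r ∈ R, ∀ c ∈ C, L r c ∈ S) {r : Fin 8} (hr : r ∉ R) (c : Fin 8) :
    L r c ∈ S ↔ c ∉ C := by
  have h1 : ∀ c ∈ C, L r c ∉ S := fun c hc => by
    rw [col_mem L hcol hR hS h hc]
    exact hr
  have h2 : Cᶜ.card = 4 := by rw [Finset.card_compl, hC, Fintype.card_fin]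
  have h3 : (Finset.univ.filter fun c => L r c ∈ S) = Cᶜ := by
    apply Finset.eq_of_subset_of_card_le
    · intro c hc
      rw [Finset.mem_compl]
      intro hcC
      exact h1 c hcC (Finset.mem_filter.1 hc).2
    · rw [h2, ← hS]
      apply le_of_eq
      refine Finset.card_bij' (fun s _ => (Equiv.ofBijective _ (hrow r)).symm s) (fun c _ => L r c)
        ?_ ?_ ?_ ?_
      · intro s hs
        rw [Finset.mem_filter]
        refine ⟨Finset.mem_univ _, ?_⟩
        have : L r ((Equiv.ofBijective _ (hrow r)).symm s) = s :=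
          (Equiv.ofBijective _ (hrow r)).apply_symm_apply s
        rw [this]; exact hs
      · intro c hc
        exact (Finset.mem_filter.1 hc).2
      · intro s _
        exact (Equiv.ofBijective _ (hrow r)).apply_symm_apply s
      · intro c _
        exact (Equiv.ofBijective _ (hrow r)).symm_apply_apply c
  have h4 : c ∈ (Finset.univ.filter fun c => L r c ∈ S) ↔ c ∈ Cᶜ := by rw [h3]
  rw [Finset.mem_filter, Finset.mem_compl] at h4
  simpa using h4

/-- The rows of a subsquare of odd order are all inside or all outside. -/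
theorem split (L : Fin 8 → Fin 8 → Fin 8) (hrow : ∀ i, Function.Bijective (L i))
    (hcol : ∀ j, Function.Bijective (fun i => L i j))
    {R C S : Finset (Fin 8)} (hR : R.card = 4) (hC : C.card = 4) (hS : S.card = 4)
    (h : ∀ r ∈ R, ∀ c ∈ C, L r c ∈ S) {R' C' S' : Finset (Fin 8)} (hC' : C'.card = 3)
    (hS' : S'.card = 3) (h' : ∀ r ∈ R', ∀ c ∈ C', L r c ∈ S') :
    (∀ r ∈ R', r ∈ R) ∨ (∀ r ∈ R', r ∉ R) := by
  by_contra hcon
  rw [not_or] at hcon
  obtain ⟨h1, h2⟩ := hcon
  push Not at h1 h2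
  obtain ⟨a, ha, haR⟩ := h1
  obtain ⟨b, hb, hbR⟩ := h2
  have e1 : (S' ∩ S).card = (C' \ C).card := by
    rw [← Finset.card_image_of_injective (C' \ C) (hrow a).1]
    congr 1
    ext s
    rw [Finset.mem_inter, Finset.mem_image]
    constructor
    · rintro ⟨hs', hs⟩
      rw [← row_image L hrow hC' hS' h' ha] at hs'
      obtain ⟨c, hc, rfl⟩ := Finset.mem_image.1 hs'
      refine ⟨c, Finset.mem_sdiff.2 ⟨hc, ?_⟩, rfl⟩
      exact (out_mem L hrow hcol hR hC hS h haR c).1 hs
    · rintro ⟨c, hc, rfl⟩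
      rw [Finset.mem_sdiff] at hc
      exact ⟨h' a ha c hc.1, (out_mem L hrow hcol hR hC hS h haR c).2 hc.2⟩
  have e2 : (S' ∩ S).card = (C' ∩ C).card := by
    rw [← Finset.card_image_of_injective (C' ∩ C) (hrow b).1]
    congr 1
    ext s
    rw [Finset.mem_inter, Finset.mem_image]
    constructor
    · rintro ⟨hs', hs⟩
      rw [← row_image L hrow hC' hS' h' hb] at hs'
      obtain ⟨c, hc, rfl⟩ := Finset.mem_image.1 hs'
      refine ⟨c, Finset.mem_inter.2 ⟨hc, ?_⟩, rfl⟩
      exact (row_mem L hrow hC hS h hbR c).1 hs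
    · rintro ⟨c, hc, rfl⟩
      rw [Finset.mem_inter] at hc
      exact ⟨h' b hb c hc.1, (row_mem L hrow hC hS h hbR c).2 hc.2⟩
  have e3 := Finset.card_sdiff_add_card_inter C' C
  omega

/-- the symbols of one row of a block of order 4 -/
theorem block (L : Fin 8 → Fin 8 → Fin 8) (hrow : ∀ i, Function.Bijective (L i))
    (hcol : ∀ j, Function.Bijective (fun i => L i j))
    {T U V : Finset (Fin 8)} (hU : U.card = 4) (hV : V.card = 4)
    (h : ∀ r ∈ T, ∀ c ∈ U, L r c ∈ V) {R' C' S' : Finset (Fin 8)} (hR' : R'.card = 3)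
    (hC' : C'.card = 3) (hS' : S'.card = 3) (h' : ∀ r ∈ R', ∀ c ∈ C', L r c ∈ S')
    (hRT : R' ⊆ T) (hCU : C' ⊆ U) : False := by
  -- the last column of the block
  have h1 : (U \ C').card = 1 := by
    rw [Finset.card_sdiff_of_subset hCU, hU, hC']
  obtain ⟨c, hc⟩ := Finset.card_eq_one.1 h1
  have hcU : c ∈ U ∧ c ∉ C' := by
    have : c ∈ U \ C' := by rw [hc]; exact Finset.mem_singleton_self c
    exact Finset.mem_sdiff.1 this
  obtain ⟨r0, hr0⟩ : R'.Nonempty := by rw [← Finset.card_pos]; omega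
  have hSV : S' ⊆ V := by
    rw [← row_image L hrow hC' hS' h' hr0]
    intro s hs
    obtain ⟨c', hc', rfl⟩ := Finset.mem_image.1 hs
    exact h r0 (hRT hr0) c' (hCU hc')
  have h2 : (V \ S').card = 1 := by
    rw [Finset.card_sdiff_of_subset hSV, hV, hS']
  obtain ⟨s, hs⟩ := Finset.card_eq_one.1 h2
  have h3 : ∀ r ∈ R', L r c = s := by
    intro r hr
    have : L r c ∈ V \ S' := by
      refine Finset.mem_sdiff.2 ⟨h r (hRT hr) c hcU.1, ?_⟩
      rw [row_mem L hrow hC' hS' h' hr]
      exact hcU.2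
    rw [hs] at this
    exact Finset.mem_singleton.1 this
  have h4 : R'.card ≤ 1 := by
    rw [Finset.card_le_one]
    intro a ha b hb
    exact (hcol c).1 (show L a c = L b c by rw [h3 a ha, h3 b hb])
  omega

theorem core (L : Fin 8 → Fin 8 → Fin 8) (hrow : ∀ i, Function.Bijective (L i))
    (hcol : ∀ j, Function.Bijective (fun i => L i j))
    (R C S : Finset (Fin 8)) (hR : R.card = 4) (hC : C.card = 4) (hS : S.card = 4)
    (h : ∀ r ∈ R, ∀ c ∈ C, L r c ∈ S) (R' C' S' : Finset (Fin 8)) (hR' : R'.card = 3)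
    (hC' : C'.card = 3) (hS' : S'.card = 3) (h' : ∀ r ∈ R', ∀ c ∈ C', L r c ∈ S') : False := by
  have hRc : Rᶜ.card = 4 := by rw [Finset.card_compl, hR, Fintype.card_fin]
  have hCc : Cᶜ.card = 4 := by rw [Finset.card_compl, hC, Fintype.card_fin]
  have hSc : Sᶜ.card = 4 := by rw [Finset.card_compl, hS, Fintype.card_fin]
  have r1 := split L hrow hcol hR hC hS h hC' hS' h'
  have r2 := split (fun j i => L i j) hcol hrow hC hR hS (fun c hc r hr => h r hr c hc) hR' hS'
    (fun c hc r hr => h' r hr c hc)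
  rcases r1 with r1 | r1 <;> rcases r2 with r2 | r2
  · exact block L hrow hcol hC hS h hR' hC' hS' h' r1 r2
  · refine block L hrow hcol (T := R) (U := Cᶜ) (V := Sᶜ) hCc hSc ?_ hR' hC' hS' h' r1
      (fun c hc => Finset.mem_compl.2 (r2 c hc))
    intro r hr c hc
    rw [Finset.mem_compl] at hc ⊢
    rw [row_mem L hrow hC hS h hr]
    exact hc
  · refine block L hrow hcol (T := Rᶜ) (U := C) (V := Sᶜ) hC hSc ?_ hR' hC' hS' h'
      (fun r hr => Finset.mem_compl.2 (r1 r hr)) r2
    intro r hr c hc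
    rw [Finset.mem_compl] at hr ⊢
    rw [out_mem L hrow hcol hR hC hS h hr, not_not]
    exact hc
  · refine block L hrow hcol (T := Rᶜ) (U := Cᶜ) (V := S) hCc hS ?_ hR' hC' hS' h'
      (fun r hr => Finset.mem_compl.2 (r1 r hr)) (fun c hc => Finset.mem_compl.2 (r2 c hc))
    intro r hr c hc
    rw [Finset.mem_compl] at hr hc
    rw [out_mem L hrow hcol hR hC hS h hr]
    exact hc

/-- The negation of the preceding statement: For every n there is a latin square of order n such that, for each m with 1 ≤ m and 2m ≤ n, some m rows and m columns meet in an m×m subarray using only m symbols, i.e. a latin subsquare of order m. -/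
theorem result :
    ¬ (∀ n : ℕ, ∃ L : Fin n → Fin n → Fin n,
      (∀ i : Fin n, Function.Bijective (L i)) ∧
      (∀ j : Fin n, Function.Bijective (fun i : Fin n => L i j)) ∧
      ∀ m : ℕ, 1 ≤ m → 2 * m ≤ n →
        ∃ R C S : Finset (Fin n),
          R.card = m ∧ C.card = m ∧ S.card = m ∧
          ∀ r ∈ R, ∀ c ∈ C, L r c ∈ S) := by
  intro h
  obtain ⟨L, hrow, hcol, hsub⟩ := h 8
  obtain ⟨R, C, S, hR, hC, hS, hRCS⟩ := hsub 4 (by norm_num) (by norm_num)
  obtain ⟨R', C', S', hR', hC', hS', hRCS'⟩ := hsub 3 (by norm_num) (by norm_num)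
  have key := core L hrow hcol R C S hR hC hS hRCS R' C' S' hR' hC' hS' hRCS'
  exact key

end Pool.Agent.S08268
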