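import Pool.Statements.S08394
import Pool.Agent.U296.ThetaCount

set_option autoImplicit false
open Pool Pool.MP_42e384_co

namespace Pool.Agent.S08394

/-- The negation of the preceding statement: For every finite matroid of rank at least 3 with n points and every k from 2 to rank−1, k(n−k)·W_k² ≥ (k+1)(n−k+1)·W_{k−1}·W_{k+1}, where W_j counts rank-j flats. -/
theorem result :
    ¬ (∀ (α : Type) (M : Matroid α), M.Finite →
      (3 : ℕ∞) ≤ M.eRank →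
      ∀ k : ℕ, 2 ≤ k → (((k + 1 : ℕ)) : ℕ∞) ≤ M.eRank →
        (k : ℚ) * (({F : Set α | M.IsFlat F ∧ M.eRk F = (1 : ℕ∞)}.ncard : ℚ) - k) *
            (({F : Set α | M.IsFlat F ∧ M.eRk F = ((k : ℕ) : ℕ∞)}.ncard : ℚ)) ^ 2 ≥
          ((k : ℚ) + 1) * (({F : Set α | M.IsFlat F ∧ M.eRk F = (1 : ℕ∞)}.ncard : ℚ) - k + 1) *
            ({F : Set α | M.IsFlat F ∧ M.eRk F = ((k - 1 : ℕ) : ℕ∞)}.ncard : ℚ) *
            ({F : Set α | M.IsFlat F ∧ M.eRk F = ((k + 1 : ℕ) : ℕ∞)}.ncard : ℚ)) := by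
  intro H
  obtain ⟨m, hmbig⟩ : ∃ m : ℕ, 167961600 < m := ⟨167961601, by norm_num⟩
  have hm0 : 0 < m := by omega
  have hm2 : 2 ≤ m := by omega
  have hk1 : 6 * m - 4 - 1 = 6 * m - 5 := by omega
  have hk2 : 6 * m - 4 + 1 = 6 * m - 3 := by omega
  have hr := Pool.Agent.U296.Theta.eRank_ge hm0
  have h := H _ (Pool.Agent.U296.Theta.mat _ (Pool.Agent.U296.Theta.cls_surj hm0))
    (Pool.Agent.U296.Theta.mat_finite _)
    (le_trans (by exact_mod_cast (by omega : 3 ≤ 6 * m - 3)) hr) (6 * m - 4) (by omega)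
    (by rw [hk2]; exact hr)
  rw [hk1, hk2] at h
  have e1 := Pool.Agent.U296.Theta.points hm2 hm0
  have e2 := Pool.Agent.U296.Theta.corank_three hm0
  have e3 := Pool.Agent.U296.Theta.corank_two hm2 hm0
  have e4 := Pool.Agent.U296.Theta.corank_one hm0
  unfold Pool.Agent.U296.Theta.flatsOf at e1 e2 e3 e4
  rw [Nat.cast_one] at e1
  generalize ({F | (Pool.Agent.U296.Theta.mat _ (Pool.Agent.U296.Theta.cls_surj hm0)).IsFlat F ∧
    (Pool.Agent.U296.Theta.mat _ (Pool.Agent.U296.Theta.cls_surj hm0)).eRk F = (1 : ℕ∞)} :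
      Set (Set (Pool.Agent.U296.Theta.V m))).ncard = n at h e1
  generalize ({F | (Pool.Agent.U296.Theta.mat _ (Pool.Agent.U296.Theta.cls_surj hm0)).IsFlat F ∧
    (Pool.Agent.U296.Theta.mat _ (Pool.Agent.U296.Theta.cls_surj hm0)).eRk F =
      ((6 * m - 5 : ℕ) : ℕ∞)} : Set (Set (Pool.Agent.U296.Theta.V m))).ncard = a at h e2
  generalize ({F | (Pool.Agent.U296.Theta.mat _ (Pool.Agent.U296.Theta.cls_surj hm0)).IsFlat F ∧
    (Pool.Agent.U296.Theta.mat _ (Pool.Agent.U296.Theta.cls_surj hm0)).eRk F =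
      ((6 * m - 4 : ℕ) : ℕ∞)} : Set (Set (Pool.Agent.U296.Theta.V m))).ncard = b at h e3
  generalize ({F | (Pool.Agent.U296.Theta.mat _ (Pool.Agent.U296.Theta.cls_surj hm0)).IsFlat F ∧
    (Pool.Agent.U296.Theta.mat _ (Pool.Agent.U296.Theta.cls_surj hm0)).eRk F =
      ((6 * m - 3 : ℕ) : ℕ∞)} : Set (Set (Pool.Agent.U296.Theta.V m))).ncard = c at h e4
  obtain ⟨k, hk⟩ : ∃ k : ℕ, k = 6 * m - 4 := ⟨_, rfl⟩
  rw [← hk] at h
  have hkn : k ≤ n := by omega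
  have hbc : b ^ 2 < a * c := by
    calc b ^ 2 ≤ (12960 * m ^ 4) ^ 2 := Nat.pow_le_pow_left e3 2
      _ = 167961600 * m ^ 8 := by ring
      _ < m * m ^ 8 := Nat.mul_lt_mul_of_pos_right hmbig (by positivity)
      _ = m ^ 6 * m ^ 3 := by ring
      _ ≤ a * c := Nat.mul_le_mul e2 e4
  have q1 : (k : ℚ) ≤ (n : ℚ) := by exact_mod_cast hkn
  have q2 : (b : ℚ) ^ 2 < (a : ℚ) * (c : ℚ) := by exact_mod_cast hbc
  have q3 : (0 : ℚ) ≤ (k : ℚ) := Nat.cast_nonneg k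
  have q4 : (k : ℚ) * ((n : ℚ) - k) ≤ ((k : ℚ) + 1) * ((n : ℚ) - k + 1) := by nlinarith
  have q5 : (k : ℚ) * ((n : ℚ) - k) * (b : ℚ) ^ 2 ≤
      ((k : ℚ) + 1) * ((n : ℚ) - k + 1) * (b : ℚ) ^ 2 :=
    mul_le_mul_of_nonneg_right q4 (sq_nonneg _)
  have q6 : ((k : ℚ) + 1) * ((n : ℚ) - k + 1) * (b : ℚ) ^ 2 <
      ((k : ℚ) + 1) * ((n : ℚ) - k + 1) * ((a : ℚ) * (c : ℚ)) := by
    apply mul_lt_mul_of_pos_left q2
    have : (0 : ℚ) < (n : ℚ) - k + 1 := by linarith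
    positivity
  have q7 : ((k : ℚ) + 1) * ((n : ℚ) - k + 1) * ((a : ℚ) * (c : ℚ)) =
      ((k : ℚ) + 1) * ((n : ℚ) - k + 1) * (a : ℚ) * (c : ℚ) := by ring
  linarith

end Pool.Agent.S08394
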