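import Pool.Statements.S08459
import Pool.Agent.Helper861.DeltaD

set_option autoImplicit false
open Pool Pool.MP_456239_co

namespace Pool.Agent.S08459

/-- For every finite simple graph G on n vertices there is a real symmetric matrix A, with (i,j) entry nonzero exactly for edges ij (i≠j, diagonal free), such that rank(A) ≤ n − δ(G); that is, maximum nullity is at least minimum degree. -/
theorem result :
    ∀ (n : ℕ) (G : SimpleGraph (Fin n)) [DecidableRel G.Adj],
      ∃ A : Matrix (Fin n) (Fin n) ℝ,
        A.IsSymm ∧
        (∀ i j : Fin n, i ≠ j → (A i j ≠ 0 ↔ G.Adj i j)) ∧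
        G.minDegree + A.rank ≤ n := by
  intro n G _
  obtain ⟨A, h1, h2, h3⟩ := Pool.Agent.Helper861.Delta.delta ℝ (Fin n) G
  refine ⟨A, h1, h2, ?_⟩
  rw [Fintype.card_fin] at h3
  omega

end Pool.Agent.S08459
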