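import Pool.Statements.S08570
-- import your own Pool.Agent.* helpers here
import Pool.Agent.U113.TH.Final

set_option autoImplicit false
open Pool Pool.MP_49949b_co

namespace Pool.Agent.S08570

/-- The negation of the preceding statement: Some finite projective plane of order n=k² has a quasiregular collineation group G with 2∣G∣>n²+n+1, ∣G∣=(n−k+1)², exactly 2k+1 point orbits, and no point or line fixed by all of G. -/
theorem result :
    ¬ (∃ (P L : Type) (_ : Membership P L) (_ : Configuration.ProjectivePlane P L)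
      (_ : Finite P) (G : Type) (_ : Group G) (_ : Finite G)
      (_ : MulAction G P) (_ : MulAction G L) (k : ℕ),
      Configuration.ProjectivePlane.order P L = k ^ 2 ∧
      FaithfulSMul G P ∧
      (∀ (g : G) (p : P) (l : L), p ∈ l ↔ g • p ∈ g • l) ∧
      (∀ (g : G) (p q : P), q ∈ MulAction.orbit G p → g • p = p → g • q = q) ∧
      (∀ (g : G) (l m : L), m ∈ MulAction.orbit G l → g • l = l → g • m = m) ∧
      2 * Nat.card G > (k ^ 2) ^ 2 + k ^ 2 + 1 ∧
      Nat.card G = (k ^ 2 - k + 1) ^ 2 ∧
      Nat.card (MulAction.orbitRel.Quotient G P) = 2 * k + 1 ∧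
      (¬ ∃ p : P, ∀ g : G, g • p = p) ∧
      (¬ ∃ l : L, ∀ g : G, g • l = l)) := by
  classical
  rintro ⟨P, L, hmem, hplane, hP, G, hgrp, hG, hGP, hGL, k, ho, hf, hinc, hqr, -, hbig, hcard, horb,
    hnp, hnl⟩
  have hL : Finite L := by
    apply Finite.of_injective (fun l : L => {p : P | p ∈ l})
    intro l m hlm
    by_contra hne
    obtain ⟨p, hp, hu⟩ := Configuration.HasPoints.existsUnique_point P L l m hne
    obtain ⟨a, ha1, ha2, hab⟩ : ∃ a : P, a ∈ l ∧ a ∈ m ∧ a ≠ p := by
      obtain ⟨l', hl'⟩ := Configuration.Nondegenerate.exists_line (L := L) p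
      have hne' : l' ≠ l := by rintro rfl; exact hl' hp.1
      obtain ⟨a, ha, -⟩ := Configuration.HasPoints.existsUnique_point P L l' l hne'
      refine ⟨a, ha.2, ?_, ?_⟩
      · have : a ∈ {p : P | p ∈ l} := ha.2
        rw [show {p : P | p ∈ l} = {p : P | p ∈ m} from hlm] at this
        exact this
      · rintro rfl; exact hl' ha.1
    exact hab (hu a ⟨ha1, ha2⟩)
  have : Fintype P := Fintype.ofFinite P
  have : Fintype L := Fintype.ofFinite L
  have : Fintype G := Fintype.ofFinite G
  have hQ : Pool.Agent.U113.TH.QR P L G :=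
    { inc := hinc
      qr := hqr
      nofixP := hnp
      nofixL := hnl
      faithful := fun g hg => hf.eq_of_smul_eq_smul (fun p => by rw [hg p, one_smul]) }
  obtain ⟨ι, hι, p0, x, hTH⟩ := hQ.exists_TH ho hcard hbig horb
  exact hTH.false

end Pool.Agent.S08570
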