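import Pool.Statements.S08645
import Pool.Agent.K3h87.WB.Main
import Pool.Agent.Helper244.Br.Final

set_option autoImplicit false
open Pool Pool.MP_4d2320_co

namespace Pool.Agent.S08645

/-- Brouwer's inequality for the graphs on `Fin n`, in the form needed for the level graphs. -/
theorem edgeBound {n : ℕ} (G : SimpleGraph (Fin n)) (k : ℕ) :
    Pool.Agent.K3h87.WB.EdgeBound G k ((k + 1).choose 2) := by
  classical
  rw [Pool.Agent.K3h87.WB.edgeBound_def]
  intro s hs
  have h := Pool.Br.brouwer_finset G s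
  have e : (((k + 1).choose 2 : ℕ) : ℝ) = ((k : ℝ) ^ 2 + k) / 2 := by
    rw [Nat.cast_choose_two]
    push_cast
    ring
  rw [e, ← hs]
  exact h

/-- For every symmetric nonnegative zero-diagonal real matrix and each k from 1 to n−1, the sum of the k largest Laplacian eigenvalues is at most the total edge weight plus the sum of the C(k+1,2) largest off-diagonal weights. -/
theorem result :
    ∀ (n : ℕ) (A : Matrix (Fin n) (Fin n) ℝ), A.IsSymm → (∀ i j, 0 ≤ A i j) → (∀ i, A i i = 0) →
      ∀ (hL : (Matrix.diagonal (fun i => ∑ j, A i j) - A).IsHermitian),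
      ∀ k : ℕ, 1 ≤ k → k ≤ n - 1 →
      ∀ s : Finset (Fin n), s.card = k →
        ∃ P : Finset (Fin n × Fin n), P.card = (k + 1).choose 2 ∧ (∀ p ∈ P, p.1 < p.2) ∧
          ∑ i ∈ s, hL.eigenvalues i ≤
            (∑ i, ∑ j, if i < j then A i j else 0) + ∑ p ∈ P, A p.1 p.2 := by
  intro n A hA h0 _ hL k hk hkn s hs
  exact Pool.Agent.K3h87.WB.main hA h0 (Nat.choose_le_choose 2 (by omega))
    (fun t _ => edgeBound _ k) hL s hs

end Pool.Agent.S08645
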