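import Pool.Statements.S08686

set_option autoImplicit false
open Pool Pool.MP_4e7ec3_co

namespace Pool.Agent.S08686

/-- The map on indices `0, …, 15`. -/
def t (j : ℕ) : ℕ :=
  4 * (j / 4) + (if j % 4 = 0 then 1 else if j % 4 = 1 then 2 else if j % 4 = 2 then 1 else 2)

theorem t_div (j : ℕ) : t j / 4 = j / 4 := by
  unfold t; split_ifs <;> omega

theorem t_mod (j : ℕ) : t j % 4 = 1 ∨ t j % 4 = 2 := by
  unfold t; split_ifs <;> omega

theorem t_lt {j : ℕ} (h : j < 16) : t j < 16 := by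
  unfold t; split_ifs <;> omega

theorem t_ne (j : ℕ) : t j + 1 ≤ j ∨ j + 1 ≤ t j := by
  unfold t; split_ifs <;> omega

/-- The real map. -/
noncomputable def T (x : ℝ) : ℝ := (t ⌊15 * x⌋₊ : ℝ) / 15

theorem T_div (j : ℕ) : T ((j : ℝ) / 15) = (t j : ℝ) / 15 := by
  unfold T
  have : (15 : ℝ) * ((j : ℝ) / 15) = j := by ring
  rw [this, Nat.floor_natCast]

/-- The sixteen points. -/
noncomputable def F : Finset ℝ := (Finset.range 16).image (fun j : ℕ => (j : ℝ) / 15)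

theorem mem_F {x : ℝ} : x ∈ F ↔ ∃ j : ℕ, j < 16 ∧ (j : ℝ) / 15 = x := by
  simp [F]

theorem result :
    ¬ (∃ k : ℝ, ∀ (F : Finset ℝ) (ε : ℝ) (T : ℝ → ℝ),
      (∀ p ∈ F, 0 ≤ p ∧ p ≤ 1) → (0 : ℝ) ∈ F → (1 : ℝ) ∈ F → 0 < ε →
      (∀ p ∈ F, T p ∈ F ∧ ε < |p - T p|) →
      ∃ p₀ ∈ F, ∃ n : ℕ, (n : ℝ) ≤ k / ε ∧
        ∃ x : ℕ → ℝ, x 0 = p₀ ∧
          (∀ i < n,
            x (i + 1) = T (x i) ∨
            (x (i + 1) ∈ F ∧ x (i + 1) < T (x i) ∧
              ∀ r ∈ F, r < T (x i) → r ≤ x (i + 1)) ∨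
            (x (i + 1) ∈ F ∧ T (x i) < x (i + 1) ∧
              ∀ r ∈ F, T (x i) < r → x (i + 1) ≤ r)) ∧
          1 / 3 ≤ |x n - p₀|) := by
  rintro ⟨k, hk⟩
  obtain ⟨p₀, hp₀, n, -, x, hx0, hstep, hfar⟩ := hk F (1 / 16) T
    (by
      intro p hp
      obtain ⟨j, hj, rfl⟩ := mem_F.1 hp
      have : (j : ℝ) ≤ 15 := by exact_mod_cast (by omega : j ≤ 15)
      constructor
      · positivity
      · linarith)
    (mem_F.2 ⟨0, by norm_num, by norm_num⟩) (mem_F.2 ⟨15, by norm_num, by norm_num⟩)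
    (by norm_num)
    (by
      intro p hp
      obtain ⟨j, hj, rfl⟩ := mem_F.1 hp
      rw [T_div]
      refine ⟨mem_F.2 ⟨t j, t_lt hj, rfl⟩, ?_⟩
      rcases t_ne j with h | h
      · have h' : (t j : ℝ) + 1 ≤ j := by exact_mod_cast h
        rw [abs_of_nonneg (by linarith)]
        linarith
      · have h' : (j : ℝ) + 1 ≤ t j := by exact_mod_cast h
        rw [abs_of_nonpos (by linarith)]
        linarith)
  obtain ⟨j₀, hj₀, rfl⟩ := mem_F.1 hp₀
  have key : ∀ i ≤ n, ∃ j : ℕ, j < 16 ∧ j / 4 = j₀ / 4 ∧ x i = (j : ℝ) / 15 := by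
    intro i
    induction i with
    | zero => intro _; exact ⟨j₀, hj₀, rfl, hx0⟩
    | succ i ih =>
      intro hi
      obtain ⟨j, hj, hjd, hxj⟩ := ih (by omega)
      have hs := hstep i (by omega)
      rw [hxj, T_div] at hs
      have hd := t_div j
      have hm := t_mod j
      have hlt := t_lt hj
      rcases hs with h | ⟨h1, h2, h3⟩ | ⟨h1, h2, h3⟩
      · exact ⟨t j, hlt, by omega, h⟩
      · obtain ⟨m, hm16, hme⟩ := mem_F.1 h1
        rw [← hme] at h2 h3 ⊢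
        have h2' : m < t j := by
          have : (m : ℝ) < t j := by linarith
          exact_mod_cast this
        have h3' := h3 (((t j - 1 : ℕ) : ℝ) / 15) (mem_F.2 ⟨t j - 1, by omega, rfl⟩) (by
          have : ((t j - 1 : ℕ) : ℝ) < t j := by exact_mod_cast (by omega : t j - 1 < t j)
          linarith)
        have h4 : t j - 1 ≤ m := by
          have : ((t j - 1 : ℕ) : ℝ) ≤ m := by linarith
          exact_mod_cast this
        exact ⟨m, hm16, by omega, rfl⟩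
      · obtain ⟨m, hm16, hme⟩ := mem_F.1 h1
        rw [← hme] at h2 h3 ⊢
        have h2' : t j < m := by
          have : (t j : ℝ) < m := by linarith
          exact_mod_cast this
        have h3' := h3 (((t j + 1 : ℕ) : ℝ) / 15) (mem_F.2 ⟨t j + 1, by omega, rfl⟩) (by
          have : (t j : ℝ) < ((t j + 1 : ℕ) : ℝ) := by exact_mod_cast (by omega : t j < t j + 1)
          linarith)
        have h4 : m ≤ t j + 1 := by
          have : (m : ℝ) ≤ ((t j + 1 : ℕ) : ℝ) := by linarith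
          exact_mod_cast this
        exact ⟨m, hm16, by omega, rfl⟩
  obtain ⟨j, hj, hjd, hxj⟩ := key n le_rfl
  rw [hxj] at hfar
  have h1 : j ≤ j₀ + 3 := by omega
  have h2 : j₀ ≤ j + 3 := by omega
  have h1' : (j : ℝ) ≤ j₀ + 3 := by exact_mod_cast h1
  have h2' : (j₀ : ℝ) ≤ j + 3 := by exact_mod_cast h2
  have : |(j : ℝ) / 15 - (j₀ : ℝ) / 15| ≤ 1 / 5 := by
    rw [abs_le]
    constructor <;> linarith
  linarith

end Pool.Agent.S08686
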