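import Pool.Statements.S08706
import Pool.Agent.U375.Burl.Chrom

set_option autoImplicit false
open Pool Pool.MP_4f8534_co

namespace Pool.Agent.S08706

/-- The negation of the preceding statement: There is a constant c such that every finite triangle-free graph, each of whose induced subgraphs is 3-colorable or has a star cutset (a star whose removal leaves two mutually unreachable vertices), is c-colorable. -/
theorem result :
    ¬ (∃ c : ℕ, ∀ (V : Type) [Fintype V] (G : SimpleGraph V),
      G.CliqueFree 3 →
      (∀ T : Set V, (G.induce T).Colorable 3 ∨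
        ∃ S : Set V, S ⊆ T ∧ (∃ v ∈ S, ∀ w ∈ S, w ≠ v → G.Adj v w) ∧
          ∃ a b : ↥(T \ S), ¬ (G.induce (T \ S)).Reachable a b) →
      G.Colorable c) := by
  rintro ⟨c, hc⟩
  obtain ⟨V, hV, B, hB⟩ := Pool.Agent.U375.Burl.not_colorable c
  have := Fintype.ofFinite V
  exact hB (hc V B.graph B.cliqueFree B.star)

end Pool.Agent.S08706
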