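import Pool.Statements.S08782
import Pool.Agent.U67.SNP.Fail

set_option autoImplicit false
open Pool Pool.MP_5400b1_co

namespace Pool.Agent.S08782

/-- The negation of the preceding statement: For every finite graph G: if, for each k, its chromatic polynomial in k variables is a nonnegative integer combination of Schur polynomials, then for each k every lattice point in its Newton polytope is an exponent of that polynomial.

The counterexample is the blow-up of the path with four vertices by independent sets of sizes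
4, 2, 2, 4, together with an isolated vertex: the exponents (9, 2, 2) and (7, 6, 0) occur and their
midpoint (8, 4, 1) does not. -/
theorem result :
    ¬ (∀ (V : Type) [Fintype V] (G : SimpleGraph V),
      (∀ k : ℕ, ∃ c : YoungDiagram →₀ ℕ,
        (∑ᶠ κ : {κ : V → Fin k // ∀ u v, G.Adj u v → κ u ≠ κ v},
            ∏ v, (MvPolynomial.X ((κ.1 v : ℕ)) : MvPolynomial ℕ ℤ)) =
          c.sum (fun μ a => a • ∑ᶠ T : {T : SemistandardYoungTableau μ //
              ∀ p ∈ μ.cells, T p.1 p.2 < k},
            ∏ p ∈ μ.cells, (MvPolynomial.X (T.1 p.1 p.2) : MvPolynomial ℕ ℤ))) →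
      ∀ k : ℕ, ∀ α : ℕ →₀ ℕ,
        (fun i : ℕ => (α i : ℝ)) ∈ convexHull ℝ
          ((fun β : ℕ →₀ ℕ => (fun i : ℕ => (β i : ℝ))) ''
            ((∑ᶠ κ : {κ : V → Fin k // ∀ u v, G.Adj u v → κ u ≠ κ v},
              ∏ v, (MvPolynomial.X ((κ.1 v : ℕ)) : MvPolynomial ℕ ℤ)).support : Set (ℕ →₀ ℕ))) →
        α ∈ (∑ᶠ κ : {κ : V → Fin k // ∀ u v, G.Adj u v → κ u ≠ κ v},
              ∏ v, (MvPolynomial.X ((κ.1 v : ℕ)) : MvPolynomial ℕ ℤ)).support) := by
  intro h
  have h1 := h (Option (Fin 12)) Pool.Agent.U67.SNP.G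
    (fun k => ⟨Pool.Agent.U67.SNP.coef, Pool.Agent.U67.SNP.schur_pos k⟩) 3
    (Pool.Agent.U67.SNP.ex 8 4 1) Pool.Agent.U67.SNP.hull
  exact Pool.Agent.U67.SNP.notsup h1

end Pool.Agent.S08782
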