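import Pool.Statements.S09354
-- import your own Pool.Agent.* helpers here

set_option autoImplicit false
open Pool Pool.MP_6d0115_co

namespace Pool.Agent.S09354

/-!
The conjecture fails at `k = 2` for all `n` for which `σ(n) / n` is large, for example `n = m!` with
`m` large: `a_{n,1} = σ(n) / n` is unbounded, `a_{n,3} ≥ (n - 1) (n - 2) / 12`, while `a_{n,2} = O(n)`,
because the mean value of `(σ(j) / j) ^ 2` is bounded.
-/

open Finset

/-- The D'Arcais polynomials. -/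
noncomputable def DP : ℕ → Polynomial ℚ
  | 0 => 1
  | n + 1 => Polynomial.C (1 / ((n : ℚ) + 1)) * (Polynomial.X * ∑ k : Fin (n + 1),
      ((ArithmeticFunction.sigma 1 ((k : ℕ) + 1) : ℕ) : Polynomial ℚ) * DP (n - k))
decreasing_by omega

theorem DP_rec (n : ℕ) (hn : 1 ≤ n) :
    (n : Polynomial ℚ) * DP n = Polynomial.X * ∑ k ∈ Finset.Icc 1 n,
      ((ArithmeticFunction.sigma 1 k : ℕ) : Polynomial ℚ) * DP (n - k) := by
  obtain ⟨m, rfl⟩ : ∃ m, n = m + 1 := ⟨n - 1, by omega⟩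
  have h1 : ((m + 1 : ℕ) : Polynomial ℚ) * Polynomial.C (1 / ((m : ℚ) + 1)) = 1 := by
    have h2 : ((m + 1 : ℕ) : Polynomial ℚ) = Polynomial.C ((m : ℚ) + 1) := by
      rw [← Polynomial.C_eq_natCast]
      push_cast
      rfl
    rw [h2, ← Polynomial.C_mul, mul_one_div_cancel (by positivity), Polynomial.C_1]
  rw [DP, ← mul_assoc, h1, one_mul]
  congr 1
  rw [Finset.sum_fin_eq_sum_range]
  have h3 : Finset.Icc 1 (m + 1) = (Finset.range (m + 1)).image (fun k => k + 1) := by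
    ext x
    simp only [Finset.mem_Icc, Finset.mem_image, Finset.mem_range]
    constructor
    · rintro ⟨h4, h5⟩
      exact ⟨x - 1, by omega, by omega⟩
    · rintro ⟨y, h4, rfl⟩
      omega
  rw [h3, Finset.sum_image (by intro x _ y _ h; simpa using h)]
  refine Finset.sum_congr rfl fun k hk => ?_
  rw [dif_pos (Finset.mem_range.1 hk)]
  have h6 : m + 1 - (k + 1) = m - k := by omega
  rw [h6]

/-- The coefficients. -/
noncomputable def a (n k : ℕ) : ℚ := (DP n).coeff k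

theorem a_rec (n k : ℕ) (hn : 1 ≤ n) : (n : ℚ) * a n (k + 1) =
    ∑ j ∈ Finset.Icc 1 n, (ArithmeticFunction.sigma 1 j : ℚ) * a (n - j) k := by
  have h1 := congrArg (fun p => Polynomial.coeff p (k + 1)) (DP_rec n hn)
  simp only [Polynomial.coeff_X_mul, Polynomial.finsetSum_coeff] at h1
  rw [← Polynomial.C_eq_natCast, Polynomial.coeff_C_mul] at h1
  rw [a, h1]
  refine Finset.sum_congr rfl fun j _ => ?_
  rw [← Polynomial.C_eq_natCast, Polynomial.coeff_C_mul]
  rfl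

theorem a_zero_zero : a 0 0 = 1 := by
  rw [a, DP]
  exact Polynomial.coeff_one_zero

theorem a_zero_succ (k : ℕ) : a 0 (k + 1) = 0 := by
  rw [a, DP, Polynomial.coeff_one]
  simp

theorem a_succ_zero (n : ℕ) (hn : 1 ≤ n) : a n 0 = 0 := by
  have h1 := congrArg (fun p => Polynomial.coeff p 0) (DP_rec n hn)
  simp only [Polynomial.coeff_X_mul_zero] at h1
  rw [← Polynomial.C_eq_natCast, Polynomial.coeff_C_mul] at h1
  have h2 : (n : ℚ) ≠ 0 := by positivity
  rcases mul_eq_zero.1 h1 with h | h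
  · exact absurd h h2
  · exact h

/-- `σ(n) / n`. -/
noncomputable def s (n : ℕ) : ℝ := (ArithmeticFunction.sigma 1 n : ℝ) / n

theorem s_zero : s 0 = 0 := by simp [s]

theorem a_one (n : ℕ) : ((a n 1 : ℚ) : ℝ) = s n := by
  rcases Nat.eq_zero_or_pos n with h | h
  · subst h
    rw [a_zero_succ 0, s_zero]
    norm_num
  · have h1 := a_rec n 0 h
    rw [Finset.sum_eq_single n] at h1
    · rw [Nat.sub_self, a_zero_zero, mul_one] at h1
      have h2 : (n : ℝ) ≠ 0 := by positivity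
      rw [s, eq_div_iff h2, mul_comm]
      exact_mod_cast h1
    · intro j hj hne
      rw [Finset.mem_Icc] at hj
      rw [a_succ_zero (n - j) (by omega), mul_zero]
    · intro h3
      exact absurd (Finset.mem_Icc.2 ⟨h, le_rfl⟩) h3

theorem le_sigma (j : ℕ) (hj : 1 ≤ j) : j ≤ ArithmeticFunction.sigma 1 j := by
  rw [ArithmeticFunction.sigma_one_apply]
  exact Finset.single_le_sum (f := fun d => d) (fun _ _ => Nat.zero_le _)
    (Nat.mem_divisors_self j (by omega))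

theorem s_eq (j : ℕ) (hj : 1 ≤ j) : s j = ∑ d ∈ j.divisors, (1 : ℝ) / d := by
  have hj0 : (j : ℝ) ≠ 0 := by positivity
  have h1 := Nat.sum_div_divisors j (fun d => (d : ℝ))
  rw [s, ArithmeticFunction.sigma_one_apply]
  push_cast
  rw [← h1, Finset.sum_div]
  refine Finset.sum_congr rfl fun d hd => ?_
  have hdj : d ∣ j := Nat.dvd_of_mem_divisors hd
  have hd0 : (d : ℝ) ≠ 0 := by
    have : 0 < d := Nat.pos_of_mem_divisors hd
    positivity
  rw [Nat.cast_div hdj hd0]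
  field_simp

theorem one_le_s (j : ℕ) (hj : 1 ≤ j) : 1 ≤ s j := by
  have hj0 : (0 : ℝ) < j := by positivity
  rw [s, le_div_iff₀ hj0, one_mul]
  exact_mod_cast le_sigma j hj

theorem s_nonneg (j : ℕ) : 0 ≤ s j := by
  unfold s
  positivity

/-- Lower bound for the second coefficient. -/
theorem a_two_lower (n : ℕ) (hn : 1 ≤ n) : ((n : ℝ) - 1) / 2 ≤ ((a n 2 : ℚ) : ℝ) := by
  have h1 : (n : ℝ) * ((a n 2 : ℚ) : ℝ) =
      ∑ j ∈ Finset.Icc 1 n, (ArithmeticFunction.sigma 1 j : ℝ) * s (n - j) := by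
    have h2 := congrArg (fun q : ℚ => (q : ℝ)) (a_rec n 1 hn)
    push_cast at h2
    rw [h2]
    exact Finset.sum_congr rfl fun j _ => by rw [a_one]
  have hn0 : (0 : ℝ) < n := by positivity
  have h3 : ∑ j ∈ Finset.range n, (j : ℝ) ≤ (n : ℝ) * ((a n 2 : ℚ) : ℝ) := by
    rw [h1]
    have h4 : ∑ j ∈ Finset.range n, (j : ℝ) = ∑ j ∈ Finset.range n \ {0}, (j : ℝ) := by
      rw [Finset.sum_sdiff_eq_sub (by
        rw [Finset.singleton_subset_iff, Finset.mem_range]
        omega)]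
      simp
    rw [h4]
    have h5 : Finset.range n \ {0} ⊆ Finset.Icc 1 n := by
      intro j hj
      rw [Finset.mem_sdiff, Finset.mem_range, Finset.mem_singleton] at hj
      rw [Finset.mem_Icc]
      omega
    refine le_trans ?_ (Finset.sum_le_sum_of_subset_of_nonneg h5 fun j _ _ =>
      mul_nonneg (by positivity) (s_nonneg _))
    refine Finset.sum_le_sum fun j hj => ?_
    rw [Finset.mem_sdiff, Finset.mem_range, Finset.mem_singleton] at hj
    have h6 : (j : ℝ) ≤ (ArithmeticFunction.sigma 1 j : ℝ) := by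
      exact_mod_cast le_sigma j (by omega)
    have h7 := one_le_s (n - j) (by omega)
    calc (j : ℝ) = j * 1 := (mul_one _).symm
      _ ≤ _ := mul_le_mul h6 h7 (by norm_num) (by positivity)
  have h8 : ∑ j ∈ Finset.range n, (j : ℝ) = n * (n - 1) / 2 := by
    clear h1 h3
    induction n, hn using Nat.le_induction with
    | base => simp
    | succ m hm ih =>
      rw [Finset.sum_range_succ, ih (by positivity)]
      push_cast
      ring
  rw [h8] at h3
  have h9 : (n : ℝ) * (((n : ℝ) - 1) / 2) ≤ (n : ℝ) * ((a n 2 : ℚ) : ℝ) := by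
    refine le_trans (le_of_eq ?_) h3
    ring
  exact le_of_mul_le_mul_left h9 hn0

theorem a_two_nonneg (n : ℕ) : 0 ≤ ((a n 2 : ℚ) : ℝ) := by
  rcases Nat.eq_zero_or_pos n with h | h
  · subst h
    rw [a_zero_succ 1]
    norm_num
  · have h1 := a_two_lower n h
    have h2 : (1 : ℝ) ≤ n := by exact_mod_cast h
    linarith

/-- Lower bound for the third coefficient. -/
theorem a_three_lower (n : ℕ) (hn : 1 ≤ n) :
    ((n : ℝ) - 1) * (n - 2) / 12 ≤ ((a n 3 : ℚ) : ℝ) := by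
  have h1 : (n : ℝ) * ((a n 3 : ℚ) : ℝ) =
      ∑ j ∈ Finset.Icc 1 n, (ArithmeticFunction.sigma 1 j : ℝ) * ((a (n - j) 2 : ℚ) : ℝ) := by
    have h2 := congrArg (fun q : ℚ => (q : ℝ)) (a_rec n 2 hn)
    push_cast at h2
    exact h2
  have hn0 : (0 : ℝ) < n := by positivity
  have h3 : ∑ j ∈ Finset.range n, (j : ℝ) * (((n : ℝ) - j - 1) / 2) ≤
      (n : ℝ) * ((a n 3 : ℚ) : ℝ) := by
    rw [h1]
    have h4 : ∑ j ∈ Finset.range n, (j : ℝ) * (((n : ℝ) - j - 1) / 2) =
        ∑ j ∈ Finset.range n \ {0}, (j : ℝ) * (((n : ℝ) - j - 1) / 2) := by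
      rw [Finset.sum_sdiff_eq_sub (by
        rw [Finset.singleton_subset_iff, Finset.mem_range]
        omega)]
      simp
    rw [h4]
    have h5 : Finset.range n \ {0} ⊆ Finset.Icc 1 n := by
      intro j hj
      rw [Finset.mem_sdiff, Finset.mem_range, Finset.mem_singleton] at hj
      rw [Finset.mem_Icc]
      omega
    refine le_trans ?_ (Finset.sum_le_sum_of_subset_of_nonneg h5 fun j _ _ =>
      mul_nonneg (by positivity) (a_two_nonneg _))
    refine Finset.sum_le_sum fun j hj => ?_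
    rw [Finset.mem_sdiff, Finset.mem_range, Finset.mem_singleton] at hj
    have h6 : (j : ℝ) ≤ (ArithmeticFunction.sigma 1 j : ℝ) := by
      exact_mod_cast le_sigma j (by omega)
    have h7 := a_two_lower (n - j) (by omega)
    have h8 : ((n - j : ℕ) : ℝ) = (n : ℝ) - j := Nat.cast_sub (by omega)
    rw [h8] at h7
    have h9 : (0 : ℝ) ≤ ((n : ℝ) - j - 1) / 2 := by
      have h10 : ((j + 1 : ℕ) : ℝ) ≤ n := by exact_mod_cast (by omega : j + 1 ≤ n)
      push_cast at h10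
      linarith
    exact mul_le_mul h6 h7 h9 (by positivity)
  have key : ∀ (m : ℕ) (x : ℝ), ∑ j ∈ Finset.range m, (j : ℝ) * ((x - j - 1) / 2) =
      m * (m - 1) * (3 * x - 2 * m - 2) / 12 := by
    intro m x
    induction m with
    | zero => simp
    | succ m ih =>
      rw [Finset.sum_range_succ, ih]
      push_cast
      ring
  rw [key] at h3
  have h9 : (n : ℝ) * (((n : ℝ) - 1) * (n - 2) / 12) ≤ (n : ℝ) * ((a n 3 : ℚ) : ℝ) := by
    refine le_trans (le_of_eq ?_) h3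
    ring
  exact le_of_mul_le_mul_left h9 hn0

/-- The weights. -/
noncomputable def u (d : ℕ) : ℝ := (d : ℝ) ^ (-(3 / 2) : ℝ)
noncomputable def w (d : ℕ) : ℝ := (d : ℝ) ^ (-(1 / 2) : ℝ)

theorem u_nonneg (d : ℕ) : 0 ≤ u d := Real.rpow_nonneg (Nat.cast_nonneg d) _
theorem w_nonneg (d : ℕ) : 0 ≤ w d := Real.rpow_nonneg (Nat.cast_nonneg d) _

theorem u_summable : Summable u := Real.summable_nat_rpow.2 (by norm_num)

noncomputable def z : ℝ := ∑' d, u d

theorem z_nonneg : 0 ≤ z := tsum_nonneg u_nonneg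

theorem sum_u_le (D : Finset ℕ) : ∑ d ∈ D, u d ≤ z :=
  u_summable.sum_le_tsum D fun d _ => u_nonneg d

theorem s_sq_le (j : ℕ) (hj : 1 ≤ j) : s j ^ 2 ≤ z * ∑ d ∈ j.divisors, w d := by
  rw [s_eq j hj]
  refine (Finset.sum_sq_le_sum_mul_sum_of_sq_le_mul j.divisors (f := u) (g := w)
    (fun d _ => u_nonneg d) (fun d _ => w_nonneg d) ?_).trans
    (mul_le_mul_of_nonneg_right (sum_u_le _) (Finset.sum_nonneg fun d _ => w_nonneg d))
  intro d hd
  have hd0 : (0 : ℝ) < d := by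
    have : 0 < d := Nat.pos_of_mem_divisors hd
    positivity
  refine le_of_eq ?_
  rw [u, w, ← Real.rpow_add hd0]
  have h1 : (-(3 / 2) + -(1 / 2) : ℝ) = -2 := by norm_num
  rw [h1, Real.rpow_neg hd0.le, one_div, inv_pow]
  norm_num

/-- The mean square. -/
theorem mean_sq (n : ℕ) : ∑ j ∈ Finset.Ioc 0 n, s j ^ 2 ≤ z ^ 2 * n := by
  have h1 : ∑ j ∈ Finset.Ioc 0 n, s j ^ 2 ≤
      z * ∑ j ∈ Finset.Ioc 0 n, ∑ d ∈ j.divisors, w d := by
    rw [Finset.mul_sum]
    refine Finset.sum_le_sum fun j hj => ?_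
    rw [Finset.mem_Ioc] at hj
    exact s_sq_le j hj.1
  have h2 : ∑ j ∈ Finset.Ioc 0 n, ∑ d ∈ j.divisors, w d =
      ∑ d ∈ Finset.Ioc 0 n, ((n / d : ℕ) : ℝ) * w d := by
    have h3 : ∀ j ∈ Finset.Ioc 0 n, ∑ d ∈ j.divisors, w d =
        ∑ d ∈ Finset.Ioc 0 n, if d ∣ j then w d else 0 := by
      intro j hj
      rw [Finset.mem_Ioc] at hj
      rw [← Finset.sum_filter]
      refine Finset.sum_congr ?_ fun _ _ => rfl
      ext d
      rw [Nat.mem_divisors, Finset.mem_filter, Finset.mem_Ioc]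
      constructor
      · rintro ⟨h4, h5⟩
        exact ⟨⟨Nat.pos_of_dvd_of_pos h4 hj.1, (Nat.le_of_dvd hj.1 h4).trans hj.2⟩, h4⟩
      · rintro ⟨-, h4⟩
        exact ⟨h4, by omega⟩
    rw [Finset.sum_congr rfl h3, Finset.sum_comm]
    refine Finset.sum_congr rfl fun d _ => ?_
    rw [← Finset.sum_filter, Finset.sum_const, nsmul_eq_mul, Nat.Ioc_filter_dvd_card_eq_div]
  have h4 : ∑ d ∈ Finset.Ioc 0 n, ((n / d : ℕ) : ℝ) * w d ≤ z * n := by
    have h5 : ∑ d ∈ Finset.Ioc 0 n, ((n / d : ℕ) : ℝ) * w d ≤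
        ∑ d ∈ Finset.Ioc 0 n, u d * n := by
      refine Finset.sum_le_sum fun d hd => ?_
      rw [Finset.mem_Ioc] at hd
      have hd0 : (0 : ℝ) < d := by exact_mod_cast hd.1
      have h6 : ((n / d : ℕ) : ℝ) ≤ n / d := Nat.cast_div_le
      have h7 : u d * n = (n / d : ℝ) * w d := by
        have h8 : u d = w d * (d : ℝ)⁻¹ := by
          rw [u, w, ← Real.rpow_neg_one, ← Real.rpow_add hd0]
          norm_num
        rw [h8]
        ring
      rw [h7]
      exact mul_le_mul_of_nonneg_right h6 (w_nonneg d)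
    refine h5.trans ?_
    rw [← Finset.sum_mul]
    exact mul_le_mul_of_nonneg_right (sum_u_le _) (Nat.cast_nonneg n)
  rw [h2] at h1
  calc ∑ j ∈ Finset.Ioc 0 n, s j ^ 2 ≤ z * ∑ d ∈ Finset.Ioc 0 n, ((n / d : ℕ) : ℝ) * w d := h1
    _ ≤ z * (z * n) := mul_le_mul_of_nonneg_left h4 z_nonneg
    _ = z ^ 2 * n := by ring

/-- Upper bound for the second coefficient. -/
theorem a_two_upper (n : ℕ) (hn : 1 ≤ n) : ((a n 2 : ℚ) : ℝ) ≤ z ^ 2 * n := by
  have h1 : (n : ℝ) * ((a n 2 : ℚ) : ℝ) =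
      ∑ j ∈ Finset.Icc 1 n, (ArithmeticFunction.sigma 1 j : ℝ) * s (n - j) := by
    have h2 := congrArg (fun q : ℚ => (q : ℝ)) (a_rec n 1 hn)
    push_cast at h2
    rw [h2]
    exact Finset.sum_congr rfl fun j _ => by rw [a_one]
  have hn0 : (0 : ℝ) < n := by positivity
  have hT : ∑ j ∈ Finset.range (n + 1), s j ^ 2 ≤ z ^ 2 * n := by
    refine le_trans (le_of_eq ?_) (mean_sq n)
    have h3 : Finset.range (n + 1) = insert 0 (Finset.Ioc 0 n) := by
      ext x
      rw [Finset.mem_range, Finset.mem_insert, Finset.mem_Ioc]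
      omega
    rw [h3, Finset.sum_insert (by simp), s_zero]
    simp
  have h4 : (n : ℝ) * ((a n 2 : ℚ) : ℝ) ≤ n * ∑ j ∈ Finset.range (n + 1), s j * s (n - j) := by
    rw [h1, Finset.mul_sum]
    have h5 : Finset.Icc 1 n ⊆ Finset.range (n + 1) := by
      intro j hj
      rw [Finset.mem_Icc] at hj
      rw [Finset.mem_range]
      omega
    refine le_trans ?_ (Finset.sum_le_sum_of_subset_of_nonneg h5 fun j _ _ =>
      mul_nonneg hn0.le (mul_nonneg (s_nonneg _) (s_nonneg _)))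
    refine Finset.sum_le_sum fun j hj => ?_
    rw [Finset.mem_Icc] at hj
    rw [← mul_assoc]
    refine mul_le_mul_of_nonneg_right ?_ (s_nonneg _)
    have hj0 : (0 : ℝ) < j := by
      have : 0 < j := by omega
      exact_mod_cast this
    have h6 : (ArithmeticFunction.sigma 1 j : ℝ) = j * s j := by
      rw [s]
      field_simp
    rw [h6]
    exact mul_le_mul_of_nonneg_right (by exact_mod_cast hj.2) (s_nonneg _)
  have h7 : ∑ j ∈ Finset.range (n + 1), s j * s (n - j) ≤ z ^ 2 * n := by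
    have h8 : ∑ j ∈ Finset.range (n + 1), s j * s (n - j) ≤
        ∑ j ∈ Finset.range (n + 1), (s j ^ 2 / 2 + s (n - j) ^ 2 / 2) := by
      refine Finset.sum_le_sum fun j _ => ?_
      nlinarith [sq_nonneg (s j - s (n - j))]
    have h9 : ∑ j ∈ Finset.range (n + 1), s (n - j) ^ 2 / 2 =
        ∑ j ∈ Finset.range (n + 1), s j ^ 2 / 2 := by
      have h10 := Finset.sum_range_reflect (fun j => s j ^ 2 / 2) (n + 1)
      simpa using h10
    rw [Finset.sum_add_distrib, h9, ← Finset.sum_div] at h8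
    linarith
  have h11 : (n : ℝ) * ((a n 2 : ℚ) : ℝ) ≤ n * (z ^ 2 * n) :=
    h4.trans (mul_le_mul_of_nonneg_left h7 hn0.le)
  exact le_of_mul_le_mul_left h11 hn0

/-- `σ(n) / n` is unbounded. -/
theorem exists_large (C : ℝ) : ∃ n : ℕ, 4 ≤ n ∧ C < s n := by
  obtain ⟨m, hm, hm4⟩ := ((Real.tendsto_sum_range_one_div_nat_succ_atTop.eventually_gt_atTop
    C).and (Filter.eventually_ge_atTop 4)).exists
  refine ⟨m.factorial, hm4.trans (Nat.self_le_factorial m), lt_of_lt_of_le hm ?_⟩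
  rw [s_eq _ (Nat.factorial_pos m)]
  have h1 : ∑ i ∈ Finset.range m, (1 : ℝ) / ((i : ℝ) + 1) =
      ∑ d ∈ (Finset.range m).image (fun i : ℕ => (i + 1 : ℕ)), (1 : ℝ) / ((d : ℕ) : ℝ) := by
    rw [Finset.sum_image (by intro x _ y _ h; simpa using h)]
    push_cast
    rfl
  rw [h1]
  refine Finset.sum_le_sum_of_subset_of_nonneg ?_ fun d _ _ => by positivity
  intro d hd
  rw [Finset.mem_image] at hd
  obtain ⟨i, hi, rfl⟩ := hd
  rw [Finset.mem_range] at hi
  rw [Nat.mem_divisors]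
  exact ⟨Nat.dvd_factorial (by omega) (by omega), Nat.factorial_ne_zero m⟩

/-- The negation of the preceding statement: If P_0=1 and n·P_n = x·Σ_{k=1}^n σ(k)P_{n-k} (the D'Arcais polynomials), then for all n and k≥1 the coefficients of P_n satisfy a_{k-1}a_{k+1} ≤ a_k². -/
theorem result :
    ¬ (∀ P : ℕ → Polynomial ℚ, P 0 = 1 →
      (∀ n : ℕ, 1 ≤ n →
        (n : Polynomial ℚ) * P n =
          Polynomial.X * ∑ k ∈ Finset.Icc 1 n,
            ((ArithmeticFunction.sigma 1 k : ℕ) : Polynomial ℚ) * P (n - k)) →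
      ∀ n k : ℕ, 1 ≤ k →
        (P n).coeff (k - 1) * (P n).coeff (k + 1) ≤ (P n).coeff k ^ 2) := by
  intro h
  have h1 := h DP (by rw [DP]) DP_rec
  obtain ⟨n, hn4, hn⟩ := exists_large (32 * z ^ 4)
  have h2 : a n 1 * a n 3 ≤ a n 2 ^ 2 := h1 n 2 (by norm_num)
  have h3 : ((a n 1 : ℚ) : ℝ) * ((a n 3 : ℚ) : ℝ) ≤ ((a n 2 : ℚ) : ℝ) ^ 2 := by
    exact_mod_cast h2
  rw [a_one] at h3
  have h4 := a_three_lower n (by omega)
  have h5 := a_two_upper n (by omega)
  have h6 := a_two_nonneg n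
  have hn4' : (4 : ℝ) ≤ n := by exact_mod_cast hn4
  have h7 : 3 / 8 * (n : ℝ) ^ 2 ≤ ((n : ℝ) - 1) * (n - 2) := by nlinarith
  have h8 : (n : ℝ) ^ 2 / 32 ≤ ((a n 3 : ℚ) : ℝ) := by linarith
  have h9 : ((a n 2 : ℚ) : ℝ) ^ 2 ≤ (z ^ 2 * n) ^ 2 := pow_le_pow_left₀ h6 h5 2
  have h10 : s n * ((n : ℝ) ^ 2 / 32) ≤ s n * ((a n 3 : ℚ) : ℝ) :=
    mul_le_mul_of_nonneg_left h8 (s_nonneg n)
  have h11 : s n * ((n : ℝ) ^ 2 / 32) ≤ (z ^ 2 * n) ^ 2 := h10.trans (h3.trans h9)
  have hnn : (0 : ℝ) < (n : ℝ) ^ 2 := by positivity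
  have h12 : 32 * z ^ 4 * ((n : ℝ) ^ 2 / 32) < s n * ((n : ℝ) ^ 2 / 32) :=
    mul_lt_mul_of_pos_right hn (by positivity)
  have h13 : (z ^ 2 * (n : ℝ)) ^ 2 = 32 * z ^ 4 * ((n : ℝ) ^ 2 / 32) := by ring
  linarith

end Pool.Agent.S09354
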