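import Pool.Statements.S09406
import Pool.Agent.U694.K9.Lower
import Pool.Agent.U694.K9.Upper

set_option autoImplicit false
open Pool Pool.MP_6f60ef_co

namespace Pool.Agent.S09406

/-- The negation of the preceding statement: If G is a complete graph or a complete bipartite graph with an even number of edges, then G has a drawing on two planes with minimum total crossings among all such drawings whose two plane subgraphs are isomorphic. -/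
theorem result :
    ¬ (∀ (V : Type) [Finite V] (G : SimpleGraph V),
      (G = ⊤ ∨ ∃ a b : ℕ, Nonempty (G ≃g completeBipartiteGraph (Fin a) (Fin b))) →
      Even (Set.ncard G.edgeSet) →
      ∃ (c : V → V → Fin 2) (p : Fin 2 → V → ℂ) (γ : Fin 2 → V → V → ℝ → ℂ),
        ((∀ u v : V, G.Adj u v → c u v = c v u) ∧
          (∀ i : Fin 2, Function.Injective (p i)) ∧
          (∀ i : Fin 2, ∀ u v : V, G.Adj u v → c u v = i →
            ContinuousOn (γ i u v) (Set.Icc (0:ℝ) 1) ∧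
            Set.InjOn (γ i u v) (Set.Icc (0:ℝ) 1) ∧
            γ i u v 0 = p i u ∧ γ i u v 1 = p i v ∧
            (∀ t : ℝ, 0 ≤ t → t ≤ 1 → γ i v u t = γ i u v (1 - t)) ∧
            ∀ t : ℝ, 0 < t → t < 1 → ∀ w : V, γ i u v t ≠ p i w) ∧
          Set.Finite {x : Fin 2 × V × V × V × V × ℂ |
            G.Adj x.2.1 x.2.2.1 ∧ G.Adj x.2.2.2.1 x.2.2.2.2.1 ∧
            c x.2.1 x.2.2.1 = x.1 ∧ c x.2.2.2.1 x.2.2.2.2.1 = x.1 ∧
            ¬ (x.2.1 = x.2.2.2.1 ∧ x.2.2.1 = x.2.2.2.2.1) ∧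
            ¬ (x.2.1 = x.2.2.2.2.1 ∧ x.2.2.1 = x.2.2.2.1) ∧
            (∃ t : ℝ, 0 < t ∧ t < 1 ∧ γ x.1 x.2.1 x.2.2.1 t = x.2.2.2.2.2) ∧
            (∃ t : ℝ, 0 < t ∧ t < 1 ∧ γ x.1 x.2.2.2.1 x.2.2.2.2.1 t = x.2.2.2.2.2)}) ∧
        Nonempty (SimpleGraph.fromRel (fun u v => G.Adj u v ∧ c u v = 0) ≃g
          SimpleGraph.fromRel (fun u v => G.Adj u v ∧ c u v = 1)) ∧
        ∀ (c' : V → V → Fin 2) (p' : Fin 2 → V → ℂ) (γ' : Fin 2 → V → V → ℝ → ℂ),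
          ((∀ u v : V, G.Adj u v → c' u v = c' v u) ∧
            (∀ i : Fin 2, Function.Injective (p' i)) ∧
            (∀ i : Fin 2, ∀ u v : V, G.Adj u v → c' u v = i →
              ContinuousOn (γ' i u v) (Set.Icc (0:ℝ) 1) ∧
              Set.InjOn (γ' i u v) (Set.Icc (0:ℝ) 1) ∧
              γ' i u v 0 = p' i u ∧ γ' i u v 1 = p' i v ∧
              (∀ t : ℝ, 0 ≤ t → t ≤ 1 → γ' i v u t = γ' i u v (1 - t)) ∧
              ∀ t : ℝ, 0 < t → t < 1 → ∀ w : V, γ' i u v t ≠ p' i w) ∧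
            Set.Finite {x : Fin 2 × V × V × V × V × ℂ |
              G.Adj x.2.1 x.2.2.1 ∧ G.Adj x.2.2.2.1 x.2.2.2.2.1 ∧
              c' x.2.1 x.2.2.1 = x.1 ∧ c' x.2.2.2.1 x.2.2.2.2.1 = x.1 ∧
              ¬ (x.2.1 = x.2.2.2.1 ∧ x.2.2.1 = x.2.2.2.2.1) ∧
              ¬ (x.2.1 = x.2.2.2.2.1 ∧ x.2.2.1 = x.2.2.2.1) ∧
              (∃ t : ℝ, 0 < t ∧ t < 1 ∧ γ' x.1 x.2.1 x.2.2.1 t = x.2.2.2.2.2) ∧
              (∃ t : ℝ, 0 < t ∧ t < 1 ∧ γ' x.1 x.2.2.2.1 x.2.2.2.2.1 t = x.2.2.2.2.2)}) →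
          Set.ncard {x : Fin 2 × V × V × V × V × ℂ |
              G.Adj x.2.1 x.2.2.1 ∧ G.Adj x.2.2.2.1 x.2.2.2.2.1 ∧
              c x.2.1 x.2.2.1 = x.1 ∧ c x.2.2.2.1 x.2.2.2.2.1 = x.1 ∧
              ¬ (x.2.1 = x.2.2.2.1 ∧ x.2.2.1 = x.2.2.2.2.1) ∧
              ¬ (x.2.1 = x.2.2.2.2.1 ∧ x.2.2.1 = x.2.2.2.1) ∧
              (∃ t : ℝ, 0 < t ∧ t < 1 ∧ γ x.1 x.2.1 x.2.2.1 t = x.2.2.2.2.2) ∧
              (∃ t : ℝ, 0 < t ∧ t < 1 ∧ γ x.1 x.2.2.2.1 x.2.2.2.2.1 t = x.2.2.2.2.2)} ≤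
            Set.ncard {x : Fin 2 × V × V × V × V × ℂ |
              G.Adj x.2.1 x.2.2.1 ∧ G.Adj x.2.2.2.1 x.2.2.2.2.1 ∧
              c' x.2.1 x.2.2.1 = x.1 ∧ c' x.2.2.2.1 x.2.2.2.2.1 = x.1 ∧
              ¬ (x.2.1 = x.2.2.2.1 ∧ x.2.2.1 = x.2.2.2.2.1) ∧
              ¬ (x.2.1 = x.2.2.2.2.1 ∧ x.2.2.1 = x.2.2.2.1) ∧
              (∃ t : ℝ, 0 < t ∧ t < 1 ∧ γ' x.1 x.2.1 x.2.2.1 t = x.2.2.2.2.2) ∧
              (∃ t : ℝ, 0 < t ∧ t < 1 ∧ γ' x.1 x.2.2.2.1 x.2.2.2.2.1 t = x.2.2.2.2.2)}) := by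
  intro hmain
  have hG : ((⊤ : SimpleGraph (Fin 9)) = ⊤ ∨
      ∃ a b : ℕ, Nonempty ((⊤ : SimpleGraph (Fin 9)) ≃g completeBipartiteGraph (Fin a) (Fin b))) := Or.inl rfl
  have hE : Even (Set.ncard (⊤ : SimpleGraph (Fin 9)).edgeSet) := by
    have h1 : Set.ncard (⊤ : SimpleGraph (Fin 9)).edgeSet = 36 := by
      rw [← SimpleGraph.coe_edgeFinset, Set.ncard_coe_finset, SimpleGraph.card_edgeFinset_top_eq_card_choose_two,
        Fintype.card_fin]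
      rfl
    rw [h1]
    exact ⟨18, rfl⟩
  obtain ⟨c, p, γ, ⟨hd1, hd2, hd3, hfin⟩, ⟨φ⟩, hmin⟩ := hmain (Fin 9) ⊤ hG hE
  have hDR : Pool.Agent.U694.K9.DR c p γ := ⟨hd1, hd2, hd3⟩
  have hφ : ∀ u v : Fin 9, u ≠ v → (c u v = 0 ↔ c (φ.toEquiv u) (φ.toEquiv v) = 1) := by
    intro u v huv
    have h1 := φ.map_rel_iff' (a := u) (b := v)
    have hne : φ.toEquiv u ≠ φ.toEquiv v := fun e => huv (φ.toEquiv.injective e)
    have hsym := hd1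
    rw [SimpleGraph.fromRel_adj, SimpleGraph.fromRel_adj] at h1
    have e1 : (u ≠ v ∧ ((⊤ : SimpleGraph (Fin 9)).Adj u v ∧ c u v = 0 ∨
        (⊤ : SimpleGraph (Fin 9)).Adj v u ∧ c v u = 0)) ↔ c u v = 0 := by
      rw [← hsym u v huv]
      constructor
      · rintro ⟨-, h | h⟩
        · exact h.2
        · exact h.2
      · exact fun h => ⟨huv, Or.inl ⟨huv, h⟩⟩
    have e2 : (φ.toEquiv u ≠ φ.toEquiv v ∧ ((⊤ : SimpleGraph (Fin 9)).Adj (φ.toEquiv u) (φ.toEquiv v) ∧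
        c (φ.toEquiv u) (φ.toEquiv v) = 1 ∨ (⊤ : SimpleGraph (Fin 9)).Adj (φ.toEquiv v) (φ.toEquiv u) ∧
        c (φ.toEquiv v) (φ.toEquiv u) = 1)) ↔ c (φ.toEquiv u) (φ.toEquiv v) = 1 := by
      rw [← hsym _ _ hne]
      constructor
      · rintro ⟨-, h | h⟩
        · exact h.2
        · exact h.2
      · exact fun h => ⟨hne, Or.inl ⟨hne, h⟩⟩
    rw [e1, e2] at h1
    exact h1.symm
  have hlow : 16 ≤ (Pool.Agent.U694.K9.XS c γ).ncard := Pool.Agent.U694.K9.lower hDR hfin hφ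
  have hle := hmin Pool.Agent.U694.K9.col Pool.Agent.U694.K9.pp
    (fun i u v => Pool.Agent.Helper770.Straight.seg (Pool.Agent.U694.K9.pp i u) (Pool.Agent.U694.K9.pp i v))
    ⟨Pool.Agent.U694.K9.upper_DR.1, Pool.Agent.U694.K9.upper_DR.2.1, Pool.Agent.U694.K9.upper_DR.2.2,
      Pool.Agent.U694.K9.upper_finite⟩
  have hup := Pool.Agent.U694.K9.upper_ncard
  have hle' : (Pool.Agent.U694.K9.XS c γ).ncard ≤ (Pool.Agent.U694.K9.XS Pool.Agent.U694.K9.col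
      (fun i u v => Pool.Agent.Helper770.Straight.seg (Pool.Agent.U694.K9.pp i u)
        (Pool.Agent.U694.K9.pp i v))).ncard := hle
  omega

end Pool.Agent.S09406
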