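import Pool.Statements.S09475
import Pool.Agent.U396.Main
-- import your own Pool.Agent.* helpers here

set_option autoImplicit false
open Pool Pool.MP_72f88e_co

namespace Pool.Agent.S09475

/-- There is m ≥ 1 such that every finite triangle-free planar graph, given any lists of 4m−1 colours per vertex, admits a choice of m colours from each list with adjacent vertices getting disjoint sets. -/
theorem result :
    ∃ m : ℕ, 0 < m ∧
      ∀ (V : Type) [Fintype V] (G : SimpleGraph V),
        G.CliqueFree 3 →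
        (∃ (p : V → ℝ × ℝ) (γ : V → V → unitInterval → ℝ × ℝ),
          Function.Injective p ∧
          (∀ u v, G.Adj u v →
            Continuous (γ u v) ∧ Function.Injective (γ u v) ∧
            γ u v 0 = p u ∧ γ u v 1 = p v ∧
            (∀ t, γ u v t ∈ Set.range p → t = 0 ∨ t = 1)) ∧
          (∀ u v x y, G.Adj u v → G.Adj x y →
            Sym2.mk (u, v) ≠ Sym2.mk (x, y) →
            ∀ s t, γ u v s = γ x y t → s = 0 ∨ s = 1)) →
        ∀ L : V → Finset ℕ, (∀ v, (L v).card = 4 * m - 1) →
          ∃ f : V → Finset ℕ,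
            (∀ v, f v ⊆ L v ∧ (f v).card = m) ∧
            ∀ u v, G.Adj u v → Disjoint (f u) (f v) := by
  obtain ⟨m0, hm0⟩ := Pool.Agent.U396.Main.main
  refine ⟨m0 + 100, by omega, ?_⟩
  intro V _ G hG hP L hL
  refine hm0 (m0 + 100) (by omega) 1 (by omega) V G hG ?_ L (fun v => by rw [hL v]; omega)
  obtain ⟨p, γ, h1, h2, h3⟩ := hP
  refine ⟨p, γ, h1, h2, ?_⟩
  intro u v x y huv hxy hne s t hst
  refine h3 u v x y huv hxy ?_ s t hst
  intro h
  apply hne
  have h4 := congrFun h (u, v)
  rcases Sym2.eq_iff.1 h4 with ⟨h5, -⟩ | ⟨h5, h6⟩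
  · rw [(Prod.mk.inj h5).1, (Prod.mk.inj h5).2]
  · rw [(Prod.mk.inj h6).1, (Prod.mk.inj h6).2]

end Pool.Agent.S09475
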