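import Pool.Statements.S09613
import Pool.Agent.ULead.ExtSq3

set_option autoImplicit false
open Pool Pool.MP_78b1ee_co

namespace Pool.Agent.S09613

/-- For every N there is a list of distinct rationals of length at least N with no two adjacent order-isomorphic blocks of length at least 2, such that inserting any new value at any position creates such a pair. -/
theorem result :
    ∀ N : ℕ, ∃ w : List ℚ, N ≤ w.length ∧ w.Nodup ∧
      (¬ ∃ i ℓ : ℕ, 2 ≤ ℓ ∧ i + 2 * ℓ ≤ w.length ∧
          ∀ a < ℓ, ∀ b < ℓ,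
            (w.getD (i + a) 0 < w.getD (i + b) 0 ↔
              w.getD (i + ℓ + a) 0 < w.getD (i + ℓ + b) 0)) ∧
      ∀ p : ℕ, p ≤ w.length → ∀ x : ℚ, x ∉ w →
        ∃ i ℓ : ℕ, 2 ≤ ℓ ∧ i + 2 * ℓ ≤ w.length + 1 ∧
          ∀ a < ℓ, ∀ b < ℓ,
            ((w.take p ++ x :: w.drop p).getD (i + a) 0 <
                (w.take p ++ x :: w.drop p).getD (i + b) 0 ↔
              (w.take p ++ x :: w.drop p).getD (i + ℓ + a) 0 <
                (w.take p ++ x :: w.drop p).getD (i + ℓ + b) 0) := by
  exact Pool.Agent.ULead.ExtSq.main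

end Pool.Agent.S09613
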