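import Pool.Statements.S09637
import Pool.Agent.U388.TF4.Main
-- import your own Pool.Agent.* helpers here

set_option autoImplicit false
open Pool Pool.MP_7a5332_co

namespace Pool.Agent.S09637

/-- There is a constant c < 1/4 such that, for all large n, every triangle-free 4-critical graph on n vertices (chromatic number 4, no isolated vertices, each edge deletion leaves it 3-colorable) has at most c·n² edges. -/
theorem result :
    ∃ c : ℝ, c < 1 / 4 ∧ ∃ N : ℕ, ∀ n : ℕ, N ≤ n → ∀ G : SimpleGraph (Fin n),
      G.CliqueFree 3 → G.chromaticNumber = 4 → (∀ v : Fin n, ∃ w : Fin n, G.Adj v w) →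
      (∀ e ∈ G.edgeSet, (G.deleteEdges {e}).Colorable 3) →
      (G.edgeSet.ncard : ℝ) ≤ c * (n : ℝ) ^ 2 := by
  refine ⟨1 / 4 - 1 / 1000, by norm_num, 100, fun n hn G hfree hchi _ hc => ?_⟩
  classical
  have hcol : ¬ G.Colorable 3 := by
    intro h
    have h2 := h.chromaticNumber_le
    rw [hchi] at h2
    exact absurd h2 (by decide)
  have h := Pool.Agent.U388.TF4.main n hn G hfree hcol hc
  have he : G.edgeSet.ncard = G.edgeFinset.card := by
    rw [← SimpleGraph.coe_edgeFinset, Set.ncard_coe_finset]
  rw [he]
  exact h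

end Pool.Agent.S09637
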