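import Pool.Statements.S09874
import Pool.Agent.U694.MRP

set_option autoImplicit false
open Pool Pool.MP_85fffe_co

namespace Pool.Agent.S09874

/-- The negation of the preceding statement: There is a constant C such that for every finite set X of n reals, any family of maximally repeated patterns of X, no two of which are translates of each other, has at most C·n members. -/
theorem result :
    ¬ (∃ C : ℕ, ∀ X : Finset ℝ, ∀ S : Finset (Finset ℝ),
      (∀ A ∈ S,
        A.Nonempty ∧ A ⊆ X ∧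
        (∃ t : ℝ, t ≠ 0 ∧ A.image (· + t) ⊆ X) ∧
        (∀ B : Finset ℝ, A ⊂ B →
          ¬ (∀ t : ℝ, A.image (· + t) ⊆ X → B.image (· + t) ⊆ X))) →
      (∀ A ∈ S, ∀ B ∈ S, ∀ t : ℝ, B = A.image (· + t) → A = B) →
      S.card ≤ C * X.card) := by
  rintro ⟨C, hC⟩
  obtain ⟨S, h1, h2, h3⟩ := Pool.Agent.U694.MRP.count (C + 20) (by omega)
  have h4 := hC _ S h1 h2
  have h5 := Pool.Agent.U694.MRP.card_X (C + 20)
  have h6 := Pool.Agent.U694.MRP.growth C
  have h7 : C * (Pool.Agent.U694.MRP.X (C + 20)).card ≤ C * ((C + 20) * (C + 20 + 1)) :=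
    Nat.mul_le_mul_left C h5
  have h8 : C + 20 - 1 = C + 19 := by omega
  rw [h8] at h3
  have h9 : C * ((C + 20) * (C + 20 + 1)) + 2 ≤ (C + 21) ^ 3 := by nlinarith [Nat.zero_le C, Nat.zero_le (C ^ 2)]
  omega

end Pool.Agent.S09874
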