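import Pool.Statements.S10164
import Pool.Agent.U395.PwTwo

set_option autoImplicit false
open Pool Pool.MP_924390_co

namespace Pool.Agent.S10164

/-- The negation of the preceding statement: There is a constant c such that every finite graph of path-width at most 2 can, from any lists of at least c colours per vertex, be coloured so that no path on 2k vertices has its first-half colour sequence equal to its second-half one. -/
theorem result :
    ¬ (∃ c : ℕ, ∀ (V : Type) [Fintype V] (G : SimpleGraph V),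
      (∃ B : ℕ → Finset V,
        (∀ i, (B i).card ≤ 3) ∧
        (∀ v : V, ∃ i, v ∈ B i) ∧
        (∀ u v : V, G.Adj u v → ∃ i, u ∈ B i ∧ v ∈ B i) ∧
        (∀ (v : V) (i j k : ℕ), i ≤ j → j ≤ k → v ∈ B i → v ∈ B k → v ∈ B j)) →
      ∀ L : V → Finset ℕ, (∀ v, c ≤ (L v).card) →
        ∃ f : V → ℕ, (∀ v, f v ∈ L v) ∧
          ∀ (u w : V) (p : G.Walk u w), p.IsPath →
            ∀ k : ℕ, 1 ≤ k → p.length + 1 = 2 * k →
              ¬ (∀ i : ℕ, i < k → f (p.getVert i) = f (p.getVert (i + k)))) := by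
  rintro ⟨c, hc⟩
  have h := hc (U395.PwTwo.W (c + 1) (2 ^ (4 * (c + 1)))) (U395.PwTwo.G (c + 1) (2 ^ (4 * (c + 1))))
    (U395.PwTwo.pathdec _ _ Nat.one_le_two_pow) (U395.PwTwo.lists _ _)
    (fun v => by rw [U395.PwTwo.card_lists]; omega)
  obtain ⟨f, hf, hrep⟩ := h
  exact U395.PwTwo.main (by omega) rfl f hf hrep

end Pool.Agent.S10164
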