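import Pool.Statements.S10281
import Pool.Agent.V11170.SemiBaxter

set_option autoImplicit false
open Pool Pool.MP_975621_co

namespace Pool.Agent.S10281

open Finset Pool.Agent.V11170.SemiBaxter

/-- The barred pattern condition is avoidance of the vincular pattern 2-14-3. -/
theorem barred_iff {n : ℕ} (σ : Equiv.Perm (Fin n)) :
    (∀ i j k l : Fin n, i < j → j < k → k < l →
          σ j < σ i → σ i < σ l → σ l < σ k →
          ∃ m : Fin n, j < m ∧ m < k ∧ σ i < σ m ∧ σ m < σ l) ↔ AvP n (exP σ) := by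
  constructor
  · intro h a b d hab hbd hd ⟨h1, h2, h3⟩
    have ha : a < n := by omega
    have hb : b < n := by omega
    have hb1 : b + 1 < n := by omega
    rw [exP_of_lt σ ha, exP_of_lt σ hb] at h1
    rw [exP_of_lt σ ha, exP_of_lt σ hd] at h2
    rw [exP_of_lt σ hd, exP_of_lt σ hb1] at h3
    obtain ⟨m, hm1, hm2, -, -⟩ := h ⟨a, ha⟩ ⟨b, hb⟩ ⟨b + 1, hb1⟩ ⟨d, hd⟩
      (Fin.mk_lt_mk.mpr hab) (Fin.mk_lt_mk.mpr (by omega)) (Fin.mk_lt_mk.mpr hbd)
      (Fin.lt_def.mpr h1) (Fin.lt_def.mpr h2) (Fin.lt_def.mpr h3)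
    rw [Fin.lt_def] at hm1 hm2
    simp only at hm1 hm2
    omega
  · intro h i j k l hij hjk hkl h1 h2 h3
    by_contra hno
    push Not at hno
    -- the last position `b` in `[j, k)` with value below `σ i`
    have hex : ∃ b : ℕ, (j : ℕ) ≤ b ∧ b < k ∧ exP σ b < σ i ∧ ¬ exP σ (b + 1) < σ i := by
      by_contra hc
      push Not at hc
      have key : ∀ t : ℕ, (j : ℕ) + t ≤ k → exP σ (j + t) < σ i := by
        intro t
        induction t with
        | zero =>
          intro _
          rw [add_zero, exP_of_lt σ j.is_lt]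
          exact Fin.lt_def.mp h1
        | succ t ih =>
          intro ht
          exact hc (j + t) (by omega) (by omega) (ih (by omega))
      have hk := key (k - j) (by have := Fin.lt_def.mp hjk; omega)
      have hjk' := Fin.lt_def.mp hjk
      rw [show (j : ℕ) + (k - j) = k by omega, exP_of_lt σ k.is_lt] at hk
      have h2' := Fin.lt_def.mp h2
      have h3' := Fin.lt_def.mp h3
      simp only [Fin.eta] at hk
      omega
    obtain ⟨b, hjb, hbk, hb1, hb2⟩ := hex
    have hkn := k.is_lt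
    have hbn : b < n := by omega
    have hbn1 : b + 1 < n := by omega
    have hij' := Fin.lt_def.mp hij
    have hkl' := Fin.lt_def.mp hkl
    have h2' := Fin.lt_def.mp h2
    have h3' := Fin.lt_def.mp h3
    refine h i b l (by omega) (by omega) l.is_lt ⟨?_, ?_, ?_⟩
    · rw [exP_of_lt σ i.is_lt]
      exact hb1
    · rw [exP_of_lt σ i.is_lt, exP_of_lt σ l.is_lt]
      exact h2'
    · rw [exP_of_lt σ l.is_lt]
      simp only [Fin.eta]
      by_cases hbk1 : b + 1 = k
      · rw [hbk1, exP_of_lt σ k.is_lt]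
        exact h3'
      · -- the value at `b + 1` is not strictly between `σ i` and `σ l`, nor equal to either
        rw [exP_of_lt σ hbn1] at hb2 ⊢
        have hne1 : σ ⟨b + 1, hbn1⟩ ≠ σ i := by
          intro he
          have := congrArg Fin.val (σ.injective he)
          simp only at this
          omega
        have hne2 : σ ⟨b + 1, hbn1⟩ ≠ σ l := by
          intro he
          have := congrArg Fin.val (σ.injective he)
          simp only at this
          omega
        have h5 := hno ⟨b + 1, hbn1⟩ (Fin.lt_def.mpr (by simp only; omega))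
          (Fin.lt_def.mpr (by simp only; omega))
        have hlt : σ i < σ ⟨b + 1, hbn1⟩ := by
          rw [Fin.lt_def]
          have hv : (σ ⟨b + 1, hbn1⟩ : ℕ) ≠ (σ i : ℕ) := fun he => hne1 (Fin.ext he)
          omega
        have h6 := Fin.le_def.mp (h5 hlt)
        have hv : (σ ⟨b + 1, hbn1⟩ : ℕ) ≠ (σ l : ℕ) := fun he => hne2 (Fin.ext he)
        omega

theorem seq_iff {n : ℕ} (e : Fin n → ℕ) :
    (∀ i j k : Fin n, i < j → j < k →
          ¬ (e i = e k ∧ e j < e i) ∧ ¬ (e j < e k ∧ e k < e i)) ↔ AvI n (ex e) := by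
  constructor
  · intro h i j k hij hjk hk ⟨h1, h2⟩
    have hi : i < n := by omega
    have hj : j < n := by omega
    rw [show ex e j = e ⟨j, hj⟩ from ex_of_lt e hj, show ex e k = e ⟨k, hk⟩ from ex_of_lt e hk] at h1
    rw [show ex e i = e ⟨i, hi⟩ from ex_of_lt e hi, show ex e k = e ⟨k, hk⟩ from ex_of_lt e hk] at h2
    obtain ⟨h3, h4⟩ := h ⟨i, hi⟩ ⟨j, hj⟩ ⟨k, hk⟩ (Fin.mk_lt_mk.mpr hij) (Fin.mk_lt_mk.mpr hjk)
    rcases h2.lt_or_eq with h5 | h5
    · exact h4 ⟨h1, h5⟩
    · exact h3 ⟨h5.symm, by omega⟩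
  · intro h i j k hij hjk
    have h0 := h i j k (Fin.lt_def.mp hij) (Fin.lt_def.mp hjk) k.is_lt
    rw [ex_apply, ex_apply, ex_apply] at h0
    constructor
    · rintro ⟨h1, h2⟩
      exact h0 ⟨by omega, by omega⟩
    · rintro ⟨h1, h2⟩
      exact h0 ⟨h1, h2.le⟩

/-- The inversion sequences of the statement are those of the library. -/
noncomputable def seqEquiv (n : ℕ) :
    {e : Fin n → Fin n //
        (∀ i : Fin n, (e i).val ≤ i.val) ∧
        ∀ i j k : Fin n, i < j → j < k →
          ¬ (e i = e k ∧ e j < e i) ∧ ¬ (e j < e k ∧ e k < e i)} ≃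
    {e : Fin n → ℕ // (∀ i, e i ≤ i) ∧ AvI n (ex e)} where
  toFun e := ⟨fun i => (e.1 i).val, e.2.1, by
    rw [← seq_iff]
    intro i j k hij hjk
    obtain ⟨h1, h2⟩ := e.2.2 i j k hij hjk
    exact ⟨fun h => h1 ⟨Fin.ext h.1, Fin.lt_def.mpr h.2⟩,
      fun h => h2 ⟨Fin.lt_def.mpr h.1, Fin.lt_def.mpr h.2⟩⟩⟩
  invFun e := ⟨fun i => ⟨e.1 i, lt_of_le_of_lt (e.2.1 i) i.is_lt⟩, e.2.1, by
    have h := (seq_iff e.1).mpr e.2.2
    intro i j k hij hjk
    obtain ⟨h1, h2⟩ := h i j k hij hjk
    exact ⟨fun h => h1 ⟨congrArg Fin.val h.1, Fin.lt_def.mp h.2⟩,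
      fun h => h2 ⟨Fin.lt_def.mp h.1, Fin.lt_def.mp h.2⟩⟩⟩
  left_inv e := by
    apply Subtype.ext
    funext i
    rfl
  right_inv e := by
    apply Subtype.ext
    funext i
    rfl

/-- For every n, the number of permutations of length n in which every 2154 occurrence extends to a 21354 occurrence equals the number of inversion sequences of length n avoiding the patterns 101 and 201. -/
theorem result :
    ∀ n : ℕ,
      Nat.card {σ : Equiv.Perm (Fin n) //
        ∀ i j k l : Fin n, i < j → j < k → k < l →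
          σ j < σ i → σ i < σ l → σ l < σ k →
          ∃ m : Fin n, j < m ∧ m < k ∧ σ i < σ m ∧ σ m < σ l}
      =
      Nat.card {e : Fin n → Fin n //
        (∀ i : Fin n, (e i).val ≤ i.val) ∧
        ∀ i j k : Fin n, i < j → j < k →
          ¬ (e i = e k ∧ e j < e i) ∧ ¬ (e j < e k ∧ e k < e i)} := by
  classical
  intro n
  rw [Nat.card_congr (seqEquiv n)]
  cases n with
  | zero =>
    have h1 : Nat.card {σ : Equiv.Perm (Fin 0) //
        ∀ i j k l : Fin 0, i < j → j < k → k < l →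
          σ j < σ i → σ i < σ l → σ l < σ k →
          ∃ m : Fin 0, j < m ∧ m < k ∧ σ i < σ m ∧ σ m < σ l} = 1 := by
      rw [Nat.card_eq_one_iff_unique]
      exact ⟨⟨fun a b => Subtype.ext (Equiv.ext fun i => i.elim0)⟩,
        ⟨⟨1, fun i => i.elim0⟩⟩⟩
    have h2 : Nat.card {e : Fin 0 → ℕ // (∀ i, e i ≤ i) ∧ AvI 0 (ex e)} = 1 := by
      rw [Nat.card_eq_one_iff_unique]
      exact ⟨⟨fun a b => Subtype.ext (funext fun i => i.elim0)⟩,
        ⟨⟨fun i => i.elim0, fun i => i.elim0, fun i j k _ _ hk => absurd hk (Nat.not_lt_zero _)⟩⟩⟩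
    rw [h1, h2]
  | succ n =>
    have hP := card_P n
    have hI := card_I n
    rw [← hI] at hP
    have e1 : Nat.card {σ : Equiv.Perm (Fin (n + 1)) //
        ∀ i j k l : Fin (n + 1), i < j → j < k → k < l →
          σ j < σ i → σ i < σ l → σ l < σ k →
          ∃ m : Fin (n + 1), j < m ∧ m < k ∧ σ i < σ m ∧ σ m < σ l} =
        ((univ : Finset (Equiv.Perm (Fin (n + 1)))).filter
          (fun σ => AvP (n + 1) (exP σ))).card := by
      rw [Nat.card_congr (Equiv.subtypeEquivRight (fun σ => barred_iff σ)),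
        Nat.card_eq_fintype_card, Fintype.card_subtype]
    have e2 : Nat.card {e : Fin (n + 1) → ℕ // (∀ i, e i ≤ i) ∧ AvI (n + 1) (ex e)} =
        ((T (n + 1)).filter (fun e => AvI (n + 1) (ex e))).card := by
      refine Nat.subtype_card _ (fun e => ?_)
      rw [mem_filter, mem_T]
    rw [e1, e2]
    exact hP

end Pool.Agent.S10281
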