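import Pool.Statements.S10311
import Pool.Agent.H176R2.R5.MA
import Pool.Agent.H176R2.R5.OR
import Pool.Agent.H176R2.R5.FN

set_option autoImplicit false
open Pool Pool.MP_98a5df_co

namespace Pool.Agent.S10311

theorem dg_eq {n : ℕ} (G : SimpleGraph (Fin n)) [DecidableRel G.Adj] (X : Finset (Fin n))
    (a : Fin n) : H176R2.R5.dg G X a = (X.filter fun b => G.Adj a b).card := by
  unfold H176R2.R5.dg
  congr

/-- Every finite 5-regular graph in which each set of k≥3 vertices spans at most 3k−6 edges has a placement in R^3 whose rigidity matrix has linearly independent rows. -/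
theorem result :
    ∀ (n : ℕ) (G : SimpleGraph (Fin n)) [DecidableRel G.Adj],
      G.IsRegularOfDegree 5 →
      (∀ S : Finset (Fin n), 3 ≤ S.card →
        (Finset.univ.filter (fun e : Fin n × Fin n =>
          e.1 ∈ S ∧ e.2 ∈ S ∧ e.1 < e.2 ∧ G.Adj e.1 e.2)).card ≤ 3 * S.card - 6) →
      ∃ p : Fin n → Fin 3 → ℝ,
        LinearIndependent ℝ
          (fun e : {e : Fin n × Fin n // e.1 < e.2 ∧ G.Adj e.1 e.2} =>
            (fun (w : Fin n) (i : Fin 3) =>
              if w = e.val.1 then p e.val.1 i - p e.val.2 i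
              else if w = e.val.2 then p e.val.2 i - p e.val.1 i
              else 0)) := by
  classical
  intro n G _ hreg hS
  obtain ⟨p, hp⟩ := H176R2.R5.exists_generic (Fin n)
  refine ⟨p, ?_⟩
  -- sparsity
  have hSp : H176R2.R5.Sparse G := by
    intro X hX
    have h1 := hS X hX
    set A := Finset.univ.filter (fun e : Fin n × Fin n =>
          e.1 ∈ X ∧ e.2 ∈ X ∧ e.1 < e.2 ∧ G.Adj e.1 e.2) with hA
    set B := Finset.univ.filter (fun e : Fin n × Fin n =>
          e.1 ∈ X ∧ e.2 ∈ X ∧ e.2 < e.1 ∧ G.Adj e.1 e.2) with hB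
    have hBA : B.card = A.card := by
      apply Finset.card_bij (fun e _ => (e.2, e.1))
      · intro e he
        rw [hB, Finset.mem_filter] at he
        rw [hA, Finset.mem_filter]
        exact ⟨Finset.mem_univ _, he.2.2.1, he.2.1, he.2.2.2.1, he.2.2.2.2.symm⟩
      · rintro ⟨a, b⟩ _ ⟨c, d⟩ _ h
        simp only [Prod.mk.injEq] at h
        rw [h.1, h.2]
      · rintro ⟨a, b⟩ he
        rw [hA, Finset.mem_filter] at he
        refine ⟨(b, a), ?_, rfl⟩
        rw [hB, Finset.mem_filter]
        exact ⟨Finset.mem_univ _, he.2.2.1, he.2.1, he.2.2.2.1, he.2.2.2.2.symm⟩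
    have h2 : H176R2.R5.i2 G X = A.card + B.card := by
      have h3 : Disjoint A B := by
        rw [Finset.disjoint_left]
        intro e he he'
        rw [hA, Finset.mem_filter] at he
        rw [hB, Finset.mem_filter] at he'
        exact absurd he.2.2.2.1 (not_lt_of_gt he'.2.2.2.1)
      rw [← Finset.card_union_of_disjoint h3]
      unfold H176R2.R5.i2
      rw [Finset.sum_congr rfl (fun a _ => dg_eq G X a), ← Finset.card_sigma]
      apply Finset.card_bij (fun (e : (_ : Fin n) × Fin n) _ => (e.1, e.2))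
      · rintro ⟨a, b⟩ he
        have he1 := Finset.mem_sigma.1 he
        have he2 := Finset.mem_filter.1 he1.2
        obtain ⟨ha, hb, hab⟩ : a ∈ X ∧ b ∈ X ∧ G.Adj a b := ⟨he1.1, he2.1, he2.2⟩
        rw [Finset.mem_union, hA, hB, Finset.mem_filter, Finset.mem_filter]
        rcases lt_trichotomy a b with h | h | h
        · exact Or.inl ⟨Finset.mem_univ _, ha, hb, h, hab⟩
        · exact absurd h hab.ne
        · exact Or.inr ⟨Finset.mem_univ _, ha, hb, h, hab⟩
      · rintro ⟨a, b⟩ _ ⟨c, d⟩ _ h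
        simp only [Prod.mk.injEq] at h
        rw [h.1, h.2]
      · rintro ⟨a, b⟩ he
        rw [Finset.mem_union, hA, hB, Finset.mem_filter, Finset.mem_filter] at he
        refine ⟨⟨a, b⟩, ?_, rfl⟩
        rcases he with he | he
        · exact Finset.mem_sigma.2 ⟨he.2.1, Finset.mem_filter.2 ⟨he.2.2.1, he.2.2.2.2⟩⟩
        · exact Finset.mem_sigma.2 ⟨he.2.1, Finset.mem_filter.2 ⟨he.2.2.1, he.2.2.2.2⟩⟩
    omega
  have hdeg : ∀ a, H176R2.R5.dg G Finset.univ a ≤ 5 := by
    intro a
    have h1 : G.degree a = 5 := hreg a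
    rw [← SimpleGraph.card_neighborFinset_eq_degree] at h1
    rw [dg_eq, ← h1]
    apply Finset.card_le_card
    intro x hx
    rw [SimpleGraph.mem_neighborFinset]
    exact (Finset.mem_filter.1 hx).2
  have hInd : H176R2.R5.Ind p G := H176R2.R5.main hp hSp hdeg
  have hgr : H176R2.R5.OR.gr {e : Fin n × Fin n | e.1 < e.2 ∧ G.Adj e.1 e.2} = G := by
    ext a b
    show (a ≠ b ∧ ((a < b ∧ G.Adj a b) ∨ (b < a ∧ G.Adj b a))) ↔ G.Adj a b
    constructor
    · rintro ⟨_, h | h⟩
      · exact h.2
      · exact h.2.symm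
    · intro h
      refine ⟨h.ne, ?_⟩
      rcases lt_trichotomy a b with h' | h' | h'
      · exact Or.inl ⟨h', h⟩
      · exact absurd h' h.ne
      · exact Or.inr ⟨h', h.symm⟩
  have h1 := (H176R2.R5.OR.ind_iff (I := {e : Fin n × Fin n | e.1 < e.2 ∧ G.Adj e.1 e.2})
    (fun e he => he.1) p (fun e => (fun (w : Fin n) (i : Fin 3) =>
              if w = e.val.1 then p e.val.1 i - p e.val.2 i
              else if w = e.val.2 then p e.val.2 i - p e.val.1 i
              else 0)) (fun e v k => rfl)).2 (by rw [hgr]; exact hInd)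
  exact h1

end Pool.Agent.S10311
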