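import Pool.Statements.S10336
import Pool.Agent.U496.OccMain

set_option autoImplicit false
open Classical
open Pool Pool.MP_99d978_co

namespace Pool.Agent.S10336

/-- The negation of the preceding statement: Let L be the largest real root of the sextic. For every finite 4-regular triangle-free G and λ>0: if λ≤L, G's occupancy fraction is at least the Robertson graph's (4-regular, girth 5, 19 vertices); if λ≥L, at least that of the circulant on Z13 with jumps ±1,±5. -/
theorem result :
    ¬ (∀ L : ℝ,
      90*L^6 + 729*L^5 - 188*L^4 - 1632*L^3 - 1247*L^2 - 363*L - 38 = 0 →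
      (∀ x : ℝ, 90*x^6 + 729*x^5 - 188*x^4 - 1632*x^3 - 1247*x^2 - 363*x - 38 = 0 → x ≤ L) →
      ∀ (V : Type) [Fintype V] [Nonempty V] (G : SimpleGraph V),
        G.IsRegularOfDegree 4 → G.CliqueFree 3 →
        ∀ H : SimpleGraph (Fin 19), H.IsRegularOfDegree 4 → (5 : ℕ∞) ≤ H.egirth →
        ∀ l : ℝ, 0 < l →
          (l ≤ L →
            (∑ I : Finset (Fin 19), if H.IsIndepSet (I : Set (Fin 19)) then (I.card : ℝ) * l ^ I.card else 0) /
              ((Fintype.card (Fin 19) : ℝ) *
                ∑ I : Finset (Fin 19), if H.IsIndepSet (I : Set (Fin 19)) then l ^ I.card else 0)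
            ≤
            (∑ I : Finset V, if G.IsIndepSet (I : Set V) then (I.card : ℝ) * l ^ I.card else 0) /
              ((Fintype.card V : ℝ) *
                ∑ I : Finset V, if G.IsIndepSet (I : Set V) then l ^ I.card else 0)) ∧
          (L ≤ l →
            (∑ I : Finset (ZMod 13),
                if (SimpleGraph.fromRel (fun x y : ZMod 13 => x - y = 1 ∨ x - y = 5)).IsIndepSet
                    (I : Set (ZMod 13))
                then (I.card : ℝ) * l ^ I.card else 0) /
              ((Fintype.card (ZMod 13) : ℝ) *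
                ∑ I : Finset (ZMod 13),
                  if (SimpleGraph.fromRel (fun x y : ZMod 13 => x - y = 1 ∨ x - y = 5)).IsIndepSet
                      (I : Set (ZMod 13))
                  then l ^ I.card else 0)
            ≤
            (∑ I : Finset V, if G.IsIndepSet (I : Set V) then (I.card : ℝ) * l ^ I.card else 0) /
              ((Fintype.card V : ℝ) *
                ∑ I : Finset V, if G.IsIndepSet (I : Set V) then l ^ I.card else 0))) := by
  intro h
  obtain ⟨L, hL2, hL0, hLmax⟩ := Pool.Agent.U496.Occ.exL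
  have h2 := (h L hL0 hLmax (Fin 20) (Pool.Agent.U496.Occ.gr 20 Pool.Agent.U496.Occ.nbG)
    (Pool.Agent.U496.Occ.regG _) Pool.Agent.U496.Occ.cfG
    (Pool.Agent.U496.Occ.gr 19 Pool.Agent.U496.Occ.nbR)
    (Pool.Agent.U496.Occ.regR _) Pool.Agent.U496.Occ.girthR 2 (by norm_num)).2 hL2
  exact Pool.Agent.U496.Occ.final _ _ _ _ h2

end Pool.Agent.S10336
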