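import Pool.Statements.S10395
import Pool.Agent.U346.Final

set_option autoImplicit false
open Pool Pool.MP_9c9c2f_co

namespace Pool.Agent.S10395

/-- For every n, with D the divided-difference operators on Z[x1..xn], Schubert polynomial S_u = D_{u^-1 w0} of the staircase monomial, and E the skew operators from the Leibniz rule, every coefficient of E_{w/v}(S_u) is nonnegative. -/
theorem result :
    ∀ (n : ℕ) (D : Equiv.Perm (Fin n) → MvPolynomial (Fin n) ℤ → MvPolynomial (Fin n) ℤ)
      (E : Equiv.Perm (Fin n) → Equiv.Perm (Fin n) → MvPolynomial (Fin n) ℤ → MvPolynomial (Fin n) ℤ),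
      (∀ f, D 1 f = f) →
      (∀ (w : Equiv.Perm (Fin n)) (i j : Fin n), j.val = i.val + 1 →
        (Finset.univ.filter (fun p : Fin n × Fin n =>
            p.1 < p.2 ∧ (Equiv.swap i j * w) p.2 < (Equiv.swap i j * w) p.1)).card
          < (Finset.univ.filter (fun p : Fin n × Fin n => p.1 < p.2 ∧ w p.2 < w p.1)).card →
        ∀ f, (MvPolynomial.X i - MvPolynomial.X j) * D w f
          = D (Equiv.swap i j * w) f
            - MvPolynomial.rename (⇑(Equiv.swap i j)) (D (Equiv.swap i j * w) f)) →
      (∀ (w : Equiv.Perm (Fin n)) (f g : MvPolynomial (Fin n) ℤ),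
        D w (f * g) = ∑ v : Equiv.Perm (Fin n), E w v f * D v g) →
      ∀ (u v w : Equiv.Perm (Fin n)) (m : Fin n →₀ ℕ),
        0 ≤ MvPolynomial.coeff m
          (E w v (D (u⁻¹ * Fin.revPerm)
            (∏ i : Fin n, MvPolynomial.X i ^ (n - 1 - (i : ℕ))))) := by
  intro n D E h1 h2 hE u v w m
  have hD : Pool.Agent.U346.DH D := ⟨h1, fun w i j hij hlt f => h2 w i j hij hlt f⟩
  exact Pool.Agent.U346.main hD E hE u v w m

end Pool.Agent.S10395
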