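import Pool.Statements.S10411

/-!
The Moebius-Kantor configuration (8 points, 8 lines, 3 points on every line) is realisable over the
complex numbers but not over the real numbers. Take the 16 vectors in `ℂ^3` given by its points and
lines and let `B` be the matrix of their scalar products (without complex conjugation), a symmetric
matrix of rank at most three, and let `G` be the graph of its nonzero off-diagonal entries. In a
real matrix with the same pattern and of rank at most three, the block with the points as rows and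
the lines as columns would give a real realisation of the configuration; eliminating, one gets a
real number `w` with `w ^ 2 + w + 1 = 0`.
-/

set_option autoImplicit false
open Pool Pool.MP_9d9bd3_co

namespace Pool.Agent.S10411

open Matrix

/-- Minors of order four of a matrix of rank at most three vanish. -/
theorem det_sub_eq_zero {n : ℕ} (A : Matrix (Fin n) (Fin n) ℝ) (h : A.rank ≤ 3)
    (r c : Fin 4 → Fin n) : (A.submatrix r c).det = 0 := by
  by_contra hne
  have h1 : (A.submatrix r c).rank = 4 := by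
    have := Matrix.rank_of_isUnit (A.submatrix r c)
      ((Matrix.isUnit_iff_isUnit_det _).2 (isUnit_iff_ne_zero.2 hne))
    simpa using this
  have h2 : A.submatrix r c = ((1 : Matrix (Fin n) (Fin n) ℝ).submatrix r id) * A *
      ((1 : Matrix (Fin n) (Fin n) ℝ).submatrix id c) := by
    ext i j
    simp [Matrix.mul_apply, Matrix.one_apply]
  have h3 : (A.submatrix r c).rank ≤ A.rank := by
    rw [h2]
    exact (Matrix.rank_mul_le_left _ _).trans (Matrix.rank_mul_le_right _ _)
  omega

/-- The points and the lines of the configuration; the indices `0, ..., 7` are the points and the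
indices `8, ..., 15` are the lines. -/
def vec (t : ℂ) : Fin 16 → Fin 3 → ℂ :=
  ![![1, 0, 0], ![0, 1, 0], ![0, 0, 1], ![1, 1, 0], ![0, 1, 1], ![1, 1, t], ![1 - t, 1, t],
    ![1 - t, 0, t],
    ![0, 0, 1], ![1, 0, 0], ![1, -1, 0], ![1, -1, 1], ![t, 1 - t, t - 1], ![0, t, -1],
    ![t, 0, t - 1], ![0, 1, 0]]

/-- The matrix of the scalar products. -/
def Bmat (t : ℂ) : Matrix (Fin 16) (Fin 16) ℂ := Matrix.of fun i j => vec t i ⬝ᵥ vec t j

/-- The elimination. -/
theorem no_real (A : Matrix (Fin 16) (Fin 16) ℝ) (h : A.rank ≤ 3)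
    (z : ∀ i j : Fin 16, (i, j) ∈ ([(0, 8), (0, 13), (0, 15), (1, 8), (1, 9), (1, 14), (2, 9),
      (2, 10), (2, 15), (3, 8), (3, 10), (3, 11), (4, 9), (4, 11), (4, 12), (5, 10), (5, 12),
      (5, 13), (6, 11), (6, 13), (6, 14), (7, 12), (7, 14), (7, 15)] : List (Fin 16 × Fin 16)) →
      A i j = 0)
    (nz : ∀ i j : Fin 16, (i, j) ∈ ([(0, 9), (1, 15), (2, 8), (0, 10), (1, 10), (0, 11), (1, 11),
      (2, 11), (0, 12), (1, 12), (2, 12), (1, 13), (2, 13), (0, 14), (2, 14), (3, 9), (3, 15),
      (4, 15), (4, 8), (5, 9), (5, 15), (5, 8), (6, 9), (6, 15), (6, 8), (7, 9), (7, 8)] :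
      List (Fin 16 × Fin 16)) → A i j ≠ 0) : False := by
  have key : ∀ i j : Fin 16, A i j * (A 0 9 * A 1 15 * A 2 8) =
      A i 9 * A 0 j * (A 1 15 * A 2 8) + A i 15 * A 1 j * (A 0 9 * A 2 8) +
        A i 8 * A 2 j * (A 0 9 * A 1 15) := by
    intro i j
    have h1 := det_sub_eq_zero A h ![0, 1, 2, i] ![9, 15, 8, j]
    rw [Matrix.det_succ_row_zero] at h1
    simp only [Fin.sum_univ_four, Matrix.det_fin_three, Matrix.submatrix_apply, Fin.succAbove,
      Matrix.cons_val_zero, Matrix.cons_val_one, Matrix.cons_val] at h1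
    simp [z 0 15 (by decide), z 0 8 (by decide), z 1 9 (by decide), z 1 8 (by decide),
      z 2 9 (by decide), z 2 15 (by decide)] at h1
    linarith
  have n09 := nz 0 9 (by decide)
  have n115 := nz 1 15 (by decide)
  have n28 := nz 2 8 (by decide)
  obtain ⟨P, hP⟩ : ∃ P : Fin 16 → ℝ, P = fun j => A 0 j * (A 1 15 * A 2 8) := ⟨_, rfl⟩
  obtain ⟨Q, hQ⟩ : ∃ Q : Fin 16 → ℝ, Q = fun j => A 1 j * (A 0 9 * A 2 8) := ⟨_, rfl⟩
  obtain ⟨R, hR⟩ : ∃ R : Fin 16 → ℝ, R = fun j => A 2 j * (A 0 9 * A 1 15) := ⟨_, rfl⟩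
  have nP : ∀ j, A 0 j ≠ 0 → P j ≠ 0 := fun j hj => by
    rw [hP]; exact mul_ne_zero hj (mul_ne_zero n115 n28)
  have nQ : ∀ j, A 1 j ≠ 0 → Q j ≠ 0 := fun j hj => by
    rw [hQ]; exact mul_ne_zero hj (mul_ne_zero n09 n28)
  have nR : ∀ j, A 2 j ≠ 0 → R j ≠ 0 := fun j hj => by
    rw [hR]; exact mul_ne_zero hj (mul_ne_zero n09 n115)
  have key2 : ∀ i j : Fin 16, A i j = 0 → A i 9 * P j + A i 15 * Q j + A i 8 * R j = 0 := by
    intro i j hij
    have h1 := key i j
    rw [hij, zero_mul] at h1
    simp only [hP, hQ, hR]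
    linarith
  -- the equations
  have e1 := key2 3 10 (z _ _ (by decide))
  have e2 := key2 5 10 (z _ _ (by decide))
  have e3 := key2 3 11 (z _ _ (by decide))
  have e4 := key2 4 11 (z _ _ (by decide))
  have e5 := key2 6 11 (z _ _ (by decide))
  have e6 := key2 4 12 (z _ _ (by decide))
  have e7 := key2 5 12 (z _ _ (by decide))
  have e8 := key2 7 12 (z _ _ (by decide))
  have e9 := key2 5 13 (z _ _ (by decide))
  have e10 := key2 6 13 (z _ _ (by decide))
  have e11 := key2 6 14 (z _ _ (by decide))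
  have e12 := key2 7 14 (z _ _ (by decide))
  have zR10 : R 10 = 0 := by simp [hR, z 2 10 (by decide)]
  have zP13 : P 13 = 0 := by simp [hP, z 0 13 (by decide)]
  have zQ14 : Q 14 = 0 := by simp [hQ, z 1 14 (by decide)]
  rw [z 3 8 (by decide)] at e1 e3
  rw [z 4 9 (by decide)] at e4 e6
  rw [z 7 15 (by decide)] at e8 e12
  rw [zR10] at e1 e2
  rw [zP13] at e9 e10
  rw [zQ14] at e11 e12
  have nP10 := nP 10 (nz _ _ (by decide))
  have nQ11 := nQ 11 (nz _ _ (by decide))
  have nR12 := nR 12 (nz _ _ (by decide))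
  have nQ13 := nQ 13 (nz _ _ (by decide))
  have nP14 := nP 14 (nz _ _ (by decide))
  have X3 := nz 3 9 (by decide)
  have Y3 := nz 3 15 (by decide)
  have Y4 := nz 4 15 (by decide)
  have Z4 := nz 4 8 (by decide)
  have X5 := nz 5 9 (by decide)
  have Y5 := nz 5 15 (by decide)
  have Z5 := nz 5 8 (by decide)
  have X6 := nz 6 9 (by decide)
  have Y6 := nz 6 15 (by decide)
  have Z6 := nz 6 8 (by decide)
  have X7 := nz 7 9 (by decide)
  have Z7 := nz 7 8 (by decide)
  have E0 : A 3 9 * A 5 15 = A 5 9 * A 3 15 := by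
    apply mul_left_cancel₀ nP10
    linear_combination A 5 15 * e1 - A 3 15 * e2
  have E1 : A 3 9 * A 4 8 * A 6 15 = A 6 9 * A 3 15 * A 4 8 + A 6 8 * A 4 15 * A 3 9 := by
    apply mul_left_cancel₀ nQ11
    linear_combination A 3 9 * A 4 8 * e5 - A 6 9 * A 4 8 * e3 - A 6 8 * A 3 9 * e4
  have E2 : A 5 8 * A 7 9 * A 4 15 = A 5 9 * A 4 15 * A 7 8 + A 5 15 * A 7 9 * A 4 8 := by
    apply mul_left_cancel₀ nR12
    linear_combination A 7 9 * A 4 15 * e7 - A 5 9 * A 4 15 * e8 - A 5 15 * A 7 9 * e6
  have E3 : A 5 15 * A 6 8 = A 5 8 * A 6 15 := by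
    apply mul_left_cancel₀ nQ13
    linear_combination A 6 8 * e9 - A 5 8 * e10
  have E4 : A 6 9 * A 7 8 = A 7 9 * A 6 8 := by
    apply mul_left_cancel₀ nP14
    linear_combination A 7 8 * e11 - A 6 8 * e12
  obtain ⟨r, hr⟩ : ∃ r, A 3 9 = r * A 3 15 := ⟨A 3 9 / A 3 15, by field_simp⟩
  obtain ⟨s, hs⟩ : ∃ s, A 4 8 = s * A 4 15 := ⟨A 4 8 / A 4 15, by field_simp⟩
  obtain ⟨u, hu⟩ : ∃ u, A 5 8 = u * A 5 15 := ⟨A 5 8 / A 5 15, by field_simp⟩
  obtain ⟨v, hv⟩ : ∃ v, A 6 9 = v * A 6 8 := ⟨A 6 9 / A 6 8, by field_simp⟩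
  have h5 : A 5 9 = r * A 5 15 := by
    apply mul_right_cancel₀ Y3
    rw [← E0, hr]; ring
  have h6 : A 6 8 = u * A 6 15 := by
    apply mul_left_cancel₀ Y5
    rw [E3, hu]; ring
  have h7 : A 7 9 = v * A 7 8 := by
    apply mul_right_cancel₀ Z6
    rw [← E4, hv]; ring
  have hs0 : s ≠ 0 := by
    rintro rfl
    exact Z4 (by rw [hs, zero_mul])
  have hv0 : v ≠ 0 := by
    rintro rfl
    exact X6 (by rw [hv, zero_mul])
  have F1 : r * s = v * u * s + u * r := by
    apply mul_left_cancel₀ (mul_ne_zero (mul_ne_zero Y3 Y4) Y6)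
    rw [hr, hs, hv, h6] at E1
    linear_combination E1
  have F2 : u * v = r + v * s := by
    apply mul_left_cancel₀ (mul_ne_zero (mul_ne_zero Y5 Z7) Y4)
    rw [hu, hs, h5, h7] at E2
    linear_combination E2
  have F3 : u ^ 2 - u * s + s ^ 2 = 0 := by
    apply mul_left_cancel₀ hv0
    linear_combination (u - s) * F2 - F1
  nlinarith [sq_nonneg (2 * u - s), mul_self_pos.2 hs0]

theorem dot3 (a b : Fin 3 → ℂ) : a ⬝ᵥ b = a 0 * b 0 + a 1 * b 1 + a 2 * b 2 := by
  simp [dotProduct, Fin.sum_univ_succ]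
  ring

/-- There is a finite simple graph G and a complex symmetric matrix with G's off-diagonal nonzero pattern whose rank is below the rank of every real symmetric matrix with that pattern, i.e. real minimum rank exceeds complex minimum rank. -/
theorem result :
    ∃ n : ℕ, ∃ G : SimpleGraph (Fin n), ∃ B : Matrix (Fin n) (Fin n) ℂ,
      B.IsSymm ∧ (∀ i j : Fin n, i ≠ j → (B i j ≠ 0 ↔ G.Adj i j)) ∧
      ∀ A : Matrix (Fin n) (Fin n) ℝ, A.IsSymm →
        (∀ i j : Fin n, i ≠ j → (A i j ≠ 0 ↔ G.Adj i j)) →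
        B.rank < A.rank := by
  obtain ⟨t, ht⟩ : ∃ t : ℂ, t ^ 2 - t + 1 = 0 := by
    obtain ⟨t, ht⟩ := IsAlgClosed.exists_root (Polynomial.X ^ 2 - Polynomial.X + 1 : Polynomial ℂ)
      (by
        have : (Polynomial.X ^ 2 - Polynomial.X + 1 : Polynomial ℂ).degree = 2 := by
          compute_degree!
        rw [this]
        norm_num)
    exact ⟨t, by simpa [Polynomial.IsRoot] using ht⟩
  have ht0 : t ≠ 0 := by
    rintro rfl
    norm_num at ht
  have ht1 : 1 - t ≠ 0 := by
    intro h
    have h1 : t = 1 := by linear_combination -h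
    rw [h1] at ht
    norm_num at ht
  refine ⟨16, ⟨fun i j => i ≠ j ∧ Bmat t i j ≠ 0, ?_, ?_⟩, Bmat t, ?_, ?_, ?_⟩
  · refine ⟨?_⟩
    rintro i j ⟨h1, h2⟩
    refine ⟨h1.symm, ?_⟩
    intro h3
    apply h2
    rw [Bmat, Matrix.of_apply] at h3 ⊢
    rw [dotProduct_comm]
    exact h3
  · exact ⟨fun i hi => hi.1 rfl⟩
  · ext i j
    simp only [Bmat, Matrix.transpose_apply, Matrix.of_apply, dotProduct_comm]
  · intro i j hij
    exact ⟨fun h => ⟨hij, h⟩, fun h => h.2⟩
  · intro A _ hA
    by_contra hlt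
    have hB : (Bmat t).rank ≤ 3 := by
      have h1 : Bmat t = (Matrix.of (vec t)) * (Matrix.of (vec t))ᵀ := by
        ext i j
        simp [Bmat, Matrix.mul_apply, dotProduct]
      rw [h1]
      refine (Matrix.rank_mul_le_left _ _).trans ?_
      simpa using Matrix.rank_le_width (Matrix.of (vec t))
    have hA3 : A.rank ≤ 3 := (not_lt.1 hlt).trans hB
    refine no_real A hA3 ?_ ?_
    · intro i j hij
      have hne : i ≠ j := by
        rintro rfl
        revert hij
        revert i
        decide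
      by_contra hne0
      apply ((hA i j hne).1 hne0).2
      simp only [List.mem_cons, Prod.mk.injEq, List.not_mem_nil, or_false] at hij
      rcases hij with h | h | h | h | h | h | h | h | h | h | h | h | h | h | h | h | h | h | h | h | h | h | h | h <;>
      · obtain ⟨rfl, rfl⟩ := h
        simp only [Bmat, Matrix.of_apply, dot3, vec, Matrix.cons_val]
        first
          | ring1
          | linear_combination ht
    · intro i j hij
      have hne : i ≠ j := by
        rintro rfl
        revert hij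
        revert i
        decide
      refine (hA i j hne).2 ⟨hne, ?_⟩
      simp only [List.mem_cons, Prod.mk.injEq, List.not_mem_nil, or_false] at hij
      rcases hij with h | h | h | h | h | h | h | h | h | h | h | h | h | h | h | h | h | h | h | h | h | h | h | h | h | h | h <;>
      · obtain ⟨rfl, rfl⟩ := h
        simp only [Bmat, Matrix.of_apply, dot3, vec, Matrix.cons_val]
        intro h0
        first
          | exact one_ne_zero (α := ℂ) (by linear_combination h0)
          | exact one_ne_zero (α := ℂ) (by linear_combination -h0)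
          | exact ht0 (by linear_combination h0)
          | exact ht0 (by linear_combination -h0)
          | exact ht1 (by linear_combination h0)
          | exact ht1 (by linear_combination -h0)

end Pool.Agent.S10411
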