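import Pool.Statements.S10718
import Pool.Agent.Helper337.PolygonProofC
import Pool.Agent.U55.Spurs

set_option autoImplicit false
open Pool Pool.MP_ab53bf_co

namespace Pool.Agent.S10718

open Pool.Agent.Helper337.PolygonPattern

/-- `Fin 14` is `ZMod 14` -/
abbrev toZ (i : Fin 14) : ZMod 14 := i

/-- the polygons, indexed by `Fin 14` -/
def X (i : Fin 14) : ℝ × ℝ := xx (toZ i)
def Y (i : Fin 14) : ℝ × ℝ := yy (toZ i)

theorem rot_eq (i : Fin 14) : toZ (finRotate 14 i) = toZ i + 1 := by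
  revert i; decide

theorem rot_symm_eq (i : Fin 14) : toZ ((finRotate 14).symm i) = toZ i - 1 := by
  have h := rot_eq ((finRotate 14).symm i)
  rw [Equiv.apply_symm_apply] at h
  rw [h]; ring

/-- the vector of the pendant edge -/
def vv (x : Fin 14 → ℝ × ℝ) (i : Fin 14) : ℝ × ℝ :=
  (2:ℝ) • x i - x ((finRotate 14).symm i) - x (finRotate 14 i)

theorem rot_ne : ∀ i : Fin 14, finRotate 14 i ≠ i := by decide

theorem YZ_inj : ∀ i j : ZMod 14, YZ i = YZ j → i = j := by decide +kernel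

theorem Y_inj : Function.Injective Y := by
  intro i j h
  apply YZ_inj
  have h' : toR (YZ i) = toR (YZ j) := h
  simp only [toR, Prod.mk.injEq] at h'
  exact Prod.ext (by exact_mod_cast h'.1) (by exact_mod_cast h'.2)

theorem Y_inc (i j : Fin 14) (hij : i ≠ j) (hj : j ≠ finRotate 14 i) :
    Y j ∉ segment ℝ (Y i) (Y (finRotate 14 i)) := by
  intro h
  unfold Y at h
  rw [rot_eq] at h
  have hj' : toZ j ≠ toZ i + 1 := by rw [← rot_eq]; exact hj
  have key : ∀ i j : ZMod 14, i ≠ j → j ≠ i + 1 → (j - 1 ≠ j ∧ i ≠ j - 1) := by decide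
  obtain ⟨k1, k2⟩ := key i j hij hj'
  exact no_incidence ordinaryY (toZ j - 1) (toZ j) (toZ i) (sub_add_cancel _ _) k2 hij k1 h

theorem vv_ne (i : Fin 14) : vv Y i ≠ 0 := by
  intro h
  have hp := properY (toZ i)
  apply hp
  unfold vv Y at h
  rw [rot_eq, rot_symm_eq] at h
  rw [collinear_iff_of_mem (p₀ := yy (toZ i)) (by simp)]
  refine ⟨yy (toZ i + 1) - yy (toZ i), ?_⟩
  intro p hp
  simp only [Set.mem_insert_iff, Set.mem_singleton_iff] at hp
  rcases hp with hp | hp | hp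
  · refine ⟨-1, ?_⟩
    have h2 : yy (toZ i - 1) = (2:ℝ) • yy (toZ i) - yy (toZ i + 1) := by
      have h3 : (2:ℝ) • yy (toZ i) - yy (toZ i - 1) - yy (toZ i + 1) = 0 := h
      have h4 := sub_eq_zero.mp h3
      rw [← h4]; abel
    rw [hp, h2, two_smul]
    simp only [vadd_eq_add, neg_smul, one_smul]
    abel
  · exact ⟨0, by simp [hp]⟩
  · exact ⟨1, by simp [hp]⟩

/-- the reflection carries the first polygon to the second one -/
theorem tau_X (i : Fin 14) : tau (X i) = Y ((Equiv.addRight (7 : Fin 14)) i) := tau_xx (toZ i)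

theorem rot_seven (i : Fin 14) :
    finRotate 14 (Equiv.addRight (7 : Fin 14) i) = Equiv.addRight (7 : Fin 14) (finRotate 14 i) := by
  revert i; decide

theorem rot_symm_seven (i : Fin 14) :
    (finRotate 14).symm (Equiv.addRight (7 : Fin 14) i) =
      Equiv.addRight (7 : Fin 14) ((finRotate 14).symm i) := by
  revert i; decide

theorem tau_seg (i j : Fin 14) : tau '' segment ℝ (X i) (X j) =
    segment ℝ (Y (Equiv.addRight (7 : Fin 14) i)) (Y (Equiv.addRight (7 : Fin 14) j)) := by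
  rw [tau_segment, tau_X, tau_X]

theorem tau_vv (ε : ℝ) (i : Fin 14) : tau (X i + ε • vv X i) =
    Y (Equiv.addRight (7 : Fin 14) i) + ε • vv Y (Equiv.addRight (7 : Fin 14) i) := by
  unfold vv
  rw [rot_seven, rot_symm_seven, ← tau_X, ← tau_X, ← tau_X]
  simp only [tau_apply]
  apply Prod.ext
  · simp
  · simp; ring

/-- for small pendant edges there is a homeomorphism carrying everything from `X` to `Y` -/
theorem exists_h : ∃ δ : ℝ, 0 < δ ∧ ∀ a b : ℝ, 0 < a → a < δ → 0 < b → b < δ →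
    ∃ h : (ℝ × ℝ) ≃ₜ (ℝ × ℝ), ∃ s : Equiv.Perm (Fin 14),
      (∀ i, h '' segment ℝ (X i) (X (finRotate 14 i)) = segment ℝ (Y (s i)) (Y (finRotate 14 (s i)))) ∧
      (∀ i, h (X i) = Y (s i)) ∧
      (∀ i, h '' segment ℝ (X i) (X i + a • vv X i) = segment ℝ (Y (s i)) (Y (s i) + b • vv Y (s i))) ∧
      ∀ i, h (X i + a • vv X i) = Y (s i) + b • vv Y (s i) := by
  obtain ⟨δ, hδ, H⟩ := Pool.Agent.U55.Spurs.exists_homeo Y (finRotate 14) (vv Y) rot_ne vv_ne Y_inj
    Y_inc
  refine ⟨δ, hδ, fun a b ha ha' hb hb' => ?_⟩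
  obtain ⟨g, g1, g2, g3, g4⟩ := H a b ha ha' hb hb'
  have htr : (tau.trans g : ℝ × ℝ → ℝ × ℝ) = g ∘ tau := rfl
  refine ⟨tau.trans g, Equiv.addRight (7 : Fin 14), fun i => ?_, fun i => ?_, fun i => ?_,
    fun i => ?_⟩
  · rw [htr, Set.image_comp, tau_seg, ← rot_seven, g1]
  · rw [Homeomorph.trans_apply, tau_X, g2]
  · rw [htr, Set.image_comp, tau_segment, tau_vv, tau_X, g3]
  · rw [Homeomorph.trans_apply, tau_vv, g4]

/-- `Fin 14` is `ZMod 14` -/
def ofZ (i : ZMod 14) : Fin 14 := i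

theorem rot_ofZ (i : ZMod 14) : finRotate 14 (ofZ i) = ofZ (i + 1) := by
  revert i; decide

theorem rot_symm_toZ (i : Fin 14) : toZ ((finRotate 14).symm i) = toZ i - 1 := rot_symm_eq i

theorem relab {σ : Equiv.Perm (Fin 14)}
    (h : (∀ i, σ (finRotate 14 i) = finRotate 14 (σ i)) ∨
      (∀ i, σ (finRotate 14 i) = (finRotate 14).symm (σ i))) :
    IsRelabelling (fun i : ZMod 14 => toZ (σ (ofZ i))) := by
  refine ⟨toZ (σ (ofZ 0)), ?_⟩
  rcases h with h | h
  · left
    have h1 : ∀ k : ℕ, toZ (σ (ofZ (k : ZMod 14))) = toZ (σ (ofZ 0)) + (k : ZMod 14) := by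
      intro k
      induction k with
      | zero => rw [Nat.cast_zero, add_zero]
      | succ k ih =>
        rw [Nat.cast_succ, ← rot_ofZ, h, rot_eq, ih]
        ring
    intro i
    have h2 := h1 (ZMod.val i)
    rw [ZMod.natCast_zmod_val] at h2
    exact h2
  · right
    have h1 : ∀ k : ℕ, toZ (σ (ofZ (k : ZMod 14))) = toZ (σ (ofZ 0)) - (k : ZMod 14) := by
      intro k
      induction k with
      | zero => rw [Nat.cast_zero, sub_zero]
      | succ k ih =>
        rw [Nat.cast_succ, ← rot_ofZ, h, rot_symm_eq, ih]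
        ring
    intro i
    have h2 := h1 (ZMod.val i)
    rw [ZMod.natCast_zmod_val] at h2
    exact h2

/-- The negation of the preceding statement: If two ordinary proper n-gons have the same pattern and some dihedral relabelling of the second makes corresponding edges same-direction parallel, then some such relabelling admits a continuous deformation of the first into it keeping the pattern and all edge directions. -/
theorem result :
    ¬ (∀ (n : ℕ), 3 ≤ n →
  ∀ (Edge : (Fin n → ℝ × ℝ) → Fin n → Set (ℝ × ℝ)),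
    (∀ x i, Edge x i = segment ℝ (x i) (x (finRotate n i))) →
  ∀ (Pend : (Fin n → ℝ × ℝ) → ℝ → Fin n → ℝ × ℝ),
    (∀ x ε i, Pend x ε i = x i + ε • ((2:ℝ) • x i - x ((finRotate n).symm i) - x (finRotate n i))) →
  ∀ (Ordinary : (Fin n → ℝ × ℝ) → Prop),
    (∀ x, Ordinary x ↔ ∀ (p : ℝ × ℝ) (i j k : Fin n), p ∈ Edge x i → p ∈ Edge x j → p ∈ Edge x k →
      i = j ∨ j = k ∨ i = k) →
  ∀ (Proper : (Fin n → ℝ × ℝ) → Prop),
    (∀ x, Proper x ↔ (∀ i, x i ≠ x (finRotate n i)) ∧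
      ∀ i, ¬ Collinear ℝ ({x ((finRotate n).symm i), x i, x (finRotate n i)} : Set (ℝ × ℝ))) →
  ∀ (MapSet : (Fin n → ℝ × ℝ) → ℝ → Set (ℝ × ℝ)),
    (∀ x ε, MapSet x ε = (⋃ i, Edge x i) ∪ ⋃ i, segment ℝ (x i) (Pend x ε i)) →
  ∀ (Nodes : (Fin n → ℝ × ℝ) → ℝ → Set (ℝ × ℝ)),
    (∀ x ε, Nodes x ε = Set.range x ∪ {p : ℝ × ℝ | ∃ i j, i ≠ j ∧ p ∈ Edge x i ∧ p ∈ Edge x j}
      ∪ Set.range (Pend x ε)) →
  ∀ (SamePattern : (Fin n → ℝ × ℝ) → (Fin n → ℝ × ℝ) → Prop),
    (∀ x y, SamePattern x y ↔ ∃ δ : ℝ, 0 < δ ∧ ∀ ε₁ ε₂ : ℝ, 0 < ε₁ → ε₁ < δ → 0 < ε₂ → ε₂ < δ →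
      ∃ h : Homeomorph (ℝ × ℝ) (ℝ × ℝ), h '' MapSet x ε₁ = MapSet y ε₂ ∧ h '' Nodes x ε₁ = Nodes y ε₂) →
  ∀ (Dihedral : Equiv.Perm (Fin n) → Prop),
    (∀ σ, Dihedral σ ↔ (∀ i, σ (finRotate n i) = finRotate n (σ i)) ∨
      (∀ i, σ (finRotate n i) = (finRotate n).symm (σ i))) →
  ∀ (Parallel : (Fin n → ℝ × ℝ) → (Fin n → ℝ × ℝ) → Prop),
    (∀ x z, Parallel x z ↔ ∀ i, ∃ c : ℝ, 0 < c ∧ z (finRotate n i) - z i = c • (x (finRotate n i) - x i)) →
  ∀ x y : Fin n → ℝ × ℝ,
    Ordinary x → Proper x → Ordinary y → Proper y → SamePattern x y →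
    (∃ σ : Equiv.Perm (Fin n), Dihedral σ ∧ Parallel x (fun i => y (σ i))) →
    ∃ σ : Equiv.Perm (Fin n), Dihedral σ ∧ Parallel x (fun i => y (σ i)) ∧
      ∃ X : ℝ → Fin n → ℝ × ℝ,
        (∀ j, ContinuousOn (fun t => X t j) (Set.Icc (0:ℝ) 1)) ∧
        X 0 = x ∧ X 1 = (fun i => y (σ i)) ∧
        ∀ t ∈ Set.Icc (0:ℝ) 1,
          Ordinary (X t) ∧ Proper (X t) ∧ SamePattern x (X t) ∧ Parallel x (X t)) := by
  intro H
  have H1 := H 14 (by norm_num) (fun x i => segment ℝ (x i) (x (finRotate 14 i))) (fun _ _ => rfl)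
    (fun x ε i => x i + ε • ((2:ℝ) • x i - x ((finRotate 14).symm i) - x (finRotate 14 i)))
    (fun _ _ _ => rfl) _ (fun _ => Iff.rfl) _ (fun _ => Iff.rfl) _ (fun _ _ => rfl)
    _ (fun _ _ => rfl) _ (fun _ _ => Iff.rfl) _ (fun _ => Iff.rfl) _ (fun _ _ => Iff.rfl) X Y
  have ordX : ∀ (p : ℝ × ℝ) (i j k : Fin 14), p ∈ segment ℝ (X i) (X (finRotate 14 i)) →
      p ∈ segment ℝ (X j) (X (finRotate 14 j)) → p ∈ segment ℝ (X k) (X (finRotate 14 k)) →
      i = j ∨ j = k ∨ i = k := by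
    intro p i j k h1 h2 h3
    by_contra hc
    push Not at hc
    unfold X at h1 h2 h3
    rw [rot_eq] at h1 h2 h3
    exact ordinaryX p i j k hc.1 hc.2.1 hc.2.2 ⟨h1, h2, h3⟩
  have ordY : ∀ (p : ℝ × ℝ) (i j k : Fin 14), p ∈ segment ℝ (Y i) (Y (finRotate 14 i)) →
      p ∈ segment ℝ (Y j) (Y (finRotate 14 j)) → p ∈ segment ℝ (Y k) (Y (finRotate 14 k)) →
      i = j ∨ j = k ∨ i = k := by
    intro p i j k h1 h2 h3
    by_contra hc
    push Not at hc
    unfold Y at h1 h2 h3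
    rw [rot_eq] at h1 h2 h3
    exact ordinaryY p i j k hc.1 hc.2.1 hc.2.2 ⟨h1, h2, h3⟩
  have propX : (∀ i, X i ≠ X (finRotate 14 i)) ∧
      ∀ i, ¬ Collinear ℝ ({X ((finRotate 14).symm i), X i, X (finRotate 14 i)} : Set (ℝ × ℝ)) := by
    refine ⟨fun i => ?_, fun i => ?_⟩
    · unfold X; rw [rot_eq]; exact polyX i
    · unfold X; rw [rot_eq, rot_symm_eq]; exact properX i
  have propY : (∀ i, Y i ≠ Y (finRotate 14 i)) ∧
      ∀ i, ¬ Collinear ℝ ({Y ((finRotate 14).symm i), Y i, Y (finRotate 14 i)} : Set (ℝ × ℝ)) := by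
    refine ⟨fun i => ?_, fun i => ?_⟩
    · unfold Y; rw [rot_eq]; exact polyY i
    · unfold Y; rw [rot_eq, rot_symm_eq]; exact properY i
  obtain ⟨σ, hσ, hpar, P, hc, h0, h1, hP⟩ := H1 ordX propX ordY propY
    (by
      obtain ⟨δ, hδ, Hh⟩ := exists_h
      refine ⟨δ, hδ, fun a b ha ha' hb hb' => ?_⟩
      obtain ⟨h, s, e1, e2, e3, e4⟩ := Hh a b ha ha' hb hb'
      refine ⟨h, ?_, ?_⟩
      · rw [Set.image_union, Set.image_iUnion, Set.image_iUnion]
        congr 1
        · calc (⋃ i, h '' segment ℝ (X i) (X (finRotate 14 i)))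
              = ⋃ i, segment ℝ (Y (s i)) (Y (finRotate 14 (s i))) := Set.iUnion_congr e1
            _ = _ := s.surjective.iUnion_comp
                (fun i => segment ℝ (Y i) (Y (finRotate 14 i)))
        · calc (⋃ i, h '' segment ℝ (X i) (X i + a • vv X i))
              = ⋃ i, segment ℝ (Y (s i)) (Y (s i) + b • vv Y (s i)) := Set.iUnion_congr e3
            _ = _ := s.surjective.iUnion_comp
                (fun i => segment ℝ (Y i) (Y i + b • vv Y i))
      · rw [Set.image_union, Set.image_union]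
        congr 1
        · congr 1
          · rw [← Set.range_comp]
            have e : (h : ℝ × ℝ → ℝ × ℝ) ∘ X = Y ∘ s := funext e2
            rw [e, s.surjective.range_comp]
          · have e : ∀ (x : Fin 14 → ℝ × ℝ), {p : ℝ × ℝ | ∃ i j, i ≠ j ∧
                p ∈ segment ℝ (x i) (x (finRotate 14 i)) ∧ p ∈ segment ℝ (x j) (x (finRotate 14 j))}
                = ⋃ q : Fin 14 × Fin 14, ⋃ _ : q.1 ≠ q.2, segment ℝ (x q.1) (x (finRotate 14 q.1)) ∩
                  segment ℝ (x q.2) (x (finRotate 14 q.2)) := by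
              intro x
              ext p
              simp only [Set.mem_ofPred_eq, Set.mem_iUnion, Set.mem_inter_iff, Prod.exists,
                exists_prop]
            rw [e, e, Set.image_iUnion]
            have e5 : ∀ q : Fin 14 × Fin 14,
                h '' (⋃ _ : q.1 ≠ q.2, segment ℝ (X q.1) (X (finRotate 14 q.1)) ∩
                  segment ℝ (X q.2) (X (finRotate 14 q.2))) =
                ⋃ _ : (Equiv.prodCongr s s q).1 ≠ (Equiv.prodCongr s s q).2,
                  segment ℝ (Y (Equiv.prodCongr s s q).1) (Y (finRotate 14 (Equiv.prodCongr s s q).1)) ∩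
                  segment ℝ (Y (Equiv.prodCongr s s q).2)
                    (Y (finRotate 14 (Equiv.prodCongr s s q).2)) := by
              rintro ⟨i, j⟩
              rw [Set.image_iUnion]
              simp only [Equiv.prodCongr_apply, Prod.map_fst, Prod.map_snd, ne_eq,
                EmbeddingLike.apply_eq_iff_eq]
              refine Set.iUnion_congr (fun _ => ?_)
              rw [Set.image_inter h.injective, e1, e1]
            rw [Set.iUnion_congr e5]
            exact (Equiv.prodCongr s s).surjective.iUnion_comp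
              (fun q : Fin 14 × Fin 14 => ⋃ _ : q.1 ≠ q.2,
                segment ℝ (Y q.1) (Y (finRotate 14 q.1)) ∩
                  segment ℝ (Y q.2) (Y (finRotate 14 q.2)))
        · rw [← Set.range_comp]
          have e : (h : ℝ × ℝ → ℝ × ℝ) ∘ (fun i => X i + a • vv X i) =
            (fun i => Y i + b • vv Y i) ∘ s := funext e4
          have e' := congrArg Set.range e
          rw [s.surjective.range_comp] at e'
          exact e')
    ⟨Equiv.refl _, Or.inl (fun _ => rfl), fun i => by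
      obtain ⟨r, hr, e⟩ := parallel_xy (toZ i)
      refine ⟨r, hr, ?_⟩
      unfold X Y
      simp only [Equiv.refl_apply]
      rw [rot_eq]
      exact e⟩
  have hrel := relab hσ
  have hpar' : ParallelEdges xx (yy ∘ (fun i : ZMod 14 => toZ (σ (ofZ i)))) := by
    intro i
    obtain ⟨c, hc, e⟩ := hpar (ofZ i)
    refine ⟨c, hc, ?_⟩
    rw [rot_ofZ] at e
    exact e
  obtain ⟨t, ht, hno⟩ := no_ordinary_path (fun i : ZMod 14 => toZ (σ (ofZ i))) hrel hpar' P hc h0 h1
    (fun t ht i => by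
      obtain ⟨c, hc, e⟩ := (hP t ht).2.2.2 (ofZ i)
      refine ⟨c, hc, ?_⟩
      rw [rot_ofZ] at e
      exact e)
  apply hno
  intro p i j k hij hjk hik ⟨m1, m2, m3⟩
  have hO := (hP t ht).1 p (ofZ i) (ofZ j) (ofZ k)
  rw [rot_ofZ, rot_ofZ, rot_ofZ] at hO
  rcases hO m1 m2 m3 with h | h | h
  · exact hij h
  · exact hjk h
  · exact hik h

end Pool.Agent.S10718
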