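import Pool.Statements.S10784
import Pool.Agent.U684.Owings.Symm

set_option autoImplicit false
open Pool Pool.MP_ae2f77_co

namespace Pool.Agent.S10784

/-- The negation of the preceding statement: There is a 2-colouring of the natural numbers such that for every infinite set X, the sums x+y with x, y in X (x = y allowed) do not all receive the same colour. -/
theorem result :
    ¬ (∃ c : ℕ → Bool, ∀ X : Set ℕ, X.Infinite →
      ∃ x ∈ X, ∃ y ∈ X, ∃ z ∈ X, ∃ w ∈ X, c (x + y) ≠ c (z + w)) := by
  rintro ⟨c, hc⟩
  exact Pool.Agent.U684.Owings.not_sb _ (Pool.Agent.U684.Owings.sb_of_bad c hc)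

end Pool.Agent.S10784
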