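import Pool.Statements.S10800
import Pool.Agent.U523.BC.Final

set_option autoImplicit false
open scoped Classical
open Filter Topology
open Pool Pool.MP_aef546_co

namespace Pool.Agent.S10800

/-- The negation of the preceding statement: For every fixed p with 0<p<1/2, the probability that G(n,p) has biclique partition number equal to n minus its independence number tends to 1 as n tends to infinity. -/
theorem result :
    ¬ (∀ p : ℝ, 0 < p → p < 1 / 2 →
      Tendsto (fun n : ℕ => ∑ G : SimpleGraph (Fin n),
        if sInf {k : ℕ | ∃ A B : Fin k → Finset (Fin n),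
              (∀ i, Disjoint (A i) (B i)) ∧
              ∀ u v : Fin n,
                (G.Adj u v → ∃! i, (u ∈ A i ∧ v ∈ B i) ∨ (v ∈ A i ∧ u ∈ B i)) ∧
                (¬ G.Adj u v → ∀ i, ¬ (u ∈ A i ∧ v ∈ B i))}
            = n - Gᶜ.cliqueNum
        then p ^ G.edgeFinset.card * (1 - p) ^ (n.choose 2 - G.edgeFinset.card)
        else 0)
        atTop (𝓝 1)) := by
  intro H
  have h := H (24/49) (by norm_num) (by norm_num)
  have h2 := h.comp Pool.Agent.U523.BC.tendsto_size
  have h3 := h2.eventually (lt_mem_nhds (show (3/4 : ℝ) < 1 by norm_num))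
  obtain ⟨k, hk, hg⟩ := (h3.and Pool.Agent.U523.BC.eventually_good).exists
  have hb := hg.bound
  unfold Pool.Agent.U523.BC.Hit at hb
  simp only [Function.comp] at hk
  refine absurd (le_trans (le_of_eq ?_) hb) (not_le.2 hk)
  apply Finset.sum_congr rfl
  intro G _
  congr

end Pool.Agent.S10800
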