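import Pool.Statements.S11006
import Pool.Agent.U281.EqEhr.Final

set_option autoImplicit false
open scoped Pointwise
open Pool Pool.MP_b7cbb2_co
open Pool.Agent.U281.EqEhr

namespace Pool.Agent.S11006

/-- The negation of the preceding statement: For any finite group acting linearly on Z^n and invariant lattice polytope P whose equivariant h*-series is a polynomial, every coefficient with positive h*_i has nonzero sum over the group, i.e. contains the trivial representation. -/
theorem result :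
    ¬ (∀ (G : Type) [Group G] [Fintype G] (n : ℕ)
      (ρ : G →* Matrix.GeneralLinearGroup (Fin n) ℤ)
      (V : Finset (Fin n → ℤ)) (P : Set (Fin n → ℝ)),
      V.Nonempty →
      (∀ g : G, ∀ v ∈ V,
        Matrix.mulVec (ρ g : Matrix (Fin n) (Fin n) ℤ) v ∈ V) →
      P = convexHull ℝ
        ((fun v : Fin n → ℤ => fun j => ((v j : ℤ) : ℝ)) '' (V : Set (Fin n → ℤ))) →
      ∀ (d : ℕ) (ι : (Fin d → ℤ) →ₗ[ℤ] (Fin n → ℤ))
        (σ : G → Matrix (Fin d) (Fin d) ℤ) (Φ : G → PowerSeries ℤ),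
      Function.Injective ι →
      (∀ x : Fin n → ℤ,
        (∃ y : Fin d → ℤ, ι y = x) ↔
          (fun j => ((x j : ℤ) : ℝ)) ∈ vectorSpan ℝ P) →
      (∀ (g : G) (y : Fin d → ℤ),
        ι (Matrix.mulVec (σ g) y) =
          Matrix.mulVec (ρ g : Matrix (Fin n) (Fin n) ℤ) (ι y)) →
      (∀ g : G, Φ g =
        PowerSeries.mk (fun m : ℕ =>
          ((Set.ncard {x : Fin n → ℤ |
              (fun j => ((x j : ℤ) : ℝ)) ∈ (m : ℝ) • P ∧
              Matrix.mulVec (ρ g : Matrix (Fin n) (Fin n) ℤ) x = x} : ℕ) : ℤ))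
        * (1 - PowerSeries.X)
        * ((Matrix.det (1 - (Polynomial.X : Polynomial ℤ) •
              (σ g).map Polynomial.C) : Polynomial ℤ) : PowerSeries ℤ)) →
      (∃ N : ℕ, ∀ g : G, ∀ i : ℕ, N ≤ i →
        PowerSeries.coeff (R := ℤ) i (Φ g) = 0) →
      ∀ i : ℕ, 0 < PowerSeries.coeff (R := ℤ) i (Φ 1) →
        (∑ g : G, PowerSeries.coeff (R := ℤ) i (Φ g)) ≠ 0) := by
  intro h
  have hinv : ∀ g : ℤˣ, ∀ v ∈ VV,
      Matrix.mulVec (rho7 g : Matrix (Fin 7) (Fin 7) ℤ) v ∈ VV := by
    intro g v hv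
    rcases Int.units_eq_one_or g with rfl | rfl
    · rw [rho7_one, Matrix.one_mulVec]
      exact hv
    · rw [rho7_neg]
      rw [VV, Finset.mem_image] at hv
      obtain ⟨i, -, rfl⟩ := hv
      revert i
      decide
  have key := h ℤˣ 7 rho7 VV PP ⟨W 0, by simp [VV]⟩ hinv rfl 6 inc
    (fun g => (rho6 g : Matrix (Fin 6) (Fin 6) ℤ)) _ inc_injective inc_range ?_ (fun g => rfl)
  · have e1 : (PowerSeries.mk (fun m : ℕ =>
          ((Set.ncard {x : Fin 7 → ℤ |
              (fun j => ((x j : ℤ) : ℝ)) ∈ (m : ℝ) • PP ∧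
              Matrix.mulVec (rho7 1 : Matrix (Fin 7) (Fin 7) ℤ) x = x} : ℕ) : ℤ))
        * (1 - PowerSeries.X)
        * ((Matrix.det (1 - (Polynomial.X : Polynomial ℤ) •
              (rho6 1 : Matrix (Fin 6) (Fin 6) ℤ).map Polynomial.C) : Polynomial ℤ) :
                PowerSeries ℤ)) = 1 + PowerSeries.X + 2 * PowerSeries.X ^ 3 := by
      rw [count_one, rho6_one, det_one, ← series_all]
      push_cast
      ring
    have e2 : (PowerSeries.mk (fun m : ℕ =>
          ((Set.ncard {x : Fin 7 → ℤ |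
              (fun j => ((x j : ℤ) : ℝ)) ∈ (m : ℝ) • PP ∧
              Matrix.mulVec (rho7 (-1) : Matrix (Fin 7) (Fin 7) ℤ) x = x} : ℕ) : ℤ))
        * (1 - PowerSeries.X)
        * ((Matrix.det (1 - (Polynomial.X : Polynomial ℤ) •
              (rho6 (-1) : Matrix (Fin 6) (Fin 6) ℤ).map Polynomial.C) : Polynomial ℤ) :
                PowerSeries ℤ)) = 1 - PowerSeries.X + 2 * PowerSeries.X ^ 2 := by
      rw [count_neg, rho6_neg, det_SM, ← series_fix]
      push_cast
      ring
    refine key ⟨4, ?_⟩ 1 ?_ ?_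
    · intro g i hi
      rcases Int.units_eq_one_or g with rfl | rfl
      · rw [e1]
        exact coeff_pol_one i hi
      · rw [e2]
        exact coeff_pol_neg i hi
    · rw [e1, coeff_one_pol_one]
      norm_num
    · rw [UnitsInt.univ, Finset.sum_pair (by decide), e1, e2, coeff_one_pol_one,
        coeff_one_pol_neg]
      norm_num
  · intro g y
    rcases Int.units_eq_one_or g with rfl | rfl
    · rw [rho6_one, rho7_one, Matrix.one_mulVec, Matrix.one_mulVec]
    · rw [rho6_neg, rho7_neg, SM_mulVec, RM_mulVec]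
      funext i
      fin_cases i <;> simp [inc]

end Pool.Agent.S11006
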