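import Pool.Statements.S11587
import Pool.Agent.U612.OA.YB
import Pool.Agent.U789.OA.RC
import Pool.Agent.U397.OA.RR
import Pool.Agent.U56.OA.SYM
import Pool.Agent.U875.OA.CONT
import Pool.Agent.U122.OA.PERM
import Pool.Agent.U588.OA.DEG
import Pool.Agent.U200.OA.R1
import Pool.Agent.U263.OA.R2
import Pool.Agent.U394.OA.IC
import Pool.Agent.U705.OA.IC2
import Pool.Agent.U884.OA.ID
import Pool.Agent.U402.OA.DREC
import Pool.Agent.U934.OA.SGN
import Pool.Agent.U606.OA.IIC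
import Pool.Agent.U358.OA.II
import Pool.Agent.U744.OA.CHEB
import Pool.Agent.U139.OA.DLIM
import Pool.Agent.U408.OA.SVT
import Pool.Agent.U491.OA.U
import Pool.Agent.U857.OA.TAU
import Pool.Agent.U208.OA.T
import Pool.Agent.U603.OA.PRODF
import Pool.Agent.U450.OA.CR
import Pool.Agent.U111.OA.CB
import Pool.Agent.U690.OA.CC
import Pool.Agent.U409.OA.Asm

set_option autoImplicit false
open Pool Pool.MP_d12cfa_co

namespace Pool.Agent.S11587

/-- For every n ≥ 1, the number of symmetric (2n+1)×(2n+1) alternating sign matrices with at most one nonzero diagonal entry equals 2^(n-1)(3n+2)!/(2n+1)! times the product over i=1..n of (6i-2)!/(2n+2i+1)!. -/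
theorem result :
    ∀ n : ℕ, 1 ≤ n →
      ((Nat.card {A : Matrix (Fin (2 * n + 1)) (Fin (2 * n + 1)) ℤ //
          (∀ i j, A i j = -1 ∨ A i j = 0 ∨ A i j = 1) ∧
          (∀ i k, (∑ j ∈ Finset.Iic k, A i j) = 0 ∨ (∑ j ∈ Finset.Iic k, A i j) = 1) ∧
          (∀ i, (∑ j, A i j) = 1) ∧
          (∀ j k, (∑ i ∈ Finset.Iic k, A i j) = 0 ∨ (∑ i ∈ Finset.Iic k, A i j) = 1) ∧
          (∀ j, (∑ i, A i j) = 1) ∧
          (∀ i j, A i j = A j i) ∧
          (∃ d : Fin (2 * n + 1), ∀ i, i ≠ d → A i i = 0)} : ℕ) : ℚ)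
        = (2 : ℚ) ^ (n - 1) * ((Nat.factorial (3 * n + 2) : ℕ) : ℚ)
            / ((Nat.factorial (2 * n + 1) : ℕ) : ℚ)
          * ∏ i ∈ Finset.Icc 1 n,
              (((Nat.factorial (6 * i - 2) : ℕ) : ℚ)
                / ((Nat.factorial (2 * n + 2 * i + 1) : ℕ) : ℚ)) := by
  have hPERM : U409.OA.S_PERM := U122.OA.t_PERM U612.OA.t_YB
    (U56.OA.t_SYM U789.OA.t_RC U397.OA.RR.t_RR) U875.OA.t_CONT
  have hI : U409.OA.S_I := U884.OA.ID.t_ID hPERM U588.OA.t_DEG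
    (U394.OA.t_IC hPERM U200.OA.t_R1 U263.OA.t_R2)
    (U705.OA.t_IC2 hPERM U200.OA.t_R1 U263.OA.t_R2)
  have hII : U409.OA.S_II := U358.OA.t_II hPERM U588.OA.t_DEG U934.OA.t_SGN
    (U606.OA.IIC.t_IIC hPERM U200.OA.t_R1 U402.OA.t_DREC)
  exact U409.OA.main hPERM U875.OA.t_CONT hI hII (U139.OA.t_DLIM U744.OA.t_CHEB)
    (U690.OA.t_CC (U111.OA.t_CB U450.OA.t_CR)) U408.OA.t_SVT
    (U208.OA.t_T U491.OA.t_U U857.OA.t_TAU) U603.OA.t_PRODF

end Pool.Agent.S11587
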