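import Pool.Statements.S11608

/-!
# Hereditary graph properties do not factor uniquely into irreducible ones

Let `P` be the class of the graphs which are edgeless or have at most two vertices, and `Q` the
class of the graphs which are bipartite or have at most four vertices. Both are hereditary, both
are irreducible, and `P P P = P Q`: in a partition into three classes from `P` either two are
edgeless (their union is bipartite) or two have at most two vertices (their union has at most four
vertices), and conversely. (In the language of sets of graphs: `(X ∪ Y)^3 = (X ∪ Y) (X^2 ∪ Y^2)`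
with `X` the edgeless graphs and `Y` the graphs with at most two vertices.)

`Q` is irreducible: let `Q = A B`. `K_{3,3}` is in `Q`, and the join of its two parts is again
in `A B`, hence bipartite; so the parts are the two sides and `A`, `B` contain the edgeless graph
with three vertices. `K_4` is in `Q`, so that `A` or `B` contains `K_2`; the join of `K_2` and the
edgeless graph with three vertices is not in `Q`.
-/

set_option autoImplicit false
open Pool Pool.MP_d1f9c8_co

namespace Pool.Agent.S11608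

/-- The classes of graphs on `Fin n`, `n = 0, 1, ...` -/
abbrev Cls := (n : ℕ) → SimpleGraph (Fin n) → Prop

/-- closed under (not necessarily induced) subgraphs -/
def Her (A : Cls) : Prop :=
  ∀ (a b : ℕ) (G : SimpleGraph (Fin a)) (H : SimpleGraph (Fin b)) (f : H →g G),
    Function.Injective f → A a G → A b H

/-- membership in the product -/
def Prd (A B : Cls) (n : ℕ) (G : SimpleGraph (Fin n)) : Prop :=
  ∃ S : Set (Fin n),
    (∃ (r : ℕ) (K : SimpleGraph (Fin r)), A r K ∧ Nonempty (G.induce S ≃g K)) ∧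
    (∃ (r : ℕ) (K : SimpleGraph (Fin r)), B r K ∧ Nonempty (G.induce Sᶜ ≃g K))

/-- the edgeless graphs and the graphs with at most two vertices -/
def PP : Cls := fun n G => (∀ a b, ¬ G.Adj a b) ∨ n ≤ 2

/-- the bipartite graphs and the graphs with at most four vertices -/
def QQ : Cls := fun n G => (∃ c : Fin n → Bool, ∀ a b, G.Adj a b → c a ≠ c b) ∨ n ≤ 4

lemma PP_her : Her PP := by
  intro a b G H f hf h
  rcases h with h | h
  · left
    intro x y hxy
    exact h _ _ (f.map_rel hxy)
  · right
    have := Fintype.card_le_of_injective f hf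
    simp at this
    omega

lemma QQ_her : Her QQ := by
  intro a b G H f hf h
  rcases h with ⟨c, hc⟩ | h
  · left
    exact ⟨fun x => c (f x), fun x y hxy => hc _ _ (f.map_rel hxy)⟩
  · right
    have := Fintype.card_le_of_injective f hf
    simp at this
    omega

/-- A set of vertices which induces a graph that maps injectively to a member of the class. -/
lemma mem_ind {A : Cls} (hA : Her A) {r : ℕ} {K : SimpleGraph (Fin r)} (hK : A r K) {n : ℕ}
    (G : SimpleGraph (Fin n)) (S : Set (Fin n)) (f : Fin n → Fin r) (hf : Set.InjOn f S)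
    (hadj : ∀ a ∈ S, ∀ b ∈ S, G.Adj a b → K.Adj (f a) (f b)) :
    ∃ (r : ℕ) (K : SimpleGraph (Fin r)), A r K ∧ Nonempty (G.induce S ≃g K) := by
  classical
  let e := SimpleGraph.overFinIso (G.induce S) (n := Fintype.card S) rfl
  refine ⟨Fintype.card S, (G.induce S).overFin rfl, ?_, ⟨e⟩⟩
  let g : (G.induce S) →g K := ⟨fun x => f x.1, fun {x y} hxy => hadj _ x.2 _ y.2 hxy⟩
  have hg : Function.Injective g := by
    intro x y hxy
    exact Subtype.ext (hf x.2 y.2 hxy)
  refine hA r _ K _ (g.comp e.symm.toHom) ?_ hK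
  intro x y hxy
  exact e.symm.injective (hg hxy)

/-- If the class contains a graph with at least `m` vertices then it contains an induced subgraph
with vertex set `S` of size at most `m` and no edges. -/
lemma mem_ind_edgeless {A : Cls} (hA : Her A) {r : ℕ} {K : SimpleGraph (Fin r)} (hK : A r K) {n : ℕ}
    (G : SimpleGraph (Fin n)) (S : Set (Fin n)) (f : Fin n → Fin r) (hf : Set.InjOn f S)
    (hadj : ∀ a ∈ S, ∀ b ∈ S, ¬ G.Adj a b) :
    ∃ (r : ℕ) (K : SimpleGraph (Fin r)), A r K ∧ Nonempty (G.induce S ≃g K) :=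
  mem_ind hA hK G S f hf fun a ha b hb h => absurd h (hadj a ha b hb)

lemma card_split {n : ℕ} {G : SimpleGraph (Fin n)} {S : Set (Fin n)} {r s : ℕ}
    {K : SimpleGraph (Fin r)} {L : SimpleGraph (Fin s)} (e : G.induce S ≃g K)
    (e' : G.induce Sᶜ ≃g L) : r + s = n := by
  classical
  have h1 := Fintype.card_congr e.toEquiv
  have h2 := Fintype.card_congr e'.toEquiv
  have h3 := Fintype.card_compl_set S
  simp only [Fintype.card_fin] at h1 h2 h3
  have h4 : Fintype.card S ≤ n := by
    have := set_fintype_card_le_univ S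
    simpa using this
  omega

lemma prd_comm {A B : Cls} {n : ℕ} {G : SimpleGraph (Fin n)} (h : Prd A B n G) : Prd B A n G := by
  obtain ⟨S, h1, h2⟩ := h
  refine ⟨Sᶜ, h2, ?_⟩
  rw [compl_compl]
  exact h1

/-- a star with two edges: adjacency with centre 0 -/
def starG (n : ℕ) : SimpleGraph (Fin n) where
  Adj a b := (a.1 = 0 ∧ b.1 ≠ 0) ∨ (a.1 ≠ 0 ∧ b.1 = 0)
  symm := ⟨fun a b h => by rcases h with ⟨h1, h2⟩ | ⟨h1, h2⟩
                           · right; exact ⟨h2, h1⟩
                           · left; exact ⟨h2, h1⟩⟩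
  loopless := ⟨fun a h => by rcases h with ⟨h1, h2⟩ | ⟨h1, h2⟩
                             · exact h2 h1
                             · exact h1 h2⟩

lemma PP_irr_aux {A B : Cls} (hA : Her A) (hB : Her B) (hB1 : B 1 ⊥)
    (h : ∀ n (G : SimpleGraph (Fin n)), Prd A B n G → PP n G) {r : ℕ} {K : SimpleGraph (Fin r)}
    (hK : A r K) (hr : 2 ≤ r) : False := by
  have h1 : Prd A B 3 (starG 3) := by
    refine ⟨{x | x.1 ≠ 0}, ?_, ?_⟩
    · refine mem_ind_edgeless hA hK _ _ (fun x => ⟨(x.1 - 1) % 2, ?_⟩) ?_ ?_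
      · omega
      · intro a ha b hb hab
        simp only [Fin.mk.injEq, Set.mem_ofPred_eq] at ha hb hab
        apply Fin.ext
        omega
      · intro a ha b hb hab
        simp only [Set.mem_ofPred_eq] at ha hb
        rcases hab with ⟨h1, h2⟩ | ⟨h1, h2⟩
        · exact ha h1
        · exact hb h2
    · refine mem_ind_edgeless hB hB1 _ _ (fun _ => 0) ?_ ?_
      · intro a ha b hb _
        simp only [Set.mem_compl_iff, Set.mem_ofPred_eq, not_not] at ha hb
        apply Fin.ext
        omega
      · intro a ha b hb hab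
        simp only [Set.mem_compl_iff, Set.mem_ofPred_eq, not_not] at ha hb
        rcases hab with ⟨h1, h2⟩ | ⟨h1, h2⟩
        · exact h2 hb
        · exact h1 ha
  rcases h 3 _ h1 with h2 | h2
  · exact h2 ⟨0, by omega⟩ ⟨1, by omega⟩ (Or.inl ⟨rfl, by simp⟩)
  · omega

lemma PP_irr : ∀ A B : Cls, Her A → Her B → A 1 ⊥ → B 1 ⊥ →
    ¬ ∀ (n : ℕ) (G : SimpleGraph (Fin n)), (PP n G ↔ Prd A B n G) := by
  intro A B hA hB hA1 hB1 h
  have h1 : PP 3 ⊥ := Or.inl fun a b => by simp
  obtain ⟨S, ⟨r, K, hK, ⟨e⟩⟩, ⟨s, L, hL, ⟨e'⟩⟩⟩ := (h 3 ⊥).1 h1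
  have h2 := card_split e e'
  by_cases hr : 2 ≤ r
  · exact PP_irr_aux hA hB hB1 (fun n G hG => (h n G).2 hG) hK hr
  · exact PP_irr_aux hB hA hA1 (fun n G hG => (h n G).2 (prd_comm hG)) hL (by omega)

/-- `K_{3,3}` -/
def K33 : SimpleGraph (Fin 6) where
  Adj a b := (a.1 < 3 ∧ 3 ≤ b.1) ∨ (3 ≤ a.1 ∧ b.1 < 3)
  symm := ⟨fun a b h => by rcases h with ⟨h1, h2⟩ | ⟨h1, h2⟩
                           · right; exact ⟨h2, h1⟩
                           · left; exact ⟨h2, h1⟩⟩
  loopless := ⟨fun a h => by omega⟩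

/-- `K_{3,3}` with another vertex which is adjacent to all vertices -/
def K331 : SimpleGraph (Fin 7) where
  Adj a b := (a.1 < 3 ∧ 3 ≤ b.1) ∨ (3 ≤ a.1 ∧ b.1 < 3) ∨ (a.1 ≠ 6 ∧ b.1 = 6) ∨ (a.1 = 6 ∧ b.1 ≠ 6)
  symm := ⟨fun a b h => by omega⟩
  loopless := ⟨fun a h => by omega⟩

lemma not_empty_aux {A B : Cls} (hA : Her A) (hB : Her B) (hB1 : B 1 ⊥)
    (h : ∀ n (G : SimpleGraph (Fin n)), Prd A B n G → QQ n G) (S : Set (Fin 6)) {r : ℕ}
    {K : SimpleGraph (Fin r)} (hK : A r K) (e : K33.induce S ≃g K) (hS : Sᶜ = ∅) : False := by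
  classical
  have hS' : ∀ x, x ∈ S := by
    intro x
    by_contra hx
    have : x ∈ Sᶜ := hx
    rw [hS] at this
    exact this
  have h1 : Prd A B 7 K331 := by
    refine ⟨{x | x.1 ≠ 6}, ?_, ?_⟩
    · refine mem_ind hA hK _ _ (fun x => e ⟨⟨x.1 % 6, by omega⟩, hS' _⟩) ?_ ?_
      · intro a ha b hb hab
        have := congrArg (fun z => z.1.1) (e.injective hab)
        simp only [Set.mem_ofPred_eq] at this ha hb
        apply Fin.ext
        omega
      · intro a ha b hb hab
        simp only [Set.mem_ofPred_eq] at ha hb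
        rw [e.map_adj_iff]
        show K33.Adj ⟨a.1 % 6, by omega⟩ ⟨b.1 % 6, by omega⟩
        simp only [K33, K331] at hab ⊢
        omega
    · refine mem_ind_edgeless hB hB1 _ _ (fun _ => 0) ?_ ?_
      · intro a ha b hb _
        simp only [Set.mem_compl_iff, Set.mem_ofPred_eq, not_not] at ha hb
        apply Fin.ext
        omega
      · intro a ha b hb hab
        simp only [Set.mem_compl_iff, Set.mem_ofPred_eq, not_not] at ha hb
        simp only [K331] at hab
        omega
  rcases h 7 _ h1 with ⟨c, hc⟩ | h2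
  · have h01 := hc ⟨0, by omega⟩ ⟨3, by omega⟩ (by simp [K331])
    have h02 := hc ⟨0, by omega⟩ ⟨6, by omega⟩ (by simp [K331])
    have h12 := hc ⟨3, by omega⟩ ⟨6, by omega⟩ (by simp [K331])
    revert h01 h02 h12
    generalize c ⟨0, by omega⟩ = x
    generalize c ⟨3, by omega⟩ = y
    generalize c ⟨6, by omega⟩ = z
    revert x y z
    decide
  · omega

/-- the edge `01`, joined to the edgeless graph with three vertices -/
def K2E3 : SimpleGraph (Fin 5) where
  Adj a b := a ≠ b ∧ (a.1 < 2 ∨ b.1 < 2)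
  symm := ⟨fun _ _ h => ⟨h.1.symm, h.2.symm⟩⟩
  loopless := ⟨fun _ h => h.1 rfl⟩

lemma QQ_irr_aux {A B : Cls} (hA : Her A) (hB : Her B)
    (h : ∀ n (G : SimpleGraph (Fin n)), Prd A B n G → QQ n G) {S : Set (Fin 4)} {r : ℕ}
    {K : SimpleGraph (Fin r)} (hK : A r K) (e : (⊤ : SimpleGraph (Fin 4)).induce S ≃g K)
    (hr : 2 ≤ r) {s : ℕ} {L : SimpleGraph (Fin s)} (hL : B s L) (hs : 3 ≤ s) : False := by
  have hK2 : ∀ x y : Fin r, x ≠ y → K.Adj x y := by
    intro x y hxy
    have h1 : e.symm x ≠ e.symm y := fun h => hxy (e.symm.injective h)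
    have h2 : ((⊤ : SimpleGraph (Fin 4)).induce S).Adj (e.symm x) (e.symm y) := by
      show (⊤ : SimpleGraph (Fin 4)).Adj _ _
      rw [SimpleGraph.top_adj]
      exact fun h => h1 (Subtype.ext h)
    have h3 := e.map_adj_iff.2 h2
    simpa using h3
  have h1 : Prd A B 5 K2E3 := by
    refine ⟨{x | x.1 < 2}, ?_, ?_⟩
    · refine mem_ind hA hK _ _ (fun x => ⟨x.1 % 2, by omega⟩) ?_ ?_
      · intro a ha b hb hab
        simp only [Fin.mk.injEq, Set.mem_ofPred_eq] at ha hb hab
        apply Fin.ext
        omega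
      · intro a ha b hb hab
        simp only [Set.mem_ofPred_eq] at ha hb
        apply hK2
        intro h
        simp only [Fin.mk.injEq] at h
        apply hab.1
        apply Fin.ext
        omega
    · refine mem_ind_edgeless hB hL _ _ (fun x => ⟨(x.1 - 2) % 3, by omega⟩) ?_ ?_
      · intro a ha b hb hab
        simp only [Fin.mk.injEq, Set.mem_compl_iff, Set.mem_ofPred_eq] at ha hb hab
        apply Fin.ext
        omega
      · intro a ha b hb hab
        simp only [Set.mem_compl_iff, Set.mem_ofPred_eq] at ha hb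
        rcases hab.2 with h | h
        · exact ha h
        · exact hb h
  rcases h 5 _ h1 with ⟨c, hc⟩ | h2
  · have h01 := hc ⟨0, by omega⟩ ⟨1, by omega⟩ (by simp [K2E3])
    have h02 := hc ⟨0, by omega⟩ ⟨2, by omega⟩ (by simp [K2E3])
    have h12 := hc ⟨1, by omega⟩ ⟨2, by omega⟩ (by simp [K2E3])
    revert h01 h02 h12
    generalize c ⟨0, by omega⟩ = x
    generalize c ⟨1, by omega⟩ = y
    generalize c ⟨2, by omega⟩ = z
    revert x y z
    decide
  · omega

lemma split33 (S : Set (Fin 6))
    (h1 : ∀ a ∈ S, ∀ b ∈ S, ¬ K33.Adj a b) (h2 : ∀ a ∈ Sᶜ, ∀ b ∈ Sᶜ, ¬ K33.Adj a b) :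
    (S = {x | x.1 < 3} ∨ S = {x | 3 ≤ x.1}) := by
  have key : ∀ x y : Fin 6, K33.Adj x y → (x ∈ S ↔ y ∉ S) := by
    intro x y hxy
    constructor
    · intro hx hy; exact h1 x hx y hy hxy
    · intro hy; by_contra hx; exact h2 x hx y hy hxy
  by_cases h0 : (0 : Fin 6) ∈ S
  · left
    have h3 : ∀ y : Fin 6, 3 ≤ y.1 → y ∉ S := fun y hy =>
      (key 0 y (Or.inl ⟨by simp, hy⟩)).1 h0
    ext x
    simp only [Set.mem_ofPred_eq]
    constructor
    · intro hx
      by_contra hlt
      exact h3 x (by omega) hx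
    · intro hx
      exact (key x 3 (Or.inl ⟨hx, by decide⟩)).2 (h3 3 (by decide))
  · right
    have h3 : ∀ y : Fin 6, 3 ≤ y.1 → y ∈ S := fun y hy => by
      by_contra hyS
      exact h0 ((key 0 y (Or.inl ⟨by simp, hy⟩)).2 hyS)
    ext x
    simp only [Set.mem_ofPred_eq]
    constructor
    · intro hx
      by_contra hlt
      exact (key x 3 (Or.inl ⟨by omega, by decide⟩)).1 hx (h3 3 (by decide))
    · intro hx
      exact h3 x hx

lemma QQ_irr : ∀ A B : Cls, Her A → Her B → A 1 ⊥ → B 1 ⊥ →
    ¬ ∀ (n : ℕ) (G : SimpleGraph (Fin n)), (QQ n G ↔ Prd A B n G) := by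
  classical
  intro A B hA hB hA1 hB1 h
  have hAB : ∀ n (G : SimpleGraph (Fin n)), Prd A B n G → QQ n G := fun n G => (h n G).2
  have hBA : ∀ n (G : SimpleGraph (Fin n)), Prd B A n G → QQ n G :=
    fun n G hG => (h n G).2 (prd_comm hG)
  -- the graph `K_{3,3}`
  have hQ : QQ 6 K33 := by
    left
    refine ⟨fun x => decide (x.1 < 3), fun a b hab => ?_⟩
    simp only [K33] at hab
    rcases hab with ⟨h1, h2⟩ | ⟨h1, h2⟩
    · simp [h1, h2]
    · simp [h1, h2]
  obtain ⟨S, ⟨r, K, hK, ⟨e⟩⟩, ⟨s, L, hL, ⟨e'⟩⟩⟩ := (h 6 K33).1 hQ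
  have hS' : Sᶜ.Nonempty := by
    by_contra hcon
    rw [Set.not_nonempty_iff_eq_empty] at hcon
    exact not_empty_aux hA hB hB1 hAB S hK e hcon
  have hS : S.Nonempty := by
    by_contra hcon
    rw [Set.not_nonempty_iff_eq_empty] at hcon
    exact not_empty_aux hB hA hA1 hBA Sᶜ hL e' (by rw [compl_compl]; exact hcon)
  -- the join of the two parts
  let J : SimpleGraph (Fin 6) :=
    { Adj := fun a b => K33.Adj a b ∨ (a ∈ S ∧ b ∉ S) ∨ (a ∉ S ∧ b ∈ S)
      symm := ⟨fun a b h => by
        rcases h with h | h | h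
        · exact Or.inl h.symm
        · exact Or.inr (Or.inr ⟨h.2, h.1⟩)
        · exact Or.inr (Or.inl ⟨h.2, h.1⟩)⟩
      loopless := ⟨fun a h => by
        rcases h with h | h | h
        · exact K33.loopless.irrefl _ h
        · exact h.2 h.1
        · exact h.1 h.2⟩ }
  have hr0 : 0 < r := by
    obtain ⟨x, hx⟩ := hS
    exact lt_of_le_of_lt (Nat.zero_le _) (e ⟨x, hx⟩).2
  have hs0 : 0 < s := by
    obtain ⟨x, hx⟩ := hS'
    exact lt_of_le_of_lt (Nat.zero_le _) (e' ⟨x, hx⟩).2
  have hJ : Prd A B 6 J := by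
    refine ⟨S, ?_, ?_⟩
    · refine mem_ind hA hK _ _ (fun x => if hx : x ∈ S then e ⟨x, hx⟩ else ⟨0, hr0⟩) ?_ ?_
      · intro a ha b hb hab
        simp only [ha, hb, dif_pos] at hab
        exact congrArg Subtype.val (e.injective hab)
      · intro a ha b hb hab
        simp only [ha, hb, dif_pos]
        rw [e.map_adj_iff]
        show K33.Adj a b
        rcases hab with h | h | h
        · exact h
        · exact absurd hb h.2
        · exact absurd ha h.1
    · refine mem_ind hB hL _ _ (fun x => if hx : x ∈ Sᶜ then e' ⟨x, hx⟩ else ⟨0, hs0⟩) ?_ ?_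
      · intro a ha b hb hab
        simp only [ha, hb, dif_pos] at hab
        exact congrArg Subtype.val (e'.injective hab)
      · intro a ha b hb hab
        simp only [ha, hb, dif_pos]
        rw [e'.map_adj_iff]
        show K33.Adj a b
        rcases hab with h | h | h
        · exact h
        · exact absurd h.1 ha
        · exact absurd h.2 hb
  have hboth : (∀ a ∈ S, ∀ b ∈ S, ¬ K33.Adj a b) ∧ (∀ a ∈ Sᶜ, ∀ b ∈ Sᶜ, ¬ K33.Adj a b) := by
    rcases hAB 6 J hJ with ⟨c, hc⟩ | h6
    · obtain ⟨x, hx⟩ := hS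
      obtain ⟨y, hy⟩ := hS'
      have h1 : ∀ a ∈ S, c a = !(c y) := by
        intro a ha
        have := hc a y (Or.inr (Or.inl ⟨ha, hy⟩))
        revert this
        generalize c a = u
        generalize c y = v
        revert u v
        decide
      have h2 : ∀ a ∈ Sᶜ, c a = !(c x) := by
        intro a ha
        have := hc a x (Or.inr (Or.inr ⟨ha, hx⟩))
        revert this
        generalize c a = u
        generalize c x = v
        revert u v
        decide
      constructor
      · intro a ha b hb hab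
        exact hc a b (Or.inl hab) (by rw [h1 a ha, h1 b hb])
      · intro a ha b hb hab
        exact hc a b (Or.inl hab) (by rw [h2 a ha, h2 b hb])
    · omega
  have hS3 := split33 S hboth.1 hboth.2
  have hcard : ∀ T : Set (Fin 6), (T = {x | x.1 < 3} ∨ T = {x | 3 ≤ x.1}) →
      Fintype.card T = 3 := by
    intro T hT
    rcases hT with h | h
    · rw [← Set.toFinset_card, Set.toFinset_congr h]
      rfl
    · rw [← Set.toFinset_card, Set.toFinset_congr h]
      rfl
  have hr3 : r = 3 := by
    have h1 := Fintype.card_congr e.toEquiv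
    rw [hcard S hS3, Fintype.card_fin] at h1
    exact h1.symm
  have hs3 : s = 3 := by
    have h1 := card_split e e'
    omega
  -- the graph `K_4`
  obtain ⟨T, ⟨r', K', hK', ⟨f⟩⟩, ⟨s', L', hL', ⟨f'⟩⟩⟩ := (h 4 ⊤).1 (Or.inr le_rfl)
  have h4 := card_split f f'
  by_cases hr' : 2 ≤ r'
  · exact QQ_irr_aux hA hB hAB hK' f hr' hL (by omega)
  · exact QQ_irr_aux hB hA hBA hL' f' (by omega) hK (by omega)

/-- `G[S]` is isomorphic to a member of the class `PP` iff it is edgeless or has at most two
vertices. -/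
lemma ind_PP {n : ℕ} (G : SimpleGraph (Fin n)) (S : Set (Fin n)) :
    (∃ (r : ℕ) (K : SimpleGraph (Fin r)), PP r K ∧ Nonempty (G.induce S ≃g K)) ↔
      (∀ a ∈ S, ∀ b ∈ S, ¬ G.Adj a b) ∨ Nat.card S ≤ 2 := by
  classical
  constructor
  · rintro ⟨r, K, hK, ⟨e⟩⟩
    rcases hK with h | h
    · left
      intro a ha b hb hab
      exact h (e ⟨a, ha⟩) (e ⟨b, hb⟩) (e.map_adj_iff.2 hab)
    · right
      rw [Nat.card_congr e.toEquiv, Nat.card_fin]
      exact h
  · intro h
    let e := SimpleGraph.overFinIso (G.induce S) (n := Fintype.card S) rfl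
    refine ⟨Fintype.card S, (G.induce S).overFin rfl, ?_, ⟨e⟩⟩
    rcases h with h | h
    · left
      intro a b hab
      have h1 := e.symm.map_adj_iff.2 hab
      exact h _ (e.symm a).2 _ (e.symm b).2 h1
    · right
      rwa [Nat.card_eq_fintype_card] at h

lemma ind_QQ {n : ℕ} (G : SimpleGraph (Fin n)) (S : Set (Fin n)) :
    (∃ (r : ℕ) (K : SimpleGraph (Fin r)), QQ r K ∧ Nonempty (G.induce S ≃g K)) ↔
      (∃ c : Fin n → Bool, ∀ a ∈ S, ∀ b ∈ S, G.Adj a b → c a ≠ c b) ∨ Nat.card S ≤ 4 := by
  classical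
  constructor
  · rintro ⟨r, K, hK, ⟨e⟩⟩
    rcases hK with ⟨c, h⟩ | h
    · left
      refine ⟨fun x => if hx : x ∈ S then c (e ⟨x, hx⟩) else true, fun a ha b hb hab => ?_⟩
      simp only [ha, hb, dif_pos]
      exact h _ _ (e.map_adj_iff.2 hab)
    · right
      rw [Nat.card_congr e.toEquiv, Nat.card_fin]
      exact h
  · intro h
    let e := SimpleGraph.overFinIso (G.induce S) (n := Fintype.card S) rfl
    refine ⟨Fintype.card S, (G.induce S).overFin rfl, ?_, ⟨e⟩⟩
    rcases h with ⟨c, h⟩ | h
    · left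
      refine ⟨fun x => c (e.symm x).1, fun a b hab => ?_⟩
      have h1 := e.symm.map_adj_iff.2 hab
      exact h _ (e.symm a).2 _ (e.symm b).2 h1
    · right
      rwa [Nat.card_eq_fintype_card] at h

/-- a set of at most four vertices is a union of two sets of at most two vertices -/
lemma split_four {n : ℕ} (S : Set (Fin n)) (h : Nat.card S ≤ 4) :
    ∃ T ⊆ S, Nat.card T ≤ 2 ∧ Nat.card (S \ T : Set (Fin n)) ≤ 2 := by
  classical
  have hS : S = (S.toFinset : Set (Fin n)) := by simp
  have hc : S.toFinset.card ≤ 4 := by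
    rw [Nat.card_eq_fintype_card] at h
    rwa [Set.toFinset_card]
  obtain ⟨T, hT, hTc⟩ := Finset.exists_subset_card_eq
    (show min 2 S.toFinset.card ≤ S.toFinset.card by exact min_le_right _ _)
  refine ⟨(T : Set (Fin n)), ?_, ?_, ?_⟩
  · rw [hS]
    exact_mod_cast hT
  · rw [Nat.card_coe_set_eq, Set.ncard_coe_finset]
    omega
  · rw [hS, ← Finset.coe_sdiff, Nat.card_coe_set_eq, Set.ncard_coe_finset,
      Finset.card_sdiff_of_subset hT]
    omega

lemma card_union_le4 {n : ℕ} (S T : Set (Fin n)) (hS : Nat.card S ≤ 2) (hT : Nat.card T ≤ 2) :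
    Nat.card (S ∪ T : Set (Fin n)) ≤ 4 := by
  rw [Nat.card_coe_set_eq] at *
  have := Set.ncard_union_le S T
  omega

lemma products (n : ℕ) (G : SimpleGraph (Fin n)) :
    (∃ c : Fin n → Fin 3, ∀ i : Fin 3, ∃ (r : ℕ) (K : SimpleGraph (Fin r)),
        PP r K ∧ Nonempty (G.induce {v | c v = i} ≃g K)) ↔
    (∃ c : Fin n → Fin 2, ∀ j : Fin 2, ∃ (r : ℕ) (K : SimpleGraph (Fin r)),
        (if j = 0 then PP else QQ) r K ∧ Nonempty (G.induce {v | c v = j} ≃g K)) := by
  classical
  simp only [ind_PP]
  have hR : ∀ c : Fin n → Fin 2, (∀ j : Fin 2, ∃ (r : ℕ) (K : SimpleGraph (Fin r)),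
        (if j = 0 then PP else QQ) r K ∧ Nonempty (G.induce {v | c v = j} ≃g K)) ↔
      ((∀ a ∈ {v | c v = 0}, ∀ b ∈ {v | c v = 0}, ¬ G.Adj a b) ∨ Nat.card {v | c v = 0} ≤ 2) ∧
      ((∃ c' : Fin n → Bool, ∀ a ∈ {v | c v = 1}, ∀ b ∈ {v | c v = 1}, G.Adj a b → c' a ≠ c' b) ∨
        Nat.card {v | c v = 1} ≤ 4) := by
    intro c
    rw [Fin.forall_fin_two, ← ind_PP, ← ind_QQ]
    simp
  simp only [hR]
  constructor
  · rintro ⟨c, hc⟩
    -- choose the part which stays alone
    have main : ∀ i j k : Fin 3, (∀ x : Fin 3, x = i ∨ x = j ∨ x = k) → i ≠ j → i ≠ k → j ≠ k →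
        (((∀ a ∈ {v | c v = j}, ∀ b ∈ {v | c v = j}, ¬ G.Adj a b) ∧
          (∀ a ∈ {v | c v = k}, ∀ b ∈ {v | c v = k}, ¬ G.Adj a b)) ∨
          (Nat.card {v | c v = j} ≤ 2 ∧ Nat.card {v | c v = k} ≤ 2)) →
        ∃ c : Fin n → Fin 2,
          ((∀ a ∈ {v | c v = 0}, ∀ b ∈ {v | c v = 0}, ¬ G.Adj a b) ∨ Nat.card {v | c v = 0} ≤ 2) ∧
          ((∃ c' : Fin n → Bool, ∀ a ∈ {v | c v = 1}, ∀ b ∈ {v | c v = 1},
            G.Adj a b → c' a ≠ c' b) ∨ Nat.card {v | c v = 1} ≤ 4) := by
      intro i j k hall hij hik hjk hcase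
      have e0 : {v | (if c v = i then (0 : Fin 2) else 1) = 0} = {v | c v = i} := by
        ext v
        simp only [Set.mem_ofPred_eq]
        split_ifs with h
        · simp [h]
        · simp [h]
      have e1 : {v | (if c v = i then (0 : Fin 2) else 1) = 1} = {v | c v = j} ∪ {v | c v = k} := by
        ext v
        simp only [Set.mem_ofPred_eq, Set.mem_union]
        split_ifs with h
        · simp [h, hij, hik]
        · rcases hall (c v) with h' | h' | h'
          · exact absurd h' h
          · simp [h']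
          · simp [h']
      refine ⟨fun v => if c v = i then 0 else 1, ?_, ?_⟩
      · rw [e0]
        exact hc i
      · rw [e1]
        rcases hcase with ⟨h1, h2⟩ | ⟨h1, h2⟩
        · left
          refine ⟨fun v => decide (c v = j), fun a ha b hb hab => ?_⟩
          rcases ha with ha | ha <;> rcases hb with hb | hb
          · exact absurd hab (h1 a ha b hb)
          · simp only [Set.mem_ofPred_eq] at ha hb
            simp [ha, hb, hjk.symm]
          · simp only [Set.mem_ofPred_eq] at ha hb
            simp [ha, hb, hjk.symm]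
          · exact absurd hab (h2 a ha b hb)
        · right
          exact card_union_le4 _ _ h1 h2
    rcases hc 0 with h0 | h0 <;> rcases hc 1 with h1 | h1 <;> rcases hc 2 with h2 | h2
    · exact main 0 1 2 (by decide) (by decide) (by decide) (by decide) (Or.inl ⟨h1, h2⟩)
    · exact main 2 0 1 (by decide) (by decide) (by decide) (by decide) (Or.inl ⟨h0, h1⟩)
    · exact main 1 0 2 (by decide) (by decide) (by decide) (by decide) (Or.inl ⟨h0, h2⟩)
    · exact main 0 1 2 (by decide) (by decide) (by decide) (by decide) (Or.inr ⟨h1, h2⟩)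
    · exact main 0 1 2 (by decide) (by decide) (by decide) (by decide) (Or.inl ⟨h1, h2⟩)
    · exact main 1 0 2 (by decide) (by decide) (by decide) (by decide) (Or.inr ⟨h0, h2⟩)
    · exact main 2 0 1 (by decide) (by decide) (by decide) (by decide) (Or.inr ⟨h0, h1⟩)
    · exact main 0 1 2 (by decide) (by decide) (by decide) (by decide) (Or.inr ⟨h1, h2⟩)
  · rintro ⟨c, hc0, hc1⟩
    have hne : ∀ v, c v ≠ 0 → c v = 1 := by
      intro v
      generalize c v = x
      revert x
      decide
    rcases hc1 with ⟨c', hc'⟩ | h4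
    · refine ⟨fun v => if c v = 0 then 0 else if c' v then 1 else 2, fun i => ?_⟩
      by_cases hi : i = 0
      · have e0 : {v | (if c v = 0 then (0 : Fin 3) else if c' v then 1 else 2) = i} =
            {v | c v = 0} := by
          ext v
          simp only [Set.mem_ofPred_eq, hi]
          split_ifs with h h' <;> simp [h]
        rw [e0]
        exact hc0
      · left
        intro a ha b hb hab
        simp only [Set.mem_ofPred_eq] at ha hb
        by_cases ha0 : c a = 0
        · rw [if_pos ha0] at ha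
          exact hi ha.symm
        by_cases hb0 : c b = 0
        · rw [if_pos hb0] at hb
          exact hi hb.symm
        rw [if_neg ha0] at ha
        rw [if_neg hb0, ← ha] at hb
        apply hc' a (hne a ha0) b (hne b hb0) hab
        revert hb
        generalize c' a = x
        generalize c' b = y
        revert x y
        decide
    · obtain ⟨T, hT, hT1, hT2⟩ := split_four _ h4
      refine ⟨fun v => if c v = 0 then 0 else if v ∈ T then 1 else 2, fun i => ?_⟩
      have hi : i = 0 ∨ i = 1 ∨ i = 2 := by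
        revert i
        decide
      rcases hi with hi | hi | hi
      · have e0 : {v | (if c v = 0 then (0 : Fin 3) else if v ∈ T then 1 else 2) = i} =
            {v | c v = 0} := by
          ext v
          simp only [Set.mem_ofPred_eq, hi]
          split_ifs with h h' <;> simp [h]
        rw [e0]
        exact hc0
      · right
        have e0 : {v | (if c v = 0 then (0 : Fin 3) else if v ∈ T then 1 else 2) = i} = T := by
          ext v
          simp only [Set.mem_ofPred_eq, hi]
          split_ifs with h h'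
          · simp only [Fin.isValue, zero_ne_one, false_iff]
            intro hv
            have := hT hv
            simp only [Set.mem_ofPred_eq] at this
            rw [h] at this
            exact absurd this (by decide)
          · simp [h']
          · simp [h']
        rw [e0]
        exact hT1
      · right
        have e0 : {v | (if c v = 0 then (0 : Fin 3) else if v ∈ T then 1 else 2) = i} =
            {v | c v = 1} \ T := by
          ext v
          simp only [Set.mem_ofPred_eq, hi, Set.mem_sdiff]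
          split_ifs with h h'
          · simp [h]
          · simp [h']
          · simp [h', hne v h]
        rw [e0]
        exact hT2

/-- The negation of the preceding statement: Among subgraph-closed classes of finite graphs, with product = vertex partition into parts in the factors, any two factorizations of a class into irreducible factors (contain K1, not a product of two such classes) agree up to reordering. -/
theorem result :
    ¬ (∀ (m k : ℕ) (Ps : Fin m → (n : ℕ) → SimpleGraph (Fin n) → Prop)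
      (Qs : Fin k → (n : ℕ) → SimpleGraph (Fin n) → Prop),
      (∀ i : Fin m,
        (∀ (a b : ℕ) (G : SimpleGraph (Fin a)) (H : SimpleGraph (Fin b)) (f : H →g G),
          Function.Injective f → Ps i a G → Ps i b H) ∧
        Ps i 1 ⊥ ∧
        ∀ A B : (n : ℕ) → SimpleGraph (Fin n) → Prop,
          (∀ (a b : ℕ) (G : SimpleGraph (Fin a)) (H : SimpleGraph (Fin b)) (f : H →g G),
            Function.Injective f → A a G → A b H) →
          (∀ (a b : ℕ) (G : SimpleGraph (Fin a)) (H : SimpleGraph (Fin b)) (f : H →g G),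
            Function.Injective f → B a G → B b H) →
          A 1 ⊥ → B 1 ⊥ →
          ¬ ∀ (n : ℕ) (G : SimpleGraph (Fin n)),
            (Ps i n G ↔ ∃ S : Set (Fin n),
              (∃ (r : ℕ) (K : SimpleGraph (Fin r)), A r K ∧ Nonempty (G.induce S ≃g K)) ∧
              (∃ (r : ℕ) (K : SimpleGraph (Fin r)), B r K ∧ Nonempty (G.induce Sᶜ ≃g K)))) →
      (∀ j : Fin k,
        (∀ (a b : ℕ) (G : SimpleGraph (Fin a)) (H : SimpleGraph (Fin b)) (f : H →g G),
          Function.Injective f → Qs j a G → Qs j b H) ∧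
        Qs j 1 ⊥ ∧
        ∀ A B : (n : ℕ) → SimpleGraph (Fin n) → Prop,
          (∀ (a b : ℕ) (G : SimpleGraph (Fin a)) (H : SimpleGraph (Fin b)) (f : H →g G),
            Function.Injective f → A a G → A b H) →
          (∀ (a b : ℕ) (G : SimpleGraph (Fin a)) (H : SimpleGraph (Fin b)) (f : H →g G),
            Function.Injective f → B a G → B b H) →
          A 1 ⊥ → B 1 ⊥ →
          ¬ ∀ (n : ℕ) (G : SimpleGraph (Fin n)),
            (Qs j n G ↔ ∃ S : Set (Fin n),
              (∃ (r : ℕ) (K : SimpleGraph (Fin r)), A r K ∧ Nonempty (G.induce S ≃g K)) ∧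
              (∃ (r : ℕ) (K : SimpleGraph (Fin r)), B r K ∧ Nonempty (G.induce Sᶜ ≃g K)))) →
      (∀ (n : ℕ) (G : SimpleGraph (Fin n)),
        (∃ c : Fin n → Fin m, ∀ i : Fin m, ∃ (r : ℕ) (K : SimpleGraph (Fin r)),
            Ps i r K ∧ Nonempty (G.induce {v | c v = i} ≃g K)) ↔
        (∃ c : Fin n → Fin k, ∀ j : Fin k, ∃ (r : ℕ) (K : SimpleGraph (Fin r)),
            Qs j r K ∧ Nonempty (G.induce {v | c v = j} ≃g K))) →
      ∃ σ : Fin m ≃ Fin k, ∀ (i : Fin m) (n : ℕ) (G : SimpleGraph (Fin n)),
        (Ps i n G ↔ Qs (σ i) n G)) := by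
  intro hmain
  let Ps : Fin 3 → (n : ℕ) → SimpleGraph (Fin n) → Prop := fun _ => PP
  let Qs : Fin 2 → (n : ℕ) → SimpleGraph (Fin n) → Prop := fun j => if j = 0 then PP else QQ
  have h1 := hmain 3 2 Ps Qs (fun i => ⟨PP_her, Or.inr (by norm_num), PP_irr⟩) (fun j => ?_) products
  · obtain ⟨σ, -⟩ := h1
    have := Fintype.card_congr σ
    simp at this
  · by_cases hj : j = 0
    · simp only [Qs, hj, if_true]
      exact ⟨PP_her, Or.inr (by norm_num), PP_irr⟩
    · simp only [Qs, hj, if_false]
      exact ⟨QQ_her, Or.inr (by norm_num), QQ_irr⟩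

end Pool.Agent.S11608
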