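import Pool.Statements.S11612
import Pool.Agent.H430R3.Helly

set_option autoImplicit false
open Pool Pool.MP_d20af1_co

namespace Pool.Agent.S11612

open SimpleGraph

/-- adjacency of the graph: `0, …, 4` form a 5-cycle and `5 + m` is joined to `m - 1` and `m + 1`
(mod 5), i.e. the complete graph `K_5` with the five edges `{m-1, m+1}` subdivided once. -/
def adjB (x y : Fin 10) : Bool :=
  (decide (x.val < 5) && decide (y.val < 5) &&
    (decide ((x.val + 1) % 5 = y.val) || decide ((y.val + 1) % 5 = x.val))) ||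
  (decide (x.val < 5) && decide (5 ≤ y.val) &&
    (decide ((y.val + 1) % 5 = x.val) || decide ((y.val + 4) % 5 = x.val))) ||
  (decide (y.val < 5) && decide (5 ≤ x.val) &&
    (decide ((x.val + 1) % 5 = y.val) || decide ((x.val + 4) % 5 = y.val)))

/-- the graph -/
def H : SimpleGraph (Fin 10) where
  Adj x y := adjB x y = true
  symm := ⟨by decide⟩
  loopless := ⟨by decide⟩

instance : DecidableRel H.Adj := fun x y => inferInstanceAs (Decidable (adjB x y = true))

/-- the bags of the first decomposition: the 5-cycle and the closed neighbourhoods of `5, …, 9` -/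
def B1 (i : Fin 6) : Finset (Fin 10) :=
  if i = 0 then {0, 1, 2, 3, 4}
  else if i = 1 then {5, 4, 1}
  else if i = 2 then {6, 0, 2}
  else if i = 3 then {7, 1, 3}
  else if i = 4 then {8, 2, 4}
  else {9, 3, 0}

/-- the bags of the second decomposition -/
def B2 (i : Fin 5) : Finset (Fin 10) :=
  if i = 0 then {1, 2, 3, 4, 6, 9}
  else if i = 1 then {0, 1, 4, 6, 9}
  else if i = 2 then {7, 1, 3}
  else if i = 3 then {8, 2, 4}
  else {5, 4, 1}

/-- a proper 2-colouring of every bag of the second decomposition -/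
def col (i : Fin 5) (x : Fin 10) : Fin 2 :=
  if i = 0 then (if x = 1 ∨ x = 3 ∨ x = 6 then 0 else 1)
  else if i = 1 then (if x = 0 then 0 else 1)
  else (if x.val < 5 then 0 else 1)

lemma star_conn {n : ℕ} (r : Fin n) (A : Set (Fin n)) (h : r ∈ A ∨ ∃ j, A = {j}) :
    ((starGraph r).induce A).Connected := by
  rcases h with h | ⟨j, rfl⟩
  · have h1 : ((starGraph r).induce A).IsUniversal ⟨r, h⟩ := by
      intro y hy
      have : r ≠ y.1 := fun h => hy (Subtype.ext h)
      simp [this]
    exact .of_isUniversal h1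
  · have : Nonempty ({j} : Set (Fin n)) := ⟨⟨j, rfl⟩⟩
    refine SimpleGraph.Connected.mk ?_
    rintro ⟨a, rfl⟩ ⟨b, rfl⟩
    exact SimpleGraph.Reachable.refl _

lemma dec1 : ∀ v : Fin 10, (0 : Fin 6) ∈ ({i | v ∈ B1 i} : Finset (Fin 6)) ∨
    ∃ j, ({i | v ∈ B1 i} : Finset (Fin 6)) = {j} := by decide

lemma dec2 : ∀ v : Fin 10, (0 : Fin 5) ∈ ({i | v ∈ B2 i} : Finset (Fin 5)) ∨
    ∃ j, ({i | v ∈ B2 i} : Finset (Fin 5)) = {j} := by decide

lemma edges1 : ∀ u v : Fin 10, H.Adj u v → ∃ i, u ∈ B1 i ∧ v ∈ B1 i := by decide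

lemma edges2 : ∀ u v : Fin 10, H.Adj u v → ∃ i, u ∈ B2 i ∧ v ∈ B2 i := by decide

lemma three1 : ∀ i : Fin 6, ∀ x y z : Fin 10, x ∈ B1 i → y ∈ B1 i → z ∈ B1 i →
    x ≠ y → x ≠ z → y ≠ z → H.Adj x y ∨ H.Adj x z ∨ H.Adj y z := by decide

lemma col2 : ∀ i : Fin 5, ∀ x y : Fin 10, x ∈ B2 i → y ∈ B2 i → H.Adj x y →
    col i x ≠ col i y := by decide

/-- the branch set of `i` in a `K_5`-minor of the graph -/
def pa (i : Fin 5) : Fin 10 := ⟨i.val, by omega⟩
/-- the second vertex of the branch set of `i` -/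
def pb (i : Fin 5) : Fin 10 := ⟨5 + (i.val + 1) % 5, by omega⟩

lemma pab : ∀ i, H.Adj (pa i) (pb i) := by decide

lemma touch : ∀ i j : Fin 5, i ≠ j → H.Adj (pa i) (pa j) ∨ H.Adj (pa i) (pb j) ∨
    H.Adj (pb i) (pa j) := by decide

lemma disj : ∀ i j : Fin 5, i ≠ j → pa i ≠ pa j ∧ pa i ≠ pb j ∧ pb i ≠ pa j ∧ pb i ≠ pb j := by
  decide

/-- The graph has no tree decomposition with all bags of size at most four. -/
lemma no_small (n : ℕ) (T : SimpleGraph (Fin n)) (B : Fin n → Finset (Fin 10)) (hT : T.IsTree)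
    (he : ∀ u v, H.Adj u v → ∃ i, u ∈ B i ∧ v ∈ B i)
    (hc : ∀ v, (T.induce {i : Fin n | v ∈ B i}).Connected) (hs : ∀ i, (B i).card ≤ 4) : False := by
  obtain ⟨t, ht⟩ := Pool.Agent.H430R3.helly hT
    (fun i : Fin 5 => {t | pa i ∈ B t} ∪ {t | pb i ∈ B t})
    (fun i => by
      obtain ⟨j, h1, h2⟩ := he _ _ (pab i)
      exact induce_union_connected (hc _).preconnected (hc _).preconnected ⟨j, h1, h2⟩)
    (fun i j => by
      by_cases hij : i = j
      · subst hij
        obtain ⟨k, h1, _⟩ := he _ _ (pab i)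
        exact ⟨k, Or.inl h1, Or.inl h1⟩
      · rcases touch i j hij with h | h | h
        · obtain ⟨k, h1, h2⟩ := he _ _ h
          exact ⟨k, Or.inl h1, Or.inl h2⟩
        · obtain ⟨k, h1, h2⟩ := he _ _ h
          exact ⟨k, Or.inl h1, Or.inr h2⟩
        · obtain ⟨k, h1, h2⟩ := he _ _ h
          exact ⟨k, Or.inr h1, Or.inl h2⟩)
  have hf : ∀ i : Fin 5, ∃ x ∈ B t, x = pa i ∨ x = pb i := by
    intro i
    rcases ht i with h | h
    · exact ⟨_, h, Or.inl rfl⟩
    · exact ⟨_, h, Or.inr rfl⟩
  choose f hf1 hf2 using hf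
  have hinj : Function.Injective f := by
    intro i j hij
    by_contra hne
    obtain ⟨h1, h2, h3, h4⟩ := disj i j hne
    rcases hf2 i with h | h <;> rcases hf2 j with h' | h' <;> rw [h, h'] at hij
    · exact h1 hij
    · exact h2 hij
    · exact h3 hij
    · exact h4 hij
  have h5 : (Finset.univ.image f).card = 5 := by
    rw [Finset.card_image_of_injective _ hinj]
    simp
  have h6 : (Finset.univ.image f) ⊆ B t := by
    intro x hx
    obtain ⟨i, _, rfl⟩ := Finset.mem_image.1 hx
    exact hf1 i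
  have := Finset.card_le_card h6
  have := hs t
  omega

/-- The negation of the preceding statement: For every finite graph G and all a, k: if G has a tree decomposition whose bags all have independence number at most a, and one whose bags all induce k-colorable subgraphs, then G has a tree decomposition with all bags of size at most a·k. -/
theorem result :
    ¬ (∀ (V : Type) [Fintype V] (G : SimpleGraph V) (a k : ℕ),
      (∃ (n : ℕ) (T : SimpleGraph (Fin n)) (B : Fin n → Finset V),
        T.IsTree ∧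
        (∀ u v : V, G.Adj u v → ∃ i, u ∈ B i ∧ v ∈ B i) ∧
        (∀ v : V, (T.induce {i : Fin n | v ∈ B i}).Connected) ∧
        (∀ i : Fin n, ∀ S : Finset V, S ⊆ B i → G.IsIndepSet (S : Set V) → S.card ≤ a)) →
      (∃ (n : ℕ) (T : SimpleGraph (Fin n)) (B : Fin n → Finset V),
        T.IsTree ∧
        (∀ u v : V, G.Adj u v → ∃ i, u ∈ B i ∧ v ∈ B i) ∧
        (∀ v : V, (T.induce {i : Fin n | v ∈ B i}).Connected) ∧
        (∀ i : Fin n, (G.induce (B i : Set V)).Colorable k)) →
      (∃ (n : ℕ) (T : SimpleGraph (Fin n)) (B : Fin n → Finset V),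
        T.IsTree ∧
        (∀ u v : V, G.Adj u v → ∃ i, u ∈ B i ∧ v ∈ B i) ∧
        (∀ v : V, (T.induce {i : Fin n | v ∈ B i}).Connected) ∧
        (∀ i : Fin n, (B i).card ≤ a * k))) := by
  intro hall
  obtain ⟨n, T, B, hT, he, hc, hs⟩ := hall (Fin 10) H 2 2
    ⟨6, starGraph 0, B1, isTree_starGraph 0, edges1, fun v => star_conn 0 _ (by
        rcases dec1 v with h | ⟨j, h⟩
        · left
          simpa using h
        · right
          refine ⟨j, ?_⟩
          ext i
          have := Finset.ext_iff.1 h i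
          simpa using this), by
        intro i S hS hind
        by_contra hcard
        push Not at hcard
        obtain ⟨x, hx, y, hy, z, hz, hxy, hxz, hyz⟩ := Finset.two_lt_card.1 hcard
        rcases three1 i x y z (hS hx) (hS hy) (hS hz) hxy hxz hyz with h | h | h
        · exact hind hx hy hxy h
        · exact hind hx hz hxz h
        · exact hind hy hz hyz h⟩
    ⟨5, starGraph 0, B2, isTree_starGraph 0, edges2, fun v => star_conn 0 _ (by
        rcases dec2 v with h | ⟨j, h⟩
        · left
          simpa using h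
        · right
          refine ⟨j, ?_⟩
          ext i
          have := Finset.ext_iff.1 h i
          simpa using this), by
        intro i
        refine ⟨SimpleGraph.Coloring.mk (fun x => col i x.1) ?_⟩
        intro x y hxy
        exact col2 i x.1 y.1 x.2 y.2 hxy⟩
  exact no_small n T B hT he hc hs

end Pool.Agent.S11612
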