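import Pool.Statements.S11655
import Pool.Agent.U358.CHG.Final

set_option autoImplicit false
open Filter
open Pool Pool.MP_d33b86_co

namespace Pool.Agent.S11655

/-- For all integers g ≥ h ≥ 2 there is an infinite set A of positive integers containing no g distinct translates of any h-element set, such that for every ε>0, eventually ∣A ∩ [1,n]∣ ≥ n^(α(g,h)−ε). -/
theorem result :
    ∀ g h : ℕ, 2 ≤ h → h ≤ g →
      ∃ A : Set ℤ,
        A ⊆ {n : ℤ | 1 ≤ n} ∧ A.Infinite ∧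
        (∀ X : Finset ℤ, X.card = h → ∀ k : Fin g → ℤ, Function.Injective k →
          ¬ (∀ i : Fin g, ∀ x ∈ X, x + k i ∈ A)) ∧
        ∀ ε : ℝ, 0 < ε →
          ∀ᶠ n : ℕ in atTop,
            (n : ℝ) ^ ((1 - 1 / (h : ℝ)) * (1 - 1 / (g : ℝ)) *
                (1 + 1 / ((h : ℝ) * (g : ℝ) - 1)) - ε)
              ≤ ((A ∩ Set.Icc (1 : ℤ) (n : ℤ)).ncard : ℝ) := by
  intro g h hh hg
  obtain ⟨a, rfl⟩ : ∃ a, h = a + 1 := ⟨h - 1, by omega⟩
  obtain ⟨c, rfl⟩ : ∃ c, g = c + 1 := ⟨g - 1, by omega⟩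
  have ha : 1 ≤ a := by omega
  have hc : 1 ≤ c := by omega
  obtain ⟨A, h1, h2, h3, h4⟩ := Pool.Agent.U358.CHG.main a c ha hc
  refine ⟨A, h1, h2, h3, ?_⟩
  intro ε hε
  have hexp : (1 - 1 / ((a + 1 : ℕ) : ℝ)) * (1 - 1 / ((c + 1 : ℕ) : ℝ)) *
      (1 + 1 / (((a + 1 : ℕ) : ℝ) * ((c + 1 : ℕ) : ℝ) - 1)) =
      ((a : ℝ) * c) / ((Pool.Agent.U358.CHG.DD a c : ℕ) : ℝ) := by
    have har : (1 : ℝ) ≤ a := by exact_mod_cast ha
    have hcr : (1 : ℝ) ≤ c := by exact_mod_cast hc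
    unfold Pool.Agent.U358.CHG.DD
    push_cast
    have e1 : ((a : ℝ) + 1) ≠ 0 := by positivity
    have e2 : ((c : ℝ) + 1) ≠ 0 := by positivity
    have e3 : ((a : ℝ) + 1) * ((c : ℝ) + 1) - 1 = a * c + a + c := by ring
    have e4 : ((a : ℝ) * c + a + c) ≠ 0 := by positivity
    rw [e3]
    field_simp
    ring
  rw [hexp]
  exact h4 ε hε

end Pool.Agent.S11655
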