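import Pool.Statements.S11698
import Pool.Agent.U684.RdQ.Final

set_option autoImplicit false
open Pool Pool.MP_d5cc4e_co

namespace Pool.Agent.S11698

/-- The negation of the preceding statement: There is a colouring of the rationals with two colours such that for every infinite set X of rationals, the sums x+y with x, y in X (x = y allowed) do not all receive the same colour. -/
theorem result :
    ¬ (∃ c : ℚ → Fin 2, ∀ X : Set ℚ, X.Infinite →
      ¬ ∃ i : Fin 2, ∀ x ∈ X, ∀ y ∈ X, c (x + y) = i) := by
  rintro ⟨c, hc⟩
  refine Pool.Agent.U684.RdQ.not_bad (fun x => decide (c x = 0)) ?_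
  rintro X hX ⟨i, hi⟩
  apply hc X hX
  refine ⟨if i = true then 0 else 1, ?_⟩
  intro x hx y hy
  have h := hi x hx y hy
  cases i with
  | true =>
    simp only [decide_eq_true_eq] at h
    simpa using h
  | false =>
    simp only [decide_eq_false_iff_not] at h
    simp only [Bool.false_eq_true, if_false]
    omega

end Pool.Agent.S11698
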