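import Pool.Statements.S11707
import Pool.Agent.ULead.ThreeGraph

set_option autoImplicit false
open Classical
open Pool Pool.MP_d61016_co

namespace Pool.Agent.S11707

/-- Every finite three-graph A embeds as an induced substructure in some finite three-graph B such that every partial automorphism of A extends to an automorphism of B. -/
theorem result :
    ∀ (n : ℕ) (rA : Fin n → Fin n → Prop) (HA : Finset (Finset (Fin n))),
      (Equivalence rA ∧ (∀ a b c, rA a b ∨ rA b c ∨ rA a c) ∧
        (∀ e ∈ HA, e.card = 4 ∧ ∀ v ∈ e, (e.filter (fun w => rA v w)).card = 2) ∧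
        (∀ S : Finset (Fin n), S.card = 5 →
          (∀ v ∈ S, (S.filter (fun w => rA v w)).card ≤ 3) →
          Even (HA.filter (fun e => e ⊆ S)).card)) →
      ∃ (m : ℕ) (rB : Fin m → Fin m → Prop) (HB : Finset (Finset (Fin m))),
        (Equivalence rB ∧ (∀ a b c, rB a b ∨ rB b c ∨ rB a c) ∧
          (∀ e ∈ HB, e.card = 4 ∧ ∀ v ∈ e, (e.filter (fun w => rB v w)).card = 2) ∧
          (∀ S : Finset (Fin m), S.card = 5 →
            (∀ v ∈ S, (S.filter (fun w => rB v w)).card ≤ 3) →
            Even (HB.filter (fun e => e ⊆ S)).card)) ∧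
        ∃ f : Fin n ↪ Fin m,
          (∀ x y, rA x y ↔ rB (f x) (f y)) ∧
          (∀ e : Finset (Fin n), e ∈ HA ↔ e.map f ∈ HB) ∧
          ∀ (S : Finset (Fin n)) (p : Fin n → Fin n),
            Set.InjOn p (S : Set (Fin n)) →
            (∀ x ∈ S, ∀ y ∈ S, rA x y ↔ rA (p x) (p y)) →
            (∀ e ⊆ S, e ∈ HA ↔ e.image p ∈ HA) →
            ∃ σ : Fin m ≃ Fin m,
              (∀ x y, rB x y ↔ rB (σ x) (σ y)) ∧
              (∀ e : Finset (Fin m), e ∈ HB ↔ e.map σ.toEmbedding ∈ HB) ∧
              ∀ x ∈ S, σ (f x) = f (p x) := by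
  intro n rA HA hA
  obtain ⟨hrA, htA, hHA, hevA⟩ := hA
  obtain ⟨c, hc⟩ := ULead.TG.exists_class hrA htA
  have hfilt : ∀ (S : Finset (Fin n)) (v : Fin n),
      S.filter (fun w => rA v w) = S.filter (fun w => c w = c v) := by
    intro S v
    apply Finset.filter_congr
    intro w _
    rw [hc v w]; exact eq_comm
  have hAdm : ULead.TG.Adm c HA := by
    intro e he
    refine ⟨(hHA e he).1, fun v hv => ?_⟩
    rw [← hfilt]; exact (hHA e he).2 v hv
  obtain ⟨g, gs, hg⟩ := ULead.TG.exists_fun (c := c) (H := HA) hAdm (by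
    intro S h5 h3
    have := hevA S h5 (fun v hv => by rw [hfilt]; exact h3 v hv)
    convert this)
  -- transport
  let E := Fintype.equivFin (ULead.TG.Ext n)
  let m := Fintype.card (ULead.TG.Ext n)
  let cB : Fin m → Bool := fun x => (E.symm x).1
  let gB : Fin m → Fin m → ZMod 2 := fun x y => ULead.TG.gE (E.symm x) (E.symm y)
  have gBs : ∀ x y, gB x y = gB y x := fun x y => ULead.TG.gE_symm _ _
  let HB : Finset (Finset (Fin m)) := Finset.univ.filter (fun e => ULead.TG.Hyp cB gB e)
  have hHB : ∀ e, e ∈ HB ↔ ULead.TG.Hyp cB gB e := by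
    intro e; simp [HB]
  let f : Fin n ↪ Fin m := (ULead.TG.emb c g).trans E.toEmbedding
  have hfc : ∀ x, cB (f x) = c x := by
    intro x
    simp only [cB, f, Function.Embedding.trans_apply, Equiv.coe_toEmbedding,
      Equiv.symm_apply_apply, ULead.TG.emb_apply]
  have hfg : ∀ x y, c x ≠ c y → gB (f x) (f y) = g x y := by
    intro x y hxy
    simp only [gB, f, Function.Embedding.trans_apply, Equiv.coe_toEmbedding,
      Equiv.symm_apply_apply]
    exact ULead.TG.gE_emb c g gs x y hxy
  refine ⟨m, fun x y => cB x = cB y, HB, ⟨⟨fun _ => rfl, fun h => h.symm, fun h k => h.trans k⟩,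
    ?_, ?_, ?_⟩, f, ?_, ?_, ?_⟩
  · intro x y z
    show cB x = cB y ∨ cB y = cB z ∨ cB x = cB z
    cases cB x <;> cases cB y <;> cases cB z <;> simp
  · intro e he
    obtain ⟨h4, h2⟩ := ULead.TG.adm_hyp ((hHB e).1 he)
    refine ⟨h4, fun v hv => ?_⟩
    rw [← h2 v hv]
    congr 1
    ext w
    simp only [Finset.mem_filter]
    rw [eq_comm (a := cB v)]
  · intro S h5 h3
    have := ULead.TG.even_hyp gBs hHB h5 (fun v hv => by
      refine le_trans (le_of_eq ?_) (h3 v hv)
      congr 1
      ext w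
      simp only [Finset.mem_filter]
      rw [eq_comm (a := cB v)])
    convert this
  · intro x y
    show rA x y ↔ cB (f x) = cB (f y)
    rw [hfc, hfc]; exact hc x y
  · intro e
    rw [hg, hHB]
    exact ULead.TG.transfer f (fun x y => by rw [hfc, hfc]) (fun _ => 0)
      (fun x y hxy => by rw [hfg x y hxy]; ring) e
  · intro S p hp hpc hpe
    have hpc' : ∀ x ∈ S, ∀ y ∈ S, c x = c y ↔ c (p x) = c (p y) := by
      intro x hx y hy
      rw [← hc, ← hc]; exact hpc x hx y hy
    obtain ⟨a, ha⟩ := ULead.TG.exists_switch gs hg S p hp hpc' (fun e he => by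
      have := hpe e he
      convert this)
    obtain ⟨σ, A, h1, h2, h3⟩ := ULead.TG.ext_main c g gs S p hp hpc' a ha
    let τ : Fin m ≃ Fin m := (E.symm.trans σ).trans E
    have hτ : ∀ x, E.symm (τ x) = σ (E.symm x) := by
      intro x; simp [τ]
    refine ⟨τ, ?_, ?_, ?_⟩
    · intro x y
      show (E.symm x).1 = (E.symm y).1 ↔ (E.symm (τ x)).1 = (E.symm (τ y)).1
      rw [hτ, hτ]; exact h1 _ _
    · intro e
      rw [hHB, hHB]
      refine ULead.TG.transfer τ.toEmbedding ?_ (fun x => A (E.symm x)) ?_ e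
      · intro x y
        show (E.symm x).1 = (E.symm y).1 ↔ (E.symm (τ x)).1 = (E.symm (τ y)).1
        rw [hτ, hτ]; exact h1 _ _
      · intro x y hxy
        show ULead.TG.gE (E.symm (τ x)) (E.symm (τ y)) = _
        rw [hτ, hτ]; exact h2 _ _ hxy
    · intro x hx
      show E (σ (E.symm (E (ULead.TG.emb c g x)))) = E (ULead.TG.emb c g (p x))
      rw [Equiv.symm_apply_apply, h3 x hx]

end Pool.Agent.S11707
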