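import Pool.Statements.S11737
import Pool.Agent.N479.ER.Main

set_option autoImplicit false
open Pool Pool.MP_d7e043_co

namespace Pool.Agent.S11737

open Pool.Agent.N479.ER in
lemma dist_sq_eq {n : ℕ} (p q : EuclideanSpace ℝ (Fin n)) :
    dist p q ^ 2 = sq p.ofLp q.ofLp := by
  rw [EuclideanSpace.dist_sq_eq]
  simp [Pool.Agent.N479.ER.sq, Real.dist_eq, sq_abs]

open Pool.Agent.N479.ER in
/-- from a colouring statement over `ι → ℝ` to one over a Euclidean space -/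
lemma transfer {B : Type} {r : ℕ} (D : B → B → ℝ)
    (H : ∃ (ι : Type) (_ : Fintype ι), ∀ c : (ι → ℝ) → Fin r,
      ∃ f : B → ι → ℝ, (∀ a b, sq (f a) (f b) = D a b) ∧ ∀ a b, c (f a) = c (f b)) :
    ∃ N : ℕ, ∀ c : EuclideanSpace ℝ (Fin N) → Fin r,
      ∃ f : B → EuclideanSpace ℝ (Fin N), (∀ a b, dist (f a) (f b) ^ 2 = D a b) ∧
        ∀ a b, c (f a) = c (f b) := by
  obtain ⟨ι, i, H⟩ := H
  let e : ι ≃ Fin (Fintype.card ι) := Fintype.equivFin ι
  refine ⟨Fintype.card ι, fun c => ?_⟩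
  obtain ⟨f, h1, h2⟩ := H (fun v => c (WithLp.toLp 2 (v ∘ e.symm)))
  refine ⟨fun b => WithLp.toLp 2 (f b ∘ e.symm), fun a b => ?_, fun a b => h2 a b⟩
  rw [dist_sq_eq, ← h1 a b]
  exact Equiv.sum_comp e.symm (fun x => (f a x - f b x) ^ 2)

open Pool.Agent.N479.ER in
/-- If a finite set X in R^d is Ramsey (every r-colouring of some R^N has a monochromatic congruent copy), then X, placed in the hyperplane of R^(d+1), together with any point z off that hyperplane is also Ramsey. -/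
theorem result :
    ∀ (d : ℕ) (X : Set (EuclideanSpace ℝ (Fin d))) (z : EuclideanSpace ℝ (Fin (d + 1))),
      X.Finite →
      (∀ r : ℕ, ∃ N : ℕ, ∀ c : EuclideanSpace ℝ (Fin N) → Fin r,
        ∃ g : X → EuclideanSpace ℝ (Fin N), Isometry g ∧ ∀ x y : X, c (g x) = c (g y)) →
      z (Fin.last d) ≠ 0 →
      ∀ r : ℕ, ∃ N : ℕ, ∀ c : EuclideanSpace ℝ (Fin N) → Fin r,
        ∃ g : ({y : EuclideanSpace ℝ (Fin (d + 1)) |
                  y (Fin.last d) = 0 ∧ ∃ x ∈ X, ∀ i : Fin d, y (Fin.castSucc i) = x i}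
                ∪ {z} : Set (EuclideanSpace ℝ (Fin (d + 1)))) → EuclideanSpace ℝ (Fin N),
          Isometry g ∧ ∀ x y, c (g x) = c (g y) := by
  classical
  intro d X z hX hR hz r
  have hfin : Finite ↥X := hX.to_subtype
  let x : ↥X → Fin d → ℝ := fun a => (a : EuclideanSpace ℝ (Fin d)).ofLp
  let z₀ : Fin d → ℝ := fun i => z (Fin.castSucc i)
  have hg : 0 < z (Fin.last d) ^ 2 := by positivity
  have HX : ∀ (κ : Type) [Finite κ], ∃ (ι : Type) (_ : Fintype ι), ∀ c : (ι → ℝ) → κ,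
      ∃ f : ↥X → ι → ℝ, (∀ a b, sq (f a) (f b) = sq (x a) (x b)) ∧
        ∀ a b, c (f a) = c (f b) := by
    intro κ _
    obtain ⟨N, hN⟩ := hR (Nat.card κ)
    refine ⟨Fin N, inferInstance, fun c => ?_⟩
    obtain ⟨g, h1, h2⟩ := hN (fun v => Finite.equivFin κ (c v.ofLp))
    refine ⟨fun a => (g a).ofLp, fun a b => ?_, fun a b => (Finite.equivFin κ).injective (h2 a b)⟩
    rw [← dist_sq_eq, h1.dist_eq, Subtype.dist_eq, dist_sq_eq]
  obtain ⟨ι, i, H⟩ := main (κ := Fin r) x z₀ (z (Fin.last d) ^ 2) hg HX r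
  obtain ⟨N, hN⟩ := transfer (r := r) (DT x z₀ (z (Fin.last d) ^ 2)) ⟨ι, i, fun c => by
    obtain ⟨f, h1, h2⟩ := H c (by
      refine (Set.ncard_le_ncard (Set.subset_univ _) (Set.toFinite _)).trans ?_
      rw [Set.ncard_univ, Nat.card_eq_fintype_card, Fintype.card_fin])
    exact ⟨f, h1, h2⟩⟩
  refine ⟨N, fun c => ?_⟩
  obtain ⟨f, h1, h2⟩ := hN c
  set S : Set (EuclideanSpace ℝ (Fin (d + 1))) := {y : EuclideanSpace ℝ (Fin (d + 1)) |
    y (Fin.last d) = 0 ∧ ∃ x ∈ X, ∀ i : Fin d, y (Fin.castSucc i) = x i} ∪ {z} with hS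
  -- every point of the set is labelled
  have hlab : ∀ y : ↥S, ∃ o : Option ↥X,
      (∀ i : Fin d, (y : EuclideanSpace ℝ (Fin (d + 1))) (Fin.castSucc i) =
        (o.elim z₀ x) i) ∧
      (y : EuclideanSpace ℝ (Fin (d + 1))) (Fin.last d) =
        o.elim (z (Fin.last d)) (fun _ => 0) := by
    rintro ⟨y, hy | hy⟩
    · obtain ⟨hy0, a, ha, hya⟩ := hy
      exact ⟨some ⟨a, ha⟩, fun i => hya i, hy0⟩
    · rw [Set.mem_singleton_iff] at hy
      subst hy
      exact ⟨none, fun i => rfl, rfl⟩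
  choose o ho1 ho2 using hlab
  have hD : ∀ y y' : ↥S, dist (f (o y)) (f (o y')) ^ 2 =
      dist (y : EuclideanSpace ℝ (Fin (d + 1))) y' ^ 2 := by
    intro y y'
    rw [h1, dist_sq_eq]
    unfold Pool.Agent.N479.ER.sq
    rw [Fin.sum_univ_castSucc]
    simp only [ho1, ho2]
    rcases o y with _ | a <;> rcases o y' with _ | a'
    · simp [DT]
    · simp only [DT, Option.elim]
      rw [sub_zero]
      congr 1
      unfold Pool.Agent.N479.ER.sq
      exact Finset.sum_congr rfl fun i _ => by ring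
    · simp only [DT, Option.elim]
      rw [zero_sub, neg_sq]
      rfl
    · simp only [DT, Option.elim]
      simp [Pool.Agent.N479.ER.sq]
  refine ⟨fun y => f (o y), ?_, fun y y' => h2 _ _⟩
  refine Isometry.of_dist_eq fun y y' => ?_
  rw [Subtype.dist_eq]
  exact (sq_eq_sq₀ dist_nonneg dist_nonneg).mp (hD y y')

end Pool.Agent.S11737
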