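import Pool.Statements.S11885
import Pool.Agent.U445.EvenTriple2

set_option autoImplicit false
open Classical
open Pool Pool.MP_dd5ef2_co

namespace Pool.Agent.S11885

open Pool.Agent.U445.EvenTriple

theorem exists_type {n s : ℕ} (hn : 4 ≤ n) (hs : 0 < s) (η θ : ℝ) (hη : 0 < η) (hθ : 0 < θ)
    (hsθ : 1 ≤ s * θ ^ 2) (G : SimpleGraph (Fin n)) :
    ∃ R : Fin n → Fin s → Bool,
      ∏ i : Fin n, ∏ j : Fin n, (if i < j then phi G i j else 1)
        ≤ ((n : ℝ) / ((n : ℝ) - 2)) ^ (n ^ 2) * Real.exp (θ * (n : ℝ) ^ 2 / η) *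
          ∏ i : Fin n, ∏ j : Fin n, (if i < j then wt η R i j (G.Adj i j) else 1) := by
  have hn' : (4 : ℝ) ≤ n := by exact_mod_cast hn
  have hn2 : (0 : ℝ) < (n : ℝ) - 2 := by linarith
  obtain ⟨K, hK⟩ := exists_sample_abs (by omega : 0 < n) s hs θ hθ hsθ (fdis G)
    (by intro i j k; unfold fdis; split_ifs <;> norm_num)
    (by intro i j k; unfold fdis; split_ifs <;> norm_num)
  let R : Fin n → Fin s → Bool := fun i l => decide (G.Adj i (K l))
  have hR : ∀ i j, dis R i j = (∑ l, fdis G i j (K l)) / s := by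
    intro i j
    unfold dis fdis
    congr 1
    refine Finset.sum_congr rfl fun l _ => ?_
    by_cases h1 : G.Adj i (K l) <;> by_cases h2 : G.Adj j (K l) <;> simp [R, h1, h2]
  refine ⟨R, ?_⟩
  have hq1 : 1 ≤ (n : ℝ) / ((n : ℝ) - 2) := by
    rw [le_div_iff₀ hn2]; linarith
  have step : ∀ i j : Fin n, (if i < j then phi G i j else 1)
      ≤ (((n : ℝ) / ((n : ℝ) - 2)) *
          Real.exp (|dis R i j - (∑ k, fdis G i j k) / n| / η)) *
          (if i < j then wt η R i j (G.Adj i j) else 1) := by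
    intro i j
    split_ifs with hij
    · exact factor_le hn η hη G R i j
    · rw [mul_one]
      have : 1 ≤ Real.exp (|dis R i j - (∑ k, fdis G i j k) / n| / η) :=
        Real.one_le_exp (by positivity)
      nlinarith
  have hnn : ∀ i j : Fin n, 0 ≤ (if i < j then phi G i j else 1) := by
    intro i j
    split_ifs
    · exact phi_nonneg hn G i j
    · exact zero_le_one
  calc ∏ i : Fin n, ∏ j : Fin n, (if i < j then phi G i j else 1)
      ≤ ∏ i : Fin n, ∏ j : Fin n, ((((n : ℝ) / ((n : ℝ) - 2)) *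
          Real.exp (|dis R i j - (∑ k, fdis G i j k) / n| / η)) *
          (if i < j then wt η R i j (G.Adj i j) else 1)) := by
        refine Finset.prod_le_prod (fun i _ => Finset.prod_nonneg fun j _ => hnn i j) fun i _ => ?_
        exact Finset.prod_le_prod (fun j _ => hnn i j) fun j _ => step i j
    _ = ((n : ℝ) / ((n : ℝ) - 2)) ^ (n ^ 2) *
          Real.exp (∑ i : Fin n, ∑ j : Fin n, |dis R i j - (∑ k, fdis G i j k) / n| / η) *
          ∏ i : Fin n, ∏ j : Fin n, (if i < j then wt η R i j (G.Adj i j) else 1) := by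
        simp only [Finset.prod_mul_distrib, Real.exp_sum]
        simp only [Finset.prod_const, Finset.card_univ, Fintype.card_fin]
        rw [← pow_mul, pow_two]
    _ ≤ ((n : ℝ) / ((n : ℝ) - 2)) ^ (n ^ 2) * Real.exp (θ * (n : ℝ) ^ 2 / η) *
          ∏ i : Fin n, ∏ j : Fin n, (if i < j then wt η R i j (G.Adj i j) else 1) := by
        refine mul_le_mul_of_nonneg_right ?_ ?_
        · refine mul_le_mul_of_nonneg_left ?_ (by positivity)
          rw [Real.exp_le_exp]
          simp only [← Finset.sum_div]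
          refine div_le_div_of_nonneg_right ?_ hη.le
          simp only [hR]
          exact hK
        · refine Finset.prod_nonneg fun i _ => Finset.prod_nonneg fun j _ => ?_
          split_ifs
          · exact wt_nonneg η hη.le R i j _
          · exact zero_le_one

theorem main_bound {n s : ℕ} (hn : 4 ≤ n) (hs : 0 < s) (η θ : ℝ) (hη : 0 < η) (hθ : 0 < θ)
    (hsθ : 1 ≤ s * θ ^ 2) :
    ∑ G : SimpleGraph (Fin n), ∏ i : Fin n, ∏ j : Fin n, (if i < j then phi G i j else 1)
      ≤ ((n : ℝ) / ((n : ℝ) - 2)) ^ (n ^ 2) * Real.exp (θ * (n : ℝ) ^ 2 / η) *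
        ((2 : ℝ) ^ (n * s) * (1 + 2 * η) ^ (n ^ 2)) := by
  have hn' : (4 : ℝ) ≤ n := by exact_mod_cast hn
  have hn2 : (0 : ℝ) < (n : ℝ) - 2 := by linarith
  choose R hR using fun G : SimpleGraph (Fin n) => exists_type hn hs η θ hη hθ hsθ G
  have hw0 : ∀ (R : Fin n → Fin s → Bool) (G : SimpleGraph (Fin n)),
      0 ≤ ∏ i : Fin n, ∏ j : Fin n, (if i < j then wt η R i j (G.Adj i j) else 1) := by
    intro R G
    refine Finset.prod_nonneg fun i _ => Finset.prod_nonneg fun j _ => ?_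
    split_ifs
    · exact wt_nonneg η hη.le R i j _
    · exact zero_le_one
  calc ∑ G : SimpleGraph (Fin n), ∏ i : Fin n, ∏ j : Fin n, (if i < j then phi G i j else 1)
      ≤ ∑ G : SimpleGraph (Fin n), ((n : ℝ) / ((n : ℝ) - 2)) ^ (n ^ 2) * Real.exp (θ * (n : ℝ) ^ 2 / η) *
          ∑ R : Fin n → Fin s → Bool,
            ∏ i : Fin n, ∏ j : Fin n, (if i < j then wt η R i j (G.Adj i j) else 1) := by
        refine Finset.sum_le_sum fun G _ => (hR G).trans ?_
        refine mul_le_mul_of_nonneg_left ?_ (by positivity)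
        exact Finset.single_le_sum
          (f := fun R => ∏ i : Fin n, ∏ j : Fin n, (if i < j then wt η R i j (G.Adj i j) else 1))
          (fun R _ => hw0 R G) (Finset.mem_univ (R G))
    _ = ((n : ℝ) / ((n : ℝ) - 2)) ^ (n ^ 2) * Real.exp (θ * (n : ℝ) ^ 2 / η) *
          ∑ R : Fin n → Fin s → Bool, ∑ G : SimpleGraph (Fin n),
            ∏ i : Fin n, ∏ j : Fin n, (if i < j then wt η R i j (G.Adj i j) else 1) := by
        rw [← Finset.mul_sum, Finset.sum_comm]
    _ ≤ ((n : ℝ) / ((n : ℝ) - 2)) ^ (n ^ 2) * Real.exp (θ * (n : ℝ) ^ 2 / η) *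
          ∑ R : Fin n → Fin s → Bool, (1 + 2 * η) ^ (n ^ 2) := by
        refine mul_le_mul_of_nonneg_left ?_ (by positivity)
        refine Finset.sum_le_sum fun R _ => ?_
        refine sum_graph_prod_le (fun i j p => wt η R i j p) (fun i j p => wt_nonneg η hη.le R i j p)
          (1 + 2 * η) (by linarith) ?_
        intro i j
        simp only [wt, if_true, if_false]
        linarith
    _ = _ := by
        congr 1
        simp only [Finset.sum_const, Finset.card_univ, nsmul_eq_mul, Fintype.card_fun,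
          Fintype.card_fin, Fintype.card_bool]
        push_cast
        rw [← pow_mul, mul_comm s n]

theorem final_bound {n s : ℕ} (hn : 4 ≤ n) (hs : 0 < s) (η : ℝ) (hη : 0 < η)
    (hsθ : 1 ≤ s * (η ^ 2) ^ 2) :
    ∑ G : SimpleGraph (Fin n), ∏ i : Fin n, ∏ j : Fin n, (if i < j then phi G i j else 1)
      ≤ Real.exp ((4 + s) * n + 3 * η * (n : ℝ) ^ 2) := by
  have hn' : (4 : ℝ) ≤ n := by exact_mod_cast hn
  have hn2 : (0 : ℝ) < (n : ℝ) - 2 := by linarith
  refine (main_bound hn hs η (η ^ 2) hη (by positivity) hsθ).trans ?_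
  have h1 : ((n : ℝ) / ((n : ℝ) - 2)) ^ (n ^ 2) ≤ Real.exp (4 * n) := by
    have : (n : ℝ) / ((n : ℝ) - 2) ≤ Real.exp (2 / ((n : ℝ) - 2)) := by
      have h2 := Real.add_one_le_exp (2 / ((n : ℝ) - 2))
      have h3 : (n : ℝ) / ((n : ℝ) - 2) = 2 / ((n : ℝ) - 2) + 1 := by
        field_simp; ring
      rw [h3]; exact h2
    calc ((n : ℝ) / ((n : ℝ) - 2)) ^ (n ^ 2) ≤ (Real.exp (2 / ((n : ℝ) - 2))) ^ (n ^ 2) :=
          pow_le_pow_left₀ (by positivity) this _
      _ = Real.exp ((n ^ 2 : ℕ) * (2 / ((n : ℝ) - 2))) := by rw [← Real.exp_nat_mul]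
      _ ≤ Real.exp (4 * n) := by
          rw [Real.exp_le_exp]
          push_cast
          rw [← mul_div_assoc, div_le_iff₀ hn2]
          nlinarith
  have h2 : Real.exp (η ^ 2 * (n : ℝ) ^ 2 / η) = Real.exp (η * (n : ℝ) ^ 2) := by
    congr 1; field_simp
  have h3 : (2 : ℝ) ^ (n * s) ≤ Real.exp (s * n) := by
    have : (2 : ℝ) ≤ Real.exp 1 := by
      have := Real.add_one_le_exp (1 : ℝ); linarith
    calc (2 : ℝ) ^ (n * s) ≤ (Real.exp 1) ^ (n * s) := pow_le_pow_left₀ (by norm_num) this _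
      _ = Real.exp (s * n) := by
          rw [← Real.exp_nat_mul]; push_cast; congr 1; ring
  have h4 : (1 + 2 * η) ^ (n ^ 2) ≤ Real.exp (2 * η * (n : ℝ) ^ 2) := by
    have : 1 + 2 * η ≤ Real.exp (2 * η) := by
      have := Real.add_one_le_exp (2 * η); linarith
    calc (1 + 2 * η) ^ (n ^ 2) ≤ (Real.exp (2 * η)) ^ (n ^ 2) :=
          pow_le_pow_left₀ (by positivity) this _
      _ = Real.exp (2 * η * (n : ℝ) ^ 2) := by
          rw [← Real.exp_nat_mul]; push_cast; congr 1; ring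
  rw [h2]
  calc ((n : ℝ) / ((n : ℝ) - 2)) ^ (n ^ 2) * Real.exp (η * (n : ℝ) ^ 2) *
        ((2 : ℝ) ^ (n * s) * (1 + 2 * η) ^ (n ^ 2))
      ≤ Real.exp (4 * n) * Real.exp (η * (n : ℝ) ^ 2) *
        (Real.exp (s * n) * Real.exp (2 * η * (n : ℝ) ^ 2)) := by
        gcongr
    _ = Real.exp ((4 + s) * n + 3 * η * (n : ℝ) ^ 2) := by
        rw [← Real.exp_add, ← Real.exp_add, ← Real.exp_add]
        congr 1; ring

/-- For every ε>0 and all large n, summing over all graphs on n vertices the product over pairs i<j of the fraction of other vertices k with an even number of edges in triangle ijk gives at most 2^(εn²). -/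
theorem result :
    ∀ ε : ℝ, 0 < ε → ∃ N : ℕ, ∀ n : ℕ, N ≤ n →
      (∑ G : SimpleGraph (Fin n),
        ∏ i : Fin n, ∏ j : Fin n,
          (if i < j then
            (((Finset.univ.filter (fun k : Fin n => k ≠ i ∧ k ≠ j ∧
                Even ((if G.Adj i j then 1 else 0) + (if G.Adj i k then 1 else 0)
                  + (if G.Adj j k then 1 else 0) : ℕ))).card : ℝ) / ((n : ℝ) - 2))
          else 1)) ≤ (2 : ℝ) ^ (ε * (n : ℝ) ^ 2) := by
  intro ε hε
  have hlog : 0 < Real.log 2 := Real.log_pos (by norm_num)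
  set η : ℝ := ε * Real.log 2 / 6 with hηdef
  have hη : 0 < η := by positivity
  obtain ⟨s, hs⟩ := exists_nat_gt (1 / (η ^ 2) ^ 2)
  have hs0 : 0 < s := by
    have : (0 : ℝ) < s := lt_trans (by positivity) hs
    exact_mod_cast this
  have hsθ : 1 ≤ s * (η ^ 2) ^ 2 := by
    rw [div_lt_iff₀ (by positivity)] at hs
    exact hs.le
  obtain ⟨N, hN⟩ := exists_nat_gt ((4 + s) / (3 * η))
  refine ⟨max N 4, fun n hn => ?_⟩
  have hn4 : 4 ≤ n := le_trans (le_max_right _ _) hn
  have hnN : N ≤ n := le_trans (le_max_left _ _) hn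
  have hnN' : ((4 + s) / (3 * η) : ℝ) < n := lt_of_lt_of_le hN (by exact_mod_cast hnN)
  rw [div_lt_iff₀ (by positivity)] at hnN'
  have hb := final_bound hn4 hs0 η hη hsθ
  have hfin : Real.exp ((4 + s) * n + 3 * η * (n : ℝ) ^ 2) ≤ (2 : ℝ) ^ (ε * (n : ℝ) ^ 2) := by
    rw [Real.rpow_def_of_pos (by norm_num), Real.exp_le_exp]
    have hn0 : (0 : ℝ) ≤ n := Nat.cast_nonneg _
    have : Real.log 2 * (ε * (n : ℝ) ^ 2) = 6 * η * (n : ℝ) ^ 2 := by
      rw [hηdef]; ring
    rw [this]
    nlinarith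
  exact le_trans hb hfin

end Pool.Agent.S11885
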