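import Pool.Statements.S11888
import Pool.Agent.Results.MP_dd77b8_co.RobustDisproof

set_option autoImplicit false
open Pool Pool.MP_dd77b8_co

namespace Pool.Agent.S11888

open Pool.Agent.Results.MP_dd77b8_co.RobustDisproof in
/-- The negation of the preceding statement: For all large n, any way of writing the unit-norm vectors f_g of U_{4,n} in R^{C(n,4)} as a union of m sets, each of diameter below that of the whole set, needs m ≥ exp(C(n,4)^{4/5}). -/
theorem result :
    ¬ (∃ N : ℕ, ∀ n : ℕ, N ≤ n →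
      ∀ X : Set (EuclideanSpace ℝ {T : Finset (Fin n) // T.card = 4}),
        X = {f | ∃ g : Finset (Fin n) → ℝ,
              f = WithLp.toLp 2 (fun T : {T : Finset (Fin n) // T.card = 4} =>
                    ∏ S ∈ T.1.powersetCard 3, g S) ∧ ‖f‖ = 1} →
        ∀ m : ℕ, ∀ A : Fin m → Set (EuclideanSpace ℝ {T : Finset (Fin n) // T.card = 4}),
          (⋃ i, A i) = X →
          (∀ i, Metric.diam (A i) < Metric.diam X) →
          Real.exp (((n.choose 4 : ℕ) : ℝ) ^ ((4 : ℝ) / 5)) ≤ (m : ℝ)) := by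
  rintro ⟨N, hN⟩
  obtain ⟨n, hn, hn'⟩ : ∃ n, N ≤ n ∧ 100 ≤ n := ⟨max N 100, le_max_left _ _, le_max_right _ _⟩
  obtain ⟨hY, hd, -, -⟩ := Pool.Agent.Results.MP_dd77b8_co.RobustDisproof.result n hn'
  obtain ⟨b, hb, hlt⟩ := hY (X n) subset_rfl hd
  obtain ⟨B, hB, hBd⟩ := hb.1
  have key := hN n hn (X n) ?_ b B hB.symm hBd
  · exact absurd hlt (not_lt.2 key)
  · -- the two descriptions of the set agree
    have hprod : ∀ (g : Finset (Fin n) → ℝ) (T : {T : Finset (Fin n) // T.card = 4}),
        ∏ S ∈ T.1.powersetCard 3, g S = ∏ S : Sets n 3 with S.1 ⊆ T.1, g S.1 := by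
      intro g T
      refine Finset.prod_bij' (fun S hS => (⟨S, (Finset.mem_powersetCard.1 hS).2⟩ : Sets n 3))
        (fun S _ => S.1) ?_ ?_ ?_ ?_ ?_
      · intro S hS
        rw [Finset.mem_filter]
        exact ⟨Finset.mem_univ _, (Finset.mem_powersetCard.1 hS).1⟩
      · intro S hS
        rw [Finset.mem_powersetCard]
        exact ⟨(Finset.mem_filter.1 hS).2, S.2⟩
      · intro S _
        rfl
      · intro S _
        rfl
      · intro S _
        rfl
    ext f
    constructor
    · rintro ⟨⟨g, rfl⟩, hf⟩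
      refine ⟨fun S => if h : S.card = 3 then g ⟨S, h⟩ else 0, ?_, hf⟩
      ext T
      show ∏ S : Sets n 3 with S.1 ⊆ T.1, g S = ∏ S ∈ T.1.powersetCard 3, _
      rw [hprod]
      refine Finset.prod_congr rfl fun S _ => ?_
      rw [dif_pos S.2]
    · rintro ⟨g, hf, hf1⟩
      refine ⟨⟨fun S => g S.1, ?_⟩, hf1⟩
      rw [hf]
      ext T
      exact hprod g T

end Pool.Agent.S11888
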