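import Pool.Statements.S11986
import Pool.Agent.U466.TP6

set_option autoImplicit false
open Filter Topology
open Pool Pool.MP_e10300_co

namespace Pool.Agent.S11986

/-- The negation of the preceding statement: There are s≥2, a>0 such that whenever p(n)/((log n)^a n^(-1/s))→∞ and n-vertex graphs have normalized labelled K2 and C4 counts tending to 1 and bounded normalized K_{s,t} counts for each t, the normalized triangle count tends to 1. -/
theorem result :
    ¬ (∃ s : ℕ, 2 ≤ s ∧ ∃ a : ℝ, 0 < a ∧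
      ∀ p : ℕ → ℝ, (∀ n, 0 < p n ∧ p n ≤ 1) →
        Tendsto (fun n : ℕ => p n / ((Real.log n) ^ a * (n : ℝ) ^ (-(1 / (s : ℝ))))) atTop atTop →
        ∀ G : ∀ n : ℕ, SimpleGraph (Fin n),
          Tendsto (fun n : ℕ =>
            (Set.ncard {f : Fin 2 → Fin n | Function.Injective f ∧
                ∀ i j, (⊤ : SimpleGraph (Fin 2)).Adj i j → (G n).Adj (f i) (f j)} : ℝ) /
              ((n.descFactorial 2 : ℝ) * p n ^ 1)) atTop (𝓝 1) →
          Tendsto (fun n : ℕ =>
            (Set.ncard {f : Fin 4 → Fin n | Function.Injective f ∧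
                ∀ i j, (SimpleGraph.cycleGraph 4).Adj i j → (G n).Adj (f i) (f j)} : ℝ) /
              ((n.descFactorial 4 : ℝ) * p n ^ 4)) atTop (𝓝 1) →
          (∀ t : ℕ, 1 ≤ t → ∃ C : ℝ, ∀ n : ℕ,
            (Set.ncard {f : Fin s ⊕ Fin t → Fin n | Function.Injective f ∧
                ∀ i j, (completeBipartiteGraph (Fin s) (Fin t)).Adj i j → (G n).Adj (f i) (f j)} : ℝ) /
              ((n.descFactorial (s + t) : ℝ) * p n ^ (s * t)) ≤ C) →
          Tendsto (fun n : ℕ =>
            (Set.ncard {f : Fin 3 → Fin n | Function.Injective f ∧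
                ∀ i j, (SimpleGraph.cycleGraph 3).Adj i j → (G n).Adj (f i) (f j)} : ℝ) /
              ((n.descFactorial 3 : ℝ) * p n ^ 3)) atTop (𝓝 1)) := by
  rintro ⟨s, hs, a, -, H⟩
  obtain ⟨G, h2, h4, h3, hb⟩ := Pool.Agent.U466.TP.seq_exists Pool.Agent.U466.TP.qq
    Pool.Agent.U466.TP.qq_pos Pool.Agent.U466.TP.qq_tendsto Pool.Agent.U466.TP.qq_cube
    (fun t => Fin s ⊕ Fin t) (fun t => completeBipartiteGraph (Fin s) (Fin t))
  have key := H Pool.Agent.U466.TP.qq
    (fun n => ⟨Pool.Agent.U466.TP.qq_pos n, Pool.Agent.U466.TP.qq_le n⟩)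
    (Pool.Agent.U466.TP.qq_omega s hs a) G
    (by
      simp only [pow_one]
      exact h2) h4
    (by
      intro t _
      obtain ⟨C, hC⟩ := hb t
      refine ⟨C, fun n => ?_⟩
      have h := hC n
      rw [Pool.Agent.U466.TP.card_EF_bip, Fintype.card_sum, Fintype.card_fin,
        Fintype.card_fin] at h
      exact h)
  have := tendsto_nhds_unique key h3
  norm_num at this

end Pool.Agent.S11986
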