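import Pool.Statements.S12060
import Pool.Agent.U288.Cusp

set_option autoImplicit false
open Pool Pool.MP_e3c312_co

namespace Pool.Agent.S12060

/-- The negation of the preceding statement: For any Γ-symmetric framework in ℝ^d, every expansive motion tracing one half-branch of a neighbourhood of [p] homeomorphic to an interval in the configuration space mod isometries can be moved by continuous isometries so it stays Γ-symmetric. -/
theorem result :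
    ¬ (∀ (d : ℕ) (V : Type) [Fintype V] (G : SimpleGraph V) (p : V → EuclideanSpace ℝ (Fin d))
    (Γ : Subgroup (EuclideanSpace ℝ (Fin d) ≃ᵢ EuclideanSpace ℝ (Fin d))) [Finite Γ]
    (θ : Γ →* Equiv.Perm V),
    (∀ γ : Γ, ∀ u v : V, G.Adj u v ↔ G.Adj (θ γ u) (θ γ v)) →
    (∀ γ : Γ, ∀ i : V,
      (γ : EuclideanSpace ℝ (Fin d) ≃ᵢ EuclideanSpace ℝ (Fin d)) (p i) = p (θ γ i)) →
    ∀ m : ℝ → V → EuclideanSpace ℝ (Fin d),
      ContinuousOn m (Set.Icc 0 1) → m 0 = p →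
      (∀ t ∈ Set.Icc (0:ℝ) 1, ∀ i j : V, G.Adj i j → dist (m t i) (m t j) = dist (p i) (p j)) →
      (∀ i j : V, MonotoneOn (fun t => dist (m t i) (m t j)) (Set.Icc (0:ℝ) 1)) →
      (∃ t ∈ Set.Icc (0:ℝ) 1, ∃ i j : V, dist (m t i) (m t j) ≠ dist (p i) (p j)) →
      Set.InjOn (fun t => Quot.mk (fun q q' : V → EuclideanSpace ℝ (Fin d) =>
          ∃ T : EuclideanSpace ℝ (Fin d) ≃ᵢ EuclideanSpace ℝ (Fin d), ∀ i, T (q i) = q' i) (m t))
        (Set.Icc (0:ℝ) 1) →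
      (∃ O : Set (Quot (fun q q' : V → EuclideanSpace ℝ (Fin d) =>
          ∃ T : EuclideanSpace ℝ (Fin d) ≃ᵢ EuclideanSpace ℝ (Fin d), ∀ i, T (q i) = q' i)),
        IsOpen O ∧
        ∃ h : ↥(O ∩ {x : Quot (fun q q' : V → EuclideanSpace ℝ (Fin d) =>
              ∃ T : EuclideanSpace ℝ (Fin d) ≃ᵢ EuclideanSpace ℝ (Fin d), ∀ i, T (q i) = q' i) |
              ∃ q : V → EuclideanSpace ℝ (Fin d),
                Quot.mk (fun q q' : V → EuclideanSpace ℝ (Fin d) =>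
                  ∃ T : EuclideanSpace ℝ (Fin d) ≃ᵢ EuclideanSpace ℝ (Fin d), ∀ i, T (q i) = q' i) q = x ∧
                ∀ i j : V, G.Adj i j → dist (q i) (q j) = dist (p i) (p j)}) ≃ₜ ↥(Set.Ioo (0:ℝ) 1),
        ∃ a : Set.Ioo (0:ℝ) 1,
          (h.symm a).1 = Quot.mk (fun q q' : V → EuclideanSpace ℝ (Fin d) =>
            ∃ T : EuclideanSpace ℝ (Fin d) ≃ᵢ EuclideanSpace ℝ (Fin d), ∀ i, T (q i) = q' i) p ∧
          ((∀ t ∈ Set.Ioc (0:ℝ) 1, ∃ b : Set.Ioo (0:ℝ) 1,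
              (h.symm b).1 = Quot.mk (fun q q' : V → EuclideanSpace ℝ (Fin d) =>
                ∃ T : EuclideanSpace ℝ (Fin d) ≃ᵢ EuclideanSpace ℝ (Fin d), ∀ i, T (q i) = q' i) (m t) ∧
              (a : ℝ) < (b : ℝ)) ∨
           (∀ t ∈ Set.Ioc (0:ℝ) 1, ∃ b : Set.Ioo (0:ℝ) 1,
              (h.symm b).1 = Quot.mk (fun q q' : V → EuclideanSpace ℝ (Fin d) =>
                ∃ T : EuclideanSpace ℝ (Fin d) ≃ᵢ EuclideanSpace ℝ (Fin d), ∀ i, T (q i) = q' i) (m t) ∧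
              (b : ℝ) < (a : ℝ)))) →
      ∃ T : ℝ → (EuclideanSpace ℝ (Fin d) ≃ᵢ EuclideanSpace ℝ (Fin d)),
        (∀ x, T 0 x = x) ∧
        (∀ x, ContinuousOn (fun t => T t x) (Set.Icc (0:ℝ) 1)) ∧
        ∀ t ∈ Set.Icc (0:ℝ) 1, ∀ γ : Γ, ∀ i : V,
          (γ : EuclideanSpace ℝ (Fin d) ≃ᵢ EuclideanSpace ℝ (Fin d)) (T t (m t i))
            = T t (m t (θ γ i))) := by
  intro H
  have key := H 3 (Fin 7) Pool.Agent.Results.MP_e3c312_co.CuspSymmetry.G7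
    Pool.Agent.Results.MP_e3c312_co.CuspSymmetry.p7 Pool.Agent.U288.Cusp.Gm
    Pool.Agent.U288.Cusp.th Pool.Agent.U288.Cusp.th_adj Pool.Agent.U288.Cusp.th_symm
    Pool.Agent.U288.Cusp.mot Pool.Agent.U288.Cusp.mot_cont ?_ ?_ ?_ ?_ ?_ ?_
  · obtain ⟨T, -, -, hT⟩ := key
    exact Pool.Agent.U288.Cusp.no_symm (T 1)
      (fun i => hT 1 ⟨zero_le_one, le_rfl⟩ Pool.Agent.U288.Cusp.rg i)
  · show Pool.Agent.Results.MP_e3c312_co.CuspSymmetry.std (0 / 20) = _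
    rw [zero_div, Pool.Agent.Results.MP_e3c312_co.CuspSymmetry.std_zero]
  · intro t ht i j hij
    exact Pool.Agent.Results.MP_e3c312_co.CuspSymmetry.std_mem
      (Pool.Agent.U288.Cusp.mot_dom ht) i j hij
  · intro i j t ht t' ht' htt'
    exact Pool.Agent.U288.Cusp.std_dist_mono' (div_nonneg ht.1 (by norm_num))
      (div_le_div_of_nonneg_right htt' (by norm_num)) (Pool.Agent.U288.Cusp.mot_dom ht)
      (Pool.Agent.U288.Cusp.mot_dom ht') i j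
  · exact Pool.Agent.U288.Cusp.moves
  · exact Pool.Agent.U288.Cusp.mot_inj
  · exact ⟨Pool.Agent.U288.Cusp.OO, Pool.Agent.U288.Cusp.OO_isOpen, Pool.Agent.U288.Cusp.hh,
      Pool.Agent.U288.Cusp.chart_ok⟩

end Pool.Agent.S12060
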