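import Pool.Statements.S12083
import Pool.Agent.U439.OG.Final

set_option autoImplicit false
open Pool Pool.MP_e4b521_co

namespace Pool.Agent.S12083

/-- If a graph G on n vertices and its complement are both connected, the oriented game domination numbers (Minimizer first) of G and of its complement sum to at most 2n/3 + 3. -/
theorem result :
  ∀ (V : Type) [Fintype V] [DecidableEq V] (G : SimpleGraph V),
    G.Connected → Gᶜ.Connected →
    ∀ F : SimpleGraph V → ℕ → Prop,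
      (∀ (H : SimpleGraph V) (k : ℕ), F H k ↔
        ∃ P : Set (Finset (V × V)), (∅ : Finset (V × V)) ∈ P ∧ ∀ A ∈ P,
          ((∀ u v : V, H.Adj u v → (u, v) ∈ A ∨ (v, u) ∈ A) →
              ∃ S : Finset V, S.card ≤ k ∧ ∀ v : V, v ∉ S → ∃ u ∈ S, (u, v) ∈ A) ∧
          ((¬ ∀ u v : V, H.Adj u v → (u, v) ∈ A ∨ (v, u) ∈ A) → Even A.card →
              ∃ u v : V, H.Adj u v ∧ (u, v) ∉ A ∧ (v, u) ∉ A ∧ insert (u, v) A ∈ P) ∧
          ((¬ ∀ u v : V, H.Adj u v → (u, v) ∈ A ∨ (v, u) ∈ A) → Odd A.card →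
              ∀ u v : V, H.Adj u v → (u, v) ∉ A → (v, u) ∉ A → insert (u, v) A ∈ P)) →
      ∃ k₁ k₂ : ℕ, F G k₁ ∧ F Gᶜ k₂ ∧ 3 * (k₁ + k₂) ≤ 2 * Fintype.card V + 9 := by
  intro V _ inst G hG hGc F hF
  obtain rfl : inst = (fun a b => Classical.propDecidable (a = b)) := Subsingleton.elim _ _
  obtain ⟨k₁, k₂, h1, h2, h3⟩ := Pool.Agent.U439.OG.main G hG hGc
  exact ⟨k₁, k₂, (hF G k₁).2 h1, (hF Gᶜ k₂).2 h2, h3⟩

end Pool.Agent.S12083
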