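import Pool.Statements.S12199
-- import your own Pool.Agent.* helpers here
import Pool.Agent.U324.Relax.Gap

set_option autoImplicit false
open Pool Pool.MP_ea35a0_co

namespace Pool.Agent.S12199

/-- For every ε>0, every connected graph with enough edges m has simple-random-walk relaxation time (degree-weighted variance over edge Dirichlet form) at most (1+ε)·2m²/π², i.e. the path is asymptotically extremal. -/
theorem result :
    ∀ ε : ℝ, ε > 0 → ∃ M : ℕ, ∀ (n : ℕ) (G : SimpleGraph (Fin n)) [DecidableRel G.Adj],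
      G.Connected → M ≤ G.edgeFinset.card →
      ∀ f : Fin n → ℝ, ∃ c : ℝ,
        ∑ v, (G.degree v : ℝ) * (f v - c) ^ 2 ≤
          (1 + ε) * (2 * (G.edgeFinset.card : ℝ) ^ 2 / Real.pi ^ 2) *
            ((1 / 2 : ℝ) * ∑ u, ∑ v, (if G.Adj u v then (f u - f v) ^ 2 else 0)) := by
  intro ε hε
  refine ⟨⌈4 + (1 + ε) / ε⌉₊, ?_⟩
  intro n G _ hG hM f
  set m := G.edgeFinset.card with hm
  have hmR : 4 + (1 + ε) / ε ≤ (m : ℝ) := le_trans (Nat.le_ceil _) (by exact_mod_cast hM)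
  have hq : 0 < (1 + ε) / ε := by positivity
  have hm4 : (4 : ℝ) ≤ m := by linarith
  have hmpos : (0 : ℝ) < m := by linarith
  have hm1 : 1 ≤ m := by
    have : (1 : ℝ) ≤ m := by linarith
    exact_mod_cast this
  obtain ⟨c, hc⟩ := Pool.Agent.U324.Relax.gap G hG hm1 f
  refine ⟨c, ?_⟩
  rw [← hm] at hc
  set A := ∑ v, (G.degree v : ℝ) * (f v - c) ^ 2 with hA
  set E := (1 / 2 : ℝ) * ∑ u, ∑ v, (if G.Adj u v then (f u - f v) ^ 2 else 0) with hE
  have hA0 : 0 ≤ A := by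
    rw [hA]
    exact Finset.sum_nonneg fun v _ => by positivity
  set t : ℝ := Real.pi / m with ht
  have htpos : 0 < t := by positivity
  have hpi4 : Real.pi ≤ 4 := Real.pi_le_four
  have ht1 : t ≤ 1 := by
    rw [ht, div_le_one hmpos]; linarith
  have ht4 : t ≤ 4 / m := by
    rw [ht]; exact div_le_div_of_nonneg_right hpi4 hmpos.le
  have hcosb := Real.cos_bound (x := t) (by rw [abs_of_pos htpos]; exact ht1)
  rw [abs_of_pos htpos, abs_le] at hcosb
  have hlow : t ^ 2 / 2 - 5 / 96 * t ^ 4 ≤ 1 - Real.cos t := by linarith [hcosb.2]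
  -- the key numeric inequality
  have hmε : (1 + ε) / m ≤ ε := by
    rw [div_le_iff₀ hmpos]
    have : (1 + ε) / ε ≤ m := by linarith
    rw [div_le_iff₀ hε] at this
    linarith
  have hkey : 1 ≤ (1 + ε) * (1 - 5 / 48 * t ^ 2) := by
    have h1 : t ^ 2 ≤ 4 / m := by nlinarith
    have h2 : (1 + ε) * t ^ 2 ≤ (1 + ε) * (4 / m) := by
      apply mul_le_mul_of_nonneg_left h1; linarith
    have h3 : (1 + ε) * (4 / (m : ℝ)) = 4 * ((1 + ε) / m) := by ring
    nlinarith
  have hfac : 1 ≤ (1 + ε) * (2 * (m : ℝ) ^ 2 / Real.pi ^ 2) * (1 - Real.cos t) := by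
    have h1 : 2 * (m : ℝ) ^ 2 / Real.pi ^ 2 = 2 / t ^ 2 := by
      rw [ht]
      have := Real.pi_pos
      field_simp
    rw [h1]
    calc (1 : ℝ) ≤ (1 + ε) * (1 - 5 / 48 * t ^ 2) := hkey
      _ = (1 + ε) * (2 / t ^ 2) * (t ^ 2 / 2 - 5 / 96 * t ^ 4) := by
        field_simp
        ring
      _ ≤ (1 + ε) * (2 / t ^ 2) * (1 - Real.cos t) := by
        apply mul_le_mul_of_nonneg_left hlow
        positivity
  calc A = 1 * A := by ring
    _ ≤ ((1 + ε) * (2 * (m : ℝ) ^ 2 / Real.pi ^ 2) * (1 - Real.cos t)) * A :=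
      mul_le_mul_of_nonneg_right hfac hA0
    _ = (1 + ε) * (2 * (m : ℝ) ^ 2 / Real.pi ^ 2) * ((1 - Real.cos t) * A) := by ring
    _ ≤ (1 + ε) * (2 * (m : ℝ) ^ 2 / Real.pi ^ 2) * E := by
      apply mul_le_mul_of_nonneg_left hc
      positivity

end Pool.Agent.S12199
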