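import Pool.Statements.S12391
import Pool.Agent.U308.Sph.Five
-- import your own Pool.Agent.* helpers here

/-!
Maehara's question for unit spheres in three-dimensional space: if every four members of a family of at
least five distinct unit spheres have a common point, then all members have a common point.

Proof. More than five spheres reduce to five, since three distinct unit spheres have at most two common
points (`Sph/Five`). Let `y_1, ..., y_5` be five centres and `p_i` a common point of the spheres with the
centres `y_j`, `j ≠ i`, and suppose that there is no common point, so that the numbers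
`t_i = |p_i - y_i| ^ 2 - 1` are not zero; let `t_1 t_2 > 0`. Let `p_1 = 0`, `p_2 = N`, `H = |N| ^ 2 / 4`,
let `U` be the reflection of `y_1` in the plane through `y_3, y_4, y_5` and `V = y_2`: unit vectors, with
`N U = 2 H x`, `N V = 2 H y` and `t_1 t_2 = 16 H ^ 2 (x - 1) (y - 1)`. The points `p_3, p_4, p_5` show
that `(m U) (m V) = H (x - 1) (y - 1)` for the unit normals `m` of the planes `0 y_j y_k`
(`Sph/Alg2`). So the triangle `y_3 y_4 y_5` is inscribed in a circle and its sides belong to a dual
conic, and the relation between the invariants of the two conics (Poncelet, Cayley) is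
`(x + 1) (y + 1) = (1 - H) (2 x y + 2 U V - (x - 1) (y - 1) (1 + 3 H))` (`Sph/Alg`), which contradicts
the inequality of Cauchy and Schwarz for the projections of `U` and `V` orthogonal to `N` (`Sph/Ineq`).
-/

set_option autoImplicit false
open Pool Pool.MP_f35a22_co

namespace Pool.Agent.S12391

/-- For any set of at least 5 distinct centers in 3-space, if every 4 of the unit spheres around them share a common point, then one point lies on all of these unit spheres. -/
theorem result :
    ∀ S : Set (EuclideanSpace ℝ (Fin 3)),
      5 ≤ S.encard →
      (∀ T : Set (EuclideanSpace ℝ (Fin 3)), T ⊆ S → T.encard = 4 →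
        ∃ p : EuclideanSpace ℝ (Fin 3), ∀ c ∈ T, p ∈ Metric.sphere c 1) →
      ∃ p : EuclideanSpace ℝ (Fin 3), ∀ c ∈ S, p ∈ Metric.sphere c 1 := by
  intro S h5 h
  exact Pool.Agent.U308.Sph.main S h5 h

end Pool.Agent.S12391
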