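import Pool.Statements.S12433
import Pool.Agent.U346.CdeG

set_option autoImplicit false
open scoped Classical
open Pool Pool.MP_f5b555_co

namespace Pool.Agent.S12433

open Pool.Agent.U346.Cde in
lemma V_iff {n k : ℕ} {V : (Fin (k+1) → ℕ) → Prop}
    (hV : ∀ μ, V μ ↔ ((∀ i : Fin (k+1), μ i ≤ n - 2 * (i : ℕ)) ∧
        ∀ i j : Fin (k+1), i < j → μ j = 0 ∨ μ j < μ i)) (μ : Fin (k+1) → ℕ) :
    V μ ↔ ((∀ i : Fin (k+1), μ i ≤ n - 2 * (i : ℕ)) ∧ Val μ) := hV μ

open Pool.Agent.U346.Cde in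
lemma D_eq {n k : ℕ} {V : (Fin (k+1) → ℕ) → Prop}
    (hV : ∀ μ, V μ ↔ ((∀ i : Fin (k+1), μ i ≤ n - 2 * (i : ℕ)) ∧
        ∀ i j : Fin (k+1), i < j → μ j = 0 ∨ μ j < μ i))
    {D : (Fin (k+1) → ℕ) → ℕ}
    (hD : ∀ μ, D μ = (Finset.univ.filter
        (fun i : Fin (k+1) => 0 < μ i ∧ V (Function.update μ i (μ i - 1)))).card)
    (μ : Fin (k+1) → ℕ) (hμ : ∀ i : Fin (k+1), μ i ≤ n - 2 * (i : ℕ)) :
    D μ = (Rem μ).card := by
  rw [hD]
  unfold Rem
  congr 1
  ext i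
  simp only [Finset.mem_filter, Finset.mem_univ, true_and]
  rw [V_iff hV]
  constructor
  · rintro ⟨h1, h2⟩
    exact ⟨h1, h2.2⟩
  · rintro ⟨h1, h2⟩
    refine ⟨h1, ?_, h2⟩
    intro l
    by_cases hl : l = i
    · subst hl
      rw [Function.update_self]
      have := hμ l
      omega
    · rw [Function.update_of_ne hl]
      exact hμ l

open Pool.Agent.U346.Cde in
lemma SS_mono {L N : ℕ} (w : Fin N → Fin L) {a b : ℕ} (h : a ≤ b) (i : Fin L) :
    SS w a i ≤ SS w b i := by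
  unfold SS
  refine Finset.card_le_card ?_
  intro t ht
  simp only [Finset.mem_filter, Finset.mem_univ, true_and] at ht ⊢
  exact ⟨lt_of_lt_of_le ht.1 h, ht.2⟩

/-- For n ≥ 1, 2k < n and λ=(n,n−2,…,n−2k), the strict partitions inside λ have average down-degree equal to that of a random element of a random maximal chain (CDE), and this average is ∣λ∣/(n+1). -/
theorem result :
  ∀ (n k : ℕ), 1 ≤ n → 2 * k < n →
  ∀ (V : (Fin (k+1) → ℕ) → Prop),
    (∀ μ, V μ ↔ ((∀ i : Fin (k+1), μ i ≤ n - 2 * (i : ℕ)) ∧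
        ∀ i j : Fin (k+1), i < j → μ j = 0 ∨ μ j < μ i)) →
  ∀ (D : (Fin (k+1) → ℕ) → ℕ),
    (∀ μ, D μ = (Finset.univ.filter
        (fun i : Fin (k+1) => 0 < μ i ∧ V (Function.update μ i (μ i - 1)))).card) →
  ∀ (N : ℕ), N = ∑ i : Fin (k+1), (n - 2 * (i : ℕ)) →
  ∀ (S : (Fin N → Fin (k+1)) → ℕ → Fin (k+1) → ℕ),
    (∀ w j i, S w j i = (Finset.univ.filter
        (fun t : Fin N => (t : ℕ) < j ∧ w t = i)).card) →
  ((∑ μ ∈ Finset.univ.filter (fun μ : Fin (k+1) → Fin (n+1) => V (fun i => (μ i : ℕ))),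
        (D (fun i => (μ i : ℕ)) : ℚ)) /
      ((Finset.univ.filter (fun μ : Fin (k+1) → Fin (n+1) => V (fun i => (μ i : ℕ)))).card : ℚ)
    =
    (∑ w ∈ Finset.univ.filter (fun w : Fin N → Fin (k+1) =>
          (∀ j : ℕ, j ≤ N → V (S w j)) ∧ ∀ i : Fin (k+1), S w N i = n - 2 * (i : ℕ)),
        ∑ j ∈ Finset.range (N+1), (D (S w j) : ℚ)) /
      (((Finset.univ.filter (fun w : Fin N → Fin (k+1) =>
          (∀ j : ℕ, j ≤ N → V (S w j)) ∧ ∀ i : Fin (k+1), S w N i = n - 2 * (i : ℕ))).card : ℚ)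
        * ((N : ℚ) + 1))
  ∧
  (∑ μ ∈ Finset.univ.filter (fun μ : Fin (k+1) → Fin (n+1) => V (fun i => (μ i : ℕ))),
        (D (fun i => (μ i : ℕ)) : ℚ)) /
      ((Finset.univ.filter (fun μ : Fin (k+1) → Fin (n+1) => V (fun i => (μ i : ℕ)))).card : ℚ)
    = (N : ℚ) / ((n : ℚ) + 1)) := by
  intro n k hn hk V hV D hD N hN S hS
  have hNq : (N : ℚ) = (Pool.Agent.U346.Cde.sz (Pool.Agent.U346.Cde.TT n k) : ℚ) := by
    rw [hN]; rfl
  have hNs : Pool.Agent.U346.Cde.sz (Pool.Agent.U346.Cde.TT n k) = N := by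
    rw [hN]; rfl
  have hS' : ∀ w j, S w j = Pool.Agent.U346.Cde.SS w j := by
    intro w j
    funext i
    rw [hS]
    rfl
  -- the words
  have hW : (Finset.univ.filter (fun w : Fin N → Fin (k+1) =>
      (∀ j : ℕ, j ≤ N → V (S w j)) ∧ ∀ i : Fin (k+1), S w N i = n - 2 * (i : ℕ))) =
      Pool.Agent.U346.Cde.WW N (Pool.Agent.U346.Cde.TT n k) := by
    unfold Pool.Agent.U346.Cde.WW
    ext w
    simp only [Finset.mem_filter, Finset.mem_univ, true_and]
    constructor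
    · rintro ⟨h1, h2⟩
      refine ⟨fun j hj => ?_, ?_⟩
      · have := (V_iff hV _).mp (h1 j hj)
        rw [hS'] at this
        exact this.2
      · funext i
        rw [← hS']
        exact h2 i
    · rintro ⟨h1, h2⟩
      refine ⟨fun j hj => ?_, fun i => ?_⟩
      · rw [V_iff hV, hS']
        refine ⟨fun i => ?_, h1 j hj⟩
        have h3 := SS_mono w hj i
        rw [h2] at h3
        exact h3
      · rw [hS', h2]; rfl
  have hwords := Pool.Agent.U346.Cde.words N (Pool.Agent.U346.Cde.TT n k)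
    Pool.Agent.U346.Cde.TT_val hNs
  have htot : ∑ w ∈ Finset.univ.filter (fun w : Fin N → Fin (k+1) =>
          (∀ j : ℕ, j ≤ N → V (S w j)) ∧ ∀ i : Fin (k+1), S w N i = n - 2 * (i : ℕ)),
        ∑ j ∈ Finset.range (N+1), (D (S w j) : ℚ) =
      Pool.Agent.U346.Cde.BB (Pool.Agent.U346.Cde.TT n k) := by
    rw [hW, ← hwords.2]
    refine Finset.sum_congr rfl (fun w hw => Finset.sum_congr rfl (fun j hj => ?_))
    have hj' : j ≤ N := by
      have := Finset.mem_range.mp hj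
      omega
    unfold Pool.Agent.U346.Cde.WW at hw
    simp only [Finset.mem_filter, Finset.mem_univ, true_and] at hw
    rw [D_eq hV hD _ (fun i => ?_), hS']
    rw [hS']
    have h3 := SS_mono w hj' i
    rw [hw.2] at h3
    exact h3
  have hcard : ((Finset.univ.filter (fun w : Fin N → Fin (k+1) =>
          (∀ j : ℕ, j ≤ N → V (S w j)) ∧ ∀ i : Fin (k+1), S w N i = n - 2 * (i : ℕ))).card : ℚ) =
      Pool.Agent.U346.Cde.G (Pool.Agent.U346.Cde.TT n k) := by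
    rw [hW]; exact hwords.1
  have hG : Pool.Agent.U346.Cde.G (Pool.Agent.U346.Cde.TT n k) ≠ 0 :=
    Pool.Agent.U346.Cde.G_ne_zero Pool.Agent.U346.Cde.TT_val
  have hn1 : (n : ℚ) + 1 ≠ 0 := by positivity
  have hN1 : (N : ℚ) + 1 ≠ 0 := by positivity
  have hchain : (∑ w ∈ Finset.univ.filter (fun w : Fin N → Fin (k+1) =>
          (∀ j : ℕ, j ≤ N → V (S w j)) ∧ ∀ i : Fin (k+1), S w N i = n - 2 * (i : ℕ)),
        ∑ j ∈ Finset.range (N+1), (D (S w j) : ℚ)) /
      (((Finset.univ.filter (fun w : Fin N → Fin (k+1) =>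
          (∀ j : ℕ, j ≤ N → V (S w j)) ∧ ∀ i : Fin (k+1), S w N i = n - 2 * (i : ℕ))).card : ℚ)
        * ((N : ℚ) + 1)) = (N : ℚ) / ((n : ℚ) + 1) := by
    rw [htot, hcard, Pool.Agent.U346.Cde.BB_TT hk, ← hNq]
    field_simp
  -- the uniform distribution
  have himg : Pool.Agent.U346.Cde.XX n n (k + 1) =
      (Finset.univ.filter (fun μ : Fin (k+1) → Fin (n+1) => V (fun i => (μ i : ℕ)))).image
        (fun μ i => (μ i : ℕ)) := by
    ext ν
    rw [Pool.Agent.U346.Cde.mem_XX, Finset.mem_image]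
    constructor
    · rintro ⟨h1, h2, h3⟩
      refine ⟨fun i => ⟨ν i, Nat.lt_succ_of_le (h1 i)⟩, ?_, rfl⟩
      simp only [Finset.mem_filter, Finset.mem_univ, true_and]
      rw [V_iff hV]
      exact ⟨h2, h3⟩
    · rintro ⟨μ, h1, rfl⟩
      simp only [Finset.mem_filter, Finset.mem_univ, true_and] at h1
      rw [V_iff hV] at h1
      exact ⟨fun i => Nat.lt_succ_iff.mp (μ i).2, h1.1, h1.2⟩
  have hinj : Function.Injective (fun (μ : Fin (k+1) → Fin (n+1)) (i : Fin (k+1)) =>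
      (μ i : ℕ)) := by
    intro a b hab
    funext i
    exact Fin.ext (congrFun hab i)
  have hsumD : (∑ μ ∈ Finset.univ.filter (fun μ : Fin (k+1) → Fin (n+1) =>
      V (fun i => (μ i : ℕ))), (D (fun i => (μ i : ℕ)) : ℚ)) =
      (Pool.Agent.U346.Cde.SD n n (k + 1) : ℚ) := by
    unfold Pool.Agent.U346.Cde.SD
    rw [himg, Finset.sum_image (fun a _ b _ h => hinj h)]
    push_cast
    refine Finset.sum_congr rfl (fun μ hμ => ?_)
    simp only [Finset.mem_filter, Finset.mem_univ, true_and] at hμ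
    rw [V_iff hV] at hμ
    rw [D_eq hV hD _ hμ.1]
  have hcardD : ((Finset.univ.filter (fun μ : Fin (k+1) → Fin (n+1) =>
      V (fun i => (μ i : ℕ)))).card : ℚ) = (Pool.Agent.U346.Cde.AA n n (k + 1) : ℚ) := by
    unfold Pool.Agent.U346.Cde.AA
    rw [himg, Finset.card_image_of_injective _ hinj]
  have huni : (∑ μ ∈ Finset.univ.filter (fun μ : Fin (k+1) → Fin (n+1) =>
      V (fun i => (μ i : ℕ))), (D (fun i => (μ i : ℕ)) : ℚ)) /
      ((Finset.univ.filter (fun μ : Fin (k+1) → Fin (n+1) =>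
        V (fun i => (μ i : ℕ)))).card : ℚ) = (N : ℚ) / ((n : ℚ) + 1) := by
    rw [hsumD, hcardD, Pool.Agent.U346.Cde.density hk, hNq, Pool.Agent.U346.Cde.sz_TT hk]
  exact ⟨by rw [huni, hchain], huni⟩

end Pool.Agent.S12433
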