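import Pool.Statements.S12606
import Pool.Agent.Results.MP_fd346d_co.Disproof

set_option autoImplicit false
open scoped Classical
open Pool Pool.MP_fd346d_co

namespace Pool.Agent.S12606

/-- The negation of the preceding statement: For all posets P, Q with at least two elements and finite dimension, dim P + dim Q ≤ dim(P×Q) + b, where b counts the factors lacking a least or greatest element; dimension means the least number of linear orders whose intersection is the order. -/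
theorem result :
    ¬ (∀ (P Q : Type) [PartialOrder P] [PartialOrder Q], Nontrivial P → Nontrivial Q →
      (∃ d : ℕ, ∃ r : Fin d → P → P → Prop,
        (∀ i, (∀ x, r i x x) ∧ (∀ x y z, r i x y → r i y z → r i x z) ∧
          (∀ x y, r i x y → r i y x → x = y) ∧ (∀ x y, r i x y ∨ r i y x)) ∧
        ∀ x y, x ≤ y ↔ ∀ i, r i x y) →
      (∃ d : ℕ, ∃ r : Fin d → Q → Q → Prop,
        (∀ i, (∀ x, r i x x) ∧ (∀ x y z, r i x y → r i y z → r i x z) ∧
          (∀ x y, r i x y → r i y x → x = y) ∧ (∀ x y, r i x y ∨ r i y x)) ∧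
        ∀ x y, x ≤ y ↔ ∀ i, r i x y) →
      ∀ n : ℕ,
        (∃ r : Fin n → P × Q → P × Q → Prop,
          (∀ i, (∀ x, r i x x) ∧ (∀ x y z, r i x y → r i y z → r i x z) ∧
            (∀ x y, r i x y → r i y x → x = y) ∧ (∀ x y, r i x y ∨ r i y x)) ∧
          ∀ x y, x ≤ y ↔ ∀ i, r i x y) →
        ∃ a c : ℕ,
          a + c ≤ n + ((if (∃ x : P, ∀ y, x ≤ y) ∧ (∃ x : P, ∀ y, y ≤ x) then 0 else 1) +
                       (if (∃ x : Q, ∀ y, x ≤ y) ∧ (∃ x : Q, ∀ y, y ≤ x) then 0 else 1)) ∧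
          (∃ r : Fin a → P → P → Prop,
            (∀ i, (∀ x, r i x x) ∧ (∀ x y z, r i x y → r i y z → r i x z) ∧
              (∀ x y, r i x y → r i y x → x = y) ∧ (∀ x y, r i x y ∨ r i y x)) ∧
            ∀ x y, x ≤ y ↔ ∀ i, r i x y) ∧
          (∃ r : Fin c → Q → Q → Prop,
            (∀ i, (∀ x, r i x x) ∧ (∀ x y z, r i x y → r i y z → r i x z) ∧
              (∀ x y, r i x y → r i y x → x = y) ∧ (∀ x y, r i x y ∨ r i y x)) ∧
            ∀ x y, x ≤ y ↔ ∀ i, r i x y)) := by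
  intro H
  obtain ⟨P, Q, iP, iQ, _, _, nP, nQ, dP, dQ, hb, hlt⟩ := Pool.Agent.Results.MP_fd346d_co.Disproof.result 0 2 (Or.inr rfl)
  have toR : ∀ (X : Type) [PartialOrder X] (d : ℕ), Pool.Agent.Results.MP_fd346d_co.Disproof.Realizable X d →
      ∃ r : Fin d → X → X → Prop,
        (∀ i, (∀ x, r i x x) ∧ (∀ x y z, r i x y → r i y z → r i x z) ∧
          (∀ x y, r i x y → r i y x → x = y) ∧ (∀ x y, r i x y ∨ r i y x)) ∧
        ∀ x y, x ≤ y ↔ ∀ i, r i x y := by
    intro X _ d ⟨L, hL, h1, h2⟩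
    refine ⟨L, fun i => ?_, fun x y => ⟨fun h i => h1 i x y h, h2 x y⟩⟩
    have := hL i
    exact ⟨fun x => refl_of (L i) x, fun x y z => trans_of (L i),
      fun x y => antisymm_of (L i), fun x y => total_of (L i) x y⟩
  have ofR : ∀ (X : Type) [PartialOrder X] (d : ℕ),
      (∃ r : Fin d → X → X → Prop,
        (∀ i, (∀ x, r i x x) ∧ (∀ x y z, r i x y → r i y z → r i x z) ∧
          (∀ x y, r i x y → r i y x → x = y) ∧ (∀ x y, r i x y ∨ r i y x)) ∧
        ∀ x y, x ≤ y ↔ ∀ i, r i x y) → Pool.Agent.Results.MP_fd346d_co.Disproof.Realizable X d := by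
    intro X _ d ⟨r, hr, h⟩
    refine ⟨r, fun i => ?_, fun i x y hxy => (h x y).1 hxy i, fun x y hxy => (h x y).2 hxy⟩
    obtain ⟨h1, h2, h3, h4⟩ := hr i
    exact { refl := h1, trans := h2, antisymm := h3, total := h4 }
  have fin : ∀ (X : Type) [PartialOrder X], Pool.Agent.Results.MP_fd346d_co.Disproof.dim X ≠ ⊤ → ∃ m : ℕ, Pool.Agent.Results.MP_fd346d_co.Disproof.dim X = m ∧ Pool.Agent.Results.MP_fd346d_co.Disproof.Realizable X m := by
    intro X _ hX
    by_cases hex : ∃ d, Pool.Agent.Results.MP_fd346d_co.Disproof.Realizable X d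
    · obtain ⟨d, hd⟩ := hex
      exact Pool.Agent.Results.MP_fd346d_co.Disproof.exists_dim_eq hd
    · exfalso
      apply hX
      unfold Pool.Agent.Results.MP_fd346d_co.Disproof.dim
      simp only [iInf_eq_top]
      intro d hd
      exact absurd ⟨d, hd⟩ hex
  have hnb : ∀ (X : Type) [PartialOrder X], Nonempty X → ¬ Pool.Agent.Results.MP_fd346d_co.Disproof.IsBdd X → Nontrivial X := by
    intro X _ hne hX
    by_contra hnt
    rw [not_nontrivial_iff_subsingleton] at hnt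
    obtain ⟨x⟩ := hne
    exact hX ⟨⟨x, fun y => (Subsingleton.elim x y).le⟩, ⟨x, fun y => (Subsingleton.elim y x).le⟩⟩
  have hPQ : ¬ Pool.Agent.Results.MP_fd346d_co.Disproof.IsBdd P ∧ ¬ Pool.Agent.Results.MP_fd346d_co.Disproof.IsBdd Q := by
    unfold Pool.Agent.Results.MP_fd346d_co.Disproof.numUnbdd at hb
    by_cases h1 : Pool.Agent.Results.MP_fd346d_co.Disproof.IsBdd P <;> by_cases h2 : Pool.Agent.Results.MP_fd346d_co.Disproof.IsBdd Q <;> simp [h1, h2] at hb
    exact ⟨h1, h2⟩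
  obtain ⟨p, hp, hp'⟩ := fin P dP
  obtain ⟨q, hq, hq'⟩ := fin Q dQ
  have dPQ : Pool.Agent.Results.MP_fd346d_co.Disproof.dim (P × Q) ≠ ⊤ := by
    intro h
    rw [h, hp, hq] at hlt
    simp at hlt
  obtain ⟨n, hn, hn'⟩ := fin (P × Q) dPQ
  obtain ⟨a, c, hac, hA, hC⟩ := H P Q (hnb P nP hPQ.1) (hnb Q nQ hPQ.2) ⟨p, toR P p hp'⟩
    ⟨q, toR Q q hq'⟩ n (toR (P × Q) n hn')
  have ha := Pool.Agent.Results.MP_fd346d_co.Disproof.dim_le (ofR P a hA)
  have hc := Pool.Agent.Results.MP_fd346d_co.Disproof.dim_le (ofR Q c hC)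
  rw [hp] at ha
  rw [hq] at hc
  rw [hn, hp, hq] at hlt
  have ha' : p ≤ a := by exact_mod_cast ha
  have hc' : q ≤ c := by exact_mod_cast hc
  have hlt' : n + 2 + 0 < p + q := by exact_mod_cast hlt
  have hac2 : a + c ≤ n + 2 := by
    refine hac.trans ?_
    gcongr
    split_ifs <;> omega
  omega
end Pool.Agent.S12606
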