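import Pool.Statements.S12841
-- import your own Pool.Agent.* helpers here
import Pool.Agent.U329.ZS.FIN

set_option autoImplicit false
open Pool Pool.MP_1bae07_gt

namespace Pool.Agent.S12841

/-- There is an absolute constant C such that for every origin-centred zonotope K in ℝ^d and any finitely many vectors in K, some choice of signs puts their signed sum in C√d·K, i.e. vb(K,K) ≤ C√d. -/
theorem result :
    ∃ C : ℝ, 0 < C ∧
      ∀ (d m : ℕ) (v : Fin m → (Fin d → ℝ)) (n : ℕ) (u : Fin n → (Fin d → ℝ)),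
        (∀ i, ∃ t : Fin m → ℝ, (∀ j, t j ∈ Set.Icc (-1 : ℝ) 1) ∧
            u i = ∑ j, t j • v j) →
        ∃ ε : Fin n → ℝ, (∀ i, ε i = 1 ∨ ε i = -1) ∧
          ∃ s : Fin m → ℝ, (∀ j, s j ∈ Set.Icc (-1 : ℝ) 1) ∧
            ∑ i, ε i • u i = (C * Real.sqrt d) • ∑ j, s j • v j := by
  obtain ⟨C, hC0, hC⟩ := Pool.Agent.U329.ZS.full
  refine ⟨C, hC0, ?_⟩
  intro d m v n u hu
  choose f hf hfu using hu
  rcases Nat.eq_zero_or_pos d with h0 | h0
  · subst h0
    exact ⟨fun _ => 1, fun _ => Or.inl rfl, fun _ => 0, fun _ => by simp, Subsingleton.elim _ _⟩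
  obtain ⟨W, hW⟩ : ∃ W : Submodule ℝ (Fin d → ℝ), W = Submodule.span ℝ (Set.range v) := ⟨_, rfl⟩
  have hvW : ∀ j, v j ∈ W := fun j => hW ▸ Submodule.subset_span ⟨j, rfl⟩
  have hspan : Submodule.span ℝ (Set.range fun j => (⟨v j, hvW j⟩ : W)) = ⊤ := by
    apply Submodule.map_injective_of_injective (f := W.subtype) W.subtype_injective
    rw [Submodule.map_span, ← Set.range_comp, Submodule.map_top, Submodule.range_subtype]
    exact hW.symm
  obtain ⟨ε, hε, t, ht, h1⟩ := hC W m (fun j => ⟨v j, hvW j⟩) hspan n f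
    (fun i j => abs_le.2 (hf i j))
  have hdR : (0 : ℝ) < d := by exact_mod_cast h0
  have hCd : 0 < C * Real.sqrt d := mul_pos hC0 (Real.sqrt_pos.2 hdR)
  have hle : ∀ j, |t j| ≤ C * Real.sqrt d := by
    intro j
    refine (ht j).trans (mul_le_mul_of_nonneg_left (Real.sqrt_le_sqrt ?_) hC0.le)
    have := Submodule.finrank_le W
    rw [Module.finrank_fin_fun] at this
    exact_mod_cast this
  refine ⟨ε, hε, fun j => t j / (C * Real.sqrt d), ?_, ?_⟩
  · intro j
    have h2 : |t j / (C * Real.sqrt d)| ≤ 1 := by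
      rw [abs_div, abs_of_pos hCd, div_le_one hCd]
      exact hle j
    exact abs_le.1 h2
  · have h2 := congrArg W.subtype h1
    simp only [map_sum, map_smul, Submodule.subtype_apply] at h2
    simp_rw [hfu]
    rw [h2, Finset.smul_sum]
    refine Finset.sum_congr rfl fun j _ => ?_
    rw [smul_smul, mul_div_cancel₀ _ hCd.ne']

end Pool.Agent.S12841
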