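import Pool.Statements.S12897
-- import your own Pool.Agent.* helpers here

set_option autoImplicit false
open Pool Pool.MP_26524f_gt

namespace Pool.Agent.S12897

/-- The family `𝒰` is a (nontrivial) open `γ`-cover of `X`. -/
def Gam (X : Set ℝ) (𝒰 : Set (Set ℝ)) : Prop :=
  (∀ U ∈ 𝒰, ∃ V : Set ℝ, IsOpen V ∧ U = V ∩ X) ∧ X ∉ 𝒰 ∧
    X ⊆ ⋃₀ 𝒰 ∧ 𝒰.Infinite ∧ ∀ x ∈ X, {U ∈ 𝒰 | x ∉ U}.Finite

/-- The selection property `S_fin(Γ, Ω)` of `X`. -/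
def Sel (X : Set ℝ) : Prop :=
  ∀ 𝒰 : ℕ → Set (Set ℝ), (∀ n, Gam X (𝒰 n)) →
    ∃ ℱ : ℕ → Set (Set ℝ), (∀ n, (ℱ n).Finite ∧ ℱ n ⊆ 𝒰 n) ∧
      X ∉ (⋃ n, ℱ n) ∧ X ⊆ ⋃₀ (⋃ n, ℱ n) ∧
      ∀ F : Finset ℝ, (↑F : Set ℝ) ⊆ X →
        ∃ U ∈ (⋃ n, ℱ n), (↑F : Set ℝ) ⊆ U

/-- Selection on a closed piece: if `X` has `S_fin(Γ, Ω)`, `C` is closed and `X ∩ C ⊆ Y`, then from
`γ`-covers of `Y` one can select finite sets whose union catches every finite subset of `X ∩ C`. -/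
theorem piece (X Y C : Set ℝ) (hX : Sel X) (hC : IsClosed C) (hY : X ∩ C ⊆ Y)
    (𝒰 : ℕ → Set (Set ℝ)) (h𝒰 : ∀ n, Gam Y (𝒰 n)) :
    ∃ ℱ : ℕ → Set (Set ℝ), (∀ n, (ℱ n).Finite ∧ ℱ n ⊆ 𝒰 n) ∧
      ∀ F : Finset ℝ, (↑F : Set ℝ) ⊆ X ∩ C → ∃ U ∈ (⋃ n, ℱ n), (↑F : Set ℝ) ⊆ U := by
  classical
  by_cases hcase : ∃ n, ∃ U ∈ 𝒰 n, X ∩ C ⊆ U
  · obtain ⟨n, U, hU, hXU⟩ := hcase
    refine ⟨fun m => if m = n then {U} else ∅, ?_, ?_⟩
    · intro m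
      by_cases hm : m = n
      · subst hm
        simp [hU]
      · simp [hm]
    · intro F hF
      refine ⟨U, Set.mem_iUnion.2 ⟨n, by simp⟩, hF.trans hXU⟩
  · push Not at hcase
    -- enlarge each member outside `C`
    choose V hVo hVU using fun n => (h𝒰 n).1
    let E : (n : ℕ) → (U : Set ℝ) → Set ℝ := fun n U =>
      if hU : U ∈ 𝒰 n then (V n U hU ∪ Cᶜ) ∩ X else ∅
    have hE : ∀ n U, (hU : U ∈ 𝒰 n) → E n U = (V n U hU ∪ Cᶜ) ∩ X := by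
      intro n U hU
      simp only [E, dif_pos hU]
    have hEC : ∀ n U, U ∈ 𝒰 n → ∀ x ∈ X ∩ C, (x ∈ E n U ↔ x ∈ U) := by
      intro n U hU x hx
      rw [hE n U hU]
      constructor
      · rintro ⟨h1 | h1, _⟩
        · rw [hVU n U hU]
          exact ⟨h1, hY hx⟩
        · exact absurd hx.2 h1
      · intro h1
        rw [hVU n U hU] at h1
        exact ⟨Or.inl h1.1, hx.1⟩
    let 𝒱 : ℕ → Set (Set ℝ) := fun n => E n '' 𝒰 n
    have hfin : ∀ n, ∀ x ∈ X, {W ∈ 𝒱 n | x ∉ W}.Finite := by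
      intro n x hx
      by_cases hxC : x ∈ C
      · have hxY : x ∈ Y := hY ⟨hx, hxC⟩
        refine (((h𝒰 n).2.2.2.2 x hxY).image (E n)).subset ?_
        rintro W ⟨⟨U, hU, rfl⟩, hxW⟩
        refine ⟨U, ⟨hU, ?_⟩, rfl⟩
        intro hxU
        exact hxW ((hEC n U hU x ⟨hx, hxC⟩).2 hxU)
      · have : {W ∈ 𝒱 n | x ∉ W} = ∅ := by
          ext W
          simp only [Set.mem_ofPred_eq, Set.mem_empty_iff_false, iff_false, not_and, not_not]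
          rintro ⟨U, hU, rfl⟩
          rw [hE n U hU]
          exact ⟨Or.inr hxC, hx⟩
        rw [this]
        exact Set.finite_empty
    have hinf : ∀ n, (𝒱 n).Infinite := by
      intro n hf
      have h1 : ∃ W ∈ 𝒱 n, {U ∈ 𝒰 n | E n U = W}.Infinite := by
        by_contra hno
        push Not at hno
        have hcov : 𝒰 n ⊆ ⋃ W ∈ 𝒱 n, {U ∈ 𝒰 n | E n U = W} := by
          intro U hU
          simp only [Set.mem_iUnion]
          exact ⟨E n U, ⟨U, hU, rfl⟩, hU, rfl⟩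
        have hfi : (⋃ W ∈ 𝒱 n, {U ∈ 𝒰 n | E n U = W}).Finite :=
          Set.Finite.biUnion hf (fun W hW => by
            have := hno W hW
            simpa using this)
        exact (h𝒰 n).2.2.2.1 (hfi.subset hcov)
      obtain ⟨W, ⟨U0, hU0, hW0⟩, hWinf⟩ := h1
      refine hcase n U0 hU0 ?_
      intro x hx
      have hfx := (h𝒰 n).2.2.2.2 x (hY hx)
      obtain ⟨U, ⟨hU, hUW⟩, hUx⟩ : ∃ U ∈ {U ∈ 𝒰 n | E n U = W}, U ∉ {U ∈ 𝒰 n | x ∉ U} :=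
        (hWinf.sdiff hfx).nonempty
      have hxU : x ∈ U := by
        by_contra hcon
        exact hUx ⟨hU, hcon⟩
      have h2 : x ∈ E n U0 := by
        rw [hW0, ← hUW]
        exact (hEC n U hU x hx).2 hxU
      exact (hEC n U0 hU0 x hx).1 h2
    have hG : ∀ n, Gam X (𝒱 n) := by
      intro n
      refine ⟨?_, ?_, ?_, hinf n, hfin n⟩
      · rintro W ⟨U, hU, rfl⟩
        exact ⟨V n U hU ∪ Cᶜ, (hVo n U hU).union hC.isOpen_compl, hE n U hU⟩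
      · rintro ⟨U, hU, hUX⟩
        refine hcase n U hU ?_
        intro x hx
        exact (hEC n U hU x hx).1 (by rw [hUX]; exact hx.1)
      · intro x hx
        obtain ⟨W, hW, hWx⟩ := ((hinf n).sdiff (hfin n x hx)).nonempty
        refine ⟨W, hW, ?_⟩
        by_contra hcon
        exact hWx ⟨hW, hcon⟩
    obtain ⟨𝒢, h𝒢, -, -, hω⟩ := hX 𝒱 hG
    -- pull the selected members back
    have hpre : ∀ n W, W ∈ 𝒱 n → ∃ U ∈ 𝒰 n, E n U = W := fun n W hW => hW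
    let R : ℕ → Set ℝ → Set ℝ := fun n W => if h : W ∈ 𝒱 n then (hpre n W h).choose else ∅
    have hR : ∀ n W, W ∈ 𝒱 n → R n W ∈ 𝒰 n ∧ E n (R n W) = W := by
      intro n W hW
      simp only [R, dif_pos hW]
      exact (hpre n W hW).choose_spec
    refine ⟨fun n => R n '' 𝒢 n, ?_, ?_⟩
    · intro n
      refine ⟨(h𝒢 n).1.image _, ?_⟩
      rintro U ⟨W, hW, rfl⟩
      exact (hR n W ((h𝒢 n).2 hW)).1
    · intro F hF
      obtain ⟨W, hW, hFW⟩ := hω F (fun x hx => (hF hx).1)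
      obtain ⟨n, hn⟩ := Set.mem_iUnion.1 hW
      have hWV := (h𝒢 n).2 hn
      refine ⟨R n W, Set.mem_iUnion.2 ⟨n, ⟨W, hn, rfl⟩⟩, ?_⟩
      intro x hx
      have h3 : x ∈ E n (R n W) := by
        rw [(hR n W hWV).2]
        exact hFW hx
      exact (hEC n (R n W) (hR n W hWV).1 x (hF hx)).1 h3

theorem sel_fsigma (X Y : Set ℝ)
    (hK : ∃ K : ℕ → Set ℝ, (∀ n, IsClosed (K n)) ∧ Y = X ∩ (⋃ n, K n)) (hX : Sel X) : Sel Y := by
  classical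
  obtain ⟨K, hKc, rfl⟩ := hK
  intro 𝒰 h𝒰
  let C : ℕ → Set ℝ := fun k => ⋃ i ∈ Finset.range (k + 1), K i
  have hC : ∀ k, IsClosed (C k) := fun k =>
    Set.Finite.isClosed_biUnion (Finset.finite_toSet _) (fun i _ => hKc i)
  have hCsub : ∀ k, X ∩ C k ⊆ X ∩ ⋃ n, K n := by
    rintro k x ⟨hx, hxC⟩
    refine ⟨hx, ?_⟩
    simp only [C, Set.mem_iUnion] at hxC
    obtain ⟨i, _, hi⟩ := hxC
    exact Set.mem_iUnion.2 ⟨i, hi⟩
  choose ℱ hℱ1 hℱ2 using fun k =>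
    piece X (X ∩ ⋃ n, K n) (C k) hX (hC k) (hCsub k) (fun n => 𝒰 (Nat.pair k n))
      (fun n => h𝒰 _)
  have hsub : ∀ m, ℱ (Nat.unpair m).1 (Nat.unpair m).2 ⊆ 𝒰 m := by
    intro m
    have := (hℱ1 (Nat.unpair m).1 (Nat.unpair m).2).2
    rwa [Nat.pair_unpair] at this
  have hcatch : ∀ F : Finset ℝ, (↑F : Set ℝ) ⊆ X ∩ ⋃ n, K n →
      ∃ U ∈ (⋃ m, ℱ (Nat.unpair m).1 (Nat.unpair m).2), (↑F : Set ℝ) ⊆ U := by
    intro F hF
    have hk : ∃ k, (↑F : Set ℝ) ⊆ X ∩ C k := by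
      have : ∀ x ∈ F, ∃ i, x ∈ K i := fun x hx => Set.mem_iUnion.1 (hF hx).2
      choose! i hi using this
      refine ⟨F.sup i, fun x hx => ⟨(hF hx).1, ?_⟩⟩
      simp only [C, Set.mem_iUnion]
      refine ⟨i x, ?_, hi x hx⟩
      rw [Finset.mem_range]
      exact Nat.lt_succ_of_le (Finset.le_sup hx)
    obtain ⟨k, hk⟩ := hk
    obtain ⟨U, hU, hFU⟩ := hℱ2 k F hk
    obtain ⟨n, hn⟩ := Set.mem_iUnion.1 hU
    refine ⟨U, Set.mem_iUnion.2 ⟨Nat.pair k n, ?_⟩, hFU⟩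
    rw [Nat.unpair_pair]
    exact hn
  refine ⟨fun m => ℱ (Nat.unpair m).1 (Nat.unpair m).2,
    fun m => ⟨(hℱ1 _ _).1, hsub m⟩, ?_, ?_, hcatch⟩
  · intro hmem
    obtain ⟨m, hm⟩ := Set.mem_iUnion.1 hmem
    exact (h𝒰 m).2.1 (hsub m hm)
  · intro x hx
    obtain ⟨U, hU, hxU⟩ := hcatch {x} (by simpa using hx)
    exact ⟨U, hU, by simpa using hxU⟩

/-- If a set of reals has the property that from any sequence of open γ-covers one can pick finitely many sets from each so that together they form an open ω-cover, then every F_σ subset (relative to the set) has the same property. -/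
theorem result :
    ∀ P : Set ℝ → Prop,
      (∀ X : Set ℝ, P X ↔
        ∀ 𝒰 : ℕ → Set (Set ℝ),
          (∀ n, (∀ U ∈ 𝒰 n, ∃ V : Set ℝ, IsOpen V ∧ U = V ∩ X) ∧ X ∉ 𝒰 n ∧
              X ⊆ ⋃₀ (𝒰 n) ∧ (𝒰 n).Infinite ∧
              ∀ x ∈ X, {U ∈ 𝒰 n | x ∉ U}.Finite) →
          ∃ ℱ : ℕ → Set (Set ℝ), (∀ n, (ℱ n).Finite ∧ ℱ n ⊆ 𝒰 n) ∧
            X ∉ (⋃ n, ℱ n) ∧ X ⊆ ⋃₀ (⋃ n, ℱ n) ∧
            ∀ F : Finset ℝ, (↑F : Set ℝ) ⊆ X →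
              ∃ U ∈ (⋃ n, ℱ n), (↑F : Set ℝ) ⊆ U) →
      ∀ X Y : Set ℝ,
        (∃ K : ℕ → Set ℝ, (∀ n, IsClosed (K n)) ∧ Y = X ∩ (⋃ n, K n)) →
        P X → P Y := by
  intro P hP X Y hK hX
  rw [hP] at hX ⊢
  exact sel_fsigma X Y hK hX

end Pool.Agent.S12897
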