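import Pool.Statements.S12905
import Pool.Agent.U327.Illum

/-!
Full positive answer to Q1 of MP_26bcd4_gt, with the explicit bound `N = 77`.

Idea.  Write `x ~ a` if `x` and `a` lie in a common supporting plane of `K`, i.e. if the segment
`[x, a]` lies in the boundary.  For a primitive inner illuminating set `A` and `a ∈ A` there is a
boundary point `x_a` with `x_a ~ b` for all `b ∈ A`, `b ≠ a`, but not `x_a ~ a` (a crown).
The key lemma on six points (`Illum.six_points`), proved with a continuous median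
function on the circle of affine dependences, says that if `x_i ~ a_j` for all `i, j ≤ 3` then some
supporting plane contains two of the `x_i` and two of the `a_j`.  Together with pigeonhole
arguments in supporting planes this bounds the size of a crown.
-/

set_option autoImplicit false
open Pool Pool.MP_26bcd4_gt

namespace Pool.Agent.S12905

open Pool.Agent.U327.Illum

/-- A boundary point and a point of `K` whose open segment misses the interior lie in a common
supporting plane. -/
theorem exists_sup {K : Set (EuclideanSpace ℝ (Fin 3))} (hKc : Convex ℝ K)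
    (hKi : (interior K).Nonempty) {x b : EuclideanSpace ℝ (Fin 3)} (hx : x ∈ K) (hb : b ∈ K)
    (h : (1 - (1 / 2 : ℝ)) • x + (1 / 2 : ℝ) • b ∉ interior K) :
    ∃ f : EuclideanSpace ℝ (Fin 3) →ₗ[ℝ] ℝ, f ≠ 0 ∧ Sup K f x ∧ Sup K f b := by
  obtain ⟨f, hf⟩ := geometric_hahn_banach_open_point hKc.interior isOpen_interior h
  have hcl : K ⊆ closure (interior K) := by
    rw [hKc.closure_interior_eq_closure_of_nonempty_interior hKi]
    exact subset_closure
  have hle : ∀ z ∈ K, f z ≤ f ((1 - (1 / 2 : ℝ)) • x + (1 / 2 : ℝ) • b) := by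
    intro z hz
    have hclosed : IsClosed {z | f z ≤ f ((1 - (1 / 2 : ℝ)) • x + (1 / 2 : ℝ) • b)} :=
      isClosed_le f.continuous continuous_const
    exact closure_minimal (fun w hw => (hf w hw).le) hclosed (hcl hz)
  have hxm := hle x hx
  have hbm := hle b hb
  have hm : f ((1 - (1 / 2 : ℝ)) • x + (1 / 2 : ℝ) • b) = 1 / 2 * f x + 1 / 2 * f b := by
    simp only [map_add, map_smul, smul_eq_mul]
    ring
  have e1 : f x = f ((1 - (1 / 2 : ℝ)) • x + (1 / 2 : ℝ) • b) := by linarith
  have e2 : f b = f ((1 - (1 / 2 : ℝ)) • x + (1 / 2 : ℝ) • b) := by linarith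
  refine ⟨f.toLinearMap, ?_, ?_, ?_⟩
  · intro h0
    obtain ⟨z, hz⟩ := hKi
    have h1 := hf z hz
    have h2 : ∀ w, f w = 0 := fun w => by
      have := LinearMap.congr_fun h0 w
      simpa using this
    rw [h2, h2] at h1
    exact lt_irrefl _ h1
  · intro z hz
    have := hle z hz
    simp only [ContinuousLinearMap.coe_coe]
    linarith
  · intro z hz
    have := hle z hz
    simp only [ContinuousLinearMap.coe_coe]
    linarith

/-- Two points in a common supporting plane do not illuminate each other. -/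
theorem not_interior {K : Set (EuclideanSpace ℝ (Fin 3))} {x a : EuclideanSpace ℝ (Fin 3)}
    (hx : x ∈ K) (ha : a ∈ K)
    {f : EuclideanSpace ℝ (Fin 3) →ₗ[ℝ] ℝ} (hf : f ≠ 0) (h1 : Sup K f x) (h2 : Sup K f a) (ε : ℝ) :
    (1 - ε) • x + ε • a ∉ interior K := by
  intro hint
  set p := (1 - ε) • x + ε • a with hp
  have hfp : f p = f x := by
    rw [hp, map_add, map_smul, map_smul, ← h1.eq hx ha h2, smul_eq_mul, smul_eq_mul]
    ring
  obtain ⟨u, hu⟩ : ∃ u, 0 < f u := by
    by_contra hcon
    push Not at hcon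
    apply hf
    ext w
    have e1 := hcon w
    have e2 := hcon (-w)
    rw [map_neg] at e2
    simp only [LinearMap.zero_apply]
    linarith
  have hcont : Filter.Tendsto (fun t : ℝ => p + t • u) (nhdsWithin 0 (Set.Ioi 0)) (nhds p) := by
    have : Continuous (fun t : ℝ => p + t • u) := by fun_prop
    have h0 := this.tendsto 0
    simp only [zero_smul, add_zero] at h0
    exact h0.mono_left nhdsWithin_le_nhds
  have hev := hcont.eventually (mem_interior_iff_mem_nhds.1 hint)
  obtain ⟨t, ht, ht0⟩ := (hev.and self_mem_nhdsWithin).exists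
  have h3 := h1 _ ht
  rw [map_add, map_smul, smul_eq_mul, hfp] at h3
  have : 0 < t * f u := mul_pos ht0 hu
  linarith

/-- There is a natural number N such that for every compact convex set with nonempty interior in 3-space, every primitive inner illuminating set of it (a boundary subset illuminating from inside, no proper subset of which does) has at most N elements. -/
theorem result :
    ∃ N : ℕ, ∀ K : Set (EuclideanSpace ℝ (Fin 3)),
      IsCompact K → Convex ℝ K → (interior K).Nonempty →
      ∀ A : Set (EuclideanSpace ℝ (Fin 3)),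
        (A ⊆ frontier K ∧
          ∀ x ∈ frontier K, ∃ a ∈ A, ∃ ε : ℝ, 0 < ε ∧ ε < 1 ∧
            (1 - ε) • x + ε • a ∈ interior K) →
        (∀ B : Set (EuclideanSpace ℝ (Fin 3)), B ⊆ A → B ≠ A →
          ¬ (B ⊆ frontier K ∧
            ∀ x ∈ frontier K, ∃ b ∈ B, ∃ ε : ℝ, 0 < ε ∧ ε < 1 ∧
              (1 - ε) • x + ε • b ∈ interior K)) →
        A.encard ≤ (N : ℕ∞) := by
  refine ⟨77, fun K hK hKc hKi A hA hprim => ?_⟩
  by_contra hcon
  push Not at hcon
  have h78 : ((78 : ℕ) : ℕ∞) ≤ A.encard := by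
    have := Order.add_one_le_of_lt hcon
    exact_mod_cast this
  obtain ⟨t, htA, ht78⟩ := Set.exists_subset_encard_eq h78
  have htfin : t.Finite := Set.finite_of_encard_eq_coe ht78
  have hfrK : frontier K ⊆ K := hK.isClosed.frontier_subset
  have hex : ∀ a ∈ A, ∃ x ∈ frontier K, (∀ b ∈ A, b ≠ a → ∀ ε : ℝ, 0 < ε → ε < 1 →
      (1 - ε) • x + ε • b ∉ interior K) ∧ ∃ ε : ℝ, 0 < ε ∧ ε < 1 ∧
      (1 - ε) • x + ε • a ∈ interior K := by
    intro a ha
    have h1 := hprim (A \ {a}) Set.sdiff_subset (by
      intro hh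
      have : a ∈ A \ {a} := by rw [hh]; exact ha
      exact this.2 rfl)
    have h2 : ¬ ∀ x ∈ frontier K, ∃ b ∈ A \ {a}, ∃ ε : ℝ, 0 < ε ∧ ε < 1 ∧
        (1 - ε) • x + ε • b ∈ interior K := fun h =>
      h1 ⟨Set.sdiff_subset.trans hA.1, h⟩
    push Not at h2
    obtain ⟨x, hx, hxb⟩ := h2
    refine ⟨x, hx, fun b hb hba ε h0 h1 => hxb b ⟨hb, hba⟩ ε h0 h1, ?_⟩
    obtain ⟨b, hb, ε, h0, h1', hint⟩ := hA.2 x hx
    by_cases hba : b = a
    · rw [hba] at hint
      exact ⟨ε, h0, h1', hint⟩
    · exact absurd hint (hxb b ⟨hb, hba⟩ ε h0 h1')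
  choose! X hX1 hX2 hX3 using hex
  have : Fintype t := htfin.fintype
  classical
  have crown : Crown K (fun i : t => X i) (fun i : t => (i : EuclideanSpace ℝ (Fin 3))) := by
    refine ⟨fun i => hfrK (hX1 _ (htA i.2)), fun i => hfrK (hA.1 (htA i.2)), ?_, ?_⟩
    · intro i j hij
      exact exists_sup hKc hKi (hfrK (hX1 _ (htA i.2))) (hfrK (hA.1 (htA j.2)))
        (hX2 _ (htA i.2) _ (htA j.2) (fun hh => hij (Subtype.ext hh.symm)) (1 / 2)
          (by norm_num) (by norm_num))
    · intro i f hf h1 h2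
      obtain ⟨ε, -, -, hint⟩ := hX3 _ (htA i.2)
      exact not_interior (hfrK (hX1 _ (htA i.2))) (hfrK (hA.1 (htA i.2))) hf h1 h2 ε hint
  have hle := crown.card_le (by simp)
  have hc : Fintype.card t = 78 := by
    have h1 : t.encard = (Fintype.card t : ℕ∞) := by
      rw [Set.encard_eq_coe_toFinset_card, Set.toFinset_card]
    rw [h1] at ht78
    exact_mod_cast ht78
  omega

end Pool.Agent.S12905
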