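import Pool.Statements.S12948
import Pool.Agent.Results.MP_2c1b2b_gt.LinearSegments

set_option autoImplicit false
open Pointwise
open Pool Pool.MP_2c1b2b_gt

namespace Pool.Agent.S12948

open Pool.Agent.Results.MP_2c1b2b_gt.LinearSegments in
theorem sum_eq {n m : ℕ} (v : Fin m → EuclideanSpace ℝ (Fin n)) :
    (∑ i, segment ℝ (-v i) (v i)) = segSum v := by
  ext x
  rw [Set.mem_fintype_sum]
  constructor
  · rintro ⟨g, hg, rfl⟩
    have h : ∀ i, ∃ t : ℝ, t ∈ Set.Icc (-1 : ℝ) 1 ∧ g i = t • v i := by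
      intro i
      obtain ⟨a, b, ha, hb, hab, h⟩ := hg i
      refine ⟨b - a, ⟨by linarith, by linarith⟩, ?_⟩
      rw [← h, sub_smul, smul_neg]
      abel
    choose t ht hgt using h
    exact ⟨t, ht, Finset.sum_congr rfl fun i _ => hgt i⟩
  · rintro ⟨t, ht, rfl⟩
    refine ⟨fun i => t i • v i, fun i => ?_, rfl⟩
    refine ⟨(1 - t i) / 2, (1 + t i) / 2, by linarith [(ht i).2], by linarith [(ht i).1],
      by ring, ?_⟩
    rw [smul_neg, ← sub_eq_neg_add, ← sub_smul]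
    congr 1
    ring

open Pool.Agent.Results.MP_2c1b2b_gt.LinearSegments in
theorem seg_convex {n m : ℕ} (v : Fin m → EuclideanSpace ℝ (Fin n)) :
    Convex ℝ (segSum v) := by
  rintro x ⟨s, hs, rfl⟩ y ⟨t, ht, rfl⟩ a b ha hb hab
  refine ⟨fun j => a * s j + b * t j, fun j => ?_, ?_⟩
  · have h1 := hs j
    have h2 := ht j
    exact ⟨by nlinarith [h1.1, h2.1], by nlinarith [h1.2, h2.2]⟩
  · simp only [add_smul, mul_smul, Finset.sum_add_distrib, Finset.smul_sum]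

open Pool.Agent.Results.MP_2c1b2b_gt.LinearSegments in
theorem seg_neg {n m : ℕ} (v : Fin m → EuclideanSpace ℝ (Fin n)) (x : EuclideanSpace ℝ (Fin n))
    (hx : x ∈ segSum v) : -x ∈ segSum v := by
  obtain ⟨s, hs, rfl⟩ := hx
  refine ⟨fun j => - s j, fun j => ⟨by linarith [(hs j).2], by linarith [(hs j).1]⟩, ?_⟩
  simp

open Pool.Agent.Results.MP_2c1b2b_gt.LinearSegments in
theorem seg_bdd {n m : ℕ} (v : Fin m → EuclideanSpace ℝ (Fin n)) :
    Bornology.IsBounded (segSum v) := by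
  rw [isBounded_iff_forall_norm_le]
  refine ⟨∑ j, ‖v j‖, ?_⟩
  rintro _ ⟨s, hs, rfl⟩
  refine (norm_sum_le _ _).trans (Finset.sum_le_sum fun j _ => ?_)
  rw [norm_smul]
  have h : ‖s j‖ ≤ 1 := by
    rw [Real.norm_eq_abs, abs_le]
    exact ⟨(hs j).1, (hs j).2⟩
  nlinarith [norm_nonneg (v j)]

open Pool.Agent.Results.MP_2c1b2b_gt.LinearSegments in
theorem seg_zero {n m : ℕ} (v : Fin m → EuclideanSpace ℝ (Fin n)) :
    (0 : EuclideanSpace ℝ (Fin n)) ∈ segSum v :=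
  ⟨fun _ => 0, fun _ => ⟨by norm_num, by norm_num⟩, by simp⟩

open Pool.Agent.Results.MP_2c1b2b_gt.LinearSegments in
theorem zonoid {n : ℕ} (K : Set (EuclideanSpace ℝ (Fin n))) (hK : IsCompact K)
    (hi : (interior K).Nonempty)
    (hlim : ∀ δ : ℝ, 0 < δ → ∃ m : ℕ, ∃ v : Fin m → EuclideanSpace ℝ (Fin n),
          Metric.hausdorffDist K (∑ i, segment ℝ (-v i) (v i)) < δ) : IsZonoid K := by
  have hne : K.Nonempty := hi.mono interior_subset
  have htop : ∀ {m : ℕ} (v : Fin m → EuclideanSpace ℝ (Fin n)),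
      Metric.hausdorffEDist K (segSum v) ≠ ⊤ := fun v =>
    Metric.hausdorffEDist_ne_top_of_nonempty_of_bounded hne ⟨0, seg_zero v⟩ hK.isBounded (seg_bdd v)
  refine ⟨?_, hK, hi, ?_, ?_⟩
  · intro x hx y hy a b ha hb hab
    rw [← hK.isClosed.closure_eq, Metric.mem_closure_iff]
    intro δ hδ
    obtain ⟨m, v, hv⟩ := hlim (δ / 2) (by linarith)
    rw [sum_eq] at hv
    obtain ⟨x', hx', hxx⟩ := Metric.exists_dist_lt_of_hausdorffDist_lt hx hv (htop v)
    obtain ⟨y', hy', hyy⟩ := Metric.exists_dist_lt_of_hausdorffDist_lt hy hv (htop v)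
    obtain ⟨z, hz, hzz⟩ := Metric.exists_dist_lt_of_hausdorffDist_lt'
      (seg_convex v hx' hy' ha hb hab) hv (htop v)
    refine ⟨z, hz, ?_⟩
    have h1 : dist (a • x + b • y) (a • x' + b • y') ≤ a * dist x x' + b * dist y y' := by
      refine (dist_add_add_le _ _ _ _).trans ?_
      rw [dist_smul₀, dist_smul₀, Real.norm_of_nonneg ha, Real.norm_of_nonneg hb]
    have h2 : a * dist x x' + b * dist y y' ≤ δ / 2 := by
      have e1 := mul_le_mul_of_nonneg_left hxx.le ha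
      have e2 := mul_le_mul_of_nonneg_left hyy.le hb
      have e3 : a * (δ / 2) + b * (δ / 2) = δ / 2 := by rw [← add_mul, hab, one_mul]
      linarith
    have h3 := dist_triangle (a • x + b • y) (a • x' + b • y') z
    rw [dist_comm (a • x' + b • y') z] at h3
    linarith
  · intro x hx
    rw [← hK.isClosed.closure_eq, Metric.mem_closure_iff]
    intro δ hδ
    obtain ⟨m, v, hv⟩ := hlim (δ / 2) (by linarith)
    rw [sum_eq] at hv
    obtain ⟨x', hx', hxx⟩ := Metric.exists_dist_lt_of_hausdorffDist_lt hx hv (htop v)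
    obtain ⟨z, hz, hzz⟩ := Metric.exists_dist_lt_of_hausdorffDist_lt'
      (seg_neg v x' hx') hv (htop v)
    refine ⟨z, hz, ?_⟩
    have h3 := dist_triangle (-x) (-x') z
    rw [dist_neg_neg, dist_comm (-x') z] at h3
    linarith
  · intro δ hδ
    obtain ⟨m, v, hv⟩ := hlim δ hδ
    rw [sum_eq] at hv
    exact ⟨m, segSum v, ⟨0, v, by simp⟩, hv⟩

/-- The negation of the preceding statement: For some ε>0 and every constant C, there is a dimension n and a zonoid K in ℝⁿ that is not within Banach–Mazur distance 1+ε of any sum of at most C·n segments, i.e. the bound C(ε)·n fails in general. -/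
theorem result :
    ¬ (∃ ε : ℝ, 0 < ε ∧ ∀ C : ℝ, ∃ n : ℕ, ∃ K : Set (EuclideanSpace ℝ (Fin n)),
      IsCompact K ∧ (interior K).Nonempty ∧
      (∀ δ : ℝ, 0 < δ → ∃ m : ℕ, ∃ v : Fin m → EuclideanSpace ℝ (Fin n),
          Metric.hausdorffDist K (∑ i, segment ℝ (-v i) (v i)) < δ) ∧
      ¬ ∃ m : ℕ, (m : ℝ) ≤ C * n ∧
          ∃ v : Fin m → EuclideanSpace ℝ (Fin n),
          ∃ T : EuclideanSpace ℝ (Fin n) ≃ₗ[ℝ] EuclideanSpace ℝ (Fin n),
            T '' K ⊆ ∑ i, segment ℝ (-v i) (v i) ∧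
            ∑ i, segment ℝ (-v i) (v i) ⊆ (1 + ε) • (T '' K)) := by
  rintro ⟨ε, hε, h⟩
  obtain ⟨C, hC, hres⟩ := Pool.Agent.Results.MP_2c1b2b_gt.LinearSegments.result
  obtain ⟨e, he⟩ : ∃ e : ℝ, e = min ε (1 / 2) := ⟨_, rfl⟩
  have he0 : 0 < e := by rw [he]; exact lt_min hε (by norm_num)
  have he1 : e < 1 := by rw [he]; exact (min_le_right _ _).trans_lt (by norm_num)
  have hee : e ≤ ε := by rw [he]; exact min_le_left _ _
  obtain ⟨n, K, hK, hi, hlim, hno⟩ := h (C / e ^ 2)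
  have hZ := zonoid K hK hi hlim
  obtain ⟨-, M, v, hM, hvK, hKv⟩ := hres n K hZ e he0 he1
  apply hno
  refine ⟨M, hM, v, LinearEquiv.smulOfNeZero ℝ _ (1 + ε)⁻¹ (by positivity), ?_, ?_⟩
  · rw [sum_eq]
    rintro _ ⟨x, hx, rfl⟩
    obtain ⟨y, hy, rfl⟩ := hKv hx
    have h1 : (LinearEquiv.smulOfNeZero ℝ (EuclideanSpace ℝ (Fin n)) (1 + ε)⁻¹ (by positivity))
        ((1 + e) • y) = ((1 + ε)⁻¹ * (1 + e)) • y := by
      rw [← smul_smul]
      rfl
    rw [h1]
    have h2 : 0 ≤ (1 + ε)⁻¹ * (1 + e) := by positivity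
    have h3 : (1 + ε)⁻¹ * (1 + e) ≤ 1 := by
      rw [inv_mul_le_iff₀ (by linarith)]
      linarith
    have h4 := seg_convex v hy (seg_zero v) h2 (sub_nonneg.2 h3) (by ring)
    simpa using h4
  · rw [sum_eq]
    intro x hx
    refine ⟨(1 + ε)⁻¹ • x, ⟨x, hvK hx, by simp⟩, ?_⟩
    simp only
    rw [smul_smul, mul_inv_cancel₀ (by linarith), one_smul]

end Pool.Agent.S12948
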