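import Pool.Statements.S13092
import Pool.Agent.U324.HT.Alg
import Pool.Agent.U324.HT.NoUnit

set_option autoImplicit false
set_option linter.unusedSimpArgs false
set_option linter.unusedVariables false
open LaurentPolynomial
open scoped Matrix
open Pool Pool.MP_436001_gt

namespace Pool.Agent.S13092

open Pool.Agent.U324.HT

theorem hts : (T 1 : LaurentPolynomial ℤ) * T (-1) = 1 := by
  rw [← T_add]; simp

/-- Substituting the inverse of t. -/
noncomputable def sig : LaurentPolynomial ℤ →+* LaurentPolynomial ℤ :=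
  (invert (R := ℤ)).toAlgHom.toRingHom

theorem sig_apply (f : LaurentPolynomial ℤ) : sig f = invert f := rfl

theorem sig_T (n : ℤ) : sig (T n) = T (-n) := by
  rw [sig_apply, invert_T]

/-- Setting t = 1. -/
noncomputable def eps : LaurentPolynomial ℤ →+* ℤ := LaurentPolynomial.eval₂ (RingHom.id ℤ) 1

theorem eps_T (n : ℤ) : eps (T n) = 1 := by
  rw [eps, eval₂_T]; simp

theorem map_L4 {S : Type*} [CommRing S] (f : LaurentPolynomial ℤ →+* S)
    (t s : LaurentPolynomial ℤ) : (L4 t s).map f = L4 (f t) (f s) := by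
  have h2 : f 2 = 2 := map_ofNat f 2
  have h3 : f 3 = 3 := map_ofNat f 3
  have h4 : f 4 = 4 := map_ofNat f 4
  have h5 : f 5 = 5 := map_ofNat f 5
  have h6 : f 6 = 6 := map_ofNat f 6
  have h7 : f 7 = 7 := map_ofNat f 7
  have h8 : f 8 = 8 := map_ofNat f 8
  have h9 : f 9 = 9 := map_ofNat f 9
  have h10 : f 10 = 10 := map_ofNat f 10
  have h11 : f 11 = 11 := map_ofNat f 11
  have h12 : f 12 = 12 := map_ofNat f 12
  have h13 : f 13 = 13 := map_ofNat f 13
  ext i j
  fin_cases i <;> fin_cases j <;> simp [L4, h2, h3, h4, h5, h6, h7, h8, h9, h10, h11, h12, h13]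

theorem L4_swap (t s : LaurentPolynomial ℤ) : (L4 s t)ᵀ = L4 t s := by
  ext i j
  fin_cases i <;> fin_cases j <;> simp [L4] <;> ring

theorem map_A6 (f : LaurentPolynomial ℤ →+* LaurentPolynomial ℤ)
    (t s : LaurentPolynomial ℤ) : (A6 t s).map f = A6 (f t) (f s) := by
  have h2 : f 2 = 2 := map_ofNat f 2
  have h3 : f 3 = 3 := map_ofNat f 3
  have h4 : f 4 = 4 := map_ofNat f 4
  have h5 : f 5 = 5 := map_ofNat f 5
  have h6 : f 6 = 6 := map_ofNat f 6
  have h7 : f 7 = 7 := map_ofNat f 7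
  have h8 : f 8 = 8 := map_ofNat f 8
  have h9 : f 9 = 9 := map_ofNat f 9
  have h10 : f 10 = 10 := map_ofNat f 10
  have h11 : f 11 = 11 := map_ofNat f 11
  have h12 : f 12 = 12 := map_ofNat f 12
  have h13 : f 13 = 13 := map_ofNat f 13
  ext i j
  fin_cases i <;> fin_cases j <;>
    simp only [A6, Matrix.map_apply, Matrix.of_apply, Matrix.cons_val, Fin.zero_eta, Fin.mk_one,
      Fin.reduceFinMk, Fin.isValue, map_add, map_sub, map_mul, map_neg, map_pow, map_one, map_zero, h2, h3, h4, h5, h6, h7, h8, h9, h10, h11, h12, h13]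

/-- The index equivalence. -/
def e6 : Fin 4 ⊕ Fin 2 × Fin 1 ≃ Fin 6 :=
  (Equiv.sumCongr (Equiv.refl _) (Equiv.prodUnique (Fin 2) (Fin 1))).trans finSumFinEquiv

/-- The same index equivalence, for the index 0 + 1. -/
def e6' : Fin 4 ⊕ Fin 2 × Fin (0 + 1) ≃ Fin 6 := e6

/-- The index equivalence with no hyperbolic part. -/
def e4 : Fin 4 ⊕ Fin 2 × Fin 0 ≃ Fin 4 := Equiv.sumEmpty _ _

/-- The negation of the preceding statement: Suppose a nondegenerate Hermitian Laurent-polynomial form L has boundary linking form isometric to that of H2^g, L at t=1 equals Q plus 2g zeros, and L plus n H2's ≅ Q plus (g+n) H2's. Then L ≅ Q ⊕ H2^g. -/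
theorem result :
    ¬ (∀ (σ : LaurentPolynomial ℤ →+* LaurentPolynomial ℤ) (ε : LaurentPolynomial ℤ →+* ℤ),
      σ (T 1) = T (-1) → ε (T 1) = 1 →
      ∀ (H2 : Matrix (Fin 2) (Fin 2) (LaurentPolynomial ℤ)),
        H2 = !![0, T 1 - 1; T (-1) - 1, 0] →
      ∀ (k : ℕ) (Q : Matrix (Fin k) (Fin k) ℤ), Qᵀ = Q → IsUnit Q.det →
      ∀ (g r : ℕ) (L : Matrix (Fin r) (Fin r) (LaurentPolynomial ℤ)),
        (L.map σ)ᵀ = L → L.det ≠ 0 →
        (∃ (P Q1 : Matrix (Fin 2 × Fin g) (Fin r) (LaurentPolynomial ℤ))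
            (P' Q2 : Matrix (Fin r) (Fin 2 × Fin g) (LaurentPolynomial ℤ))
            (S1 M : Matrix (Fin r) (Fin r) (LaurentPolynomial ℤ))
            (S2 : Matrix (Fin 2 × Fin g) (Fin 2 × Fin g) (LaurentPolynomial ℤ)),
            P * L = Matrix.blockDiagonal (fun _ : Fin g => H2) * Q1 ∧
            P' * Matrix.blockDiagonal (fun _ : Fin g => H2) = L * Q2 ∧
            P' * P = 1 + L * S1 ∧
            P * P' = 1 + Matrix.blockDiagonal (fun _ : Fin g => H2) * S2 ∧
            (L.map (algebraMap (LaurentPolynomial ℤ) (FractionRing (LaurentPolynomial ℤ))))⁻¹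
              - ((P.map σ)ᵀ).map (algebraMap (LaurentPolynomial ℤ) (FractionRing (LaurentPolynomial ℤ)))
                * ((Matrix.blockDiagonal (fun _ : Fin g => H2)).map
                    (algebraMap (LaurentPolynomial ℤ) (FractionRing (LaurentPolynomial ℤ))))⁻¹
                * P.map (algebraMap (LaurentPolynomial ℤ) (FractionRing (LaurentPolynomial ℤ)))
              = M.map (algebraMap (LaurentPolynomial ℤ) (FractionRing (LaurentPolynomial ℤ)))) →
        (∃ (P : Matrix (Fin r) (Fin k ⊕ Fin 2 × Fin g) ℤ)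
            (P' : Matrix (Fin k ⊕ Fin 2 × Fin g) (Fin r) ℤ),
            P * P' = 1 ∧ P' * P = 1 ∧
            Pᵀ * L.map ε * P = Matrix.fromBlocks Q 0 0 0) →
        (∃ (n : ℕ) (P : Matrix (Fin r ⊕ Fin 2 × Fin n) (Fin k ⊕ Fin 2 × Fin (g + n)) (LaurentPolynomial ℤ))
            (P' : Matrix (Fin k ⊕ Fin 2 × Fin (g + n)) (Fin r ⊕ Fin 2 × Fin n) (LaurentPolynomial ℤ)),
            P * P' = 1 ∧ P' * P = 1 ∧
            (P.map σ)ᵀ * Matrix.fromBlocks L 0 0 (Matrix.blockDiagonal (fun _ : Fin n => H2)) * P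
              = Matrix.fromBlocks (Q.map (Int.castRingHom (LaurentPolynomial ℤ))) 0 0
                  (Matrix.blockDiagonal (fun _ : Fin (g + n) => H2))) →
        ∃ (P : Matrix (Fin r) (Fin k ⊕ Fin 2 × Fin g) (LaurentPolynomial ℤ))
          (P' : Matrix (Fin k ⊕ Fin 2 × Fin g) (Fin r) (LaurentPolynomial ℤ)),
          P * P' = 1 ∧ P' * P = 1 ∧
          (P.map σ)ᵀ * L * P
            = Matrix.fromBlocks (Q.map (Int.castRingHom (LaurentPolynomial ℤ))) 0 0
                (Matrix.blockDiagonal (fun _ : Fin g => H2))) := by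
  intro H
  classical
  have hL : ((L4 (T 1 : LaurentPolynomial ℤ) (T (-1))).map sig)ᵀ = L4 (T 1) (T (-1)) := by
    rw [map_L4, sig_T, sig_T, neg_neg, L4_swap]
  have hLi : L4 (T 1 : LaurentPolynomial ℤ) (T (-1)) * L4inv (T 1) (T (-1)) = 1 := by
    rw [mul_LLinv _ _ hts, E4_eq]
  have hdet : (L4 (T 1 : LaurentPolynomial ℤ) (T (-1))).det ≠ 0 := by
    intro h0
    have := congrArg Matrix.det hLi
    rw [Matrix.det_mul, h0, zero_mul, Matrix.det_one] at this
    exact zero_ne_one this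
  have key := H sig eps (by rw [sig_T]) (eps_T 1) _ rfl 4 1 Matrix.transpose_one
    (by rw [Matrix.det_one]; exact isUnit_one) 0 4 (L4 (T 1) (T (-1))) hL hdet ?_ ?_ ?_
  · obtain ⟨P, P', -, -, h⟩ := key
    have h00 := congrFun (congrFun h (Sum.inl 0)) (Sum.inl 0)
    refine no_unit_vector (fun i => P i (Sum.inl 0)) ?_
    rw [Finset.sum_comm]
    have e1 : (Matrix.fromBlocks ((1 : Matrix (Fin 4) (Fin 4) ℤ).map
        (Int.castRingHom (LaurentPolynomial ℤ))) 0 0
        (Matrix.blockDiagonal (fun _ : Fin 0 => !![0, T 1 - 1; T (-1) - 1, 0])) :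
          Matrix (Fin 4 ⊕ Fin 2 × Fin 0) (Fin 4 ⊕ Fin 2 × Fin 0) (LaurentPolynomial ℤ))
        (Sum.inl 0) (Sum.inl 0) = 1 := by
      rw [Matrix.fromBlocks_apply₁₁, Matrix.map_apply, Matrix.one_apply_eq, map_one]
    rw [← e1, ← h00, Matrix.mul_apply]
    refine Finset.sum_congr rfl fun j _ => ?_
    rw [Matrix.mul_apply, Finset.sum_mul]
    rfl
  · refine ⟨0, 0, 0, 0, -L4inv (T 1) (T (-1)), L4inv (T 1) (T (-1)), 0, ?_, ?_, ?_, ?_, ?_⟩
    · ext ⟨_, j⟩
      exact j.elim0
    · ext i ⟨_, j⟩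
      exact j.elim0
    · rw [Matrix.zero_mul, Matrix.mul_neg, hLi, add_neg_cancel]
    · ext ⟨_, j⟩
      exact j.elim0
    · have e1 : ((L4 (T 1 : LaurentPolynomial ℤ) (T (-1))).map
          (algebraMap (LaurentPolynomial ℤ) (FractionRing (LaurentPolynomial ℤ))))⁻¹
          = (L4inv (T 1 : LaurentPolynomial ℤ) (T (-1))).map
            (algebraMap (LaurentPolynomial ℤ) (FractionRing (LaurentPolynomial ℤ))) := by
        refine Matrix.inv_eq_right_inv ?_
        rw [← Matrix.map_mul, hLi, Matrix.map_one _ (map_zero _) (map_one _)]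
      rw [e1]
      have e2 : ((0 : Matrix (Fin 2 × Fin 0) (Fin 4) (LaurentPolynomial ℤ)).map
          (algebraMap (LaurentPolynomial ℤ) (FractionRing (LaurentPolynomial ℤ)))) = 0 :=
        Matrix.map_zero _ (map_zero _)
      rw [e2, Matrix.mul_zero, sub_zero]
  · refine ⟨R4.submatrix id e4, R4inv.submatrix e4 id, ?_, ?_, ?_⟩
    · rw [Matrix.submatrix_mul_equiv, R4_mul, Matrix.submatrix_id_id]
    · have := Matrix.submatrix_mul_equiv R4inv R4 e4 (Equiv.refl _) e4
      rw [R4inv_mul, Matrix.submatrix_one_equiv] at this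
      exact this
    · rw [map_L4, eps_T, eps_T]
      have e1 : (R4.submatrix id e4)ᵀ * L4 (1 : ℤ) 1 * R4.submatrix id e4
          = (R4ᵀ * L4 (1 : ℤ) 1 * R4).submatrix e4 e4 := by
        have a1 := Matrix.submatrix_mul_equiv R4ᵀ (L4 (1 : ℤ) 1) e4 (Equiv.refl _) id
        have a2 := Matrix.submatrix_mul_equiv (R4ᵀ * L4 (1 : ℤ) 1) R4 e4 (Equiv.refl _) e4
        rw [← a2]
        congr 1
      rw [e1, R4_form]
      ext (i | ⟨_, j⟩) (i' | ⟨_, j'⟩)
      · rfl
      · exact j'.elim0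
      · exact j.elim0
      · exact j.elim0
  · refine ⟨1, (A6 (T 1) (T (-1))).submatrix e6 e6', (B6 (T 1) (T (-1))).submatrix e6' e6,
      ?_, ?_, ?_⟩
    · rw [Matrix.submatrix_mul_equiv, mul_AB _ _ hts, E6_eq, Matrix.submatrix_one_equiv]
    · have hBA : B6 (T 1 : LaurentPolynomial ℤ) (T (-1)) * A6 (T 1) (T (-1)) = 1 := by
        rw [mul_eq_one_comm, mul_AB _ _ hts, E6_eq]
      rw [Matrix.submatrix_mul_equiv, hBA, Matrix.submatrix_one_equiv]
    · have m1 : (Matrix.fromBlocks (L4 (T 1 : LaurentPolynomial ℤ) (T (-1))) 0 0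
          (Matrix.blockDiagonal (fun _ : Fin 1 => !![0, T 1 - 1; T (-1) - 1, 0])) :
            Matrix (Fin 4 ⊕ Fin 2 × Fin 1) (Fin 4 ⊕ Fin 2 × Fin 1) (LaurentPolynomial ℤ))
          = (M6 (T 1) (T (-1))).submatrix e6 e6 := by
        ext1 i j
        rcases i with i | ⟨i, i'⟩ <;> rcases j with j | ⟨j, j'⟩ <;>
          fin_cases i <;> fin_cases j <;>
          (try fin_cases i') <;> (try fin_cases j') <;>
          first
          | rfl
          | exact sub_eq_neg_add (T 1 : LaurentPolynomial ℤ) 1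
      have m2 : (Matrix.fromBlocks ((1 : Matrix (Fin 4) (Fin 4) ℤ).map
          (Int.castRingHom (LaurentPolynomial ℤ))) 0 0
          (Matrix.blockDiagonal (fun _ : Fin (0 + 1) => !![0, T 1 - 1; T (-1) - 1, 0])) :
            Matrix (Fin 4 ⊕ Fin 2 × Fin (0 + 1)) (Fin 4 ⊕ Fin 2 × Fin (0 + 1))
              (LaurentPolynomial ℤ))
          = (N6 (T 1) (T (-1))).submatrix e6' e6' := by
        have q1 : (1 : Matrix (Fin 4) (Fin 4) ℤ).map (Int.castRingHom (LaurentPolynomial ℤ))
            = E4 (LaurentPolynomial ℤ) := by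
          rw [Matrix.map_one _ (map_zero _) (map_one _), E4_eq]
        rw [q1]
        ext1 i j
        rcases i with i | ⟨i, i'⟩ <;> rcases j with j | ⟨j, j'⟩ <;>
          fin_cases i <;> fin_cases j <;>
          (try fin_cases i') <;> (try fin_cases j') <;>
          first
          | rfl
          | exact sub_eq_neg_add (T 1 : LaurentPolynomial ℤ) 1
      rw [m1, m2]
      have m3 : (((A6 (T 1 : LaurentPolynomial ℤ) (T (-1))).submatrix e6 e6').map sig)ᵀ
          = ((A6 (T (-1) : LaurentPolynomial ℤ) (T 1))ᵀ).submatrix e6' e6 := by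
        rw [← Matrix.submatrix_map, map_A6, sig_T, sig_T, neg_neg, Matrix.transpose_submatrix]
      rw [m3, Matrix.submatrix_mul_equiv, Matrix.submatrix_mul_equiv, Matrix.mul_assoc,
        mul_MA _ _ hts, mul_AW _ _ hts]

end Pool.Agent.S13092
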