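import Pool.Statements.S13150
import Pool.Agent.U269.ErdosC

set_option autoImplicit false
open Pool Pool.MP_4f0e62_gt

namespace Pool.Agent.S13150

open Topology Filter Pool.Agent.U269.Erd

/-- the compact-open topology on the homeomorphism group -/
def AT (X : Type) [TopologicalSpace X] : TopologicalSpace (X ≃ₜ X) :=
  TopologicalSpace.induced (fun g : X ≃ₜ X => ContinuousMap.mk (⇑g) g.continuous) inferInstance

/-- the homeomorphism of `ℕ × K` that is `h` on the `N`-th copy of `K` -/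
def jay {K : Type} [TopologicalSpace K] (N : ℕ) (h : K ≃ₜ K) : (ℕ × K) ≃ₜ (ℕ × K) where
  toFun p := (p.1, if p.1 = N then h p.2 else p.2)
  invFun p := (p.1, if p.1 = N then h.symm p.2 else p.2)
  left_inv p := by
    rcases p with ⟨i, y⟩
    by_cases hi : i = N <;> simp [hi]
  right_inv p := by
    rcases p with ⟨i, y⟩
    by_cases hi : i = N <;> simp [hi]
  continuous_toFun := by
    refine continuous_fst.prodMk ?_
    refine Continuous.if (fun p hp => ?_) (h.continuous.comp continuous_snd) continuous_snd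
    have : IsClopen {a : ℕ × K | a.1 = N} := (isClopen_discrete {N}).preimage continuous_fst
    rw [this.frontier_eq] at hp
    exact hp.elim
  continuous_invFun := by
    refine continuous_fst.prodMk ?_
    refine Continuous.if (fun p hp => ?_) (h.symm.continuous.comp continuous_snd) continuous_snd
    have : IsClopen {a : ℕ × K | a.1 = N} := (isClopen_discrete {N}).preimage continuous_fst
    rw [this.frontier_eq] at hp
    exact hp.elim

theorem range_jay {K : Type} [TopologicalSpace K] (N : ℕ) :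
    Set.range (jay (K := K) N) = {g | ∀ i : ℕ, i ≠ N → ∀ y, g (i, y) = (i, y)} := by
  ext g
  constructor
  · rintro ⟨h, rfl⟩ i hi y
    simp [jay, hi]
  · intro hg
    have key : ∀ g : (ℕ × K) ≃ₜ (ℕ × K), (∀ i : ℕ, i ≠ N → ∀ y, g (i, y) = (i, y)) →
        ∀ y, (g (N, y)).1 = N := by
      intro g hg y
      by_contra hne
      have h1 := hg _ hne (g (N, y)).2
      have h2 : g ((g (N, y)).1, (g (N, y)).2) = g (N, y) := by rw [h1]
      have h3 := g.injective h2
      have h4 := congrArg Prod.fst h3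
      exact hne h4
    have hg' : ∀ i : ℕ, i ≠ N → ∀ y, g.symm (i, y) = (i, y) := by
      intro i hi y
      rw [Homeomorph.symm_apply_eq]
      exact (hg i hi y).symm
    have k1 := key g hg
    have k2 := key g.symm hg'
    have e1 : ∀ y, g (N, y) = (N, (g (N, y)).2) := fun y => Prod.ext (k1 y) rfl
    have e2 : ∀ y, g.symm (N, y) = (N, (g.symm (N, y)).2) := fun y => Prod.ext (k2 y) rfl
    let h : K ≃ₜ K :=
      { toFun := fun y => (g (N, y)).2
        invFun := fun y => (g.symm (N, y)).2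
        left_inv := fun y => by
          show (g.symm (N, (g (N, y)).2)).2 = y
          rw [← e1, Homeomorph.symm_apply_apply]
        right_inv := fun y => by
          show (g (N, (g.symm (N, y)).2)).2 = y
          rw [← e2, Homeomorph.apply_symm_apply]
        continuous_toFun := by fun_prop
        continuous_invFun := by fun_prop }
    refine ⟨h, ?_⟩
    ext1 ⟨i, y⟩
    by_cases hi : i = N
    · subst hi
      show (i, if i = i then (g (i, y)).2 else y) = g (i, y)
      rw [if_pos rfl, ← e1]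
    · show (i, if i = N then h y else y) = g (i, y)
      rw [if_neg hi, hg i hi y]

theorem closedEmbedding_jay {K : Type} [TopologicalSpace K] [LocallyCompactSpace K] [T2Space K]
    (N : ℕ) : @IsClosedEmbedding _ _ (AT K) (AT (ℕ × K)) (jay (K := K) N) := by
  letI := AT K
  letI := AT (ℕ × K)
  have i1 : IsInducing (fun g : K ≃ₜ K => ContinuousMap.mk (⇑g) g.continuous) := ⟨rfl⟩
  have i2 : IsInducing (fun g : (ℕ × K) ≃ₜ (ℕ × K) => ContinuousMap.mk (⇑g) g.continuous) := ⟨rfl⟩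
  have c1 : Continuous (jay (K := K) N) := by
    rw [i2.continuous_iff]
    refine ContinuousMap.continuous_of_continuous_uncurry _ ?_
    have e : Function.uncurry (fun (x : K ≃ₜ K) (y : ℕ × K) =>
        ((fun g : (ℕ × K) ≃ₜ (ℕ × K) => ContinuousMap.mk (⇑g) g.continuous) ∘
          jay (K := K) N) x y) =
        fun q : (K ≃ₜ K) × (ℕ × K) => (q.2.1, if q.2.1 = N then q.1 q.2.2 else q.2.2) := rfl
    rw [e]
    refine (continuous_fst.comp continuous_snd).prodMk ?_
    refine Continuous.if (fun p hp => ?_) ?_ (continuous_snd.comp continuous_snd)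
    · have : IsClopen {a : (K ≃ₜ K) × (ℕ × K) | a.2.1 = N} :=
        (isClopen_discrete {N}).preimage (continuous_fst.comp continuous_snd)
      rw [this.frontier_eq] at hp
      exact hp.elim
    · have h1 : Continuous (fun q : (K ≃ₜ K) × (ℕ × K) =>
          ((ContinuousMap.mk (⇑q.1) q.1.continuous : C(K, K)), q.2.2)) :=
        (i1.continuous.comp continuous_fst).prodMk (continuous_snd.comp continuous_snd)
      exact (continuous_eval (F := C(K, K)) (X := K) (Y := K)).comp h1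
  let ρ : C(ℕ × K, ℕ × K) → C(K, K) := fun f =>
    (ContinuousMap.comp ⟨Prod.snd, continuous_snd⟩ (f.comp ⟨fun y : K => (N, y), by fun_prop⟩))
  have c2 : Continuous ρ := by
    refine (ContinuousMap.continuous_postcomp _).comp (ContinuousMap.continuous_precomp _)
  have e3 : (ρ ∘ (fun g : (ℕ × K) ≃ₜ (ℕ × K) => ContinuousMap.mk (⇑g) g.continuous)) ∘
      jay (K := K) N = fun g : K ≃ₜ K => ContinuousMap.mk (⇑g) g.continuous := by
    ext g y
    simp [ρ, jay]
  have i3 : IsInducing (jay (K := K) N) :=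
    IsInducing.of_comp c1 (c2.comp i2.continuous) (by rw [e3]; exact i1)
  have inj : Function.Injective (jay (K := K) N) := by
    intro g h hgh
    ext1 y
    have := congrArg (fun k : (ℕ × K) ≃ₜ (ℕ × K) => (k (N, y)).2) hgh
    simpa [jay] using this
  refine ⟨⟨i3, inj⟩, ?_⟩
  rw [range_jay]
  have : {g : (ℕ × K) ≃ₜ (ℕ × K) | ∀ i : ℕ, i ≠ N → ∀ y, g (i, y) = (i, y)} =
      ⋂ (i : ℕ) (_ : i ≠ N) (y : K), {g : (ℕ × K) ≃ₜ (ℕ × K) | g (i, y) = (i, y)} := by
    ext g; simp
  rw [this]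
  refine isClosed_iInter fun i => isClosed_iInter fun _ => isClosed_iInter fun y => ?_
  have h1 : Continuous (fun g : (ℕ × K) ≃ₜ (ℕ × K) => g (i, y)) :=
    (continuous_eval_const (F := C(ℕ × K, ℕ × K)) ((i, y) : ℕ × K)).comp i2.continuous
  exact isClosed_eq h1 continuous_const

/-- the images of `jay N` tend to the identity -/
theorem jay_small {K : Type} [TopologicalSpace K] (W : Set ((ℕ × K) ≃ₜ (ℕ × K)))
    (hW : @IsOpen _ (AT (ℕ × K)) W) (h1 : Homeomorph.refl _ ∈ W) :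
    ∃ N, ∀ h : K ≃ₜ K, jay N h ∈ W := by
  letI := AT (ℕ × K)
  have i2 : IsInducing (fun g : (ℕ × K) ≃ₜ (ℕ × K) => ContinuousMap.mk (⇑g) g.continuous) := ⟨rfl⟩
  have t1 : Tendsto (fun q : ℕ × (K ≃ₜ K) => jay q.1 q.2) (comap Prod.fst atTop)
      (𝓝 (Homeomorph.refl (ℕ × K))) := by
    rw [i2.tendsto_nhds_iff, ContinuousMap.tendsto_nhds_compactOpen]
    intro C hC U hU hm
    have hb : BddAbove (Prod.fst '' C : Set ℕ) := (hC.image continuous_fst).bddAbove
    obtain ⟨m, hm2⟩ := hb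
    rw [eventually_comap]
    filter_upwards [eventually_gt_atTop m] with N hN
    rintro ⟨N', h⟩ rfl ⟨i, y⟩ hy
    have h3 : i ≠ N' := by
      have : i ≤ m := hm2 ⟨(i, y), hy, rfl⟩
      simp only at hN
      omega
    have h4 := hm hy
    show ((i, if i = N' then h y else y) : ℕ × K) ∈ U
    rw [if_neg h3]
    exact h4
  have h5 := t1 (hW.mem_nhds h1)
  rw [Filter.mem_map, mem_comap] at h5
  obtain ⟨t, ht, hsub⟩ := h5
  obtain ⟨N, hN⟩ := mem_atTop_sets.1 ht
  exact ⟨N, fun h => hsub (show ((N, h) : ℕ × (K ≃ₜ K)).1 ∈ t from hN N le_rfl)⟩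

theorem core {K : Type} [TopologicalSpace K] [LocallyCompactSpace K] [T2Space K]
    (Ψ : @Homeomorph (K ≃ₜ K) Es (AT K) inferInstance)
    (Φ : @Homeomorph ((ℕ × K) ≃ₜ (ℕ × K)) Es (AT (ℕ × K)) inferInstance) : False := by
  letI := AT K
  letI := AT (ℕ × K)
  have hopen : IsOpen (Φ ⁻¹' Metric.ball (Φ (Homeomorph.refl _)) 1) :=
    Metric.isOpen_ball.preimage Φ.continuous
  obtain ⟨N, hN⟩ := jay_small _ hopen (by simp)
  have hemb : IsClosedEmbedding (Φ ∘ jay (K := K) N ∘ Ψ.symm) :=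
    Φ.isClosedEmbedding.comp ((closedEmbedding_jay N).comp Ψ.symm.isClosedEmbedding)
  refine no_embedding _ hemb (‖(Φ (Homeomorph.refl _) : L2)‖ + 1) fun x => ?_
  have h1 := hN (Ψ.symm x)
  simp only [Set.mem_preimage, Metric.mem_ball] at h1
  rw [Subtype.dist_eq, dist_eq_norm] at h1
  have h2 : (Φ (jay N (Ψ.symm x)) : L2) = ((Φ (jay N (Ψ.symm x)) : L2) -
    (Φ (Homeomorph.refl _) : L2)) + (Φ (Homeomorph.refl _) : L2) := by abel
  show ‖(Φ (jay N (Ψ.symm x)) : L2)‖ ≤ _
  rw [h2]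
  exact (norm_add_le _ _).trans (by linarith)

/-- the one-dimensional Menger compactum -/
abbrev Men : Set (Fin (2 * 1 + 1) → ℝ) := {y : Fin (2 * 1 + 1) → ℝ |
            ∀ k : ℕ, ∃ a : Fin (2 * 1 + 1) → ℕ,
              (∀ i, a i < 3 ^ k ∧ (a i : ℝ) / 3 ^ k ≤ y i ∧ y i ≤ ((a i : ℝ) + 1) / 3 ^ k) ∧
              ∀ j < k, (Finset.univ.filter (fun i => a i / 3 ^ j % 3 = 1)).card ≤ 1}

theorem Men_closed : IsClosed Men := by
  have e : Men = ⋂ k : ℕ, ⋃ a ∈ {a : Fin (2 * 1 + 1) → ℕ | (∀ i, a i < 3 ^ k) ∧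
      ∀ j < k, (Finset.univ.filter (fun i => a i / 3 ^ j % 3 = 1)).card ≤ 1},
      {y : Fin (2 * 1 + 1) → ℝ | ∀ i, (a i : ℝ) / 3 ^ k ≤ y i ∧ y i ≤ ((a i : ℝ) + 1) / 3 ^ k} := by
    ext y
    simp only [Men, Set.mem_setOf_eq, Set.mem_iInter, Set.mem_iUnion, exists_prop]
    refine forall_congr' fun k => exists_congr fun a => ?_
    constructor
    · rintro ⟨h1, h2⟩
      exact ⟨⟨fun i => (h1 i).1, h2⟩, fun i => (h1 i).2⟩
    · rintro ⟨⟨h1, h2⟩, h3⟩
      exact ⟨fun i => ⟨h1 i, h3 i⟩, h2⟩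
  rw [e]
  refine isClosed_iInter fun k => Set.Finite.isClosed_biUnion ?_ fun a _ => ?_
  · refine Set.Finite.subset (Set.Finite.pi' (fun _ : Fin (2 * 1 + 1) => Set.finite_lt_nat (3 ^ k))) ?_
    intro a ha i
    exact ha.1 i
  · have : {y : Fin (2 * 1 + 1) → ℝ | ∀ i, (a i : ℝ) / 3 ^ k ≤ y i ∧ y i ≤ ((a i : ℝ) + 1) / 3 ^ k} =
        ⋂ i, {y : Fin (2 * 1 + 1) → ℝ | y i ∈ Set.Icc ((a i : ℝ) / 3 ^ k) (((a i : ℝ) + 1) / 3 ^ k)} := by
      ext y; simp
    rw [this]
    exact isClosed_iInter fun i => isClosed_Icc.preimage (continuous_apply i)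

instance : LocallyCompactSpace Men := Men_closed.isClosedEmbedding_subtypeVal.locallyCompactSpace

instance : Nonempty Men := by
  refine ⟨⟨fun _ => 0, fun k => ⟨fun _ => 0, fun i => ⟨by positivity, ?_, ?_⟩, fun j _ => ?_⟩⟩⟩
  · simp
  · simp only [Nat.cast_zero, zero_add]; positivity
  · simp

theorem result :
    ¬ (∀ (n : ℕ), 1 ≤ n →
    ∀ (M : Type) [TopologicalSpace M] [TopologicalSpace.MetrizableSpace M]
      [TopologicalSpace.SeparableSpace M] [Nonempty M],
      (∀ x : M, ∃ V : Set M, IsOpen V ∧ x ∈ V ∧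
        ∃ U : Set {y : Fin (2 * n + 1) → ℝ |
            ∀ k : ℕ, ∃ a : Fin (2 * n + 1) → ℕ,
              (∀ i, a i < 3 ^ k ∧ (a i : ℝ) / 3 ^ k ≤ y i ∧ y i ≤ ((a i : ℝ) + 1) / 3 ^ k) ∧
              ∀ j < k, (Finset.univ.filter (fun i => a i / 3 ^ j % 3 = 1)).card ≤ n},
          IsOpen U ∧ Nonempty (V ≃ₜ U)) →
      Nonempty (@Homeomorph (M ≃ₜ M)
        {x : lp (fun _ : ℕ => ℝ) 2 | ∀ i : ℕ, (x : ℕ → ℝ) i = 0 ∨
            ∃ k : ℕ, 0 < k ∧ (x : ℕ → ℝ) i = 1 / (k : ℝ)}
        (TopologicalSpace.induced (fun g : M ≃ₜ M => ContinuousMap.mk (⇑g) g.continuous)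
          inferInstance)
        inferInstance)) := by
  intro H
  obtain ⟨Ψ⟩ := H 1 le_rfl Men (fun x => ⟨Set.univ, isOpen_univ, trivial, Set.univ, isOpen_univ,
    ⟨Homeomorph.refl _⟩⟩)
  obtain ⟨Φ⟩ := H 1 le_rfl (ℕ × Men) (by
    rintro ⟨i, y⟩
    have hemb : IsOpenEmbedding (fun z : Men => ((i, z) : ℕ × Men)) := by
      refine ⟨isEmbedding_prodMkRight i, ?_⟩
      have : Set.range (fun z : Men => ((i, z) : ℕ × Men)) = Prod.fst ⁻¹' {i} := by
        ext ⟨j, z⟩
        simp [eq_comm]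
      rw [this]
      exact (isOpen_discrete {i}).preimage continuous_fst
    refine ⟨Set.range (fun z : Men => ((i, z) : ℕ × Men)), hemb.isOpen_range, ⟨y, rfl⟩, Set.univ,
      isOpen_univ, ⟨?_⟩⟩
    exact (hemb.toIsEmbedding.toHomeomorph).symm.trans (Homeomorph.Set.univ Men).symm)
  exact core Ψ Φ

end Pool.Agent.S13150
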