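import Pool.Statements.S13155
import Pool.Agent.U682.FT.Main

set_option autoImplicit false
open Pool Pool.MP_5008c3_gt

namespace Pool.Agent.S13155

/-- For every metrizable space X whose non-isolated points form a compact set, the subspace of the free topological group on X of elements of reduced length at most 4 is Fréchet–Urysohn. -/
theorem result :
    ∀ (X : Type) [τ : TopologicalSpace X] [TopologicalSpace.MetrizableSpace X],
      IsCompact {x : X | ¬ IsOpen ({x} : Set X)} →
      @FrechetUrysohnSpace
        {w : FreeGroup X // ∃ L : List (X × Bool), L.length ≤ 4 ∧ FreeGroup.mk L = w}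
        (TopologicalSpace.induced Subtype.val
          (sInf {t : GroupTopology (FreeGroup X) |
            @Continuous X (FreeGroup X) τ t.toTopologicalSpace FreeGroup.of}).toTopologicalSpace) := by
  intro X τ _ hX
  classical
  letI : TopologicalSpace (FreeGroup X) := (sInf {t : GroupTopology (FreeGroup X) |
    @Continuous X (FreeGroup X) τ t.toTopologicalSpace FreeGroup.of}).toTopologicalSpace
  refine ⟨fun s a ha => ?_⟩
  have h1 : (a : FreeGroup X) ∈ closure ((fun x : {w : FreeGroup X //
      ∃ L : List (X × Bool), L.length ≤ 4 ∧ FreeGroup.mk L = w} => (x : FreeGroup X)) '' s) :=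
    closure_subtype.1 ha
  obtain ⟨u, hu, hul⟩ := Pool.Agent.U682.FT.main hX _ (by
    rintro _ ⟨⟨w, L, hL, rfl⟩, _, rfl⟩
    exact (FreeGroup.norm_mk_le (L₁ := L)).trans hL) (a : FreeGroup X) h1
  choose v hv hvu using hu
  refine ⟨v, hv, ?_⟩
  rw [tendsto_subtype_rng]
  simp only [hvu]
  exact hul

end Pool.Agent.S13155
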