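import Pool.Statements.S13392
import Pool.Agent.U891.FQ.Target

set_option autoImplicit false
open Pool Pool.MP_74810d_gt

namespace Pool.Agent.S13392

open Pool.Agent.U891.FQ Topology Set

/-- The negation of the preceding statement: For every n ≥ 1 and every simply connected second countable Hausdorff topological n-manifold Q, some smooth flow on R^(n+1) has orbit space, with the quotient topology, homeomorphic to Q. -/
theorem result :
    ¬ (∀ n : ℕ, 1 ≤ n →
      ∀ (Q : Type) [TopologicalSpace Q] [T2Space Q] [SecondCountableTopology Q]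
        [ChartedSpace (EuclideanSpace ℝ (Fin n)) Q] [SimplyConnectedSpace Q],
        ∃ Φ : ℝ → EuclideanSpace ℝ (Fin (n + 1)) → EuclideanSpace ℝ (Fin (n + 1)),
          ContDiff ℝ (⊤ : ℕ∞)
              (fun p : ℝ × EuclideanSpace ℝ (Fin (n + 1)) => Φ p.1 p.2) ∧
          (∀ x, Φ 0 x = x) ∧
          (∀ (s t : ℝ) (x : EuclideanSpace ℝ (Fin (n + 1))), Φ (s + t) x = Φ s (Φ t x)) ∧
          Nonempty
            (Quot (fun x y : EuclideanSpace ℝ (Fin (n + 1)) => ∃ t : ℝ, Φ t x = y) ≃ₜ Q)) := by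
  intro H
  have hsc : SimplyConnectedSpace Q9 := sc_Q9
  have hne : Nonempty Q9 := ⟨tor 0⟩
  letI : ChartedSpace (EuclideanSpace ℝ (Fin 9)) Q9 := incl_open.singletonChartedSpace
  obtain ⟨Φ, hΦ, h0, hadd, ⟨ψ⟩⟩ := H 9 (by norm_num) Q9
  have hΦc : Continuous (fun p : ℝ × EuclideanSpace ℝ (Fin (9 + 1)) => Φ p.1 p.2) := hΦ.continuous
  have hΦt : ∀ t, Continuous (Φ t) := fun t =>
    hΦc.comp (continuous_const.prodMk continuous_id)
  set r : EuclideanSpace ℝ (Fin (9 + 1)) → EuclideanSpace ℝ (Fin (9 + 1)) → Prop :=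
    fun x y => ∃ t : ℝ, Φ t x = y with hr
  have heq : Equivalence r := by
    refine ⟨fun x => ⟨0, h0 x⟩, ?_, ?_⟩
    · rintro x _ ⟨t, rfl⟩
      exact ⟨-t, by rw [← hadd, neg_add_cancel, h0]⟩
    · rintro x _ _ ⟨t, rfl⟩ ⟨s, rfl⟩
      exact ⟨s + t, hadd s t x⟩
  have hfl : TFlow Φ (fun x => ψ (Quot.mk r x)) :=
    { cont := hΦc
      zero := h0
      add := hadd
      fcont := ψ.continuous.comp continuous_quot_mk
      fopen := by
        apply ψ.isOpenMap.comp
        intro O hO
        have h1 : IsOpen (Quot.mk r ⁻¹' (Quot.mk r '' O)) := by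
          have h2 : Quot.mk r ⁻¹' (Quot.mk r '' O) = ⋃ t, Φ t ⁻¹' O := by
            ext x
            simp only [mem_preimage, mem_image, mem_iUnion]
            constructor
            · rintro ⟨y, hy, hyx⟩
              obtain ⟨t, ht⟩ := (heq.quot_mk_eq_iff x y).1 hyx.symm
              exact ⟨t, by rw [ht]; exact hy⟩
            · rintro ⟨t, ht⟩
              exact ⟨Φ t x, ht, ((heq.quot_mk_eq_iff x (Φ t x)).2 ⟨t, rfl⟩).symm⟩
          rw [h2]
          exact isOpen_iUnion fun t => hO.preimage (hΦt t)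
        exact isQuotientMap_quot_mk.isOpen_preimage.1 h1
      fibre := by
        intro x y
        rw [ψ.injective.eq_iff]
        exact heq.quot_mk_eq_iff x y }
  refine not_orbit_space hfl ?_
  intro q
  obtain ⟨x, hx⟩ := Quot.exists_rep (ψ.symm q)
  exact ⟨x, by simp only [hx, ψ.apply_symm_apply]⟩

end Pool.Agent.S13392
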