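import Pool.Statements.S13574
import Pool.Agent.U55.BetaOm

set_option autoImplicit false
open Pool Pool.MP_916210_gt

namespace Pool.Agent.S13574

/-- the topology of pointwise convergence -/
abbrev tp (X : Type) [TopologicalSpace X] : TopologicalSpace C(X, ℝ) :=
  TopologicalSpace.induced (fun f : C(X, ℝ) => (f : X → ℝ)) inferInstance

open Pool.Agent.U55.BetaOm

/-- bundled continuous functions and the submodule of functions -/
def toCp (X : Type) [TopologicalSpace X] : C(X, ℝ) ≃ₗ[ℝ] Cp X where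
  toFun f := ⟨f, f.continuous⟩
  map_add' _ _ := rfl
  map_smul' _ _ := rfl
  invFun g := ⟨g.1, g.2⟩
  left_inv _ := rfl
  right_inv _ := rfl

theorem cont_toCp (X : Type) [TopologicalSpace X] : @Continuous _ _ (tp X) _ (toCp X) := by
  let _ := tp X
  exact Continuous.subtype_mk (continuous_induced_dom (f := fun f : C(X, ℝ) => (f : X → ℝ))) _

theorem cont_toCp_symm (X : Type) [TopologicalSpace X] :
    @Continuous _ _ _ (tp X) (toCp X).symm := by
  let _ := tp X
  exact continuous_induced_rng.2 continuous_subtype_val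

theorem lequiv_iff (X Y : Type) [TopologicalSpace X] [TopologicalSpace Y] :
    LEquivalent X Y ↔ ∃ e : C(X, ℝ) ≃ₗ[ℝ] C(Y, ℝ),
      @Continuous _ _ (tp X) (tp Y) e ∧ @Continuous _ _ (tp Y) (tp X) e.symm := by
  let _ := tp X
  let _ := tp Y
  constructor
  · rintro ⟨e⟩
    refine ⟨(toCp X).trans (e.toLinearEquiv.trans (toCp Y).symm), ?_, ?_⟩
    · exact (cont_toCp_symm Y).comp (e.continuous.comp (cont_toCp X))
    · exact (cont_toCp_symm X).comp (e.symm.continuous.comp (cont_toCp Y))
  · rintro ⟨e, h1, h2⟩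
    refine ⟨⟨(toCp X).symm.trans (e.trans (toCp Y)), ?_, ?_⟩⟩
    · exact (cont_toCp Y).comp (h1.comp (cont_toCp_symm X))
    · exact (cont_toCp X).comp (h2.comp (cont_toCp_symm Y))

theorem lembedded {X : Type} [TopologicalSpace X] {A : Set X} (h : IsLEmbedded A) :
    ∃ φ : C(A, ℝ) →ₗ[ℝ] C(X, ℝ), @Continuous _ _ (tp A) (tp X) φ ∧
      ∀ f : C(A, ℝ), ∀ a : A, φ f a = f a := by
  obtain ⟨φ, hφ⟩ := h
  let _ := tp A
  let _ := tp X
  refine ⟨(toCp X).symm.toLinearMap.comp (φ.toLinearMap.comp (toCp A).toLinearMap), ?_, ?_⟩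
  · exact (cont_toCp_symm X).comp (φ.continuous.comp (cont_toCp A))
  · intro f a
    exact hφ (toCp A f) a

theorem lembedded' {X : Type} [TopologicalSpace X] {A : Set X}
    (h : ∃ φ : C(A, ℝ) →ₗ[ℝ] C(X, ℝ), @Continuous _ _ (tp A) (tp X) φ ∧
      ∀ f : C(A, ℝ), ∀ a : A, φ f a = f a) : IsLEmbedded A := by
  obtain ⟨φ, h1, h2⟩ := h
  let _ := tp A
  let _ := tp X
  refine ⟨⟨(toCp X).toLinearMap.comp (φ.comp (toCp A).symm.toLinearMap), ?_⟩, ?_⟩
  · exact (cont_toCp X).comp (h1.comp (cont_toCp_symm A))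
  · intro f a
    exact h2 ((toCp A).symm f) a

/-- the two models of the convergent sequence -/
noncomputable def seqHomeo : OnePoint ℕ ≃ₜ ℕ∞ :=
  Continuous.homeoOfEquivCompactToT2 (f := (Equiv.refl (Option ℕ) : OnePoint ℕ ≃ ℕ∞)) (by
    rw [OnePoint.continuous_iff_from_nat]
    change Filter.Tendsto (fun n : ℕ => (n : ℕ∞)) Filter.atTop (nhds ⊤)
    exact ENat.tendsto_nhds_top_iff_natCast_lt.2 fun n => by
      filter_upwards [Filter.eventually_gt_atTop n] with a ha
      exact_mod_cast ha)

theorem lequiv_homeo {X Y : Type} [TopologicalSpace X] [TopologicalSpace Y] (e : X ≃ₜ Y) :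
    LEquivalent X Y := by
  refine ⟨⟨{ toFun := fun f => ⟨(f : X → ℝ) ∘ e.symm, f.2.comp e.symm.continuous⟩
             map_add' := fun _ _ => rfl
             map_smul' := fun _ _ => rfl
             invFun := fun g => ⟨(g : Y → ℝ) ∘ e, g.2.comp e.continuous⟩
             left_inv := fun f => by ext x; simp
             right_inv := fun g => by ext x; simp }, ?_, ?_⟩⟩
  · exact Continuous.subtype_mk (continuous_pi fun y => show Continuous (fun f : Cp X => (f : X → ℝ) (e.symm y)) from (continuous_apply (e.symm y)).comp continuous_subtype_val) _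
  · exact Continuous.subtype_mk (continuous_pi fun x => show Continuous (fun f : Cp Y => (f : Y → ℝ) (e x)) from (continuous_apply (e x)).comp continuous_subtype_val) _

/-- The negation of the preceding statement: For every infinite Tychonoff space X: if C_p(X) is linearly homeomorphic to C_p(X ⊕ A) for each subspace A with a continuous linear extender, then C_p(X × convergent sequence) is linearly homeomorphic to C_p(X). -/
theorem result :
    ¬ (∀ (X : Type) [TopologicalSpace X] [T35Space X] [Infinite X],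
      (∀ A : Set X,
        (∃ φ : C(A, ℝ) →ₗ[ℝ] C(X, ℝ),
          @Continuous _ _
            (TopologicalSpace.induced (fun f : C(A, ℝ) => (f : A → ℝ)) inferInstance)
            (TopologicalSpace.induced (fun f : C(X, ℝ) => (f : X → ℝ)) inferInstance)
            (⇑φ) ∧
          ∀ f : C(A, ℝ), ∀ a : A, φ f a = f a) →
        ∃ e : C(X, ℝ) ≃ₗ[ℝ] C(X ⊕ A, ℝ),
          @Continuous _ _
            (TopologicalSpace.induced (fun f : C(X, ℝ) => (f : X → ℝ)) inferInstance)
            (TopologicalSpace.induced (fun f : C(X ⊕ A, ℝ) => (f : X ⊕ A → ℝ)) inferInstance)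
            (⇑e) ∧
          @Continuous _ _
            (TopologicalSpace.induced (fun f : C(X ⊕ A, ℝ) => (f : X ⊕ A → ℝ)) inferInstance)
            (TopologicalSpace.induced (fun f : C(X, ℝ) => (f : X → ℝ)) inferInstance)
            (⇑e.symm)) →
      ∃ e : C(X × OnePoint ℕ, ℝ) ≃ₗ[ℝ] C(X, ℝ),
        @Continuous _ _
          (TopologicalSpace.induced (fun f : C(X × OnePoint ℕ, ℝ) => (f : X × OnePoint ℕ → ℝ)) inferInstance)
          (TopologicalSpace.induced (fun f : C(X, ℝ) => (f : X → ℝ)) inferInstance)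
          (⇑e) ∧
        @Continuous _ _
          (TopologicalSpace.induced (fun f : C(X, ℝ) => (f : X → ℝ)) inferInstance)
          (TopologicalSpace.induced (fun f : C(X × OnePoint ℕ, ℝ) => (f : X × OnePoint ℕ → ℝ)) inferInstance)
          (⇑e.symm)) := by
  intro H
  have hX : Infinite (Ultrafilter ℕ) :=
    Infinite.of_injective (pure : ℕ → Ultrafilter ℕ) (fun a b h => by
      have h1 : ({a} : Set ℕ) ∈ (pure b : Ultrafilter ℕ) := by
        rw [← h]
        exact Ultrafilter.mem_pure.2 rfl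
      exact (Ultrafilter.mem_pure.1 h1).symm)
  have h := H (Ultrafilter ℕ) (fun A hA => (lequiv_iff _ _).1 (lstable A (lembedded' hA)))
  obtain ⟨e⟩ := (lequiv_iff (Ultrafilter ℕ × OnePoint ℕ) (Ultrafilter ℕ)).2 h
  obtain ⟨e'⟩ := lequiv_homeo ((Homeomorph.refl (Ultrafilter ℕ)).prodCongr seqHomeo)
  exact not_sstable ⟨e'.symm.trans e⟩

end Pool.Agent.S13574
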