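import Pool.Statements.S13589
import Pool.Agent.U331.ST.Trees

/-!
# Non-unique Steiner trees as maximal distance minimizers

Let `c 0, ..., c 3` be the corners of a square, let `S₀` and `T₀` be its two Steiner trees, and let
`e i` be the outer direction of the edge of `S₀` which ends in `c i`. Take the eight terminals `c i`
and `w i = c i + δ e i` with a small `δ`. The trees `S = S₀ ∪ ⋃ [c i, w i]` and
`T = T₀ ∪ ⋃ [c i, w i]` are Steiner trees for them. In `S` the `c i` are relative interior points of
segments, in `T` the two edges at `c i` form an angle of 150 degrees.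

Let `M` consist of the points `w i + r e i` and `c i + r n i`, where `n i` is the unit vector in the
direction of `e' i - e i` (`e' i` being the outer direction of the edge of `T₀` at `c i`). Then `S`
(and also `T`) is an `r`-minimizer for `M`. The lower bound for the length of a compact connected
set `W` within distance `r` of the points of `M` is obtained as follows. `W` is replaced by a finite
tree of nearly the same length. If no branch of the tree separates `w 0, w 2` from `w 1, w 3`, then
the constant vectors `e i` at the `w i` calibrate the tree. Otherwise the vectors `e i` at the `w i`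
and `e' i - e i` at the `c i` do, unless there is a branch which separates terminals near three of
the corners from terminals near two of the corners, and such trees are much longer.
-/

set_option autoImplicit false
open Pool Pool.MP_93ef73_gt

namespace Pool.Agent.S13589

/-- There exist d, a nonempty compact totally disconnected A in R^d with two distinct Steiner trees S, T, no terminal interior to segments in both, and nonempty compact M (∣M∣=∣A∣ if A finite) and r>0 with S an r-minimizer for M. -/
theorem result :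
  ∃ (d : ℕ) (A S T M : Set (EuclideanSpace ℝ (Fin d))) (r : ℝ),
    IsCompact A ∧ A.Nonempty ∧ IsTotallyDisconnected A ∧
    (IsCompact S ∧ IsConnected S ∧ A ⊆ S ∧
      MeasureTheory.Measure.hausdorffMeasure 1 S < ⊤ ∧
      ∀ S' : Set (EuclideanSpace ℝ (Fin d)), IsCompact S' → IsConnected S' → A ⊆ S' →
        MeasureTheory.Measure.hausdorffMeasure 1 S ≤ MeasureTheory.Measure.hausdorffMeasure 1 S') ∧
    (IsCompact T ∧ IsConnected T ∧ A ⊆ T ∧
      MeasureTheory.Measure.hausdorffMeasure 1 T < ⊤ ∧
      ∀ S' : Set (EuclideanSpace ℝ (Fin d)), IsCompact S' → IsConnected S' → A ⊆ S' →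
        MeasureTheory.Measure.hausdorffMeasure 1 T ≤ MeasureTheory.Measure.hausdorffMeasure 1 S') ∧
    S ≠ T ∧
    IsCompact M ∧ M.Nonempty ∧ 0 < r ∧
    (A.Finite → M.Finite ∧ M.ncard = A.ncard) ∧
    (¬ ∃ a ∈ A,
        (∃ x y : EuclideanSpace ℝ (Fin d), x ≠ y ∧ segment ℝ x y ⊆ S ∧ a ∈ openSegment ℝ x y) ∧
        (∃ x y : EuclideanSpace ℝ (Fin d), x ≠ y ∧ segment ℝ x y ⊆ T ∧ a ∈ openSegment ℝ x y)) ∧
    (∀ y ∈ M, Metric.infDist y S ≤ r) ∧
    ∀ W : Set (EuclideanSpace ℝ (Fin d)), IsCompact W → IsConnected W →
      (∀ y ∈ M, Metric.infDist y W ≤ r) →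
        MeasureTheory.Measure.hausdorffMeasure 1 S ≤ MeasureTheory.Measure.hausdorffMeasure 1 W := by
  have hAS : Set.range U331.ST.a ⊆ U331.ST.TS := by
    rintro _ ⟨q, rfl⟩
    exact U331.ST.a_mem_TS q
  have hAT : Set.range U331.ST.a ⊆ U331.ST.TT := by
    rintro _ ⟨q, rfl⟩
    exact U331.ST.a_mem_TT q
  refine ⟨2, Set.range U331.ST.a, U331.ST.TS, U331.ST.TT, Set.range U331.ST.y, 1 / 1000,
    (Set.finite_range _).isCompact, Set.range_nonempty _,
    (Set.finite_range _).countable.isTotallyDisconnected,
    ⟨U331.ST.isCompact_TS, U331.ST.isConnected_TS, hAS,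
      U331.ST.len_TS.trans_lt ENNReal.ofReal_lt_top, fun S' h1 h2 h3 =>
        U331.ST.len_TS.trans (U331.ST.steiner h1 h2 h3)⟩,
    ⟨U331.ST.isCompact_TT, U331.ST.isConnected_TT, hAT,
      U331.ST.len_TT.trans_lt ENNReal.ofReal_lt_top, fun S' h1 h2 h3 =>
        U331.ST.len_TT.trans (U331.ST.steiner h1 h2 h3)⟩,
    U331.ST.TS_ne_TT, (Set.finite_range _).isCompact, Set.range_nonempty _, by norm_num,
    fun _ => ⟨Set.finite_range _, ?_⟩, ?_, ?_, ?_⟩
  · rw [Set.ncard_range_of_injective U331.ST.y_inj, Set.ncard_range_of_injective U331.ST.a_inj]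
  · rintro ⟨_, ⟨q, rfl⟩, -, x, y, hxy, h, hq⟩
    exact U331.ST.not_interior q hxy h hq
  · rintro _ ⟨q, rfl⟩
    exact U331.ST.covers hAS q
  · intro W h1 h2 h3
    exact U331.ST.len_TS.trans (U331.ST.lower h1 h2 fun q => h3 _ ⟨q, rfl⟩)

end Pool.Agent.S13589
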