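import Pool.Statements.S13710
import Pool.Agent.U96.Unicoh.Quot
-- import your own Pool.Agent.* helpers here

set_option autoImplicit false
open Pool Pool.MP_a6a8af_gt

namespace Pool.Agent.S13710

/-- The negation of the preceding statement: If X is a locally connected metric continuum that is a union of two subcontinua with disconnected intersection, and f is a local homeomorphism of X onto a metric space Y, then Y is also such a union. -/
theorem result :
    ¬ (∀ (X Y : Type) [MetricSpace X] [CompactSpace X] [ConnectedSpace X]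
      [LocallyConnectedSpace X] [MetricSpace Y] (f : X → Y),
      IsLocalHomeomorph f → Function.Surjective f →
      (∃ A B : Set X, IsClosed A ∧ IsClosed B ∧ IsConnected A ∧ IsConnected B ∧
          A ∪ B = Set.univ ∧ ¬ IsConnected (A ∩ B)) →
      (∃ A B : Set Y, IsClosed A ∧ IsClosed B ∧ IsConnected A ∧ IsConnected B ∧
          A ∪ B = Set.univ ∧ ¬ IsConnected (A ∩ B))) := by
  intro h
  obtain ⟨A, B, hA, hB, hAc, hBc, hAB, hcon⟩ :=
    h Pool.Agent.U96.Unicoh.X Pool.Agent.U96.Unicoh.Y Pool.Agent.U96.Unicoh.f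
      Pool.Agent.U96.Unicoh.isLocalHomeomorph_f Pool.Agent.U96.Unicoh.surjective_f
      ⟨Pool.Agent.U96.Unicoh.S1, Pool.Agent.U96.Unicoh.S2,
        Pool.Agent.U96.Unicoh.isClosed_S1, Pool.Agent.U96.Unicoh.isClosed_S2,
        Pool.Agent.U96.Unicoh.isConnected_S1, Pool.Agent.U96.Unicoh.isConnected_S2,
        Pool.Agent.U96.Unicoh.union_S, Pool.Agent.U96.Unicoh.not_isConnected_inter⟩
  exact hcon (Pool.Agent.U96.Unicoh.isConnected_inter Pool.Agent.U96.Unicoh.LP_Y
    hA hB hAc hBc hAB)

end Pool.Agent.S13710
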