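import Pool.Statements.S13772
import Pool.Agent.U331.SC.Main

set_option autoImplicit false
open Pool Pool.MP_b1ea19_gt

namespace Pool.Agent.S13772

/-- The negation of the preceding statement: If X is a continuum in which every subcontinuum C has a connected set of local separating points, then any two distinct points of any connected subset of X are joined by an arc lying inside that subset. -/
theorem result :
    ¬ (∀ (X : Type) [MetricSpace X] [CompactSpace X] [ConnectedSpace X],
      (∀ C : Set X, IsCompact C → IsConnected C →
        IsPreconnected {p : X | p ∈ C ∧ ∃ V : Set X, IsOpen V ∧ p ∈ V ∧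
          ¬ IsPreconnected (connectedComponentIn (V ∩ C) p \ {p})}) →
      ∀ A : Set X, IsConnected A → ∀ x ∈ A, ∀ y ∈ A, x ≠ y →
        ∃ f : unitInterval → X, Continuous f ∧ Function.Injective f ∧
          f 0 = x ∧ f 1 = y ∧ Set.range f ⊆ A) := by
  intro h
  exact Pool.Agent.U331.SC.no_arc
    (h Pool.Agent.U331.SC.X Pool.Agent.U331.SC.isPreconnected_L _ Pool.Agent.U331.SC.isConnected_A
      Pool.Agent.U331.SC.o (Or.inr rfl) Pool.Agent.U331.SC.w
      (Or.inl ⟨by show (0 : ℝ) < 1 / 2; norm_num, by show (1 / 2 : ℝ) < 1; norm_num⟩)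
      (fun h => by
        have h1 : (0 : ℝ) = 1 / 2 := congrArg (fun p : Pool.Agent.U331.SC.X => (p : ℝ × ℝ).1) h
        norm_num at h1))

end Pool.Agent.S13772
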