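import Pool.Statements.S13851
import Pool.Agent.U540.FD.Ncd
import Pool.Agent.U540.FD.Mir

set_option autoImplicit false
open Pool Pool.MP_bed7e9_gt

namespace Pool.Agent.S13851

open Pool.Agent.U540.FD TopologicalSpace

/-- There is a Tychonoff space X of covering dimension 0 whose square is normal, yet the square is not a countable union of subspaces each of finite covering dimension (covering dimension defined via finite cozero-set covers). -/
theorem result :
  ∃ (X : Type) (_ : TopologicalSpace X), T35Space X ∧ NormalSpace (X × X) ∧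
    (∀ (m : ℕ) (U : Fin m → Set X),
      (∀ i, ∃ f : X → ℝ, Continuous f ∧ U i = {x | f x ≠ 0}) →
      (⋃ i, U i) = Set.univ →
      ∃ (k : ℕ) (V : Fin k → Set X),
        (∀ j, ∃ f : X → ℝ, Continuous f ∧ V j = {x | f x ≠ 0}) ∧
        (⋃ j, V j) = Set.univ ∧
        (∀ j, ∃ i, V j ⊆ U i) ∧
        ∀ x, {j : Fin k | x ∈ V j}.ncard ≤ 1) ∧
    ¬ ∃ A : ℕ → Set (X × X), (⋃ k, A k) = Set.univ ∧
      ∀ k, ∃ n : ℕ,
        ∀ (m : ℕ) (U : Fin m → Set (A k)),
          (∀ i, ∃ f : A k → ℝ, Continuous f ∧ U i = {x | f x ≠ 0}) →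
          (⋃ i, U i) = Set.univ →
          ∃ (l : ℕ) (V : Fin l → Set (A k)),
            (∀ j, ∃ f : A k → ℝ, Continuous f ∧ V j = {x | f x ≠ 0}) ∧
            (⋃ j, V j) = Set.univ ∧
            (∀ j, ∃ i, V j ⊆ U i) ∧
            ∀ x, {j : Fin l | x ∈ V j}.ncard ≤ n + 1 := by
  let _ : MetricSpace HC := metrizableSpaceMetric HC
  obtain ⟨L, hL⟩ := exists_catch HC
  refine ⟨Sp L, inferInstance, inferInstance, normal hL, ?_, ?_⟩
  · intro m U hU hc
    have hO : ∀ i, IsOpen (U i) := by
      intro i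
      obtain ⟨f, hf, hUf⟩ := hU i
      rw [hUf]
      exact isOpen_ne_fun hf continuous_const
    obtain ⟨V, hV1, hV2, hV3, hV4⟩ := dim_zero hL m U hO hc
    refine ⟨m, V, fun j => ?_, hV3, fun j => ⟨j, hV2 j⟩, fun x => ?_⟩
    · refine ⟨(V j).indicator fun _ => 1, ?_, ?_⟩
      · exact (hV1 j).continuous_indicator continuous_const
      · ext x
        simp [Set.indicator]
    · rw [Set.ncard_le_one_iff]
      intro a b ha hb
      exact hV4 x a b ha hb
  · rintro ⟨A, hA, hdim⟩
    have hproj : ∀ i : ℕ × ℕ, Continuous fun z : HC => ((z i : unitInterval) : ℝ) := fun i =>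
      continuous_subtype_val.comp (continuous_apply i)
    refine ncd (Q := HC) (L := L) (fun i z => ((z i : unitInterval) : ℝ)) hproj
      (fun i => ⟨fun _ => 0, rfl⟩) (fun i => ⟨fun _ => 1, rfl⟩) ?_ hL A hA hdim
    intro w hw h0 h1
    exact miranda w hw (fun i z hz => h0 i z (by simp [hz])) (fun i z hz => h1 i z (by simp [hz]))

end Pool.Agent.S13851
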