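import Pool.Statements.S13885
-- import your own Pool.Agent.* helpers here

set_option autoImplicit false
open Pool Pool.MP_c36963_gt

namespace Pool.Agent.S13885

/-- There exists r : ℂ → ℂ mapping the closed unit disk into the unit circle, fixing the circle, with connected fibers in the disk, such that only finitely many circle points y fail: for all circle sequences s_n → y, every point of the Kuratowski lim sup of the fibers r⁻¹(s_n) lies in r⁻¹(y). -/
theorem result :
    ∃ r : ℂ → ℂ,
      (∀ z ∈ Metric.closedBall (0:ℂ) 1, r z ∈ Metric.sphere (0:ℂ) 1) ∧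
      (∀ y ∈ Metric.sphere (0:ℂ) 1, r y = y) ∧
      (∀ y ∈ Metric.sphere (0:ℂ) 1,
        IsConnected {z : ℂ | z ∈ Metric.closedBall (0:ℂ) 1 ∧ r z = y}) ∧
      Set.Finite {y : ℂ | y ∈ Metric.sphere (0:ℂ) 1 ∧
        ¬ (∀ s : ℕ → ℂ, (∀ n, s n ∈ Metric.sphere (0:ℂ) 1) →
            Filter.Tendsto s Filter.atTop (nhds y) →
            ∀ x : ℂ, (∀ ε : ℝ, ε > 0 → ∀ N : ℕ, ∃ n : ℕ, n ≥ N ∧
                ∃ z : ℂ, z ∈ Metric.closedBall (0:ℂ) 1 ∧ r z = s n ∧ dist z x < ε) →
              r x = y)} := by
  classical
  refine ⟨fun z => if z ∈ Metric.sphere (0:ℂ) 1 then z else 1, ?_, ?_, ?_, ?_⟩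
  · intro z hz
    show (if z ∈ Metric.sphere (0:ℂ) 1 then z else 1) ∈ Metric.sphere (0:ℂ) 1
    by_cases h : z ∈ Metric.sphere (0:ℂ) 1
    · rw [if_pos h]; exact h
    · rw [if_neg h]; simp
  · intro y hy
    exact if_pos hy
  · intro y hy
    by_cases h1 : y = 1
    · subst h1
      have hset : {z : ℂ | z ∈ Metric.closedBall (0:ℂ) 1 ∧
          (if z ∈ Metric.sphere (0:ℂ) 1 then z else 1) = 1}
          = insert (1:ℂ) (Metric.ball (0:ℂ) 1) := by
        ext z
        simp only [Set.mem_ofPred_eq, Set.mem_insert_iff, Metric.mem_ball, Metric.mem_closedBall,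
          Metric.mem_sphere]
        constructor
        · rintro ⟨h1, h2⟩
          by_cases h : dist z 0 = 1
          · left; simpa [h] using h2
          · right; exact lt_of_le_of_ne h1 h
        · rintro (rfl | h)
          · simp
          · exact ⟨h.le, by rw [if_neg (ne_of_lt h)]⟩
      rw [hset]
      have hc : IsConnected (Metric.ball (0:ℂ) 1) :=
        (convex_ball (0:ℂ) 1).isConnected (Metric.nonempty_ball.2 one_pos)
      refine hc.subset_closure (Set.subset_insert _ _) ?_
      rw [closure_ball (0:ℂ) one_ne_zero]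
      intro z hz
      rcases hz with rfl | hz
      · simp
      · exact Metric.ball_subset_closedBall hz
    · have hset : {z : ℂ | z ∈ Metric.closedBall (0:ℂ) 1 ∧
          (if z ∈ Metric.sphere (0:ℂ) 1 then z else 1) = y} = {y} := by
        ext z
        simp only [Set.mem_ofPred_eq, Set.mem_singleton_iff]
        constructor
        · rintro ⟨_, h2⟩
          by_cases h : z ∈ Metric.sphere (0:ℂ) 1
          · rw [if_pos h] at h2; exact h2
          · rw [if_neg h] at h2
            exact absurd h2.symm h1
        · rintro rfl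
          exact ⟨Metric.sphere_subset_closedBall hy, if_pos hy⟩
      rw [hset]
      exact isConnected_singleton
  · refine (Set.finite_singleton (1:ℂ)).subset ?_
    rintro y ⟨hy, hbad⟩
    by_contra h1
    apply hbad
    intro s hs hlim x hx
    have h1' : y ≠ 1 := h1
    -- eventually s n ≠ 1
    have hev : ∀ᶠ n in Filter.atTop, s n ≠ 1 := hlim.eventually_ne h1'
    obtain ⟨N₀, hN₀⟩ := Filter.eventually_atTop.1 hev
    have hxy : x = y := by
      by_contra hne
      have hd : 0 < dist x y := dist_pos.2 hne
      obtain ⟨N₁, hN₁⟩ := (Metric.tendsto_atTop.1 hlim) (dist x y / 2) (by positivity)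
      obtain ⟨n, hn, z, hz, hrz, hzx⟩ := hx (dist x y / 2) (by positivity) (max N₀ N₁)
      have hz' : z = s n := by
        have hrz' : (if z ∈ Metric.sphere (0:ℂ) 1 then z else 1) = s n := hrz
        by_cases h : z ∈ Metric.sphere (0:ℂ) 1
        · rw [if_pos h] at hrz'; exact hrz'
        · rw [if_neg h] at hrz'
          exact absurd hrz'.symm (hN₀ n (le_trans (le_max_left _ _) hn))
      have h2 := hN₁ n (le_trans (le_max_right _ _) hn)
      rw [← hz'] at h2
      have h3 := dist_triangle x z y
      rw [dist_comm x z] at h3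
      linarith
    subst hxy
    exact if_pos hy

end Pool.Agent.S13885
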