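import Pool.Statements.S13892
import Pool.Agent.U540.VD.Fin
import Pool.Agent.U540.VD.Om

/-!
# MP_c4305c_gt: the answer to Q1 is negative

Let `X` be the real line with a van Douwen topology: finer than the usual one, locally compact,
locally countable, and such that for closed sets `F_n` with empty intersection the usual closures of
the `F_n` have a countable intersection (`Pool/Agent/U540/VD`). Then `X` is normal, countably
paracompact and collectionwise normal. Let `C` be its one-point compactification. A normal
`X × C` would give an open cover of `X` with countable stars, hence a partition of `X` into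
uncountably many countable open sets, but closed discrete subsets of `X` are countable. On the other
hand `C` is countably tight, since the topology of `X` is finer than that of the line; so
`ω₁ × C` is normal. As `ω₁` is not `ω₁`-paracompact, no cardinal `λ > ω₁` works for `C`, and for
`λ ≤ ω₁` the space `X` satisfies both conditions although `X × C` is not normal.
-/

set_option autoImplicit false
open Pool Pool.MP_c4305c_gt

namespace Pool.Agent.S13892

/-- The negation of the preceding statement: For each infinite compact Hausdorff C there is a cardinal λ so that for every T1 space X: X×C is normal iff X is <λ-paracompact and w(C)-collectionwise normal, where w(C) is the least size of a base of C. -/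
theorem result :
    ¬ (∀ (C : Type) [TopologicalSpace C] [CompactSpace C] [T2Space C] [Infinite C],
    ∃ lam : Cardinal.{0}, ∀ (X : Type) [TopologicalSpace X] [T1Space X],
      (NormalSpace (X × C) ↔
        ((∀ (ι : Type) (U : ι → Set X), Cardinal.mk ι < lam → (∀ i, IsOpen (U i)) →
            (⋃ i, U i) = Set.univ →
            ∃ V : ι → Set X, (∀ i, IsOpen (V i)) ∧ (∀ i, V i ⊆ U i) ∧
              (⋃ i, V i) = Set.univ ∧ LocallyFinite V) ∧
         (∀ (ι : Type) (F : ι → Set X),
            Cardinal.mk ι ≤ sInf {κ : Cardinal.{0} | ∃ B : Set (Set C),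
              TopologicalSpace.IsTopologicalBasis B ∧ Cardinal.mk B = κ} →
            (∀ i, IsClosed (F i)) →
            (∀ x : X, ∃ W ∈ nhds x, ∀ i j, (W ∩ F i).Nonempty → (W ∩ F j).Nonempty → i = j) →
            ∃ V : ι → Set X, (∀ i, IsOpen (V i)) ∧ (∀ i, F i ⊆ V i) ∧
              Pairwise (Function.onFun Disjoint V))))) := by
  intro h
  obtain ⟨L, hL⟩ := Pool.Agent.U540.VD.exists_good
  have hinf : Infinite (Pool.Agent.U540.VD.Sp L) := inferInstanceAs (Infinite ℝ)
  have hinf2 : Infinite (OnePoint (Pool.Agent.U540.VD.Sp L)) :=
    Infinite.of_injective _ OnePoint.coe_injective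
  obtain ⟨lam, hlam⟩ := h (OnePoint (Pool.Agent.U540.VD.Sp L))
  by_cases hl : Cardinal.aleph 1 < lam
  · obtain ⟨W, hW1, hW2, hc, hu, hcard⟩ := Pool.Agent.U540.VD.exists_om
    letI : TopologicalSpace W := Preorder.topology W
    haveI : OrderTopology W := ⟨rfl⟩
    have hn : NormalSpace (W × OnePoint (Pool.Agent.U540.VD.Sp L)) :=
      Pool.Agent.U540.VD.om_normal hc hu Pool.Agent.U540.VD.tight
    obtain ⟨V, h1, h2, h3, h4⟩ := ((hlam W).1 hn).1 W (fun a => Set.Iio a) (by rw [hcard]; exact hl)
      (fun a => isOpen_Iio) (by
        rw [Set.eq_univ_iff_forall]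
        intro x
        obtain ⟨b, hb⟩ := Pool.Agent.U540.VD.om_noMax hc hu x
        exact Set.mem_iUnion.2 ⟨b, hb⟩)
    exact Pool.Agent.U540.VD.om_not_para hc hu V h1 h2 h3 h4
  · refine Pool.Agent.U540.VD.not_normal hL ((hlam (Pool.Agent.U540.VD.Sp L)).2 ⟨?_, ?_⟩)
    · intro ι U hι hU hcov
      have h1 : Cardinal.mk ι ≤ Cardinal.aleph0 :=
        Cardinal.lt_aleph_one_iff.1 (hι.trans_le (not_lt.1 hl))
      have : Countable ι := Cardinal.mk_le_aleph0_iff.1 h1
      exact Pool.Agent.U540.VD.para hL U hU hcov
    · intro ι F _ hF hd
      exact Pool.Agent.U540.VD.cwn hL F hF hd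

end Pool.Agent.S13892
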