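import Pool.Statements.S14090
import Pool.Agent.U892.K5Space

set_option autoImplicit false
open Pool Pool.MP_de0764_gt

namespace Pool.Agent.S14090

/-- The negation of the preceding statement: Take any nondegenerate locally connected metric continuum Y in which every subcontinuum without cut points is completely regular. Then some plane continuum X has a continuous open surjection onto Y whose fibers are all nondegenerate decomposable continua. -/
theorem result :
    ¬ (∀ (Y : Type) [TopologicalSpace Y] [TopologicalSpace.MetrizableSpace Y] [CompactSpace Y]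
      [ConnectedSpace Y] [LocallyConnectedSpace Y] [Nontrivial Y],
      (∀ K : Set Y, IsClosed K → IsConnected K → (∀ p ∈ K, IsPreconnected (K \ {p})) →
        ∀ L : Set Y, L ⊆ K → IsClosed L → IsConnected L → L.Nontrivial →
          ∃ U : Set Y, IsOpen U ∧ (U ∩ K).Nonempty ∧ U ∩ K ⊆ L) →
      ∃ (S : Set (EuclideanSpace ℝ (Fin 2))) (f : ↥S → Y),
        IsCompact S ∧ IsConnected S ∧ Continuous f ∧ IsOpenMap f ∧ Function.Surjective f ∧
        ∀ y : Y,
          IsConnected (Subtype.val '' (f ⁻¹' {y})) ∧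
          (Subtype.val '' (f ⁻¹' {y})).Nontrivial ∧
          ∃ A B : Set (EuclideanSpace ℝ (Fin 2)),
            IsClosed A ∧ IsConnected A ∧ IsClosed B ∧ IsConnected B ∧
            A ⊂ Subtype.val '' (f ⁻¹' {y}) ∧ B ⊂ Subtype.val '' (f ⁻¹' {y}) ∧
            A ∪ B = Subtype.val '' (f ⁻¹' {y})) := by
  intro H
  obtain ⟨S, f, hS, -, hf, -, hsurj, hfib⟩ := H Pool.Agent.U892.K5.Y (by
    intro K _ _ _ L hLK hLc hLconn hLnt
    obtain ⟨U, hUo, hUne, hUL⟩ := Pool.Agent.U892.K5.exists_open hLc hLconn hLnt
    obtain ⟨z, hz⟩ := hUne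
    exact ⟨U, hUo, ⟨z, hz, hLK (hUL hz)⟩, fun w hw => hUL hw.1⟩)
  exact Pool.Agent.U892.K5.no_monotone S f hS hf hsurj (fun y => (hfib y).1)

end Pool.Agent.S14090
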