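import Pool.Statements.S14257
import Pool.Agent.U85.HP.Free

set_option autoImplicit false
open Pool Pool.MP_f7c3cd_gt

namespace Pool.Agent.S14257

open Pool.Agent.U85.HP in
/-- The core: a labelling of the plane for a family of sides, one of each complementary pair. -/
lemma core_cong {I : Type} [Nonempty I] (V : Set (Set I)) (hV : V.Nonempty)
    (hcard : Cardinal.mk V ≤ Cardinal.continuum)
    (hprop : ∀ A ∈ V, A.Nonempty ∧ A ≠ Set.univ)
    (hsep : ∀ A ∈ V, ∀ B ∈ V, A ≠ Bᶜ) :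
    ∃ l : UpperHalfPlane → I, ∀ A B : Set I, (A ∈ V ∨ Aᶜ ∈ V) → (B ∈ V ∨ Bᶜ ∈ V) →
      ∃ g : IsometryEquiv UpperHalfPlane UpperHalfPlane, g '' (l ⁻¹' A) = l ⁻¹' B := by
  obtain ⟨t, ht⟩ := exists_algInd hcard
  obtain ⟨A₀, hA₀⟩ := hV
  obtain ⟨l, hl1, hl2⟩ := label_sets (X := UpperHalfPlane) (ι := V) ⟨A₀, hA₀⟩
    (fun v => (v : Set I)) (fun v => hprop _ v.2)
    (fun i j hij => ⟨fun h => hij (Subtype.ext h), hsep _ i.2 _ j.2⟩)
    (sigma t) (fun k hk x => sigma_free t _ hk x) (fun x w q h1 h2 => sigma_comm ht x w q h1 h2)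
  -- isometries
  let G : V → IsometryEquiv UpperHalfPlane UpperHalfPlane :=
    fun v => IsometryEquiv.constSMul (hSL (t v))⁻¹
  have hG : ∀ v x, G v x = sigma t v x := fun v x => rfl
  have himg : ∀ (g : IsometryEquiv UpperHalfPlane UpperHalfPlane) (S T : Set UpperHalfPlane),
      (∀ x, x ∈ S ↔ g x ∈ T) → g '' S = T := by
    intro g S T h
    ext y
    constructor
    · rintro ⟨x, hx, rfl⟩
      exact (h x).1 hx
    · intro hy
      refine ⟨g.symm y, ?_, by simp⟩
      rw [h]; simpa using hy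
  -- from the base set to any set of `V`
  have h1 : ∀ B ∈ V, ∃ g : IsometryEquiv UpperHalfPlane UpperHalfPlane,
      ∀ x, l x ∈ A₀ ↔ l (g x) ∈ B := by
    intro B hB
    by_cases hBA : B = A₀
    · subst hBA
      exact ⟨IsometryEquiv.refl _, fun x => Iff.rfl⟩
    · refine ⟨G ⟨B, hB⟩, fun x => ?_⟩
      have := hl2 ⟨B, hB⟩ (fun h => hBA (congrArg Subtype.val h)) x
      exact this
  have h2 : ∀ B, (B ∈ V ∨ Bᶜ ∈ V) → ∃ g : IsometryEquiv UpperHalfPlane UpperHalfPlane,
      ∀ x, l x ∈ A₀ ↔ l (g x) ∈ B := by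
    intro B hB
    rcases hB with hB | hB
    · exact h1 B hB
    · obtain ⟨g, hg⟩ := h1 _ hB
      refine ⟨(G ⟨A₀, hA₀⟩).trans g, fun x => ?_⟩
      have e1 : l x ∈ A₀ ↔ l (G ⟨A₀, hA₀⟩ x) ∉ A₀ := hl1 x
      have e2 := hg (G ⟨A₀, hA₀⟩ x)
      rw [e1, e2]
      simp
  refine ⟨l, fun A B hA hB => ?_⟩
  obtain ⟨g, hg⟩ := h2 A hA
  obtain ⟨g', hg'⟩ := h2 B hB
  refine ⟨g.symm.trans g', himg _ _ _ fun x => ?_⟩
  have e1 := hg (g.symm x)
  have e2 := hg' (g.symm x)
  rw [IsometryEquiv.apply_symm_apply] at e1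
  show l x ∈ A ↔ l (g' (g.symm x)) ∈ B
  rw [← e1, e2]

/-- Every proper system of at most continuum many congruences among at most continuum many (nonempty index set) sets has a solution: a partition of the hyperbolic plane where each congruence holds via some hyperbolic isometry. -/
theorem result :
    ∀ (I M : Type) (L R : M → Set I),
      Nonempty I →
      Cardinal.mk I ≤ Cardinal.continuum →
      Cardinal.mk M ≤ Cardinal.continuum →
      (∀ i, (L i).Nonempty ∧ L i ≠ Set.univ ∧ (R i).Nonempty ∧ R i ≠ Set.univ) →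
      ∃ A : I → Set UpperHalfPlane,
        Pairwise (fun j k => Disjoint (A j) (A k)) ∧
        (⋃ j, A j) = Set.univ ∧
        ∀ i, ∃ g : IsometryEquiv UpperHalfPlane UpperHalfPlane,
          g '' (⋃ j ∈ L i, A j) = ⋃ j ∈ R i, A j := by
  classical
  intro I M L R hI _ hM hLR
  obtain ⟨i₀⟩ := id hI
  -- it suffices to find a labelling
  suffices h : ∃ l : UpperHalfPlane → I, ∀ i, ∃ g : IsometryEquiv UpperHalfPlane UpperHalfPlane,
      g '' (l ⁻¹' (L i)) = l ⁻¹' (R i) by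
    obtain ⟨l, hl⟩ := h
    have hU : ∀ B : Set I, (⋃ j ∈ B, l ⁻¹' {j}) = l ⁻¹' B := by
      intro B; ext x; simp
    refine ⟨fun j => l ⁻¹' {j}, ?_, ?_, ?_⟩
    · intro j k hjk
      show Disjoint (l ⁻¹' {j}) (l ⁻¹' {k})
      exact Disjoint.preimage l (by simpa using hjk)
    · ext x; simp
    · intro i
      obtain ⟨g, hg⟩ := hl i
      exact ⟨g, by rw [hU, hU]; exact hg⟩
  by_cases hMe : IsEmpty M
  · exact ⟨fun _ => i₀, fun i => hMe.elim i⟩
  · rw [not_isEmpty_iff] at hMe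
    obtain ⟨m₀⟩ := hMe
    let rep : Set I → Set I := fun A => if i₀ ∈ A then A else Aᶜ
    let F : M ⊕ M → Set I := Sum.elim (fun m => rep (L m)) (fun m => rep (R m))
    let V : Set (Set I) := Set.range F
    have hrep : ∀ A, i₀ ∈ rep A := by
      intro A
      by_cases h : i₀ ∈ A
      · simp [rep, h]
      · simp [rep, h]
    have hrepne : ∀ A : Set I, A.Nonempty → A ≠ Set.univ → rep A ≠ Set.univ := by
      intro A h1 h2
      by_cases h : i₀ ∈ A
      · simpa [rep, h] using h2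
      · simp only [rep, h, if_false]
        intro h3
        rw [Set.compl_univ_iff] at h3
        exact h1.ne_empty h3
    have hFi : ∀ v ∈ V, i₀ ∈ v := by
      rintro _ ⟨m | m, rfl⟩ <;> exact hrep _
    have hFne : ∀ v ∈ V, v ≠ Set.univ := by
      rintro _ ⟨m | m, rfl⟩
      · exact hrepne _ (hLR m).1 (hLR m).2.1
      · exact hrepne _ (hLR m).2.2.1 (hLR m).2.2.2
    have hcard : Cardinal.mk V ≤ Cardinal.continuum := by
      refine Cardinal.mk_range_le.trans ?_
      rw [Cardinal.mk_sum, Cardinal.lift_id]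
      exact Cardinal.add_le_of_le Cardinal.aleph0_le_continuum hM hM
    have hrepV : ∀ A : Set I, rep A ∈ V → A ∈ V ∨ Aᶜ ∈ V := by
      intro A h
      by_cases h' : i₀ ∈ A
      · simp only [rep, h', if_true] at h; exact Or.inl h
      · simp only [rep, h', if_false] at h; exact Or.inr h
    obtain ⟨l, hl⟩ := core_cong V ⟨_, Sum.inl m₀, rfl⟩ hcard
      (fun v hv => ⟨⟨i₀, hFi v hv⟩, hFne v hv⟩)
      (fun A hA B hB h => by
        have h1 := hFi A hA
        have h2 := hFi B hB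
        rw [h] at h1
        exact h1 h2)
    exact ⟨l, fun i => hl _ _ (hrepV _ ⟨Sum.inl i, rfl⟩) (hrepV _ ⟨Sum.inr i, rfl⟩)⟩

end Pool.Agent.S14257
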