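import Pool.Statements.S14568
import Pool.Agent.U44.Col

/-!
The answer to the question is negative. Let `A` be a 1-generic set computable from the halting
problem. Let `G` be a computable graph whose neighbour lists `N x` are computable in `A`. The
relation `there is a neighbour of x which is at least v` is c.e., so the c.e. set of the strings
that compute a wrong bound is not met by `A`; hence some initial segment of `A` has no extension
in it, and a computable bound of the neighbours of `x` is found by a search above this segment.
So `G` is highly computable and has a computable colouring with four colours.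
-/

set_option autoImplicit false
open Classical
open Pool Pool.MP_354b3e_lc

namespace Pool.Agent.S14568

open Pool.Agent.U44.Gen Pool.Agent.Helper446.Defs in
/-- The code of a finite set of natural numbers is larger than all its elements. -/
theorem lt_encode (F : Finset ℕ) (y : ℕ) (h : y ∈ F) : y < Encodable.encode F := by
  have hl : ∀ l : List ℕ, y ∈ l → y < Encodable.encode l := by
    intro l
    induction l with
    | nil => intro h; simp at h
    | cons a l ih =>
      intro h
      have e : Encodable.encode (a :: l) = Nat.succ (Nat.pair a (Encodable.encode l)) := rfl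
      rw [e]
      rcases List.mem_cons.1 h with rfl | h
      · exact Nat.lt_succ_of_le (Nat.left_le_pair _ _)
      · exact lt_trans (ih h) (Nat.lt_succ_of_le (Nat.right_le_pair _ _))
  have e : Encodable.encode F = Encodable.encode F.val := rfl
  rw [e]
  have h1 : (Encodable.decode (Encodable.encode F.val) : Option (Multiset ℕ)) = some F.val :=
    Encodable.encodek _
  have h2 : ((fun l : List ℕ => (l : Multiset ℕ)) <$>
      (Encodable.decode (Encodable.encode F.val) : Option (List ℕ))) = some F.val := h1
  rw [Denumerable.decode_eq_ofNat] at h2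
  have h3 : ((Denumerable.ofNat (List ℕ) (Encodable.encode F.val) : List ℕ) : Multiset ℕ) =
      F.val := Option.some.inj h2
  have h4 : y ∈ Denumerable.ofNat (List ℕ) (Encodable.encode F.val) := by
    have h5 : y ∈ F.val := h
    rw [← h3] at h5
    exact Multiset.mem_coe.1 h5
  have h6 := hl _ h4
  rwa [Denumerable.encode_ofNat] at h6

/-- The negation of the preceding statement: For every noncomputable A Turing-below the halting set there is a computable, locally finite, planar graph on ℕ whose neighbour lists are A-computable, with chromatic number 2, but with no computable proper colouring using finitely many colours. -/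
theorem result :
    ¬ (∀ A : Set ℕ,
      ¬ ComputablePred (fun n : ℕ => n ∈ A) →
      TuringReducible (fun n : ℕ => Part.some (if n ∈ A then (1 : ℕ) else 0))
        (fun n : ℕ => Part.some
          (if ((Denumerable.ofNat Nat.Partrec.Code n).eval n).Dom then (1 : ℕ) else 0)) →
      ∃ G : SimpleGraph ℕ,
        ComputablePred (fun p : ℕ × ℕ => G.Adj p.1 p.2) ∧
        (∃ N : ℕ → Finset ℕ, (∀ x y : ℕ, G.Adj x y ↔ y ∈ N x) ∧
          TuringReducible (fun x : ℕ => Part.some (Encodable.encode (N x)))
            (fun n : ℕ => Part.some (if n ∈ A then (1 : ℕ) else 0))) ∧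
        (∃ f : ℕ → EuclideanSpace ℝ (Fin 2), Function.Injective f ∧
          ∃ γ : ∀ u v : ℕ, Path (f u) (f v),
            (∀ u v : ℕ, G.Adj u v → Function.Injective (fun t : unitInterval => γ u v t)) ∧
            (∀ u v w : ℕ, G.Adj u v → ∀ t : unitInterval, γ u v t = f w → w = u ∨ w = v) ∧
            (∀ u v u' v' : ℕ, G.Adj u v → G.Adj u' v' →
              Sym2.mk (u, v) ≠ Sym2.mk (u', v') →
              ∀ t t' : unitInterval, γ u v t = γ u' v' t' →
                ∃ w : ℕ, (w = u ∨ w = v) ∧ (w = u' ∨ w = v') ∧ γ u v t = f w)) ∧
        G.chromaticNumber = 2 ∧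
        ∀ k : ℕ, ∀ c : ℕ → ℕ, Computable c → (∀ x, c x < k) →
          ∃ x y : ℕ, G.Adj x y ∧ c x = c y) := by
  intro H
  have hA : ∀ B : Set ℕ, (fun n : ℕ => Part.some (if n ∈ B then (1 : ℕ) else 0)) =
      Pool.Agent.Helper446.Defs.chi B := by
    intro B
    funext n
    unfold Pool.Agent.Helper446.Defs.chi Pool.Agent.Helper446.Defs.chiN
    rfl
  obtain ⟨Γ, h1, ⟨N, h2, h3⟩, -, h4, h5⟩ := H Pool.Agent.U44.Gen.A
    Pool.Agent.U44.Gen.A_not_computable (by
      rw [hA]
      exact Pool.Agent.U44.Gen.A_le)
  rw [hA] at h3
  obtain ⟨m, hm1, hm2⟩ := Pool.Agent.U44.Gen.bound (R := fun x y => Γ.Adj x y) h1 h3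
    (fun x y hxy => lt_encode _ _ ((h2 x y).1 hxy))
  have h6 : Γ.Colorable 2 := by
    rw [← SimpleGraph.chromaticNumber_le_iff_colorable, h4]
    exact le_rfl
  obtain ⟨c, hc1, hc2, hc3⟩ := Pool.Agent.U44.Gen.colour h1 hm1 hm2 h6
  obtain ⟨x, y, hxy, he⟩ := h5 4 c hc1 hc2
  exact hc3 x y hxy he

end Pool.Agent.S14568
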