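import Pool.Statements.S14615
import Pool.Agent.U44.ISO.Graph
import Pool.Agent.U44.ISO.Fin

set_option autoImplicit false
open Pool Pool.MP_3d45c4_lc

namespace Pool.Agent.S14615

open Pool.Agent.Q223.IS Pool.Agent.U44.ISO

theorem Xw_single {J M : Type} [Fintype J] [DecidableEq J] [Group M] (x : J → M) (e : J) (k : ℤ) :
    Xw x (Pi.single e k) = x e ^ k := by
  unfold Xw
  have h : ∀ l : List J, l.Nodup → e ∈ l →
      (l.map fun c => x c ^ (Pi.single e k : J → ℤ) c).prod = x e ^ k := by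
    intro l
    induction l with
    | nil => intro _ h; exact absurd h List.not_mem_nil
    | cons d l ih =>
      intro hn he
      rw [List.map_cons, List.prod_cons]
      rw [List.nodup_cons] at hn
      by_cases hd : d = e
      · subst hd
        rw [Pi.single_eq_same]
        have : (l.map fun c => x c ^ (Pi.single d k : J → ℤ) c).prod = 1 := by
          apply List.prod_eq_one
          intro y hy
          obtain ⟨c, hc, rfl⟩ := List.mem_map.1 hy
          rw [Pi.single_eq_of_ne, zpow_zero]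
          rintro rfl
          exact hn.1 hc
        rw [this, mul_one]
      · rw [Pi.single_eq_of_ne hd, zpow_zero, one_mul]
        refine ih hn.2 ?_
        rcases List.mem_cons.1 he with h | h
        · exact absurd h.symm hd
        · exact h
  exact h _ (Finset.nodup_toList _) (Finset.mem_toList.2 (Finset.mem_univ _))

/-- The reduction of a c.e. equivalence relation. -/
theorem hard (R : ℕ → ℕ → Prop) (hR : Equivalence R)
    (hre : REPred (fun p : ℕ × ℕ => R p.1 p.2)) :
    ∃ f : ℕ → ℕ × List Wd, Computable f ∧ ∀ x y, R x y ↔ Nonempty (PG (f x) ≃* PG (f y)) := by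
  classical
  obtain ⟨X, hX, n, m, L, -, hD⟩ := Pool.Agent.Y786.ISO.t R hre
  let F1 : Sta L → Fin 5 ⊕ (Fin L.length ⊕ Fin L.length) := fun
    | Sta.B => Sum.inl 0
    | Sta.P1 => Sum.inl 1
    | Sta.V => Sum.inl 2
    | Sta.P2 => Sum.inl 3
    | Sta.E => Sum.inl 4
    | Sta.V1 q => Sum.inr (Sum.inl q)
    | Sta.V2 q => Sum.inr (Sum.inr q)
  have i1 : Function.Injective F1 := by
    rintro (_ | _ | _ | _ | _ | q | q) (_ | _ | _ | _ | _ | q' | q') h <;>
      simp [F1] at h ⊢ <;> assumption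
  let F2 : Ru L → Fin 4 ⊕ (X ⊕ (Cn L ⊕ (Fin 5 × Fin L.length))) := fun
    | Ru.start => Sum.inl 0
    | Ru.toV => Sum.inl 1
    | Ru.out => Sum.inl 2
    | Ru.fin => Sum.inl 3
    | Ru.f1 x => Sum.inr (Sum.inl x)
    | Ru.f2 c => Sum.inr (Sum.inr (Sum.inl c))
    | Ru.r1 q => Sum.inr (Sum.inr (Sum.inr (0, q)))
    | Ru.r2 q => Sum.inr (Sum.inr (Sum.inr (1, q)))
    | Ru.r3 q => Sum.inr (Sum.inr (Sum.inr (2, q)))
    | Ru.r4 q => Sum.inr (Sum.inr (Sum.inr (3, q)))
    | Ru.r5 q => Sum.inr (Sum.inr (Sum.inr (4, q)))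
  have i2 : Function.Injective F2 := by
    rintro (_ | _ | _ | _ | x | c | q | q | q | q | q)
      (_ | _ | _ | _ | x' | c' | q' | q' | q' | q' | q') h <;>
      simp [F2] at h ⊢ <;> assumption
  have : Finite (Sta L) := Finite.of_injective F1 i1
  have : Finite (Ru L) := Finite.of_injective F2 i2
  have : Fintype (Sta L) := Fintype.ofFinite _
  have : Fintype (Ru L) := Fintype.ofFinite _
  refine code_iso (rl := rel (rul n m L)) (r := gr (Sta L) (Cn L)) (s := gs (rul n m L))
    (u := gx (Sta L) (Cn L) (Ru L) (cx L n)) (v := gt (Cn L) (Ru L) Sta.B)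
    (u' := gx (Sta L) (Cn L) (Ru L) (cx L m)) (v' := gt (Cn L) (Ru L) Sta.E) R hR ?_
  intro a b
  have e1 : gx (Sta L) (Cn L) (Ru L) (cx L n) ^ a * gt (Cn L) (Ru L) Sta.B =
      gw (Ru L) (Sta.B, Pi.single (cx L n) (a : ℤ)) := by
    unfold gw
    rw [Xw_single, zpow_natCast]
  have e2 : gx (Sta L) (Cn L) (Ru L) (cx L m) ^ b * gt (Cn L) (Ru L) Sta.E =
      gw (Ru L) (Sta.E, Pi.single (cx L m) (b : ℤ)) := by
    unfold gw
    rw [Xw_single, zpow_natCast]
  rw [e1, e2]
  constructor
  · intro h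
    have h' : Dbl (rul n m L) (gw (Ru L) (Sta.B, Pi.single (cx L n) (a : ℤ)))
      (gw (Ru L) (Sta.E, Pi.single (cx L m) (b : ℤ))) := h
    have h1 := dbl_sound (rul n m L) (closed n m L (k := b) hR hD) h' (by
      show cl R b ((Pi.single (cx L m) (b : ℤ) : Cn L → ℤ) (cx L m))
      rw [Pi.single_eq_same]
      exact ⟨b, rfl, hR.refl b⟩)
    have h2 : cl R b ((Pi.single (cx L n) (a : ℤ) : Cn L → ℤ) (cx L n)) := h1
    rw [Pi.single_eq_same] at h2
    obtain ⟨a', ha', h3⟩ := h2
    have : a' = a := by exact_mod_cast ha'.symm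
    rw [this] at h3
    exact h3
  · intro h
    obtain ⟨v, hn, hm, hv⟩ := (hD (a : ℤ) (b : ℤ)).2 ⟨a, b, rfl, rfl, h⟩
    have h1 := graph_complete n m L v hv
    rw [hn, hm] at h1
    exact dbl_eqv (rul n m L) h1

/-- Isomorphism of finitely presented groups, as a relation on codes of finite presentations, is computably enumerable, and every c.e. equivalence relation on ℕ computably reduces to it. -/
theorem result :
    ∀ E : ℕ × List (List (ℕ × Bool)) → ℕ × List (List (ℕ × Bool)) → Prop,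
      (∀ a b, E a b ↔ Nonempty
        (PresentedGroup {g : FreeGroup (Fin a.1) | ∃ w ∈ a.2, g = FreeGroup.mk
            (w.filterMap (fun q => if h : q.1 < a.1 then some ((⟨q.1, h⟩ : Fin a.1), q.2) else none))}
          ≃* PresentedGroup {g : FreeGroup (Fin b.1) | ∃ w ∈ b.2, g = FreeGroup.mk
            (w.filterMap (fun q => if h : q.1 < b.1 then some ((⟨q.1, h⟩ : Fin b.1), q.2) else none))})) →
      REPred (fun p : (ℕ × List (List (ℕ × Bool))) × (ℕ × List (List (ℕ × Bool))) => E p.1 p.2) ∧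
      ∀ R : ℕ → ℕ → Prop, Equivalence R → REPred (fun p : ℕ × ℕ => R p.1 p.2) →
        ∃ f : ℕ → ℕ × List (List (ℕ × Bool)), Computable f ∧ ∀ x y, R x y ↔ E (f x) (f y) := by
  intro E hE
  refine ⟨iso_re.of_eq fun p => (hE p.1 p.2).symm, ?_⟩
  intro R hR hre
  obtain ⟨f, hf, h⟩ := hard R hR hre
  exact ⟨f, hf, fun x y => (h x y).trans (hE (f x) (f y)).symm⟩

end Pool.Agent.S14615
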