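import Pool.Statements.S14767
import Pool.Agent.Results.MP_5f3cbe_lc.AdmissibleDefinable

set_option autoImplicit false
open Pool Pool.MP_5f3cbe_lc

namespace Pool.Agent.S14767

open Pool.Agent.V11234.HD Pool.Agent.Results.MP_5f3cbe_lc.AdmissibleDefinable in
/-- The ring of the frozen statement is isomorphic to the ring `HD`. -/
theorem exists_equiv :
    ∃ e : ↥(Subring.closure {g : ℂ → ℂ | DifferentiableOn ℂ g (Metric.ball (0:ℂ) 1) ∧
                ∀ z ∉ Metric.ball (0:ℂ) 1, g z = g 0}) ≃+* HD,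
      ∀ f, ∀ z : Metric.ball (0:ℂ) 1, (e f).1 z = (f : ℂ → ℂ) z := by
  classical
  set R := Subring.closure {g : ℂ → ℂ | DifferentiableOn ℂ g (Metric.ball (0:ℂ) 1) ∧
                ∀ z ∉ Metric.ball (0:ℂ) 1, g z = g 0} with hR
  have hmem : ∀ f ∈ R, DifferentiableOn ℂ f (Metric.ball (0:ℂ) 1) ∧
      ∀ z ∉ Metric.ball (0:ℂ) 1, f z = f 0 := by
    intro f hf
    refine Subring.closure_induction (p := fun f _ => DifferentiableOn ℂ f (Metric.ball (0:ℂ) 1) ∧
      ∀ z ∉ Metric.ball (0:ℂ) 1, f z = f 0) ?_ ?_ ?_ ?_ ?_ ?_ hf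
    · intro x hx; exact hx
    · exact ⟨differentiableOn_const _, fun z _ => rfl⟩
    · exact ⟨differentiableOn_const _, fun z _ => rfl⟩
    · rintro x y _ _ ⟨h1, h2⟩ ⟨h3, h4⟩
      exact ⟨h1.add h3, fun z hz => by rw [Pi.add_apply, Pi.add_apply, h2 z hz, h4 z hz]⟩
    · rintro x _ ⟨h1, h2⟩
      exact ⟨h1.neg, fun z hz => by rw [Pi.neg_apply, Pi.neg_apply, h2 z hz]⟩
    · rintro x y _ _ ⟨h1, h2⟩ ⟨h3, h4⟩
      exact ⟨h1.mul h3, fun z hz => by rw [Pi.mul_apply, Pi.mul_apply, h2 z hz, h4 z hz]⟩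
  let F : R →+* HD :=
    { toFun := fun f => ⟨fun z => (f : ℂ → ℂ) z, (f : ℂ → ℂ), (hmem f.1 f.2).1, fun _ => rfl⟩
      map_one' := rfl
      map_mul' := fun _ _ => rfl
      map_zero' := rfl
      map_add' := fun _ _ => rfl }
  have h0 : (0 : ℂ) ∈ Metric.ball (0:ℂ) 1 := Metric.mem_ball_self one_pos
  have hinj : Function.Injective F := by
    intro f g h
    have h1 : ∀ z : Metric.ball (0:ℂ) 1, (f : ℂ → ℂ) z = (g : ℂ → ℂ) z := fun z =>
      congrFun (congrArg Subtype.val h) z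
    apply Subtype.ext
    funext z
    by_cases hz : z ∈ Metric.ball (0:ℂ) 1
    · exact h1 ⟨z, hz⟩
    · rw [(hmem f.1 f.2).2 z hz, (hmem g.1 g.2).2 z hz]
      exact h1 ⟨0, h0⟩
  have hsurj : Function.Surjective F := by
    intro f
    obtain ⟨G, hG, rfl⟩ := rep f
    let G' : ℂ → ℂ := fun z => if z ∈ Metric.ball (0:ℂ) 1 then G z else G 0
    have hG' : G' ∈ R := by
      apply Subring.subset_closure
      refine ⟨hG.congr fun z hz => ?_, fun z hz => ?_⟩
      · simp only [G', if_pos hz]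
      · simp only [G', if_neg hz, if_pos h0]
    refine ⟨⟨G', hG'⟩, ?_⟩
    apply ext'
    intro z
    change G' z = G z
    simp only [G', if_pos z.2]
  exact ⟨RingEquiv.ofBijective F ⟨hinj, hsurj⟩, fun f z => rfl⟩

/-- There is a parameter-free first-order ring formula that, in the ring of holomorphic functions on the unit disc, holds of f exactly when its Nevanlinna characteristic T(r,f) is not O(log 1/(1-r)) as r tends to 1 from below. -/
theorem result :
    ∃ φ : FirstOrder.Language.ring.Formula (Fin 1),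
      ∀ f : ↥(Subring.closure {g : ℂ → ℂ | DifferentiableOn ℂ g (Metric.ball (0:ℂ) 1) ∧
                ∀ z ∉ Metric.ball (0:ℂ) 1, g z = g 0}),
        (@FirstOrder.Language.Formula.Realize FirstOrder.Language.ring
            ↥(Subring.closure {g : ℂ → ℂ | DifferentiableOn ℂ g (Metric.ball (0:ℂ) 1) ∧
                ∀ z ∉ Metric.ball (0:ℂ) 1, g z = g 0})
            (FirstOrder.Ring.compatibleRingOfRing
              ↥(Subring.closure {g : ℂ → ℂ | DifferentiableOn ℂ g (Metric.ball (0:ℂ) 1) ∧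
                ∀ z ∉ Metric.ball (0:ℂ) 1, g z = g 0})).toStructure
            (Fin 1) φ (fun _ => f)) ↔
        ¬ Asymptotics.IsBigO (nhdsWithin (1:ℝ) (Set.Iio 1))
            (fun r : ℝ => (2 * Real.pi)⁻¹ *
              ∫ θ in (0:ℝ)..(2 * Real.pi),
                Real.posLog ‖(f : ℂ → ℂ) ((r : ℂ) * Complex.exp ((θ : ℂ) * Complex.I))‖)
            (fun r : ℝ => Real.log (1 - r)⁻¹) := by
  obtain ⟨φ, hφ⟩ := Pool.Agent.Results.MP_5f3cbe_lc.AdmissibleDefinable.result
  obtain ⟨e, he⟩ := exists_equiv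
  refine ⟨φ, fun f => ?_⟩
  let _ : FirstOrder.Ring.CompatibleRing
      ↥(Subring.closure {g : ℂ → ℂ | DifferentiableOn ℂ g (Metric.ball (0:ℂ) 1) ∧
                ∀ z ∉ Metric.ball (0:ℂ) 1, g z = g 0}) := FirstOrder.Ring.compatibleRingOfRing _
  have h1 : φ.Realize (fun _ => f) ↔ φ.Realize (fun _ => e f) := by
    have := FirstOrder.Language.StrongHomClass.realize_formula
      (FirstOrder.Ring.languageEquivEquivRingEquiv.symm e) φ (v := fun _ => f)
    rw [← this]
    rfl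
  change φ.Realize (fun _ => f) ↔ _
  rw [h1, hφ (e f)]
  unfold Pool.Agent.Results.MP_5f3cbe_lc.AdmissibleDefinable.Admissible
  rw [not_iff_not]
  have h2 : (fun r : ℝ => Pool.Agent.Results.MP_5f3cbe_lc.AdmissibleDefinable.T r (e f))
      =ᶠ[nhdsWithin (1:ℝ) (Set.Iio 1)]
      (fun r : ℝ => (2 * Real.pi)⁻¹ *
              ∫ θ in (0:ℝ)..(2 * Real.pi),
                Real.posLog ‖(f : ℂ → ℂ) ((r : ℂ) * Complex.exp ((θ : ℂ) * Complex.I))‖) := by
    filter_upwards [Ioo_mem_nhdsLT (by norm_num : (0 : ℝ) < 1)] with r hr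
    unfold Pool.Agent.Results.MP_5f3cbe_lc.AdmissibleDefinable.T
    congr 1
    apply intervalIntegral.integral_congr
    intro θ _
    have h2 : (r : ℂ) * Complex.exp (θ * Complex.I) ∈ Metric.ball (0 : ℂ) 1 := by
      rw [mem_ball_zero_iff, norm_mul, Complex.norm_exp_ofReal_mul_I, mul_one, Complex.norm_real,
        Real.norm_of_nonneg hr.1.le]
      exact hr.2
    simp only
    rw [Pool.Agent.Results.MP_5f3cbe_lc.AdmissibleDefinable.ext0, dif_pos h2, he f ⟨_, h2⟩,
      Real.posLog, max_comm]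
  have h3 : (fun r : ℝ => Real.log (1 / (1 - r))) = fun r : ℝ => Real.log (1 - r)⁻¹ := by
    funext r
    rw [one_div]
  rw [h3]
  exact Asymptotics.isBigO_congr h2 (Filter.EventuallyEq.refl _ _)

end Pool.Agent.S14767
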