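import Pool.Statements.S14895

set_option autoImplicit false
open Pool Pool.MP_735cdd_lc

namespace Pool.Agent.S14895

open FirstOrder FirstOrder.Language

/-- The language of the frozen statement. -/
abbrev LL : FirstOrder.Language := FirstOrder.Language.mk (fun _ => Unit) (fun _ => Empty)

/-- A formula depends on finitely many variables only. -/
theorem realize_dep {M : Type} [LL.Structure M] {m : ℕ} (φ : LL.BoundedFormula ℕ m) :
    ∃ N : ℕ, ∀ v v' : ℕ → M, (∀ i < N, v i = v' i) → ∀ xs, φ.Realize v xs ↔ φ.Realize v' xs := by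
  have hterm : ∀ {m : ℕ} (t : LL.Term (ℕ ⊕ Fin m)), ∃ N : ℕ, ∀ v v' : ℕ → M,
      (∀ i < N, v i = v' i) → ∀ xs : Fin m → M,
        t.realize (Sum.elim v xs) = t.realize (Sum.elim v' xs) := by
    intro m t
    induction t with
    | var x =>
      rcases x with i | j
      · exact ⟨i + 1, fun v v' h xs => h i (Nat.lt_succ_self i)⟩
      · exact ⟨0, fun v v' h xs => rfl⟩
    | func f ts ih =>
      choose N hN using ih
      refine ⟨Finset.univ.sup N, fun v v' h xs => ?_⟩
      simp only [Term.realize]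
      congr 1
      funext i
      exact hN i v v' (fun j hj => h j (lt_of_lt_of_le hj (Finset.le_sup (Finset.mem_univ i)))) xs
  induction φ with
  | falsum => exact ⟨0, fun _ _ _ _ => Iff.rfl⟩
  | equal t₁ t₂ =>
    obtain ⟨N₁, h₁⟩ := hterm t₁
    obtain ⟨N₂, h₂⟩ := hterm t₂
    refine ⟨max N₁ N₂, fun v v' h xs => ?_⟩
    simp only [BoundedFormula.Realize]
    rw [h₁ v v' (fun i hi => h i (lt_of_lt_of_le hi (le_max_left _ _))) xs,
      h₂ v v' (fun i hi => h i (lt_of_lt_of_le hi (le_max_right _ _))) xs]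
  | rel R ts => exact Empty.elim R
  | imp f₁ f₂ ih₁ ih₂ =>
    obtain ⟨N₁, h₁⟩ := ih₁
    obtain ⟨N₂, h₂⟩ := ih₂
    refine ⟨max N₁ N₂, fun v v' h xs => ?_⟩
    simp only [BoundedFormula.Realize]
    rw [h₁ v v' (fun i hi => h i (lt_of_lt_of_le hi (le_max_left _ _))) xs,
      h₂ v v' (fun i hi => h i (lt_of_lt_of_le hi (le_max_right _ _))) xs]
  | all f ih =>
    obtain ⟨N, hN⟩ := ih
    refine ⟨N, fun v v' h xs => ?_⟩
    simp only [BoundedFormula.Realize]
    exact forall_congr' fun x => hN v v' h _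

/-- The word `b₀ (b₁ (⋯ (b_{n-1} y²)² ⋯)²)²`. -/
def T {G : Type} [Group G] (b : ℕ → G) : ℕ → G → G
  | 0, y => y
  | n + 1, y => T b n (b n * (y * y))

/-- The same word as a term. -/
def tT : ℕ → LL.Term ((Unit ⊕ ℕ) ⊕ Fin 1) → LL.Term ((Unit ⊕ ℕ) ⊕ Fin 1)
  | 0, y => y
  | n + 1, y => tT n (Term.func (l := 3) (L := LL) () ![Term.var (Sum.inl (Sum.inr n)), y, y])

/-- The formula `∃ y, c = T b n y`. -/
def psi (n : ℕ) : LL.Formula (Unit ⊕ ℕ) :=
  BoundedFormula.ex (Term.bdEqual (Term.var (Sum.inl (Sum.inl ())))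
    (tT n (Term.var (Sum.inr 0))))

section

variable {G : Type} [Group G] [S : LL.Structure G]

theorem realize_tT
    (hS : ∀ (n : ℕ) (f : LL.Functions n) (xs : Fin n → G),
      Structure.funMap f xs = (List.ofFn xs).prod) (c : G) (b : ℕ → G) (xs : Fin 1 → G) (n : ℕ) :
    ∀ t : LL.Term ((Unit ⊕ ℕ) ⊕ Fin 1),
      (tT n t).realize (Sum.elim (Sum.elim (fun _ => c) b) xs) =
        T b n (t.realize (Sum.elim (Sum.elim (fun _ => c) b) xs)) := by
  induction n with
  | zero => intro t; rfl
  | succ n ih =>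
    intro t
    show (tT n _).realize _ = T b n _
    rw [ih]
    congr 1
    refine (hS 3 () _).trans ?_
    simp [List.ofFn_succ]

theorem realize_psi
    (hS : ∀ (n : ℕ) (f : LL.Functions n) (xs : Fin n → G),
      Structure.funMap f xs = (List.ofFn xs).prod) (c : G) (b : ℕ → G) (n : ℕ) :
    (psi n).Realize (Sum.elim (fun _ => c) b) ↔ ∃ y : G, c = T b n y := by
  unfold psi Formula.Realize
  rw [BoundedFormula.realize_ex]
  refine exists_congr fun y => ?_
  rw [BoundedFormula.realize_bdEqual, realize_tT hS]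
  rfl

/-- A group automorphism is an automorphism of the structure. -/
def autEquiv
    (hS : ∀ (n : ℕ) (f : LL.Functions n) (xs : Fin n → G),
      Structure.funMap f xs = (List.ofFn xs).prod) (σ : G ≃* G) : G ≃[LL] G where
  toEquiv := σ.toEquiv
  map_fun' := by
    intro n f x
    rw [hS, hS]
    show σ (List.ofFn x).prod = _
    rw [map_list_prod, List.map_ofFn]
    rfl
  map_rel' := by
    intro n r
    exact Empty.elim r

end

/-- Every torsion-free group that is free in its own variety on an infinite basis fails ℵ1-homogeneity: some countable tuples a, b share a type, yet some element c has no d making (c,a) and (d,b) share a type. -/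
theorem result :
  ∀ (G : Type) [Group G],
    (∀ g : G, ∀ n : ℕ, 0 < n → g ^ n = 1 → g = 1) →
    (∃ X : Set G, X.Infinite ∧ Subgroup.closure X = ⊤ ∧
      ∀ f : X → G, ∃ φ : G →* G, ∀ x : X, φ x = f x) →
    ∀ [S : (FirstOrder.Language.mk (fun _ => Unit) (fun _ => Empty)).Structure G],
      (∀ (n : ℕ) (f : (FirstOrder.Language.mk (fun _ => Unit) (fun _ => Empty)).Functions n)
          (xs : Fin n → G),
        FirstOrder.Language.Structure.funMap f xs = (List.ofFn xs).prod) →
      ¬ ∀ a b : ℕ → G,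
        (∀ φ : (FirstOrder.Language.mk (fun _ => Unit) (fun _ => Empty)).Formula ℕ,
          φ.Realize a ↔ φ.Realize b) →
        ∀ c : G, ∃ d : G,
          ∀ ψ : (FirstOrder.Language.mk (fun _ => Unit) (fun _ => Empty)).Formula (Unit ⊕ ℕ),
            ψ.Realize (Sum.elim (fun _ => c) a) ↔ ψ.Realize (Sum.elim (fun _ => d) b) := by
  intro G _ htf hX S hS hhom
  classical
  obtain ⟨X, hinf, hgen, hfree⟩ := hX
  -- distinct basis elements `x i`
  let e := hinf.natEmbedding
  let x : ℕ → G := fun i => (e i : G)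
  have hxX : ∀ i, x i ∈ X := fun i => (e i).2
  have hxinj : Function.Injective x := fun i j h => e.injective (Subtype.ext h)
  -- extension of maps
  have ext : ∀ f : G → G, ∃ φ : G →* G, ∀ g ∈ X, φ g = f g := fun f => by
    obtain ⟨φ, hφ⟩ := hfree (fun y => f y)
    exact ⟨φ, fun g hg => hφ ⟨g, hg⟩⟩
  have hne : ∀ i, x i ≠ 1 := by
    intro i hi
    obtain ⟨φ, hφ⟩ := ext (fun _ => x (i + 1))
    have h1 := hφ (x i) (hxX i)
    rw [hi, map_one] at h1
    exact absurd (hxinj (hi.trans h1)) (by omega)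
  have hzpow : ∀ i (k : ℤ), x i ^ k = 1 → k = 0 := by
    intro i k hk
    by_contra hk0
    refine hne i (htf (x i) k.natAbs (Int.natAbs_pos.2 hk0) ?_)
    rcases Int.natAbs_eq k with h | h
    · rw [h, zpow_natCast] at hk; exact hk
    · rw [h, zpow_neg, zpow_natCast, inv_eq_one] at hk; exact hk
  -- the coordinate endomorphisms
  have hcoord : ∀ i, ∃ ε : G →* G, ε (x i) = x i ∧ ∀ g ∈ X, g ≠ x i → ε g = 1 := by
    intro i
    obtain ⟨ε, hε⟩ := ext (fun g => if g = x i then x i else 1)
    refine ⟨ε, ?_, ?_⟩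
    · rw [hε _ (hxX i), if_pos rfl]
    · intro g hg hgi
      rw [hε _ hg, if_neg hgi]
  choose ε hε1 hε2 using hcoord
  have hεz : ∀ i g, ε i g ∈ Subgroup.zpowers (x i) := by
    intro i g
    have : (⊤ : Subgroup G) ≤ (Subgroup.zpowers (x i)).comap (ε i) := by
      rw [← hgen, Subgroup.closure_le]
      intro y hy
      show ε i y ∈ Subgroup.zpowers (x i)
      by_cases h : y = x i
      · rw [h, hε1]; exact Subgroup.mem_zpowers _
      · rw [hε2 i y hy h]; exact one_mem _
    exact this (Subgroup.mem_top g)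
  have hfin : ∀ g : G, {i | ε i g ≠ 1}.Finite := by
    intro g
    have hg : g ∈ Subgroup.closure X := hgen ▸ Subgroup.mem_top g
    induction hg using Subgroup.closure_induction with
    | mem y hy =>
      refine Set.Subsingleton.finite ?_
      intro i hi j hj
      have h1 : y = x i := by
        by_contra h; exact hi (hε2 i y hy h)
      have h2 : y = x j := by
        by_contra h; exact hj (hε2 j y hy h)
      exact hxinj (h1.symm.trans h2)
    | one => simp
    | mul a b _ _ ha hb =>
      refine (ha.union hb).subset ?_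
      intro i hi
      by_contra h
      simp only [Set.mem_union, Set.mem_ofPred_eq, not_or, not_not] at h
      exact hi (by rw [map_mul, h.1, h.2, one_mul])
    | inv a _ ha =>
      refine ha.subset ?_
      intro i hi h
      exact hi (by rw [map_inv, h, inv_one])
  -- the elementary automorphisms
  have htau : ∀ j, ∃ τ : G ≃* G, τ (x j) = x j * (x (j + 1) * x (j + 1))⁻¹ ∧
      ∀ i, i ≠ j → τ (x i) = x i := by
    intro j
    obtain ⟨f, hf⟩ := ext (fun g => if g = x j then x j * (x (j + 1) * x (j + 1))⁻¹ else g)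
    obtain ⟨f', hf'⟩ := ext (fun g => if g = x j then x j * (x (j + 1) * x (j + 1)) else g)
    have hf1 : f (x j) = x j * (x (j + 1) * x (j + 1))⁻¹ := by rw [hf _ (hxX j), if_pos rfl]
    have hf1' : f' (x j) = x j * (x (j + 1) * x (j + 1)) := by rw [hf' _ (hxX j), if_pos rfl]
    have hf2 : ∀ g ∈ X, g ≠ x j → f g = g := fun g hg h => by rw [hf _ hg, if_neg h]
    have hf2' : ∀ g ∈ X, g ≠ x j → f' g = g := fun g hg h => by rw [hf' _ hg, if_neg h]
    have hj : x (j + 1) ≠ x j := fun h => absurd (hxinj h) (by omega)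
    refine ⟨MonoidHom.toMulEquiv f f' ?_ ?_, hf1, fun i hi => hf2 _ (hxX i) fun h => hi (hxinj h)⟩
    · refine MonoidHom.eq_of_eqOn_dense hgen fun g hg => ?_
      show f' (f g) = g
      by_cases h : g = x j
      · rw [h, hf1, map_mul, map_inv, map_mul, hf1', hf2' _ (hxX _) hj]
        group
      · rw [hf2 g hg h, hf2' g hg h]
    · refine MonoidHom.eq_of_eqOn_dense hgen fun g hg => ?_
      show f (f' g) = g
      by_cases h : g = x j
      · rw [h, hf1', map_mul, map_mul, hf1, hf2 _ (hxX _) hj]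
        group
      · rw [hf2' g hg h, hf2 g hg h]
  choose τ hτ1 hτ2 using htau
  let a : ℕ → G := fun i => x i * (x (i + 1) * x (i + 1))⁻¹
  have hsig : ∀ n, ∃ σ : G ≃* G, (∀ i < n, σ (x i) = a i) ∧ ∀ i, n ≤ i → σ (x i) = x i := by
    intro n
    induction n with
    | zero => exact ⟨MulEquiv.refl G, fun i hi => absurd hi (by omega), fun i _ => rfl⟩
    | succ n ih =>
      obtain ⟨σ, h1, h2⟩ := ih
      refine ⟨(τ n).trans σ, fun i hi => ?_, fun i hi => ?_⟩
      · show σ (τ n (x i)) = a i
        rcases Nat.lt_succ_iff_lt_or_eq.1 hi with h | h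
        · rw [hτ2 n i (by omega), h1 i h]
        · subst h
          rw [hτ1, map_mul, map_inv, map_mul, h2 i le_rfl, h2 (i + 1) (by omega)]
      · show σ (τ n (x i)) = x i
        rw [hτ2 n i (by omega), h2 i (by omega)]
  -- `a` and `x` have the same type
  have htype : ∀ φ : LL.Formula ℕ, φ.Realize a ↔ φ.Realize x := by
    intro φ
    obtain ⟨N, hN⟩ := realize_dep (M := G) φ
    obtain ⟨σ, h1, -⟩ := hsig N
    have h3 := StrongHomClass.realize_formula (autEquiv hS σ) φ (v := x)
    have h4 : φ.Realize a ↔ φ.Realize (autEquiv hS σ ∘ x) :=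
      hN a (autEquiv hS σ ∘ x) (fun i hi => (h1 i hi).symm) default
    exact h4.trans h3
  obtain ⟨d, hd⟩ := hhom a x htype (x 0)
  -- `x 0 = T a n (x n)`
  have hTa : ∀ n, x 0 = T a n (x n) := by
    intro n
    induction n with
    | zero => rfl
    | succ n ih =>
      show x 0 = T a n (a n * (x (n + 1) * x (n + 1)))
      have : a n * (x (n + 1) * x (n + 1)) = x n := by
        show x n * (x (n + 1) * x (n + 1))⁻¹ * (x (n + 1) * x (n + 1)) = x n
        group
      rw [this]; exact ih
  have hTd : ∀ n, ∃ y, d = T x n y := fun n =>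
    (realize_psi hS d x n).1 ((hd (psi n)).1 ((realize_psi hS (x 0) a n).2 ⟨x n, hTa n⟩))
  -- choose a coordinate at which `d` vanishes
  obtain ⟨i, hi⟩ : ∃ i, ε i d = 1 := by
    by_contra h
    push Not at h
    refine Set.infinite_univ (α := ℕ) ((hfin d).subset fun i _ => h i)
  obtain ⟨y, hy⟩ := hTd (i + 1)
  -- the image of `T x n y` under `ε i`
  have hT1 : ∀ n ≤ i, ∀ y, ε i (T x n y) = (ε i y) ^ (2 ^ n) := by
    intro n
    induction n with
    | zero => intro _ y; simp [T]
    | succ n ih =>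
      intro hn y
      show ε i (T x n (x n * (y * y))) = _
      rw [ih (by omega), map_mul, hε2 i (x n) (hxX n) (fun h => absurd (hxinj h) (by omega)),
        one_mul, map_mul, ← pow_two, ← pow_mul, pow_succ 2 n, mul_comm]
  have h5 : ε i (T x (i + 1) y) = (x i * (ε i y * ε i y)) ^ (2 ^ i) := by
    show ε i (T x i (x i * (y * y))) = _
    rw [hT1 i le_rfl, map_mul, hε1, map_mul]
  obtain ⟨m, hm⟩ := Subgroup.mem_zpowers_iff.1 (hεz i y)
  rw [hy, h5, ← hm, ← zpow_add, ← zpow_one_add, ← zpow_natCast, ← zpow_mul] at hi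
  have h6 := hzpow i _ hi
  rcases mul_eq_zero.1 h6 with h | h
  · omega
  · exact absurd h (by positivity)

end Pool.Agent.S14895
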