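import Pool.Statements.S15144
import Pool.Agent.U44.IA.Fin

set_option autoImplicit false
open Pool Pool.MP_a2ec29_lc

namespace Pool.Agent.S15144

open Set Pool.Agent.U44.IA Pool.Agent.Helper446 in
/-- Main argument, with the families of sets named. -/
theorem core : ∃ (o : Ord) (s : ℕ → Prop) (leB : ℕ → ℕ → Bool), Computable₂ leB ∧
    (∀ x y, leB x y = true ↔ o.le x y) ∧ (∀ n, s n ↔ ¬ ((o.Y {n}) : Set ℕ).Finite) ∧
    ¬ REPred s := by
  obtain ⟨q, hq, h0, hno⟩ := exists_q
  refine ⟨(mkDat q h0).ord, (mkDat q h0).T, (mkDat q h0).leB,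
    (mkDat q h0).leB_c (mkDat_act_c hq) mkDat_v_c, (mkDat q h0).leB_iff, ?_, ?_⟩
  · intro n
    rw [Ord.Y_singleton]
    constructor
    · intro h hf
      have h1 := (mkDat q h0).T_fin h
      rw [← (mkDat q h0).compl_le] at h1
      have h2 := hf.union h1
      apply Set.infinite_univ (α := ℕ)
      refine h2.subset ?_
      intro x _
      by_cases hx : (mkDat q h0).le n x
      · left; exact hx
      · right; exact hx
    · intro h
      by_contra hT
      exact h ((mkDat q h0).nT_fin hT)
  · intro hT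
    apply hno
    refine ((mkDat q h0).re_compl (mkDat_act_c hq) mkDat_v_c hT).of_eq fun c => ?_
    rw [mkDat_act_iff q h0]


/-- The negation of the preceding statement: Take any computable infinite linear order L and computable Boolean algebra B isomorphic to the algebra of finite unions of half-open intervals of L. Then some computable copy of L makes B computably isomorphic to that copy's interval algebra. -/
theorem result :
    ¬ (∀ (β : Type) [LinearOrder β] (l : ℕ ≃ β),
      ComputablePred (fun p : ℕ × ℕ => l p.1 ≤ l p.2) →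
      ∀ (α : Type) [BooleanAlgebra α] (e : ℕ ≃ α),
        Computable₂ (fun m n : ℕ => e.symm (e m ⊔ e n)) →
        Computable₂ (fun m n : ℕ => e.symm (e m ⊓ e n)) →
        Computable (fun n : ℕ => e.symm (e n)ᶜ) →
        (∃ φ : α → Set β, Function.Injective φ ∧
            (∀ a b, φ (a ⊔ b) = φ a ∪ φ b) ∧
            (∀ a, φ aᶜ = (φ a)ᶜ) ∧
            Set.range φ = {X : Set β | ∃ S : Finset β, ∃ b : Bool,
              X = {x : β | Xor' (b = true) (Odd (S.filter (fun s => s ≤ x)).card)}}) →
        ∃ l' : ℕ ≃ β, ComputablePred (fun p : ℕ × ℕ => l' p.1 ≤ l' p.2) ∧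
          ∃ ψ : α → Set β, Function.Injective ψ ∧
            (∀ a b, ψ (a ⊔ b) = ψ a ∪ ψ b) ∧
            (∀ a, ψ aᶜ = (ψ a)ᶜ) ∧
            Set.range ψ = {X : Set β | ∃ S : Finset β, ∃ b : Bool,
              X = {x : β | Xor' (b = true) (Odd (S.filter (fun s => s ≤ x)).card)}} ∧
            ∃ c : ℕ → List ℕ × Bool, Computable c ∧
              ∀ n : ℕ, ψ (e n) = {x : β | Xor' ((c n).2 = true)
                (Odd ((c n).1.filter (fun s => decide (l' s ≤ x))).length)}) := by
  intro H
  obtain ⟨o, s, leB, hleB, hle, hs, hno⟩ := core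
  have hr := Pool.Agent.U44.IA.range_eq
  obtain ⟨l', -, ψ, hinj, hsup, hcompl, hrange, c, hc, hcode⟩ := H ℕ (Equiv.refl ℕ)
    (Pool.Agent.Helper446.RE.cp_le Computable.fst Computable.snd)
    Pool.Agent.U44.IA.FCA o.pres (o.sup_c hleB hle) (o.inf_c hleB hle) (o.compl_c hleB hle)
    ⟨Subtype.val, Subtype.val_injective, fun _ _ => rfl, fun _ => rfl, by
      rw [hr]
      ext X
      constructor
      · rintro ⟨a, rfl⟩; exact a.2
      · intro hX; exact ⟨⟨X, hX⟩, rfl⟩⟩
  rw [hr] at hrange
  apply hno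
  have h1 := Pool.Agent.Helper446.RE.comp (Pool.Agent.U44.IA.parity_c hc)
    (f := fun n : ℕ => 2 ^ n) (Pool.Agent.U44.IA.pow2_c Computable.id)
  refine h1.of_eq fun n => ?_
  rw [hs n, ← Pool.Agent.U44.IA.infinite_code l', ← hcode (2 ^ n),
    Pool.Agent.U44.IA.finite_iff ψ hinj hsup hcompl hrange, Pool.Agent.U44.IA.Ord.pres_val,
    Pool.Agent.U44.IA.bits_two_pow]

end Pool.Agent.S15144
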