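import Pool.Statements.S15186
import Pool.Agent.Results.MP_a8f5d0_lc.LogSupply

set_option autoImplicit false
open Pool Pool.MP_a8f5d0_lc

namespace Pool.Agent.S15186

/-- The negation of the boundedness statement, from the lower bound `log m / (2 ε)` for the least
sufficient supply. -/
theorem result :
    ¬ (∀ ε α β : ℝ, 0 < ε → ε < 1 → 0 < α → α < 1 → 0 < β → β < 1 →
  ∃ s : ℕ, ∀ n m : ℕ, ∀ supply : Fin m → ℕ, (∀ j, s ≤ supply j) →
  ∃ M : (Fin n → Finset (Fin m) → ℝ) → PMF (Fin n → Finset (Fin m)),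
    (∀ v : Fin n → Finset (Fin m) → ℝ,
      (∀ i, (∀ S, 0 ≤ v i S ∧ v i S ≤ 1) ∧
        ∀ p q : Fin m → ℝ, p ≤ q → ∀ S : Finset (Fin m),
          (∀ T : Finset (Fin m), v i T - ∑ j ∈ T, p j ≤ v i S - ∑ j ∈ S, p j) →
          ∃ T : Finset (Fin m),
            (∀ U : Finset (Fin m), v i U - ∑ j ∈ U, q j ≤ v i T - ∑ j ∈ T, q j) ∧
            ∀ j ∈ S, q j = p j → j ∈ T) →
      (∀ ω ∈ (M v).support, ∀ j : Fin m,
          (Finset.univ.filter (fun k : Fin n => j ∈ ω k)).card ≤ supply j) ∧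
      (M v).toOuterMeasure {ω | ∀ ω' : Fin n → Finset (Fin m),
          (∀ j : Fin m, (Finset.univ.filter (fun k : Fin n => j ∈ ω' k)).card ≤ supply j) →
          ∑ k, v k (ω' k) - α * (n : ℝ) ≤ ∑ k, v k (ω k)} ≥ ENNReal.ofReal (1 - β)) ∧
    (∀ v : Fin n → Finset (Fin m) → ℝ,
      (∀ i, (∀ S, 0 ≤ v i S ∧ v i S ≤ 1) ∧
        ∀ p q : Fin m → ℝ, p ≤ q → ∀ S : Finset (Fin m),
          (∀ T : Finset (Fin m), v i T - ∑ j ∈ T, p j ≤ v i S - ∑ j ∈ S, p j) →
          ∃ T : Finset (Fin m),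
            (∀ U : Finset (Fin m), v i U - ∑ j ∈ U, q j ≤ v i T - ∑ j ∈ T, q j) ∧
            ∀ j ∈ S, q j = p j → j ∈ T) →
      ∀ (i : Fin n) (w : Finset (Fin m) → ℝ),
      ((∀ S, 0 ≤ w S ∧ w S ≤ 1) ∧
        ∀ p q : Fin m → ℝ, p ≤ q → ∀ S : Finset (Fin m),
          (∀ T : Finset (Fin m), w T - ∑ j ∈ T, p j ≤ w S - ∑ j ∈ S, p j) →
          ∃ T : Finset (Fin m),
            (∀ U : Finset (Fin m), w U - ∑ j ∈ U, q j ≤ w T - ∑ j ∈ T, q j) ∧
            ∀ j ∈ S, q j = p j → j ∈ T) →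
      ∀ S : Set ({k : Fin n // k ≠ i} → Finset (Fin m)),
        (M v).toOuterMeasure {ω | (fun k : {k : Fin n // k ≠ i} => ω k.1) ∈ S} ≤
          ENNReal.ofReal (Real.exp ε) *
            (M (Function.update v i w)).toOuterMeasure
              {ω | (fun k : {k : Fin n // k ≠ i} => ω k.1) ∈ S})) := by
  intro h
  obtain ⟨s, hs⟩ := h (1 / 2) (1 / 2000) (1 / 2) (by norm_num) (by norm_num) (by norm_num)
    (by norm_num) (by norm_num) (by norm_num)
  obtain ⟨-, m₀, hm₀⟩ := Pool.Agent.Results.MP_a8f5d0_lc.LogSupply.result (1 / 2) (1 / 2000) (1 / 2)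
    (by norm_num) (by norm_num) (by norm_num) (by norm_num) (by norm_num) (by norm_num)
  have hlog : Filter.Tendsto (fun m : ℕ => Real.log m / (2 * (1 / 2))) Filter.atTop Filter.atTop :=
    (Real.tendsto_log_atTop.comp tendsto_natCast_atTop_atTop).atTop_div_const (by norm_num)
  obtain ⟨m, hm1, hm2⟩ := ((hlog.eventually_gt_atTop (s : ℝ)).and
    (Filter.eventually_ge_atTop m₀)).exists
  obtain ⟨n, -, hn1, -⟩ := hm₀ m hm2
  have hsuff : Pool.Agent.Helper555.JDP.WeaklySuffices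
      Pool.Agent.Helper555.JDP.GrossSubstitutes n m (1 / 2) (1 / 2000) (1 / 2) s := by
    classical
    have hch : ∀ sup : Fin m → ℕ, ∃ M : (Fin n → Finset (Fin m) → ℝ) →
        PMF (Fin n → Finset (Fin m)), (∀ j, s ≤ sup j) → _ := fun sup => by
      by_cases hsup : ∀ j, s ≤ sup j
      · obtain ⟨M, hM⟩ := hs n m sup hsup
        exact ⟨M, fun _ => hM⟩
      · exact ⟨fun _ => PMF.pure (fun _ => ∅), fun h => absurd h hsup⟩
    choose M hM using hch
    refine ⟨M, fun sup hsup => ?_⟩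
    obtain ⟨h1, h2⟩ := hM sup hsup
    refine ⟨?_, fun v hv => ?_⟩
    · intro i v w hv hw S
      have h3 := h2 v (fun k => hv k) i w hw S
      have hne : ENNReal.ofReal (Real.exp (1 / 2)) *
          (M sup (Function.update v i w)).toOuterMeasure
            {ω | (fun k : {k : Fin n // k ≠ i} => ω k.1) ∈ S} ≠ ⊤ := by
        refine ENNReal.mul_ne_top ENNReal.ofReal_ne_top ?_
        exact ne_top_of_le_ne_top ENNReal.one_ne_top
          ((MeasureTheory.measure_mono (Set.subset_univ _)).trans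
            ((PMF.toOuterMeasure_apply_eq_one_iff _ _).2 (Set.subset_univ _)).le)
      have h4 := ENNReal.toReal_mono hne h3
      rw [ENNReal.toReal_mul, ENNReal.toReal_ofReal (Real.exp_pos _).le] at h4
      exact h4
    · obtain ⟨h3, h4⟩ := h1 v (fun k => hv k)
      have h5 : ENNReal.ofReal (1 - 1 / 2) ≤ (M sup v).toOuterMeasure
          {ω | Pool.Agent.Helper555.JDP.Feasible sup ω ∧
            Pool.Agent.Helper555.JDP.OPT sup v - 1 / 2000 * n ≤
              Pool.Agent.Helper555.JDP.welfare v ω} := by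
        refine le_trans h4 (PMF.toOuterMeasure_mono _ ?_)
        rintro ω ⟨hω1, hω2⟩
        refine ⟨h3 ω hω2, ?_⟩
        have h6 : Pool.Agent.Helper555.JDP.OPT sup v ≤
            Pool.Agent.Helper555.JDP.welfare v ω + 1 / 2000 * n := by
          refine csSup_le ⟨_, fun _ => ∅, ?_, rfl⟩ ?_
          · intro j
            simp
          · rintro x ⟨ω', hω', rfl⟩
            have h7 := hω1 ω' hω'
            unfold Pool.Agent.Helper555.JDP.welfare
            linarith
        linarith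
      have hne : (M sup v).toOuterMeasure
          {ω | Pool.Agent.Helper555.JDP.Feasible sup ω ∧
            Pool.Agent.Helper555.JDP.OPT sup v - 1 / 2000 * n ≤
              Pool.Agent.Helper555.JDP.welfare v ω} ≠ ⊤ :=
        ne_top_of_le_ne_top ENNReal.one_ne_top
          ((MeasureTheory.measure_mono (Set.subset_univ _)).trans
            ((PMF.toOuterMeasure_apply_eq_one_iff _ _).2 (Set.subset_univ _)).le)
      have h6 := ENNReal.toReal_mono hne h5
      rw [ENNReal.toReal_ofReal (by norm_num)] at h6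
      exact h6
  have h3 : Pool.Agent.Helper555.JDP.sStarWeak Pool.Agent.Helper555.JDP.GrossSubstitutes n m
      (1 / 2) (1 / 2000) (1 / 2) ≤ s := Nat.sInf_le hsuff
  have h4 : ((Pool.Agent.Helper555.JDP.sStarWeak Pool.Agent.Helper555.JDP.GrossSubstitutes n m
      (1 / 2) (1 / 2000) (1 / 2) : ℕ) : ℝ) ≤ (s : ℝ) := by exact_mod_cast h3
  linarith

end Pool.Agent.S15186
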