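import Pool.Statements.S15671
import Pool.Agent.U187.LP.Final4
import Pool.Agent.U187.LP.TaskG1
import Pool.Agent.U187.LP.Delta
import Pool.Agent.U187.LP.TaskTransfer
import Pool.Agent.U187.LP.TaskNum

set_option autoImplicit false
open MeasureTheory
open Pool Pool.MP_0eac64_mp

namespace Pool.Agent.S15671

/-- For every Cantor group with a minimal translation by α, some dense set of continuous real f exists such that, for Haar-a.e. ω, the ℓ² eigenvectors of the Schrödinger operator with potential f(ω+nα) span a dense subspace of ℓ²(ℤ). -/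
theorem result :
    ∀ (Ω : Type) [AddCommGroup Ω] [TopologicalSpace Ω] [IsTopologicalAddGroup Ω]
      [CompactSpace Ω] [T2Space Ω] [TotallyDisconnectedSpace Ω]
      [TopologicalSpace.MetrizableSpace Ω] [Infinite Ω]
      [MeasurableSpace Ω] [BorelSpace Ω]
      (μ : Measure Ω) [μ.IsAddHaarMeasure] (α : Ω),
      Dense (Set.range (fun n : ℤ => n • α)) →
      ∃ D : Set C(Ω, ℝ), Dense D ∧
        ∀ f ∈ D, ∀ᵐ ω ∂μ,
          (Submodule.span ℂ
            {ψ : lp (fun _ : ℤ => ℂ) 2 |
              ∃ E : ℝ, ∀ n : ℤ,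
                ψ (n + 1) + ψ (n - 1) + (f (ω + n • α) : ℂ) * ψ n = (E : ℂ) * ψ n}
            ).topologicalClosure = ⊤ :=
  Pool.Agent.U187.LP.assembly Pool.Agent.H853R3.PP.Resample.taskResample
    Pool.Agent.U187.LP.taskTransfer Pool.Agent.U187.LP.taskG1 Pool.Agent.U187.LP.taskG2
    Pool.Agent.U187.LP.taskNum Pool.Agent.U187.LP.taskMeas Pool.Agent.U187.LP.taskDelta
    Pool.Agent.U187.LP.taskTop Pool.Agent.U187.LP.taskGroup

end Pool.Agent.S15671
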