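import Pool.Statements.S15828
-- import your own Pool.Agent.* helpers here
import Pool.Agent.U324.Feyn.Main

set_option autoImplicit false
open Pool Pool.MP_f387d3_mp

namespace Pool.Agent.S15828

/-- The negation of the preceding statement: In the basic Feynman checkers model, with P(x,t) the squared norm of the checker-path amplitude at time t=n+1, there is a constant C such that every maximiser x of P(·,t) is within C of t/√2, for all t. -/
theorem result :
    ¬ (∃ C : ℝ, ∀ n : ℕ, ∀ x : ℤ,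
      (∀ y : ℤ,
        (2:ℝ) ^ (-(n:ℤ)) *
          ‖∑ s ∈ Finset.univ.filter
              (fun s : Fin (n+1) → Bool =>
                s 0 = true ∧ ∑ i, (if s i then (1:ℤ) else -1) = y),
            (-Complex.I) ^ ((Finset.univ.filter
              (fun i : Fin n => s i.castSucc ≠ s i.succ)).card)‖ ^ 2
        ≤
        (2:ℝ) ^ (-(n:ℤ)) *
          ‖∑ s ∈ Finset.univ.filter
              (fun s : Fin (n+1) → Bool =>
                s 0 = true ∧ ∑ i, (if s i then (1:ℤ) else -1) = x),
            (-Complex.I) ^ ((Finset.univ.filter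
              (fun i : Fin n => s i.castSucc ≠ s i.succ)).card)‖ ^ 2) →
      |(x:ℝ) - ((n:ℝ) + 1) / Real.sqrt 2| ≤ C) := by
  rintro ⟨C, hC⟩
  have hfold : ∀ (n : ℕ) (y : ℤ), (∑ s ∈ Finset.univ.filter
              (fun s : Fin (n+1) → Bool =>
                s 0 = true ∧ ∑ i, (if s i then (1:ℤ) else -1) = y),
            (-Complex.I) ^ ((Finset.univ.filter
              (fun i : Fin n => s i.castSucc ≠ s i.succ)).card)) = U324.Feyn.amp n y :=
    fun n y => rfl
  simp only [hfold] at hC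
  -- constants
  set K : ℝ := |C| + 2 with hK
  have hC0 : 0 ≤ |C| := abs_nonneg C
  obtain ⟨k, hk⟩ := exists_nat_ge (2000 * K)
  set n : ℕ := k ^ 3 with hn
  have ha : (Real.sqrt 2) ^ 2 = 2 := Real.sq_sqrt (by norm_num)
  have ha1 : 1.414 < Real.sqrt 2 := by
    rw [Real.lt_sqrt (by norm_num)]; norm_num
  have ha2 : Real.sqrt 2 < 1.415 := by
    rw [Real.sqrt_lt' (by norm_num)]; norm_num
  have P : U324.Feyn.Par (Real.sqrt 2) (k : ℝ) K (n : ℝ) :=
    { ha := ha, ha1 := ha1, ha2 := ha2, hK := by rw [hK]; linarith, hk := hk,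
      hN := by rw [hn]; push_cast; rfl }
  -- a maximiser
  obtain ⟨l, hl, hmax⟩ := Finset.exists_max_image (Finset.range (n + 1))
    (fun l : ℕ => ‖U324.Feyn.amp n ((n : ℤ) + 1 - 2 * l)‖ ^ 2) ⟨0, by simp⟩
  have hln : l ≤ n := by
    have := Finset.mem_range.mp hl
    omega
  have hall : ∀ y : ℤ, ‖U324.Feyn.amp n y‖ ^ 2 ≤ ‖U324.Feyn.amp n ((n : ℤ) + 1 - 2 * l)‖ ^ 2 := by
    intro y
    by_cases hy : U324.Feyn.amp n y = 0
    · rw [hy, norm_zero, zero_pow two_ne_zero]
      positivity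
    · obtain ⟨p, q, hpq, hyq⟩ := U324.Feyn.amp_form n y hy
      have h1 := hmax q (Finset.mem_range.mpr (by omega))
      have h2 : y = (n : ℤ) + 1 - 2 * q := by rw [hyq]; omega
      rw [h2]
      exact h1
  have hbound := hC n ((n : ℤ) + 1 - 2 * l) (fun y =>
    mul_le_mul_of_nonneg_left (hall y) (by positivity))
  -- the position of `l`
  have hsq : ((n : ℝ) + 1) / Real.sqrt 2 = ((n : ℝ) + 1) * (Real.sqrt 2 / 2) := by
    have h0 : Real.sqrt 2 ≠ 0 := by positivity
    field_simp
    rw [ha]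
  rw [hsq] at hbound
  push_cast at hbound
  have hb := abs_le.mp (hbound.trans (le_abs_self C))
  have he1 : -K ≤ (l : ℝ) - (2 - Real.sqrt 2) / 4 * n := by
    rw [hK]; linarith [hb.1, hb.2]
  have he2 : (l : ℝ) - (2 - Real.sqrt 2) / 4 * n ≤ K := by
    rw [hK]; linarith [hb.1, hb.2]
  obtain ⟨hln1, hgrow⟩ := U324.Feyn.grow P l he1 he2
  rw [← U324.Feyn.amp_sq n l hln, ← U324.Feyn.amp_sq n (l + 1) hln1] at hgrow
  exact absurd (hall _) (not_le.mpr hgrow)

end Pool.Agent.S15828
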