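import Pool.Statements.S16186
import Pool.Agent.U208.LD.Loc
import Pool.Agent.U208.LD.Tower
import Pool.Agent.U208.LD.Gal

set_option autoImplicit false
open Pool Pool.MP_19fd7d_nt

namespace Pool.Agent.S16186

/-- The negation of the preceding statement: If F in Q̄ is Galois over a number field K and has (USB) (for each rational map of degree at least 2, some c>0 leaves only finitely many points of F with canonical height below c), then F/K has finite local degree at infinitely many finite primes of K. -/
theorem result :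
    ¬ (∀ h : AlgebraicClosure ℚ → ℝ,
      (∀ β : AlgebraicClosure ℚ, h β =
        Real.log (((sInf {n : ℕ | 0 < n ∧ ∀ i : ℕ, ((n : ℚ) * (minpoly ℚ β).coeff i).den = 1} : ℕ) : ℝ) *
          (Polynomial.map (algebraMap ℚ ℂ) (minpoly ℚ β)).mahlerMeasure) /
          ((minpoly ℚ β).natDegree : ℝ)) →
    ∀ Φ : RatFunc (AlgebraicClosure ℚ) → AlgebraicClosure ℚ × AlgebraicClosure ℚ →
        AlgebraicClosure ℚ × AlgebraicClosure ℚ,
      (∀ (f : RatFunc (AlgebraicClosure ℚ)) (z : AlgebraicClosure ℚ × AlgebraicClosure ℚ),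
        Φ f z =
          (∑ i ∈ Finset.range (max f.num.natDegree f.denom.natDegree + 1),
              f.num.coeff i * z.1 ^ i * z.2 ^ (max f.num.natDegree f.denom.natDegree - i),
           ∑ i ∈ Finset.range (max f.num.natDegree f.denom.natDegree + 1),
              f.denom.coeff i * z.1 ^ i * z.2 ^ (max f.num.natDegree f.denom.natDegree - i))) →
    ∀ (K : IntermediateField ℚ (AlgebraicClosure ℚ)) [NumberField K]
      (F : IntermediateField K (AlgebraicClosure ℚ)),
      IsGalois K F →
      (∀ f : RatFunc (AlgebraicClosure ℚ),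
        2 ≤ max f.num.natDegree f.denom.natDegree →
        ∃ c : ℝ, 0 < c ∧
          Set.Finite {α : AlgebraicClosure ℚ | α ∈ F ∧ ∃ L : ℝ,
            Filter.Tendsto
              (fun n : ℕ => h (((Φ f)^[n] (α, 1)).1 / ((Φ f)^[n] (α, 1)).2) /
                ((max f.num.natDegree f.denom.natDegree : ℕ) : ℝ) ^ n)
              Filter.atTop (nhds L) ∧ L < c}) →
      Set.Infinite {v : IsDedekindDomain.HeightOneSpectrum (NumberField.RingOfIntegers K) |
        ∀ ι : AlgebraicClosure ℚ →ₐ[K] AlgebraicClosure (v.adicCompletion K),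
          FiniteDimensional (v.adicCompletion K)
            (IntermediateField.adjoin (v.adicCompletion K)
              (ι '' (F : Set (AlgebraicClosure ℚ))))}) := by
  intro hmain
  obtain ⟨F₀, f, hFn, hFL, hfd, hFf, -, hmono, hh⟩ := Pool.Agent.U208.LD.exists_field
  let K : IntermediateField ℚ (AlgebraicClosure ℚ) := ⊥
  have hK : NumberField K := { to_charZero := inferInstance, to_finiteDimensional := inferInstance }
  have hle : K ≤ F₀ := bot_le
  let F : IntermediateField K (AlgebraicClosure ℚ) := IntermediateField.extendScalars hle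
  have hmem : ∀ x, x ∈ F ↔ x ∈ F₀ := fun x => IntermediateField.mem_extendScalars hle
  have hgal : IsGalois K F := Pool.Agent.U208.LD.galois_extend K F₀ hle hFn
  have hinf := hmain Pool.Agent.H58W.hM (fun β => rfl)
    (fun f => Pool.Agent.H58W.lift f.num f.denom (max f.num.natDegree f.denom.natDegree))
    (fun f z => rfl) K F hgal ?_
  · apply hinf
    refine (Pool.Agent.U208.LD.finite_even (K := K)).subset ?_
    intro v hv hodd
    have h1 : 1 < Ideal.absNorm v.asIdeal := NumberField.HeightOneSpectrum.one_lt_absNorm v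
    obtain ⟨ι⟩ := Pool.Agent.U208.LD.exists_iota K v
    refine Pool.Agent.U208.LD.not_fin v (F : Set (AlgebraicClosure ℚ)) (fun n => ?_) ι (hv ι)
    obtain ⟨L, hL, hLP⟩ := hFL (Ideal.absNorm v.asIdeal) n hodd h1
    exact ⟨L, fun x hx => (hmem x).mpr (hL hx), hLP⟩
  · intro g hg
    refine ⟨1, one_pos, ?_⟩
    refine (Pool.Agent.U208.LD.usb F₀ f hfd hFf hmono hh g.num g.denom _ rfl hg
      (RatFunc.isCoprime_num_denom g)).subset ?_
    rintro α ⟨hα, L, hL⟩
    exact ⟨(hmem α).mp hα, L, hL⟩

end Pool.Agent.S16186
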