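import Pool.Statements.S16523
import Pool.Agent.U14.IK.Final

set_option autoImplicit false
open Pool Pool.MP_33a4a7_nt

namespace Pool.Agent.S16523

/-- For every y in R^2 and every nonnegative psi on N with sum of psi(q)^2 infinite, almost every x in [0,1]^2 has infinitely many q ≥ 1 with some integer vector a making the sup-norm of qx − a − y less than psi(q). -/
theorem result :
    ∀ (y : ℝ × ℝ) (ψ : ℕ → ℝ), (∀ q, 0 ≤ ψ q) →
      ¬ Summable (fun q : ℕ => ψ q ^ 2) →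
      ∀ᵐ x ∂(MeasureTheory.volume.restrict (Set.Icc (0 : ℝ × ℝ) 1)),
        {q : ℕ | 0 < q ∧ ∃ a : ℤ × ℤ,
          ‖(q : ℝ) • x - ((a.1 : ℝ), (a.2 : ℝ)) - y‖ < ψ q}.Infinite :=
  fun y ψ hψ hdiv => Pool.Agent.U14.IK.main y ψ hψ hdiv

end Pool.Agent.S16523
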