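import Pool.Statements.S16586
import Pool.Agent.H443_recip.Chain

set_option autoImplicit false
open Filter Topology
open Pool Pool.MP_38ccf3_nt

namespace Pool.Agent.S16586

/-- The negation of the preceding statement: For every base r ≥ 2 and every real x, if every k-block (k ≥ 1, 0 ≤ m < r^k) occurs among x's fractional base-r digit windows with limiting frequency r^(-k), then the same holds for x⁻¹. -/
theorem result :
    ¬ (∀ r : ℕ, 2 ≤ r → ∀ x : ℝ,
      (∀ k : ℕ, 1 ≤ k → ∀ m : ℤ, 0 ≤ m → m < (r : ℤ) ^ k →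
        Tendsto (fun N : ℕ =>
          (((Finset.range N).filter
              (fun n : ℕ => ⌊(r : ℝ) ^ (n + k) * x⌋ % (r : ℤ) ^ k = m)).card : ℝ) / (N : ℝ))
          atTop (𝓝 (1 / (r : ℝ) ^ k))) →
      (∀ k : ℕ, 1 ≤ k → ∀ m : ℤ, 0 ≤ m → m < (r : ℤ) ^ k →
        Tendsto (fun N : ℕ =>
          (((Finset.range N).filter
              (fun n : ℕ => ⌊(r : ℝ) ^ (n + k) * x⁻¹⌋ % (r : ℤ) ^ k = m)).card : ℝ) / (N : ℝ))
          atTop (𝓝 (1 / (r : ℝ) ^ k)))) := by
  intro h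
  obtain ⟨x, hx, hx'⟩ := Pool.Agent.H443_recip.recip_all
  exact hx' 2 le_rfl (h 2 le_rfl x (hx 2 le_rfl))

end Pool.Agent.S16586
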