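import Pool.Statements.S16733

set_option autoImplicit false
open Pool Pool.MP_44e698_nt

namespace Pool.Agent.S16733

/-- the exponent in the fourfold expansion -/
def ex (t : (ℕ × ℕ) × (ℕ × ℕ)) : ℕ :=
  (t.1.1 + 1) * (2 * t.1.2 + 3) + (2 * t.1.1 + 1) * t.2.1 + (t.1.2 + 1) * t.2.2

/-- the term of the fourfold expansion -/
noncomputable def W (q : ℂ) (t : (ℕ × ℕ) × (ℕ × ℕ)) : ℂ :=
  (-1) ^ (t.1.1 + 1 + t.2.2) * q ^ ex t

/-- the exponent in symmetric form -/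
def ey (s : (ℕ × ℕ) × (ℕ × ℕ)) : ℕ :=
  2 * s.1.1 * s.1.2 + s.1.1 + s.1.2 + 1 + 2 * (s.2.1 + 1) * (s.2.2 + 1)

/-- the symmetric term, `s = ((x, y), (z, v))` -/
noncomputable def H (q : ℂ) (s : (ℕ × ℕ) × (ℕ × ℕ)) : ℂ :=
  if Odd (s.1.1 + s.1.2) then (-1) ^ s.1.1 * q ^ ey s else 0

theorem summable_base {r : ℝ} (h0 : 0 ≤ r) (h1 : r < 1) :
    Summable fun t : (ℕ × ℕ) × (ℕ × ℕ) => r ^ (t.1.1 + t.1.2 + (t.2.1 + t.2.2)) := by
  have hg : Summable fun n : ℕ => r ^ n := summable_geometric_of_lt_one h0 h1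
  have h2 : Summable fun p : ℕ × ℕ => r ^ p.1 * r ^ p.2 :=
    hg.mul_of_nonneg hg (fun _ => by positivity) (fun _ => by positivity)
  have h4 := h2.mul_of_nonneg h2 (fun _ => by positivity) (fun _ => by positivity)
  refine h4.congr fun t => ?_
  simp only [pow_add]

theorem summable_of_le {q : ℂ} (hq : ‖q‖ < 1) (f : (ℕ × ℕ) × (ℕ × ℕ) → ℂ)
    (e : (ℕ × ℕ) × (ℕ × ℕ) → ℕ) (he : ∀ t, t.1.1 + t.1.2 + (t.2.1 + t.2.2) ≤ e t)
    (hf : ∀ t, ‖f t‖ ≤ ‖q‖ ^ e t) : Summable f := by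
  refine Summable.of_norm_bounded (summable_base (norm_nonneg q) hq) fun t => ?_
  exact (hf t).trans (pow_le_pow_of_le_one (norm_nonneg q) hq.le (he t))

theorem le_ex (t : (ℕ × ℕ) × (ℕ × ℕ)) : t.1.1 + t.1.2 + (t.2.1 + t.2.2) ≤ ex t := by
  unfold ex
  nlinarith [Nat.zero_le (t.1.1 * t.1.2), Nat.zero_le (t.1.1 * t.2.1), Nat.zero_le (t.1.2 * t.2.2)]

theorem le_ey (t : (ℕ × ℕ) × (ℕ × ℕ)) : t.1.1 + t.1.2 + (t.2.1 + t.2.2) ≤ ey t := by
  unfold ey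
  nlinarith [Nat.zero_le (t.1.1 * t.1.2), Nat.zero_le (t.2.1 * t.2.2)]

theorem norm_sign (n : ℕ) : ‖((-1 : ℂ)) ^ n‖ = 1 := by simp

theorem summable_W {q : ℂ} (hq : ‖q‖ < 1) : Summable (W q) := by
  refine summable_of_le hq _ ex le_ex fun t => ?_
  unfold W
  rw [norm_mul, norm_sign, one_mul, norm_pow]

theorem summable_H {q : ℂ} (hq : ‖q‖ < 1) : Summable (H q) := by
  refine summable_of_le hq _ ey le_ey fun t => ?_
  unfold H
  split_ifs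
  · rw [norm_mul, norm_sign, one_mul, norm_pow]
  · simp only [norm_zero]
    positivity

/-- expansion of one term -/
theorem term_expand {q : ℂ} (hq : ‖q‖ < 1) (p : ℕ × ℕ) :
    (-q) ^ (2 * (p.1 + 1) * (p.2 + 1) + (p.1 + 1)) /
      ((1 + q ^ (p.2 + 1)) * (1 - q ^ (2 * p.1 + 1))) = ∑' s : ℕ × ℕ, W q (p, s) := by
  have h1 : ‖q ^ (2 * p.1 + 1)‖ < 1 := by
    rw [norm_pow]
    exact pow_lt_one₀ (norm_nonneg q) hq (by omega)
  have h2 : ‖-q ^ (p.2 + 1)‖ < 1 := by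
    rw [norm_neg, norm_pow]
    exact pow_lt_one₀ (norm_nonneg q) hq (by omega)
  have e1 := tsum_geometric_of_norm_lt_one h1
  have e2 := tsum_geometric_of_norm_lt_one h2
  have s1 : Summable fun n : ℕ => ‖(q ^ (2 * p.1 + 1)) ^ n‖ := by
    simp only [norm_pow]
    exact summable_geometric_of_lt_one (by positivity) (by simpa using h1)
  have s2 : Summable fun n : ℕ => ‖(-q ^ (p.2 + 1)) ^ n‖ := by
    simp only [norm_pow, norm_neg]
    exact summable_geometric_of_lt_one (by positivity) (by simpa using h2)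
  have h3 := tsum_mul_tsum_of_summable_norm s1 s2
  rw [e1, e2] at h3
  have h4 : (-q) ^ (2 * (p.1 + 1) * (p.2 + 1) + (p.1 + 1)) /
      ((1 + q ^ (p.2 + 1)) * (1 - q ^ (2 * p.1 + 1))) =
      (-q) ^ (2 * (p.1 + 1) * (p.2 + 1) + (p.1 + 1)) *
        ((1 - q ^ (2 * p.1 + 1))⁻¹ * (1 - -q ^ (p.2 + 1))⁻¹) := by
    rw [div_eq_mul_inv, mul_inv, sub_neg_eq_add]
    ring
  rw [h4, h3, ← tsum_mul_left]
  refine tsum_congr fun s => ?_
  unfold W ex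
  have h5 : (-q) ^ (2 * (p.1 + 1) * (p.2 + 1) + (p.1 + 1)) =
      (-1) ^ (p.1 + 1) * q ^ ((p.1 + 1) * (2 * p.2 + 3)) := by
    rw [neg_pow, pow_add (-1 : ℂ), mul_assoc 2, pow_mul (-1 : ℂ), neg_one_sq, one_pow, one_mul]
    congr 2
    ring
  have h6 : (-q ^ (p.2 + 1)) ^ s.2 = (-1) ^ s.2 * q ^ ((p.2 + 1) * s.2) := by
    rw [neg_pow, pow_mul]
  have h7 : (q ^ (2 * p.1 + 1)) ^ s.1 = q ^ ((2 * p.1 + 1) * s.1) := by rw [pow_mul]
  simp only
  rw [h5, h6, h7, pow_add (-1 : ℂ) (p.1 + 1) s.2,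
    pow_add q ((p.1 + 1) * (2 * p.2 + 3) + (2 * p.1 + 1) * s.1) ((p.2 + 1) * s.2),
    pow_add q ((p.1 + 1) * (2 * p.2 + 3)) ((2 * p.1 + 1) * s.1)]
  ring

theorem Y_eq {q : ℂ} (hq : ‖q‖ < 1) :
    ∑' p : ℕ × ℕ, (-q) ^ (2 * (p.1 + 1) * (p.2 + 1) + (p.1 + 1)) /
      ((1 + q ^ (p.2 + 1)) * (1 - q ^ (2 * p.1 + 1))) = ∑' t, W q t := by
  rw [(summable_W hq).tsum_prod]
  exact tsum_congr fun p => term_expand hq p

/-- the even part -/
noncomputable def K (q : ℂ) (t : (ℕ × ℕ) × (ℕ × ℕ)) : ℂ := W q t + W (-q) t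

theorem K_eq (q : ℂ) (t : (ℕ × ℕ) × (ℕ × ℕ)) :
    K q t = if Even (ex t) then 2 * W q t else 0 := by
  unfold K W
  rw [neg_pow q]
  split_ifs with h
  · rw [h.neg_one_pow]
    ring
  · rw [(Nat.not_even_iff_odd.1 h).neg_one_pow]
    ring

theorem K_even (q : ℂ) (m n k i : ℕ) :
    K q ((m, n), (k, 2 * i)) = -2 * H q ((m, k), (n, i + m)) := by
  have e : ex ((m, n), (k, 2 * i)) = ey ((m, k), (n, i + m)) := by
    simp only [ex, ey]
    ring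
  have p : Even (ex ((m, n), (k, 2 * i))) ↔ Odd (m + k) := by
    rw [e]
    simp only [ey]
    rw [mul_assoc 2, mul_assoc 2]
    generalize m * k = a
    generalize (n + 1) * (i + m + 1) = b
    rw [Nat.even_iff, Nat.odd_iff]
    omega
  rw [K_eq]
  unfold H
  simp only [p]
  split_ifs with h
  · unfold W
    rw [e]
    simp only
    rw [pow_add, pow_add, pow_one, pow_mul, neg_one_sq, one_pow]
    ring
  · simp

theorem K_odd (q : ℂ) (m n k i : ℕ) :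
    K q ((m, n), (k, 2 * i + 1)) = 2 * H q ((m, n + 1 + k), (n, i)) := by
  have e : ex ((m, n), (k, 2 * i + 1)) = ey ((m, n + 1 + k), (n, i)) := by
    simp only [ex, ey]
    ring
  have p : Even (ex ((m, n), (k, 2 * i + 1))) ↔ Odd (m + (n + 1 + k)) := by
    rw [e]
    simp only [ey]
    rw [mul_assoc 2, mul_assoc 2]
    generalize m * (n + 1 + k) = a
    generalize (n + 1) * (i + 1) = b
    rw [Nat.even_iff, Nat.odd_iff]
    omega
  rw [K_eq]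
  unfold H
  simp only [p]
  split_ifs with h
  · unfold W
    rw [e]
    simp only
    rw [pow_add, pow_add, pow_one, pow_add, pow_mul, neg_one_sq, one_pow]
    ring
  · simp

/-- the swap -/
def sw : ((ℕ × ℕ) × (ℕ × ℕ)) ≃ ((ℕ × ℕ) × (ℕ × ℕ)) :=
  Equiv.prodCongr (Equiv.prodComm ℕ ℕ) (Equiv.prodComm ℕ ℕ)

theorem H_sw (q : ℂ) (s : (ℕ × ℕ) × (ℕ × ℕ)) : H q (sw s) = -H q s := by
  obtain ⟨⟨x, y⟩, ⟨z, v⟩⟩ := s
  have e : ey ((y, x), (v, z)) = ey ((x, y), (z, v)) := by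
    simp only [ey]
    ring
  show H q ((y, x), (v, z)) = -H q ((x, y), (z, v))
  unfold H
  rw [e]
  simp only [add_comm y x]
  split_ifs with h
  · have h2 : (-1 : ℂ) ^ y = -(-1) ^ x := by
      have h3 : (-1 : ℂ) ^ (x + y) = -1 := h.neg_one_pow
      rw [pow_add] at h3
      have h4 : (-1 : ℂ) ^ x * (-1) ^ x = 1 := by
        rw [← pow_add, ← two_mul, pow_mul, neg_one_sq, one_pow]
      calc (-1 : ℂ) ^ y = ((-1) ^ x * (-1) ^ x) * (-1) ^ y := by rw [h4, one_mul]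
        _ = (-1) ^ x * ((-1) ^ x * (-1) ^ y) := by ring
        _ = -(-1) ^ x := by rw [h3]; ring
    rw [h2]
    ring
  · simp

theorem sum_K {q : ℂ} (hq : ‖q‖ < 1) : ∑' t, K q t = 0 := by
  have hq' : ‖-q‖ < 1 := by rwa [norm_neg]
  have hK : Summable (K q) := (summable_W hq).add (summable_W hq')
  have hH := summable_H hq
  -- the two halves
  have hsplit : ∑' t, K q t = (∑' t : (ℕ × ℕ) × (ℕ × ℕ), if Even t.2.2 then K q t else 0) +
      ∑' t : (ℕ × ℕ) × (ℕ × ℕ), if Even t.2.2 then 0 else K q t := by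
    rw [← Summable.tsum_add]
    · refine tsum_congr fun t => ?_
      split_ifs <;> simp
    · refine Summable.of_norm_bounded hK.norm fun t => ?_
      split_ifs <;> simp
    · refine Summable.of_norm_bounded hK.norm fun t => ?_
      split_ifs <;> simp
  have h0 : (∑' t : (ℕ × ℕ) × (ℕ × ℕ), if Even t.2.2 then K q t else 0) =
      ∑' s : (ℕ × ℕ) × (ℕ × ℕ), -2 * H q ((s.1.1, s.2.1), (s.1.2, s.2.2 + s.1.1)) := by
    set g : (ℕ × ℕ) × (ℕ × ℕ) → (ℕ × ℕ) × (ℕ × ℕ) := fun s => (s.1, (s.2.1, 2 * s.2.2)) with hg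
    have hgi : Function.Injective g := by
      rintro ⟨⟨a, b⟩, ⟨c, d⟩⟩ ⟨⟨a', b'⟩, ⟨c', d'⟩⟩ h
      simp only [hg, Prod.mk.injEq] at h ⊢
      obtain ⟨⟨h1, h2⟩, h3, h4⟩ := h
      exact ⟨⟨h1, h2⟩, h3, by omega⟩
    rw [← hgi.tsum_eq (f := fun t : (ℕ × ℕ) × (ℕ × ℕ) => if Even t.2.2 then K q t else 0)]
    · refine tsum_congr fun s => ?_
      have : Even (g s).2.2 := by simp [hg]
      rw [if_pos this]
      exact K_even q s.1.1 s.1.2 s.2.1 s.2.2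
    · intro t ht
      rw [Function.mem_support] at ht
      have h1 : Even t.2.2 := by
        by_contra hc
        exact ht (if_neg hc)
      obtain ⟨i, hi⟩ := h1
      exact ⟨(t.1, (t.2.1, i)), by
        simp only [hg]
        ext <;> simp [hi, two_mul]⟩
  have h1 : (∑' t : (ℕ × ℕ) × (ℕ × ℕ), if Even t.2.2 then 0 else K q t) =
      ∑' s : (ℕ × ℕ) × (ℕ × ℕ), 2 * H q ((s.1.1, s.1.2 + 1 + s.2.1), (s.1.2, s.2.2)) := by
    set g : (ℕ × ℕ) × (ℕ × ℕ) → (ℕ × ℕ) × (ℕ × ℕ) := fun s => (s.1, (s.2.1, 2 * s.2.2 + 1)) with hg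
    have hgi : Function.Injective g := by
      rintro ⟨⟨a, b⟩, ⟨c, d⟩⟩ ⟨⟨a', b'⟩, ⟨c', d'⟩⟩ h
      simp only [hg, Prod.mk.injEq] at h ⊢
      obtain ⟨⟨h1, h2⟩, h3, h4⟩ := h
      exact ⟨⟨h1, h2⟩, h3, by omega⟩
    rw [← hgi.tsum_eq (f := fun t : (ℕ × ℕ) × (ℕ × ℕ) => if Even t.2.2 then 0 else K q t)]
    · refine tsum_congr fun s => ?_
      have : ¬ Even (g s).2.2 := by simp [hg]
      rw [if_neg this]
      exact K_odd q s.1.1 s.1.2 s.2.1 s.2.2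
    · intro t ht
      rw [Function.mem_support] at ht
      have h1 : ¬ Even t.2.2 := by
        intro hc
        exact ht (if_pos hc)
      obtain ⟨i, hi⟩ := Nat.not_even_iff_odd.1 h1
      exact ⟨(t.1, (t.2.1, i)), by
        simp only [hg]
        ext <;> simp [hi]⟩
  -- the images
  have h2 : (∑' s : (ℕ × ℕ) × (ℕ × ℕ), H q ((s.1.1, s.2.1), (s.1.2, s.2.2 + s.1.1))) =
      ∑' u : (ℕ × ℕ) × (ℕ × ℕ), if u.1.1 ≤ u.2.2 then H q u else 0 := by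
    set g : (ℕ × ℕ) × (ℕ × ℕ) → (ℕ × ℕ) × (ℕ × ℕ) :=
      fun s => ((s.1.1, s.2.1), (s.1.2, s.2.2 + s.1.1)) with hg
    have hgi : Function.Injective g := by
      rintro ⟨⟨a, b⟩, ⟨c, d⟩⟩ ⟨⟨a', b'⟩, ⟨c', d'⟩⟩ h
      simp only [hg, Prod.mk.injEq] at h ⊢
      obtain ⟨⟨h1, h2⟩, h3, h4⟩ := h
      exact ⟨⟨h1, h3⟩, h2, by omega⟩
    rw [← hgi.tsum_eq (f := fun u : (ℕ × ℕ) × (ℕ × ℕ) => if u.1.1 ≤ u.2.2 then H q u else 0)]
    · refine tsum_congr fun s => ?_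
      have : (g s).1.1 ≤ (g s).2.2 := by simp [hg]
      rw [if_pos this]
    · intro t ht
      rw [Function.mem_support] at ht
      have h1 : t.1.1 ≤ t.2.2 := by
        by_contra hc
        exact ht (if_neg hc)
      exact ⟨((t.1.1, t.2.1), (t.1.2, t.2.2 - t.1.1)), by
        simp only [hg]
        ext <;> simp [h1]⟩
  have h3 : (∑' s : (ℕ × ℕ) × (ℕ × ℕ), H q ((s.1.1, s.1.2 + 1 + s.2.1), (s.1.2, s.2.2))) =
      ∑' u : (ℕ × ℕ) × (ℕ × ℕ), if u.1.2 ≤ u.2.1 then 0 else H q u := by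
    set g : (ℕ × ℕ) × (ℕ × ℕ) → (ℕ × ℕ) × (ℕ × ℕ) :=
      fun s => ((s.1.1, s.1.2 + 1 + s.2.1), (s.1.2, s.2.2)) with hg
    have hgi : Function.Injective g := by
      rintro ⟨⟨a, b⟩, ⟨c, d⟩⟩ ⟨⟨a', b'⟩, ⟨c', d'⟩⟩ h
      simp only [hg, Prod.mk.injEq] at h ⊢
      obtain ⟨⟨h1, h2⟩, h3, h4⟩ := h
      exact ⟨⟨h1, h3⟩, by omega, h4⟩
    rw [← hgi.tsum_eq (f := fun u : (ℕ × ℕ) × (ℕ × ℕ) => if u.1.2 ≤ u.2.1 then 0 else H q u)]
    · refine tsum_congr fun s => ?_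
      have : ¬ (g s).1.2 ≤ (g s).2.1 := by simp only [hg]; omega
      rw [if_neg this]
    · intro t ht
      rw [Function.mem_support] at ht
      have h1 : ¬ t.1.2 ≤ t.2.1 := by
        intro hc
        exact ht (if_pos hc)
      refine ⟨((t.1.1, t.2.1), (t.1.2 - t.2.1 - 1, t.2.2)), ?_⟩
      simp only [hg]
      have : t.2.1 + 1 + (t.1.2 - t.2.1 - 1) = t.1.2 := by omega
      rw [this]
  -- the swap
  have h4 : (∑' u : (ℕ × ℕ) × (ℕ × ℕ), if u.1.1 ≤ u.2.2 then H q u else 0) =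
      -∑' u : (ℕ × ℕ) × (ℕ × ℕ), if u.1.2 ≤ u.2.1 then H q u else 0 := by
    rw [← sw.tsum_eq, ← tsum_neg]
    refine tsum_congr fun u => ?_
    have e1 : (sw u).1.1 = u.1.2 := rfl
    have e2 : (sw u).2.2 = u.2.1 := rfl
    rw [e1, e2, H_sw]
    split_ifs <;> simp
  have h5 : ∑' u, H q u = 0 := by
    have h6 : ∑' u, H q u = -∑' u, H q u := by
      conv_lhs => rw [← sw.tsum_eq]
      rw [← tsum_neg]
      exact tsum_congr fun u => H_sw q u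
    have h7 : (2 : ℂ) * ∑' u, H q u = 0 := by
      rw [two_mul]
      nth_rewrite 1 [h6]
      ring
    simpa using h7
  have h6 : ∑' u, H q u = (∑' u : (ℕ × ℕ) × (ℕ × ℕ), if u.1.2 ≤ u.2.1 then H q u else 0) +
      ∑' u : (ℕ × ℕ) × (ℕ × ℕ), if u.1.2 ≤ u.2.1 then 0 else H q u := by
    rw [← Summable.tsum_add]
    · refine tsum_congr fun t => ?_
      split_ifs <;> simp
    · refine Summable.of_norm_bounded hH.norm fun t => ?_
      split_ifs <;> simp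
    · refine Summable.of_norm_bounded hH.norm fun t => ?_
      split_ifs <;> simp
  rw [hsplit, h0, h1, tsum_mul_left, tsum_mul_left, h2, h3, h4]
  rw [h5] at h6
  linear_combination (-2 : ℂ) * h6

/-- For every complex q with ∣q∣<1, let Y(q) be the sum over m,n≥1 of (-q)^(2mn+m)/((1+q^n)(1-q^(2m-1))). Then Y(-q) = -Y(q), i.e. Y is an odd function. -/
theorem result :
    ∀ q : ℂ, ‖q‖ < 1 →
      (∑' p : ℕ × ℕ, (-(-q)) ^ (2 * (p.1 + 1) * (p.2 + 1) + (p.1 + 1)) /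
          ((1 + (-q) ^ (p.2 + 1)) * (1 - (-q) ^ (2 * p.1 + 1))))
        = -(∑' p : ℕ × ℕ, (-q) ^ (2 * (p.1 + 1) * (p.2 + 1) + (p.1 + 1)) /
          ((1 + q ^ (p.2 + 1)) * (1 - q ^ (2 * p.1 + 1)))) := by
  intro q hq
  have hq' : ‖-q‖ < 1 := by rwa [norm_neg]
  rw [Y_eq hq', Y_eq hq]
  have h := sum_K hq
  unfold K at h
  rw [Summable.tsum_add (summable_W hq) (summable_W hq')] at h
  linear_combination h

end Pool.Agent.S16733
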