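import Pool.Statements.S16915
-- import your own Pool.Agent.* helpers here

set_option autoImplicit false
open MeasureTheory
open Pool Pool.MP_4fa6ed_nt

namespace Pool.Agent.S16915

/-- Prime-to-`m` part: every positive `L` divides `L₁ * m ^ k` with `L₁ > 0` coprime to `m`. -/
private theorem prime_to_part (m : ℕ) :
    ∀ L : ℕ, 0 < L → ∃ L₁ k : ℕ, 0 < L₁ ∧ Nat.Coprime L₁ m ∧ L ∣ L₁ * m ^ k := by
  intro L
  induction L using Nat.strong_induction_on with
  | _ L ih =>
    intro hL
    by_cases hg : Nat.gcd L m = 1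
    · exact ⟨L, 0, hL, hg, by simp⟩
    · have hgpos : 0 < Nat.gcd L m := Nat.gcd_pos_of_pos_left _ hL
      have hg1 : 1 < Nat.gcd L m := by omega
      obtain ⟨t, ht⟩ := Nat.gcd_dvd_left L m
      have htpos : 0 < t := by
        rcases Nat.eq_zero_or_pos t with h | h
        · subst h; simp at ht; omega
        · exact h
      have htlt : t < L := by
        have : 1 * t < Nat.gcd L m * t := Nat.mul_lt_mul_of_pos_right hg1 htpos
        omega
      obtain ⟨L₁, k, h1, h2, h3⟩ := ih t htlt htpos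
      refine ⟨L₁, k + 1, h1, h2, ?_⟩
      rw [ht, pow_succ]
      have h4 : Nat.gcd L m * t ∣ m * (L₁ * m ^ k) :=
        Nat.mul_dvd_mul (Nat.gcd_dvd_right L m) h3
      have h5 : m * (L₁ * m ^ k) = L₁ * (m ^ k * m) := by ring
      rwa [h5] at h4

/-- The relation between two members `u < v` of a chain: `v / u = (x + 1) / x` with
`p ∣ x + 1`, `q ∣ x` and `x ≥ X₀`. -/
private def Rel (p q X₀ u v : ℤ) : Prop :=
  u < v ∧ ∃ x : ℤ, X₀ ≤ x ∧ q ∣ x ∧ p ∣ x + 1 ∧ (v - u) * x = u

/-- Arbitrarily long chains. -/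
private theorem chain (p q : ℕ) (hp : 0 < p) (hq : 0 < q) (hpq : Nat.Coprime p q) (X₀ : ℤ)
    (hX : 0 < X₀) (r : ℕ) :
    ∃ c : ℕ → ℤ, (∀ i < r, 0 < c i) ∧ ∀ i < r, ∀ j < i, Rel p q X₀ (c j) (c i) := by
  induction r with
  | zero => exact ⟨fun _ => 1, by simp, by simp⟩
  | succ r ih =>
    obtain ⟨c, hc, hR⟩ := ih
    -- the scaled chain
    set s : ℕ → ℤ := fun i => q * c i with hs
    have hspos : ∀ i < r, 0 < s i := fun i hi => by
      have := hc i hi
      simp only [hs]; positivity
    have hslt : ∀ i < r, ∀ j < i, s j < s i := fun i hi j hj => by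
      have := (hR i hi j hj).1
      simp only [hs]
      have hq' : (0 : ℤ) < q := by exact_mod_cast hq
      exact mul_lt_mul_of_pos_left this hq'
    -- a common multiple
    set L : ℤ := p * q * ∏ i ∈ Finset.range r, ∏ j ∈ Finset.range i, (s i - s j) with hL
    have hLpos : 0 < L := by
      have h1 : 0 < ∏ i ∈ Finset.range r, ∏ j ∈ Finset.range i, (s i - s j) := by
        apply Finset.prod_pos
        intro i hi
        apply Finset.prod_pos
        intro j hj
        have := hslt i (Finset.mem_range.1 hi) j (Finset.mem_range.1 hj)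
        omega
      have hp' : (0 : ℤ) < p := by exact_mod_cast hp
      have hq' : (0 : ℤ) < q := by exact_mod_cast hq
      simp only [hL]; positivity
    have hLdvd : ∀ i < r, ∀ j < i, (p : ℤ) * q * (s i - s j) ∣ L := by
      intro i hi j hj
      apply mul_dvd_mul_left
      exact (Finset.dvd_prod_of_mem (fun j => s i - s j) (Finset.mem_range.2 hj)).trans
        (Finset.dvd_prod_of_mem (fun i => ∏ j ∈ Finset.range i, (s i - s j)) (Finset.mem_range.2 hi))
    obtain ⟨L₁, k, hL₁, hco, hdv⟩ := prime_to_part q L.toNat (by omega)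
    have hdvZ : L ∣ (L₁ : ℤ) * (q : ℤ) ^ k := by
      have h1 : ((L.toNat : ℕ) : ℤ) ∣ ((L₁ * q ^ k : ℕ) : ℤ) := Int.natCast_dvd_natCast.2 hdv
      rw [Int.toNat_of_nonneg hLpos.le] at h1
      push_cast at h1
      exact h1
    -- the new element
    obtain ⟨B, hB⟩ : ∃ B : ℤ, 0 < B ∧ ∀ i < r, s i < B := by
      refine ⟨1 + ∑ i ∈ Finset.range r, s i, ?_, ?_⟩
      · have : 0 ≤ ∑ i ∈ Finset.range r, s i :=
          Finset.sum_nonneg fun i hi => (hspos i (Finset.mem_range.1 hi)).le
        omega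
      · intro i hi
        have : s i ≤ ∑ i ∈ Finset.range r, s i :=
          Finset.single_le_sum (f := s) (fun i hi => (hspos i (Finset.mem_range.1 hi)).le)
            (Finset.mem_range.2 hi)
        omega
    set S : ℤ := L₁ * (1 + q * B) with hS
    have hL₁' : (1 : ℤ) ≤ L₁ := by exact_mod_cast hL₁
    have hq' : (1 : ℤ) ≤ q := by exact_mod_cast hq
    have hp' : (1 : ℤ) ≤ p := by exact_mod_cast hp
    have hSB : B < S := by
      have h1 : B ≤ q * B := by nlinarith [hB.1]
      have h2 : 1 + q * B ≤ L₁ * (1 + q * B) := by nlinarith [hB.1]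
      omega
    have hSco : IsCoprime S (q : ℤ) := by
      apply IsCoprime.mul_left
      · exact Nat.isCoprime_iff_coprime.2 hco
      · refine ⟨1, -B, by ring⟩
    have hD : ∀ i < r, 0 < S - s i := fun i hi => by have := hB.2 i hi; omega
    have hDco : ∀ i, IsCoprime (S - s i) (q : ℤ) := by
      intro i
      have h1 : S - s i = S + (q : ℤ) * (- c i) := by simp only [hs]; ring
      rw [h1]
      exact (IsCoprime.add_mul_left_left_iff).2 hSco
    set P : ℤ := ∏ i ∈ Finset.range r, (S - s i) with hP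
    have hPpos : 0 < P := Finset.prod_pos fun i hi => hD i (Finset.mem_range.1 hi)
    have hPco : IsCoprime ((p : ℤ) * P) (q : ℤ) := by
      apply IsCoprime.mul_left
      · exact Nat.isCoprime_iff_coprime.2 hpq
      · exact IsCoprime.prod_left fun i _ => hDco i
    -- compatibility
    have hgcd : (Int.gcd L (p * P) : ℤ) ∣ S := by
      have h1 : (Int.gcd L (p * P) : ℤ) ∣ (L₁ : ℤ) * (q : ℤ) ^ k := (Int.gcd_dvd_left _ _).trans hdvZ
      have h2 : IsCoprime (Int.gcd L (p * P) : ℤ) ((q : ℤ) ^ k) :=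
        (IsCoprime.of_isCoprime_of_dvd_left hPco (Int.gcd_dvd_right _ _)).pow_right
      exact (h2.dvd_of_dvd_mul_right h1).trans (Dvd.intro _ rfl)
    obtain ⟨x₀, y₀, hxy⟩ : ∃ x₀ y₀ : ℤ, S = L * x₀ + p * P * y₀ := by
      obtain ⟨w, hw⟩ := hgcd
      rw [Int.gcd_eq_gcd_ab] at hw
      exact ⟨Int.gcdA L (p * P) * w, Int.gcdB L (p * P) * w, by rw [hw]; ring⟩
    -- the translation
    set t : ℤ := |x₀| + X₀ * S + 1 with ht
    set M : ℤ := L * (p * P * t - x₀) with hM
    have hpP : 1 ≤ p * P := by nlinarith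
    have hMbig : X₀ * S ≤ M := by
      have h0 : x₀ ≤ |x₀| := le_abs_self _
      have h00 : 0 ≤ |x₀| := abs_nonneg _
      have hSpos : 0 < S := by linarith [hB.1]
      have hXS : 0 < X₀ * S := by positivity
      have h1 : t ≤ p * P * t := by nlinarith
      have h2 : X₀ * S ≤ p * P * t - x₀ := by linarith
      have h3 : p * P * t - x₀ ≤ L * (p * P * t - x₀) := by nlinarith
      linarith
    have hSpos : 0 < S := by linarith [hB.1]
    have hMpos : 0 < M := by
      have : 0 < X₀ * S := by positivity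
      linarith
    have hLM : L ∣ M := Dvd.intro _ rfl
    have hPM : (p : ℤ) * P ∣ M + S := by
      refine ⟨L * t + y₀, ?_⟩
      rw [hM, hxy]; ring
    refine ⟨fun i => if i < r then M + s i else M + S, ?_, ?_⟩
    · intro i hi
      by_cases h : i < r
      · simp only [h, if_true]
        have := hspos i h; omega
      · simp only [h, if_false]; omega
    · intro i hi j hj
      have hjr : j < r := by omega
      by_cases h : i < r
      · simp only [h, hjr, if_true]
        obtain ⟨hlt, x, hx0, hqx, hpx, hx⟩ := hR i h j hj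
        obtain ⟨w, hw⟩ := (hLdvd i h j hj).trans hLM
        refine ⟨by have := hslt i h j hj; omega, x + p * q * w, ?_, ?_, ?_, ?_⟩
        · have hgpos : 0 < s i - s j := by have := hslt i h j hj; omega
          have hw0 : 0 ≤ w := by
            by_contra hneg
            have hneg' : w < 0 := by omega
            have : (p : ℤ) * q * (s i - s j) * w < 0 := by
              have : 0 < (p : ℤ) * q * (s i - s j) := by positivity
              nlinarith
            omega
          have : 0 ≤ (p : ℤ) * q * w := by positivity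
          linarith
        · exact dvd_add hqx ⟨p * w, by ring⟩
        · have : x + p * q * w + 1 = (x + 1) + p * (q * w) := by ring
          rw [this]
          exact dvd_add hpx (Dvd.intro _ rfl)
        · have h1 : (s i - s j) * x = s j := by
            simp only [hs]
            have : (q : ℤ) * c i - q * c j = q * (c i - c j) := by ring
            rw [this, mul_assoc, hx]
          have h2 : M + s i - (M + s j) = s i - s j := by ring
          rw [h2, mul_add, h1, hw]; ring
      · have hir : i = r := by omega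
        simp only [h, hjr, if_true, if_false]
        have hDj := hD j hjr
        have hDP : (S - s j) ∣ P :=
          Finset.dvd_prod_of_mem (fun i => S - s i) (Finset.mem_range.2 hjr)
        have hpD : (p : ℤ) * (S - s j) ∣ M + S := (mul_dvd_mul_left _ hDP).trans hPM
        obtain ⟨z, hz⟩ := hpD
        have h1 : (S - s j) * (p * z - 1) = M + s j := by
          have h0 : (S - s j) * (p * z - 1) = p * (S - s j) * z - (S - s j) := by ring
          rw [h0, ← hz]; ring
        have hsj := hspos j hjr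
        -- x + 1 = p z
        refine ⟨by omega, p * z - 1, ?_, ?_, ?_, ?_⟩
        · have h3 : X₀ * (S - s j) ≤ X₀ * S :=
            mul_le_mul_of_nonneg_left (by omega) hX.le
          have h2 : X₀ * (S - s j) ≤ (p * z - 1) * (S - s j) := by
            rw [mul_comm (↑p * z - 1) (S - s j), h1]
            omega
          exact le_of_mul_le_mul_right h2 hDj
        · have hqM : (q : ℤ) ∣ M + s j := by
            apply dvd_add
            · refine Dvd.dvd.trans ?_ hLM
              exact ⟨p * ∏ i ∈ Finset.range r, ∏ j ∈ Finset.range i, (s i - s j), by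
                rw [hL]; ring⟩
            · exact ⟨c j, rfl⟩
          rw [← h1] at hqM
          exact (hDco j).symm.dvd_of_dvd_mul_left hqM
        · exact ⟨z, by ring⟩
        · have h4 : (M + S - (M + s j)) = S - s j := by ring
          rw [h4, h1]

/-- Poincaré-type pigeonhole. -/
private theorem exists_pair {X : Type} [MeasurableSpace X] (μ : Measure X)
    [IsProbabilityMeasure μ] (r : ℕ) (f : ℕ → Set X) (hf : ∀ i < r, MeasurableSet (f i))
    (m : ENNReal) (hm : ∀ i < r, μ (f i) = m) (hr : 1 < r * m) :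
    ∃ i < r, ∃ j < i, 0 < μ (f i ∩ f j) := by
  by_contra hcon
  push Not at hcon
  have hd : Set.Pairwise (↑(Finset.range r) : Set ℕ) (Function.onFun (AEDisjoint μ) f) := by
    intro i hi j hj hij
    have hi' : i < r := by simpa using hi
    have hj' : j < r := by simpa using hj
    rcases lt_or_gt_of_ne hij with h | h
    · have := hcon j hj' i h
      have h0 : μ (f j ∩ f i) = 0 := le_antisymm this bot_le
      show μ (f i ∩ f j) = 0
      rw [Set.inter_comm]; exact h0
    · have := hcon i hi' j h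
      exact le_antisymm this bot_le
  have h1 := measure_biUnion_finset₀ (μ := μ) hd
    (fun i hi => (hf i (by simpa using hi)).nullMeasurableSet)
  have h2 : ∑ i ∈ Finset.range r, μ (f i) = r * m := by
    rw [Finset.sum_congr rfl (fun i hi => hm i (by simpa using hi))]
    simp
  rw [h2] at h1
  have h3 : μ (⋃ b ∈ Finset.range r, f b) ≤ 1 := prob_le_one
  rw [h1] at h3
  exact absurd hr (not_lt.2 h3)

/-- Arithmetic reduction. -/
private theorem arith (a : ℕ) (b d : ℤ) (ha : 0 < a)
    (hg : ∀ k : ℤ, k ∣ (a : ℤ) → k ∣ b → k ∣ d → IsUnit k) (hdvd : (a : ℤ) ∣ b * d)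
    (hbd : d < b) (x : ℤ) (hx : |d| < x) (h1 : (Int.gcd a b : ℤ) ∣ x + 1)
    (h2 : (Int.gcd a d : ℤ) ∣ x) :
    ∃ n : ℕ, 0 < n ∧ (a : ℤ) * n + d = (b - d) * x ∧ (a : ℤ) * n + b = (b - d) * (x + 1) := by
  have hco : IsCoprime (Int.gcd a b : ℤ) (Int.gcd a d : ℤ) := by
    rw [Int.isCoprime_iff_gcd_eq_one]
    have h := hg (Int.gcd (Int.gcd a b : ℤ) (Int.gcd a d : ℤ) : ℤ)
      ((Int.gcd_dvd_left _ _).trans (Int.gcd_dvd_left _ _))
      ((Int.gcd_dvd_left _ _).trans (Int.gcd_dvd_right _ _))
      ((Int.gcd_dvd_right _ _).trans (Int.gcd_dvd_right _ _))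
    have := Int.isUnit_iff_natAbs_eq.1 h
    simpa using this
  have hmul : (a : ℤ) ∣ (Int.gcd a b : ℤ) * (Int.gcd a d : ℤ) := by
    have h3 : Nat.gcd a (b.natAbs * d.natAbs) ∣ Nat.gcd a b.natAbs * Nat.gcd a d.natAbs :=
      Nat.gcd_mul_right_dvd_mul_gcd a b.natAbs d.natAbs
    have h4 : a ∣ b.natAbs * d.natAbs := by
      have := Int.natAbs_dvd_natAbs.2 hdvd
      simpa [Int.natAbs_mul] using this
    rw [Nat.gcd_eq_left h4] at h3
    have h5 : ((a : ℕ) : ℤ) ∣ ((Nat.gcd a b.natAbs * Nat.gcd a d.natAbs : ℕ) : ℤ) :=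
      Int.natCast_dvd_natCast.2 h3
    push_cast at h5
    simpa [Int.gcd] using h5
  have hE : (Int.gcd a b : ℤ) * (Int.gcd a d : ℤ) ∣ b * x - d * (x + 1) := by
    apply hco.mul_dvd
    · exact dvd_sub (Dvd.dvd.mul_right (Int.gcd_dvd_right _ _) _) (Dvd.dvd.mul_left h1 _)
    · exact dvd_sub (Dvd.dvd.mul_left h2 _) (Dvd.dvd.mul_right (Int.gcd_dvd_right _ _) _)
  obtain ⟨n, hn⟩ := hmul.trans hE
  have hpos : 0 < b * x - d * (x + 1) := by
    have h6 : b * x - d * (x + 1) = (b - d) * x - d := by ring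
    have h7 : x ≤ (b - d) * x := by
      have h8 : 0 ≤ |d| := abs_nonneg d
      nlinarith
    have h9 : d ≤ |d| := le_abs_self d
    omega
  have hnpos : 0 < n := by
    rw [hn] at hpos
    by_contra hneg
    have hneg' : n ≤ 0 := by omega
    have ha' : (0 : ℤ) < a := by exact_mod_cast ha
    nlinarith
  refine ⟨n.toNat, by omega, ?_, ?_⟩
  · rw [Int.toNat_of_nonneg hnpos.le, ← hn]; ring
  · rw [Int.toNat_of_nonneg hnpos.le, ← hn]; ring

/-- If a≥1, gcd(a,b,d)=1, and b=d or a divides bd, then for every measure-preserving action of the positive rationals under multiplication and every positive-measure set A, some ratio (an+b)/(an+d) with n≥1 and both terms positive returns A to itself in positive measure. -/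
theorem result :
    ∀ (a : ℕ) (b d : ℤ), 0 < a →
      (∀ k : ℤ, k ∣ (a : ℤ) → k ∣ b → k ∣ d → IsUnit k) →
      (b = d ∨ (a : ℤ) ∣ b * d) →
      ∀ (X : Type) [MeasurableSpace X] (μ : Measure X) [IsProbabilityMeasure μ]
        (T : ℚ → X → X),
        T 1 = id →
        (∀ q r : ℚ, 0 < q → 0 < r → T (q * r) = T q ∘ T r) →
        (∀ q : ℚ, 0 < q → MeasurePreserving (T q) μ μ) →
        ∀ A : Set X, MeasurableSet A → 0 < μ A →
          ∃ n : ℕ, 0 < n ∧ 0 < (a : ℤ) * n + b ∧ 0 < (a : ℤ) * n + d ∧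
            0 < μ (A ∩ T (((a : ℚ) * n + b) / ((a : ℚ) * n + d)) ⁻¹' A) := by
  intro a b d ha hg hbd X _ μ _ T hT1 hTmul hTmp A hA hμA
  have haZ : (0 : ℤ) < a := by exact_mod_cast ha
  by_cases hEq : b = d
  · subst hEq
    have hb0 : 0 < (a : ℤ) * ((b.natAbs + 1 : ℕ) : ℤ) + b := by
      push_cast
      have h1 : -b ≤ |b| := neg_le_abs b
      have h2 : 0 ≤ |b| := abs_nonneg b
      nlinarith
    refine ⟨b.natAbs + 1, by omega, hb0, hb0, ?_⟩
    have hne : ((a : ℚ) * ((b.natAbs + 1 : ℕ) : ℚ) + b) ≠ 0 := by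
      have h3 : (((a : ℤ) * ((b.natAbs + 1 : ℕ) : ℤ) + b : ℤ) : ℚ) ≠ 0 :=
        Int.cast_ne_zero.2 hb0.ne'
      simpa only [Int.cast_add, Int.cast_mul, Int.cast_natCast] using h3
    rw [div_self hne, hT1]
    simpa using hμA
  have hdvd : (a : ℤ) ∣ b * d := hbd.resolve_left hEq
  -- the number of sets
  obtain ⟨r, hr⟩ : ∃ r : ℕ, 1 < r * μ A := ENNReal.exists_nat_mul_gt hμA.ne' ENNReal.one_ne_top
  -- general step
  have key : ∀ (p q : ℕ), 0 < p → 0 < q → Nat.Coprime p q → ∀ X₀ : ℤ, 0 < X₀ →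
      ∃ x : ℤ, X₀ ≤ x ∧ (q : ℤ) ∣ x ∧ (p : ℤ) ∣ x + 1 ∧
        0 < μ (A ∩ T (((x : ℚ) + 1) / x) ⁻¹' A) ∧ 0 < μ (A ∩ T ((x : ℚ) / (x + 1)) ⁻¹' A) := by
    intro p q hp hq hpq X₀ hX₀
    obtain ⟨c, hc, hR⟩ := chain p q hp hq hpq X₀ hX₀ r
    have hcQ : ∀ i < r, (0 : ℚ) < c i := fun i hi => by exact_mod_cast hc i hi
    obtain ⟨i, hi, j, hj, hij⟩ := exists_pair μ r (fun i => T (c i) ⁻¹' A)
      (fun i hi => (hTmp _ (hcQ i hi)).measurable hA) (μ A)
      (fun i hi => (hTmp _ (hcQ i hi)).measure_preimage hA.nullMeasurableSet) hr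
    obtain ⟨hlt, x, hx0, hqx, hpx, hx⟩ := hR i hi j hj
    have hxpos : 0 < x := by omega
    have hxQ : (0 : ℚ) < x := by exact_mod_cast hxpos
    have hci := hcQ i hi
    have hcj := hcQ j (by omega)
    have hrel : (c i : ℚ) * x = c j * (x + 1) := by
      have : (c i : ℤ) * x = c j * (x + 1) := by linarith
      exact_mod_cast this
    have e1 : (c i : ℚ) = ((x : ℚ) + 1) / x * c j := by
      field_simp
      linarith
    have e2 : (c j : ℚ) = (x : ℚ) / (x + 1) * c i := by
      field_simp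
      linarith
    refine ⟨x, hx0, hqx, hpx, ?_, ?_⟩
    · have hq0 : (0 : ℚ) < ((x : ℚ) + 1) / x := by positivity
      have h1 : T (c i) ⁻¹' A ∩ T (c j) ⁻¹' A =
          T (c j) ⁻¹' (A ∩ T (((x : ℚ) + 1) / x) ⁻¹' A) := by
        have : T (c i) = T (((x : ℚ) + 1) / x) ∘ T (c j) := by
          rw [← hTmul _ _ hq0 hcj, ← e1]
        rw [this, Set.preimage_comp, Set.preimage_inter, Set.inter_comm]
      simp only [h1] at hij
      rwa [(hTmp _ hcj).measure_preimage
        (hA.inter ((hTmp _ hq0).measurable hA)).nullMeasurableSet] at hij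
    · have hq0 : (0 : ℚ) < (x : ℚ) / (x + 1) := by positivity
      have h1 : T (c i) ⁻¹' A ∩ T (c j) ⁻¹' A =
          T (c i) ⁻¹' (A ∩ T ((x : ℚ) / (x + 1)) ⁻¹' A) := by
        have : T (c j) = T ((x : ℚ) / (x + 1)) ∘ T (c i) := by
          rw [← hTmul _ _ hq0 hci, ← e2]
        rw [this, Set.preimage_comp, Set.preimage_inter]
      simp only [h1] at hij
      rwa [(hTmp _ hci).measure_preimage
        (hA.inter ((hTmp _ hq0).measurable hA)).nullMeasurableSet] at hij
  have hgb : 0 < Int.gcd a b := Int.gcd_pos_of_ne_zero_left _ haZ.ne'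
  have hgd : 0 < Int.gcd a d := Int.gcd_pos_of_ne_zero_left _ haZ.ne'
  have hco : Nat.Coprime (Int.gcd a b) (Int.gcd a d) := by
    have h := hg (Nat.gcd (Int.gcd a b) (Int.gcd a d) : ℤ)
      ((Int.natCast_dvd_natCast.2 (Nat.gcd_dvd_left _ _)).trans (Int.gcd_dvd_left _ _))
      ((Int.natCast_dvd_natCast.2 (Nat.gcd_dvd_left _ _)).trans (Int.gcd_dvd_right _ _))
      ((Int.natCast_dvd_natCast.2 (Nat.gcd_dvd_right _ _)).trans (Int.gcd_dvd_right _ _))
    have := Int.isUnit_iff_natAbs_eq.1 h
    simpa using this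
  rcases lt_or_gt_of_ne hEq with hlt | hgt
  · -- b < d
    obtain ⟨x, hx0, hqx, hpx, -, hμ⟩ := key (Int.gcd a d) (Int.gcd a b) hgd hgb hco.symm
      (|b| + 1) (by have := abs_nonneg b; omega)
    have hg' : ∀ k : ℤ, k ∣ (a : ℤ) → k ∣ d → k ∣ b → IsUnit k := fun k h1 h2 h3 => hg k h1 h3 h2
    obtain ⟨n, hn, e1, e2⟩ := arith a d b ha hg' (by rwa [mul_comm]) hlt x (by omega) hpx hqx
    have hxpos : 0 < x := by have := abs_nonneg b; omega
    have hbd' : 0 < d - b := by omega
    refine ⟨n, hn, by rw [e1]; positivity, by rw [e2]; positivity, ?_⟩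
    have e3 : ((a : ℚ) * n + b) / ((a : ℚ) * n + d) = (x : ℚ) / (x + 1) := by
      have e1' : (a : ℚ) * n + b = (d - b) * x := by exact_mod_cast e1
      have e2' : (a : ℚ) * n + d = (d - b) * (x + 1) := by exact_mod_cast e2
      rw [e1', e2']
      have : ((d : ℚ) - b) ≠ 0 := by
        have : (0 : ℚ) < (d : ℚ) - b := by exact_mod_cast hbd'
        exact this.ne'
      rw [mul_div_mul_left _ _ this]
    rw [e3]; exact hμ
  · -- d < b
    obtain ⟨x, hx0, hqx, hpx, hμ, -⟩ := key (Int.gcd a b) (Int.gcd a d) hgb hgd hco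
      (|d| + 1) (by have := abs_nonneg d; omega)
    obtain ⟨n, hn, e1, e2⟩ := arith a b d ha hg hdvd hgt x (by omega) hpx hqx
    have hxpos : 0 < x := by have := abs_nonneg d; omega
    have hbd' : 0 < b - d := by omega
    refine ⟨n, hn, by rw [e2]; positivity, by rw [e1]; positivity, ?_⟩
    have e3 : ((a : ℚ) * n + b) / ((a : ℚ) * n + d) = ((x : ℚ) + 1) / x := by
      have e1' : (a : ℚ) * n + d = (b - d) * x := by exact_mod_cast e1
      have e2' : (a : ℚ) * n + b = (b - d) * (x + 1) := by exact_mod_cast e2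
      rw [e1', e2']
      have : ((b : ℚ) - d) ≠ 0 := by
        have : (0 : ℚ) < (b : ℚ) - d := by exact_mod_cast hbd'
        exact this.ne'
      rw [mul_div_mul_left _ _ this]
    rw [e3]; exact hμ

end Pool.Agent.S16915
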