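import Pool.Statements.S17043
-- import your own Pool.Agent.* helpers here
import Pool.Agent.U212.GGIrr
import Pool.Agent.U212.GGRat

set_option autoImplicit false
open Pool Pool.MP_590852_nt

namespace Pool.Agent.S17043

open Pool.Agent.U212.GG in
lemma main_aux (x : ℝ) (hx0 : 0 < x) (hx1 : x ≤ 1) :
    ∃ g₁ g₂ : ℝ, g₁ ∈ Set.Ioo (0 : ℝ) 1 ∧ g₂ ∈ Set.Ioo (0 : ℝ) 1 ∧ Good g₁ ∧ Good g₂ ∧
      x = g₁ + g₂ := by
  by_cases hirr : Irrational x
  · have hne : x ≠ 1 := by
      intro h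
      rw [h] at hirr
      exact hirr ⟨1, by simp⟩
    exact irr_case hx0 (lt_of_le_of_ne hx1 hne) hirr
  · unfold Irrational at hirr
    push Not at hirr
    obtain ⟨r, hr⟩ := hirr
    have hr0 : 0 < r := by
      have : (0 : ℝ) < (r : ℝ) := by rw [hr]; exact hx0
      exact_mod_cast this
    have hr1 : r ≤ 1 := by
      have : (r : ℝ) ≤ 1 := by rw [hr]; exact hx1
      exact_mod_cast this
    have hnum : (r.num.toNat : ℤ) = r.num := Int.toNat_of_nonneg (Rat.num_nonneg.mpr hr0.le)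
    have hnpos : 0 < r.num := Rat.num_pos.mpr hr0
    have h2 : ((r.num.toNat : ℕ) : ℝ) = (r.num : ℝ) := by exact_mod_cast hnum
    have hle : r.num.toNat ≤ r.den := by
      have : r.num ≤ r.den := Rat.num_le_denom_iff.mpr hr1
      omega
    have hcop : Nat.Coprime r.num.toNat r.den := by
      have := r.reduced
      have h3 : r.num.natAbs = r.num.toNat := by omega
      rwa [h3] at this
    obtain ⟨g₁, g₂, h1, h2', h3, h4, h5⟩ := rat_case r.num.toNat r.den (by omega) hle hcop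
    refine ⟨g₁, g₂, h1, h2', h3, h4, ?_⟩
    rw [← h5, ← hr, h2]
    exact_mod_cast (Rat.cast_def r : (r : ℝ) = _)

/-- Every real x with 0 < x ≤ 1 equals g₁ + g₂, where g₁ and g₂ lie in (0,1) and the continued fraction partial quotients of each (computed via the Gauss map) tend to infinity. -/
theorem result :
    ∀ x : ℝ, 0 < x → x ≤ 1 →
      ∃ g₁ g₂ : ℝ,
        g₁ ∈ Set.Ioo (0 : ℝ) 1 ∧ g₂ ∈ Set.Ioo (0 : ℝ) 1 ∧
        Filter.Tendsto (fun n : ℕ => ⌊1 / ((fun y : ℝ => Int.fract (1 / y))^[n] g₁)⌋)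
          Filter.atTop Filter.atTop ∧
        Filter.Tendsto (fun n : ℕ => ⌊1 / ((fun y : ℝ => Int.fract (1 / y))^[n] g₂)⌋)
          Filter.atTop Filter.atTop ∧
        x = g₁ + g₂ := by
  intro x hx0 hx1
  obtain ⟨g₁, g₂, h1, h2, h3, h4, h5⟩ := main_aux x hx0 hx1
  exact ⟨g₁, g₂, h1, h2, h3, h4, h5⟩

end Pool.Agent.S17043
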