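import Pool.Statements.S17091
import Pool.Agent.U851.CM.Inert11
-- import your own Pool.Agent.* helpers here

set_option autoImplicit false
open Pool Pool.MP_5bfa61_nt

namespace Pool.Agent.S17091

open Pool.Agent.U851.CM in
theorem sm8 (p : ℕ) : Sm p 8 = ∑ k ∈ Finset.range p,
    ((Nat.choose (2 * k) k : ℚ) ^ 2 * (Nat.choose (3 * k) k : ℚ)) / (8 : ℚ) ^ k := by
  unfold Sm
  norm_num

open Pool.Agent.U851.CM in
theorem big (p : ℕ) [hp : Fact p.Prime] (hp5 : 5 ≤ p) :
      ((legendreSym p (-2) = 1 →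
          ∀ x y : ℤ, (p : ℤ) = x ^ 2 + 2 * y ^ 2 →
            (p : ℤ) ^ 2 ∣
              ((∑ k ∈ Finset.range p,
                  ((Nat.choose (2 * k) k : ℚ) ^ 2 * (Nat.choose (3 * k) k : ℚ)) / (8 : ℚ) ^ k)
                - (((4 * x ^ 2 - 2 * (p : ℤ)) : ℤ) : ℚ)).num) ∧
       (legendreSym p (-2) = -1 →
            (p : ℤ) ^ 2 ∣
              (∑ k ∈ Finset.range p,
                  ((Nat.choose (2 * k) k : ℚ) ^ 2 * (Nat.choose (3 * k) k : ℚ)) / (8 : ℚ) ^ k).num)) := by
  rw [← sm8]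
  constructor
  · intro _ x y hxy
    have h := split8 hp5 x y hxy
    have e : (2 * x) ^ 2 - 2 * (p : ℤ) = 4 * x ^ 2 - 2 * (p : ℤ) := by ring
    rw [e] at h
    exact dvd_num_of_norm h
  · intro hl
    apply dvd_num_of_norm
    apply inert8 hp5
    have h := legendreSym.eq_pow p (-2)
    rw [hl] at h
    push_cast at h
    exact h.symm

theorem sq3 : IsSquare (((-2 : ℤ)) : ZMod 3) := ⟨1, by decide⟩

/-- For every odd prime p, with S = sum over k<p of C(2k,k)^2 C(3k,k)/8^k: if (-2/p)=1 and p=x^2+2y^2, p^2 divides the numerator of S-(4x^2-2p); if (-2/p)=-1, p^2 divides the numerator of S. -/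
theorem result :
    ∀ (p : ℕ) [Fact p.Prime], p ≠ 2 →
      ((legendreSym p (-2) = 1 →
          ∀ x y : ℤ, (p : ℤ) = x ^ 2 + 2 * y ^ 2 →
            (p : ℤ) ^ 2 ∣
              ((∑ k ∈ Finset.range p,
                  ((Nat.choose (2 * k) k : ℚ) ^ 2 * (Nat.choose (3 * k) k : ℚ)) / (8 : ℚ) ^ k)
                - (((4 * x ^ 2 - 2 * (p : ℤ)) : ℤ) : ℚ)).num) ∧
       (legendreSym p (-2) = -1 →
            (p : ℤ) ^ 2 ∣
              (∑ k ∈ Finset.range p,
                  ((Nat.choose (2 * k) k : ℚ) ^ 2 * (Nat.choose (3 * k) k : ℚ)) / (8 : ℚ) ^ k).num)) := by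
  intro p hp hp2
  have hp1 := hp.out.two_le
  rcases Nat.lt_or_ge p 5 with h5 | h5
  · have h34 : p = 3 := by
      rcases (show p = 3 ∨ p = 4 by omega) with h | h
      · exact h
      · rw [h] at hp
        exact absurd hp.out (by norm_num)
    subst h34
    constructor
    · intro _ x y hxy
      push_cast at hxy
      have hy1 : y ≤ 1 := by nlinarith [sq_nonneg x]
      have hy2 : -1 ≤ y := by nlinarith [sq_nonneg x]
      have hx : x ^ 2 = 1 := by
        have hx1 : x ≤ 1 := by nlinarith [sq_nonneg y]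
        have hx2 : -1 ≤ x := by nlinarith [sq_nonneg y]
        interval_cases y <;> interval_cases x <;> omega
      rw [hx]
      have e : ((∑ k ∈ Finset.range 3,
          ((Nat.choose (2 * k) k : ℚ) ^ 2 * (Nat.choose (3 * k) k : ℚ)) / (8 : ℚ) ^ k)
            - (((4 * 1 - 2 * ((3 : ℕ) : ℤ)) : ℤ) : ℚ)) = 207 / 16 := by
        simp only [Finset.sum_range_succ, Finset.sum_range_zero]
        norm_num [Nat.choose]
      rw [e]
      have : ((207 / 16 : ℚ)).num = 207 := by norm_num
      rw [this]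
      norm_num
    · intro h
      exfalso
      rw [legendreSym.eq_neg_one_iff] at h
      exact h sq3
  · exact big p h5

end Pool.Agent.S17091
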