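import Pool.Statements.S18419
-- import your own Pool.Agent.* helpers here

set_option autoImplicit false
open Pool Pool.MP_c520af_nt

namespace Pool.Agent.S18419

/-- For every number field K there are maps (x,y) to (y, F_d(y) − δ_d x), with deg F_d = d and δ_d ≠ 0, for each d ≥ 2, whose number of K-rational periodic points eventually exceeds C·d for every constant C. -/
theorem result :
    ∀ (K : Type) [Field K] [NumberField K],
      ∃ (F : ℕ → Polynomial K) (δ : ℕ → K),
        (∀ d : ℕ, 2 ≤ d → (F d).natDegree = d ∧ δ d ≠ 0) ∧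
        ∀ C : ℕ, ∃ D : ℕ, ∀ d : ℕ, 2 ≤ d → D ≤ d →
          (((C * d : ℕ) : ℕ∞) <
            {P : K × K | ∃ n : ℕ, 1 ≤ n ∧
              (fun p : K × K => (p.2, (F d).eval p.2 - δ d * p.1))^[n] P = P}.encard) := by
  classical
  intro K _ _
  refine ⟨fun d => (∏ i ∈ Finset.range d, (Polynomial.X - Polynomial.C (i : K))) +
    Polynomial.C ((d : K) - 1), fun _ => 1, ?_, ?_⟩
  · intro d _
    refine ⟨?_, one_ne_zero⟩
    rw [Polynomial.natDegree_add_C, Polynomial.natDegree_finsetProd_X_sub_C_eq_card]
    exact Finset.card_range d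
  · intro C
    refine ⟨C + 1, fun d hd hCd => ?_⟩
    -- the polynomial is constant on `0, …, d - 1`
    have hev : ∀ j : ℕ, j < d → Polynomial.eval (j : K)
        ((∏ i ∈ Finset.range d, (Polynomial.X - Polynomial.C (i : K))) +
          Polynomial.C ((d : K) - 1)) = (d : K) - 1 := by
      intro j hj
      rw [Polynomial.eval_add, Polynomial.eval_C, Polynomial.eval_prod,
        Finset.prod_eq_zero (Finset.mem_range.2 hj) (by simp), zero_add]
    have hcast : ∀ j : ℕ, j < d → (d : K) - 1 - (j : K) = ((d - 1 - j : ℕ) : K) := by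
      intro j hj
      rw [Nat.cast_sub (by omega), Nat.cast_sub (by omega), Nat.cast_one]
    -- the `d ^ 2` points
    let S : Finset (K × K) := (Finset.range d ×ˢ Finset.range d).image
      (fun p : ℕ × ℕ => ((p.1 : K), (p.2 : K)))
    have hS : S.card = d * d := by
      rw [Finset.card_image_of_injective, Finset.card_product, Finset.card_range]
      rintro ⟨a, b⟩ ⟨a', b'⟩ h
      simp only [Prod.mk.injEq, Nat.cast_inj] at h
      exact Prod.ext h.1 h.2
    have hsub : (S : Set (K × K)) ⊆ {P : K × K | ∃ n : ℕ, 1 ≤ n ∧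
        (fun p : K × K => (p.2, Polynomial.eval p.2
          ((∏ i ∈ Finset.range d, (Polynomial.X - Polynomial.C (i : K))) +
          Polynomial.C ((d : K) - 1)) - 1 * p.1))^[n] P = P} := by
      intro P hP
      rw [Finset.mem_coe] at hP
      obtain ⟨⟨i, j⟩, hij, rfl⟩ := Finset.mem_image.1 hP
      rw [Finset.mem_product, Finset.mem_range, Finset.mem_range] at hij
      obtain ⟨hi, hj⟩ := hij
      simp only at hi hj
      refine ⟨4, by norm_num, ?_⟩
      have h1 : ∀ a b : ℕ, a < d → b < d → (fun p : K × K => (p.2, Polynomial.eval p.2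
          ((∏ i ∈ Finset.range d, (Polynomial.X - Polynomial.C (i : K))) +
          Polynomial.C ((d : K) - 1)) - 1 * p.1)) ((a : K), (b : K)) =
          ((b : K), ((d - 1 - a : ℕ) : K)) := by
        intro a b ha hb
        simp only
        rw [hev b hb, one_mul, hcast a ha]
      generalize (fun p : K × K => (p.2, Polynomial.eval p.2
          ((∏ i ∈ Finset.range d, (Polynomial.X - Polynomial.C (i : K))) +
          Polynomial.C ((d : K) - 1)) - 1 * p.1)) = f at h1 ⊢
      rw [Function.iterate_succ_apply, Function.iterate_succ_apply, Function.iterate_succ_apply,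
        Function.iterate_succ_apply, Function.iterate_zero_apply, h1 i j hi hj, h1 j (d - 1 - i) hj (by omega), h1 (d - 1 - i) (d - 1 - j) (by omega)
        (by omega), h1 (d - 1 - j) (d - 1 - (d - 1 - i)) (by omega) (by omega)]
      have e1 : d - 1 - (d - 1 - i) = i := by omega
      have e2 : d - 1 - (d - 1 - j) = j := by omega
      rw [e1, e2]
    calc (((C * d : ℕ) : ℕ∞)) < ((d * d : ℕ) : ℕ∞) := by
          exact_mod_cast Nat.mul_lt_mul_of_pos_right (by omega) (by omega)
      _ = (S : Set (K × K)).encard := by rw [Set.encard_coe_eq_coe_finsetCard, hS]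
      _ ≤ _ := Set.encard_le_encard hsub

end Pool.Agent.S18419
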