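import Pool.Statements.S18649
import Pool.Agent.U851.CM.Inert11
-- import your own Pool.Agent.* helpers here

set_option autoImplicit false
open Pool Pool.MP_d8ed36_nt

namespace Pool.Agent.S18649

open Pool.Agent.U851.CM

theorem sm64 (p : ℕ) : Sm p 64 = ∑ k ∈ Finset.range p,
    ((Nat.choose (2 * k) k : ℚ) ^ 2 * (Nat.choose (3 * k) k : ℚ)) / (64 : ℚ) ^ k := by
  unfold Sm
  norm_num

/-- quadratic reciprocity for `-11` -/
theorem euler11 (p : ℕ) [hp : Fact p.Prime] (hp2 : p ≠ 2) (h : jacobiSym (p : ℤ) 11 = -1) :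
    (-11 : ZMod p) ^ (p / 2) = -1 := by
  have : Fact (Nat.Prime 11) := ⟨by norm_num⟩
  have h1 : legendreSym 11 (p : ℤ) = -1 := by
    rw [jacobiSym.legendreSym.to_jacobiSym]
    exact h
  have h2 := legendreSym.quadratic_reciprocity' (p := p) (q := 11) hp2 (by norm_num)
  rw [h1] at h2
  have h3 := legendreSym.at_neg_one (p := p) hp2
  have hodd : p % 2 = 1 := by
    rcases hp.out.eq_two_or_odd with h | h
    · exact absurd h hp2
    · exact h
  have h4 := ZMod.χ₄_eq_neg_one_pow hodd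
  have h5 : legendreSym p (-11) = -1 := by
    have : (-11 : ℤ) = (-1) * ((11 : ℕ) : ℤ) := by norm_num
    rw [this, legendreSym.mul, h3, h4]
    have e : (-1 : ℤ) ^ (p / 2 * (11 / 2)) = (-1) ^ (p / 2) := by
      rw [show (11 / 2 : ℕ) = 5 by norm_num, mul_comm, pow_mul]
      norm_num
    rw [e] at h2
    exact h2.symm
  have h6 := legendreSym.eq_pow p (-11)
  rw [h5] at h6
  push_cast at h6
  exact h6.symm

theorem big (p : ℕ) (hp : p.Prime) (hp5 : 5 ≤ p) (hp11 : p ≠ 11) :
      (jacobiSym (p : ℤ) 11 = 1 →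
        ∀ x y : ℤ, 4 * (p : ℤ) = x ^ 2 + 11 * y ^ 2 →
          ∃ r : ℚ,
            (∑ k ∈ Finset.range p,
                ((Nat.choose (2 * k) k : ℚ) ^ 2 * (Nat.choose (3 * k) k : ℚ)) / (64 : ℚ) ^ k)
              - ((x : ℚ) ^ 2 - 2 * (p : ℚ)) = (p : ℚ) ^ 2 * r
            ∧ Nat.Coprime r.den p) ∧
      (jacobiSym (p : ℤ) 11 = -1 →
          ∃ r : ℚ,
            (∑ k ∈ Finset.range p,
                ((Nat.choose (2 * k) k : ℚ) ^ 2 * (Nat.choose (3 * k) k : ℚ)) / (64 : ℚ) ^ k)
              = (p : ℚ) ^ 2 * r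
            ∧ Nat.Coprime r.den p) := by
  have : Fact p.Prime := ⟨hp⟩
  rw [← sm64]
  constructor
  · intro _ x y hxy
    obtain ⟨r, hr⟩ : ∃ r : ℤ, x = 2 * r + y := by
      have h2 : (x - y) % 2 = 0 := by
        have h4 : (x ^ 2 + 11 * y ^ 2) % 2 = 0 := by rw [← hxy]; omega
        rcases Int.emod_two_eq_zero_or_one x with hx | hx <;>
          rcases Int.emod_two_eq_zero_or_one y with hy | hy
        · omega
        · exfalso
          have : (x ^ 2 + 11 * y ^ 2) % 2 = 1 := by
            obtain ⟨a, ha⟩ : ∃ a, x = 2 * a := ⟨x / 2, by omega⟩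
            obtain ⟨b, hb⟩ : ∃ b, y = 2 * b + 1 := ⟨y / 2, by omega⟩
            have : x ^ 2 + 11 * y ^ 2 = 2 * (2 * a ^ 2 + 22 * b ^ 2 + 22 * b + 5) + 1 := by
              rw [ha, hb]; ring
            rw [this]; omega
          omega
        · exfalso
          have : (x ^ 2 + 11 * y ^ 2) % 2 = 1 := by
            obtain ⟨a, ha⟩ : ∃ a, x = 2 * a + 1 := ⟨x / 2, by omega⟩
            obtain ⟨b, hb⟩ : ∃ b, y = 2 * b := ⟨y / 2, by omega⟩
            have : x ^ 2 + 11 * y ^ 2 = 2 * (2 * a ^ 2 + 2 * a + 22 * b ^ 2) + 1 := by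
              rw [ha, hb]; ring
            rw [this]; omega
          omega
        · omega
      exact ⟨(x - y) / 2, by omega⟩
    have hrs : (p : ℤ) = r ^ 2 + r * y + 3 * y ^ 2 := by
      have : 4 * (p : ℤ) = 4 * (r ^ 2 + r * y + 3 * y ^ 2) := by
        rw [hxy, hr]; ring
      linarith
    have h := split11 hp5 hp11 r y hrs
    rw [← hr] at h
    obtain ⟨q, hq, hd⟩ := exists_of_norm h
    refine ⟨q, ?_, hd⟩
    rw [← hq]
    push_cast
    ring
  · intro hl
    exact exists_of_norm (inert11 hp5 hp11 (euler11 p (by omega) hl))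

/-- For every odd prime p≠11, the sum over k<p of C(2k,k)^2 C(3k,k)/64^k is congruent mod p^2 (p-integral sense) to x^2−2p when (p/11)=1 and 4p=x^2+11y^2, and to 0 when (p/11)=−1. -/
theorem result :
    ∀ p : ℕ, p.Prime → p ≠ 2 → p ≠ 11 →
      (jacobiSym (p : ℤ) 11 = 1 →
        ∀ x y : ℤ, 4 * (p : ℤ) = x ^ 2 + 11 * y ^ 2 →
          ∃ r : ℚ,
            (∑ k ∈ Finset.range p,
                ((Nat.choose (2 * k) k : ℚ) ^ 2 * (Nat.choose (3 * k) k : ℚ)) / (64 : ℚ) ^ k)
              - ((x : ℚ) ^ 2 - 2 * (p : ℚ)) = (p : ℚ) ^ 2 * r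
            ∧ Nat.Coprime r.den p) ∧
      (jacobiSym (p : ℤ) 11 = -1 →
          ∃ r : ℚ,
            (∑ k ∈ Finset.range p,
                ((Nat.choose (2 * k) k : ℚ) ^ 2 * (Nat.choose (3 * k) k : ℚ)) / (64 : ℚ) ^ k)
              = (p : ℚ) ^ 2 * r
            ∧ Nat.Coprime r.den p) := by
  intro p hp hp2 hp11
  have hp1 := hp.two_le
  rcases Nat.lt_or_ge p 5 with h5 | h5
  · have h34 : p = 3 := by
      rcases (show p = 3 ∨ p = 4 by omega) with h | h
      · exact h
      · rw [h] at hp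
        exact absurd hp (by norm_num)
    subst h34
    constructor
    · intro _ x y hxy
      push_cast at hxy
      have hy1 : y ≤ 1 := by nlinarith [sq_nonneg x]
      have hy2 : -1 ≤ y := by nlinarith [sq_nonneg x]
      have hx1 : x ≤ 3 := by nlinarith [sq_nonneg y]
      have hx2 : -3 ≤ x := by nlinarith [sq_nonneg y]
      have hx : x ^ 2 = 1 := by
        interval_cases y <;> interval_cases x <;> omega
      have hxq : (x : ℚ) ^ 2 = 1 := by exact_mod_cast hx
      refine ⟨719 / 1024, ?_, ?_⟩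
      · rw [hxq]
        simp only [Finset.sum_range_succ, Finset.sum_range_zero]
        norm_num [Nat.choose]
      · have : ((719 / 1024 : ℚ)).den = 1024 := by norm_num
        rw [this]
        norm_num
    · intro h
      exfalso
      have : jacobiSym ((3 : ℕ) : ℤ) 11 = 1 := by norm_num
      rw [this] at h
      norm_num at h
  · exact big p hp h5 hp11

end Pool.Agent.S18649
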