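import Pool.Statements.S18875
import Pool.Agent.U578.Suff
import Pool.Agent.U578.Nec
import Pool.Agent.U578.Nonarch

set_option autoImplicit false
open scoped NumberField
open Pool Pool.MP_ed3ef1_nt

namespace Pool.Agent.S18875

/-- For every number field K and tuple a in O_K^n: some nonzero K-conjugates α_i (repeats allowed) satisfy Σ a_i α_i = 0 iff the strong archimedean and nonarchimedean absolute value criteria hold, or Σ a_i ω_i = 0 for some roots of unity ω_i. -/
theorem result :
  ∀ (K : Type) [Field K] [NumberField K] (n : ℕ) (a : Fin n → 𝓞 K),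
    (∃ α : Fin n → AlgebraicClosure K,
        (∀ i, α i ≠ 0) ∧ (∀ i j, minpoly K (α i) = minpoly K (α j)) ∧
        ∑ i, algebraMap K (AlgebraicClosure K) (a i : K) * α i = 0) ↔
    (((∀ v : NumberField.InfinitePlace K, ∀ i : Fin n,
          v (a i : K) < ∑ j ∈ Finset.univ.erase i, v (a j : K)) ∧
      (∀ v : IsDedekindDomain.HeightOneSpectrum (𝓞 K), ∀ i : Fin n,
          ∃ j : Fin n, j ≠ i ∧ v.valuation K (a i : K) ≤ v.valuation K (a j : K))) ∨
     ∃ ω : Fin n → AlgebraicClosure K,
        (∀ i, ∃ m : ℕ, 0 < m ∧ ω i ^ m = 1) ∧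
        ∑ i, algebraMap K (AlgebraicClosure K) (a i : K) * ω i = 0) := by
  intro K _ _ n a
  -- strict archimedean inequalities at one place give a second index with nonzero entry
  have hex : (∀ v : NumberField.InfinitePlace K, ∀ i : Fin n,
      v (a i : K) < ∑ j ∈ Finset.univ.erase i, v (a j : K)) →
      ∀ i : Fin n, ∃ j, j ≠ i ∧ a j ≠ 0 := by
    intro hA i
    obtain ⟨v⟩ : Nonempty (NumberField.InfinitePlace K) := inferInstance
    by_contra hcon
    push Not at hcon
    have h1 := hA v i
    have h2 : ∑ j ∈ Finset.univ.erase i, v (a j : K) = 0 := by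
      apply Finset.sum_eq_zero
      intro j hj
      rw [hcon j (Finset.mem_erase.mp hj).1]
      exact map_zero v
    rw [h2] at h1
    exact absurd h1 (not_lt.mpr (apply_nonneg v _))
  constructor
  · rintro ⟨α, h0, hm, hsum⟩
    by_cases hA : ∀ v : NumberField.InfinitePlace K, ∀ i : Fin n,
        v (a i : K) < ∑ j ∈ Finset.univ.erase i, v (a j : K)
    · left
      refine ⟨hA, fun v i => ?_⟩
      obtain ⟨j, hj, _⟩ := hex hA i
      exact U578.Smyth.nonarch_nec K a α h0 hm hsum v i ⟨j, hj⟩
    · right
      push Not at hA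
      obtain ⟨v, i, hv⟩ := hA
      exact U578.Smyth.arch_case K a α h0 hm hsum v i hv
  · rintro (⟨hA, hN⟩ | ⟨ω, hω, hsum⟩)
    · rcases Nat.eq_zero_or_pos n with hn | hn
      · subst hn
        exact ⟨fun i => i.elim0, fun i => i.elim0, fun i => i.elim0, by simp⟩
      · exact U578.Smyth.smyth_suff K hn a hA
          (fun i => U578.Smyth.local_to_global K a i (hex hA i) (fun v => hN v i))
    · exact U578.Smyth.of_roots_of_unity K a ω hω hsum

end Pool.Agent.S18875
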