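import Pool.Statements.S19141
import Pool.Agent.U204.SACount

set_option autoImplicit false
open MeasureTheory ProbabilityTheory
open Pool Pool.MP_0c40c8_pr

namespace Pool.Agent.S19141

/-- For a unimodular Galton–Watson tree whose degree law has finite support and no mass at 0 or 1, the compactly supported measure whose k-th moment is the expected number of length-k closed walks at the root has finitely many atoms. -/
theorem result :
  ∀ (P : PMF ℕ), P.support.Finite → P 0 = 0 → P 1 = 0 →
  ∀ (Ω : Type) [MeasureSpace Ω] [IsProbabilityMeasure (volume : Measure Ω)]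
    (N : List ℕ → Ω → ℕ),
    (∀ w, Measurable (N w)) → iIndepFun N (volume : Measure Ω) →
    (∀ k : ℕ, (volume : Measure Ω) {ω | N [] ω = k} = P k) →
    (∀ w : List ℕ, w ≠ [] → ∀ k : ℕ,
      (volume : Measure Ω) {ω | N w ω = k}
        = ((k : ENNReal) + 1) * P (k + 1) / ∑' j : ℕ, (j : ENNReal) * P j) →
    ∀ ν : Measure ℝ, IsProbabilityMeasure ν →
      (∃ R : ℝ, ν (Set.Icc (-R) R)ᶜ = 0) →
      (∀ k : ℕ, ∫ x, x ^ k ∂ν =
        ∫ ω, ((Set.ncard {f : Fin (k + 1) → List ℕ |
            f 0 = [] ∧ f (Fin.last k) = [] ∧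
            (∀ i, ∀ j < (f i).length, (f i).getD j 0 < N ((f i).take j) ω) ∧
            ∀ i : Fin k, (∃ a : ℕ, f i.succ = f i.castSucc ++ [a]) ∨
                         (∃ a : ℕ, f i.castSucc = f i.succ ++ [a])} : ℕ) : ℝ)
          ∂(volume : Measure Ω)) →
      {x : ℝ | ν {x} ≠ 0}.Finite := by
  intro P hPfin hP0 hP1 Ω _ _ N hN hind hroot hoff ν hν hsupp hmom
  have := hν
  obtain ⟨R0, hR0⟩ := hsupp
  have hPsing : ∀ k : ℕ, (volume : Measure Ω).map (N []) {k} = P k := by
    intro k
    rw [Measure.map_apply (hN []) (MeasurableSet.singleton k)]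
    exact hroot k
  set m : ENNReal := ∑' j : ℕ, (j : ENNReal) * P j with hm
  set p : Measure ℕ := (volume : Measure Ω).map (N []) with hp
  set q : Measure ℕ := (volume : Measure Ω).map (N [0]) with hq
  have hpp : IsProbabilityMeasure p := Measure.isProbabilityMeasure_map (hN _).aemeasurable
  have hqp : IsProbabilityMeasure q := Measure.isProbabilityMeasure_map (hN _).aemeasurable
  have hmap : ∀ w : List ℕ, w ≠ [] → (volume : Measure Ω).map (N w) = q := by
    intro w hw
    apply Measure.ext_of_singleton
    intro k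
    rw [hq, Measure.map_apply (hN w) (MeasurableSet.singleton k),
      Measure.map_apply (hN [0]) (MeasurableSet.singleton k)]
    have h1 := hoff w hw k
    have h2 := hoff [0] (by simp) k
    change (volume : Measure Ω) {ω | N w ω = k} = (volume : Measure Ω) {ω | N [0] ω = k}
    rw [h1, h2]
  have hqs : ∀ k : ℕ, q {k} = ((k : ENNReal) + 1) * P (k + 1) / m := by
    intro k
    rw [hq, Measure.map_apply (hN [0]) (MeasurableSet.singleton k)]
    exact hoff [0] (by simp) k
  have hmt : m ≠ ⊤ := by
    rw [hm, tsum_eq_sum (s := hPfin.toFinset)]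
    · apply ENNReal.sum_ne_top.2
      intro j _
      exact ENNReal.mul_ne_top (ENNReal.natCast_ne_top _) (P.apply_ne_top j)
    · intro j hj
      have : P j = 0 := by
        by_contra hne
        exact hj (hPfin.mem_toFinset.2 ((P.mem_support_iff j).2 hne))
      rw [this, mul_zero]
  have hm0 : m ≠ 0 := by
    intro h
    rw [hm, ENNReal.tsum_eq_zero] at h
    have h1 : ∀ j, P j = 0 := by
      intro j
      rcases Nat.eq_zero_or_pos j with hj | hj
      · rw [hj]; exact hP0
      · rcases mul_eq_zero.1 (h j) with h2 | h2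
        · exact absurd h2 (by exact_mod_cast hj.ne')
        · exact h2
    have h2 := P.tsum_coe
    simp [h1] at h2
  obtain ⟨D, hD⟩ := hPfin.bddAbove
  have hDk : ∀ k, P k ≠ 0 → k ≤ D := fun k hk => hD ((P.mem_support_iff k).2 hk)
  have hlaw : Pool.Agent.U204.SA.Law p q m D := by
    refine ⟨hpp, hqp, hmt, ?_, ?_, ?_⟩
    · intro k
      rw [hqs, hPsing, ENNReal.mul_div_cancel hm0 hmt]
    · rw [ae_iff_of_countable]
      intro k hk
      rw [hPsing] at hk
      refine ⟨?_, hDk k hk⟩
      by_contra hcon
      push Not at hcon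
      interval_cases k
      · exact hk hP0
      · exact hk hP1
    · rw [ae_iff_of_countable]
      intro k hk
      rw [hqs] at hk
      have h1 : P (k + 1) ≠ 0 := by
        intro h
        apply hk
        rw [h, mul_zero, ENNReal.zero_div]
      refine ⟨?_, hDk _ h1⟩
      by_contra hcon
      have : k = 0 := by omega
      subst this
      exact h1 hP1
  have hlawT : (volume : Measure Ω).map (fun ω w => N w ω) = Pool.Agent.U204.SA.TM p q := by
    rw [hind.map_fun_eq_infinitePi_map hN]
    unfold Pool.Agent.U204.SA.TM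
    congr 1
    ext w
    by_cases hw : w = []
    · rw [if_pos hw, hw]
    · rw [if_neg hw, hmap w hw]
  have hmeasN : Measurable (fun ω w => N w ω) := measurable_pi_iff.2 hN
  refine Pool.Agent.U204.SA.finite_atoms hlaw hR0 ?_
  intro k
  rw [hmom k, ← hlawT, integral_map hmeasN.aemeasurable
    (Pool.Agent.U204.SA.MG_tree.pow _ k []).aestronglyMeasurable]
  congr 1
  ext ω
  exact Pool.Agent.U204.SA.walk_count (fun w => N w ω) k

end Pool.Agent.S19141
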