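import Pool.Statements.S19226
import Pool.Agent.U147.Sat.Final

set_option autoImplicit false
open Pool Pool.MP_284d10_pr

namespace Pool.Agent.S19226

/-- The negation of the preceding statement: For each k ≥ 2, under a uniformly random ordering of all k-clauses on n variables, the probability that some non-empty uniquely satisfiable subformula appears by the time the formula first becomes unsatisfiable tends to 1 as n grows. -/
theorem result :
    ¬ (∀ k : ℕ, 2 ≤ k →
    Filter.Tendsto
      (fun n : ℕ =>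
        (Nat.card {e : Fin (Nat.card {c : Finset (Fin n × Bool) // c.card = k ∧ (c.image Prod.fst).card = k}) ≃
                      {c : Finset (Fin n × Bool) // c.card = k ∧ (c.image Prod.fst).card = k} //
            ∃ m : ℕ,
              (∀ j : ℕ, j < m → ∃ a : Fin n → Bool,
                  ∀ c : {c : Finset (Fin n × Bool) // c.card = k ∧ (c.image Prod.fst).card = k},
                    ((e.symm c : Fin _) : ℕ) < j → ∃ l ∈ c.val, a l.1 = l.2) ∧
              ∃ H : Finset {c : Finset (Fin n × Bool) // c.card = k ∧ (c.image Prod.fst).card = k},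
                H.Nonempty ∧
                (∀ c ∈ H, ((e.symm c : Fin _) : ℕ) < m) ∧
                ∃ a : Fin n → Bool,
                  (∀ c ∈ H, ∃ l ∈ c.val, a l.1 = l.2) ∧
                  ∀ b : Fin n → Bool, (∀ c ∈ H, ∃ l ∈ c.val, b l.1 = l.2) →
                    ∀ i : Fin n, (∃ c ∈ H, ∃ l ∈ c.val, l.1 = i) → b i = a i} : ℝ) /
        (Nat.card (Fin (Nat.card {c : Finset (Fin n × Bool) // c.card = k ∧ (c.image Prod.fst).card = k}) ≃
                      {c : Finset (Fin n × Bool) // c.card = k ∧ (c.image Prod.fst).card = k}) : ℝ))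
      Filter.atTop (nhds 1)) := by
  intro h
  have h2 := h 2 le_rfl
  have h3 := h2.eventually (lt_mem_nhds (show (1 : ℝ) - 4 / 100000000 < 1 by norm_num))
  rw [Filter.eventually_atTop] at h3
  obtain ⟨M, hM⟩ := h3
  obtain ⟨K, hK1, hK2⟩ : ∃ K : ℕ, M ≤ K ∧ 2000000000000 ≤ K :=
    ⟨max M 2000000000000, le_max_left _ _, le_max_right _ _⟩
  have hMK : M ≤ 1000 * K ^ 3 := by
    have : K ≤ K ^ 3 := Nat.le_self_pow (by norm_num) K
    omega
  have h4 := hM (1000 * K ^ 3) hMK
  have h5 := Pool.Agent.U147.Sat.ev_bound (K := K) (n := 1000 * K ^ 3)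
    (N := Nat.card (Pool.Agent.U147.Sat.Cl (1000 * K ^ 3))) (by omega) rfl
    Nat.card_eq_fintype_card.symm
  have hK0 : (2000000000000 : ℝ) ≤ K := by exact_mod_cast hK2
  have h6 : (60005 : ℝ) / K ≤ 4 / 100000000 := by
    rw [div_le_div_iff₀ (by linarith) (by norm_num)]
    linarith
  have h7 : (0 : ℝ) < Nat.card (Fin (Nat.card (Pool.Agent.U147.Sat.Cl (1000 * K ^ 3))) ≃
      Pool.Agent.U147.Sat.Cl (1000 * K ^ 3)) := by
    have : Nonempty (Fin (Nat.card (Pool.Agent.U147.Sat.Cl (1000 * K ^ 3))) ≃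
      Pool.Agent.U147.Sat.Cl (1000 * K ^ 3)) := ⟨(Finite.equivFin _).symm⟩
    exact_mod_cast Nat.card_pos
  have h8 : (Nat.card {e : Fin (Nat.card (Pool.Agent.U147.Sat.Cl (1000 * K ^ 3))) ≃
      Pool.Agent.U147.Sat.Cl (1000 * K ^ 3) //
      Pool.Agent.U147.Sat.Ev (1000 * K ^ 3) _ e} : ℝ) /
      Nat.card (Fin (Nat.card (Pool.Agent.U147.Sat.Cl (1000 * K ^ 3))) ≃
      Pool.Agent.U147.Sat.Cl (1000 * K ^ 3)) ≤ 1 - 4 / 100000000 := by
    rw [div_le_iff₀ h7]
    refine h5.trans ?_
    apply mul_le_mul_of_nonneg_right _ h7.le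
    linarith
  exact absurd h4 (not_lt.2 h8)

end Pool.Agent.S19226
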