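import Pool.Statements.S19249
import Pool.Agent.U312.SV.Fin

set_option autoImplicit false
open MeasureTheory ProbabilityTheory
open Pool Pool.MP_30e781_pr

namespace Pool.Agent.S19249

/-- For every n, real n×n matrix Abar, σ>0, x>0: if G has iid standard Gaussian entries, the probability that the spectral norm of (Abar+σG)⁻¹ is at least x is at most √n/(xσ). -/
theorem result :
    ∀ (n : ℕ) (Abar : Matrix (Fin n) (Fin n) ℝ) (σ x : ℝ), 0 < σ → 0 < x →
      (Measure.pi (fun _ : Fin n => Measure.pi (fun _ : Fin n => gaussianReal 0 1)))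
        {G : Fin n → Fin n → ℝ |
          ∃ v : Fin n → ℝ, (∑ i, v i ^ 2 ≤ 1) ∧
            x ^ 2 ≤ ∑ i, (Matrix.mulVec (Abar + σ • Matrix.of G)⁻¹ v) i ^ 2}
        ≤ ENNReal.ofReal (Real.sqrt n / (x * σ)) := by
  intro n Abar σ x hσ hx
  set B : U312.SV.Sq n := fun i j => Abar i j / σ with hB
  have hxs : 0 < x * σ := mul_pos hx hσ
  set τ : ℝ := ((x * σ) ^ 2)⁻¹ with hτ
  have hτ0 : 0 < τ := by positivity
  have hmain := U312.SV.main B hτ0
  have hval : Real.sqrt (n * τ) = Real.sqrt n / (x * σ) := by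
    rw [hτ, Real.sqrt_mul (Nat.cast_nonneg n), Real.sqrt_inv, Real.sqrt_sq hxs.le,
      div_eq_mul_inv]
  rw [hval] at hmain
  refine (measure_mono ?_).trans hmain
  rintro G ⟨v, hv, hxv⟩
  have hA : Abar + σ • Matrix.of G = σ • Matrix.of (B + G) := by
    ext i j
    simp only [Matrix.add_apply, Matrix.smul_apply, Matrix.of_apply, Pi.add_apply, smul_eq_mul, hB]
    field_simp
  have hinv : (Abar + σ • Matrix.of G)⁻¹ = σ⁻¹ • (Matrix.of (B + G))⁻¹ := by
    rw [hA]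
    by_cases hdet : (Matrix.of (B + G)).det = 0
    · have h1 : (σ • Matrix.of (B + G)).det = 0 := by
        rw [Matrix.det_smul, hdet, mul_zero]
      rw [Matrix.inv_def, Matrix.inv_def, h1, hdet]
      simp
    · have hu : IsUnit (Matrix.of (B + G)).det := isUnit_iff_ne_zero.mpr hdet
      refine Matrix.inv_eq_right_inv ?_
      rw [Matrix.smul_mul, Matrix.mul_smul, smul_smul, mul_inv_cancel₀ hσ.ne', one_smul,
        Matrix.mul_nonsing_inv _ hu]
  have hv' : v ⬝ᵥ v ≤ 1 := by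
    have : v ⬝ᵥ v = ∑ i, v i ^ 2 := by simp only [dotProduct, sq]
    rw [this]
    exact hv
  refine U312.SV.bad_sub (B + G) hτ0 v hv' ?_
  have h2 : ∑ i, (Matrix.mulVec (Abar + σ • Matrix.of G)⁻¹ v) i ^ 2 =
      σ⁻¹ ^ 2 * (((Matrix.of (B + G))⁻¹.mulVec v) ⬝ᵥ ((Matrix.of (B + G))⁻¹.mulVec v)) := by
    rw [hinv]
    simp only [Matrix.smul_mulVec, Pi.smul_apply, smul_eq_mul, dotProduct, Finset.mul_sum]
    exact Finset.sum_congr rfl fun i _ => by ring
  rw [h2] at hxv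
  set q := ((Matrix.of (B + G))⁻¹.mulVec v) ⬝ᵥ ((Matrix.of (B + G))⁻¹.mulVec v) with hq
  have h3 : (x * σ) ^ 2 ≤ q := by
    have h4 : σ ^ 2 * x ^ 2 ≤ σ ^ 2 * (σ⁻¹ ^ 2 * q) := by gcongr
    have h5 : σ ^ 2 * (σ⁻¹ ^ 2 * q) = q := by field_simp
    rw [h5] at h4
    nlinarith
  rw [hτ, inv_mul_eq_div, one_le_div (by positivity)]
  exact h3

end Pool.Agent.S19249
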