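import Pool.Statements.S19332
import Pool.Agent.U131.RD.Rho

set_option autoImplicit false
open Pool Pool.MP_5501f7_pr

namespace Pool.Agent.S19332

/-- The negation of the preceding statement: For every finitely generated group with property RD and every finitely supported symmetric probability ν on it, with ρ the ℓ² norm of convolution by ν, the return probability ν^(2n)(e) is asymptotic to c·n^(-d)·ρ^(2n) for some c>0 and real d. -/
theorem result :
    ¬ (∀ (G : Type) [Group G],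
      (∃ S : Finset G, Subgroup.closure (S : Set G) = ⊤ ∧
        ∃ (C : ℝ) (s : ℕ), ∀ f g : G →₀ ℝ, ∀ T : Finset G,
          ∑ x ∈ T, (f.sum (fun y a => a * g (y⁻¹ * x))) ^ 2 ≤
            C * (f.sum (fun x a => a ^ 2 *
                  (1 + ((sInf {n : ℕ | ∃ l : List G, l.length = n ∧
                      (∀ y ∈ l, y ∈ S ∨ y⁻¹ ∈ S) ∧ l.prod = x} : ℕ) : ℝ)) ^ (2 * s)))
              * g.sum (fun _ a => a ^ 2)) →
      ∀ ν : G →₀ ℝ,
        (∀ x, 0 ≤ ν x) →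
        ν.sum (fun _ a => a) = 1 →
        (∀ x, ν x⁻¹ = ν x) →
        ∀ ρ : ℝ, 0 ≤ ρ →
          (∀ g : G →₀ ℝ, ∀ T : Finset G,
            ∑ x ∈ T, (ν.sum (fun y a => a * g (y⁻¹ * x))) ^ 2 ≤
              ρ ^ 2 * g.sum (fun _ a => a ^ 2)) →
          (∀ r : ℝ, 0 ≤ r → r < ρ → ∃ g : G →₀ ℝ, ∃ T : Finset G,
            r ^ 2 * g.sum (fun _ a => a ^ 2) <
              ∑ x ∈ T, (ν.sum (fun y a => a * g (y⁻¹ * x))) ^ 2) →
          ∃ c d : ℝ, 0 < c ∧
            Asymptotics.IsEquivalent Filter.atTop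
              (fun n : ℕ =>
                ((fun (h : G → ℝ) (x : G) => ν.sum (fun y a => a * h (y⁻¹ * x)))^[2 * n]
                  (Set.indicator ({1} : Set G) (fun _ => (1 : ℝ)))) 1)
              (fun n : ℕ => c * (n : ℝ) ^ (-d) * ρ ^ (2 * n))) := by
  intro hall
  have hrd : ∃ S : Finset U131.RD.Gm, Subgroup.closure (S : Set U131.RD.Gm) = ⊤ ∧
        ∃ (C : ℝ) (s : ℕ), ∀ f g : U131.RD.Gm →₀ ℝ, ∀ T : Finset U131.RD.Gm,
          ∑ x ∈ T, (f.sum (fun y a => a * g (y⁻¹ * x))) ^ 2 ≤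
            C * (f.sum (fun x a => a ^ 2 *
                  (1 + ((sInf {n : ℕ | ∃ l : List U131.RD.Gm, l.length = n ∧
                      (∀ y ∈ l, y ∈ S ∨ y⁻¹ ∈ S) ∧ l.prod = x} : ℕ) : ℝ)) ^ (2 * s)))
              * g.sum (fun _ a => a ^ 2) :=
    ⟨U131.RD.SS, U131.RD.closure_SS, U131.RD.rd_real⟩
  obtain ⟨ρ, h0, h1, h2⟩ := U131.RD.exists_rho U131.RD.nu U131.RD.nu_nonneg U131.RD.nu_mass
  obtain ⟨c, d, hc, hequiv⟩ := hall U131.RD.Gm hrd U131.RD.nu U131.RD.nu_nonneg U131.RD.nu_mass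
    U131.RD.nu_sym ρ h0 h1 h2
  have hl := U131.RD.lam_pos zero_lt_one (le_refl (1 : ℝ))
  refine U131.RD.series_contra U131.RD.bn_nonneg U131.RD.bn_sum U131.RD.bn_hasSum c d
    (ρ / U131.RD.lam 1) hc (by positivity) ?_
  have h3 : Asymptotics.IsEquivalent Filter.atTop (fun n : ℕ => U131.RD.un (2 * n))
      (fun n : ℕ => c * (n : ℝ) ^ (-d) * ρ ^ (2 * n)) := hequiv
  have h4 := h3.div (Asymptotics.IsEquivalent.refl
    (u := fun n : ℕ => U131.RD.lam 1 ^ (2 * n)) (l := Filter.atTop))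
  have e1 : (fun n : ℕ => c * (n : ℝ) ^ (-d) * (ρ / U131.RD.lam 1) ^ (2 * n)) =
      (fun n : ℕ => c * (n : ℝ) ^ (-d) * ρ ^ (2 * n)) / (fun n : ℕ => U131.RD.lam 1 ^ (2 * n)) := by
    funext n
    simp only [Pi.div_apply]
    rw [div_pow]
    ring
  rw [e1]
  exact h4

end Pool.Agent.S19332
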