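import Pool.Statements.S19341
-- import your own Pool.Agent.* helpers here
import Pool.Agent.U868.DG.Main

set_option autoImplicit false
open Pool Pool.MP_57c4e5_pr

namespace Pool.Agent.S19341

/-- For every α in (2,3) and every β>0, the integer-valued chain on [-N,N] with zero boundary and weight exp(-β Σ_{x≠y} ∣x-y∣^(-α)(φx-φy)²) has variance of φ at 0 tending to infinity as N grows. -/
theorem result :
    ∀ α : ℝ, 2 < α → α < 3 → ∀ β : ℝ, 0 < β →
      Filter.Tendsto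
        (fun N : ℕ =>
          (∑' φ : {φ : ℤ → ℤ // ∀ x : ℤ, (N : ℤ) < |x| → φ x = 0},
              ((φ.1 0 : ℝ)) ^ 2 *
                Real.exp (-β * ∑' p : ℤ × ℤ,
                  (if p.1 = p.2 then (0 : ℝ)
                   else ((|p.1 - p.2| : ℤ) : ℝ) ^ (-α) *
                     ((φ.1 p.1 : ℝ) - (φ.1 p.2 : ℝ)) ^ 2))) /
          (∑' φ : {φ : ℤ → ℤ // ∀ x : ℤ, (N : ℤ) < |x| → φ x = 0},
              Real.exp (-β * ∑' p : ℤ × ℤ,
                (if p.1 = p.2 then (0 : ℝ)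
                 else ((|p.1 - p.2| : ℤ) : ℝ) ^ (-α) *
                   ((φ.1 p.1 : ℝ) - (φ.1 p.2 : ℝ)) ^ 2))))
        Filter.atTop Filter.atTop := by
  intro α h2 _ β hβ
  set ε : ℝ := (α - 2) / 2 with hε
  have hε0 : 0 < ε := by rw [hε]; linarith
  have hαε : 2 < α - ε := by rw [hε]; linarith
  set C' : ℝ := β * ((2 ^ ε / (ε * Real.log 2)) * ∑' k : ℤ, 2 * |(k : ℝ)| ^ (-(α - ε - 1))) + 1
    with hC'
  have hC'pos : 0 < C' := by
    have hl2 : 0 < Real.log 2 := Real.log_pos (by norm_num)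
    have : 0 ≤ (2 ^ ε / (ε * Real.log 2)) * ∑' k : ℤ, 2 * |(k : ℝ)| ^ (-(α - ε - 1)) := by
      apply mul_nonneg
      · positivity
      · exact tsum_nonneg fun k => mul_nonneg (by norm_num) (Real.rpow_nonneg (abs_nonneg _) _)
    rw [hC']; positivity
  set z := ∑' k : ℤ, Real.exp (-(C' * (k : ℝ) ^ 2)) with hz
  set y := ∑' k : ℤ, (k : ℝ) ^ 2 * Real.exp (-(C' * (k : ℝ) ^ 2)) with hy
  have hz0 : 0 < z := (U868.DG.summable_gauss C' hC'pos).tsum_pos (fun _ => (Real.exp_pos _).le) 0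
    (Real.exp_pos _)
  have hy0 : 0 < y := (U868.DG.summable_sq_gauss C' hC'pos).tsum_pos (fun _ => by positivity) 1
    (by positivity)
  have hlog : Filter.Tendsto (fun N : ℕ => ((Nat.log 2 N : ℕ) : ℝ) * (y / z)) Filter.atTop
      Filter.atTop := by
    apply Filter.Tendsto.atTop_mul_const (div_pos hy0 hz0)
    apply tendsto_natCast_atTop_atTop.comp
    rw [Filter.tendsto_atTop]
    intro b
    filter_upwards [Filter.eventually_ge_atTop (2 ^ b)] with N hN
    exact Nat.le_log_of_pow_le (by norm_num) hN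
  refine Filter.tendsto_atTop_mono (fun N => ?_) hlog
  have hm : ∀ j : ℕ, j < Nat.log 2 N → 2 ^ j ≤ N := by
    intro j hj
    rcases Nat.eq_zero_or_pos N with h0 | h0
    · subst h0; simp at hj
    · exact (Nat.pow_le_pow_right (by norm_num) hj.le).trans (Nat.pow_log_le_self 2 h0.ne')
  have hkey := U868.DG.key α ε β hε0 hαε hβ (Nat.log 2 N) N hm C' hC'
  rw [← hz, ← hy] at hkey
  have e1 : (∑' φ : {φ : ℤ → ℤ // ∀ x : ℤ, (N : ℤ) < |x| → φ x = 0},
              ((φ.1 0 : ℝ)) ^ 2 *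
                Real.exp (-β * ∑' p : ℤ × ℤ,
                  (if p.1 = p.2 then (0 : ℝ)
                   else ((|p.1 - p.2| : ℤ) : ℝ) ^ (-α) *
                     ((φ.1 p.1 : ℝ) - (φ.1 p.2 : ℝ)) ^ 2))) =
      ∑' φ : U868.DG.Om N, (φ.1 0 : ℝ) ^ 2 * Real.exp (-(β * U868.DG.En α (U868.DG.toR φ.1))) := by
    have : ∀ φ : U868.DG.Om N, (φ.1 0 : ℝ) ^ 2 * Real.exp (-(β * U868.DG.En α (U868.DG.toR φ.1))) =
        ((φ.1 0 : ℝ)) ^ 2 *
                Real.exp (-β * ∑' p : ℤ × ℤ,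
                  (if p.1 = p.2 then (0 : ℝ)
                   else ((|p.1 - p.2| : ℤ) : ℝ) ^ (-α) *
                     ((φ.1 p.1 : ℝ) - (φ.1 p.2 : ℝ)) ^ 2)) := by
      intro φ
      rw [neg_mul]
      rfl
    simp only [this]
    rfl
  have e2 : (∑' φ : {φ : ℤ → ℤ // ∀ x : ℤ, (N : ℤ) < |x| → φ x = 0},
              Real.exp (-β * ∑' p : ℤ × ℤ,
                (if p.1 = p.2 then (0 : ℝ)
                 else ((|p.1 - p.2| : ℤ) : ℝ) ^ (-α) *
                   ((φ.1 p.1 : ℝ) - (φ.1 p.2 : ℝ)) ^ 2))) =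
      ∑' φ : U868.DG.Om N, Real.exp (-(β * U868.DG.En α (U868.DG.toR φ.1))) := by
    have : ∀ φ : U868.DG.Om N, Real.exp (-(β * U868.DG.En α (U868.DG.toR φ.1))) =
                Real.exp (-β * ∑' p : ℤ × ℤ,
                  (if p.1 = p.2 then (0 : ℝ)
                   else ((|p.1 - p.2| : ℤ) : ℝ) ^ (-α) *
                     ((φ.1 p.1 : ℝ) - (φ.1 p.2 : ℝ)) ^ 2)) := by
      intro φ
      rw [neg_mul]
      rfl
    simp only [this]
    rfl
  rw [e1, e2]
  have hZ0 : 0 < ∑' φ : U868.DG.Om N, Real.exp (-(β * U868.DG.En α (U868.DG.toR φ.1))) := by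
    have hs : Summable fun φ : U868.DG.Om N =>
        Real.exp (-(β * U868.DG.En α (U868.DG.toR φ.1))) := by
      refine Summable.of_nonneg_of_le (fun _ => (Real.exp_pos _).le) (fun φ => ?_)
        (U868.DG.summable_nrm N (β * (2 * (N : ℝ) + 1) ^ (-α)) (by positivity))
      rw [Real.exp_le_exp, neg_le_neg_iff, mul_assoc]
      apply mul_le_mul_of_nonneg_left _ hβ.le
      exact U868.DG.En_lower α (by linarith) N (U868.DG.toR φ.1) (fun x hx => by
        simp only [U868.DG.toR]; rw [U868.DG.mem_Om.1 φ.2 x hx, Int.cast_zero])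
    exact hs.tsum_pos (fun _ => (Real.exp_pos _).le) 0 (Real.exp_pos _)
  rw [le_div_iff₀ hZ0, mul_div_assoc', div_mul_eq_mul_div, div_le_iff₀ hz0]
  exact hkey

end Pool.Agent.S19341
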