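import Pool.Statements.S19353
import Pool.Agent.Helper764.KacFin

set_option autoImplicit false
open MeasureTheory Filter Topology
open Pool Pool.MP_5fc11c_pr

namespace Pool.Agent.S19353

/-- The first `n + 1` coordinates of an i.i.d. sequence. -/
lemma map_first (μ : Measure ℝ) [IsProbabilityMeasure μ] (n : ℕ) :
    (Measure.infinitePi (fun _ : ℕ => μ)).map (fun (ω : ℕ → ℝ) (k : Fin (n + 1)) => ω k)
      = Measure.pi fun _ : Fin (n + 1) => μ := by
  symm
  refine Measure.pi_eq fun s hs => ?_
  have hf : Measurable (fun (ω : ℕ → ℝ) (k : Fin (n + 1)) => ω k) :=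
    measurable_pi_lambda _ fun k => measurable_pi_apply _
  rw [Measure.map_apply hf (MeasurableSet.univ_pi hs)]
  let t : ℕ → Set ℝ := fun i => if h : i < n + 1 then s ⟨i, h⟩ else Set.univ
  have e : (fun (ω : ℕ → ℝ) (k : Fin (n + 1)) => ω k) ⁻¹' (Set.univ.pi s)
      = Set.pi (Finset.range (n + 1) : Set ℕ) t := by
    ext ω
    simp only [Set.mem_preimage, Set.mem_pi, Set.mem_univ, forall_const, Finset.coe_range,
      Set.mem_Iio, t]
    constructor
    · intro h i hi
      rw [dif_pos hi]
      exact h ⟨i, hi⟩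
    · intro h k
      have := h k.1 k.2
      rwa [dif_pos k.2] at this
  rw [e, Measure.infinitePi_pi]
  · rw [Finset.prod_range]
    refine Finset.prod_congr rfl fun k _ => ?_
    simp only [t]
    rw [dif_pos k.2]
  · intro i hi
    simp only [t]
    split_ifs with h
    · exact hs _
    · exact MeasurableSet.univ

lemma card_eq (p : Polynomial ℝ) : p.roots.toFinset.card = Kac764.nz p Set.univ := by
  unfold Kac764.nz
  rw [← Set.ncard_coe_finset]
  congr 1
  ext x
  simp [Polynomial.mem_roots']

lemma poly_eq (n : ℕ) (ω : ℕ → ℝ) :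
    (∑ k : Fin (n + 1), Polynomial.C (ω k) * Polynomial.X ^ (k : ℕ)) = Kac764.kac n ω := by
  unfold Kac764.kac
  rw [Finset.sum_range]

/-- For every real law with mean 0 and variance 1, the expected number of distinct real roots of the degree-n polynomial with i.i.d. coefficients of that law, minus (2/π) log n, converges to a finite real limit. -/
theorem result :
    ∀ (μ : Measure ℝ) [IsProbabilityMeasure μ],
      Integrable (fun x : ℝ => x ^ 2) μ →
      ∫ x, x ∂μ = 0 →
      ∫ x, x ^ 2 ∂μ = 1 →
      ∃ C : ℝ, Tendsto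
        (fun n : ℕ =>
          (∫⁻ c : Fin (n + 1) → ℝ,
              (((∑ k : Fin (n + 1), Polynomial.C (c k) * Polynomial.X ^ (k : ℕ)).roots.toFinset.card : ℕ) : ENNReal)
              ∂(Measure.pi fun _ : Fin (n + 1) => μ)).toReal
            - 2 / Real.pi * Real.log (n : ℝ))
        atTop (𝓝 C) := by
  intro μ _ hint hmean hvar
  have hμ : Kac764.Std μ := ⟨inferInstance, hint, hmean, hvar⟩
  obtain ⟨L, _, h2⟩ := Kac764.Fin.main μ hμ
  refine ⟨_, h2.congr fun n => ?_⟩
  congr 1
  have hf : Measurable (fun (ω : ℕ → ℝ) (k : Fin (n + 1)) => ω k) :=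
    measurable_pi_lambda _ fun k => measurable_pi_apply _
  have hm : Measurable (fun ω : ℕ → ℝ => Kac764.nz (Kac764.kac n ω) Set.univ) :=
    Kac764.H4.measurable_nz_set n Set.univ (Or.inl rfl)
  let ext : (Fin (n + 1) → ℝ) → (ℕ → ℝ) := fun c i => if h : i < n + 1 then c ⟨i, h⟩ else 0
  have hext : Measurable ext := by
    refine measurable_pi_lambda _ fun i => ?_
    simp only [ext]
    split_ifs with h
    · exact measurable_pi_apply _
    · exact measurable_const
  have hext2 : ∀ c : Fin (n + 1) → ℝ, ∀ k : Fin (n + 1), ext c k = c k := by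
    intro c k
    simp only [ext]
    rw [dif_pos k.2]
  have hg : Measurable (fun c : Fin (n + 1) → ℝ =>
      (((∑ k : Fin (n + 1), Polynomial.C (c k) * Polynomial.X ^ (k : ℕ)).roots.toFinset.card : ℕ) : ENNReal)) := by
    have e : (fun c : Fin (n + 1) → ℝ =>
        (((∑ k : Fin (n + 1), Polynomial.C (c k) * Polynomial.X ^ (k : ℕ)).roots.toFinset.card : ℕ) : ENNReal))
        = fun c => ((Kac764.nz (Kac764.kac n (ext c)) Set.univ : ℕ) : ENNReal) := by
      funext c
      rw [← poly_eq, ← card_eq]
      simp only [hext2]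
    rw [e]
    exact (measurable_from_top (f := fun m : ℕ => (m : ENNReal))).comp (hm.comp hext)
  rw [← map_first μ n, lintegral_map hg hf]
  simp only [card_eq, poly_eq]
  have hm' : Measurable (fun ω : ℕ → ℝ => (Kac764.nz (Kac764.kac n ω) Set.univ : ℝ)) :=
    (measurable_from_top (f := fun m : ℕ => (m : ℝ))).comp hm
  rw [integral_eq_lintegral_of_nonneg_ae (Filter.Eventually.of_forall fun ω => by positivity)
    hm'.aestronglyMeasurable]
  congr 1
  refine lintegral_congr fun ω => ?_
  rw [ENNReal.ofReal_natCast]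

end Pool.Agent.S19353
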