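import Pool.Statements.S19444
import Pool.Agent.U139.DR3

set_option autoImplicit false
open Filter Topology
open Pool Pool.MP_85987b_pr

namespace Pool.Agent.S19444

open Pool.Agent.U139.DR in
/-- The asymptotics fail under the critical condition alone. The counterexample has `m = 2`,
`p 0 0 = c / 2` and `p 0 k = 2 c / (2 ^ k k (k + 1) (k + 2))` for `k ≥ 1`, and the asymptotics fail at
`s = 1 / 2`. -/
theorem result :
    ¬ (∀ (m : ℕ), 2 ≤ m → ∀ p : ℕ → ℕ → ℝ,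
      (∀ k, 0 ≤ p 0 k) → HasSum (p 0) 1 →
      (∀ n k, p (n + 1) k =
          (∑ x : Fin m → Fin (k + 2),
              if (∑ i, (x i : ℕ)) = k + 1 then ∏ i, p n (x i) else 0)
          + (if k = 0 then p n 0 ^ m else 0)) →
      Summable (fun k : ℕ => p 0 k * (m : ℝ) ^ k) →
      Summable (fun k : ℕ => (k : ℝ) * p 0 k * (m : ℝ) ^ k) →
      ((m : ℝ) - 1) * (∑' k : ℕ, (k : ℝ) * p 0 k * (m : ℝ) ^ k)
          = ∑' k : ℕ, p 0 k * (m : ℝ) ^ k →
      0 < p 0 0 →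
      ∀ s : ℝ, 0 < s → s < (m : ℝ) → s ≠ 1 →
        Tendsto
          (fun n : ℕ =>
            ((∑' k : ℕ, p n k * s ^ k) - 1) /
              (4 * (m : ℝ) / (((m : ℝ) - 1) ^ 2) * ((s - 1) / ((m : ℝ) - s)) / ((n : ℝ) ^ 2)))
          atTop (𝓝 1)) := by
  intro H
  have hT : HasSum (fun k : ℕ => (k : ℝ) * p0 k * 2 ^ k) c := by
    have h1 := p0_T 0
    simpa using h1
  have h := H 2 le_rfl p p0_nonneg p0_hasSum (fun n k => rfl)
    (by
      show Summable fun k : ℕ => p0 k * ((2 : ℕ) : ℝ) ^ k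
      simpa using p0_A.summable)
    (by
      show Summable fun k : ℕ => (k : ℝ) * p0 k * ((2 : ℕ) : ℝ) ^ k
      simpa using hT.summable)
    (by
      have e1 := hT.tsum_eq
      have e2 := p0_A.tsum_eq
      push_cast
      show ((2 : ℝ) - 1) * (∑' k : ℕ, (k : ℝ) * p0 k * 2 ^ k) = ∑' k : ℕ, p0 k * 2 ^ k
      rw [e1, e2]
      ring)
    (by
      show 0 < p0 0
      rw [p0_zero]
      have := c_pos
      linarith)
    (1 / 2) (by norm_num) (by norm_num) (by norm_num)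
  have h1 : ∀ᶠ n : ℕ in atTop, (15 : ℝ) / 16 <
      ((∑' k : ℕ, p n k * (1 / 2 : ℝ) ^ k) - 1) /
              (4 * ((2 : ℕ) : ℝ) / ((((2 : ℕ) : ℝ) - 1) ^ 2) *
                ((1 / 2 - 1) / (((2 : ℕ) : ℝ) - 1 / 2)) / ((n : ℝ) ^ 2)) :=
    h.eventually (lt_mem_nhds (by norm_num))
  obtain ⟨N, hN⟩ := (h1.and (eventually_ge_atTop 1)).exists_forall_of_atTop
  refine contradiction (s₀ := N) fun n hn => ?_
  obtain ⟨h2, h3⟩ := hN n hn
  have h4 := p_zero_le n (s := 1 / 2) (by norm_num) (by norm_num)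
  set S := ∑' k : ℕ, p n k * (1 / 2 : ℝ) ^ k with hS
  have hn0 : (0 : ℝ) < n := by exact_mod_cast h3
  have h5 : (S - 1) / (4 * ((2 : ℕ) : ℝ) / ((((2 : ℕ) : ℝ) - 1) ^ 2) *
                ((1 / 2 - 1) / (((2 : ℕ) : ℝ) - 1 / 2)) / ((n : ℝ) ^ 2)) =
      (1 - S) * (3 / 8 * (n : ℝ) ^ 2) := by
    field_simp
    push_cast
    ring
  rw [h5] at h2
  have h6 : 5 / (2 * (n : ℝ) ^ 2) ≤ 1 - S := by
    rw [div_le_iff₀ (by positivity)]
    nlinarith
  linarith

end Pool.Agent.S19444
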