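import Pool.Statements.S19665
import Pool.Agent.U140.SG.Fin2

set_option autoImplicit false
open Classical
open Pool Pool.MP_d68eb8_pr

namespace Pool.Agent.S19665

/-- For any ε>0 and n^(-3/4+ε) ≤ p_n ≤ n^(-ε), the probability tends to 1 that G(n,p_n) is determined up to isomorphism by the multiset of its rooted induced radius-2 balls taken up to rooted isomorphism. -/
theorem result :
  ∀ ε : ℝ, 0 < ε → ∀ p : ℕ → ℝ,
    (∀ᶠ n : ℕ in Filter.atTop,
      (n : ℝ) ^ (-(3/4 : ℝ) + ε) ≤ p n ∧ p n ≤ (n : ℝ) ^ (-ε)) →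
    Filter.Tendsto
      (fun n : ℕ => ∑ G : SimpleGraph (Fin n),
        if (∀ H : SimpleGraph (Fin n),
              (∃ σ : Fin n ≃ Fin n, ∀ v : Fin n,
                ∃ f : Fin n → Fin n, f v = σ v ∧
                  Set.BijOn f {w | G.edist v w ≤ 2} {w | H.edist (σ v) w ≤ 2} ∧
                  ∀ a ∈ {w | G.edist v w ≤ 2}, ∀ b ∈ {w | G.edist v w ≤ 2},
                    (G.Adj a b ↔ H.Adj (f a) (f b))) →
              Nonempty (G ≃g H))
        then p n ^ G.edgeFinset.card * (1 - p n) ^ (n.choose 2 - G.edgeFinset.card)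
        else 0)
      Filter.atTop (nhds 1) := by
  intro ε hε p hp
  have h := Pool.Agent.U140.SG.final hε p hp
  refine h.congr fun n => Finset.sum_congr rfl fun G _ => ?_
  refine ite_congr (propext ?_) (fun _ => ?_) (fun _ => rfl)
  · exact Iff.rfl
  · congr!

end Pool.Agent.S19665
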