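import Pool.Statements.S19735
-- import your own Pool.Agent.* helpers here
import Pool.Agent.W840.FeigeMain

set_option autoImplicit false
open Pool Pool.MP_f10e5d_pr

namespace Pool.Agent.S19735

/-- For all n and all p_i in (0,1), independent X_i equal to 0 with probability p_i and to 1/(1-p_i) otherwise satisfy P(X_1+...+X_n < n+1) ≥ 1/e, with the probability written as a finite sum over the set of nonzero X_i. -/
theorem result :
    ∀ n : ℕ, ∀ p : Fin n → ℝ, (∀ i, 0 < p i ∧ p i < 1) →
      Real.exp (-1) ≤
        ∑ S ∈ (Finset.univ : Finset (Finset (Fin n))).filter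
            (fun S => ∑ i ∈ S, 1 / (1 - p i) < (n : ℝ) + 1),
          (∏ i ∈ S, (1 - p i)) * ∏ i ∈ Sᶜ, p i := by
  intro n p hp
  rcases Nat.eq_zero_or_pos n with h0 | h0
  · subst h0
    have e1 : (Finset.univ : Finset (Finset (Fin 0))) = {∅} := by
      rw [← Finset.powerset_univ]
      simp
    rw [e1, Finset.sum_filter, Finset.sum_singleton, if_pos (by simp)]
    simp
  have hn : (0 : ℝ) < n := by exact_mod_cast h0
  have hmul : ∀ i, (1 - p i) * (1 / (1 - p i)) = 1 := by
    intro i
    have := hp i
    have h1 : (1 - p i) ≠ 0 := by linarith [this.2]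
    field_simp
  have h := Pool.Agent.W840.FeigeCore.feige (q := fun i => 1 - p i) (a := fun i => 1 / (1 - p i))
    (fun i => ⟨by linarith [(hp i).2], by linarith [(hp i).1]⟩)
    (fun i => by have := (hp i).2; exact one_div_pos.mpr (by linarith))
    (fun i => (hmul i).le) (T := (n : ℝ) + 1) (by linarith) Finset.univ
    (by
      have : ∑ i : Fin n, (1 - p i) * (1 / (1 - p i)) = (n : ℝ) := by
        rw [Finset.sum_congr rfl (fun i _ => hmul i)]
        simp
      rw [this]; linarith)
  refine h.trans (le_of_eq ?_)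
  unfold Pool.Agent.W840.FeigeCore.U Pool.Agent.W840.FeigeCore.E
  rw [Finset.powerset_univ, Finset.sum_filter]
  refine Finset.sum_congr rfl fun S _ => ?_
  unfold Pool.Agent.W840.FeigeCore.ind
  have h1 : ∏ i ∈ Finset.univ \ S, (1 - (1 - p i)) = ∏ i ∈ Sᶜ, p i := by
    rw [← Finset.compl_eq_univ_sdiff]
    exact Finset.prod_congr rfl fun i _ => by ring
  rw [h1]
  split_ifs <;> ring

end Pool.Agent.S19735
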